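import Mathlib

/-!
# Hypergraphs with 2-colourable traces have linear size nets (MP_9b5ec2_co)

All statements (`...Stmt : Prop`) of the proof of:

THEOREM. For every `m` there is `C` such that every finite hypergraph all of whose traces are
2-colourable w.r.t. edges with at least `m` points satisfies `tau ≤ C tau*`.

Every module of this folder proves one `...Stmt`, possibly from other `...Stmt`s given as
hypotheses. The complete proof of each statement is in its docstring.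
Notation: `n = Fintype.card V`.
-/

set_option autoImplicit false

namespace Pool.Agent.Lib.MP_9b5ec2_co

open Finset

/-- Every trace is 2-colourable for the edges having at least `m` points in the trace:
for every set `S` of points there is a set `R` (the red points) such that every edge with at
least `m` points in `S` has a red and a non-red point in `S`. -/
def TwoCol {V ι : Type} [DecidableEq V] (m : ℕ) (A : ι → Finset V) : Prop :=
  ∀ S : Finset V, ∃ R : Finset V, ∀ i : ι, m ≤ (A i ∩ S).card →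
    (A i ∩ S ∩ R).Nonempty ∧ ((A i ∩ S) \ R).Nonempty

/-- The number of members of `F` through `v`. -/
def deg {V ι : Type} [DecidableEq V] (A : ι → Finset V) (F : Finset ι) (v : V) : ℕ :=
  (F.filter (fun e => v ∈ A e)).card

/-- The number of members of `F` through `v` that meet `T` in a point other than `v`. -/
def hitDeg {V ι : Type} [DecidableEq V] (A : ι → Finset V) (F : Finset ι) (T : Finset V)
    (v : V) : ℕ :=
  (F.filter (fun e => v ∈ A e ∧ ((A e).erase v ∩ T).Nonempty)).card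

/-- The expectation of `f T` for a random subset `T` of `X` that contains every element of `X`
independently with probability `p`. -/
noncomputable def Ex {V : Type} [DecidableEq V] (p : ℝ) (X : Finset V) (f : Finset V → ℝ) : ℝ :=
  ∑ T ∈ X.powerset, p ^ T.card * (1 - p) ^ (X.card - T.card) * f T

/-- SECOND MOMENT. `F` is a family of at most `d` sets `B e`, of size at most `2a`, with pairwise
intersections at most `g a`. Let `h(T)` be the number of `e ∈ F` with `B e` meeting the random set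
`T`. Then `E[h 1(h > 4 p a d)] ≤ 2 + g d`.

PROOF. Put `x_e = 1` if `B e` meets `T` and `0` otherwise, `h = Σ x_e`, `μ = 2 p a d > 0`.
`1 - E x_e = (1-p)^|B_e ∩ X|`, so `E x_e ≤ p |B_e ∩ X| ≤ 2 p a` (Bernoulli inequality) and
`E h ≤ μ`. For `e ≠ f`: `Cov(x_e, x_f) = Cov(1 - x_e, 1 - x_f)
= (1-p)^|(B_e ∪ B_f) ∩ X| - (1-p)^(|B_e ∩ X| + |B_f ∩ X|)
= (1-p)^|(B_e ∪ B_f) ∩ X| (1 - (1-p)^|B_e ∩ B_f ∩ X|) ≤ p |B_e ∩ B_f ∩ X| ≤ p g a`, and
`Var x_e ≤ E x_e ≤ 2 p a`. Hence `Var h ≤ 2 p a d + d² p g a = μ (1 + g d / 2)`.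
If `h > 2 μ` then `h - E h ≥ h - μ > μ` and `h - μ ≥ h/2`, so
`h ≤ 2 (h - μ) ≤ 2 (h - μ)² / μ ≤ 2 (h - E h)² / μ`. So `E[h 1(h > 2μ)] ≤ 2 Var h / μ ≤ 2 + g d`.
(`4 p a d = 2 μ`.) -/
def SecondMomentStmt : Prop :=
  ∀ (V ι : Type) [DecidableEq V] [DecidableEq ι] (X : Finset V) (F : Finset ι)
    (B : ι → Finset V) (p a g d : ℝ), 0 < p → p ≤ 1 → 0 < a → 0 ≤ g → 0 < d →
    (F.card : ℝ) ≤ d →
    (∀ e ∈ F, ((B e).card : ℝ) ≤ 2 * a) →
    (∀ e ∈ F, ∀ f ∈ F, e ≠ f → ((B e ∩ B f).card : ℝ) ≤ g * a) →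
    Ex p X (fun T => if 4 * (p * a) * d < ((F.filter (fun e => (B e ∩ T).Nonempty)).card : ℝ)
      then ((F.filter (fun e => (B e ∩ T).Nonempty)).card : ℝ) else 0) ≤ 2 + g * d

/-- LOWER TAIL. For `Y ⊆ X` the probability that `|T ∩ Y| < p |Y| / 2` is at most
`exp (- p |Y| / 8)`.

PROOF. With `y = |Y|`, the indicator is at most `2^(p y / 2) (1/2)^|T ∩ Y|` and
`E (1/2)^|T ∩ Y| = (1 - p/2)^y ≤ exp (- p y / 2)`. So the expectation is at most
`exp ((log 2 - 1) p y / 2) ≤ exp (- p y / 8)` because `log 2 ≤ 3/4`. -/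
def TailStmt : Prop :=
  ∀ (V : Type) [DecidableEq V] (X Y : Finset V) (p : ℝ), 0 ≤ p → p ≤ 1 → Y ⊆ X →
    Ex p X (fun T => if 2 * ((T ∩ Y).card : ℝ) < p * (Y.card : ℝ) then 1 else 0) ≤
      Real.exp (-(p * (Y.card : ℝ)) / 8)

/-- SELECTION of the random set `T`.

PROOF (from `SecondMomentStmt`, `TailStmt`). Write `n = card V` (positive because of the hypothesis
`40 s ≤ θ σ n`), `p = θ / s ∈ (0, 1]`, `X = univ \ U`, `T` random subset of `X`. Note `lam j > 0`.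
It is enough that the sum of the expectations of the following nonnegative quantities is `< 1`
(then some `T ⊆ X` has all of them `< 1`, which gives the conclusions):
* `|T| s / (10 θ n)`: expectation `≤ p n s / (10 θ n) = 1/10`.
* for each `j`: `hits_j(T) s / (40 k C θ lam_j n)`; `E hits_j ≤ |fam j| p 2 s`, so the expectation
  is at most `2 θ (|fam j| s) / (40 k C θ lam_j n) ≤ 1/(20 k)`.
* for each `j`: `Σ_e |A_e ∩ T| (|A_e ∩ T| - 1) s / (40 k C θ² lam_j n)`. The expectation of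
  `|A_e ∩ T| (|A_e ∩ T| - 1)` (the number of ordered pairs of distinct points of `A_e ∩ T`) is
  `≤ p² (2s)² = 4 θ²`, so this is at most `4 θ² |fam j| s / (40 k C θ² lam_j n) ≤ 1/(10 k)`.
* for each `j`: `Σ_v (hitDeg ...) 1(deg ≤ D lam_j, hitDeg > 4 D θ lam_j) / (ε θ lam_j n)`. For a
  fixed `v` with `deg A (fam j) v ≤ D lam_j` apply `SecondMomentStmt` with
  `F = {e ∈ fam j, v ∈ A e}`, `B e = (A e).erase v`, `a = s`, `g = γ`, `d = D lam_j`,
  `4 (p s) d = 4 θ D lam_j`: the expectation is at most `2 + γ D lam_j`. Sum over `v`: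
  `≤ n (2 + γ D lam_j) / (ε θ lam_j n) = 2/(ε θ lam_j) + γ D/(ε θ) ≤ 1/(20k) + 1/(20k)`.
* for each `W ⊆ U`: the indicator of `2 |T ∩ Z_W| < p |Z_W|`: by `TailStmt` its expectation is at
  most `exp (- p |Z_W| / 8) ≤ exp (- θ σ n / (8 s))`; there are `2^|U|` sets `W` and
  `|U| ≤ η n / s ≤ θ σ n / (10 s)`, `log 2 ≤ 0.6932`; so the sum is at most
  `exp (- (0.125 - 0.0694) θ σ n / s) ≤ exp (- 0.0556 * 40) < 0.11`.
The total is at most `1/10 + 1/20 + 1/10 + 1/10 + 0.11 < 1` (the sums over `j` have at most `k`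
terms). If the indicator for `W` is `< 1` it is `0`, so `p |Z_W| ≤ 2 |T ∩ Z_W|`, the last
conclusion after multiplication with `s`. -/
def SelectStmt : Prop :=
  ∀ (V ι J : Type) [Fintype V] [DecidableEq V] [DecidableEq ι] [Fintype J]
    (A : ι → Finset V) (U : Finset V) (fam : J → Finset ι) (lam : J → ℝ)
    (Zof : Finset V → Finset V) (s γ C D σ θ ε η k : ℝ),
    (Fintype.card J : ℝ) ≤ k → 1 ≤ k → 0 < C → 0 < D → 0 < σ → 0 < θ → θ ≤ 1 → 0 < ε → 0 ≤ γ →
    0 ≤ η → 1 ≤ s →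
    (∀ e, ((A e).card : ℝ) ≤ 2 * s) →
    (∀ e f, e ≠ f → ((A e ∩ A f).card : ℝ) ≤ γ * s) →
    (∀ j, 40 * k ≤ ε * θ * lam j) → 20 * k * (γ * D) ≤ ε * θ →
    (∀ j, ((fam j).card : ℝ) * s ≤ C * lam j * (Fintype.card V : ℝ)) →
    (U.card : ℝ) * s ≤ η * (Fintype.card V : ℝ) → 10 * η ≤ θ * σ →
    40 * s ≤ θ * σ * (Fintype.card V : ℝ) →
    (∀ W, W ⊆ U → Disjoint (Zof W) U ∧ σ * (Fintype.card V : ℝ) ≤ ((Zof W).card : ℝ)) →
    ∃ T : Finset V, Disjoint T U ∧
      (T.card : ℝ) * s ≤ 10 * θ * (Fintype.card V : ℝ) ∧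
      (∀ j, (((fam j).filter (fun e => (A e ∩ T).Nonempty)).card : ℝ) * s ≤
        40 * k * C * θ * lam j * (Fintype.card V : ℝ)) ∧
      (∀ j, (∑ e ∈ fam j, ((A e ∩ T).card : ℝ) * (((A e ∩ T).card : ℝ) - 1)) * s ≤
        40 * k * C * θ ^ 2 * lam j * (Fintype.card V : ℝ)) ∧
      (∀ j, ∑ v ∈ univ.filter (fun v => (deg A (fam j) v : ℝ) ≤ D * lam j ∧
          4 * D * θ * lam j < (hitDeg A (fam j) T v : ℝ)), (hitDeg A (fam j) T v : ℝ) ≤
        ε * θ * lam j * (Fintype.card V : ℝ)) ∧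
      (∀ W, W ⊆ U → θ * ((Zof W).card : ℝ) ≤ 2 * s * ((T ∩ Zof W).card : ℝ))

/-- CLEANING. `F c` (`c : Bool`) are two families of edges with degrees at least `τ c` on `Z`. There
are subfamilies `F' c` and `Z' ⊆ Z` such that the degrees on `Z'` are still at least `τ c / 2`, and
every member of `F' c` has at least `q` points in `Z'`, and few points are lost.

PROOF. Consider all triples `(Z', F')` with `Z' ⊆ Z`, `F' c ⊆ F c` that satisfy the invariant
`|Z \ Z'| + Σ_c Σ_{v ∈ Z'} (deg (F c) v - deg (F' c) v) / (τ c / 2)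
   ≤ Σ_c q |F c \ F' c| / (τ c / 2)`.
The triple `(Z, F)` satisfies it. Take one with `|Z'| + Σ_c |F' c|` minimal.
(1) If some `e ∈ F' c` had `|A e ∩ Z'| < q`: remove `e` from `F' c`. The left side grows by
`|A e ∩ Z'| / (τ c / 2)`, the right side by `q / (τ c / 2)`: still valid, contradiction to
minimality. (2) If some `v ∈ Z'` and `c` had `deg (F' c) v < τ c / 2`: remove `v` from `Z'`.
`|Z \ Z'|` grows by one and the sum loses the (nonnegative) terms of `v`, the one of `c` being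
`(deg (F c) v - deg (F' c) v)/(τ c / 2) > (τ c - τ c / 2)/(τ c / 2) = 1`: still valid,
contradiction. So the minimal triple has both properties, and the invariant gives the bound
(`|F c \ F' c| ≤ |F c|`). -/
def CleanStmt : Prop :=
  ∀ (V ι : Type) [DecidableEq V] [DecidableEq ι] (A : ι → Finset V) (Z : Finset V)
    (F : Bool → Finset ι) (τ : Bool → ℝ) (q : ℝ), 0 ≤ q → (∀ c, 0 < τ c) →
    (∀ c, ∀ v ∈ Z, τ c ≤ (deg A (F c) v : ℝ)) →
    ∃ (Z' : Finset V) (F' : Bool → Finset ι), Z' ⊆ Z ∧ (∀ c, F' c ⊆ F c) ∧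
      (∀ c, ∀ v ∈ Z', τ c / 2 ≤ (deg A (F' c) v : ℝ)) ∧
      (∀ c, ∀ e ∈ F' c, q ≤ ((A e ∩ Z').card : ℝ)) ∧
      ((Z \ Z').card : ℝ) ≤ ∑ c : Bool, q * ((F c).card : ℝ) / (τ c / 2)

/-- The data attached to the colouring `W` (set of red points) of `U`: for both colours `c`
(`true` = red) a family `F c ⊆ fam (i c)` of edges having exactly `a c` points in `U`, all of them
of colour `c`; all points of the region `Z` have degree at least `ρ lam` in `F c`, and at most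
`D lam` in `fam (i c)`. -/
structure Dat {V ι J : Type} [DecidableEq V] (A : ι → Finset V) (U : Finset V)
    (fam : J → Finset ι) (lam : J → ℝ) (D ρ : ℝ) (r : ℕ) (W : Finset V)
    (a : Bool → ℕ) (i : Bool → J) (F : Bool → Finset ι) (Z : Finset V) : Prop where
  hr : a true + a false = r
  hF : ∀ c, F c ⊆ fam (i c)
  hcard : ∀ c, ∀ e ∈ F c, (A e ∩ U).card = a c
  hcol : ∀ c, ∀ e ∈ F c, ∀ x ∈ A e ∩ U, decide (x ∈ W) = c
  hZ : Disjoint Z U
  hlow : ∀ c, ∀ v ∈ Z, ρ * lam (i c) ≤ (deg A (F c) v : ℝ)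
  hup : ∀ c, ∀ v ∈ Z, (deg A (fam (i c)) v : ℝ) ≤ D * lam (i c)

/-- The old families and the families of the edges hit by `T`. -/
def newFam {V ι J : Type} [DecidableEq V] (A : ι → Finset V) (T : Finset V)
    (fam : J → Finset ι) : J ⊕ J → Finset ι :=
  Sum.elim fam (fun j => (fam j).filter (fun e => (A e ∩ T).Nonempty))

/-- The old scales and the old scales times `θ`. -/
def newLam {J : Type} (θ : ℝ) (lam : J → ℝ) : J ⊕ J → ℝ :=
  Sum.elim lam (fun j => θ * lam j)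

/-- THE STEP for one colouring `W'` of `U ∪ T`.

PROOF. Write `n = card V`. Let `c` be the majority colour on `T ∩ Z`:
`Tc = {u ∈ T ∩ Z : decide (u ∈ W') = c}` has `2 |Tc| ≥ |T ∩ Z|`, so `|Tc| ≥ θ |Z| / (4 s)
≥ θ σ n / (4 s)`. Put (`lam = lam (i c)`)
* `F' c = {e ∈ F c : |A e ∩ T| = 1 and ∀ x ∈ A e ∩ T, decide (x ∈ W') = c}`, `a' c = a c + 1`,
  `i' c = inr (i c)`;
* `F' (!c) = {e ∈ F (!c) : A e ∩ T = ∅}`, `a' (!c) = a (!c)`, `i' (!c) = inl (i (!c))`.
`hr, hF, hcard, hcol` are clear (`A e ∩ (U ∪ T)` is the disjoint union of `A e ∩ U` and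
`A e ∩ T`; for `x ∈ U`: `x ∈ W' ∩ U ↔ x ∈ W'`).
SIZE of `F' c`: count the pairs `(u, e)`, `u ∈ Tc`, `e ∈ F c`, `u ∈ A e`: at least `|Tc| ρ lam`.
An `e` with `|A e ∩ T| = 1` takes part in at most one pair, and if it does it is in `F' c`; an `e`
with `|A e ∩ T| = x ≥ 2` takes part in at most `x ≤ x (x - 1)` pairs. Hence
`|Tc| ρ lam ≤ |F' c| + Σ_{e ∈ fam (i c)} |A e ∩ T| (|A e ∩ T| - 1)` and so
`|F' c| s ≥ (θ σ ρ / 4) lam n - 40 k C θ² lam n ≥ (θ σ ρ / 8) lam n` (as `320 k C θ ≤ σ ρ`).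
MASS: each `e ∈ F' c` has `|A e ∩ (Z \ T)| ≥ κ s - 1 ≥ κ s / 2`, so
`Σ_{v ∈ Z \ T} deg (F' c) v = Σ_{e ∈ F' c} |A e ∩ (Z \ T)| ≥ (κ σ ρ / 16) θ lam n`.
For `v ∉ T`, `deg (F' c) v ≤ deg (newFam (inr (i c))) v = hitDeg (fam (i c)) T v`.
Call `v` bad for `j` if `deg (fam j) v ≤ D lam_j` and `hitDeg (fam j) T v > 4 D θ lam_j`. By the
hypothesis with `ε = κ σ ρ / 128`, the sum of `hitDeg (fam (i c)) T v` over the `v` bad for `i c`
is at most `ε θ lam n`, and the number of `v` bad for `j` is at most `ε n / (4 D)`.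
Let `Z'` be the set of `v ∈ Z \ T`, bad neither for `i c` nor for `i (!c)`, with
`deg (F' c) v ≥ (κ σ ρ / 64) θ lam`. The mass outside `Z'` is at most
`ε θ lam n` (bad for `i c`) `+ (ε n/(4D)) 4 D θ lam` (bad for `i (!c)` but not for `i c`)
`+ (κ σ ρ / 64) θ lam n` (small degree) `= (κ σ ρ / 32) θ lam n`. So the mass on `Z'` is at least
`(κ σ ρ / 32) θ lam n`, and each `v ∈ Z'` carries at most `4 D θ lam`:
`|Z'| ≥ (κ σ ρ / (128 D)) n`.
DEGREES on `Z'`: for `c`: lower bound by definition of `Z'`, upper bound `hitDeg ≤ 4 D θ lam`.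
For `!c` (`j = i (!c)`): `deg (F' (!c)) v ≥ deg (F (!c)) v - hitDeg (fam j) T v
≥ ρ lam_j - 4 D θ lam_j ≥ (ρ / 2) lam_j`, and `deg (fam j) v ≤ D lam_j ≤ 4 D lam_j`. -/
def StepStmt : Prop :=
  ∀ (V ι J : Type) [Fintype V] [DecidableEq V] [DecidableEq ι]
    (A : ι → Finset V) (U T W' : Finset V) (fam : J → Finset ι) (lam : J → ℝ)
    (s C D σ ρ κ θ k : ℝ) (r : ℕ) (a : Bool → ℕ) (i : Bool → J) (F : Bool → Finset ι)
    (Z : Finset V),
    0 < s → 0 < C → 0 < D → 0 < σ → 0 < ρ → 0 < κ → 0 < θ → 0 < k → (∀ j, 0 < lam j) →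
    Dat A U fam lam D ρ r (W' ∩ U) a i F Z →
    σ * (Fintype.card V : ℝ) ≤ (Z.card : ℝ) →
    (∀ c, ∀ e ∈ F c, κ * s ≤ ((A e ∩ Z).card : ℝ)) → 2 ≤ κ * s →
    Disjoint T U →
    (∀ j, (∑ e ∈ fam j, ((A e ∩ T).card : ℝ) * (((A e ∩ T).card : ℝ) - 1)) * s ≤
        40 * k * C * θ ^ 2 * lam j * (Fintype.card V : ℝ)) →
    (∀ j, ∑ v ∈ univ.filter (fun v => (deg A (fam j) v : ℝ) ≤ D * lam j ∧
          4 * D * θ * lam j < (hitDeg A (fam j) T v : ℝ)), (hitDeg A (fam j) T v : ℝ) ≤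
        (κ * σ * ρ / 128) * θ * lam j * (Fintype.card V : ℝ)) →
    θ * (Z.card : ℝ) ≤ 2 * s * ((T ∩ Z).card : ℝ) →
    320 * k * C * θ ≤ σ * ρ → 8 * D * θ ≤ ρ →
    ∃ (a' : Bool → ℕ) (i' : Bool → J ⊕ J) (F' : Bool → Finset ι) (Z' : Finset V),
      Dat A (U ∪ T) (newFam A T fam) (newLam θ lam) (4 * D) (min (κ * σ * ρ / 64) (ρ / 2))
        (r + 1) W' a' i' F' Z' ∧
      κ * σ * ρ / (128 * D) * (Fintype.card V : ℝ) ≤ (Z'.card : ℝ)

/-- A position after `r` rounds: a small set `U`, colour independent families `fam j` at the scales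
`lam j`, and for every colouring `W` of `U` a `Dat` with a region of at least `σ n` points. -/
structure Pos {V ι J : Type} [Fintype V] [DecidableEq V] (A : ι → Finset V) (s : ℝ)
    (C D σ ρ Λ η : ℝ) (r : ℕ) (U : Finset V) (fam : J → Finset ι) (lam : J → ℝ) : Prop where
  hU : (U.card : ℝ) * s ≤ η * (Fintype.card V : ℝ)
  hlam : ∀ j, Λ ≤ lam j
  hfam : ∀ j, ((fam j).card : ℝ) * s ≤ C * lam j * (Fintype.card V : ℝ)
  good : ∀ W, W ⊆ U → ∃ (a : Bool → ℕ) (i : Bool → J) (F : Bool → Finset ι) (Z : Finset V),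
    Dat A U fam lam D ρ r W a i F Z ∧ σ * (Fintype.card V : ℝ) ≤ (Z.card : ℝ)

/-- NO POSITIONS with `t` rounds to go (`t + r = 2 m - 1`), for suitable constants.

PROOF by induction on `t` (from `CleanStmt`, `SelectStmt`, `StepStmt`).
`t = 0`: `r = 2m - 1`; take `Λ = η = γ = M = 1`. Let `R` be the colouring given by `TwoCol` for
`S = U`, `W = R ∩ U`. Get `a, i, F, Z`. As `a true + a false = 2m - 1`, some `c` has `m ≤ a c`.
`card V ≥ M s > 0`, so `Z` is nonempty (`σ n > 0`); pick `v ∈ Z`; `deg (F c) v ≥ ρ lam > 0` gives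
`e ∈ F c`. Then `A e ∩ U` has `a c ≥ m` points, all of the same colour with respect to `W`, i.e. to
`R`: contradiction.
`t + 1`: given `k, C, D, σ, ρ` put `κ = σ ρ / (8 C)`, `σ₁ = σ/2`, `ρ₁ = ρ/2`, `ε = κ σ₁ ρ₁/128`,
`C' = 40 (k+1) C`, `D' = 4 D`, `σ' = κ σ₁ ρ₁/(128 D)`, `ρ' = min (κ σ₁ ρ₁/64) (ρ₁/2)`, `k' = 2k`;
the induction hypothesis gives `Λ', η', γ', M'`. Choose `θ ∈ (0, 1]` with
`320 (k+1) C θ ≤ σ₁ ρ₁`, `8 D θ ≤ ρ₁`, `20 θ ≤ η'`; then `Λ = max (Λ'/θ) (max Λ' (40 (k+1)/(ε θ)))`,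
`η = min (η'/2) (θ σ₁/10)`, `γ = min γ' (ε θ/(20 (k+1) D))`,
`M = max M' (max 1 (max (2/κ) (40/(θ σ₁))))`.
Suppose a position `U, fam, lam`. For every `W ⊆ U` apply `CleanStmt` with `τ c = ρ lam (i c)`,
`q = κ s` to its `Dat`: the loss is at most
`Σ_c κ s |F c| · 2/(ρ lam (i c)) ≤ 2 · 2 κ C n/ρ = σ n/2`, so we get data with `σ₁, ρ₁` and
`κ s ≤ |A e ∩ Z'|` for all `e` in the families (the other fields of `Dat` are inherited by
subfamilies and subsets). Choose these data for every `W` (`Zof W` = the region). `SelectStmt`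
(with `k + 1` for `k`) gives `T`. Then `U ∪ T, newFam A T fam, newLam θ lam` is a position for the
parameters `(2k, C', D', σ', ρ', Λ', η')` after `r + 1` rounds: `|U ∪ T| s ≤ η n + 10 θ n ≤ η' n`;
scales `lam j ≥ Λ'`, `θ lam j ≥ Λ'`; `|fam j| s ≤ C lam_j n ≤ C' lam_j n`, the hit edges by
`SelectStmt`; `good`: for `W' ⊆ U ∪ T` use `StepStmt` with the data of `W' ∩ U`. Contradiction to
the induction hypothesis (index type `J ⊕ J`, `card (J ⊕ J) ≤ 2k`; `J` is nonempty since `good` for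
`W = ∅` gives an index). -/
def NoPosStmt : Prop :=
  ∀ (m t r : ℕ), 1 ≤ m → t + r = 2 * m - 1 → ∀ (k : ℕ) (C D σ ρ : ℝ),
    0 < C → 0 < D → 0 < σ → 0 < ρ →
    ∃ Λ η γ M : ℝ, 0 < Λ ∧ 0 < η ∧ 0 < γ ∧ 0 < M ∧
      ∀ (V ι J : Type) [Fintype V] [DecidableEq V] [DecidableEq ι] [Fintype J]
        (A : ι → Finset V) (s : ℝ) (U : Finset V) (fam : J → Finset ι) (lam : J → ℝ),
        Fintype.card J ≤ k → TwoCol m A → M ≤ s → M * s ≤ (Fintype.card V : ℝ) →
        (∀ e, ((A e).card : ℝ) ≤ 2 * s) →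
        (∀ e f, e ≠ f → ((A e ∩ A f).card : ℝ) ≤ γ * s) →
        ¬ Pos A s C D σ ρ Λ η r U fam lam

/-- LEMMA B: almost disjoint families of large average degree whose incidences are, to a positive
fraction, at points of bounded relative degree, are not in the class `TwoCol m`.

PROOF (from `NoPosStmt` with `t = 2m - 1`, `r = 0`, `k = 1`, `C = 1`, `σ = c₀/(2D)`, `ρ = c₀/2`
and the same `D`; get `Λ₁, η₁, γ₁, M₁`). Choose `Λ = max (max Λ₁ 1) (32 D/c₀³)`,
`γ = min (min γ₁ 1) (c₀³/(16 D M₁))`, `s₀ = M₁`. Write `n = card V`, `N = card ι`,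
`Z = {v : (c₀/2) lam ≤ deg v ≤ D lam}`. The incidences at points of degree `< (c₀/2) lam` are at
most `(c₀/2) lam n`, so those at `Z` are at least `(c₀/2) lam n`, and `|Z| ≥ (c₀/(2D)) n = σ n`.
SIZE of `n/s`: `Σ_v deg(v)² = Σ_{e,f} |A e ∩ A f| ≤ 2 s N + γ s N²` and
`Σ_{v ∈ Z} deg(v)² ≥ |Z| (c₀ lam/2)² ≥ (c₀³/(8 D)) lam² n`. With `N s = lam n`:
`(c₀³/(8D)) lam² n ≤ 2 lam n + γ lam² n (n/s)`. As `lam ≥ 32 D/c₀³`, `2 lam ≤ (c₀³/(16 D)) lam²`,
so `c₀³/(16 D) ≤ γ n/s`, i.e. `n ≥ M₁ s`.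
POSITION: `U = ∅`, `J = Unit`, `fam = univ`, `lam`, and for the only `W = ∅`: `a = 0`, `F c = univ`,
`Z`. All requirements hold (`|univ| s = N s = lam n`). -/
def LemmaBStmt : Prop :=
  ∀ (m : ℕ) (D c₀ : ℝ), 1 ≤ m → 0 < D → 0 < c₀ →
    ∃ Λ γ s₀ : ℝ, 1 ≤ Λ ∧ 0 < γ ∧ γ ≤ 1 ∧ 0 < s₀ ∧
      ∀ (V ι : Type) [Fintype V] [DecidableEq V] [Fintype ι] [DecidableEq ι]
        (A : ι → Finset V) (s lam : ℝ), TwoCol m A → s₀ ≤ s → 0 < Fintype.card V →
        (∀ e, ((A e).card : ℝ) ≤ 2 * s) →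
        (∀ e f, e ≠ f → ((A e ∩ A f).card : ℝ) ≤ γ * s) →
        (Fintype.card ι : ℝ) * s = lam * (Fintype.card V : ℝ) → Λ ≤ lam →
        c₀ * lam * (Fintype.card V : ℝ) ≤
          ∑ v ∈ univ.filter (fun v => (deg A univ v : ℝ) ≤ D * lam), (deg A univ v : ℝ) →
        False

/-- REPRESENTATIVES at the scale `s`.

PROOF (from `LemmaBStmt` with `D = 256`, `c₀ = 1/4`; get `Λ, γ, s₀`). Let `Δ = ⌈16 Λ⌉₊`, so
`16 Λ ≤ Δ ≤ 32 Λ`. For a list `l` of indices put `L l v` = number of entries `f` of `l` with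
`v ∈ A f` and `O l = {v : Δ ≤ L l v}`. Call `l` valid, by recursion: `[]` is valid; `e :: l` is
valid if `l` is valid, `s ≤ |A e| < 2 s`, `|A e ∩ A f| < γ s` for all entries `f` of `l`, and
`|A e ∩ O l| < s/2`. A valid list has no repetitions (`γ ≤ 1`).
CORES: let `c [] v = 0`, `c (e :: l) v = c l v + 1` if `v ∈ A e \ O l`, else `c l v`. By induction
`c l v ≤ L l v`, `c l v ≤ Δ` (if `v ∉ O l` then `c l v ≤ L l v < Δ`), and
`Σ_v c l v ≥ |l| s/2` (each `|A e \ O l| ≥ s - s/2`).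
LENGTH: a valid list of length `N` has `N s < Λ n` (if `n > 0`). Otherwise let `lam = N s/n ≥ Λ`
and apply `LemmaBStmt` to `A ∘ l.get : Fin N → Finset V` (which is `TwoCol m`); its degree function
is `L l v` (with pairwise intersections small for different positions). The points with
`L l v > 256 lam` number at most `2 s N/(256 lam) = n/128` (since `Σ_v L l v ≤ 2 s N = 2 lam n`) and
carry at most `Δ n/128 ≤ 32 Λ n/128 ≤ lam n/4` of the sum of `c l v`; hence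
`Σ_{v : L ≤ 256 lam} L l v ≥ Σ_{v : L ≤ 256 lam} c l v ≥ N s/2 - lam n/4 = lam n/4`.
Contradiction.
So there is a longest valid list `l` (if `n = 0` take `[]`; there all edges are empty and have
size `0 < s`). Put `R = l.toFinset`, `O = O l`: `|R| s ≤ Λ n`,
`Δ |O| ≤ Σ_v L l v ≤ 2 s N ≤ 2 Λ n`, so `8 |O| ≤ n`. If an edge `e` with `s ≤ |A e| < 2 s` satisfied
neither alternative then `e :: l` would be valid. -/
def GreedyStmt : Prop :=
  ∀ (m : ℕ), 1 ≤ m → ∃ Λ γ s₀ : ℝ, 0 < Λ ∧ 0 < γ ∧ 0 < s₀ ∧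
    ∀ (V ι : Type) [Fintype V] [DecidableEq V] [DecidableEq ι] (A : ι → Finset V) (s : ℝ),
      TwoCol m A → s₀ ≤ s →
      ∃ (R : Finset ι) (O : Finset V), (R.card : ℝ) * s ≤ Λ * (Fintype.card V : ℝ) ∧
        8 * O.card ≤ Fintype.card V ∧ (∀ e ∈ R, ((A e).card : ℝ) ≤ 2 * s) ∧
        ∀ e, s ≤ ((A e).card : ℝ) → ((A e).card : ℝ) < 2 * s →
          (∃ f ∈ R, γ * s ≤ ((A e ∩ A f).card : ℝ)) ∨ s / 2 ≤ ((A e ∩ O).card : ℝ)

/-- VC-DIMENSION: no set of `2m - 1` points is shattered.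

PROOF. Let `S` have `2m - 1` points (`m ≥ 1`) and `R` be the colouring of `TwoCol` for `S`. One of
`S ∩ R`, `S \ R` has at least `m` points, call it `X`. If `S` were shattered some edge would have
`A e ∩ S = X`: `m ≤ |A e ∩ S|` and `A e ∩ S` is monochromatic, contradiction. -/
def VCStmt : Prop :=
  ∀ (m : ℕ) (V ι : Type) [DecidableEq V] (A : ι → Finset V), 1 ≤ m → TwoCol m A →
    ∀ S : Finset V, S.card = 2 * m - 1 → ¬ ∀ X, X ⊆ S → ∃ e, A e ∩ S = X

/-- BOUNDED NETS (the epsilon-net theorem of Haussler and Welzl in its weakest form, for a family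
that shatters no set of `d + 1` points).

PROOF (double sampling). `H(M) := Σ_{i ≤ d} C(M, i)` (Sauer-Shelah: a family that shatters no set of
size `d + 1` has at most `H(M)` traces on a set of size `≤ M`; Mathlib:
`Finset.card_le_card_shatterer`, `Finset.card_shatterer_le_sum_vcDim`). Choose `M ≥ 8/ε` with
`2 · H(2M) · 2^(-ε M/2) < 1`. Let `Y` be nonempty, `y = |Y|`, heavy = `|A e ∩ Y| ≥ ε y`.
Suppose no `T ⊆ Y` with `|T| ≤ M` meets all heavy edges. So for EVERY `x : Fin M → Y` there is a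
heavy `e` with no `x_i ∈ A e`; for such `e` at least half of the `z : Fin M → Y` satisfy
`#{j : z_j ∈ A e} ≥ ε M/2` (Chebyshev: the number has mean `μ ≥ ε M ≥ 8` and variance `≤ μ`, and
`Pr[< μ/2] ≤ μ/(μ/2)² = 4/μ ≤ 1/2`). So at least half of the pairs `(x, z)` are bad: there is an `e`
with no `x_i ∈ A e` and at least `ε M/2` indices `j` with `z_j ∈ A e`.
SWAPPING: for a pair `(x, z)` and `τ : Fin M → Bool` let `(x, z)^τ` be the pair in which `x_j, z_j`
are exchanged when `τ_j`. By symmetry the number of bad pairs times `2^M` is the number of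
`(x, z, τ)` with `(x, z)^τ` bad. For fixed `(x, z)`: the badness of `(x, z)^τ` is witnessed by a
trace of an `A e` on the set `{x_i, z_i}` of at most `2M` points: at most `H(2M)` traces; for a
fixed trace `X`: if for some `j` both `x_j, z_j ∈ X`, no `τ`; otherwise each of the `≥ ε M/2`
indices `j` with `x_j` or `z_j` in `X` has its `τ_j` determined: at most `2^(M - ε M/2)` choices of
`τ`. So the share of bad pairs is at most `H(2M) 2^(-ε M/2) < 1/2`. Contradiction. -/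
def NetStmt : Prop :=
  ∀ (d : ℕ) (ε : ℝ), 0 < ε → ∃ B : ℕ, ∀ (V ι : Type) [DecidableEq V] (A : ι → Finset V),
    (∀ S : Finset V, S.card = d + 1 → ¬ ∀ X, X ⊆ S → ∃ e, A e ∩ S = X) →
    ∀ Y : Finset V, ∃ T : Finset V, T ⊆ Y ∧ T.card ≤ B ∧
      ∀ e, (A e ∩ Y).Nonempty → ε * (Y.card : ℝ) ≤ ((A e ∩ Y).card : ℝ) → (A e ∩ T).Nonempty

/-- COUNTING FORM of the theorem.

PROOF (from `GreedyStmt`, `VCStmt`, `NetStmt`). The case `m = 0` is contained in `m = 1`
(`TwoCol 0 A → TwoCol 1 A`). Let `Λ, γ, s₀` be as in `GreedyStmt`, `B` as in `NetStmt` for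
`d = 2m - 2`, `ε = γ/2`; `K = B Λ`, `C = max (4 K) s₀ + 1`. Strong induction on `n = card V`.
If `n = 0` take `T = ∅` (all edges are empty). If `s < s₀` take `T = univ`. Otherwise let
`j` range over the natural numbers with `2^j s ≤ n`; `s_j = 2^j s`. `GreedyStmt` at the scale `s_j`
gives `R_j, O_j`; for each `f ∈ R_j` a net in `A f` (`NetStmt` with `Y = A f`), together a set
`T_j¹` with `|T_j¹| s_j ≤ B Λ n = K n`; the induction hypothesis for the point set `O_j`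
(`8 |O_j| ≤ n`, so `|O_j| < n`; edges `(A e).subtype (· ∈ O_j)`, `TwoCol` is inherited) and the
threshold `s_j/2` gives `T_j² ⊆ O_j` with `|T_j²| s_j/2 ≤ C |O_j| ≤ C n/8`. So
`(|T_j¹| + |T_j²|) s_j ≤ (K + C/4) n` and `T = ⋃_j (T_j¹ ∪ T_j²)` has
`|T| s ≤ Σ_j 2^(-j) (K + C/4) n ≤ 2 (K + C/4) n ≤ C n`.
An edge with `|A e| ≥ s` has `2^j s ≤ |A e| < 2^(j+1) s` for some `j`, with `2^j s ≤ |A e| ≤ n`. If
`|A e ∩ A f| ≥ γ s_j ≥ (γ/2) |A f|` for some `f ∈ R_j`, it meets the net of `A f`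
(`A e ∩ A f` is nonempty); otherwise `|A e ∩ O_j| ≥ s_j/2` and it meets `T_j²`. -/
def CountStmt : Prop :=
  ∀ m : ℕ, ∃ C : ℝ, 0 < C ∧ ∀ (V ι : Type) [Fintype V] [DecidableEq V] (A : ι → Finset V),
    TwoCol m A → ∀ s : ℝ, 0 < s → ∃ T : Finset V,
      (T.card : ℝ) * s ≤ C * (Fintype.card V : ℝ) ∧
      ∀ e, s ≤ ((A e).card : ℝ) → (A e ∩ T).Nonempty

/-- WEIGHTED FORM: linear nets for arbitrary weights; `tau ≤ C tau*`.

PROOF (from `CountStmt`; if `C₁` is the constant there take `C = 2 C₁`). Let `n = card V`,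
`S = Σ w > 0`. Choose a natural number `q ≥ n/S`, `q ≥ 1`. Blow up: `V' = Σ v : V, Fin ⌈q w v⌉₊`,
`A' e = {(v, i) : v ∈ A e}`. `card V' = Σ_v ⌈q w v⌉₊ ≤ q S + n ≤ 2 q S`, and `|A' e| ≥ q Σ_{A e} w`.
`TwoCol m A'`: given `S' ⊆ V'`, let `S₁` be the set of `v ∈ V` that have exactly one copy in `S'`
and `R₁` the colouring of `TwoCol m A` for `S₁`. Colour the single copies as in `R₁`; for every `v`
with at least two copies in `S'` colour one of them red and all others blue. If `|A' e ∩ S'| ≥ m`: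
either `A e` contains a `v` with at least two copies in `S'`: both colours occur; or all points of
`A' e ∩ S'` are single copies, so `|A e ∩ S₁| = |A' e ∩ S'| ≥ m` and both colours occur.
Apply `CountStmt` to `A'` with `s = q t`: `|T'| q t ≤ C₁ card V' ≤ 2 C₁ q S`. The projection `T` of
`T'` to `V` satisfies `|T| t ≤ 2 C₁ S`, and if `Σ_{A e} w ≥ t` then `|A' e| ≥ q t`, so `A' e` meets
`T'` and `A e` meets `T`. -/
def WeightStmt : Prop :=
  ∀ m : ℕ, ∃ C : ℝ, 0 < C ∧ ∀ (V ι : Type) [Fintype V] [DecidableEq V] (A : ι → Finset V),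
    TwoCol m A → ∀ w : V → ℝ, (∀ v, 0 ≤ w v) → 0 < ∑ v, w v → ∀ t : ℝ, 0 < t →
      ∃ T : Finset V, (T.card : ℝ) * t ≤ C * ∑ v, w v ∧
        ∀ e, t ≤ ∑ v ∈ A e, w v → (A e ∩ T).Nonempty

end Pool.Agent.Lib.MP_9b5ec2_co
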