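import Mathlib
import Pool.Agent.Lib.MP_9b5ec2_co.Defs

/-!
# Almost disjoint families in the class `TwoCol m` (MP_9b5ec2_co), no degree balance

Main statement `GTStmt`: a family of `N` pairwise almost disjoint edges with sizes in `[s, 2s]` of a
hypergraph on `n` points in the class `TwoCol m` has `N s ≤ Λ n`. `LemmaBStmt` (already proved) is
the case of balanced degrees. Consequence `AdStmt`: polychromatic `k`-colourings for edges of size
at least `C q k` if the edges split into `q` almost disjoint classes.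

Every module proves one `...Stmt`, possibly from other `...Stmt`s given as hypotheses. The complete
proof of each statement is in its docstring.
Notation: `d(v) = dg A v` (number of edges through `v`), `M = mass A = Σ_v d(v) = Σ_e |A e|`,
`N = card ι`, `n = card V`. Blocks: `blk v = log_K d(v)` (rounded down), so
`K^(blk v) ≤ d(v) < K^(blk v + 1)` if `d(v) ≥ 1`. The point `u` is above `v` if
`blk u ≥ blk v + 2`.
-/

set_option autoImplicit false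

namespace Pool.Agent.Lib.MP_9b5ec2_co

open Finset

section defs

variable {V ι : Type} [Fintype V] [DecidableEq V] [Fintype ι] [DecidableEq ι]

/-- the number of edges through `v` -/
def dg (A : ι → Finset V) (v : V) : ℕ := deg A univ v

/-- the total number of incidences -/
noncomputable def mass (A : ι → Finset V) : ℝ := ∑ v, (dg A v : ℝ)

/-- the block of `v` -/
def blk (A : ι → Finset V) (K : ℕ) (v : V) : ℕ := Nat.log K (dg A v)

/-- the points of block at least `k` -/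
def above (A : ι → Finset V) (K k : ℕ) : Finset V := univ.filter (fun u => k ≤ blk A K u)

/-- The edges that have exactly `a` points in the part of `T` in blocks `≥ k`, all of them of
colour `c` (`W` = red points, `true` = red). -/
def mono (A : ι → Finset V) (K : ℕ) (T W : Finset V) (c : Bool) (a k : ℕ) : Finset ι :=
  univ.filter (fun e => (A e ∩ (T ∩ above A K k)).card = a ∧
    ∀ x ∈ A e ∩ (T ∩ above A K k), decide (x ∈ W) = c)

/-- A predicate on incidences `(e, u)` that depends on the sampled set and on the colouring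
(these two arguments are always restricted to the blocks `≥ blk u + 2`). -/
abbrev Prd (V ι : Type) := Finset V → Finset V → ι → V → Prop

open Classical in
/-- the number of edges `e` through `u` and `v` such that `(e, u)` satisfies `Φ` -/
noncomputable def cnt (A : ι → Finset V) (K : ℕ) (Φ : Prd V ι) (T W : Finset V) (u v : V) : ℕ :=
  (univ.filter (fun e => u ∈ A e ∧ v ∈ A e ∧
    Φ (T ∩ above A K (blk A K u + 2)) (W ∩ above A K (blk A K u + 2)) e u)).card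

/-- The deviation at `v`: number of pairs `(e, u)`, `u` sampled and above `v`, with `Φ`, minus `p`
times the number of all such pairs. -/
noncomputable def dev (A : ι → Finset V) (K : ℕ) (p : ℝ) (Φ : Prd V ι) (T W : Finset V)
    (v : V) : ℝ :=
  ∑ u ∈ above A K (blk A K v + 2), ((if u ∈ T then (1 : ℝ) else 0) - p) * (cnt A K Φ T W u v : ℝ)

open Classical in
/-- For all colourings the deviation is at most `δ d(v)` except for points of mass `δ M`. -/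
def Fair (A : ι → Finset V) (K : ℕ) (p δ : ℝ) (T : Finset V) (Φ : Prd V ι) : Prop :=
  ∀ W, W ⊆ T → ∑ v ∈ univ.filter (fun v => δ * (dg A v : ℝ) < |dev A K p Φ T W v|),
    (dg A v : ℝ) ≤ δ * mass A

/-- For all colourings the number of incidences `(e, u)` with `Φ` and `u` sampled is at most `p`
times the number of all such incidences plus `δ p M`. -/
def Glob (A : ι → Finset V) (K : ℕ) (p δ : ℝ) (T : Finset V) (Φ : Prd V ι) : Prop :=
  ∀ W, W ⊆ T → ∑ u ∈ T, (cnt A K Φ T W u u : ℝ) ≤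
    p * ∑ u, (cnt A K Φ T W u u : ℝ) + δ * p * mass A

/-- number of pairs `(e, u)`, `e` an edge through `v`, `u ≠ v` a sampled point of `e` -/
def hit (A : ι → Finset V) (T : Finset V) (v : V) : ℕ :=
  ∑ e ∈ univ.filter (fun e => v ∈ A e), ((A e).erase v ∩ T).card

def Heavy (A : ι → Finset V) (θ δ : ℝ) (T : Finset V) : Prop :=
  ∑ v ∈ univ.filter (fun v => 4 * θ * (dg A v : ℝ) < (hit A T v : ℝ)), (hit A T v : ℝ) ≤
    δ * mass A

/-- number of ordered pairs of distinct sampled points of `e` in the same or neighbouring blocks -/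
def clo (A : ι → Finset V) (K : ℕ) (T : Finset V) (e : ι) : ℕ :=
  (((A e ∩ T) ×ˢ (A e ∩ T)).filter (fun q => q.1 ≠ q.2 ∧ blk A K q.1 ≤ blk A K q.2 + 1 ∧
    blk A K q.2 ≤ blk A K q.1 + 1)).card

/-- the sum of `clo` over the edges through `v` -/
def cloV (A : ι → Finset V) (K : ℕ) (T : Finset V) (v : V) : ℕ :=
  ∑ e ∈ univ.filter (fun e => v ∈ A e), clo A K T e

def Close (A : ι → Finset V) (K : ℕ) (s δ : ℝ) (T : Finset V) : Prop :=
  2 * s * ∑ e, (clo A K T e : ℝ) ≤ δ ^ 2 * mass A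

/-- the status predicate -/
def stPrd (A : ι → Finset V) (K : ℕ) (c : Bool) (a : ℕ) : Prd V ι :=
  fun T W e u => e ∈ mono A K T W c a (blk A K u + 2)

open Classical in
/-- the edges through `v` that have, for some `k ≥ blk v + 2`, exactly `a` sampled points in the
blocks `≥ k`, all of colour `c` -/
noncomputable def ever (A : ι → Finset V) (K : ℕ) (T W : Finset V) (c : Bool) (a : ℕ)
    (v : V) : Finset ι :=
  univ.filter (fun e => v ∈ A e ∧ ∃ k, blk A K v + 2 ≤ k ∧ e ∈ mono A K T W c a k)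

/-- `v` sees both colours at the time `k`: for both `c`, at least `ρ d(v)` edges through `v` have
exactly `a c` sampled points in the blocks `≥ k`, all of colour `c`. -/
def ripe (A : ι → Finset V) (K : ℕ) (T W : Finset V) (a : Bool → ℕ) (ρ : ℝ) (k : ℕ)
    (v : V) : Prop :=
  ∀ c, ρ * (dg A v : ℝ) ≤ (deg A (mono A K T W c (a c) k) v : ℝ)

open Classical in
/-- the points that are ripe at their own time `blk v + 2` -/
noncomputable def reg (A : ι → Finset V) (K : ℕ) (T W : Finset V) (a : Bool → ℕ)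
    (ρ : ℝ) : Finset V :=
  univ.filter (fun v => ripe A K T W a ρ (blk A K v + 2) v)

open Classical in
/-- number of pairs `(e, v)`, `e` through `u` with the status `(c, a c)` at the own time of `u`, `v`
a point of `e` below `u` that is `ρ/4`-ripe at the own time of `u` -/
noncomputable def qcount (A : ι → Finset V) (K : ℕ) (T W : Finset V) (a : Bool → ℕ) (ρ : ℝ)
    (c : Bool) (u : V) : ℕ :=
  ∑ e ∈ (mono A K T W c (a c) (blk A K u + 2)).filter (fun e => u ∈ A e),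
    ((A e).filter (fun v => blk A K v + 2 ≤ blk A K u ∧
      ripe A K T W a (ρ / 4) (blk A K u + 2) v)).card

/-- `u` is ripe at its own time and has `qcount u ≥ (c₁/2) s d(u)` -/
def good (A : ι → Finset V) (K : ℕ) (s c₁ : ℝ) (T W : Finset V) (a : Bool → ℕ) (ρ : ℝ)
    (c : Bool) (u : V) : Prop :=
  ripe A K T W a ρ (blk A K u + 2) u ∧
    c₁ / 2 * s * (dg A u : ℝ) ≤ (qcount A K T W a ρ c u : ℝ)

/-- the second predicate needed in the step: `u` is good for `c` and `e` has the status of the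
other colour -/
def stepPrd (A : ι → Finset V) (K : ℕ) (s c₁ : ℝ) (a : Bool → ℕ) (ρ : ℝ) (c : Bool) : Prd V ι :=
  fun T W e u => good A K s c₁ T W a ρ c u ∧ e ∈ mono A K T W (!c) (a (!c)) (blk A K u + 2)

/-- the new constant after one step -/
noncomputable def nextX (θ x : ℝ) : ℝ := θ * x * (x ^ 4 / 1536) ^ 2 * (x ^ 5 / 147456) / 1000

/-- all but a few edges have few points in any two consecutive blocks -/
def Spread (A : ι → Finset V) (K : ℕ) (s η ε : ℝ) : Prop :=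
  ∃ Bad : Finset ι, (Bad.card : ℝ) ≤ ε * (Fintype.card ι : ℝ) ∧
    ∀ e, e ∉ Bad → ∀ i : ℕ, (((A e).filter (fun v => blk A K v = i ∨ blk A K v = i + 1)).card : ℝ)
      ≤ η * s

/-- the block condition: union bound over the colourings of the blocks `≥ i + 2` against large
deviations in the block `i` -/
noncomputable def blockSum (A : ι → Finset V) (K : ℕ) (s θ δ₁ : ℝ) : ℝ :=
  ∑ i ∈ univ.image (blk A K), Real.exp (θ / s * ((above A K (i + 2)).card : ℝ) -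
    θ * δ₁ ^ 2 * (∑ v ∈ univ.filter (fun v => blk A K v = i), (dg A v : ℝ)) /
      (16 * s * (K : ℝ) ^ (i + 1)))

end defs

/-- LINEAR STATISTIC with union bound. `P` (the block), `R` (the blocks above), `R₂ ⊆ R`; `P, R`
disjoint. The coefficients `C (T ∩ R) W u` depend only on the sampled points in `R` and on a subset
`W` of `T ∩ R₂`.

PROOF. `Ex` over the disjoint union `univ = P ∪ (univ \ P)` is an iterated expectation (first prove
`Ex p (X ∪ Y) f = Ex p X (fun T₁ => Ex p Y (fun T₂ => f (T₁ ∪ T₂)))` for disjoint `X, Y`). Fix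
`T' = T \ P`, so `T ∩ R = T' ∩ R`, `T ∩ R₂` and `W ⊆ T ∩ R₂` are fixed. Markov:
`1(t < Z) ≤ exp (l Z - l t)` with `Z = Σ_{u ∈ P} (1(u ∈ T) - p) C_u`, and by independence
(`Ex_prod`) the expectation of `exp (l Z)` over `T ∩ P` is
`∏_{u ∈ P} exp(- p x_u) (1 - p + p exp x_u)`, `x_u = l C_u`, `|x_u| ≤ 1`. Each factor is at most
`exp (p (exp x - 1 - x)) ≤ exp (p x²)` (`1 + y ≤ exp y`; `exp x - 1 - x ≤ x²` for `|x| ≤ 1`,
Mathlib `Real.abs_exp_sub_one_sub_id_le`). So for every `W` the conditional expectation of the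
indicator is at most `exp (p l² B - l t)`. The number of `W` is `2^|T ∩ R₂|`, whose expectation is
`(1 + p)^|R₂|` (`Ex_pow` with `a = 2`). -/
def LinStmt : Prop :=
  ∀ (V : Type) [Fintype V] [DecidableEq V] (P R R₂ : Finset V) (p l L B t : ℝ)
    (C : Finset V → Finset V → V → ℝ), Disjoint P R → R₂ ⊆ R → 0 ≤ p → p ≤ 1 → 0 ≤ l →
    l * L ≤ 1 →
    (∀ T' W, T' ⊆ R → W ⊆ T' ∩ R₂ → (∀ u ∈ P, |C T' W u| ≤ L) ∧ ∑ u ∈ P, (C T' W u) ^ 2 ≤ B) →
    Ex p univ (fun T => ∑ W ∈ (T ∩ R₂).powerset,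
      if t < ∑ u ∈ P, ((if u ∈ T then (1 : ℝ) else 0) - p) * C (T ∩ R) W u then (1 : ℝ) else 0) ≤
      (1 + p) ^ R₂.card * Real.exp (p * l ^ 2 * B - l * t)

/-- WEIGHTED MOMENTS of `X_T = Σ_{u ∈ U, u ∈ T} w u`, `w ≥ 0`.

PROOF. `E X = p Σ w`, `E X² = p² (Σ w)² + p (1-p) Σ w² ≤ (p Σ w)² + p Σ w²` (`Ex_mem`, `Ex_pair`),
`Var X ≤ p Σ w²`. (1) With `E X ≤ μ`: if `X > 2μ` then `X ≤ 2 (X - μ) ≤ 2 (X - μ)²/μ
≤ 2 (X - E X)²/μ`, so the expectation is at most `2 Var X/μ`. (2) Expand: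
`E (X + pΣw)² = E X² + 2 (pΣw)² + (pΣw)²`. -/
def WMomStmt : Prop :=
  ∀ (V : Type) [Fintype V] [DecidableEq V] (U : Finset V) (w : V → ℝ) (p : ℝ), 0 ≤ p → p ≤ 1 →
    (∀ u, 0 ≤ w u) →
    (∀ μ : ℝ, 0 < μ → p * ∑ u ∈ U, w u ≤ μ →
      Ex p univ (fun T => if 2 * μ < ∑ u ∈ U ∩ T, w u then ∑ u ∈ U ∩ T, w u else 0) ≤
        2 * (p * ∑ u ∈ U, (w u) ^ 2) / μ) ∧
    Ex p univ (fun T => (∑ u ∈ U ∩ T, w u + p * ∑ u ∈ U, w u) ^ 2) ≤
      4 * (p * ∑ u ∈ U, w u) ^ 2 + p * ∑ u ∈ U, (w u) ^ 2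

/-- The frozen deviation after the blocks `I, I-1, ..., I+1-k` (the `k` top blocks, `I` an upper
bound of the blocks) have been processed: a point whose deviation exceeds `d(v)` is not updated any
more. Block `i = I - k` is processed in step `k`. -/
noncomputable def frz {V ι : Type} [Fintype V] [DecidableEq V] [Fintype ι] [DecidableEq ι]
    (A : ι → Finset V) (K I : ℕ) (p : ℝ) (Φ : Prd V ι) (T W : Finset V) : ℕ → V → ℝ
  | 0, _ => 0
  | (k + 1), v => frz A K I p Φ T W k v +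
      if |frz A K I p Φ T W k v| ≤ (dg A v : ℝ) ∧ blk A K v + 2 ≤ I - k then
        ∑ u ∈ univ.filter (fun u => blk A K u = I - k),
          ((if u ∈ T then (1 : ℝ) else 0) - p) * (cnt A K Φ T W u v : ℝ) else 0

/-- The coefficient of `1(u ∈ T) - p` in the increment of `Σ_v frz(v)²/(2 d(v))` in step `k`. -/
noncomputable def coef {V ι : Type} [Fintype V] [DecidableEq V] [Fintype ι] [DecidableEq ι]
    (A : ι → Finset V) (K I : ℕ) (p : ℝ) (Φ : Prd V ι) (T W : Finset V) (k : ℕ) (u : V) : ℝ :=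
  ∑ v, if |frz A K I p Φ T W k v| ≤ (dg A v : ℝ) ∧ blk A K v + 2 ≤ I - k then
    frz A K I p Φ T W k v * (cnt A K Φ T W u v : ℝ) / (dg A v : ℝ) else 0

/-- the number of edges through `u` and `v` -/
def codeg {V ι : Type} [DecidableEq V] [Fintype ι] (A : ι → Finset V) (u v : V) : ℕ :=
  (univ.filter (fun e => u ∈ A e ∧ v ∈ A e)).card

/-- the colour independent bound for the squares of the increments -/
noncomputable def rtot {V ι : Type} [Fintype V] [DecidableEq V] [Fintype ι] [DecidableEq ι]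
    (A : ι → Finset V) (K I : ℕ) (p : ℝ) (T : Finset V) : ℝ :=
  ∑ i ∈ range (I + 1), ∑ v ∈ univ.filter (fun v => blk A K v + 2 ≤ i),
    (∑ u ∈ univ.filter (fun u => blk A K u = i) ∩ T, (codeg A u v : ℝ) +
      p * ∑ u ∈ univ.filter (fun u => blk A K u = i), (codeg A u v : ℝ)) ^ 2 / (dg A v : ℝ)

/-- FREEZING. PROOF. Put `Q_k = Σ_v frz_k(v)²/d(v)`, `Q_0 = 0`. With `i = I - k` and
`Dev(v) = Σ_{blk u = i} (1(u ∈ T) - p) cnt(u, v)` the increment is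
`Q_{k+1} - Q_k = Σ_{v unfrozen, blk v + 2 ≤ i} (2 frz_k(v) Dev(v) + Dev(v)²)/d(v)
 = 2 Σ_{blk u = i} (1(u ∈ T) - p) coef_k(u) + Σ (Dev(v)²/d(v))`, and
`|Dev(v)| ≤ Σ_{u ∈ T, blk u = i} codeg + p Σ_{blk u = i} codeg` since `0 ≤ cnt ≤ codeg`. Summing over
`k = 0, ..., I`: `Q_{I+1} ≤ 2 z M + r M` (the sum over the blocks of `Σ_{blk v = i} d(v)` is `M`).
If `|frz_{I+1}(v)| > δ d(v)` then `frz²/d > δ² d(v)`; so the total mass of these points is at most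
`(2z + r) M/δ² ≤ δ M`. If `|frz_{I+1}(v)| ≤ δ d(v) ≤ d(v)` then `v` was never frozen (a frozen value
stays and exceeds `d(v)`), and `frz_{I+1}(v) = Σ_{i ≥ blk v + 2} Σ_{blk u = i} ... = dev(v)`
(all blocks are `≤ I`). -/
def FreezeStmt : Prop :=
  ∀ (V ι : Type) [Fintype V] [DecidableEq V] [Fintype ι] [DecidableEq ι] (A : ι → Finset V)
    (K I : ℕ) (p δ z r : ℝ) (Φ : Prd V ι) (T W : Finset V), 0 ≤ p → 0 < δ → δ ≤ 1 →
    (∀ v, 1 ≤ dg A v) → (∀ v, blk A K v ≤ I) → 2 * z + r ≤ δ ^ 3 →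
    (∀ k, k ≤ I → ∑ u ∈ univ.filter (fun u => blk A K u = I - k),
      ((if u ∈ T then (1 : ℝ) else 0) - p) * coef A K I p Φ T W k u ≤
        z * ∑ v ∈ univ.filter (fun v => blk A K v = I - k), (dg A v : ℝ)) →
    rtot A K I p T ≤ r * mass A →
    ∑ v ∈ univ.filter (fun v => δ * (dg A v : ℝ) < |dev A K p Φ T W v|), (dg A v : ℝ) ≤
      δ * mass A

/-- CODEGREES.

PROOF. `Σ_u codeg u v = Σ_{e ∋ v} |A e|`; `Σ_u codeg u v ^ 2` counts pairs `(e, e')` of edges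
through `v` and points of `A e ∩ A e'`: at most `2 s` for `e = e'` and `γ s` for `e ≠ e'`;
`hit A T v` counts pairs `(e, u)` with `v ∈ A e`, `u ∈ A e`, `u ≠ v`, `u ∈ T`. -/
def CodegStmt : Prop :=
  ∀ (V ι : Type) [Fintype V] [DecidableEq V] [Fintype ι] [DecidableEq ι] (A : ι → Finset V)
    (s γ : ℝ) (v : V), 0 ≤ s → 0 ≤ γ → (∀ e, ((A e).card : ℝ) ≤ 2 * s) →
    (∀ e f, e ≠ f → ((A e ∩ A f).card : ℝ) ≤ γ * s) →
    ∑ u, (codeg A u v : ℝ) ≤ 2 * s * (dg A v : ℝ) ∧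
    ∑ u ∈ univ.erase v, (codeg A u v : ℝ) ^ 2 ≤ 2 * s * (dg A v : ℝ) +
      γ * s * (dg A v : ℝ) ^ 2 ∧
    ∀ T : Finset V, (hit A T v : ℝ) = ∑ u ∈ univ.erase v ∩ T, (codeg A u v : ℝ)

/-- EXPECTATION OF THE HEAVY PART.

PROOF (from `CodegStmt`, `WMomStmt`). Exchange expectation and sum over `v`. For fixed `v` apply
`WMomStmt` (1) with `U = univ.erase v`, `w u = codeg u v`, `μ = 2 θ d(v) > 0`,
`p Σ w ≤ (θ/s) 2 s d(v) = μ`, `2 μ = 4 θ d(v)`: the expectation is at most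
`2 (θ/s)(2 s d + γ s d²)/(2 θ d) = 2 + γ d(v)`; the sum over `v` is `2 n + γ M ≤ (2/Λ + γ) M`, as
`Λ n ≤ M`. -/
def HeavyExStmt : Prop :=
  ∀ (V ι : Type) [Fintype V] [DecidableEq V] [Fintype ι] [DecidableEq ι] (A : ι → Finset V)
    (s θ γ Λ : ℝ), 1 ≤ s → 0 < θ → θ ≤ 1 → 0 ≤ γ → 1 ≤ Λ → (∀ e, ((A e).card : ℝ) ≤ 2 * s) →
    (∀ e f, e ≠ f → ((A e ∩ A f).card : ℝ) ≤ γ * s) → (∀ v, Λ ≤ (dg A v : ℝ)) →
    Ex (θ / s) univ (fun T => ∑ v ∈ univ.filter (fun v => 4 * θ * (dg A v : ℝ) <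
      (hit A T v : ℝ)), (hit A T v : ℝ)) ≤ (2 / Λ + γ) * mass A

/-- EXPECTATION OF THE NUMBER OF CLOSE PAIRS.

PROOF. `E clo(e) = p²` times the number of ordered close pairs of distinct points of `A e`
(`Ex_pair`), at most `2s · 2ηs` if `e ∉ Bad` (the points in the blocks `b-1, b, b+1` lie in the two
windows `{b-1, b}`, `{b, b+1}`), at most `(2s)²` otherwise. So the expectation is at most
`2 s (θ²/s²)(4 η s² N + 4 ε s² N) = 8 θ² (η + ε) N s ≤ 32 θ² (η + ε) M ≤ 32 (η + ε) M`. -/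
def CloseExStmt : Prop :=
  ∀ (V ι : Type) [Fintype V] [DecidableEq V] [Fintype ι] [DecidableEq ι] (A : ι → Finset V)
    (K : ℕ) (s θ η ε : ℝ), 1 ≤ s → 0 < θ → θ ≤ 1 → 0 ≤ η → 0 ≤ ε →
    (∀ e, ((A e).card : ℝ) ≤ 2 * s) → (Fintype.card ι : ℝ) * s ≤ 4 * mass A → Spread A K s η ε →
    Ex (θ / s) univ (fun T => 2 * s * ∑ e, (clo A K T e : ℝ)) ≤ 32 * (η + ε) * mass A

/-- EXPECTATION OF `rtot`.

PROOF (from `CodegStmt`, `WMomStmt`). `WMomStmt` (2) with `U = {blk u = i}`, `w u = codeg u v` for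
`blk v + 2 ≤ i`: the expectation is at most
`Σ_v (1/d(v)) (4 p² Σ_i m_i(v)² + p Σ_{u ≠ v} codeg²)`, `m_i(v) = Σ_{blk u = i} codeg u v
= Σ_{e ∋ v} |A e ∩ V_i|` (`V_i = {blk = i}`). Cauchy-Schwarz: `m_i(v)² ≤ d(v) Σ_{e ∋ v} |A e ∩ V_i|²`,
so the first part is at most `4 p² Σ_e |A e| Σ_i |A e ∩ V_i|²
≤ 4 (θ²/s²) 2 s (N η s · 2 s + ε N 4 s²) = 16 θ² (η + 2ε) N s ≤ 64 (η + 2ε) M`; the second is at
most `(θ/s) Σ_v (2 s + γ s d(v)) = θ (2 n + γ M) ≤ (2/Λ + γ) M`. -/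
def RtotExStmt : Prop :=
  ∀ (V ι : Type) [Fintype V] [DecidableEq V] [Fintype ι] [DecidableEq ι] (A : ι → Finset V)
    (K I : ℕ) (s θ γ η ε Λ : ℝ), 1 ≤ s → 0 < θ → θ ≤ 1 → 0 ≤ γ → 0 ≤ η → 0 ≤ ε → 1 ≤ Λ →
    (∀ e, ((A e).card : ℝ) ≤ 2 * s) → (∀ e f, e ≠ f → ((A e ∩ A f).card : ℝ) ≤ γ * s) →
    (∀ v, Λ ≤ (dg A v : ℝ)) → (Fintype.card ι : ℝ) * s ≤ 4 * mass A → Spread A K s η ε →
    Ex (θ / s) univ (fun T => rtot A K I (θ / s) T) ≤ (64 * (η + 2 * ε) + 2 / Λ + γ) * mass A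

/-- LARGE DEVIATIONS IN THE BLOCKS (for `coef`, and for the counts `2 s cnt u u`).

PROOF (from `LinStmt`, `CodegStmt`). Let `p = θ/s`, `M_i = Σ_{blk v = i} d(v)`; exchange
expectation and sum over `i`. For a fixed `i` (`i ≤ I`, `k = I - i`, `I - k = i`) apply `LinStmt`
with `P = {blk = i}`, `R = above (i+1)`, `R₂ = above (i+2)`, `C T' W' u = coef A K I p Φ T' W' k u`;
note `coef T W k u = coef (T ∩ R) (W ∩ R₂) k u = coef (T ∩ R) W k u` for `blk u = i`, `W ⊆ T ∩ R₂`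
(by induction on `k' ≤ k`, `frz k'` uses only `1(u' ∈ T)` for `blk u' ≥ i + 1` and `cnt` at such
`u'`; and `cnt` at `u'` uses `T, W` on `above (blk u' + 2)`). Bounds: unfrozen points have
`|frz| ≤ d(v)`, so `|C_u| ≤ Σ_v cnt(u,v) ≤ Σ_v codeg(u,v) ≤ 2 s d(u) ≤ L := 2 s K^(i+1)`
(`d(u) < K^(blk u + 1)`, `Nat.lt_pow_succ_log_self`; `codeg` is symmetric) and
`Σ_{u ∈ P} C_u² ≤ B := 4 s² K^(i+1) M_i`. With `l = δ₁/(8 s K^(i+1))`, `t = δ₁ θ M_i`:
`l L = δ₁/4 ≤ 1`, `p l² B - l t = - θ δ₁² M_i/(16 s K^(i+1))`; and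
`(1+p)^|R₂| ≤ exp (p |R₂|)`. So the expectation is at most the `i`-th term of `blockSum`.
The same for `C T' W' u = 2 s cnt Φ T' W' u u` (`0 ≤ C_u ≤ 2 s d(u)`). (`CodegStmt` can be used
with `γ = 2`.) -/
def DevExStmt : Prop :=
  ∀ (V ι : Type) [Fintype V] [DecidableEq V] [Fintype ι] [DecidableEq ι] (A : ι → Finset V)
    (K I : ℕ) (s θ δ₁ : ℝ) (Φ : Prd V ι), 2 ≤ K → 1 ≤ s → 0 < θ → θ ≤ 1 → 0 < δ₁ → δ₁ ≤ 1 →
    (∀ e, ((A e).card : ℝ) ≤ 2 * s) → (∀ v, 1 ≤ dg A v) → (∀ v, blk A K v ≤ I) →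
    Ex (θ / s) univ (fun T => ∑ i ∈ univ.image (blk A K),
      ∑ W ∈ (T ∩ above A K (i + 2)).powerset,
        if δ₁ * θ * (∑ v ∈ univ.filter (fun v => blk A K v = i), (dg A v : ℝ)) <
          ∑ u ∈ univ.filter (fun u => blk A K u = i), ((if u ∈ T then (1 : ℝ) else 0) - θ / s) *
            coef A K I (θ / s) Φ T W (I - i) u then (1 : ℝ) else 0) ≤ blockSum A K s θ δ₁ ∧
    Ex (θ / s) univ (fun T => ∑ i ∈ univ.image (blk A K),
      ∑ W ∈ (T ∩ above A K (i + 2)).powerset,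
        if δ₁ * θ * (∑ v ∈ univ.filter (fun v => blk A K v = i), (dg A v : ℝ)) <
          ∑ u ∈ univ.filter (fun u => blk A K u = i), ((if u ∈ T then (1 : ℝ) else 0) - θ / s) *
            (2 * s * (cnt A K Φ T W u u : ℝ)) then (1 : ℝ) else 0) ≤ blockSum A K s θ δ₁

/-- TYPICAL SETS exist.

PROOF (from `HeavyExStmt`, `CloseExStmt`, `RtotExStmt`, `DevExStmt`, `FreezeStmt`). `p = θ/s`,
`z = δ₁ θ`, `r = δ³/2`, `I = sup blk`, `M_i = Σ_{blk v = i} d(v)`. `M > 0`. It is enough that the sum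
of the expectations of the following nonnegative quantities is `< 1` (`Ex_exists`).
(1) `Σ_{v : hit > 4θd} hit / (δ M)`: expectation `≤ (2/Λ + γ)/δ ≤ δ²/16 ≤ 1/8`.
(2) `2 s Σ_e clo(e) / (δ² M)`: expectation `≤ 32 (η + ε)/δ² ≤ 1/8`.
(3) `rtot / ((δ³/2) M)`: expectation `≤ (64 (η + 2ε) + 2/Λ + γ)/(δ³/2) ≤ 1/8`.
(4), (5) for every `j` the two sums of `DevExStmt` for `Φ j`: together at most
`2 card J · blockSum ≤ 1/4`.
Total `≤ 1/8 + 1/8 + 1/8 + 1/4 < 1`. For such a `T`: `Heavy`, `Close` are (1), (2). Let `W ⊆ T`.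
The sums in (4), (5) are `< 1`, so all indicators are `0`; the ones for `W' = W ∩ above (i+2)`
give the inequalities of `FreezeStmt` and (5) for `W` itself, because for `blk u = i`
`coef T W (I-i) u = coef T (W ∩ above (i+2)) (I-i) u` (induction) and
`cnt T W u u = cnt T (W ∩ above (i+2)) u u`. (If the block `I - k` is empty the inequality of
`FreezeStmt` is `0 ≤ 0`.) `FreezeStmt` (`2 δ₁ θ + δ³/2 ≤ δ³`) gives `Fair`; (5) summed over the
blocks gives `Σ_u (1(u∈T) - p) 2 s cnt(u,u) ≤ δ₁ θ M`, i.e. `Glob` (`δ₁ ≤ δ`, `p = θ/s`). -/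
def TypStmt : Prop :=
  ∀ (V ι J : Type) [Fintype V] [DecidableEq V] [Fintype ι] [DecidableEq ι] [Fintype J]
    (A : ι → Finset V) (K : ℕ) (s θ γ η ε Λ δ δ₁ : ℝ) (Φ : J → Prd V ι),
    2 ≤ K → 1 ≤ s → 0 < θ → θ ≤ 1 → 0 ≤ γ → 0 ≤ η → 0 ≤ ε → 1 ≤ Λ → 0 < δ → δ ≤ 1 →
    0 < δ₁ → δ₁ ≤ δ ^ 3 / 4 → 0 < Fintype.card V →
    (∀ e, ((A e).card : ℝ) ≤ 2 * s) →
    (∀ e f, e ≠ f → ((A e ∩ A f).card : ℝ) ≤ γ * s) →
    (∀ v, Λ ≤ (dg A v : ℝ)) → (Fintype.card ι : ℝ) * s ≤ 4 * mass A → Spread A K s η ε →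
    2 / Λ + γ + 64 * (η + 2 * ε) ≤ δ ^ 3 / 16 →
    2 * (Fintype.card J : ℝ) * blockSum A K s θ δ₁ ≤ 1 / 4 →
    ∃ T : Finset V, Heavy A θ δ T ∧ Close A K s δ T ∧
      ∀ j, Fair A K (θ / s) δ T (Φ j) ∧ Glob A K (θ / s) δ T (Φ j)

/-- LOSS. Of the edges through `v` that ever had the status `(c, a)` above `v`, few have lost it.

PROOF. Let `e ∈ ever` not be in `mono (blk v + 2)`. Let `k` be the smallest number `≥ blk v + 2`
with `e ∈ mono k`; `k > blk v + 2` and `e ∉ mono (k-1)`, so some `u ∈ A e ∩ T` has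
`blk u = k - 1 ≥ blk v + 2`. If `e ∈ mono (k+1) = mono (blk u + 2)` then `(e, u)` is counted in
`X = Σ_{u ∈ T, u above v} cnt (stPrd c a) u v`; otherwise some `u' ∈ A e ∩ T` has `blk u' = k`, a
close pair. So the number of lost edges is at most `X + cloV v`. Now
`X = p Σ_{u above v} cnt u v + dev v` and `Σ_{u above v} cnt u v` counts pairs `(e, u)` with
`u ∈ A e`, `v ∈ A e`, `e ∈ mono (blk u + 2)`, so `e ∈ ever`: at most `2 s |ever|`. Hence
`|ever| - |final| ≤ 2 θ |ever| + δ d(v) + δ d(v)`. (`mono A K (T ∩ above k) (W ∩ above k) c a k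
= mono A K T W c a k`.) -/
def LossStmt : Prop :=
  ∀ (V ι : Type) [Fintype V] [DecidableEq V] [Fintype ι] [DecidableEq ι] (A : ι → Finset V)
    (K : ℕ) (s θ δ : ℝ) (T W : Finset V) (c : Bool) (a : ℕ) (v : V), 0 < s → 0 < θ →
    (∀ e, ((A e).card : ℝ) ≤ 2 * s) →
    |dev A K (θ / s) (stPrd A K c a) T W v| ≤ δ * (dg A v : ℝ) →
    (cloV A K T v : ℝ) ≤ δ * (dg A v : ℝ) →
    (1 - 2 * θ) * ((ever A K T W c a v).card : ℝ) ≤
      (deg A (mono A K T W c a (blk A K v + 2)) v : ℝ) + 2 * δ * (dg A v : ℝ)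

/-- RIPENESS. For a point `v` that is `ρ`-ripe at its own time there is a colour `c` (the one of
shorter range) such that for three quarters of the edges `e` through `v` with own-time status
`(c, a c)`: whenever `e` already had this status at the time `k` then `v` was `ρ/4`-ripe at the time
`k`.

PROOF. For both `c` let `F c` be the edges through `v` in `mono c (a c) (blk v + 2)`, and
`N c k = |F c ∩ mono c (a c) k|` for `k ≥ blk v + 2`. If `e ∈ F c ∩ mono c (a c) k` and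
`blk v + 2 ≤ k' ≤ k` then `e ∈ mono c (a c) k'` (the number of sampled points is monotone and equal
at both ends, and the points are the same). So `N c` is nonincreasing in `k`. Let `B₀` be larger
than all blocks (then `mono c a k = mono c a B₀` for `k ≥ B₀`) and let `k_c` be the largest
`k ∈ [blk v + 2, B₀]` (take `B₀ ≥ blk v + 2`) with `4 N c k ≥ |F c|`. Let `c` be the colour with
`k_c ≤ k_{!c}`. If `k_c < B₀` let `G = F c \ mono c (a c) (k_c + 1)`, which has more than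
`(3/4)|F c|` elements; if `k_c = B₀` let `G = F c`. Let `e ∈ G`, `k ≥ blk v + 2`,
`e ∈ mono c (a c) k`. If `k_c < B₀` then `k ≤ k_c` (otherwise `e ∈ mono c (a c) (k_c + 1)` by the
interval property). So (replacing `k` by `min k B₀`, same family) `k ≤ k_c ≤ k_{!c}` and for both
colours `c'`: `deg (mono c' (a c') k) v ≥ N c' k ≥ N c' k_{c'} ≥ |F c'|/4 ≥ (ρ/4) d(v)`. -/
def RipeStmt : Prop :=
  ∀ (V ι : Type) [Fintype V] [DecidableEq V] [Fintype ι] [DecidableEq ι] (A : ι → Finset V)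
    (K : ℕ) (T W : Finset V) (a : Bool → ℕ) (ρ : ℝ) (v : V), 0 ≤ ρ →
    ripe A K T W a ρ (blk A K v + 2) v →
    ∃ (c : Bool) (G : Finset ι),
      G ⊆ (mono A K T W c (a c) (blk A K v + 2)).filter (fun e => v ∈ A e) ∧
      3 * deg A (mono A K T W c (a c) (blk A K v + 2)) v ≤ 4 * G.card ∧
      ∀ e ∈ G, ∀ k, blk A K v + 2 ≤ k → e ∈ mono A K T W c (a c) k →
        ripe A K T W a (ρ / 4) k v

/-- GAIN. `U` is a set of sampled points of colour `c`. The pairs `(e, u)` with `u ∈ U` above `v`,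
`e` through `u` and `v` with status `(c, a)` at the own time of `u` give edges of status
`(c, a+1)` above `v`, up to close pairs.

PROOF. Call such a pair clean if `u` is the only point of `A e ∩ T` in the blocks `blk u` and
`blk u + 1`. A pair that is not clean gives an ordered close pair `(u, u')` of `e`; different pairs
`(e, u)` give different ones; so there are at most `cloV v` unclean pairs. For a clean pair,
`A e ∩ T ∩ above (blk u) = (A e ∩ T ∩ above (blk u + 2)) ∪ {u}` has `a + 1` points, all of colour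
`c`: `e ∈ mono c (a+1) (blk u)`, and `blk u ≥ blk v + 2`, so `e ∈ ever c (a+1) v`. Different clean
pairs `(e, u), (e, u')` of the same `e` are impossible: let `blk u ≤ blk u'`; they are not close, so
`blk u' ≥ blk u + 2`, and `|A e ∩ T ∩ above (blk u + 2)| ≥ 1 + |A e ∩ T ∩ above (blk u' + 2)|`
contradicts that both are `a`. -/
def GainStmt : Prop :=
  ∀ (V ι : Type) [Fintype V] [DecidableEq V] [Fintype ι] [DecidableEq ι] (A : ι → Finset V)
    (K : ℕ) (T W U : Finset V) (c : Bool) (a : ℕ) (v : V), U ⊆ T →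
    (∀ u ∈ U, decide (u ∈ W) = c) →
    ∑ u ∈ U.filter (fun u => blk A K v + 2 ≤ blk A K u),
      ((mono A K T W c a (blk A K u + 2)).filter (fun e => u ∈ A e ∧ v ∈ A e)).card ≤
      (ever A K T W c (a + 1) v).card + cloV A K T v

/-- FEW POINTS ABOVE OR BELOW. `b v` is the block of `v`.

PROOF. First claim: let `i₀` be the least `i` such that fewer than `q` points of `X` have `b ≥ i`
(it exists unless there is nothing to prove; if `q = 0` the set is empty). The points in question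
have `b v + 2 ≥ i₀`. Fewer than `q` (so at most `q`) points of `X` have `b ≥ i₀`; the others have
`b = i₀ - 2` or `b = i₀ - 1`, so they are at most `w`. Second claim: if fewer than `q` points of `X`
have `b ≤ i` for all `i` then `|X| ≤ q`. If already `q` or more points have `b ≤ 0` then the points
in question have `b v < 2`, at most `w`. Otherwise let `i₀` be the largest `i` such that fewer than
`q` points of `X` have `b ≤ i`; the points in question have `b v ≤ i₀ + 2`, at most `q` have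
`b ≤ i₀` and at most `w` have `b = i₀ + 1` or `b = i₀ + 2`. -/
def TopStmt : Prop :=
  ∀ (V : Type) [DecidableEq V] (X : Finset V) (b : V → ℕ) (q w : ℝ), 0 ≤ q →
    (∀ i, ((X.filter (fun v => b v = i ∨ b v = i + 1)).card : ℝ) ≤ w) →
    ((X.filter (fun v => ((X.filter (fun u => b v + 2 ≤ b u)).card : ℝ) < q)).card : ℝ) ≤ q + w ∧
    ((X.filter (fun v => ((X.filter (fun u => b u + 2 ≤ b v)).card : ℝ) < q)).card : ℝ) ≤ q + w

/-- MANY GOOD POINTS.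

PROOF (from `RipeStmt`, `TopStmt`). Put `κ = x²/192`, `c₁ = x⁴/1536 = x² κ/8`, `R = reg a x`. All
sums of `d` over point sets are called masses; `N s ≤ 4 M`, `η ≤ κ`, `2 ε ≤ κ`.
By `RipeStmt` every `v ∈ R` has a colour `c(v)` and a set `G(v)`. Let `c` be a colour for
which `R_c = {v ∈ R : c(v) = c}` has mass `≥ (x/2) M`; fix it. For `v ∈ R` write
`F(v)` = edges through `v` of status `(c, a c)` at time `blk v + 2`, `|F(v)| ≥ x d(v)`. For an edge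
`e` let `X_e = {u ∈ A e ∩ R : e ∈ mono c (a c) (blk u + 2)}` (so `v ∈ X_e` iff `v ∈ R`, `e ∈ F(v)`).
By `TopStmt` (first part, `q = κ s`, `w = η s`) for `e ∉ Bad` at most `(κ + η) s` points `v` of `X_e`
have fewer than `κ s` points of `X_e` above them (`blk v + 2 ≤ blk u`); for `e ∈ Bad` at most `2 s`.
So the number of such incidences `(e, v)` is at most
`N (κ + η) s + ε N 2 s ≤ 4 (κ + η + 2 ε) M ≤ 12 κ M = (x²/16) M`; so the points `v ∈ R` with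
at least `|F(v)|/4` such edges have mass at most `(4/x)(x²/16) M = (x/4) M`. The other `v ∈ R_c`
(mass `≥ (x/4) M`) have at least `(3/4)|F(v)| - |F(v)|/4 ≥ (x/2) d(v)` edges `e ∈ G(v)` with at
least `κ s` points `u ∈ X_e` above `v`; by `RipeStmt` (time `k = blk u + 2`) `v` is `x/4`-ripe at the
time `blk u + 2`, so `(e, v)` is counted in `qcount u`. So
`Σ_{u ∈ R} qcount(u) ≥ (x/4) M (x/2) κ s = c₁ M s`.
As `qcount(u) ≤ 2 s d(u)`, with `R₁ = {u ∈ R : qcount(u) ≥ (c₁/2) s d(u)}` (the good points):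
`c₁ M s ≤ 2 s mass(R₁) + (c₁/2) s M`, so `mass(R₁) ≥ (c₁/4) M`. -/
def GoodStmt : Prop :=
  ∀ (V ι : Type) [Fintype V] [DecidableEq V] [Fintype ι] [DecidableEq ι] (A : ι → Finset V)
    (K : ℕ) (s η ε x : ℝ) (T W : Finset V) (a : Bool → ℕ), 1 ≤ s →
    0 < x → x ≤ 1 → 0 ≤ η → η ≤ x ^ 2 / 192 → 0 ≤ ε →
    2 * ε ≤ x ^ 2 / 192 → (∀ e, ((A e).card : ℝ) ≤ 2 * s) →
    (Fintype.card ι : ℝ) * s ≤ 4 * mass A → Spread A K s η ε →
    x * mass A ≤ ∑ v ∈ reg A K T W a x, (dg A v : ℝ) →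
    ∃ (c : Bool) (R₁ : Finset V), (∀ v, v ∈ R₁ ↔ good A K s (x ^ 4 / 1536) T W a x c v) ∧
      x ^ 4 / 1536 / 4 * mass A ≤ ∑ v ∈ R₁, (dg A v : ℝ)

/-- FEW PAIRS, or the next position. `U` is a set of sampled points of colour `c`, `P` any relation.
For a point `v` let `n(v)` be the number of pairs `(e, u)`, `u ∈ U` above `v`, `P u v`, `e` an edge
through `u` and `v` with status `(c, a c)` at the own time of `u`. If the points `v` outside `Aty` are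
typical and, if `n(v) > 0`, have at least `x' d(v)` edges of status `(!c, a (!c))` at their own
time, then the next position is reached or `Σ n(v)` is small.

PROOF (from `LossStmt`, `GainStmt`). Let `v ∉ Aty`, `n = n(v)`. By `GainStmt` (for
`U.filter (P · v)`) `|ever c (a c + 1) v| ≥ n - δ d(v)`, and by `LossStmt`
`deg (mono c (a c + 1) (blk v + 2)) v ≥ (1-2θ)(n - δ d) - 2 δ d ≥ (3/4) n - 3 δ d(v)` (both for
`n ≥ δ d` and `n < δ d`). So if `n ≥ 2 x' d(v)` this is at least `x' d(v)` (`3 δ ≤ x'/2`); then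
also `n > 0`, and `v ∈ Y := reg (update a c (a c + 1)) x'`. Suppose `mass(Y) < x' M`. As
`n(v) ≤ hit(v)` (the pairs have `u ≠ v`) and `Σ_{v ∈ S} hit(v) ≤ 4 θ mass(S) + δ M` for every `S`
(`Heavy`): `Σ_v n(v) ≤ Σ_{v ∉ Aty ∪ Y} 2 x' d(v) + Σ_{v ∈ Y} hit + Σ_{v ∈ Aty} hit
≤ 2 x' M + (4 θ x' + δ) M + (4 θ 7 δ + δ) M ≤ (3 x' + 6 δ) M` (`θ ≤ 1/8`). -/
def FewStmt : Prop :=
  ∀ (V ι : Type) [Fintype V] [DecidableEq V] [Fintype ι] [DecidableEq ι] (A : ι → Finset V)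
    (K : ℕ) (s θ δ x' : ℝ) (T W U Aty : Finset V) (c : Bool) (a : Bool → ℕ) (P : V → V → Prop)
    [∀ u v, Decidable (P u v)], 1 ≤ s → 0 < θ → θ ≤ 1 / 8 → 0 < δ → 0 < x' → 6 * δ ≤ x' →
    (∀ e, ((A e).card : ℝ) ≤ 2 * s) → (∀ v, 1 ≤ dg A v) → U ⊆ T →
    (∀ u ∈ U, decide (u ∈ W) = c) → Heavy A θ δ T →
    ∑ v ∈ Aty, (dg A v : ℝ) ≤ 7 * δ * mass A →
    (∀ v, v ∉ Aty → |dev A K (θ / s) (stPrd A K c (a c + 1)) T W v| ≤ δ * (dg A v : ℝ) ∧
      (cloV A K T v : ℝ) ≤ δ * (dg A v : ℝ)) →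
    (∀ v, v ∉ Aty → ∀ u ∈ U, P u v → blk A K v + 2 ≤ blk A K u →
      ((mono A K T W c (a c) (blk A K u + 2)).filter (fun e => u ∈ A e ∧ v ∈ A e)).Nonempty →
      x' * (dg A v : ℝ) ≤ (deg A (mono A K T W (!c) (a (!c)) (blk A K v + 2)) v : ℝ)) →
    x' * mass A ≤ ∑ v ∈ reg A K T W (Function.update a c (a c + 1)) x', (dg A v : ℝ) ∨
    ∑ v, (∑ u ∈ U.filter (fun u => P u v ∧ blk A K v + 2 ≤ blk A K u),
      (((mono A K T W c (a c) (blk A K u + 2)).filter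
        (fun e => u ∈ A e ∧ v ∈ A e)).card : ℝ)) ≤ (3 * x' + 6 * δ) * mass A

/-- THE STEP.

PROOF (from `LossStmt`, `TopStmt`, `GoodStmt`, `FewStmt`). Put `c₁ = x⁴/1536`,
`κ₂ = x⁵/147456 = x c₁/96`, `x' = nextX θ x = θ x c₁² κ₂/1000`, `R = reg a x`. `Bad` from `Spread`.
All sums of `d` over point sets are called masses. `N s ≤ 4 M`.
TYPICAL points: `|dev| ≤ δ d(v)` for the predicates `stPrd c (a c)`, `stPrd c (a c + 1)`,
`stepPrd c` (all `c`) and `cloV v ≤ δ d(v)`. As `Σ_v cloV(v) = Σ_e |A e| clo(e) ≤ 2 s Σ clo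
≤ δ² M`, the mass of the set `Aty` of the other points is at most `7 δ M`.
Suppose that for both `c` the mass of `reg (update a c (a c + 1)) x'` is `< x' M`.
(B) A typical `v` that is `x/4`-ripe at a time `k ≥ blk v + 2` has
`deg (mono c' (a c') (blk v + 2)) v ≥ (1 - 2θ)(x/4) d - 2 δ d ≥ (x/8) d(v) ≥ x' d(v)` for both `c'`
(`LossStmt`; the edges in `mono c' (a c') k` through `v` are in `ever`).
(E) `GoodStmt` gives `c` and `R₁` (the good points for `c`), `mass(R₁) ≥ (c₁/4) M`; note `R₁ ⊆ R`.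
(F) Colour `c`: let `U = {u ∈ T ∩ R₁ : colour c}`, `w = Σ_{u ∈ U} d(u)`, and apply `FewStmt` with
`P u v` := `v` is `x/4`-ripe at the time `blk u + 2` and (B): `Σ_v n(v) ≤ q M`, `q = 3 x' + 6 δ`.
And `Σ_v n(v) = Σ_{u ∈ U} qcount(u) ≥ (c₁/2) s w`. So `w ≤ 2 q M/(c₁ s)`.
(G) Colour `!c`: `U' = {u ∈ T ∩ R₁ : colour !c}`, `P u v` := `v ∈ R`; the condition of `FewStmt`
holds because `v ∈ R` and `x' ≤ x`. So `Σ_{v ∈ R} n'(v) ≤ q M`, where for `v ∈ R` `n'(v)` = number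
of pairs `(e, u)`, `u ∈ U'` above `v`, `e ∋ u, v`, `e ∈ mono (!c) (a (!c)) (blk u + 2)`.
(H) `stepPrd c` at `v`: the number of pairs `(e, u)` with `u ∈ T` above `v`, `u ∈ R₁`,
`e ∋ u, v`, `e ∈ mono (!c) (a (!c)) (blk u + 2)` is at least `p` times the number `t(v)` of all such
pairs (`u` not necessarily in `T`) minus `δ d(v)`, for typical `v`. Summing over the typical
`v ∈ R`: `p Σ t(v) ≤ δ M + Σ_{v ∈ R} n'(v) + 2 s w ≤ δ M + q M + 4 q M/c₁`.
LOWER BOUND: there are at least `x mass(R₁) ≥ (x c₁/4) M` incidences `(e, u)`, `u ∈ R₁`,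
`e ∈ mono (!c) (a (!c)) (blk u + 2)`, `e ∋ u`; by `TopStmt` (`X = A e ∩ R`, second part,
`q = κ₂ s`) all but `N (κ₂ + η) s + ε N 2 s ≤ 4 (κ₂ + η + 2ε) M ≤ 12 κ₂ M = (x c₁/8) M` of them have
at least `κ₂ s` points `v ∈ A e ∩ R` below `u` (`blk v + 2 ≤ blk u`). So
`Σ_{v ∈ R} t(v) ≥ (x c₁/8) κ₂ M s`, and the atypical `v` contribute at most
`7 δ M 2 s`; `Σ_{typical v ∈ R} t(v) ≥ (x c₁ κ₂/16) M s` (as `14 δ ≤ x c₁ κ₂/16`).
With `p = θ/s`: `θ x c₁ κ₂/16 ≤ δ + q (1 + 4/c₁) ≤ δ + 5 q/c₁`. But `q ≤ 3.06 x'`,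
`5 q/c₁ ≤ 15.3 x'/c₁ = 0.0153 θ x c₁ κ₂` and `δ ≤ x'/100`, a contradiction (`M > 0`).
(In `stepPrd` the sets `T, W` are restricted to `above (blk u + 2)`, which does not change
`mono _ _ (blk u + 2)`, hence `ripe`, `qcount`, `good` at `u`.) -/
def AStepStmt : Prop :=
  ∀ (V ι : Type) [Fintype V] [DecidableEq V] [Fintype ι] [DecidableEq ι] (A : ι → Finset V)
    (K : ℕ) (s θ δ η ε x : ℝ) (T W : Finset V) (a : Bool → ℕ), 1 ≤ s → 0 < θ → θ ≤ 1 / 8 →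
    0 < x → x ≤ 1 → 0 < δ → δ ≤ nextX θ x / 100 → 0 ≤ η → η ≤ x ^ 5 / 147456 → 0 ≤ ε →
    2 * ε ≤ x ^ 5 / 147456 → (∀ e, ((A e).card : ℝ) ≤ 2 * s) → (∀ v, 1 ≤ dg A v) →
    0 < mass A → (Fintype.card ι : ℝ) * s ≤ 4 * mass A → Spread A K s η ε → W ⊆ T →
    Heavy A θ δ T → Close A K s δ T →
    (∀ c, Fair A K (θ / s) δ T (stPrd A K c (a c))) →
    (∀ c, Fair A K (θ / s) δ T (stPrd A K c (a c + 1))) →
    (∀ c, Fair A K (θ / s) δ T (stepPrd A K s (x ^ 4 / 1536) a x c)) →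
    x * mass A ≤ ∑ v ∈ reg A K T W a x, (dg A v : ℝ) →
    ∃ c, nextX θ x * mass A ≤
      ∑ v ∈ reg A K T W (Function.update a c (a c + 1)) (nextX θ x), (dg A v : ℝ)

/-- START. PROOF (from `LossStmt`). `mono c 0 k` is the set of edges without sampled points in the
blocks `≥ k`; for `k` larger than all blocks these are all edges, so `ever c 0 v` are all edges
through `v`. For a typical `v` (`dev` for `stPrd c 0`, both `c`, and `cloV`; the atypical ones have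
mass at most `3 δ M ≤ M/2`) `LossStmt` gives `deg (mono c 0 (blk v + 2)) v ≥ (1 - 2θ) d - 2 δ d
≥ d/2`. -/
def BaseStmt : Prop :=
  ∀ (V ι : Type) [Fintype V] [DecidableEq V] [Fintype ι] [DecidableEq ι] (A : ι → Finset V)
    (K : ℕ) (s θ δ : ℝ) (T W : Finset V), 1 ≤ s → 0 < θ → θ ≤ 1 / 8 → 0 < δ → δ ≤ 1 / 8 →
    (∀ e, ((A e).card : ℝ) ≤ 2 * s) → (∀ v, 1 ≤ dg A v) → W ⊆ T → Close A K s δ T →
    (∀ c, Fair A K (θ / s) δ T (stPrd A K c 0)) →
    1 / 2 * mass A ≤ ∑ v ∈ reg A K T W (fun _ => 0) (1 / 2), (dg A v : ℝ)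

/-- END. PROOF. Suppose the colouring `W` of `T` makes no edge with at least `m` points in `T`
monochromatic, `m ≤ a c` and `reg a x` has mass `≥ x M`. Let `E` be the set of edges that are in
`mono c (a c) k` for some `k`. For `v ∈ reg` at least `x d(v)` edges through `v` are in `E`, so
`x · x M ≤ 2 s |E|`. An `e ∈ E` is not in `mono c (a c) 0` (`above 0 = univ`, so it would have
`a c ≥ m` points in `T`, all of colour `c`). Let `k > 0` be the least with `e ∈ mono k`; some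
`u ∈ A e ∩ T` has `blk u = k - 1`; if `e ∈ mono (k+1) = mono (blk u + 2)` then `(e, u)` is counted in
`Σ_{u ∈ T} cnt (stPrd c (a c)) u u`, otherwise there is a close pair. So
`|E| ≤ Σ_{u ∈ T} cnt u u + Σ_e clo(e) ≤ p · 2 s |E| + δ p M + δ² M/(2 s)` (`Glob`; `Σ_u cnt u u`
counts pairs `(e, u)` with `e ∈ E`, `u ∈ A e`). Hence `(1 - 2θ)|E| ≤ (δ θ + δ²/2) M/s ≤ δ M/s`,
`|E| ≤ 2 δ M/s`, and `x² M ≤ 4 δ M`, contradiction to `4 δ < x²`, `M > 0`. -/
def EndStmt : Prop :=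
  ∀ (V ι : Type) [Fintype V] [DecidableEq V] [Fintype ι] [DecidableEq ι] (A : ι → Finset V)
    (K m : ℕ) (s θ δ x : ℝ) (T W : Finset V) (a : Bool → ℕ) (c : Bool), 1 ≤ s → 0 < θ →
    θ ≤ 1 / 8 → 0 < δ → δ ≤ 1 → 0 < x → 4 * δ < x ^ 2 →
    (∀ e, ((A e).card : ℝ) ≤ 2 * s) → 0 < mass A → W ⊆ T → Close A K s δ T →
    Glob A K (θ / s) δ T (stPrd A K c (a c)) → m ≤ a c →
    (∀ e, m ≤ (A e ∩ T).card → (A e ∩ T ∩ W).Nonempty ∧ ((A e ∩ T) \ W).Nonempty) →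
    x * mass A ≤ ∑ v ∈ reg A K T W a x, (dg A v : ℝ) → False

/-- SPREAD families are impossible in `TwoCol m`.

PROOF (from `TypStmt`, `AStepStmt`, `BaseStmt`, `EndStmt`). `θ = 1/8`, `x_0 = 1/2`,
`x_{r+1} = nextX θ x_r`, `r ≤ 2m - 1`; `y = x_{2m}`; all `x_r ≤ 1/2` and decreasing. Choose
`δ ≤ y/100`, `δ ≤ y²/5`, `δ ≤ 1/8`; `δ₁ = δ³/4`; `η = ε = min (δ³/(64·64·3)...)` small enough for
`64 (η + 2ε) ≤ δ³/64` and `η, 2ε ≤ y⁵/147456`; `Λ = 128/δ³`, `γ = δ³/64` (so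
`2/Λ + γ + 64(η+2ε) ≤ δ³/16`). Index set `J` of predicates: `stPrd c b` for `c : Bool`,
`b ≤ 2m` and `stepPrd s (x_r⁴/1536) a x_r c` for `r < 2m`, `a : Bool → ℕ` with values `≤ 2m`,
`c : Bool`: a finite type, e.g. `(Bool × Fin (2m+1)) ⊕ (Fin (2m) × (Bool → Fin (2m+1)) × Bool)`;
`ξ = 1/(8 (card J + 1))`. `TypStmt` gives `T`; `TwoCol` for `S = T` gives `R`, `W = R ∩ T`.
By induction on `r ≤ 2m - 1` there is `a` with `a true + a false = r` and
`x_r M ≤ mass (reg a x_r)` (`BaseStmt`, `AStepStmt`). For `r = 2m - 1` some `a c ≥ m`: `EndStmt`. -/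
def SpreadStmt : Prop :=
  ∀ m : ℕ, 1 ≤ m → ∃ θ δ₁ η ε Λ γ ξ : ℝ, 0 < θ ∧ θ ≤ 1 ∧ 0 < δ₁ ∧ δ₁ ≤ 1 ∧ 0 < η ∧ 0 < ε ∧
    ε ≤ 1 ∧ 1 ≤ Λ ∧ 0 < γ ∧ γ ≤ 1 ∧ 0 < ξ ∧
    ∀ (V ι : Type) [Fintype V] [DecidableEq V] [Fintype ι] [DecidableEq ι] (A : ι → Finset V)
      (K : ℕ) (s : ℝ), 2 ≤ K → 1 ≤ s → TwoCol m A → 0 < Fintype.card V →
      (∀ e, ((A e).card : ℝ) ≤ 2 * s) →
      (∀ e f, e ≠ f → ((A e ∩ A f).card : ℝ) ≤ γ * s) →
      (∀ v, Λ ≤ (dg A v : ℝ)) → (Fintype.card ι : ℝ) * s ≤ 4 * mass A → Spread A K s η ε →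
      blockSum A K s θ δ₁ ≤ ξ → False

/-- REMOVING BAD BLOCKS. `b v` is the block and `d v` the degree of `v`.

PROOF. Let `i_max` be the largest block (if `Y` is empty take `X = ∅`), `K^{i_max} ≤ Dm`,
`M_i = Σ_{v ∈ Y, b v = i} d v`, `n_i` the number of points of `Y` with `b ≥ i + 2`,
`τ_i = τ + (i_max - i)`. Call `i` bad if `θ δ₁² M_i/(16 s K^{i+1}) < (θ/s) n_i + τ_i`, and let `X` be
the set of points of `Y` in blocks that are not bad. As `n_i ≤ Σ_{i' ≥ i+2} M_{i'} K^{-i'}`, the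
total mass of the bad blocks is at most
`(16/δ₁²)(Σ_i Σ_{i' ≥ i+2} M_{i'} K^{i+1-i'} + (s/θ) Σ_{i ≤ i_max} K^{i+1} (τ + i_max - i))
≤ (16/δ₁²)((2/K) Σ_Y d + (s/θ) K^{i_max + 1} (2 τ + 4))`
(`Σ_{j ≥ 1} K^{-j} ≤ 2/K` and `Σ_{j ≥ 0} K^{-j} (τ + j) ≤ 2 τ + 4` for `K ≥ 2`). For a block `i` that
is not bad the term of the sum is at most `exp (- τ_i)` (removing blocks only decreases `n_i`; the
block `i` is kept completely), and `Σ_{i ≤ i_max} exp (- τ - (i_max - i)) ≤ 2 exp (- τ)`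
(`exp (-1) ≤ 1/2`). -/
def BlocksStmt : Prop :=
  ∀ (V : Type) [DecidableEq V] (Y : Finset V) (d : V → ℝ) (b : V → ℕ) (K : ℕ)
    (s θ δ₁ τ Dm : ℝ), 2 ≤ K → 0 < s → 0 < θ → 0 < δ₁ → 0 ≤ τ → 0 ≤ Dm →
    (∀ v ∈ Y, (K : ℝ) ^ (b v) ≤ d v ∧ d v ≤ Dm) →
    ∃ X ⊆ Y, ∑ v ∈ Y \ X, d v ≤
        16 / δ₁ ^ 2 * (2 / K * ∑ v ∈ Y, d v + s / θ * K * Dm * (2 * τ + 4)) ∧
      ∑ i ∈ X.image b, Real.exp (θ / s * ((X.filter (fun v => i + 2 ≤ b v)).card : ℝ) -
        θ * δ₁ ^ 2 * (∑ v ∈ X.filter (fun v => b v = i), d v) /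
          (16 * s * (K : ℝ) ^ (i + 1))) ≤ 2 * Real.exp (-τ)

/-- PREPARATION: removing points of small degree, of very large degree and bad blocks.

PROOF (from `BlocksStmt`). Put `τ₀ = log (2/ξ)` (at least `0`, we may assume `ξ ≤ 2`), `K₀ ≥ 2`,
`K₀ ≥ 512/δ₁²`. Given
`K ≥ K₀` and `Λ₁` choose `ε₂ ≤ θ δ₁²/(16 · 8 · K (2 τ₀ + 4))`, `ε₂ ≤ 1`, `γ = ε₂/512`,
`Λ = max (8 Λ₁) (1024/ε₂)`. Write `N = card ι`, `n = card V`, `d = dg A`. `N > 0` (otherwise
`Λ n ≤ 0`), an edge has `≥ s` points so `n ≥ s`, `N ≥ Λ n/s ≥ Λ`.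
`Σ_v d(v) = Σ_e |A e| ∈ [N s, 2 N s]`.
(1) `V₁ = {d < Λ₁}` has mass `≤ Λ₁ n ≤ (Λ₁/Λ) N s ≤ N s/8`.
(2) `V₂ = {d > ε₂ N}` has at most `2 s/ε₂` points; `Σ_v d(v)² = Σ_{e,f} |A e ∩ A f|
≤ 2 s N + γ s N²`; Cauchy-Schwarz: mass of `V₂` `≤ sqrt ((2 s/ε₂)(2 s N + γ s N²))
= N s sqrt ((2/ε₂)(2/N + γ)) ≤ N s/8` (`2/N ≤ ε₂/512`, `γ ≤ ε₂/512`).
(3) Apply `BlocksStmt` to `Y = V \ (V₁ ∪ V₂)`, `Dm = ε₂ N`, `τ = τ₀`, `b = blk A K` (the degrees
in `Y` are `≥ Λ₁ ≥ 1`): the lost mass is at most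
`(16/δ₁²)((2/K) 2 N s + (s/θ) K ε₂ N (2 τ₀ + 4)) ≤ N s/8 + N s/8`. So `X` has mass
`≥ N s - 4 N s/8 = N s/2`, and the sum is at most `2 exp (- τ₀) ≤ ξ`. -/
def PrepStmt : Prop :=
  ∀ θ δ₁ ξ : ℝ, 0 < θ → 0 < δ₁ → δ₁ ≤ 1 → 0 < ξ → ∃ K₀ : ℕ, 2 ≤ K₀ ∧ ∀ K : ℕ, K₀ ≤ K →
    ∀ Λ₁ : ℝ, 1 ≤ Λ₁ → ∃ Λ γ : ℝ, 0 < Λ ∧ 0 < γ ∧
      ∀ (V ι : Type) [Fintype V] [DecidableEq V] [Fintype ι] [DecidableEq ι]
        (A : ι → Finset V) (s : ℝ), 1 ≤ s → 0 < Fintype.card V →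
        (∀ e, s ≤ ((A e).card : ℝ) ∧ ((A e).card : ℝ) ≤ 2 * s) →
        (∀ e f, e ≠ f → ((A e ∩ A f).card : ℝ) ≤ γ * s) →
        Λ * (Fintype.card V : ℝ) ≤ (Fintype.card ι : ℝ) * s →
        ∃ X : Finset V, (∀ v ∈ X, Λ₁ ≤ (dg A v : ℝ)) ∧
          (Fintype.card ι : ℝ) * s ≤ 2 * ∑ v ∈ X, (dg A v : ℝ) ∧
          ∑ i ∈ X.image (blk A K), Real.exp (θ / s * ((X ∩ above A K (i + 2)).card : ℝ) -
            θ * δ₁ ^ 2 * (∑ v ∈ X.filter (fun v => blk A K v = i), (dg A v : ℝ)) /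
              (16 * s * (K : ℝ) ^ (i + 1))) ≤ ξ

/-- NO CONCENTRATION in two consecutive blocks.

PROOF (from `LemmaBStmt` with `D = 4 K²/ε`, `c₀ = η`, which gives `Λ_B, γ_B, s_B`).
`Λ₁ = max 1 (4 K² Λ_B/ε)`, `γ = γ_B`, `s₀ = max 1 s_B`. Let `Bad` be the set of edges with more
than `η s` points in two consecutive blocks `i, i+1` for some `i`, and suppose `|Bad| > ε N`.
Choose such an `i(e)` for each `e ∈ Bad`, let `N_i = #{e ∈ Bad : i(e) = i}`,
`W_i` = points in the blocks `i, i+1`. `Σ_i N_i > ε N` and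
`Σ_i mass(W_i) ≤ 2 mass A ≤ 4 N s`, so some `i` has `N_i > (ε/(4 s)) mass(W_i) ≥ 0`.
Apply `LemmaBStmt` to the points `W_i` (a subtype), the edges `e` with `i(e) = i` (a subtype),
`A'' e = A e ∩ W_i`, `n' = |W_i| > 0`, `lam = N_i s/n'`: `mass(W_i) ≥ K^i n'`, so
`lam > (ε/4) K^i`; the points of `W_i` have degree `< K^{i+2} ≤ D lam`, and
`K^{i+2} > Λ₁` gives `lam ≥ (ε/4) Λ₁/K² ≥ Λ_B`; all points satisfy `deg ≤ D lam` and
`Σ deg = Σ_e |A'' e| ≥ N_i η s = c₀ lam n'`. Contradiction. (`TwoCol` is inherited by subsets of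
the points and by subfamilies.) -/
def WindowStmt : Prop :=
  ∀ (m : ℕ) (η ε : ℝ) (K : ℕ), 1 ≤ m → 0 < η → 0 < ε → 2 ≤ K → ∃ Λ₁ γ s₀ : ℝ, 1 ≤ Λ₁ ∧ 0 < γ ∧
    1 ≤ s₀ ∧ ∀ (V ι : Type) [Fintype V] [DecidableEq V] [Fintype ι] [DecidableEq ι]
      (A : ι → Finset V) (s : ℝ), TwoCol m A → s₀ ≤ s → (∀ e, ((A e).card : ℝ) ≤ 2 * s) →
      (∀ e f, e ≠ f → ((A e ∩ A f).card : ℝ) ≤ γ * s) → (∀ v, Λ₁ ≤ (dg A v : ℝ)) →
      Spread A K s η ε

/-- THE PACKING THEOREM.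

PROOF (from `SpreadStmt`, `PrepStmt`, `WindowStmt`). Take `θ, δ₁, η, ε, Λ_S, γ_S, ξ` from
`SpreadStmt`, `K = K₀` from `PrepStmt`; `WindowStmt` gives `Λ_W, γ_W, s_W`;
`Λ₁ = max Λ_S Λ_W`; `Λ_P, γ_P` from `PrepStmt`. `γ = min` of
`γ_S, γ_W, γ_P`, `s₀ = max 1 s_W`, `Λ = Λ_P`. Suppose `N s > Λ n` (if `n = 0` then all edges are
empty, but they have `≥ s > 0` points, so `N = 0`). Let `X` be as in `PrepStmt` and pass to the type
`V' = ↥X`, `A' e = (A e).subtype (· ∈ X)`: degrees (hence blocks) of the points of `X` are the same,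
`TwoCol m A'`, `N s ≤ 2 mass A'`, `blockSum A' ≤ ξ`, `X` nonempty. `WindowStmt` gives
`Spread A' K s η ε`, contradiction to `SpreadStmt`. -/
def GTStmt : Prop :=
  ∀ m : ℕ, 1 ≤ m → ∃ Λ γ s₀ : ℝ, 0 < Λ ∧ 0 < γ ∧ 0 < s₀ ∧
    ∀ (V ι : Type) [Fintype V] [DecidableEq V] [Fintype ι] [DecidableEq ι] (A : ι → Finset V)
      (s : ℝ), TwoCol m A → s₀ ≤ s →
      (∀ e, s ≤ ((A e).card : ℝ) ∧ ((A e).card : ℝ) ≤ 2 * s) →
      (∀ e f, e ≠ f → ((A e ∩ A f).card : ℝ) ≤ γ * s) →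
      (Fintype.card ι : ℝ) * s ≤ Λ * (Fintype.card V : ℝ)

/-- POLYCHROMATIC COLOURINGS for almost disjoint families.

PROOF (from `GTStmt`, Hall's theorem). Let `Λ, γ₀, s₀` be as in `GTStmt` (for `max m 1`; `TwoCol 0`
implies `TwoCol 1`), `C ≥ max s₀ (2 Λ)`, `C ≥ 1` a natural number, `γ = γ₀/2`. Hall
(`Finset.all_card_le_biUnion_card_iff_exists_injective`) for the index set `ι × Fin k`, sets `A e`:
it is enough that every set `E` of edges satisfies `k |E| ≤ |⋃_{e ∈ E} A e|`. Let `V'` be this union.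
For `j ≥ 0` and `b : Fin q` let `E_{j,b}` be the edges of `E` with
`2^j C q k ≤ |A e| < 2^(j+1) C q k` and `col e = b`; `GTStmt` for the points `V'` (subtype), the
edges `E_{j,b}` and `s = 2^j C q k ≥ s₀` (intersections `≤ γ min ≤ γ 2 s = γ₀ s`) gives
`|E_{j,b}| ≤ Λ |V'|/(2^j C q k)`. Sum over `j` (finitely many nonempty) and `b`:
`|E| ≤ 2 Λ |V'|/(C k) ≤ |V'|/k`. The injection `f : ι × Fin k → V`, `f (e, i) ∈ A e`, gives the
colouring `c (f (e, i)) = i` (other points: any colour). (`q ≥ 1` and `k ≥ 1`.) -/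
def AdStmt : Prop :=
  ∀ m : ℕ, ∃ (C : ℕ) (γ : ℝ), 1 ≤ C ∧ 0 < γ ∧
    ∀ (V ι : Type) [Fintype V] [DecidableEq V] [Fintype ι] [DecidableEq ι] (A : ι → Finset V)
      (q k : ℕ) (col : ι → Fin q), TwoCol m A → 1 ≤ k → (∀ e, C * q * k ≤ (A e).card) →
      (∀ e f, e ≠ f → col e = col f →
        ((A e ∩ A f).card : ℝ) ≤ γ * min ((A e).card : ℝ) ((A f).card : ℝ)) →
      ∃ c : V → Fin k, ∀ e, ∀ i, ∃ v ∈ A e, c v = i

end Pool.Agent.Lib.MP_9b5ec2_co
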