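import Mathlib
import Pool.Agent.Lib.MP_9b5ec2_co.Defs2

/-!
# MP_9b5ec2_co, second part: the step
-/

set_option autoImplicit false

namespace Pool.Agent.Lib.MP_9b5ec2_co

open Finset

section AStepAux

variable {V ι : Type} [Fintype V] [DecidableEq V] [Fintype ι] [DecidableEq ι]

private lemma as_mono_restrict (A : ι → Finset V) (K : ℕ) (T W : Finset V) (c : Bool)
    (a k : ℕ) :
    mono A K (T ∩ above A K k) (W ∩ above A K k) c a k = mono A K T W c a k := by
  unfold mono
  have hT : T ∩ above A K k ∩ above A K k = T ∩ above A K k := by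
    rw [Finset.inter_assoc, Finset.inter_self]
  rw [hT]
  apply Finset.filter_congr
  intro e _
  apply and_congr_right
  intro _
  apply forall₂_congr
  intro x hx
  have hx' : x ∈ above A K k := (Finset.mem_inter.mp (Finset.mem_inter.mp hx).2).2
  have : decide (x ∈ W ∩ above A K k) = decide (x ∈ W) := by
    simp [hx']
  rw [this]

private lemma as_ripe_restrict (A : ι → Finset V) (K : ℕ) (T W : Finset V) (a : Bool → ℕ)
    (ρ : ℝ) (k : ℕ) (v : V) :
    ripe A K (T ∩ above A K k) (W ∩ above A K k) a ρ k v ↔ ripe A K T W a ρ k v := by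
  unfold ripe
  simp only [as_mono_restrict]

private lemma as_good_restrict (A : ι → Finset V) (K : ℕ) (s c₁ : ℝ) (T W : Finset V)
    (a : Bool → ℕ) (ρ : ℝ) (c : Bool) (u : V) :
    good A K s c₁ (T ∩ above A K (blk A K u + 2)) (W ∩ above A K (blk A K u + 2)) a ρ c u ↔
      good A K s c₁ T W a ρ c u := by
  have key : qcount A K (T ∩ above A K (blk A K u + 2)) (W ∩ above A K (blk A K u + 2)) a ρ c u =
      qcount A K T W a ρ c u := by
    unfold qcount
    rw [as_mono_restrict]
    apply Finset.sum_congr rfl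
    intro e _
    congr 1
    ext v
    simp only [Finset.mem_filter, as_ripe_restrict]
  unfold good
  rw [key, as_ripe_restrict]

private lemma as_cnt (A : ι → Finset V) (K : ℕ) (s c₁ : ℝ) (T W : Finset V)
    (a : Bool → ℕ) (ρ : ℝ) (c : Bool) (R₁ : Finset V)
    (hR : ∀ v, v ∈ R₁ ↔ good A K s c₁ T W a ρ c v) (u v : V) :
    (cnt A K (stepPrd A K s c₁ a ρ c) T W u v : ℝ) =
      if u ∈ R₁ then (((mono A K T W (!c) (a (!c)) (blk A K u + 2)).filter
        (fun e => u ∈ A e ∧ v ∈ A e)).card : ℝ) else 0 := by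
  unfold cnt stepPrd
  simp only [as_mono_restrict, as_good_restrict, ← hR]
  split_ifs with h
  · congr 2
    ext e
    simp only [h, Finset.mem_filter, Finset.mem_univ, true_and]
    tauto
  · simp [h]

private lemma as_swap (A : ι → Finset V) (F : V → Finset ι) (U : Finset V) (Q : V → V → Prop)
    [∀ u v, Decidable (Q u v)] :
    ∑ v, (∑ u ∈ U.filter (fun u => Q u v),
        (((F u).filter (fun e => u ∈ A e ∧ v ∈ A e)).card : ℝ)) =
      ∑ u ∈ U, ∑ e ∈ (F u).filter (fun e => u ∈ A e),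
        (((A e).filter (fun v => Q u v)).card : ℝ) := by
  simp only [Finset.sum_filter, Finset.card_filter]
  push_cast
  rw [Finset.sum_comm]
  apply Finset.sum_congr rfl
  intro u _
  have h1 : ∀ v, (if Q u v then ∑ e ∈ F u, (if u ∈ A e ∧ v ∈ A e then (1 : ℝ) else 0) else 0) =
      ∑ e ∈ F u, (if (u ∈ A e ∧ v ∈ A e) ∧ Q u v then (1 : ℝ) else 0) := by
    intro v
    split_ifs with h
    · simp [h]
    · simp [h]
  have h2 : ∀ e, (if u ∈ A e then ∑ v ∈ A e, (if Q u v then (1 : ℝ) else 0) else 0) =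
      ∑ v, (if (u ∈ A e ∧ v ∈ A e) ∧ Q u v then (1 : ℝ) else 0) := by
    intro e
    split_ifs with h
    · rw [← Finset.sum_filter, ← Finset.sum_filter]
      congr 1
      ext v
      simp [h]
    · simp [h]
  rw [Finset.sum_congr rfl (fun v _ => h1 v), Finset.sum_congr rfl (fun e _ => h2 e)]
  rw [Finset.sum_comm]

private lemma as_pairs (A : ι → Finset V) (s : ℝ) (hA : ∀ e, ((A e).card : ℝ) ≤ 2 * s) (v : V) :
    ∑ u, ((univ.filter (fun e => u ∈ A e ∧ v ∈ A e)).card : ℝ) ≤ 2 * s * (dg A v : ℝ) := by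
  have h1 : ∑ u, ((univ.filter (fun e => u ∈ A e ∧ v ∈ A e)).card : ℝ) =
      ∑ e ∈ univ.filter (fun e => v ∈ A e), ((A e).card : ℝ) := by
    simp only [Finset.card_filter]
    push_cast
    rw [Finset.sum_comm, Finset.sum_filter]
    apply Finset.sum_congr rfl
    intro e _
    split_ifs with h
    · rw [← Finset.sum_filter]
      simp [h]
    · simp [h]
  rw [h1]
  calc ∑ e ∈ univ.filter (fun e => v ∈ A e), ((A e).card : ℝ)
      ≤ ∑ e ∈ univ.filter (fun e => v ∈ A e), 2 * s := Finset.sum_le_sum fun e _ => hA e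
    _ = 2 * s * (dg A v : ℝ) := by
        rw [Finset.sum_const, nsmul_eq_mul]
        unfold dg deg
        ring

private lemma as_union (X Y : Finset V) (f : V → ℝ) (hf : ∀ v, 0 ≤ f v) :
    ∑ v ∈ X ∪ Y, f v ≤ ∑ v ∈ X, f v + ∑ v ∈ Y, f v := by
  rw [← Finset.sum_union_inter]
  have : 0 ≤ ∑ v ∈ X ∩ Y, f v := Finset.sum_nonneg fun v _ => hf v
  linarith

private lemma as_clo (A : ι → Finset V) (K : ℕ) (s δ : ℝ) (T : Finset V) (hδ : 0 < δ)
    (hA : ∀ e, ((A e).card : ℝ) ≤ 2 * s) (hC : Close A K s δ T) :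
    ∑ v ∈ univ.filter (fun v => δ * (dg A v : ℝ) < (cloV A K T v : ℝ)), (dg A v : ℝ) ≤
      δ * mass A := by
  have h1 : ∑ v, (cloV A K T v : ℝ) ≤ δ ^ 2 * mass A := by
    refine le_trans ?_ hC
    have : ∑ v, (cloV A K T v : ℝ) = ∑ e, ((A e).card : ℝ) * (clo A K T e : ℝ) := by
      unfold cloV
      push_cast
      simp only [Finset.sum_filter]
      rw [Finset.sum_comm]
      apply Finset.sum_congr rfl
      intro e _
      rw [← Finset.sum_filter]
      simp
    rw [this, Finset.mul_sum]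
    exact Finset.sum_le_sum fun e _ => mul_le_mul_of_nonneg_right (hA e) (Nat.cast_nonneg _)
  have h2 : δ * ∑ v ∈ univ.filter (fun v => δ * (dg A v : ℝ) < (cloV A K T v : ℝ)),
      (dg A v : ℝ) ≤ δ ^ 2 * mass A := by
    refine le_trans ?_ h1
    rw [Finset.mul_sum]
    calc ∑ v ∈ univ.filter (fun v => δ * (dg A v : ℝ) < (cloV A K T v : ℝ)), δ * (dg A v : ℝ)
        ≤ ∑ v ∈ univ.filter (fun v => δ * (dg A v : ℝ) < (cloV A K T v : ℝ)),
          (cloV A K T v : ℝ) :=
          Finset.sum_le_sum fun v hv => (Finset.mem_filter.mp hv).2.le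
      _ ≤ ∑ v, (cloV A K T v : ℝ) :=
          Finset.sum_le_sum_of_subset_of_nonneg (Finset.filter_subset _ _)
            (fun _ _ _ => Nat.cast_nonneg _)
  have h3 : δ * ∑ v ∈ univ.filter (fun v => δ * (dg A v : ℝ) < (cloV A K T v : ℝ)),
      (dg A v : ℝ) ≤ δ * (δ * mass A) := by
    calc _ ≤ δ ^ 2 * mass A := h2
      _ = δ * (δ * mass A) := by ring
  exact le_of_mul_le_mul_left h3 hδ

private lemma as_num (θ x c₁ κ δ M s w q S x' : ℝ) (hθ : 0 < θ) (hθ8 : θ ≤ 1 / 8) (hx : 0 < x)
    (hc : 0 < c₁) (hc1 : c₁ ≤ 1) (hκ : κ = x * c₁ / 96) (hδ : 0 < δ) (hM : 0 < M) (hs : 1 ≤ s)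
    (hx' : x' = θ * x * c₁ ^ 2 * κ / 1000) (hδx : δ ≤ x' / 100) (hq : q = 3 * x' + 6 * δ)
    (ha : θ / s * S ≤ δ * M + q * M + 2 * s * w) (hb : c₁ / 2 * s * w ≤ q * M)
    (hcc : κ * s * (x * (c₁ / 4 * M) - 12 * κ * M) ≤ S + 2 * s * (7 * δ * M)) : False := by
  have hκ0 : 0 < κ := by rw [hκ]; positivity
  have hs0 : 0 < s := by linarith
  have h1 : θ * (κ * x * c₁ / 8 - 14 * δ) * M ≤ θ / s * S := by
    have e1 : s * (κ * x * c₁ / 8 - 14 * δ) * M ≤ S := by
      have : κ * s * (x * (c₁ / 4 * M) - 12 * κ * M) =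
          s * (κ * x * c₁ / 8) * M := by
        have h12 : 12 * κ = x * c₁ / 8 := by rw [hκ]; ring
        have : x * (c₁ / 4 * M) - 12 * κ * M = x * c₁ / 8 * M := by rw [h12]; ring
        rw [this]; ring
      rw [this] at hcc
      nlinarith
    calc θ * (κ * x * c₁ / 8 - 14 * δ) * M = θ / s * (s * (κ * x * c₁ / 8 - 14 * δ) * M) := by
          field_simp
      _ ≤ θ / s * S := mul_le_mul_of_nonneg_left e1 (by positivity)
  have h2 : c₁ * (2 * s * w) ≤ 4 * q * M := by nlinarith
  have h3 : θ * (κ * x * c₁ / 8 - 14 * δ) * M ≤ δ * M + q * M + 2 * s * w := h1.trans ha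
  have h4 : c₁ * (θ * (κ * x * c₁ / 8 - 14 * δ) * M) ≤ c₁ * (δ * M + q * M) + 4 * q * M := by
    have := mul_le_mul_of_nonneg_left h3 hc.le
    linarith
  have hq0 : 0 < q := by
    have : 0 < x' := by rw [hx']; positivity
    rw [hq]; positivity
  have h5 : c₁ * (θ * (κ * x * c₁ / 8 - 14 * δ)) ≤ c₁ * (δ + q) + 4 * q := by
    have e : (c₁ * (θ * (κ * x * c₁ / 8 - 14 * δ))) * M ≤ (c₁ * (δ + q) + 4 * q) * M := by
      calc _ = c₁ * (θ * (κ * x * c₁ / 8 - 14 * δ) * M) := by ring
        _ ≤ _ := h4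
        _ = _ := by ring
    exact le_of_mul_le_mul_right e hM
  set y := θ * x * c₁ ^ 2 * κ with hy
  have hy0 : 0 < y := by rw [hy]; positivity
  have h6 : y / 8 - 14 * (θ * c₁) * δ ≤ δ + 5 * q := by
    have e1 : c₁ * (θ * (κ * x * c₁ / 8 - 14 * δ)) = y / 8 - 14 * (θ * c₁) * δ := by
      rw [hy]; ring
    rw [e1] at h5
    have e2 : c₁ * (δ + q) ≤ δ + q := by
      have : 0 < δ + q := by linarith
      nlinarith
    linarith
  have h7 : θ * c₁ ≤ 1 / 8 := by nlinarith
  have h8 : 14 * (θ * c₁) * δ ≤ 14 * (1 / 8) * δ := by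
    have := mul_le_mul_of_nonneg_right h7 hδ.le
    linarith
  have h9 : δ ≤ y / 100000 := by
    rw [hx'] at hδx
    linarith
  have h10 : q ≤ 3 * (y / 1000) + 6 * (y / 100000) := by
    rw [hq, hx']; linarith
  linarith

end AStepAux

theorem astep (h1 : LossStmt) (h2 : TopStmt) (h3 : GoodStmt) (h4 : FewStmt) : AStepStmt := by
  classical
  intro V ι _ _ _ _ A K s θ δ η ε x T W a hs hθ hθ8 hx hx1 hδ hδx hη hηx hε hεx hA hd hM hN
    hSp hWT hHeavy hClose hF1 hF2 hF3 hreg
  by_contra hcon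
  push Not at hcon
  have hs0 : 0 < s := by linarith
  -- constants
  set c₁ : ℝ := x ^ 4 / 1536 with hc₁
  set κ : ℝ := x ^ 5 / 147456 with hκ
  set x' : ℝ := nextX θ x with hx'
  have hκ' : κ = x * c₁ / 96 := by rw [hκ, hc₁]; ring
  have hx'' : x' = θ * x * c₁ ^ 2 * κ / 1000 := by rw [hx', nextX]
  have hc0 : 0 < c₁ := by rw [hc₁]; positivity
  have hκ0 : 0 < κ := by rw [hκ]; positivity
  have hx4 : x ^ 4 ≤ 1 := pow_le_one₀ hx.le hx1
  have hx5 : x ^ 5 ≤ 1 := pow_le_one₀ hx.le hx1
  have hc1 : c₁ ≤ 1 := by rw [hc₁]; linarith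
  have hκ1 : κ ≤ 1 := by rw [hκ]; linarith
  have hx'0 : 0 < x' := by rw [hx'']; positivity
  have hx'x : x' ≤ x / 16 := by
    have e1 : θ * c₁ ^ 2 * κ ≤ 1 := by
      have a1 : c₁ ^ 2 ≤ 1 := pow_le_one₀ hc0.le hc1
      have a2 : θ * c₁ ^ 2 ≤ 1 := by nlinarith [sq_nonneg c₁]
      have a3 : 0 ≤ θ * c₁ ^ 2 := by positivity
      nlinarith
    have e2 : x' = x * (θ * c₁ ^ 2 * κ) / 1000 := by rw [hx'']; ring
    rw [e2]
    nlinarith
  have hδ' : 100 * δ ≤ x' := by linarith
  have hdpos : ∀ v, (0 : ℝ) ≤ (dg A v : ℝ) := fun v => Nat.cast_nonneg _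
  -- atypical points
  set X1 : Bool → Finset V := fun c => univ.filter (fun v =>
    δ * (dg A v : ℝ) < |dev A K (θ / s) (stPrd A K c (a c)) T W v|) with hX1
  set X2 : Bool → Finset V := fun c => univ.filter (fun v =>
    δ * (dg A v : ℝ) < |dev A K (θ / s) (stPrd A K c (a c + 1)) T W v|) with hX2
  set X3 : Bool → Finset V := fun c => univ.filter (fun v =>
    δ * (dg A v : ℝ) < |dev A K (θ / s) (stepPrd A K s c₁ a x c) T W v|) with hX3
  set X4 : Finset V := univ.filter (fun v => δ * (dg A v : ℝ) < (cloV A K T v : ℝ)) with hX4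
  have m1 : ∀ c, ∑ v ∈ X1 c, (dg A v : ℝ) ≤ δ * mass A := by
    intro c
    rw [hX1]
    convert hF1 c W hWT
  have m2 : ∀ c, ∑ v ∈ X2 c, (dg A v : ℝ) ≤ δ * mass A := by
    intro c
    rw [hX2]
    convert hF2 c W hWT
  have m3 : ∀ c, ∑ v ∈ X3 c, (dg A v : ℝ) ≤ δ * mass A := by
    intro c
    rw [hX3]
    convert hF3 c W hWT
  have m4 : ∑ v ∈ X4, (dg A v : ℝ) ≤ δ * mass A := as_clo A K s δ T hδ hA hClose
  set Aty : Finset V := ((X1 true ∪ X1 false) ∪ (X2 true ∪ X2 false)) ∪
    ((X3 true ∪ X3 false) ∪ X4) with hAty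
  have hAtyM : ∑ v ∈ Aty, (dg A v : ℝ) ≤ 7 * δ * mass A := by
    have u1 := as_union (X1 true) (X1 false) (fun v => (dg A v : ℝ)) hdpos
    have u2 := as_union (X2 true) (X2 false) (fun v => (dg A v : ℝ)) hdpos
    have u3 := as_union (X3 true) (X3 false) (fun v => (dg A v : ℝ)) hdpos
    have u4 := as_union (X1 true ∪ X1 false) (X2 true ∪ X2 false) (fun v => (dg A v : ℝ)) hdpos
    have u5 := as_union (X3 true ∪ X3 false) X4 (fun v => (dg A v : ℝ)) hdpos
    have u6 := as_union ((X1 true ∪ X1 false) ∪ (X2 true ∪ X2 false))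
      ((X3 true ∪ X3 false) ∪ X4) (fun v => (dg A v : ℝ)) hdpos
    have := m1 true
    have := m1 false
    have := m2 true
    have := m2 false
    have := m3 true
    have := m3 false
    rw [hAty]
    linarith
  have t1 : ∀ v, v ∉ Aty → ∀ c, |dev A K (θ / s) (stPrd A K c (a c)) T W v| ≤
      δ * (dg A v : ℝ) := by
    intro v hv c
    by_contra h
    push Not at h
    apply hv
    have : v ∈ X1 c := by rw [hX1]; simp only [Finset.mem_filter, Finset.mem_univ, true_and]; exact h
    rw [hAty]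
    cases c <;> simp [this]
  have t2 : ∀ v, v ∉ Aty → ∀ c, |dev A K (θ / s) (stPrd A K c (a c + 1)) T W v| ≤
      δ * (dg A v : ℝ) := by
    intro v hv c
    by_contra h
    push Not at h
    apply hv
    have : v ∈ X2 c := by rw [hX2]; simp only [Finset.mem_filter, Finset.mem_univ, true_and]; exact h
    rw [hAty]
    cases c <;> simp [this]
  have t3 : ∀ v, v ∉ Aty → ∀ c, |dev A K (θ / s) (stepPrd A K s c₁ a x c) T W v| ≤
      δ * (dg A v : ℝ) := by
    intro v hv c
    by_contra h
    push Not at h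
    apply hv
    have : v ∈ X3 c := by rw [hX3]; simp only [Finset.mem_filter, Finset.mem_univ, true_and]; exact h
    rw [hAty]
    cases c <;> simp [this]
  have t4 : ∀ v, v ∉ Aty → (cloV A K T v : ℝ) ≤ δ * (dg A v : ℝ) := by
    intro v hv
    by_contra h
    push Not at h
    apply hv
    have : v ∈ X4 := by rw [hX4]; simp only [Finset.mem_filter, Finset.mem_univ, true_and]; exact h
    rw [hAty]
    simp [this]
  -- (B)
  have hB : ∀ v, v ∉ Aty → ∀ k, blk A K v + 2 ≤ k → ripe A K T W a (x / 4) k v → ∀ c',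
      x' * (dg A v : ℝ) ≤ (deg A (mono A K T W c' (a c') (blk A K v + 2)) v : ℝ) := by
    intro v hv k hk hr c'
    have hev : (deg A (mono A K T W c' (a c') k) v : ℝ) ≤
        ((ever A K T W c' (a c') v).card : ℝ) := by
      have : deg A (mono A K T W c' (a c') k) v ≤ (ever A K T W c' (a c') v).card := by
        unfold deg
        apply Finset.card_le_card
        intro e he
        rw [Finset.mem_filter] at he
        unfold ever
        rw [Finset.mem_filter]
        exact ⟨Finset.mem_univ _, he.2, k, hk, he.1⟩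
      exact_mod_cast this
    have hl := h1 V ι A K s θ δ T W c' (a c') v hs0 hθ hA (t1 v hv c') (t4 v hv)
    have hr' := hr c'
    have hE0 : (0 : ℝ) ≤ ((ever A K T W c' (a c') v).card : ℝ) := Nat.cast_nonneg _
    have hE : x / 4 * (dg A v : ℝ) ≤ ((ever A K T W c' (a c') v).card : ℝ) := hr'.trans hev
    have h34 : 3 / 4 * ((ever A K T W c' (a c') v).card : ℝ) ≤
        (1 - 2 * θ) * ((ever A K T W c' (a c') v).card : ℝ) :=
      mul_le_mul_of_nonneg_right (by linarith) hE0
    have hfin : (x' + 2 * δ) * (dg A v : ℝ) ≤ 3 / 16 * x * (dg A v : ℝ) :=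
      mul_le_mul_of_nonneg_right (by linarith) (hdpos v)
    linarith
  -- (E)
  have hx2 : x ^ 5 / 147456 ≤ x ^ 2 / 192 := by
    have : x ^ 5 ≤ x ^ 2 := pow_le_pow_of_le_one hx.le hx1 (by norm_num)
    have : 0 < x ^ 2 := by positivity
    linarith
  obtain ⟨c, R₁, hR₁, hmR₁⟩ := h3 V ι A K s η ε x T W a hs hx hx1 hη (hηx.trans hx2) hε
    (hεx.trans hx2) hA hN hSp hreg
  set R : Finset V := reg A K T W a x with hR
  have hRm : ∀ v, v ∈ R ↔ ripe A K T W a x (blk A K v + 2) v := by
    intro v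
    rw [hR]
    unfold reg
    simp
  have hR₁R : R₁ ⊆ R := by
    intro v hv
    rw [hRm]
    exact ((hR₁ v).mp hv).1
  set q : ℝ := 3 * x' + 6 * δ with hq
  -- (F)
  set U : Finset V := (T ∩ R₁).filter (fun u => decide (u ∈ W) = c) with hU
  set U' : Finset V := (T ∩ R₁).filter (fun u => decide (u ∈ W) = !c) with hU'
  have hFF := h4 V ι A K s θ δ x' T W U Aty c a
    (fun u v => ripe A K T W a (x / 4) (blk A K u + 2) v) hs hθ hθ8 hδ hx'0 (by linarith) hA hd
    (by
      intro u hu
      rw [hU, Finset.mem_filter, Finset.mem_inter] at hu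
      exact hu.1.1)
    (by
      intro u hu
      rw [hU, Finset.mem_filter] at hu
      exact hu.2)
    hHeavy hAtyM (fun v hv => ⟨t2 v hv c, t4 v hv⟩)
    (fun v hv u _ hP hblk _ => hB v hv (blk A K u + 2) (by omega) hP (!c))
  have hF' : ∑ v, (∑ u ∈ U.filter (fun u => ripe A K T W a (x / 4) (blk A K u + 2) v ∧
      blk A K v + 2 ≤ blk A K u), (((mono A K T W c (a c) (blk A K u + 2)).filter
        (fun e => u ∈ A e ∧ v ∈ A e)).card : ℝ)) ≤ q * mass A := by
    rcases hFF with h | h
    · exact absurd h (not_le.mpr (hcon c))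
    · exact h
  have hb : c₁ / 2 * s * ∑ u ∈ U, (dg A u : ℝ) ≤ q * mass A := by
    refine le_trans ?_ hF'
    rw [as_swap A (fun u => mono A K T W c (a c) (blk A K u + 2)) U
      (fun u v => ripe A K T W a (x / 4) (blk A K u + 2) v ∧ blk A K v + 2 ≤ blk A K u)]
    rw [Finset.mul_sum]
    apply Finset.sum_le_sum
    intro u hu
    have hu1 : u ∈ R₁ := by
      rw [hU, Finset.mem_filter, Finset.mem_inter] at hu
      exact hu.1.2
    refine ((hR₁ u).mp hu1).2.trans (le_of_eq ?_)
    unfold qcount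
    push_cast
    apply Finset.sum_congr rfl
    intro e _
    congr 2
    ext v
    simp only [Finset.mem_filter]
    tauto
  -- (G)
  have hGG := h4 V ι A K s θ δ x' T W U' Aty (!c) a
    (fun _ v => v ∈ R) hs hθ hθ8 hδ hx'0 (by linarith) hA hd
    (by
      intro u hu
      rw [hU', Finset.mem_filter, Finset.mem_inter] at hu
      exact hu.1.1)
    (by
      intro u hu
      rw [hU', Finset.mem_filter] at hu
      exact hu.2)
    hHeavy hAtyM (fun v hv => ⟨t2 v hv (!c), t4 v hv⟩)
    (by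
      intro v hv u _ hP _ _
      have h5 := (hRm v).mp hP (!(!c))
      refine le_trans ?_ h5
      exact mul_le_mul_of_nonneg_right (by linarith) (hdpos v))
  have hG' : ∑ v, (∑ u ∈ U'.filter (fun u => v ∈ R ∧
      blk A K v + 2 ≤ blk A K u), (((mono A K T W (!c) (a (!c)) (blk A K u + 2)).filter
        (fun e => u ∈ A e ∧ v ∈ A e)).card : ℝ)) ≤ q * mass A := by
    rcases hGG with h | h
    · exact absurd h (not_le.mpr (hcon (!c)))
    · exact h
  -- (H)
  set G : V → Finset ι := fun u => mono A K T W (!c) (a (!c)) (blk A K u + 2) with hG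
  set cN : V → V → ℝ := fun u v => (((G u).filter (fun e => u ∈ A e ∧ v ∈ A e)).card : ℝ)
    with hcN
  have hcN0 : ∀ u v, 0 ≤ cN u v := fun u v => Nat.cast_nonneg _
  set t : V → ℝ := fun v => ∑ u ∈ R₁.filter (fun u => blk A K v + 2 ≤ blk A K u), cN u v with ht
  have ht0 : ∀ v, 0 ≤ t v := fun v => Finset.sum_nonneg fun u _ => hcN0 u v
  have hH1 : ∀ v, v ∉ Aty → θ / s * t v ≤
      ∑ u ∈ U.filter (fun u => blk A K v + 2 ≤ blk A K u), cN u v +
      ∑ u ∈ U'.filter (fun u => blk A K v + 2 ≤ blk A K u), cN u v + δ * (dg A v : ℝ) := by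
    intro v hv
    have h5 := t3 v hv c
    have h6 : dev A K (θ / s) (stepPrd A K s c₁ a x c) T W v =
        ∑ u ∈ (T ∩ R₁).filter (fun u => blk A K v + 2 ≤ blk A K u), cN u v -
          θ / s * t v := by
      unfold dev
      rw [ht]
      simp only
      rw [Finset.mul_sum]
      have e1 : ∑ u ∈ (T ∩ R₁).filter (fun u => blk A K v + 2 ≤ blk A K u), cN u v =
          ∑ u, if (u ∈ T ∧ u ∈ R₁) ∧ blk A K v + 2 ≤ blk A K u then cN u v else 0 := by
        rw [← Finset.sum_filter]
        congr 1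
        ext u
        simp
      have e2 : ∑ u ∈ R₁.filter (fun u => blk A K v + 2 ≤ blk A K u), θ / s * cN u v =
          ∑ u, if u ∈ R₁ ∧ blk A K v + 2 ≤ blk A K u then θ / s * cN u v else 0 := by
        rw [← Finset.sum_filter]
        congr 1
        ext u
        simp
      rw [e1, e2, ← Finset.sum_sub_distrib]
      unfold above
      rw [Finset.sum_filter]
      apply Finset.sum_congr rfl
      intro u _
      rw [as_cnt A K s c₁ T W a x c R₁ hR₁ u v]
      by_cases hu1 : u ∈ R₁ <;> by_cases hu2 : u ∈ T <;> by_cases hu3 : blk A K v + 2 ≤ blk A K u <;>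
        simp [hu1, hu2, hu3, hcN, hG]
      ring
    have h7 : ∑ u ∈ (T ∩ R₁).filter (fun u => blk A K v + 2 ≤ blk A K u), cN u v =
        ∑ u ∈ U.filter (fun u => blk A K v + 2 ≤ blk A K u), cN u v +
        ∑ u ∈ U'.filter (fun u => blk A K v + 2 ≤ blk A K u), cN u v := by
      rw [← Finset.sum_union]
      · congr 1
        ext u
        rw [hU, hU']
        simp only [Finset.mem_filter, Finset.mem_union, Finset.mem_inter]
        cases c <;> by_cases hw : u ∈ W <;> simp [hw]
      · rw [Finset.disjoint_left]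
        intro u hu1 hu2
        rw [hU, Finset.mem_filter, Finset.mem_filter] at hu1
        rw [hU', Finset.mem_filter, Finset.mem_filter] at hu2
        have := hu1.1.2.symm.trans hu2.1.2
        cases c <;> simp at this
    rw [← h7]
    rw [h6] at h5
    have := (abs_le.mp h5).1
    linarith
  have hUsum : ∑ v, (∑ u ∈ U.filter (fun u => blk A K v + 2 ≤ blk A K u), cN u v) ≤
      2 * s * ∑ u ∈ U, (dg A u : ℝ) := by
    rw [as_swap A G U (fun u v => blk A K v + 2 ≤ blk A K u), Finset.mul_sum]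
    apply Finset.sum_le_sum
    intro u _
    calc ∑ e ∈ (G u).filter (fun e => u ∈ A e),
          (((A e).filter (fun v => blk A K v + 2 ≤ blk A K u)).card : ℝ)
        ≤ ∑ e ∈ (G u).filter (fun e => u ∈ A e), 2 * s := by
          apply Finset.sum_le_sum
          intro e _
          refine le_trans ?_ (hA e)
          exact_mod_cast Finset.card_le_card (Finset.filter_subset _ _)
      _ = (((G u).filter (fun e => u ∈ A e)).card : ℝ) * (2 * s) := by
          rw [Finset.sum_const, nsmul_eq_mul]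
      _ ≤ (dg A u : ℝ) * (2 * s) := by
          apply mul_le_mul_of_nonneg_right _ (by positivity)
          have : ((G u).filter (fun e => u ∈ A e)).card ≤ dg A u := by
            unfold dg deg
            exact Finset.card_le_card (Finset.filter_subset_filter _ (Finset.subset_univ _))
          exact_mod_cast this
      _ = 2 * s * (dg A u : ℝ) := by ring
  have ha : θ / s * ∑ v ∈ R \ Aty, t v ≤ δ * mass A + q * mass A +
      2 * s * ∑ u ∈ U, (dg A u : ℝ) := by
    rw [Finset.mul_sum]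
    have e1 : ∑ v ∈ R \ Aty, θ / s * t v ≤ ∑ v ∈ R \ Aty,
        (∑ u ∈ U.filter (fun u => blk A K v + 2 ≤ blk A K u), cN u v +
        ∑ u ∈ U'.filter (fun u => blk A K v + 2 ≤ blk A K u), cN u v + δ * (dg A v : ℝ)) :=
      Finset.sum_le_sum fun v hv => hH1 v (Finset.mem_sdiff.mp hv).2
    rw [Finset.sum_add_distrib, Finset.sum_add_distrib] at e1
    have e2 : ∑ v ∈ R \ Aty, ∑ u ∈ U.filter (fun u => blk A K v + 2 ≤ blk A K u), cN u v ≤
        2 * s * ∑ u ∈ U, (dg A u : ℝ) := by
      refine le_trans ?_ hUsum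
      exact Finset.sum_le_sum_of_subset_of_nonneg (Finset.subset_univ _)
        (fun v _ _ => Finset.sum_nonneg fun u _ => hcN0 u v)
    have e3 : ∑ v ∈ R \ Aty, ∑ u ∈ U'.filter (fun u => blk A K v + 2 ≤ blk A K u), cN u v ≤
        q * mass A := by
      refine le_trans ?_ hG'
      calc ∑ v ∈ R \ Aty, ∑ u ∈ U'.filter (fun u => blk A K v + 2 ≤ blk A K u), cN u v
          = ∑ v ∈ R \ Aty, ∑ u ∈ U'.filter (fun u => v ∈ R ∧ blk A K v + 2 ≤ blk A K u),
              cN u v := by
            apply Finset.sum_congr rfl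
            intro v hv
            have hvR := (Finset.mem_sdiff.mp hv).1
            simp only [hvR, true_and]
        _ ≤ ∑ v, ∑ u ∈ U'.filter (fun u => v ∈ R ∧ blk A K v + 2 ≤ blk A K u), cN u v :=
            Finset.sum_le_sum_of_subset_of_nonneg (Finset.subset_univ _)
              (fun v _ _ => Finset.sum_nonneg fun u _ => hcN0 u v)
    have e4 : ∑ v ∈ R \ Aty, δ * (dg A v : ℝ) ≤ δ * mass A := by
      rw [← Finset.mul_sum]
      apply mul_le_mul_of_nonneg_left _ hδ.le
      unfold mass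
      exact Finset.sum_le_sum_of_subset_of_nonneg (Finset.subset_univ _) (fun v _ _ => hdpos v)
    linarith
  -- lower bound
  have htv : ∀ v, t v ≤ 2 * s * (dg A v : ℝ) := by
    intro v
    refine le_trans ?_ (as_pairs A s hA v)
    rw [ht]
    simp only
    refine le_trans (Finset.sum_le_sum_of_subset_of_nonneg (Finset.subset_univ _)
      (fun u _ _ => hcN0 u v)) ?_
    apply Finset.sum_le_sum
    intro u _
    rw [hcN]
    simp only
    exact_mod_cast Finset.card_le_card (Finset.filter_subset_filter _ (Finset.subset_univ _))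
  have hsplit : ∑ v ∈ R, t v ≤ ∑ v ∈ R \ Aty, t v + 2 * s * (7 * δ * mass A) := by
    have e1 : ∑ v ∈ R, t v ≤ ∑ v ∈ (R \ Aty) ∪ Aty, t v :=
      Finset.sum_le_sum_of_subset_of_nonneg (by
        intro v hv
        rw [Finset.mem_union, Finset.mem_sdiff]
        by_cases h : v ∈ Aty
        · exact Or.inr h
        · exact Or.inl ⟨hv, h⟩) (fun v _ _ => ht0 v)
    have e2 := as_union (R \ Aty) Aty t ht0
    have e3 : ∑ v ∈ Aty, t v ≤ 2 * s * (7 * δ * mass A) := by
      calc ∑ v ∈ Aty, t v ≤ ∑ v ∈ Aty, 2 * s * (dg A v : ℝ) :=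
            Finset.sum_le_sum fun v _ => htv v
        _ = 2 * s * ∑ v ∈ Aty, (dg A v : ℝ) := by rw [Finset.mul_sum]
        _ ≤ _ := mul_le_mul_of_nonneg_left hAtyM (by positivity)
    linarith
  have hRt : ∑ v ∈ R, t v = ∑ u ∈ R₁, ∑ e ∈ (G u).filter (fun e => u ∈ A e),
      (((A e).filter (fun v => v ∈ R ∧ blk A K v + 2 ≤ blk A K u)).card : ℝ) := by
    rw [← as_swap A G R₁ (fun u v => v ∈ R ∧ blk A K v + 2 ≤ blk A K u)]
    rw [← Finset.sum_subset (Finset.subset_univ R)]
    · apply Finset.sum_congr rfl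
      intro v hv
      rw [ht]
      simp only [hv, true_and]
      rfl
    · intro v _ hv
      simp [hv]
  obtain ⟨Bad, hBad, hBad2⟩ := hSp
  -- number of incidences with few points below
  have hfew : ∑ u ∈ R₁, ((((G u).filter (fun e => u ∈ A e)).filter (fun e =>
      (((A e).filter (fun v => v ∈ R ∧ blk A K v + 2 ≤ blk A K u)).card : ℝ) < κ * s)).card : ℝ) ≤
      12 * κ * mass A := by
    have e1 : ∑ u ∈ R₁, ((((G u).filter (fun e => u ∈ A e)).filter (fun e =>
        (((A e).filter (fun v => v ∈ R ∧ blk A K v + 2 ≤ blk A K u)).card : ℝ) < κ * s)).card : ℝ) ≤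
        ∑ e, (((A e ∩ R).filter (fun u =>
          (((A e ∩ R).filter (fun v => blk A K v + 2 ≤ blk A K u)).card : ℝ) < κ * s)).card : ℝ) := by
      have f1 : ∀ e u, (A e).filter (fun v => v ∈ R ∧ blk A K v + 2 ≤ blk A K u) =
          (A e ∩ R).filter (fun v => blk A K v + 2 ≤ blk A K u) := by
        intro e u
        ext v
        simp only [Finset.mem_filter, Finset.mem_inter]
        tauto
      simp only [f1]
      have f2 : ∀ u, ((((G u).filter (fun e => u ∈ A e)).filter (fun e =>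
          (((A e ∩ R).filter (fun v => blk A K v + 2 ≤ blk A K u)).card : ℝ) < κ * s)).card : ℝ) ≤
          ∑ e, if u ∈ A e ∧
          (((A e ∩ R).filter (fun v => blk A K v + 2 ≤ blk A K u)).card : ℝ) < κ * s then
            (1 : ℝ) else 0 := by
        intro u
        rw [← Finset.sum_filter]
        rw [Finset.sum_const, nsmul_eq_mul, mul_one]
        have : (((G u).filter (fun e => u ∈ A e)).filter (fun e =>
            (((A e ∩ R).filter (fun v => blk A K v + 2 ≤ blk A K u)).card : ℝ) < κ * s)) ⊆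
            univ.filter (fun e => u ∈ A e ∧
            (((A e ∩ R).filter (fun v => blk A K v + 2 ≤ blk A K u)).card : ℝ) < κ * s) := by
          intro e he
          rw [Finset.mem_filter, Finset.mem_filter] at he
          rw [Finset.mem_filter]
          exact ⟨Finset.mem_univ _, he.1.2, he.2⟩
        exact_mod_cast Finset.card_le_card this
      refine (Finset.sum_le_sum fun u _ => f2 u).trans ?_
      rw [Finset.sum_comm]
      apply Finset.sum_le_sum
      intro e _
      rw [← Finset.sum_filter, Finset.sum_const, nsmul_eq_mul, mul_one]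
      have : R₁.filter (fun u => u ∈ A e ∧
            (((A e ∩ R).filter (fun v => blk A K v + 2 ≤ blk A K u)).card : ℝ) < κ * s) ⊆
          (A e ∩ R).filter (fun u =>
            (((A e ∩ R).filter (fun v => blk A K v + 2 ≤ blk A K u)).card : ℝ) < κ * s) := by
        intro u hu
        rw [Finset.mem_filter] at hu
        rw [Finset.mem_filter, Finset.mem_inter]
        exact ⟨⟨hu.2.1, hR₁R hu.1⟩, hu.2.2⟩
      exact_mod_cast Finset.card_le_card this
    refine e1.trans ?_
    have e2 : ∀ e, (((A e ∩ R).filter (fun u =>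
          (((A e ∩ R).filter (fun v => blk A K v + 2 ≤ blk A K u)).card : ℝ) < κ * s)).card : ℝ) ≤
          (κ * s + η * s) + if e ∈ Bad then 2 * s else 0 := by
      intro e
      split_ifs with he
      · have f3 : (((A e ∩ R).filter (fun u =>
          (((A e ∩ R).filter (fun v => blk A K v + 2 ≤ blk A K u)).card : ℝ) < κ * s)).card : ℝ) ≤
            2 * s := by
          refine le_trans ?_ (hA e)
          exact_mod_cast Finset.card_le_card ((Finset.filter_subset _ _).trans
            Finset.inter_subset_left)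
        have f4 : 0 ≤ κ * s + η * s := by positivity
        linarith
      · rw [add_zero]
        refine (h2 V (A e ∩ R) (blk A K) (κ * s) (η * s) (by positivity) ?_).2
        intro i
        refine le_trans ?_ (hBad2 e he i)
        exact_mod_cast Finset.card_le_card (Finset.filter_subset_filter _
          Finset.inter_subset_left)
    refine (Finset.sum_le_sum fun e _ => e2 e).trans ?_
    rw [Finset.sum_add_distrib, Finset.sum_const, nsmul_eq_mul]
    have e3 : ∑ e, (if e ∈ Bad then 2 * s else 0) = (Bad.card : ℝ) * (2 * s) := by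
      rw [← Finset.sum_filter, Finset.sum_const, nsmul_eq_mul]
      congr 2
      congr 1
      ext e
      simp
    rw [e3, Finset.card_univ]
    have e4 : (Bad.card : ℝ) * (2 * s) ≤ ε * (Fintype.card ι : ℝ) * (2 * s) :=
      mul_le_mul_of_nonneg_right hBad (by positivity)
    have e5 : ((Fintype.card ι : ℝ) * s) * (κ + η + 2 * ε) ≤ 4 * mass A * (κ + η + 2 * ε) :=
      mul_le_mul_of_nonneg_right hN (by positivity)
    have e6 : 4 * mass A * (κ + η + 2 * ε) ≤ 4 * mass A * (3 * κ) :=
      mul_le_mul_of_nonneg_left (by linarith) (by positivity)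
    calc (Fintype.card ι : ℝ) * (κ * s + η * s) + (Bad.card : ℝ) * (2 * s)
        ≤ (Fintype.card ι : ℝ) * (κ * s + η * s) + ε * (Fintype.card ι : ℝ) * (2 * s) := by
          linarith
      _ = ((Fintype.card ι : ℝ) * s) * (κ + η + 2 * ε) := by ring
      _ ≤ 4 * mass A * (3 * κ) := e5.trans e6
      _ = 12 * κ * mass A := by ring
  have hinc : x * (c₁ / 4 * mass A) ≤ ∑ u ∈ R₁, (((G u).filter (fun e => u ∈ A e)).card : ℝ) := by
    calc x * (c₁ / 4 * mass A) ≤ x * ∑ v ∈ R₁, (dg A v : ℝ) :=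
          mul_le_mul_of_nonneg_left hmR₁ hx.le
      _ = ∑ v ∈ R₁, x * (dg A v : ℝ) := by rw [Finset.mul_sum]
      _ ≤ ∑ u ∈ R₁, (((G u).filter (fun e => u ∈ A e)).card : ℝ) := by
          apply Finset.sum_le_sum
          intro u hu
          exact (hRm u).mp (hR₁R hu) (!c)
  have hlow : κ * s * (x * (c₁ / 4 * mass A) - 12 * κ * mass A) ≤ ∑ v ∈ R, t v := by
    rw [hRt]
    have e1 : ∀ u, κ * s * ((((G u).filter (fun e => u ∈ A e)).card : ℝ) -
        ((((G u).filter (fun e => u ∈ A e)).filter (fun e =>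
          (((A e).filter (fun v => v ∈ R ∧ blk A K v + 2 ≤ blk A K u)).card : ℝ) <
            κ * s)).card : ℝ)) ≤
        ∑ e ∈ (G u).filter (fun e => u ∈ A e),
          (((A e).filter (fun v => v ∈ R ∧ blk A K v + 2 ≤ blk A K u)).card : ℝ) := by
      intro u
      have f1 : (((G u).filter (fun e => u ∈ A e)).card : ℝ) -
        ((((G u).filter (fun e => u ∈ A e)).filter (fun e =>
          (((A e).filter (fun v => v ∈ R ∧ blk A K v + 2 ≤ blk A K u)).card : ℝ) <
            κ * s)).card : ℝ) = ∑ e ∈ (G u).filter (fun e => u ∈ A e),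
              (1 - if (((A e).filter (fun v => v ∈ R ∧ blk A K v + 2 ≤ blk A K u)).card : ℝ) <
            κ * s then (1 : ℝ) else 0) := by
        rw [Finset.sum_sub_distrib, ← Finset.sum_filter]
        simp
      rw [f1, Finset.mul_sum]
      apply Finset.sum_le_sum
      intro e _
      split_ifs with h
      · simp
      · push Not at h
        simpa using h
    calc κ * s * (x * (c₁ / 4 * mass A) - 12 * κ * mass A)
        ≤ κ * s * (∑ u ∈ R₁, (((G u).filter (fun e => u ∈ A e)).card : ℝ) -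
          ∑ u ∈ R₁, ((((G u).filter (fun e => u ∈ A e)).filter (fun e =>
          (((A e).filter (fun v => v ∈ R ∧ blk A K v + 2 ≤ blk A K u)).card : ℝ) <
            κ * s)).card : ℝ)) :=
          mul_le_mul_of_nonneg_left (by linarith) (by positivity)
      _ = ∑ u ∈ R₁, κ * s * ((((G u).filter (fun e => u ∈ A e)).card : ℝ) -
        ((((G u).filter (fun e => u ∈ A e)).filter (fun e =>
          (((A e).filter (fun v => v ∈ R ∧ blk A K v + 2 ≤ blk A K u)).card : ℝ) <
            κ * s)).card : ℝ)) := by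
          rw [← Finset.sum_sub_distrib, Finset.mul_sum]
      _ ≤ _ := Finset.sum_le_sum fun u _ => e1 u
  exact as_num θ x c₁ κ δ (mass A) s (∑ u ∈ U, (dg A u : ℝ)) q (∑ v ∈ R \ Aty, t v) x' hθ hθ8 hx
    hc0 hc1 hκ' hδ hM hs hx'' hδx hq ha hb (hlow.trans hsplit)

end Pool.Agent.Lib.MP_9b5ec2_co
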