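import Pool.Agent.Lib.MP_9b5ec2_co.Defs2

/-!
# Polychromatic colourings of almost disjoint families (module P24)
-/

set_option autoImplicit false

namespace Pool.Agent.Lib.MP_9b5ec2_co

open Finset

theorem ad_twoCol_mono {V ι : Type} [DecidableEq V] {m m' : ℕ} (hm : m ≤ m') {A : ι → Finset V}
    (h : TwoCol m A) : TwoCol m' A := by
  intro S
  obtain ⟨R, hR⟩ := h S
  exact ⟨R, fun i hi => hR i (hm.trans hi)⟩

theorem ad_twoCol_sub {V ι ι' : Type} [DecidableEq V] {m : ℕ} {A : ι → Finset V}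
    (h : TwoCol m A) (U : Finset V) (g : ι' → ι) (hg : ∀ i, A (g i) ⊆ U) :
    TwoCol m (fun i => (A (g i)).subtype (fun v => v ∈ U)) := by
  intro S'
  obtain ⟨R, hR⟩ := h (S'.map (Function.Embedding.subtype _))
  refine ⟨R.subtype (fun v => v ∈ U), fun i hi => ?_⟩
  have e1 : ((A (g i)).subtype (fun v => v ∈ U) ∩ S').map (Function.Embedding.subtype _) =
      A (g i) ∩ S'.map (Function.Embedding.subtype _) := by
    ext v
    simp only [mem_map, mem_inter, mem_subtype, Function.Embedding.coe_subtype]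
    constructor
    · rintro ⟨x, ⟨h1, h2⟩, rfl⟩
      exact ⟨h1, x, h2, rfl⟩
    · rintro ⟨h1, x, h2, rfl⟩
      exact ⟨x, ⟨h1, h2⟩, rfl⟩
  have e2 : m ≤ (A (g i) ∩ S'.map (Function.Embedding.subtype _)).card := by
    rw [← e1, card_map]
    exact hi
  obtain ⟨⟨x, hx⟩, ⟨y, hy⟩⟩ := hR (g i) e2
  constructor
  · simp only [mem_inter, mem_map, Function.Embedding.coe_subtype] at hx
    obtain ⟨⟨h1, z, h2, rfl⟩, h3⟩ := hx
    exact ⟨z, by simp [h1, h2, h3]⟩
  · simp only [mem_sdiff, mem_inter, mem_map, Function.Embedding.coe_subtype] at hy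
    obtain ⟨⟨h1, z, h2, rfl⟩, h3⟩ := hy
    exact ⟨z, by simp [h1, h2, h3]⟩

theorem ad_card_sub {V : Type} [DecidableEq V] (U B : Finset V) (hB : B ⊆ U) :
    (B.subtype (fun v => v ∈ U)).card = B.card := by
  rw [card_subtype, filter_true_of_mem hB]

theorem ad_inter_sub {V : Type} [DecidableEq V] (U B C : Finset V) (hB : B ⊆ U) :
    (B.subtype (fun v => v ∈ U) ∩ C.subtype (fun v => v ∈ U)).card = (B ∩ C).card := by
  have : B.subtype (fun v => v ∈ U) ∩ C.subtype (fun v => v ∈ U) =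
      (B ∩ C).subtype (fun v => v ∈ U) := by
    ext v
    simp
  rw [this, ad_card_sub U _ (inter_subset_left.trans hB)]

/-- Hall's condition. -/
theorem ad_hall {V ι : Type} [DecidableEq V] [DecidableEq ι] (A : ι → Finset V)
    (q k C : ℕ) (col : ι → Fin q) (Λ γ : ℝ) (hq : 1 ≤ q) (hk : 1 ≤ k) (hC1 : 1 ≤ C)
    (hCΛ : 2 * Λ ≤ C) (hΛ : 0 < Λ)
    (hsize : ∀ e, C * q * k ≤ (A e).card)
    (hdis : ∀ e f, e ≠ f → col e = col f →
        ((A e ∩ A f).card : ℝ) ≤ γ / 2 * min ((A e).card : ℝ) ((A f).card : ℝ)) (hγ : 0 < γ)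
    (hGT : ∀ (U : Finset V) (F : Finset ι) (s : ℝ), (C * q * k : ℕ) ≤ s → (∀ e ∈ F, A e ⊆ U) →
      (∀ e ∈ F, s ≤ ((A e).card : ℝ) ∧ ((A e).card : ℝ) ≤ 2 * s) →
      (∀ e ∈ F, ∀ f ∈ F, e ≠ f → ((A e ∩ A f).card : ℝ) ≤ γ * s) →
      (F.card : ℝ) * s ≤ Λ * (U.card : ℝ)) (E : Finset ι) :
    k * E.card ≤ (E.biUnion A).card := by
  set U := E.biUnion A with hU
  set N := C * q * k with hN
  have hN1 : 1 ≤ N := Nat.mul_pos (Nat.mul_pos hC1 hq) hk
  let jf : ι → ℕ := fun e => Nat.log 2 ((A e).card / N)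
  have hj : ∀ e, 2 ^ jf e * N ≤ (A e).card ∧ (A e).card < 2 ^ (jf e + 1) * N := by
    intro e
    have h1 : (A e).card / N ≠ 0 := by
      have := Nat.div_pos (hsize e) hN1
      omega
    have h2 := Nat.pow_log_le_self 2 h1
    have h3 := Nat.lt_pow_succ_log_self (b := 2) (by norm_num) ((A e).card / N)
    constructor
    · exact (Nat.mul_le_mul_right N h2).trans (Nat.div_mul_le_self _ _)
    · rw [Nat.div_lt_iff_lt_mul hN1] at h3
      exact h3
  set J := E.sup jf + 1 with hJ
  have hfib : E.card = ∑ x ∈ range J ×ˢ (univ : Finset (Fin q)),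
      (E.filter (fun e => (jf e, col e) = x)).card := by
    apply card_eq_sum_card_fiberwise
    intro e he
    simp only [coe_product, Set.mem_prod, mem_coe, mem_range, mem_univ, and_true]
    have := le_sup (f := jf) he
    omega
  have hterm : ∀ x ∈ range J ×ˢ (univ : Finset (Fin q)),
      ((E.filter (fun e => (jf e, col e) = x)).card : ℝ) ≤
        Λ * U.card / (C * q * k) * (1 / 2) ^ x.1 := by
    rintro ⟨j, b⟩ _
    have hs : ((N : ℕ) : ℝ) ≤ 2 ^ j * (N : ℝ) := by
      have h1 : (1 : ℝ) ≤ 2 ^ j := one_le_pow₀ (by norm_num)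
      have h2 : (0 : ℝ) ≤ N := by positivity
      nlinarith
    have h1 := hGT U (E.filter (fun e => (jf e, col e) = (j, b))) (2 ^ j * N) hs
      (fun e he => subset_biUnion_of_mem A (mem_filter.1 he).1)
      (fun e he => by
        have h2 := (mem_filter.1 he).2
        rw [Prod.mk.injEq] at h2
        obtain ⟨h3, h4⟩ := hj e
        rw [h2.1] at h3 h4
        constructor
        · exact_mod_cast h3
        · have h5 : (A e).card ≤ 2 * (2 ^ j * N) := by
            rw [pow_succ] at h4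
            nlinarith
          exact_mod_cast h5)
      (fun e he f hf hef => by
        have h2 := (mem_filter.1 he).2
        have h2' := (mem_filter.1 hf).2
        rw [Prod.mk.injEq] at h2 h2'
        refine (hdis e f hef (h2.2.trans h2'.2.symm)).trans ?_
        obtain ⟨h3, h4⟩ := hj e
        rw [h2.1] at h3 h4
        have h5 : ((A e).card : ℝ) ≤ 2 * (2 ^ j * N) := by
          have : (A e).card ≤ 2 * (2 ^ j * N) := by
            rw [pow_succ] at h4
            nlinarith
          exact_mod_cast this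
        calc γ / 2 * min ((A e).card : ℝ) ((A f).card : ℝ) ≤ γ / 2 * (2 * (2 ^ j * N)) :=
              mul_le_mul_of_nonneg_left ((min_le_left _ _).trans h5) (by positivity)
          _ = γ * (2 ^ j * N) := by ring)
    have hN0 : (0 : ℝ) < N := by exact_mod_cast hN1
    have hNe : (N : ℝ) = C * q * k := by rw [hN]; push_cast; ring
    rw [← hNe, one_div, inv_pow, ← div_eq_mul_inv, div_div, le_div_iff₀ (by positivity)]
    calc _ = ((E.filter (fun e => (jf e, col e) = (j, b))).card : ℝ) * (2 ^ j * N) := by ring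
      _ ≤ _ := h1
  have hsum : (E.card : ℝ) ≤ Λ * U.card / (C * q * k) * (q * 2) := by
    rw [hfib]
    push_cast
    refine (sum_le_sum hterm).trans ?_
    rw [sum_product]
    simp only [sum_const, card_univ, Fintype.card_fin, nsmul_eq_mul]
    rw [← mul_sum, ← mul_sum]
    have h1 := sum_geometric_two_le J
    have h2 : 0 ≤ Λ * U.card / (C * q * k : ℝ) := by positivity
    calc (q : ℝ) * (Λ * U.card / (C * q * k) * ∑ i ∈ range J, (1 / 2) ^ i)
        = Λ * U.card / (C * q * k) * (q * ∑ i ∈ range J, (1 / 2 : ℝ) ^ i) := by ring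
      _ ≤ Λ * U.card / (C * q * k) * (q * 2) :=
          mul_le_mul_of_nonneg_left (mul_le_mul_of_nonneg_left h1 (by positivity)) h2
  have hC0 : (0 : ℝ) < C := by exact_mod_cast hC1
  have hq0 : (0 : ℝ) < q := by exact_mod_cast hq
  have hk0 : (0 : ℝ) < k := by exact_mod_cast hk
  have hU0 : (0 : ℝ) ≤ U.card := by positivity
  have hfin : (k : ℝ) * E.card ≤ U.card := by
    calc (k : ℝ) * E.card ≤ k * (Λ * U.card / (C * q * k) * (q * 2)) :=
          mul_le_mul_of_nonneg_left hsum hk0.le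
      _ = (2 * Λ) * U.card / C := by field_simp
      _ ≤ C * U.card / C := by gcongr
      _ = U.card := by field_simp
  exact_mod_cast hfin

theorem ad (h : GTStmt) : AdStmt := by
  intro m
  obtain ⟨Λ, γ, s₀, hΛ, hγ, hs₀, hGT⟩ := h (max m 1) (le_max_right _ _)
  refine ⟨⌈s₀⌉₊ + ⌈2 * Λ⌉₊ + 1, γ / 2, by omega, by positivity, ?_⟩
  intro V ι _ _ _ _ A q k col hT hk hsize hdis
  set C := ⌈s₀⌉₊ + ⌈2 * Λ⌉₊ + 1 with hC
  have hCs : s₀ ≤ C := by
    have h1 := Nat.le_ceil s₀
    have h2 : (⌈s₀⌉₊ : ℝ) ≤ C := by exact_mod_cast (by omega : ⌈s₀⌉₊ ≤ C)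
    linarith
  have hCΛ : 2 * Λ ≤ C := by
    have h1 := Nat.le_ceil (2 * Λ)
    have h2 : (⌈2 * Λ⌉₊ : ℝ) ≤ C := by exact_mod_cast (by omega : ⌈2 * Λ⌉₊ ≤ C)
    linarith
  rcases isEmpty_or_nonempty ι with hι | ⟨⟨e₀⟩⟩
  · exact ⟨fun _ => ⟨0, hk⟩, fun e => (hι.false e).elim⟩
  have hq : 1 ≤ q := by
    have := (col e₀).isLt
    omega
  have hN : (C : ℝ) ≤ ((C * q * k : ℕ) : ℝ) := by
    have : C ≤ C * q * k := by
      calc C = C * 1 * 1 := by ring
        _ ≤ C * q * k := Nat.mul_le_mul (Nat.mul_le_mul_left _ hq) hk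
    exact_mod_cast this
  have hHall := ad_hall A q k C col Λ γ hq hk (by omega) hCΛ hΛ hsize hdis hγ (by
    intro U F s hs hFU hFs hFd
    have h1 := hGT (↥U) (↥F) (fun e => (A e.1).subtype (fun v => v ∈ U)) s
      (ad_twoCol_mono (le_max_left _ _) (ad_twoCol_sub hT U (fun e : ↥F => e.1)
        (fun e => hFU e.1 e.2)))
      (by linarith)
      (fun e => by
        rw [ad_card_sub U _ (hFU e.1 e.2)]
        exact hFs e.1 e.2)
      (fun e f hef => by
        rw [ad_inter_sub U _ _ (hFU e.1 e.2)]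
        exact hFd e.1 e.2 f.1 f.2 (fun h => hef (Subtype.ext h)))
    simpa using h1)
  obtain ⟨f, hf, hfm⟩ := (all_card_le_biUnion_card_iff_exists_injective
    (fun x : ι × Fin k => A x.1)).1 (by
      intro S
      have h1 : S.card ≤ (S.image Prod.fst).card * k := by
        have h2 : S ⊆ (S.image Prod.fst) ×ˢ (univ : Finset (Fin k)) := by
          intro x hx
          simp only [mem_product, mem_univ, and_true]
          exact mem_image_of_mem _ hx
        have h3 := card_le_card h2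
        rwa [card_product, card_univ, Fintype.card_fin] at h3
      have h2 : S.biUnion (fun x : ι × Fin k => A x.1) = (S.image Prod.fst).biUnion A := by
        rw [image_biUnion]
      rw [h2]
      have h3 := hHall (S.image Prod.fst)
      rw [mul_comm] at h3
      exact h1.trans h3)
  classical
  refine ⟨fun v => if h : ∃ x : ι × Fin k, f x = v then h.choose.2 else ⟨0, hk⟩, ?_⟩
  intro e i
  refine ⟨f (e, i), hfm (e, i), ?_⟩
  have hex : ∃ x : ι × Fin k, f x = f (e, i) := ⟨_, rfl⟩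
  change (if h : ∃ x : ι × Fin k, f x = f (e, i) then h.choose.2 else ⟨0, hk⟩) = i
  rw [dif_pos hex]
  have := hf hex.choose_spec
  rw [this]

end Pool.Agent.Lib.MP_9b5ec2_co
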