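import Pool.Agent.Lib.MP_9b5ec2_co.Defs2

/-!
# The packing theorem (`GTStmt`)
-/

set_option autoImplicit false

namespace Pool.Agent.Lib.MP_9b5ec2_co

open Finset

section restr

variable {V ι : Type} [Fintype V] [DecidableEq V] [Fintype ι] [DecidableEq ι]

/-- restriction of the edges to the points of `X` -/
def gtRestr (A : ι → Finset V) (X : Finset V) : ι → Finset {x // x ∈ X} :=
  fun e => (A e).subtype (fun x => x ∈ X)

theorem gtRestr_mem (A : ι → Finset V) (X : Finset V) (e : ι) (v : {x // x ∈ X}) :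
    v ∈ gtRestr A X e ↔ v.1 ∈ A e := Finset.mem_subtype

theorem gtRestr_card_le (A : ι → Finset V) (X : Finset V) (e : ι) :
    (gtRestr A X e).card ≤ (A e).card := by
  apply Finset.card_le_card_of_injOn Subtype.val
  · intro v hv
    exact (gtRestr_mem A X e v).1 hv
  · exact fun a _ b _ h => Subtype.ext h

theorem gtRestr_inter_le (A : ι → Finset V) (X : Finset V) (e f : ι) :
    (gtRestr A X e ∩ gtRestr A X f).card ≤ (A e ∩ A f).card := by
  apply Finset.card_le_card_of_injOn Subtype.val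
  · intro v hv
    have hv' := Finset.mem_inter.1 (Finset.mem_coe.1 hv)
    exact Finset.mem_coe.2 (Finset.mem_inter.2
      ⟨(gtRestr_mem A X e v).1 hv'.1, (gtRestr_mem A X f v).1 hv'.2⟩)
  · exact fun a _ b _ h => Subtype.ext h

theorem gtRestr_dg (A : ι → Finset V) (X : Finset V) (v : {x // x ∈ X}) :
    dg (gtRestr A X) v = dg A v.1 := by
  unfold dg deg
  congr 1
  ext e
  simp only [Finset.mem_filter, Finset.mem_univ, true_and]
  exact gtRestr_mem A X e v

theorem gtRestr_blk (A : ι → Finset V) (X : Finset V) (K : ℕ) (v : {x // x ∈ X}) :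
    blk (gtRestr A X) K v = blk A K v.1 := by
  unfold blk
  rw [gtRestr_dg]

theorem gtRestr_sum (A : ι → Finset V) (X : Finset V) (P : V → Prop) [DecidablePred P] :
    ∑ v ∈ (univ : Finset {x // x ∈ X}).filter (fun v => P v.1), (dg (gtRestr A X) v : ℝ) =
      ∑ v ∈ X.filter P, (dg A v : ℝ) := by
  rw [Finset.sum_filter, Finset.sum_filter,
    ← Finset.sum_coe_sort X (fun v => if P v then (dg A v : ℝ) else 0)]
  apply Finset.sum_congr rfl
  intro v _
  rw [gtRestr_dg]

theorem gtRestr_mass (A : ι → Finset V) (X : Finset V) :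
    mass (gtRestr A X) = ∑ v ∈ X, (dg A v : ℝ) := by
  unfold mass
  rw [← Finset.sum_coe_sort X (fun v => (dg A v : ℝ))]
  apply Finset.sum_congr rfl
  intro v _
  rw [gtRestr_dg]

theorem gtRestr_twoCol {m : ℕ} {A : ι → Finset V} (X : Finset V) (h : TwoCol m A) :
    TwoCol m (gtRestr A X) := by
  intro S
  obtain ⟨R, hR⟩ := h (S.map (Function.Embedding.subtype _))
  refine ⟨R.subtype (fun x => x ∈ X), ?_⟩
  intro i hi
  have hcard : (gtRestr A X i ∩ S).card ≤
      (A i ∩ S.map (Function.Embedding.subtype _)).card := by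
    apply Finset.card_le_card_of_injOn Subtype.val
    · intro v hv
      have hv' := Finset.mem_inter.1 (Finset.mem_coe.1 hv)
      exact Finset.mem_coe.2 (Finset.mem_inter.2
        ⟨(gtRestr_mem A X i v).1 hv'.1, Finset.mem_map.2 ⟨v, hv'.2, rfl⟩⟩)
    · exact fun a _ b _ h => Subtype.ext h
  obtain ⟨⟨x, hx⟩, ⟨y, hy⟩⟩ := hR i (hi.trans hcard)
  constructor
  · rw [Finset.mem_inter, Finset.mem_inter, Finset.mem_map] at hx
    obtain ⟨⟨hxA, v, hvS, rfl⟩, hxR⟩ := hx
    refine ⟨v, ?_⟩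
    rw [Finset.mem_inter, Finset.mem_inter]
    exact ⟨⟨(gtRestr_mem A X i v).2 hxA, hvS⟩, Finset.mem_subtype.2 hxR⟩
  · rw [Finset.mem_sdiff, Finset.mem_inter, Finset.mem_map] at hy
    obtain ⟨⟨hxA, v, hvS, rfl⟩, hxR⟩ := hy
    refine ⟨v, ?_⟩
    rw [Finset.mem_sdiff, Finset.mem_inter]
    exact ⟨⟨(gtRestr_mem A X i v).2 hxA, hvS⟩, fun h => hxR (Finset.mem_subtype.1 h)⟩

theorem gtRestr_above_card (A : ι → Finset V) (X : Finset V) (K k : ℕ) :
    (above (gtRestr A X) K k).card = (X ∩ above A K k).card := by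
  apply Finset.card_bij (fun (v : {x // x ∈ X}) _ => v.1)
  · intro v hv
    unfold above at hv ⊢
    rw [Finset.mem_filter, gtRestr_blk] at hv
    exact Finset.mem_inter.2 ⟨v.2, Finset.mem_filter.2 ⟨Finset.mem_univ _, hv.2⟩⟩
  · exact fun a _ b _ h => Subtype.ext h
  · intro v hv
    unfold above at hv ⊢
    rw [Finset.mem_inter, Finset.mem_filter] at hv
    refine ⟨⟨v, hv.1⟩, ?_, rfl⟩
    rw [Finset.mem_filter, gtRestr_blk]
    exact ⟨Finset.mem_univ _, hv.2.2⟩

theorem gtRestr_image (A : ι → Finset V) (X : Finset V) (K : ℕ) :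
    (univ : Finset {x // x ∈ X}).image (blk (gtRestr A X) K) = X.image (blk A K) := by
  ext i
  rw [Finset.mem_image, Finset.mem_image]
  constructor
  · rintro ⟨v, -, rfl⟩
    exact ⟨v.1, v.2, (gtRestr_blk A X K v).symm⟩
  · rintro ⟨v, hv, rfl⟩
    exact ⟨⟨v, hv⟩, Finset.mem_univ _, gtRestr_blk A X K ⟨v, hv⟩⟩

theorem gtRestr_blockSum (A : ι → Finset V) (X : Finset V) (K : ℕ) (s θ δ₁ : ℝ) :
    blockSum (gtRestr A X) K s θ δ₁ =
      ∑ i ∈ X.image (blk A K), Real.exp (θ / s * ((X ∩ above A K (i + 2)).card : ℝ) -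
        θ * δ₁ ^ 2 * (∑ v ∈ X.filter (fun v => blk A K v = i), (dg A v : ℝ)) /
          (16 * s * (K : ℝ) ^ (i + 1))) := by
  unfold blockSum
  rw [gtRestr_image]
  apply Finset.sum_congr rfl
  intro i _
  rw [gtRestr_above_card]
  have h1 : ∑ v ∈ (univ : Finset {x // x ∈ X}).filter (fun v => blk (gtRestr A X) K v = i),
      (dg (gtRestr A X) v : ℝ) = ∑ v ∈ X.filter (fun v => blk A K v = i), (dg A v : ℝ) := by
    rw [← gtRestr_sum A X (fun v => blk A K v = i)]
    apply Finset.sum_congr _ (fun _ _ => rfl)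
    ext v
    rw [Finset.mem_filter, Finset.mem_filter, gtRestr_blk]
  rw [h1]

end restr

theorem gt (h1 : SpreadStmt) (h2 : PrepStmt) (h3 : WindowStmt) : GTStmt := by
  intro m hm
  obtain ⟨θ, δ₁, η, ε, ΛS, γS, ξ, hθ0, hθ1, hδ0, hδ1, hη, hε, hε1, hΛS, hγS, hγS1, hξ, hS⟩ :=
    h1 m hm
  obtain ⟨K, hK2, hK⟩ := h2 θ δ₁ ξ hθ0 hδ0 hδ1 hξ
  obtain ⟨ΛW, γW, sW, hΛW, hγW, hsW, hW⟩ := h3 m η ε K hm hη hε hK2
  obtain ⟨ΛP, γP, hΛP, hγP, hP⟩ := hK K le_rfl (max ΛS ΛW) (le_max_of_le_left hΛS)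
  refine ⟨ΛP, min γS (min γW γP), sW, hΛP, lt_min hγS (lt_min hγW hγP),
    lt_of_lt_of_le one_pos hsW, ?_⟩
  intro V ι _ _ _ _ A s hTC hs hsize hint
  by_contra hcon
  push Not at hcon
  have hs1 : 1 ≤ s := hsW.trans hs
  have hs0 : 0 < s := by linarith
  have hNs : 0 < (Fintype.card ι : ℝ) * s := lt_of_le_of_lt (by positivity) hcon
  have hN : 0 < Fintype.card ι := by
    rcases Nat.eq_zero_or_pos (Fintype.card ι) with h | h
    · rw [h] at hNs
      simp at hNs
    · exact h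
  have hn : 0 < Fintype.card V := by
    obtain ⟨e⟩ := Fintype.card_pos_iff.1 hN
    have h4 := (hsize e).1
    have h5 : 0 < (A e).card := by
      rcases Nat.eq_zero_or_pos (A e).card with h | h
      · rw [h] at h4
        push_cast at h4
        linarith
      · exact h
    obtain ⟨v, -⟩ := Finset.card_pos.1 h5
    exact Fintype.card_pos_iff.2 ⟨v⟩
  have hintP : ∀ e f, e ≠ f → ((A e ∩ A f).card : ℝ) ≤ γP * s := fun e f hef =>
    (hint e f hef).trans (mul_le_mul_of_nonneg_right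
      ((min_le_right _ _).trans (min_le_right _ _)) hs0.le)
  obtain ⟨X, hX1, hX2, hX3⟩ := hP V ι A s hs1 hn hsize hintP hcon.le
  have hmass : mass (gtRestr A X) = ∑ v ∈ X, (dg A v : ℝ) := gtRestr_mass A X
  have hmass0 : 0 < mass (gtRestr A X) := by
    rw [hmass]
    linarith
  have hXne : X.Nonempty := by
    rw [Finset.nonempty_iff_ne_empty]
    rintro rfl
    rw [hmass, Finset.sum_empty] at hmass0
    exact lt_irrefl _ hmass0
  have hcardV : 0 < Fintype.card {x // x ∈ X} := by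
    obtain ⟨v, hv⟩ := hXne
    exact Fintype.card_pos_iff.2 ⟨⟨v, hv⟩⟩
  have hTC' : TwoCol m (gtRestr A X) := gtRestr_twoCol X hTC
  have hsize' : ∀ e, (((gtRestr A X) e).card : ℝ) ≤ 2 * s := fun e =>
    le_trans (by exact_mod_cast gtRestr_card_le A X e) (hsize e).2
  have hint' : ∀ γ : ℝ, min γS (min γW γP) ≤ γ → ∀ e f, e ≠ f →
      ((gtRestr A X e ∩ gtRestr A X f).card : ℝ) ≤ γ * s := by
    intro γ hγ e f hef
    refine le_trans (by exact_mod_cast gtRestr_inter_le A X e f) ((hint e f hef).trans ?_)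
    exact mul_le_mul_of_nonneg_right hγ hs0.le
  have hdg : ∀ v, max ΛS ΛW ≤ (dg (gtRestr A X) v : ℝ) := by
    intro v
    rw [gtRestr_dg]
    exact hX1 v.1 v.2
  have hspread : Spread (gtRestr A X) K s η ε :=
    hW {x // x ∈ X} ι (gtRestr A X) s hTC' hs hsize'
      (hint' γW ((min_le_right _ _).trans (min_le_left _ _)))
      (fun v => (le_max_right _ _).trans (hdg v))
  refine hS {x // x ∈ X} ι (gtRestr A X) K s hK2 hs1 hTC' hcardV hsize'
    (hint' γS (min_le_left _ _)) (fun v => (le_max_left _ _).trans (hdg v)) ?_ hspread ?_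
  · rw [← hmass] at hX2
    linarith
  · rw [gtRestr_blockSum]
    exact hX3

end Pool.Agent.Lib.MP_9b5ec2_co
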