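import Pool.Agent.Lib.MP_9b5ec2_co.Defs

/-!
# MP_9b5ec2_co: the weighted form by blowing up points
-/

set_option autoImplicit false

namespace Pool.Agent.Lib.MP_9b5ec2_co

open Finset

section Blow

variable {V ι : Type} [Fintype V] [DecidableEq V] (k : V → ℕ)

/-- The edges of the blow-up. -/
def wtBlow (A : ι → Finset V) (e : ι) : Finset (Σ v : V, Fin (k v)) :=
  (A e).sigma fun _ => univ

omit [Fintype V] [DecidableEq V] in
lemma mem_wtBlow (A : ι → Finset V) (e : ι) (x : Σ v : V, Fin (k v)) :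
    x ∈ wtBlow k A e ↔ x.1 ∈ A e := by
  simp [wtBlow]

omit [Fintype V] [DecidableEq V] in
lemma card_wtBlow (A : ι → Finset V) (e : ι) : (wtBlow k A e).card = ∑ v ∈ A e, k v := by
  simp [wtBlow]

/-- The copies of `v` in `S`. -/
def wtFib (S : Finset (Σ v : V, Fin (k v))) (v : V) : Finset (Σ v : V, Fin (k v)) :=
  S.filter fun x => x.1 = v

omit [Fintype V] in
lemma mem_wtFib (S : Finset (Σ v : V, Fin (k v))) (v : V) (x : Σ v : V, Fin (k v)) :
    x ∈ wtFib k S v ↔ x ∈ S ∧ x.1 = v := by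
  simp [wtFib]

lemma wtBlow_twoCol {m : ℕ} {A : ι → Finset V} (hA : TwoCol m A) : TwoCol m (wtBlow k A) := by
  classical
  intro S
  obtain ⟨R₁, hR₁⟩ := hA (univ.filter fun v => (wtFib k S v).card = 1)
  have hc : ∀ v, ∃ x : Option (Σ v : V, Fin (k v)), (wtFib k S v).Nonempty →
      ∃ y ∈ wtFib k S v, x = some y := by
    intro v
    by_cases h : (wtFib k S v).Nonempty
    · obtain ⟨y, hy⟩ := h
      exact ⟨some y, fun _ => ⟨y, hy, rfl⟩⟩
    · exact ⟨none, fun h' => absurd h' h⟩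
  choose c hc using hc
  refine ⟨univ.filter fun x => ((wtFib k S x.1).card = 1 ∧ x.1 ∈ R₁) ∨
    (2 ≤ (wtFib k S x.1).card ∧ c x.1 = some x), ?_⟩
  intro e he
  by_cases hcase : ∃ v ∈ A e, 2 ≤ (wtFib k S v).card
  · obtain ⟨v, hv, h2⟩ := hcase
    have hne : (wtFib k S v).Nonempty := card_pos.1 (by omega)
    obtain ⟨y, hy, hcy⟩ := hc v hne
    have hy' := (mem_wtFib k S v y).1 hy
    constructor
    · refine ⟨y, ?_⟩
      simp only [mem_inter, mem_filter, mem_univ, true_and, mem_wtBlow]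
      rw [hy'.2]
      exact ⟨⟨hv, hy'.1⟩, Or.inr ⟨h2, hcy⟩⟩
    · obtain ⟨z, hz, hzy⟩ := Finset.exists_mem_ne (by omega : 1 < (wtFib k S v).card) y
      have hz' := (mem_wtFib k S v z).1 hz
      refine ⟨z, ?_⟩
      simp only [mem_inter, mem_sdiff, mem_filter, mem_univ, true_and, mem_wtBlow]
      rw [hz'.2]
      refine ⟨⟨hv, hz'.1⟩, ?_⟩
      rintro (⟨h1, _⟩ | ⟨_, h1⟩)
      · omega
      · rw [hcy] at h1
        exact hzy (Option.some_injective _ h1).symm
  · push Not at hcase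
    have hle : ∀ v ∈ A e, (wtFib k S v).card ≤ 1 := fun v hv => by
      have := hcase v hv
      omega
    have hcard : (wtBlow k A e ∩ S).card ≤
        (A e ∩ univ.filter fun v => (wtFib k S v).card = 1).card := by
      apply Finset.card_le_card_of_injOn Sigma.fst
      · intro x hx
        have hx' := mem_inter.1 (Finset.mem_coe.1 hx)
        have h1 := (mem_wtBlow k A e x).1 hx'.1
        have h2 : x ∈ wtFib k S x.1 := (mem_wtFib k S _ x).2 ⟨hx'.2, rfl⟩
        have h3 : 0 < (wtFib k S x.1).card := card_pos.2 ⟨x, h2⟩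
        have h4 := hle _ h1
        simp only [Finset.coe_inter, Set.mem_inter_iff, Finset.mem_coe, mem_filter, mem_univ,
          true_and]
        exact ⟨h1, by omega⟩
      · intro x hx y hy hxy
        have hx' := mem_inter.1 (Finset.mem_coe.1 hx)
        have hy' := mem_inter.1 (Finset.mem_coe.1 hy)
        have h1 := (mem_wtBlow k A e x).1 hx'.1
        have h2 : x ∈ wtFib k S x.1 := (mem_wtFib k S _ x).2 ⟨hx'.2, rfl⟩
        have h3 : y ∈ wtFib k S x.1 := (mem_wtFib k S _ y).2 ⟨hy'.2, hxy.symm⟩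
        exact Finset.card_le_one.1 (hle _ h1) x h2 y h3
    obtain ⟨hred, hblue⟩ := hR₁ e (he.trans hcard)
    constructor
    · obtain ⟨v, hv⟩ := hred
      simp only [mem_inter, mem_filter, mem_univ, true_and] at hv
      obtain ⟨x, hx⟩ := card_pos.1 (by omega : 0 < (wtFib k S v).card)
      have hx' := (mem_wtFib k S v x).1 hx
      refine ⟨x, ?_⟩
      simp only [mem_inter, mem_filter, mem_univ, true_and, mem_wtBlow]
      rw [hx'.2]
      exact ⟨⟨hv.1.1, hx'.1⟩, Or.inl ⟨hv.1.2, hv.2⟩⟩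
    · obtain ⟨v, hv⟩ := hblue
      simp only [mem_inter, mem_sdiff, mem_filter, mem_univ, true_and] at hv
      obtain ⟨x, hx⟩ := card_pos.1 (by omega : 0 < (wtFib k S v).card)
      have hx' := (mem_wtFib k S v x).1 hx
      refine ⟨x, ?_⟩
      simp only [mem_inter, mem_sdiff, mem_filter, mem_univ, true_and, mem_wtBlow]
      rw [hx'.2]
      refine ⟨⟨hv.1.1, hx'.1⟩, ?_⟩
      rintro (⟨_, h1⟩ | ⟨h1, _⟩)
      · exact hv.2 h1
      · omega

end Blow

/-- The weighted form. -/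
theorem weight (h : CountStmt) : WeightStmt := by
  intro m
  obtain ⟨C₁, hC₁, hcount⟩ := h m
  refine ⟨2 * C₁, by positivity, ?_⟩
  intro V ι _ _ A hA w hw hS t ht
  classical
  set S : ℝ := ∑ v, w v with hSdef
  obtain ⟨q₀, hq₀⟩ := exists_nat_ge ((Fintype.card V : ℝ) / S)
  set q : ℝ := (q₀ : ℝ) + 1 with hq
  have hqpos : 0 < q := by positivity
  have hqS : (Fintype.card V : ℝ) ≤ q * S := by
    rw [div_le_iff₀ hS] at hq₀
    nlinarith
  set k : V → ℕ := fun v => ⌈q * w v⌉₊ with hk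
  have hkle : ∀ v, (k v : ℝ) ≤ q * w v + 1 := fun v =>
    (Nat.ceil_lt_add_one (mul_nonneg hqpos.le (hw v))).le
  have hkge : ∀ v, q * w v ≤ (k v : ℝ) := fun v => Nat.le_ceil _
  obtain ⟨T', hT', hT'hit⟩ := hcount (Σ v : V, Fin (k v)) ι (wtBlow k A) (wtBlow_twoCol k hA)
    (q * t) (by positivity)
  have hcardV : (Fintype.card (Σ v : V, Fin (k v)) : ℝ) ≤ 2 * (q * S) := by
    rw [Fintype.card_sigma]
    push_cast
    simp only [Fintype.card_fin]
    calc ∑ v, (k v : ℝ) ≤ ∑ v, (q * w v + 1) := Finset.sum_le_sum fun v _ => hkle v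
      _ = q * S + Fintype.card V := by
        rw [Finset.sum_add_distrib, ← Finset.mul_sum, Finset.sum_const, Finset.card_univ,
          nsmul_eq_mul, mul_one]
      _ ≤ 2 * (q * S) := by linarith
  refine ⟨T'.image Sigma.fst, ?_, ?_⟩
  · have h1 : ((T'.image Sigma.fst).card : ℝ) ≤ (T'.card : ℝ) := by
      exact_mod_cast Finset.card_image_le
    have h2 : (T'.card : ℝ) * (q * t) ≤ C₁ * (2 * (q * S)) :=
      hT'.trans (mul_le_mul_of_nonneg_left hcardV hC₁.le)
    have h3 : q * ((T'.card : ℝ) * t) ≤ q * (2 * C₁ * S) := by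
      calc q * ((T'.card : ℝ) * t) = (T'.card : ℝ) * (q * t) := by ring
        _ ≤ C₁ * (2 * (q * S)) := h2
        _ = q * (2 * C₁ * S) := by ring
    have h4 : (T'.card : ℝ) * t ≤ 2 * C₁ * S := le_of_mul_le_mul_left h3 hqpos
    exact (mul_le_mul_of_nonneg_right h1 ht.le).trans h4
  · intro e he
    have h1 : q * t ≤ ((wtBlow k A e).card : ℝ) := by
      rw [card_wtBlow]
      push_cast
      calc q * t ≤ q * ∑ v ∈ A e, w v := mul_le_mul_of_nonneg_left he hqpos.le
        _ = ∑ v ∈ A e, q * w v := Finset.mul_sum _ _ _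
        _ ≤ ∑ v ∈ A e, (k v : ℝ) := Finset.sum_le_sum fun v _ => hkge v
    obtain ⟨x, hx⟩ := hT'hit e h1
    rw [mem_inter] at hx
    refine ⟨x.1, mem_inter.2 ⟨(mem_wtBlow k A e x).1 hx.1, mem_image.2 ⟨x, hx.2, rfl⟩⟩⟩

end Pool.Agent.Lib.MP_9b5ec2_co
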