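import Mathlib
import Pool.Agent.Lib.MP_9b5ec2_co.Defs2
import Pool.Agent.Lib.MP_9b5ec2_co.GT
import Pool.Agent.Lib.MP_9b5ec2_co.Weight

/-!
# Fractional polychromatic colourings for the class `TwoCol m` (MP_9b5ec2_co)

Main statement `FracStmt`: for every `m` there is `C` such that for every hypergraph with
2-colourable traces (`TwoCol m`), all weights `w ≥ 0` on the points and every `t > 0` there is a
probability distribution on the sets `T` that meet all edges of weight `≥ t`, with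
`t · Pr[v ∈ T] ≤ C w(v)` for all points `v`.

Every module proves one `...Stmt`, possibly from other `...Stmt`s given as hypotheses. The complete
proof of each statement is in its docstring.
Notation: `d(v) = dg A v` (number of edges through `v`), `M = mass A = Σ_v d(v) = Σ_e |A e|`,
`N = card ι`, `n = card V`; sums `Σ_{i ∋ v}` are over the indices `i` with `v ∈ A i`.
-/

set_option autoImplicit false

namespace Pool.Agent.Lib.MP_9b5ec2_co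

open Finset

/-- AVERAGED ALMOST DISJOINTNESS: for every point `v` the intersections of the ordered pairs
`(e, f)` of edges through `v` (with `e = f` allowed) have the average size at most `γ s`:
`Σ_u codeg(u, v)² = Σ_{e, f ∋ v} |A e ∩ A f| ≤ γ s d(v)²`. -/
def CD {V ι : Type} [Fintype V] [DecidableEq V] [Fintype ι] [DecidableEq ι] (A : ι → Finset V)
    (s γ : ℝ) : Prop :=
  ∀ v, ∑ u, (codeg A u v : ℝ) ^ 2 ≤ γ * s * (dg A v : ℝ) ^ 2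

/-- the total weight `y` of the edges through `v` -/
def fdeg {V ι : Type} [DecidableEq V] [Fintype ι] (A : ι → Finset V) (y : ι → ℝ) (v : V) : ℝ :=
  ∑ i ∈ univ.filter (fun i => v ∈ A i), y i

/-- `y` is a fractional packing of the edges with the capacities `c`. -/
def Packs {V ι : Type} [DecidableEq V] [Fintype ι] (A : ι → Finset V) (c : V → ℝ)
    (y : ι → ℝ) : Prop :=
  (∀ i, 0 ≤ y i) ∧ ∀ v, fdeg A y v ≤ c v

/-- EXPECTATION OF THE HEAVY PART, averaged version (see `HeavyExStmt`). -/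
def HeavyEx2Stmt : Prop :=
  ∀ (V ι : Type) [Fintype V] [DecidableEq V] [Fintype ι] [DecidableEq ι] (A : ι → Finset V)
    (s θ γ : ℝ), 1 ≤ s → 0 < θ → θ ≤ 1 → 0 ≤ γ → (∀ e, ((A e).card : ℝ) ≤ 2 * s) →
    CD A s γ → (∀ v, 1 ≤ dg A v) →
    Ex (θ / s) univ (fun T => ∑ v ∈ univ.filter (fun v => 4 * θ * (dg A v : ℝ) <
      (hit A T v : ℝ)), (hit A T v : ℝ)) ≤ γ * mass A

/-- EXPECTATION OF `rtot`, averaged version (see `RtotExStmt`). -/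
def RtotEx2Stmt : Prop :=
  ∀ (V ι : Type) [Fintype V] [DecidableEq V] [Fintype ι] [DecidableEq ι] (A : ι → Finset V)
    (K I : ℕ) (s θ γ η ε : ℝ), 1 ≤ s → 0 < θ → θ ≤ 1 → 0 ≤ γ → 0 ≤ η → 0 ≤ ε →
    (∀ e, ((A e).card : ℝ) ≤ 2 * s) → CD A s γ → (∀ v, 1 ≤ dg A v) →
    (Fintype.card ι : ℝ) * s ≤ 4 * mass A → Spread A K s η ε →
    Ex (θ / s) univ (fun T => rtot A K I (θ / s) T) ≤ (64 * (η + 2 * ε) + γ) * mass A

/-- TYPICAL SETS, averaged version (see `TypStmt`). -/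
def Typ2Stmt : Prop :=
  ∀ (V ι J : Type) [Fintype V] [DecidableEq V] [Fintype ι] [DecidableEq ι] [Fintype J]
    (A : ι → Finset V) (K : ℕ) (s θ γ η ε δ δ₁ : ℝ) (Φ : J → Prd V ι),
    2 ≤ K → 1 ≤ s → 0 < θ → θ ≤ 1 → 0 ≤ γ → 0 ≤ η → 0 ≤ ε → 0 < δ → δ ≤ 1 →
    0 < δ₁ → δ₁ ≤ δ ^ 3 / 4 → 0 < Fintype.card V →
    (∀ e, ((A e).card : ℝ) ≤ 2 * s) → CD A s γ →
    (∀ v, 1 ≤ dg A v) → (Fintype.card ι : ℝ) * s ≤ 4 * mass A → Spread A K s η ε →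
    γ + 64 * (η + 2 * ε) ≤ δ ^ 3 / 16 →
    2 * (Fintype.card J : ℝ) * blockSum A K s θ δ₁ ≤ 1 / 4 →
    ∃ T : Finset V, Heavy A θ δ T ∧ Close A K s δ T ∧
      ∀ j, Fair A K (θ / s) δ T (Φ j) ∧ Glob A K (θ / s) δ T (Φ j)

/-- SPREAD families, averaged version (see `SpreadStmt`). -/
def Spread2Stmt : Prop :=
  ∀ m : ℕ, 1 ≤ m → ∃ θ δ₁ η ε γ ξ : ℝ, 0 < θ ∧ θ ≤ 1 ∧ 0 < δ₁ ∧ δ₁ ≤ 1 ∧ 0 < η ∧ 0 < ε ∧
    ε ≤ 1 ∧ 0 < γ ∧ γ ≤ 1 ∧ 0 < ξ ∧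
    ∀ (V ι : Type) [Fintype V] [DecidableEq V] [Fintype ι] [DecidableEq ι] (A : ι → Finset V)
      (K : ℕ) (s : ℝ), 2 ≤ K → 1 ≤ s → TwoCol m A → 0 < Fintype.card V →
      (∀ e, ((A e).card : ℝ) ≤ 2 * s) → CD A s γ →
      (∀ v, 1 ≤ dg A v) → (Fintype.card ι : ℝ) * s ≤ 4 * mass A → Spread A K s η ε →
      blockSum A K s θ δ₁ ≤ ξ → False

/-- CONSEQUENCES of averaged almost disjointness.

PROOF. (2) For every `v`: `Σ_u codeg(u,v)² = Σ_{e ∋ v} Σ_{f ∋ v} |A e ∩ A f|` (`codeg_sq_sum` of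
`Codeg.lean` with `S = univ`). Sum over `v ∈ W`:
`Σ_{e,f} |A e ∩ A f ∩ W| |A e ∩ A f| = Σ_{v ∈ W} Σ_u codeg(u,v)² ≤ γ s Σ_{v ∈ W} d(v)²`, and
`|A e ∩ A f ∩ W| ≤ |A e ∩ A f|`.
(1) `B = Σ_v d(v)² = Σ_{e,f} |A e ∩ A f|` (`prep_sum_sq` of `Prep.lean`); by Cauchy-Schwarz
(`sq_sum_le_card_mul_sum_sq` for the `N²` pairs) and (2) with `W = univ`:
`B² ≤ N² Σ_{e,f} |A e ∩ A f|² ≤ N² γ s B`; so `B ≤ γ s N²` (clear if `B = 0`). -/
def CDFactsStmt : Prop :=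
  ∀ (V ι : Type) [Fintype V] [DecidableEq V] [Fintype ι] [DecidableEq ι] (A : ι → Finset V)
    (s γ : ℝ), 0 ≤ s → 0 ≤ γ → CD A s γ →
    ∑ v, (dg A v : ℝ) ^ 2 ≤ γ * s * (Fintype.card ι : ℝ) ^ 2 ∧
    ∀ W : Finset V, ∑ e, ∑ f, ((A e ∩ A f ∩ W).card : ℝ) ^ 2 ≤
      γ * s * ∑ v ∈ W, (dg A v : ℝ) ^ 2

/-- PREPARATION, averaged version: removing points of very large degree and bad blocks
(see `PrepStmt`, module `Prep.lean`, whose proof can be edited).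

PROOF (from `BlocksStmt`, `CDFactsStmt`). Put `τ₀ = max 0 (log (2/ξ))`, `K₀ ≥ 2`,
`K₀ ≥ 1024/δ₁²`. Given `K ≥ K₀` let `ε₂ = min 1 (θ δ₁²/(256 K (2 τ₀ + 4)))`, `γ = ε₂/16`. Write
`N = card ι`, `d = dg A`. `N s / 2 ≤ M = Σ_v d(v) = Σ_e |A e| ≤ 2 N s`.
(1) `V₂ = {d > ε₂ N}`: `Σ_{V₂} d ≤ Σ_v d(v)²/(ε₂ N) ≤ γ s N²/(ε₂ N) = N s/16` (`CDFactsStmt`).
(2) Apply `BlocksStmt` to `Y = {d ≤ ε₂ N}`, `Dm = ε₂ N`, `τ = τ₀`, `b = blk A K` (the degrees are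
`≥ 1`, so `K^(blk v) ≤ d(v)`): the lost mass is at most
`(16/δ₁²)((2/K) 2 N s + (s/θ) K ε₂ N (2 τ₀ + 4)) ≤ N s/16 + N s/16`. So `X` has mass
`≥ N s/2 - 3 N s/16 ≥ N s/4`, and the sum is at most `2 exp (- τ₀) ≤ ξ`. -/
def Prep2Stmt : Prop :=
  ∀ θ δ₁ ξ : ℝ, 0 < θ → 0 < δ₁ → δ₁ ≤ 1 → 0 < ξ → ∃ K₀ : ℕ, 2 ≤ K₀ ∧ ∀ K : ℕ, K₀ ≤ K →
    ∃ γ : ℝ, 0 < γ ∧
      ∀ (V ι : Type) [Fintype V] [DecidableEq V] [Fintype ι] [DecidableEq ι]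
        (A : ι → Finset V) (s : ℝ), 1 ≤ s → 0 < Fintype.card ι →
        (∀ e, ((A e).card : ℝ) ≤ 2 * s) → (Fintype.card ι : ℝ) * s ≤ 2 * mass A →
        CD A s γ → (∀ v, 1 ≤ dg A v) →
        ∃ X : Finset V,
          (Fintype.card ι : ℝ) * s ≤ 4 * ∑ v ∈ X, (dg A v : ℝ) ∧
          ∑ i ∈ X.image (blk A K), Real.exp (θ / s * ((X ∩ above A K (i + 2)).card : ℝ) -
            θ * δ₁ ^ 2 * (∑ v ∈ X.filter (fun v => blk A K v = i), (dg A v : ℝ)) /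
              (16 * s * (K : ℝ) ^ (i + 1))) ≤ ξ

/-- RANDOM SUBFAMILIES without conflicts. `C` is a set of ordered pairs of edges (conflicts).

PROOF (from `WMomStmt`, for the ground set `ι`). Let `F₀` be a random subset of `univ : Finset ι`
with density `q` (`Ex q univ`), `F₁ = F₀ ∩ E`, `conf = #{c ∈ C : c.1 ∈ F₀, c.2 ∈ F₀}` and
`heavy(F) = Σ_{v ∈ W, deg_F(v) > 2μ} deg_F(v)`, `deg_F(v) = deg A F v`. Then `E |F₁| = q |E|`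
(`Ex_mem`), `E conf = q² |C|` (`Ex_pair`), and `E heavy(F₁) ≤ 2 |W|`: for every `v ∈ W` apply
`WMomStmt` (1) with `U = {e ∈ E : v ∈ A e}` and `w = 1`, `p = q`: `q |U| ≤ μ`, so the expectation of
`deg_{F₁}(v) 1(deg_{F₁}(v) > 2μ)` is at most `2 q |U|/μ ≤ 2`. So
`E (|F₁| - conf - b heavy(F₁)) ≥ q |E| - q² |C| - 2 b |W|` and some `F₀` reaches this value. Let `F`
be `F₁` without all `e` for which there is `f ∈ F₁` with `(e, f) ∈ C`: `|F| ≥ |F₁| - conf`, and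
`heavy(F) ≤ heavy(F₁)` since `F ⊆ F₁`. -/
def SampleStmt : Prop :=
  ∀ (V ι : Type) [Fintype V] [DecidableEq V] [Fintype ι] [DecidableEq ι] (A : ι → Finset V)
    (W : Finset V) (E : Finset ι) (C : Finset (ι × ι)) (q μ b : ℝ), 0 ≤ q → q ≤ 1 → 0 < μ →
    0 ≤ b → (∀ v ∈ W, q * (deg A E v : ℝ) ≤ μ) →
    (∀ c ∈ C, c.1 ∈ E ∧ c.2 ∈ E ∧ c.1 ≠ c.2) →
    ∃ F ⊆ E, (∀ e ∈ F, ∀ f ∈ F, (e, f) ∉ C) ∧
      q * (E.card : ℝ) - q ^ 2 * (C.card : ℝ) - 2 * b * (W.card : ℝ) +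
        b * ∑ v ∈ W.filter (fun v => 2 * μ < (deg A F v : ℝ)), (deg A F v : ℝ) ≤ (F.card : ℝ)

/-- APPLICATION OF LEMMA B to a set `W` of points and a set `F` of edges (compare `win_core` in
`Window.lean`).

PROOF (from `LemmaBStmt` with the same `D, c₀`, which gives `Λ, γ, s₀`). Take the subtypes
`V' = ↥W`, `ι' = ↥F`, `A' e = (A e).subtype (· ∈ W)` and `lam = |F| s/|W|`. `TwoCol` is inherited
(`count_twoCol_sub`), `|A' e| = |A e ∩ W| ≤ 2 s`, `|A' e ∩ A' f| = |A e ∩ A f ∩ W| ≤ γ s`,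
`deg A' univ v = deg A F v`. The points with `deg > D lam` carry at most `c₀ |F| s` and all points
together carry `Σ_{e ∈ F} |A e ∩ W| ≥ 2 c₀ s |F|`, so the points with `deg ≤ D lam` carry at least
`c₀ |F| s = c₀ lam |W|`. Contradiction to `LemmaBStmt`. -/
def WinCore2Stmt : Prop :=
  ∀ (m : ℕ) (D c₀ : ℝ), 1 ≤ m → 0 < D → 0 < c₀ →
    ∃ Λ γ s₀ : ℝ, 1 ≤ Λ ∧ 0 < γ ∧ γ ≤ 1 ∧ 0 < s₀ ∧
      ∀ (V ι : Type) [Fintype V] [DecidableEq V] [Fintype ι] [DecidableEq ι]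
        (A : ι → Finset V) (s : ℝ) (W : Finset V) (F : Finset ι), TwoCol m A → s₀ ≤ s →
        W.Nonempty → (∀ e ∈ F, ((A e).card : ℝ) ≤ 2 * s) →
        (∀ e ∈ F, ∀ f ∈ F, e ≠ f → ((A e ∩ A f ∩ W).card : ℝ) ≤ γ * s) →
        Λ * (W.card : ℝ) ≤ (F.card : ℝ) * s →
        (∀ e ∈ F, 2 * c₀ * s ≤ ((A e ∩ W).card : ℝ)) →
        ∑ v ∈ W.filter (fun v => D * ((F.card : ℝ) * s) < (deg A F v : ℝ) * (W.card : ℝ)),
          (deg A F v : ℝ) ≤ c₀ * ((F.card : ℝ) * s) → False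

/-- NO CONCENTRATION in two consecutive blocks, averaged version (compare `Window.lean`).

PROOF (from `WinCore2Stmt` with `D = 11 K²/ε`, `c₀ = η/2`, which gives `Λ_B, γ_B, s_B`; and from
`SampleStmt`, `CDFactsStmt`). Let `Λ' = max (6 Λ_B/ε) (max (128/(ε η)) 1)`, `Λ₁ = K² Λ'`,
`γ = ε γ_B²/(32 Λ' K²)`, `s₀ = max 1 s_B`. As in the proof of `WindowStmt` (`Window.lean`,
`window`): let `Bad` be the set of edges with more than `η s` points in some window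
`W_i = winW A K i` (points in the blocks `i, i+1`); suppose `|Bad| > ε N`. Choose such an `i(e)` for
each `e ∈ Bad`, then some `i` has, with `E = {e ∈ Bad : i(e) = i}` and `W = W_i`,
`ε Σ_{v ∈ W} d(v) < 4 s |E|` (mass of all windows `≤ 2 M ≤ 4 N s`). `K^i ≤ d(v) ≤ K^{i+2}` on `W`,
`W` is nonempty. So (a) `ε K^i |W| ≤ 4 s |E|`, and `K^{i+2} ≥ Λ₁` gives `K^i ≥ Λ'`.
Let `q = Λ'/K^i ≤ 1`, `μ = Λ' K²`, so `q deg A E v ≤ q d(v) ≤ μ` on `W`.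
CONFLICTS: `C` = ordered pairs `(e, f)` in `E × E`, `e ≠ f`, with `γ_B s < |A e ∩ A f ∩ W|`. By
`CDFactsStmt` (2): `γ_B² s² |C| ≤ γ s Σ_W d² ≤ γ s K^{i+2} Σ_W d ≤ γ s K^{i+2} 4 s |E|/ε`, so
`q² |C| ≤ q |E| · Λ' · 4 γ K²/(ε γ_B²) = q |E|/8`.
Let `b = ε Λ'/(64 s)`: by (a) `2 b |W| ≤ (ε Λ'/(32 s)) 4 s |E|/(ε K^i) = q |E|/8`.
`SampleStmt` gives `F ⊆ E` without conflicts, `(3/4) q |E| + b heavy(F) ≤ |F|`. Hence
`|F| s ≥ (3/4) Λ' |E| s/K^i ≥ (3/16) Λ' ε |W|` (by (a)) `≥ Λ_B |W|`, and the points `v ∈ W` with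
`D |F| s < deg_F(v) |W|` have `deg_F(v) > D (3/16) Λ' ε = (33/16) K² Λ' > 2 μ`; their sum of degrees
is at most `heavy(F) ≤ |F|/b = 64 s |F|/(ε Λ') ≤ (η/2) s |F|`. The members of `F` have at least
`η s = 2 c₀ s` points in `W`. `WinCore2Stmt` gives a contradiction. -/
def Window2Stmt : Prop :=
  ∀ (m : ℕ) (η ε : ℝ) (K : ℕ), 1 ≤ m → 0 < η → 0 < ε → 2 ≤ K → ∃ Λ₁ γ s₀ : ℝ, 1 ≤ Λ₁ ∧ 0 < γ ∧
    1 ≤ s₀ ∧ ∀ (V ι : Type) [Fintype V] [DecidableEq V] [Fintype ι] [DecidableEq ι]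
      (A : ι → Finset V) (s : ℝ), TwoCol m A → s₀ ≤ s → (∀ e, ((A e).card : ℝ) ≤ 2 * s) →
      CD A s γ → (∀ v, Λ₁ ≤ (dg A v : ℝ)) →
      Spread A K s η ε

/-- THE AVERAGED PACKING THEOREM.

PROOF (from `Spread2Stmt`, `Prep2Stmt`, `Window2Stmt`; compare `gt` in `GT.lean` and the lemmas
`gtRestr_...` there). Take `θ, δ₁, η, ε, γ_S, ξ` from `Spread2Stmt`, `K = K₀` and `γ_P` from
`Prep2Stmt`; `Window2Stmt` gives `Λ_W, γ_W, s_W`. Let `Λ = Λ_W`, `γ = min γ_S (min γ_P γ_W)`,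
`s₀ = s_W`. Let `X` be as in `Prep2Stmt`; it is nonempty as `N s > 0`. Pass to `A' = gtRestr A X`:
degrees and blocks of the points of `X` are the same, `TwoCol m A'`, `|A' e| ≤ 2 s`,
`N s ≤ 4 mass A'`, `blockSum A' ≤ ξ`; `codeg A' u v = codeg A u v`, so the sum over `u ∈ X` is at
most the sum over all `u` and `CD A' s γ`; `CD` is monotone in `γ`. `Window2Stmt` gives
`Spread A' K s η ε`, contradiction to `Spread2Stmt`. -/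
def WGTStmt : Prop :=
  ∀ m : ℕ, 1 ≤ m → ∃ Λ γ s₀ : ℝ, 1 ≤ Λ ∧ 0 < γ ∧ 1 ≤ s₀ ∧
    ∀ (V ι : Type) [Fintype V] [DecidableEq V] [Fintype ι] [DecidableEq ι] (A : ι → Finset V)
      (s : ℝ), TwoCol m A → s₀ ≤ s → 0 < Fintype.card ι → (∀ e, ((A e).card : ℝ) ≤ 2 * s) →
      (Fintype.card ι : ℝ) * s ≤ 2 * mass A → CD A s γ → (∀ v, Λ ≤ (dg A v : ℝ)) → False

/-- RANDOM HALF OF A RANDOM SET.

PROOF. Both sides are sums over the pairs `R ⊆ Q ⊆ X` (`S = Q \ R`) of `f R Q` with the weights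
`(2p)^|Q| (1-2p)^(|X|-|Q|) (1/2)^|R| (1/2)^(|Q|-|R|) = p^|Q| (1-2p)^(|X|-|Q|)` and
`p^|R| (1-p)^(|X|-|R|) (p/(1-p))^|S| (1 - p/(1-p))^(|X|-|R|-|S|) = p^|Q| (1-2p)^(|X|-|Q|)`
(`1 - p/(1-p) = (1-2p)/(1-p)`, `|X \ R| = |X|-|R|`, `|Q| = |R|+|S|`; the powers of `1-p` cancel). -/
def HalfStmt : Prop :=
  ∀ (V : Type) [DecidableEq V] (X : Finset V) (p : ℝ) (f : Finset V → Finset V → ℝ), 0 ≤ p →
    p ≤ 1 / 2 →
    Ex (2 * p) X (fun Q => Ex (1 / 2) Q (fun R => f R Q)) =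
      Ex p X (fun R => Ex (p / (1 - p)) (X \ R) (fun S => f R (R ∪ S)))

/-- TRACES (Sauer-Shelah).

PROOF (from `VCStmt`). Let `Ps` be the set of all `P ⊆ Q` of the form `A j ∩ Q` (filter of
`Q.powerset`, classical). `|Ps| ≤ |Ps.shatterer|` (Mathlib `Finset.card_le_card_shatterer`), and
every shattered set `S` is a subset of `Q` with at most `2m-2` points: otherwise a subset of `S`
with exactly `2m-1` points would be shattered by `Ps` (`Finset.Shatters.mono_right`), hence by the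
traces of the `A j`, contradicting `VCStmt`. Compare `card_trc` in `Net.lean`. -/
def TraceStmt : Prop :=
  ∀ (m : ℕ) (V ι : Type) [DecidableEq V] (A : ι → Finset V), 1 ≤ m → TwoCol m A →
    ∀ Q : Finset V, ∃ Ps : Finset (Finset V), (∀ j, A j ∩ Q ∈ Ps) ∧ (∀ P ∈ Ps, P ⊆ Q) ∧
      Ps.card ≤ (Q.powerset.filter (fun P => P.card ≤ 2 * m - 2)).card

open Classical in
/-- RANDOM SETS ARE NETS (epsilon-net theorem for sets of independent points).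

PROOF (from `HalfStmt`, `TraceStmt`, `TailStmt`). Let `d = 2m-2`. Choose `k ≥ 1` with
`exp (- k ε'/8) ≤ 1/2` and `2 (d+1) (4k)^d (1/2)^(k ε'/2) ≤ δ` (real exponent; exponential decay
beats the polynomial). Let `p = k/s ≤ 1/2`, `a = k ε'/2`, `𝒯` = sets `T ⊆ G` of the form `A j ∩ G`
with `ε' s ≤ |T|`, and `g(R, Q) = 1` if there is `T ∈ 𝒯` with `T ∩ R = ∅` and `a ≤ |T ∩ Q|`,
else `g = 0`.
(i) The event for `R` implies that some `T ∈ 𝒯` has `T ∩ (R ∩ G) = ∅`, and the expectation over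
`univ` of a function of `R ∩ G` is the expectation over `G` (`lin_Ex_union` in `Lin.lean`,
`univ = (univ \ G) ∪ G`).
(ii) If `R ⊆ G` and some `T ∈ 𝒯` has `T ∩ R = ∅` then
`Ex (p/(1-p)) (G \ R) (fun S => g R (R ∪ S)) ≥ 1/2`: with `p' = p/(1-p) ∈ [p, 1]` and `T ⊆ G \ R`,
`TailStmt` says that `2 |S ∩ T| < p' |T|` has expectation at most
`exp (- p' |T|/8) ≤ exp (- k ε'/8) ≤ 1/2`, and otherwise `|T ∩ (R ∪ S)| ≥ p' |T|/2 ≥ a`.
(iii) So, by `HalfStmt`, the expectation in question is at most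
`2 Ex (2p) G (fun Q => Ex (1/2) Q (fun R => g R Q))`.
(iv) For fixed `Q ⊆ G` let `Ps` be from `TraceStmt`. `g R Q ≤ Σ_{P ∈ Ps, a ≤ |P|} 1(P ∩ R = ∅)`
(`P = T ∩ Q = A j ∩ Q`) and `Ex (1/2) Q (1(P ∩ R = ∅)) = (1/2)^|P| ≤ (1/2)^a` (`Ex_avoid`). So
`Ex (1/2) Q (g R Q) ≤ (1/2)^a #{P ⊆ Q : |P| ≤ d}`.
(v) `Ex (2p) G (#{P ⊆ Q : |P| ≤ d}) = Σ_{P ⊆ G, |P| ≤ d} (2p)^|P|` (`Ex_contains`)
`= Σ_{i ≤ d} C(|G|, i) (2p)^i ≤ Σ_{i ≤ d} (2p|G|)^i ≤ (d+1) (4k)^d` (`2 p |G| ≤ 4 k`, `4 k ≥ 1`).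
Together: at most `2 (1/2)^a (d+1) (4k)^d ≤ δ`. -/
def ENStmt : Prop :=
  ∀ (m : ℕ) (ε' δ : ℝ), 1 ≤ m → 0 < ε' → 0 < δ → ∃ k : ℝ, 1 ≤ k ∧
    ∀ (V ι : Type) [Fintype V] [DecidableEq V] (A : ι → Finset V) (G : Finset V) (s : ℝ),
      TwoCol m A → 2 * k ≤ s → (G.card : ℝ) ≤ 2 * s →
      Ex (k / s) univ (fun R => if ∃ j, A j ∩ R = ∅ ∧ ε' * s ≤ ((A j ∩ G).card : ℝ) then (1 : ℝ)
        else 0) ≤ δ

/-- LINEAR PROGRAMMING DUALITY for packings and covers.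

PROOF. If `κ` is empty take `x = 0`. Otherwise suppose there is no packing `y` with `Σ y ≥ t`. Let
`Δ` be the compact convex set of `y : κ → ℝ` with `y ≥ 0`, `Σ y = t` (image of `stdSimplex` under
`t •`), and `K ⊆ (V → ℝ)` its image under the continuous affine map
`y ↦ (v ↦ fdeg B y v - c v)`: compact and convex; let `N = {z : z ≤ 0}`: closed and convex. They are
disjoint. `geometric_hahn_banach_compact_closed` gives a continuous linear `f` and reals `u < u'` with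
`f < u` on `K`, `u' < f` on `N`. `x v := - f (Pi.single v 1) ≥ 0` as `f` is bounded below on the cone
`N`; `0 ∈ N` gives `u' < 0`. For `y = t • e_i`: `Σ_v x v (t 1(v ∈ B i) - c v) = - f(..) > - u > 0`, so
`t x(B i) > Σ c v x v` for all `i`. Let `λ = min_i x(B i) > 0` (`κ` finite, nonempty) and
`x' = x/λ`: `x'(B i) ≥ 1` and `Σ c v x' v = (Σ c v x v)/λ < t`. -/
def LPDStmt : Prop :=
  ∀ (V κ : Type) [Fintype V] [DecidableEq V] [Fintype κ] (B : κ → Finset V) (c : V → ℝ) (t : ℝ),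
    (∀ v, 0 ≤ c v) → 0 < t →
    (∃ y : κ → ℝ, Packs B c y ∧ t ≤ ∑ i, y i) ∨
    (∃ x : V → ℝ, (∀ v, 0 ≤ x v) ∧ (∀ i, 1 ≤ ∑ v ∈ B i, x v) ∧ ∑ v, c v * x v < t)

/-- AVERAGING of packings that avoid random sets. `c` = capacities, `S = Σ_v c v`.

PROOF (from `ENStmt`, which gives `k`). `K₀ = k/ε`, `s₀ = 2k`. If `S = 0` take `y = 0`. Let
`p = k/s ≤ 1/2`. Call `R` good if `s c(R) ≤ K₀ S` (`c(R) = Σ_{v ∈ R} c v`) and choose for good `R` the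
packing `y_R` of the hypothesis. Put `y i = Ex p univ (fun R => if R good then y_R i else 0)`.
Clearly `y ≥ 0` and `Σ_{i ∋ v} y i = Ex (if good then Σ_{i ∋ v} y_R i) ≤ c v`. The indicator of `R`
not good is at most `s c(R)/(K₀ S)`, with expectation `≤ s p S/(K₀ S) = k/K₀ = ε`; so
`s Σ y = Ex (if good then s Σ y_R) ≥ (1-ε) S (1-ε) ≥ (1 - 2ε) S`.
PAIRS: let `v ∈ A i`, `|A i| ≤ 2 s` and `J = {j : v ∈ A j, ε' s ≤ |A i ∩ A j|}`. Then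
`Σ_{j ∈ J} y j = Ex (if good then Σ_{j ∈ J} y_R j)`; the inner sum is at most `c v`, and if it is not
`0` then some `j ∈ J` has `A j ∩ R = ∅`; so it is at most `c v` times the indicator of `ENStmt` for
`G = A i`, and `Σ_{j ∈ J} y j ≤ δ c v`. Multiply with `y i` and sum over `i`:
`≤ δ c v Σ_{i ∋ v} y i ≤ δ (c v)²`. -/
def AvgStmt : Prop :=
  ∀ (m : ℕ) (ε' δ ε : ℝ), 1 ≤ m → 0 < ε' → 0 < δ → 0 < ε → ε ≤ 1 →
    ∃ K₀ s₀ : ℝ, 0 < K₀ ∧ 1 ≤ s₀ ∧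
      ∀ (V ι : Type) [Fintype V] [DecidableEq V] [Fintype ι] [DecidableEq ι] (A : ι → Finset V)
        (c : V → ℝ) (s : ℝ), TwoCol m A → s₀ ≤ s → (∀ v, 0 ≤ c v) →
        (∀ R : Finset V, s * ∑ v ∈ R, c v ≤ K₀ * ∑ v, c v → ∃ y : ι → ℝ, Packs A c y ∧
          (∀ i, (A i ∩ R).Nonempty → y i = 0) ∧ (1 - ε) * ∑ v, c v ≤ s * ∑ i, y i) →
        ∃ y : ι → ℝ, Packs A c y ∧ (1 - 2 * ε) * ∑ v, c v ≤ s * ∑ i, y i ∧
          ∀ v, ∑ i ∈ univ.filter (fun i => v ∈ A i ∧ ((A i).card : ℝ) ≤ 2 * s),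
            ∑ j ∈ univ.filter (fun j => v ∈ A j ∧ ε' * s ≤ ((A i ∩ A j).card : ℝ)), y i * y j ≤
              δ * (c v) ^ 2

/-- TRIMMING. `S = Σ_v c v`.

PROOF. `Σ_i z i |A i| = Σ_v fdeg A z v ≤ S`, so `Σ_i z i (|A i| - s) ≤ S - s Σ z ≤ S/24`. Hence the
`z i` with `|A i| > 2 s` have `s Σ z i ≤ S/24`. Let `y i = z i` if `|A i| ≤ 2 s` and `0` otherwise:
`s Σ y ≥ (1 - 1/12) S`. Let `d = fdeg A y ≤ c`, `Σ_v d v = Σ_i y i |A i| ≥ s Σ y ≥ (11/12) S`, and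
`X = {v : 0 < c v, c v ≤ 2 d v}`. For `v ∉ X`: `d v ≤ c v - d v` (if `c v = 0` then `d v = 0`), so
`Σ_{v ∉ X} d v ≤ Σ_v (c v - d v) ≤ S/12`. So `Σ_X d ≥ s Σ y - S/12 ≥ s Σ y (1 - 1/11)` as
`S ≤ (12/11) s Σ y`; in particular `s Σ y ≤ (11/10) Σ_X d ≤ (4/3) Σ_X d`, and `Σ_X d > 0`.
For `v ∈ X`: the pairs `i, j ∋ v` with `|A i ∩ A j| < ε' s` contribute at most `ε' s d(v)²`, the
others (with `y i ≠ 0`, so `|A i| ≤ 2 s`) at most `2 s δ (c v)² ≤ 8 δ s d(v)²`. -/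
def TrimStmt : Prop :=
  ∀ (V ι : Type) [Fintype V] [DecidableEq V] [Fintype ι] [DecidableEq ι] (A : ι → Finset V)
    (c : V → ℝ) (z : ι → ℝ) (s ε' δ : ℝ), 0 < s → 0 ≤ ε' → 0 ≤ δ →
    (∀ i, s ≤ ((A i).card : ℝ)) → 0 < ∑ v, c v → Packs A c z →
    (1 - 1 / 24) * ∑ v, c v ≤ s * ∑ i, z i →
    (∀ v, ∑ i ∈ univ.filter (fun i => v ∈ A i ∧ ((A i).card : ℝ) ≤ 2 * s),
      ∑ j ∈ univ.filter (fun j => v ∈ A j ∧ ε' * s ≤ ((A i ∩ A j).card : ℝ)), z i * z j ≤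
        δ * (c v) ^ 2) →
    ∃ (y : ι → ℝ) (X : Finset V), (∀ i, 0 ≤ y i) ∧ (∀ i, 2 * s < ((A i).card : ℝ) → y i = 0) ∧
      (∀ v ∈ X, 0 < fdeg A y v) ∧ 0 < ∑ v ∈ X, fdeg A y v ∧
      s * ∑ i, y i ≤ 4 / 3 * ∑ v ∈ X, fdeg A y v ∧
      ∀ v ∈ X, ∑ i ∈ univ.filter (fun i => v ∈ A i), ∑ j ∈ univ.filter (fun j => v ∈ A j),
        y i * y j * ((A i ∩ A j).card : ℝ) ≤ (ε' + 8 * δ) * s * (fdeg A y v) ^ 2

/-- DISCRETIZATION.

PROOF. For a large natural number `q` let `λ i = ⌊q y i⌋₊`, `ι' = Σ i, Fin (λ i)`, `V' = ↥X`,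
`A' (i, a) = (A i).subtype (· ∈ X)`. `TwoCol` is inherited by subsets of the points and by
reindexing. `λ i > 0` only if `y i > 0`, so `|A' e| ≤ 2 s`. `dg A' v = Σ_{i ∋ v} λ i`, which lies
between `q fdeg A y v - card ι` and `q fdeg A y v`; `card ι' = Σ λ i ≤ q Σ y`. For `q` large:
`dg A' v ≥ Λ`, `dg A' v ≥ (q/2) fdeg A y v` for all `v ∈ X` (finitely many positive numbers
`fdeg A y v`), and `mass A' = Σ_{v ∈ X} dg A' v ≥ q Σ_X fdeg - card V card ι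
≥ (2/3) q Σ_X fdeg ≥ (q/2) s Σ y ≥ s card ι'/2`; also `X` is nonempty, so `card ι' > 0`.
`CD`: `Σ_u codeg A' u v ^ 2 = Σ_{e, f ∋ v} |A' e ∩ A' f|` (`codeg_sq_sum`)
`= Σ_{i, j ∋ v} λ i λ j |A i ∩ A j ∩ X| ≤ q² Σ_{i,j ∋ v} y i y j |A i ∩ A j|
≤ q² g s (fdeg A y v)² ≤ 4 g s (dg A' v)²`. -/
def DiscStmt : Prop :=
  ∀ (m : ℕ) (V ι : Type) [Fintype V] [DecidableEq V] [Fintype ι] [DecidableEq ι]
    (A : ι → Finset V) (y : ι → ℝ) (X : Finset V) (s g Λ : ℝ), 0 < s → 0 ≤ g → TwoCol m A →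
    (∀ i, 0 ≤ y i) → (∀ i, 2 * s < ((A i).card : ℝ) → y i = 0) →
    (∀ v ∈ X, 0 < fdeg A y v) → 0 < ∑ v ∈ X, fdeg A y v →
    s * ∑ i, y i ≤ 4 / 3 * ∑ v ∈ X, fdeg A y v →
    (∀ v ∈ X, ∑ i ∈ univ.filter (fun i => v ∈ A i), ∑ j ∈ univ.filter (fun j => v ∈ A j),
        y i * y j * ((A i ∩ A j).card : ℝ) ≤ g * s * (fdeg A y v) ^ 2) →
    ∃ (V' ι' : Type) (_ : Fintype V') (_ : DecidableEq V') (_ : Fintype ι')
      (_ : DecidableEq ι') (A' : ι' → Finset V'), TwoCol m A' ∧ 0 < Fintype.card ι' ∧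
      (∀ e, ((A' e).card : ℝ) ≤ 2 * s) ∧ (Fintype.card ι' : ℝ) * s ≤ 2 * mass A' ∧
      CD A' s (4 * g) ∧ ∀ v, Λ ≤ (dg A' v : ℝ)

/-- UNIFORM DROP LEMMA: a cheap set of points destroys all nearly perfect packings.

PROOF (from `WGTStmt`, `AvgStmt`, `TrimStmt`, `DiscStmt`). Let `Λ, γ, s_W` be from `WGTStmt`;
`ε' = γ/8`, `δ = γ/64`, `ε = 1/48`; `K₀, s_A` from `AvgStmt`; `s₀ = max s_W s_A`. If there were no
such `R` then the hypothesis of `AvgStmt` holds; it gives `z`, `TrimStmt` gives `y, X`, and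
`DiscStmt` with `g = ε' + 8 δ = γ/4` gives a family that contradicts `WGTStmt`. -/
def KLUStmt : Prop :=
  ∀ m : ℕ, 1 ≤ m → ∃ K₀ s₀ : ℝ, 0 < K₀ ∧ 1 ≤ s₀ ∧
    ∀ (V ι : Type) [Fintype V] [DecidableEq V] [Fintype ι] [DecidableEq ι] (A : ι → Finset V)
      (c : V → ℝ) (s : ℝ), TwoCol m A → s₀ ≤ s → (∀ i, s ≤ ((A i).card : ℝ)) →
      (∀ v, 0 ≤ c v) → 0 < ∑ v, c v →
      ∃ R : Finset V, s * ∑ v ∈ R, c v ≤ K₀ * ∑ v, c v ∧
        ¬ ∃ y : ι → ℝ, Packs A c y ∧ (∀ i, (A i ∩ R).Nonempty → y i = 0) ∧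
          (1 - 1 / 48) * ∑ v, c v ≤ s * ∑ i, y i

/-- DROP LEMMA. `x` is a fractional cover, `L = Σ_v c v x v` its cost.

PROOF (from `KLUStmt` by blowing up; `wtBlow_twoCol`, `card_wtBlow`, `mem_wtBlow` in `Weight.lean`).
`K₁ = 2 K₀`. Choose a real `S ≥ s₀` with `94 Σ_v c v ≤ S L`, `n v = ⌈S x v⌉₊`,
`A' = wtBlow n A : ι → Finset (Σ v, Fin (n v))`, `c' (v, a) = c v`, `s = S`. `TwoCol m A'`;
`|A' i| = Σ_{v ∈ A i} n v ≥ S`; `Σ c' = Σ_v n v c v` lies between `S L > 0` and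
`S L + Σ c ≤ S L (1 + 1/94)`. `KLUStmt` gives `R'`; `R` = projection of `R'` to `V`:
`Σ_{v ∈ R} c v ≤ Σ_{R'} c' ≤ K₀ Σ c'/S ≤ 2 K₀ L`. `A i ∩ R` is nonempty iff `A' i ∩ R'` is.
A packing `y` of `A` with `c` is a packing of `A'` with `c'` (`fdeg A' y (v, a) = fdeg A y v`); if
`(1 - 1/96) L ≤ Σ y` then `(1 - 1/48) Σ c' ≤ (47/48)(95/94) S L = (95/96) S L ≤ S Σ y`. -/
def DropStmt : Prop :=
  ∀ m : ℕ, 1 ≤ m → ∃ K₁ : ℝ, 0 < K₁ ∧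
    ∀ (V ι : Type) [Fintype V] [DecidableEq V] [Fintype ι] [DecidableEq ι] (A : ι → Finset V)
      (c x : V → ℝ), TwoCol m A → (∀ v, 0 ≤ c v) → (∀ v, 0 ≤ x v) →
      (∀ i, 1 ≤ ∑ v ∈ A i, x v) → 0 < ∑ v, c v * x v →
      ∃ R : Finset V, ∑ v ∈ R, c v ≤ K₁ * ∑ v, c v * x v ∧
        ¬ ∃ y : ι → ℝ, Packs A c y ∧ (∀ i, (A i ∩ R).Nonempty → y i = 0) ∧
          (1 - 1 / 96) * ∑ v, c v * x v ≤ ∑ i, y i

/-- NETS OF SMALL COST: the integrality gap of the weighted hitting set problem is bounded.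

PROOF (from `DropStmt`, `LPDStmt`; for `m = 0` use `TwoCol 0 → TwoCol 1`, `twoCol_mono` in
`Transfer2.lean`). `C = 96 K₁`. Strong induction on `card ι`. Let `x` be a cover, suppose that there
is no `T` hitting all edges with `c(T) ≤ C Σ c x` (call `x` failing).
(a) If `Σ c x = 0` then `T = {v : 0 < x v}` has `c(T) = 0` (each `c v x v = 0`) and meets all edges.
So `Σ c x > 0`.
(b) `DropStmt` gives `R`. Let `E' = {i : A i ∩ R = ∅}`. By `LPDStmt` for the edges in `E'` (a subtype)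
and `t = (1 - 1/96) Σ c x` there is either a packing, excluded by `DropStmt` (extend by `0`), or a
cover `x'` of `E'` with `Σ c x' < (1 - 1/96) Σ c x`. If `E'` is not everything then the induction
hypothesis gives `T'` hitting `E'` with `c(T') ≤ C Σ c x'`, and `T = R ∪ T'` meets all edges,
`c(T) ≤ K₁ Σ c x + C (1 - 1/96) Σ c x = C Σ c x`: contradiction. So `x'` is again a cover of all
edges, and failing (`C Σ c x' ≤ C Σ c x`).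
(c) Iterating, there are failing covers with `Σ c x' ≤ (1 - 1/96)^j Σ c x` for all `j`. If all edges
meet `Z = {v : c v = 0}` then `T = Z` contradicts failing. Otherwise let `A i ∩ Z = ∅`; the minimum
`c₀ > 0` of `c` on `A i` (nonempty because of `1 ≤ x(A i)`) satisfies
`c₀ ≤ c₀ x'(A i) ≤ Σ c x'` for every cover `x'`: contradiction for large `j`. -/
def CostNetStmt : Prop :=
  ∀ m : ℕ, ∃ C : ℝ, 0 < C ∧
    ∀ (V ι : Type) [Fintype V] [DecidableEq V] [Fintype ι] [DecidableEq ι] (A : ι → Finset V)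
      (c x : V → ℝ), TwoCol m A → (∀ v, 0 ≤ c v) → (∀ v, 0 ≤ x v) →
      (∀ i, 1 ≤ ∑ v ∈ A i, x v) →
      ∃ T : Finset V, (∀ i, (A i ∩ T).Nonempty) ∧ ∑ v ∈ T, c v ≤ C * ∑ v, c v * x v

/-- FRACTIONAL POLYCHROMATIC COLOURINGS.

PROOF (from `CostNetStmt`, `LPDStmt`; same `C`). Let `κ` be the type of all sets `T : Finset V` that
meet every `A i` with `t ≤ w(A i)`. Apply `LPDStmt` to the family `B T = T` over `κ`, the capacities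
`C w v/t` and `t = 1`. Either there is `y ≥ 0` on `κ` with `Σ_{T ∋ v} y T ≤ C w v/t` and
`Y = Σ y ≥ 1`: put `q T = y T/Y` for `T ∈ κ`, `q T = 0` otherwise. Or there is `x ≥ 0` with
`x(T) ≥ 1` for all `T ∈ κ` and `Σ_v (C w v/t) x v < 1`. Apply `CostNetStmt` with the costs `x` to the
edges with `t ≤ w(A i)` (a subtype) and their cover `w/t`: some `T ∈ κ` has
`x(T) ≤ C Σ_v x v w v/t < 1`, contradiction. -/
def FracStmt : Prop :=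
  ∀ m : ℕ, ∃ C : ℝ, 0 < C ∧
    ∀ (V ι : Type) [Fintype V] [DecidableEq V] [Fintype ι] [DecidableEq ι] (A : ι → Finset V)
      (w : V → ℝ) (t : ℝ), TwoCol m A → (∀ v, 0 ≤ w v) → 0 < t →
      ∃ q : Finset V → ℝ, (∀ T, 0 ≤ q T) ∧ ∑ T, q T = 1 ∧
        (∀ T, q T ≠ 0 → ∀ i, t ≤ ∑ v ∈ A i, w v → (A i ∩ T).Nonempty) ∧
        ∀ v, t * ∑ T ∈ univ.filter (fun T => v ∈ T), q T ≤ C * w v

end Pool.Agent.Lib.MP_9b5ec2_co
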