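import Mathlib
import Pool.Agent.Lib.MP_9b5ec2_co.Defs

/-! Basic facts on the expectation `Ex p X f` over a Bernoulli(p) random subset of `X`. -/

set_option autoImplicit false
set_option linter.unusedSectionVars false

namespace Pool.Agent.Lib.MP_9b5ec2_co

open Finset

variable {V : Type} [DecidableEq V]

theorem Ex_prod (p : ℝ) (X : Finset V) (g : V → ℝ) :
    Ex p X (fun T => ∏ v ∈ T, g v) = ∏ v ∈ X, (1 - p + p * g v) := by
  have h : ∀ v ∈ X, (1 - p + p * g v) = p * g v + (1 - p) := fun v _ => by ring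
  rw [Finset.prod_congr rfl h, Finset.prod_add]
  unfold Ex
  refine Finset.sum_congr rfl fun T hT => ?_
  have hTX := Finset.mem_powerset.1 hT
  rw [Finset.prod_mul_distrib, Finset.prod_const, Finset.prod_const,
    Finset.card_sdiff_of_subset hTX]
  ring

theorem Ex_one (p : ℝ) (X : Finset V) : Ex p X (fun _ => 1) = 1 := by
  have := Ex_prod p X (fun _ => (1 : ℝ))
  simpa using this

theorem Ex_const (p : ℝ) (X : Finset V) (c : ℝ) : Ex p X (fun _ => c) = c := by
  have h := Ex_one p X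
  unfold Ex at h ⊢
  rw [← Finset.sum_mul] at h ⊢
  rw [mul_one] at h
  rw [h, one_mul]

theorem Ex_add (p : ℝ) (X : Finset V) (f g : Finset V → ℝ) :
    Ex p X (fun T => f T + g T) = Ex p X f + Ex p X g := by
  unfold Ex
  rw [← Finset.sum_add_distrib]
  exact Finset.sum_congr rfl fun T _ => by ring

theorem Ex_sub (p : ℝ) (X : Finset V) (f g : Finset V → ℝ) :
    Ex p X (fun T => f T - g T) = Ex p X f - Ex p X g := by
  unfold Ex
  rw [← Finset.sum_sub_distrib]
  exact Finset.sum_congr rfl fun T _ => by ring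

theorem Ex_mul_left (p : ℝ) (X : Finset V) (c : ℝ) (f : Finset V → ℝ) :
    Ex p X (fun T => c * f T) = c * Ex p X f := by
  unfold Ex
  rw [Finset.mul_sum]
  exact Finset.sum_congr rfl fun T _ => by ring

theorem Ex_mul_right (p : ℝ) (X : Finset V) (c : ℝ) (f : Finset V → ℝ) :
    Ex p X (fun T => f T * c) = Ex p X f * c := by
  unfold Ex
  rw [Finset.sum_mul]
  exact Finset.sum_congr rfl fun T _ => by ring

theorem Ex_sum {κ : Type*} (p : ℝ) (X : Finset V) (K : Finset κ) (f : κ → Finset V → ℝ) :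
    Ex p X (fun T => ∑ j ∈ K, f j T) = ∑ j ∈ K, Ex p X (f j) := by
  unfold Ex
  rw [Finset.sum_comm]
  exact Finset.sum_congr rfl fun T _ => by rw [Finset.mul_sum]

theorem Ex_weight_nonneg {p : ℝ} (h0 : 0 ≤ p) (h1 : p ≤ 1) (X T : Finset V) :
    0 ≤ p ^ T.card * (1 - p) ^ (X.card - T.card) :=
  mul_nonneg (pow_nonneg h0 _) (pow_nonneg (by linarith) _)

theorem Ex_mono {p : ℝ} (h0 : 0 ≤ p) (h1 : p ≤ 1) (X : Finset V) (f g : Finset V → ℝ)
    (h : ∀ T, T ⊆ X → f T ≤ g T) : Ex p X f ≤ Ex p X g := by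
  unfold Ex
  exact Finset.sum_le_sum fun T hT =>
    mul_le_mul_of_nonneg_left (h T (Finset.mem_powerset.1 hT)) (Ex_weight_nonneg h0 h1 X T)

theorem Ex_congr (p : ℝ) (X : Finset V) (f g : Finset V → ℝ)
    (h : ∀ T, T ⊆ X → f T = g T) : Ex p X f = Ex p X g := by
  unfold Ex
  exact Finset.sum_congr rfl fun T hT => by rw [h T (Finset.mem_powerset.1 hT)]

theorem Ex_nonneg {p : ℝ} (h0 : 0 ≤ p) (h1 : p ≤ 1) (X : Finset V) (f : Finset V → ℝ)
    (h : ∀ T, T ⊆ X → 0 ≤ f T) : 0 ≤ Ex p X f := by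
  have := Ex_mono h0 h1 X (fun _ => 0) f h
  rwa [Ex_const] at this

/-- If the expectation is less than `c` then some subset has value less than `c`. -/
theorem Ex_exists {p : ℝ} (h0 : 0 ≤ p) (h1 : p ≤ 1) (X : Finset V) (f : Finset V → ℝ) (c : ℝ)
    (h : Ex p X f < c) : ∃ T, T ⊆ X ∧ f T < c := by
  by_contra hcon
  have h2 : ∀ T, T ⊆ X → c ≤ f T := fun T hT => by
    by_contra h3
    exact hcon ⟨T, hT, not_le.1 h3⟩
  have := Ex_mono h0 h1 X (fun _ => c) f h2
  rw [Ex_const] at this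
  linarith

/-- The probability that the random set contains the set `Y`. -/
theorem Ex_contains (p : ℝ) (X Y : Finset V) (hY : Y ⊆ X) :
    Ex p X (fun T => if Y ⊆ T then 1 else 0) = p ^ Y.card := by
  -- complement trick: product over all v of (p * 1 + (1-p) * [v ∉ Y])
  have key : ∏ v ∈ X, (p + (1 - p) * (if v ∈ Y then 0 else 1)) =
      Ex p X (fun T => if Y ⊆ T then 1 else 0) := by
    rw [Finset.prod_add]
    unfold Ex
    refine Finset.sum_congr rfl fun T hT => ?_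
    have hTX := Finset.mem_powerset.1 hT
    rw [Finset.prod_mul_distrib, Finset.prod_const, Finset.prod_const,
      Finset.card_sdiff_of_subset hTX, mul_assoc]
    congr 2
    show (∏ x ∈ X \ T, if x ∈ Y then (0 : ℝ) else 1) = if Y ⊆ T then 1 else 0
    split_ifs with h
    · refine Finset.prod_eq_one fun v hv => ?_
      rw [if_neg fun hvY => (Finset.mem_sdiff.1 hv).2 (h hvY)]
    · obtain ⟨v, hvY, hvT⟩ := Finset.not_subset.1 h
      exact Finset.prod_eq_zero (Finset.mem_sdiff.2 ⟨hY hvY, hvT⟩) (if_pos hvY)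
  rw [← key]
  have h1 : ∀ v ∈ X, (p + (1 - p) * (if v ∈ Y then (0 : ℝ) else 1)) =
      if v ∈ Y then p else 1 := fun v _ => by split_ifs <;> ring
  rw [Finset.prod_congr rfl h1, Finset.prod_ite_mem]
  rw [Finset.prod_const, Finset.inter_eq_right.2 hY]

theorem Ex_mem (p : ℝ) (X : Finset V) {v : V} (hv : v ∈ X) :
    Ex p X (fun T => if v ∈ T then 1 else 0) = p := by
  have := Ex_contains p X {v} (by simpa using hv)
  simpa using this

theorem Ex_pair (p : ℝ) (X : Finset V) {u v : V} (hu : u ∈ X) (hv : v ∈ X) (huv : u ≠ v) :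
    Ex p X (fun T => if u ∈ T ∧ v ∈ T then 1 else 0) = p ^ 2 := by
  have h := Ex_contains p X {u, v} (by
    intro x hx
    simp only [Finset.mem_insert, Finset.mem_singleton] at hx
    rcases hx with rfl | rfl <;> assumption)
  rw [Finset.card_pair huv] at h
  rw [← h]
  refine Ex_congr p X _ _ fun T _ => ?_
  simp [Finset.insert_subset_iff]

/-- The probability that the random set misses `Y`. -/
theorem Ex_avoid (p : ℝ) (X Y : Finset V) :
    Ex p X (fun T => if (Y ∩ T).Nonempty then 0 else 1) = (1 - p) ^ (Y ∩ X).card := by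
  have h := Ex_prod p X (fun v => if v ∈ Y then (0 : ℝ) else 1)
  have h1 : Ex p X (fun T => if (Y ∩ T).Nonempty then (0 : ℝ) else 1) =
      Ex p X (fun T => ∏ v ∈ T, if v ∈ Y then (0 : ℝ) else 1) := by
    refine Ex_congr p X _ _ fun T _ => ?_
    split_ifs with hne
    · obtain ⟨v, hv⟩ := hne
      have hv' := Finset.mem_inter.1 hv
      exact (Finset.prod_eq_zero (f := fun v => if v ∈ Y then (0 : ℝ) else 1) hv'.2
        (if_pos hv'.1)).symm
    · symm
      refine Finset.prod_eq_one fun v hv => if_neg fun hvY => hne ⟨v, ?_⟩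
      exact Finset.mem_inter.2 ⟨hvY, hv⟩
  rw [h1, h]
  have h2 : ∀ v ∈ X, (1 - p + p * (if v ∈ Y then (0 : ℝ) else 1)) =
      if v ∈ Y then 1 - p else 1 := fun v _ => by split_ifs <;> ring
  rw [Finset.prod_congr rfl h2, Finset.prod_ite_mem, Finset.prod_const, Finset.inter_comm]

/-- The probability that the random set hits `Y`. -/
theorem Ex_hit (p : ℝ) (X Y : Finset V) :
    Ex p X (fun T => if (Y ∩ T).Nonempty then 1 else 0) = 1 - (1 - p) ^ (Y ∩ X).card := by
  rw [← Ex_avoid p X Y]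
  have := Ex_sub p X (fun _ => 1) (fun T => if (Y ∩ T).Nonempty then 0 else 1)
  rw [Ex_const] at this
  rw [← this]
  refine Ex_congr p X _ _ fun T _ => ?_
  split_ifs <;> norm_num

theorem Ex_hit_le {p : ℝ} (h1 : p ≤ 1) (X Y : Finset V) :
    Ex p X (fun T => if (Y ∩ T).Nonempty then 1 else 0) ≤ p * ((Y ∩ X).card : ℝ) := by
  rw [Ex_hit]
  have := one_add_mul_le_pow (a := -p) (by linarith) (Y ∩ X).card
  have h2 : (1 + -p) = 1 - p := by ring
  rw [h2] at this
  nlinarith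

/-- `E (1/2)^|T ∩ Y|` (more generally `E a^|T ∩ Y|`) -/
theorem Ex_pow (p a : ℝ) (X Y : Finset V) (hY : Y ⊆ X) :
    Ex p X (fun T => a ^ (T ∩ Y).card) = (1 - p + p * a) ^ Y.card := by
  have h := Ex_prod p X (fun v => if v ∈ Y then a else 1)
  have h1 : Ex p X (fun T => a ^ (T ∩ Y).card) =
      Ex p X (fun T => ∏ v ∈ T, if v ∈ Y then a else 1) := by
    refine Ex_congr p X _ _ fun T _ => ?_
    rw [Finset.prod_ite_mem, Finset.prod_const]
  rw [h1, h]
  have h2 : ∀ v ∈ X, (1 - p + p * (if v ∈ Y then a else 1)) =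
      if v ∈ Y then 1 - p + p * a else 1 := fun v _ => by split_ifs <;> ring
  rw [Finset.prod_congr rfl h2, Finset.prod_ite_mem, Finset.prod_const,
    Finset.inter_eq_right.2 hY]

theorem Ex_card_inter (p : ℝ) (X Y : Finset V) :
    Ex p X (fun T => ((T ∩ Y).card : ℝ)) = p * ((X ∩ Y).card : ℝ) := by
  have h1 : Ex p X (fun T => ((T ∩ Y).card : ℝ)) =
      Ex p X (fun T => ∑ v ∈ X ∩ Y, if v ∈ T then 1 else 0) := by
    refine Ex_congr p X _ _ fun T hT => ?_
    rw [Finset.sum_ite_mem, Finset.sum_const, nsmul_eq_mul, mul_one]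
    congr 2
    ext x
    simp only [Finset.mem_inter]
    constructor
    · rintro ⟨a, b⟩; exact ⟨⟨hT a, b⟩, a⟩
    · rintro ⟨⟨_, b⟩, a⟩; exact ⟨a, b⟩
  rw [h1, Ex_sum, Finset.sum_congr rfl fun v hv => Ex_mem p X (Finset.mem_inter.1 hv).1,
    Finset.sum_const, nsmul_eq_mul, mul_comm]

theorem Ex_card (p : ℝ) (X : Finset V) :
    Ex p X (fun T => (T.card : ℝ)) = p * (X.card : ℝ) := by
  have h := Ex_card_inter p X X
  rw [Finset.inter_self] at h
  rw [← h]
  refine Ex_congr p X _ _ fun T hT => ?_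
  rw [Finset.inter_eq_left.2 hT]

/-- ordered pairs of distinct points of `T ∩ Y` -/
theorem Ex_pairs_le {p : ℝ} (X Y : Finset V) :
    Ex p X (fun T => ((Y ∩ T).card : ℝ) * (((Y ∩ T).card : ℝ) - 1)) ≤
      p ^ 2 * ((Y.card : ℝ)) ^ 2 := by
  have h1 : Ex p X (fun T => ((Y ∩ T).card : ℝ) * (((Y ∩ T).card : ℝ) - 1)) =
      Ex p X (fun T => ∑ q ∈ (X ∩ Y).offDiag, if q.1 ∈ T ∧ q.2 ∈ T then 1 else 0) := by
    refine Ex_congr p X _ _ fun T hT => ?_
    rw [← Finset.sum_filter, Finset.sum_const, nsmul_eq_mul, mul_one]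
    have h2 : (X ∩ Y).offDiag.filter (fun q => q.1 ∈ T ∧ q.2 ∈ T) = (Y ∩ T).offDiag := by
      ext ⟨a, b⟩
      simp only [Finset.mem_filter, Finset.mem_offDiag, Finset.mem_inter]
      constructor
      · rintro ⟨⟨⟨_, h2⟩, ⟨_, h4⟩, h5⟩, h6, h7⟩
        exact ⟨⟨h2, h6⟩, ⟨h4, h7⟩, h5⟩
      · rintro ⟨⟨h2, h6⟩, ⟨h4, h7⟩, h5⟩
        exact ⟨⟨⟨hT h6, h2⟩, ⟨hT h7, h4⟩, h5⟩, h6, h7⟩
    rw [h2, Finset.offDiag_card]
    rw [Nat.cast_sub (Nat.le_mul_self _)]
    push_cast
    ring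
  rw [h1, Ex_sum]
  have h3 : ∀ q ∈ (X ∩ Y).offDiag,
      Ex p X (fun T => if q.1 ∈ T ∧ q.2 ∈ T then 1 else 0) = p ^ 2 := by
    intro q hq
    rw [Finset.mem_offDiag] at hq
    exact Ex_pair p X (Finset.mem_inter.1 hq.1).1 (Finset.mem_inter.1 hq.2.1).1 hq.2.2
  rw [Finset.sum_congr rfl h3, Finset.sum_const, nsmul_eq_mul, mul_comm]
  refine mul_le_mul_of_nonneg_left ?_ (sq_nonneg p)
  rw [Finset.offDiag_card]
  have h4 : (X ∩ Y).card ≤ Y.card := Finset.card_le_card Finset.inter_subset_right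
  have h5 : (X ∩ Y).card * (X ∩ Y).card - (X ∩ Y).card ≤ Y.card ^ 2 := by
    calc (X ∩ Y).card * (X ∩ Y).card - (X ∩ Y).card ≤ (X ∩ Y).card * (X ∩ Y).card :=
          Nat.sub_le _ _
      _ ≤ Y.card * Y.card := Nat.mul_le_mul h4 h4
      _ = Y.card ^ 2 := by ring
  exact_mod_cast h5

end Pool.Agent.Lib.MP_9b5ec2_co
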