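import Mathlib
import Pool.Agent.Lib.MP_9b5ec2_co.Defs3
import Pool.Agent.Lib.MP_9b5ec2_co.Ex

/-!
# Averaging of packings that avoid random sets (MP_9b5ec2_co)
-/

set_option autoImplicit false

namespace Pool.Agent.Lib.MP_9b5ec2_co

open Finset

theorem avg_Ex_sum_mem {V : Type} [Fintype V] [DecidableEq V] (p : ℝ) (c : V → ℝ) :
    Ex p univ (fun R => ∑ v ∈ R, c v) = p * ∑ v, c v := by
  have h1 : ∀ R : Finset V, ∑ v ∈ R, c v = ∑ v, c v * (if v ∈ R then 1 else 0) := by
    intro R
    simp only [mul_ite, mul_one, mul_zero]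
    rw [Finset.sum_ite_mem, Finset.univ_inter]
  have h2 : Ex p univ (fun R => ∑ v ∈ R, c v) =
      Ex p univ (fun R => ∑ v, c v * (if v ∈ R then 1 else 0)) := by
    congr 1
    funext R
    exact h1 R
  rw [h2, Ex_sum, Finset.mul_sum]
  refine Finset.sum_congr rfl fun v _ => ?_
  rw [Ex_mul_left, Ex_mem p univ (Finset.mem_univ v)]
  ring

theorem avg (h : ENStmt) : AvgStmt := by
  intro m ε' δ ε hm hε' hδ hε hε1
  obtain ⟨k, hk1, hk⟩ := h m ε' δ hm hε' hδ
  refine ⟨k / ε, 2 * k, by positivity, by linarith, ?_⟩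
  intro V ι _ _ _ _ A c s hT hs hc hyp
  classical
  have hk0 : 0 < k := by linarith
  have hs0 : 0 < s := by linarith
  set S := ∑ v, c v with hS
  have hS0 : 0 ≤ S := Finset.sum_nonneg fun v _ => hc v
  have hp0 : 0 ≤ k / s := by positivity
  have hp1 : k / s ≤ 1 := by
    rw [div_le_one hs0]
    linarith
  have hY : ∀ R : Finset V, ∃ y : ι → ℝ, Packs A c y ∧
      (∀ i, (A i ∩ R).Nonempty → y i = 0) ∧
      (s * ∑ v ∈ R, c v ≤ k / ε * S → (1 - ε) * S ≤ s * ∑ i, y i) := by
    intro R
    by_cases hR : s * ∑ v ∈ R, c v ≤ k / ε * S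
    · obtain ⟨y, h1, h2, h3⟩ := hyp R hR
      exact ⟨y, h1, h2, fun _ => h3⟩
    · refine ⟨fun _ => 0, ⟨fun i => le_rfl, fun v => ?_⟩, fun _ _ => rfl, fun hh => absurd hh hR⟩
      unfold fdeg
      simp only [Finset.sum_const_zero]
      exact hc v
  choose Y hYp hYa hYg using hY
  have hfd : ∀ v, fdeg A (fun i => Ex (k / s) univ (fun R => Y R i)) v =
      Ex (k / s) univ (fun R => fdeg A (Y R) v) := by
    intro v
    unfold fdeg
    rw [Ex_sum]
  have hyn : ∀ i, 0 ≤ Ex (k / s) univ (fun R => Y R i) := fun i =>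
    Ex_nonneg hp0 hp1 _ _ fun R _ => (hYp R).1 i
  have hyc : ∀ v, fdeg A (fun i => Ex (k / s) univ (fun R => Y R i)) v ≤ c v := by
    intro v
    rw [hfd]
    calc Ex (k / s) univ (fun R => fdeg A (Y R) v) ≤ Ex (k / s) univ (fun _ => c v) :=
          Ex_mono hp0 hp1 _ _ _ fun R _ => (hYp R).2 v
      _ = c v := Ex_const _ _ _
  refine ⟨fun i => Ex (k / s) univ (fun R => Y R i), ⟨hyn, hyc⟩, ?_, ?_⟩
  · have h1 : s * ∑ i, Ex (k / s) univ (fun R => Y R i) =
        Ex (k / s) univ (fun R => s * ∑ i, Y R i) := by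
      rw [Ex_mul_left, Ex_sum]
    have h2 : ∀ R : Finset V, (1 - ε) * (S - s / (k / ε) * ∑ v ∈ R, c v) ≤ s * ∑ i, Y R i := by
      intro R
      have hcR : 0 ≤ ∑ v ∈ R, c v := Finset.sum_nonneg fun v _ => hc v
      have hYs : 0 ≤ s * ∑ i, Y R i :=
        mul_nonneg hs0.le (Finset.sum_nonneg fun i _ => (hYp R).1 i)
      by_cases hR : s * ∑ v ∈ R, c v ≤ k / ε * S
      · refine le_trans ?_ (hYg R hR)
        apply mul_le_mul_of_nonneg_left _ (by linarith)
        have : 0 ≤ s / (k / ε) * ∑ v ∈ R, c v := by positivity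
        linarith
      · push Not at hR
        refine le_trans ?_ hYs
        apply mul_nonpos_of_nonneg_of_nonpos (by linarith)
        have h3 : S < s / (k / ε) * ∑ v ∈ R, c v := by
          rw [div_mul_eq_mul_div, lt_div_iff₀ (by positivity)]
          linarith
        linarith
    change (1 - 2 * ε) * S ≤ s * ∑ i, Ex (k / s) univ (fun R => Y R i)
    rw [h1]
    calc (1 - 2 * ε) * S ≤ (1 - ε) * (S - ε * S) := by nlinarith [mul_nonneg (sq_nonneg ε) hS0]
      _ = Ex (k / s) univ (fun R => (1 - ε) * (S - s / (k / ε) * ∑ v ∈ R, c v)) := by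
          rw [Ex_mul_left, Ex_sub, Ex_const, Ex_mul_left, avg_Ex_sum_mem]
          rw [← hS]
          congr 2
          field_simp
      _ ≤ _ := Ex_mono hp0 hp1 _ _ _ fun R _ => h2 R
  · intro v
    have h1 : ∀ i ∈ univ.filter (fun i => v ∈ A i ∧ ((A i).card : ℝ) ≤ 2 * s),
        ∑ j ∈ univ.filter (fun j => v ∈ A j ∧ ε' * s ≤ ((A i ∩ A j).card : ℝ)),
          Ex (k / s) univ (fun R => Y R j) ≤ δ * c v := by
      intro i hi
      rw [Finset.mem_filter] at hi
      have hE := hk V ι A (A i) s hT hs hi.2.2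
      rw [← Ex_sum]
      calc Ex (k / s) univ (fun R =>
            ∑ j ∈ univ.filter (fun j => v ∈ A j ∧ ε' * s ≤ ((A i ∩ A j).card : ℝ)), Y R j)
          ≤ Ex (k / s) univ (fun R => c v *
            (if ∃ j, A j ∩ R = ∅ ∧ ε' * s ≤ ((A j ∩ A i).card : ℝ) then (1 : ℝ) else 0)) := by
            refine Ex_mono hp0 hp1 _ _ _ fun R _ => ?_
            by_cases hex : ∃ j, A j ∩ R = ∅ ∧ ε' * s ≤ ((A j ∩ A i).card : ℝ)
            · rw [if_pos hex, mul_one]
              refine le_trans ?_ ((hYp R).2 v)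
              unfold fdeg
              refine Finset.sum_le_sum_of_subset_of_nonneg ?_ fun j _ _ => (hYp R).1 j
              intro j hj
              rw [Finset.mem_filter] at hj ⊢
              exact ⟨hj.1, hj.2.1⟩
            · rw [if_neg hex, mul_zero]
              apply le_of_eq
              refine Finset.sum_eq_zero fun j hj => ?_
              rw [Finset.mem_filter] at hj
              apply hYa R j
              by_contra hne
              rw [Finset.not_nonempty_iff_eq_empty] at hne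
              exact hex ⟨j, hne, by rw [Finset.inter_comm]; exact hj.2.2⟩
        _ = c v * Ex (k / s) univ (fun R =>
            if ∃ j, A j ∩ R = ∅ ∧ ε' * s ≤ ((A j ∩ A i).card : ℝ) then (1 : ℝ) else 0) :=
            Ex_mul_left _ _ _ _
        _ ≤ c v * δ := by
            refine mul_le_mul_of_nonneg_left ?_ (hc v)
            refine le_trans (le_of_eq ?_) hE
            congr 1
            funext R
            congr
        _ = δ * c v := by ring
    calc ∑ i ∈ univ.filter (fun i => v ∈ A i ∧ ((A i).card : ℝ) ≤ 2 * s),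
          ∑ j ∈ univ.filter (fun j => v ∈ A j ∧ ε' * s ≤ ((A i ∩ A j).card : ℝ)),
            Ex (k / s) univ (fun R => Y R i) * Ex (k / s) univ (fun R => Y R j)
        ≤ ∑ i ∈ univ.filter (fun i => v ∈ A i ∧ ((A i).card : ℝ) ≤ 2 * s),
            Ex (k / s) univ (fun R => Y R i) * (δ * c v) := by
          refine Finset.sum_le_sum fun i hi => ?_
          rw [← Finset.mul_sum]
          exact mul_le_mul_of_nonneg_left (h1 i hi) (hyn i)
      _ = (∑ i ∈ univ.filter (fun i => v ∈ A i ∧ ((A i).card : ℝ) ≤ 2 * s),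
            Ex (k / s) univ (fun R => Y R i)) * (δ * c v) := by rw [Finset.sum_mul]
      _ ≤ c v * (δ * c v) := by
          refine mul_le_mul_of_nonneg_right ?_ (mul_nonneg hδ.le (hc v))
          refine le_trans ?_ (hyc v)
          unfold fdeg
          refine Finset.sum_le_sum_of_subset_of_nonneg ?_ fun j _ _ => hyn j
          intro j hj
          rw [Finset.mem_filter] at hj ⊢
          exact ⟨hj.1, hj.2.1⟩
      _ = δ * c v ^ 2 := by ring

end Pool.Agent.Lib.MP_9b5ec2_co
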