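import Pool.Agent.Lib.MP_9b5ec2_co.Defs2

/-!
# The start of the game (MP_9b5ec2_co, module Base)
-/

set_option autoImplicit false

namespace Pool.Agent.Lib.MP_9b5ec2_co

open Finset

namespace BaseAux

variable {V ι : Type} [Fintype V] [DecidableEq V] [Fintype ι] [DecidableEq ι]

lemma sum_cloV (A : ι → Finset V) (K : ℕ) (T : Finset V) :
    ∑ v, (cloV A K T v : ℝ) = ∑ e, ((A e).card : ℝ) * (clo A K T e : ℝ) := by
  unfold cloV
  push_cast
  simp_rw [Finset.sum_filter]
  rw [Finset.sum_comm]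
  refine Finset.sum_congr rfl fun e _ => ?_
  rw [← Finset.sum_filter, Finset.sum_const, nsmul_eq_mul, Finset.filter_univ_mem]

lemma clo_bad (A : ι → Finset V) (K : ℕ) (s δ : ℝ) (T : Finset V) (hδ : 0 < δ)
    (hA : ∀ e, ((A e).card : ℝ) ≤ 2 * s) (hC : Close A K s δ T) :
    ∑ v ∈ univ.filter (fun v => δ * (dg A v : ℝ) < (cloV A K T v : ℝ)), (dg A v : ℝ) ≤
      δ * mass A := by
  have h1 : δ * ∑ v ∈ univ.filter (fun v => δ * (dg A v : ℝ) < (cloV A K T v : ℝ)),
      (dg A v : ℝ) ≤ δ * (δ * mass A) := by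
    calc δ * ∑ v ∈ univ.filter (fun v => δ * (dg A v : ℝ) < (cloV A K T v : ℝ)), (dg A v : ℝ)
        = ∑ v ∈ univ.filter (fun v => δ * (dg A v : ℝ) < (cloV A K T v : ℝ)),
            δ * (dg A v : ℝ) := Finset.mul_sum _ _ _
      _ ≤ ∑ v ∈ univ.filter (fun v => δ * (dg A v : ℝ) < (cloV A K T v : ℝ)),
            (cloV A K T v : ℝ) :=
          Finset.sum_le_sum fun v hv => ((Finset.mem_filter.mp hv).2).le
      _ ≤ ∑ v, (cloV A K T v : ℝ) :=
          Finset.sum_le_sum_of_subset_of_nonneg (Finset.filter_subset _ _)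
            fun v _ _ => Nat.cast_nonneg _
      _ = ∑ e, ((A e).card : ℝ) * (clo A K T e : ℝ) := sum_cloV A K T
      _ ≤ ∑ e, 2 * s * (clo A K T e : ℝ) :=
          Finset.sum_le_sum fun e _ => mul_le_mul_of_nonneg_right (hA e) (Nat.cast_nonneg _)
      _ = 2 * s * ∑ e, (clo A K T e : ℝ) := (Finset.mul_sum _ _ _).symm
      _ ≤ δ ^ 2 * mass A := hC
      _ = δ * (δ * mass A) := by ring
  exact le_of_mul_le_mul_left h1 hδ

lemma ever_card (A : ι → Finset V) (K : ℕ) (T W : Finset V) (c : Bool) (v : V) :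
    (ever A K T W c 0 v).card = dg A v := by
  classical
  unfold ever dg deg
  congr 1
  ext e
  simp only [Finset.mem_filter, Finset.mem_univ, true_and]
  refine ⟨fun h => h.1, fun h => ⟨h, ∑ u, blk A K u + 2, ?_, ?_⟩⟩
  · have : blk A K v ≤ ∑ u, blk A K u :=
      Finset.single_le_sum (f := fun u => blk A K u) (fun _ _ => Nat.zero_le _)
        (Finset.mem_univ v)
    omega
  · have hab : above A K (∑ u, blk A K u + 2) = ∅ := by
      unfold above
      rw [Finset.filter_eq_empty_iff]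
      intro u _ hu
      have : blk A K u ≤ ∑ u, blk A K u :=
        Finset.single_le_sum (f := fun u => blk A K u) (fun _ _ => Nat.zero_le _)
          (Finset.mem_univ u)
      omega
    unfold mono
    rw [hab]
    simp

end BaseAux

open BaseAux in
/-- START. -/
theorem base (h : LossStmt) : BaseStmt := by
  classical
  intro V ι _ _ _ _ A K s θ δ T W hs hθ hθ8 hδ hδ8 hA hd hWT hC hF
  have hM : 0 ≤ mass A := Finset.sum_nonneg fun v _ => Nat.cast_nonneg _
  have h1 := hF true W hWT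
  have h2 := hF false W hWT
  have h3 := clo_bad A K s δ T hδ hA hC
  set B1 := univ.filter (fun v => δ * (dg A v : ℝ) <
    |dev A K (θ / s) (stPrd A K true 0) T W v|) with hB1
  set B2 := univ.filter (fun v => δ * (dg A v : ℝ) <
    |dev A K (θ / s) (stPrd A K false 0) T W v|) with hB2
  set B3 := univ.filter (fun v => δ * (dg A v : ℝ) < (cloV A K T v : ℝ)) with hB3
  set R := reg A K T W (fun _ => 0) (1 / 2) with hR
  have hcov : ∀ v, v ∈ R ∪ (B1 ∪ (B2 ∪ B3)) := by
    intro v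
    by_contra H
    simp only [Finset.mem_union, not_or] at H
    obtain ⟨hvR, hv1, hv2, hv3⟩ := H
    apply hvR
    have hv1' : |dev A K (θ / s) (stPrd A K true 0) T W v| ≤ δ * (dg A v : ℝ) := by
      by_contra H
      exact hv1 (Finset.mem_filter.mpr ⟨Finset.mem_univ _, not_le.mp H⟩)
    have hv2' : |dev A K (θ / s) (stPrd A K false 0) T W v| ≤ δ * (dg A v : ℝ) := by
      by_contra H
      exact hv2 (Finset.mem_filter.mpr ⟨Finset.mem_univ _, not_le.mp H⟩)
    have hv3' : (cloV A K T v : ℝ) ≤ δ * (dg A v : ℝ) := by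
      by_contra H
      exact hv3 (Finset.mem_filter.mpr ⟨Finset.mem_univ _, not_le.mp H⟩)
    have hdev : ∀ c, |dev A K (θ / s) (stPrd A K c 0) T W v| ≤ δ * (dg A v : ℝ) := by
      intro c
      cases c
      · exact hv2'
      · exact hv1'
    rw [hR]
    unfold reg
    rw [Finset.mem_filter]
    refine ⟨Finset.mem_univ _, fun c => ?_⟩
    have hloss := h V ι A K s θ δ T W c 0 v (by linarith) hθ hA (hdev c) hv3'
    rw [ever_card] at hloss
    have hdg : (0 : ℝ) ≤ (dg A v : ℝ) := Nat.cast_nonneg _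
    have e1 : θ * (dg A v : ℝ) ≤ 1 / 8 * (dg A v : ℝ) := mul_le_mul_of_nonneg_right hθ8 hdg
    have e2 : δ * (dg A v : ℝ) ≤ 1 / 8 * (dg A v : ℝ) := mul_le_mul_of_nonneg_right hδ8 hdg
    linarith
  have hsum : mass A ≤ ∑ v ∈ R, (dg A v : ℝ) + (∑ v ∈ B1, (dg A v : ℝ) +
      (∑ v ∈ B2, (dg A v : ℝ) + ∑ v ∈ B3, (dg A v : ℝ))) := by
    have hnn : ∀ X : Finset V, 0 ≤ ∑ v ∈ X, (dg A v : ℝ) :=
      fun X => Finset.sum_nonneg fun v _ => Nat.cast_nonneg _
    have hun : ∀ X Y : Finset V, ∑ v ∈ X ∪ Y, (dg A v : ℝ) ≤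
        ∑ v ∈ X, (dg A v : ℝ) + ∑ v ∈ Y, (dg A v : ℝ) := by
      intro X Y
      have := Finset.sum_union_inter (s₁ := X) (s₂ := Y) (f := fun v => (dg A v : ℝ))
      have h5 := hnn (X ∩ Y)
      linarith
    have h4 : mass A = ∑ v ∈ R ∪ (B1 ∪ (B2 ∪ B3)), (dg A v : ℝ) := by
      unfold mass
      congr 1
      ext v
      simp only [Finset.mem_univ, true_iff]
      exact hcov v
    have h5 := hun R (B1 ∪ (B2 ∪ B3))
    have h6 := hun B1 (B2 ∪ B3)
    have h7 := hun B2 B3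
    linarith
  have h1' : ∑ v ∈ B1, (dg A v : ℝ) ≤ δ * mass A := by
    convert h1 using 2
  have h2' : ∑ v ∈ B2, (dg A v : ℝ) ≤ δ * mass A := by
    convert h2 using 2
  have h8 : δ * mass A ≤ 1 / 8 * mass A := mul_le_mul_of_nonneg_right hδ8 hM
  linarith

end Pool.Agent.Lib.MP_9b5ec2_co
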