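import Pool.Agent.Lib.MP_9b5ec2_co.Defs2

/-!
# MP_9b5ec2_co, P20: removing bad blocks
-/

set_option autoImplicit false

namespace Pool.Agent.Lib.MP_9b5ec2_co

open Finset

theorem blocks_geo1 (K : ℝ) (hK : 2 ≤ K) (b : ℕ) :
    K * ∑ i ∈ range (b - 1), K ^ (i + 1) ≤ 2 * K ^ b := by
  induction b with
  | zero => simp
  | succ b ih =>
    rcases Nat.eq_zero_or_pos b with rfl | hb
    · simp; linarith
    · have h1 : b + 1 - 1 = (b - 1) + 1 := by omega
      rw [h1, sum_range_succ, mul_add]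
      have h2 : b - 1 + 1 = b := by omega
      rw [h2]
      have h3 : 0 ≤ K ^ b := by positivity
      have h4 : 2 * K ^ b ≤ K * K ^ b := mul_le_mul_of_nonneg_right hK h3
      rw [pow_succ]
      nlinarith

theorem blocks_geo2 (K : ℝ) (hK : 2 ≤ K) (I : ℕ) : ∀ τ : ℝ, 0 ≤ τ →
    ∑ i ∈ range (I + 1), K ^ (i + 1) * (τ + ((I : ℝ) - i)) ≤ K ^ (I + 1) * (2 * τ + 4) := by
  induction I with
  | zero =>
    intro τ hτ
    simp
    nlinarith
  | succ I ih =>
    intro τ hτ
    rw [sum_range_succ]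
    have h1 := ih (τ + 1) (by linarith)
    have h2 : ∑ i ∈ range (I + 1), K ^ (i + 1) * (τ + (((I + 1 : ℕ) : ℝ) - i)) =
        ∑ i ∈ range (I + 1), K ^ (i + 1) * (τ + 1 + ((I : ℝ) - i)) := by
      refine sum_congr rfl fun i _ => ?_
      push_cast
      ring
    rw [h2]
    have h3 : 0 ≤ K ^ (I + 1) := by positivity
    have h4 : K ^ (I + 1 + 1) = K * K ^ (I + 1) := by rw [pow_succ]; ring
    rw [h4]
    have h5 : 2 * K ^ (I + 1) ≤ K * K ^ (I + 1) := mul_le_mul_of_nonneg_right hK h3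
    have h6 : (τ + 3) * (2 * K ^ (I + 1)) ≤ (τ + 3) * (K * K ^ (I + 1)) :=
      mul_le_mul_of_nonneg_left h5 (by linarith)
    have h7 : 0 ≤ K * K ^ (I + 1) := by positivity
    simp only [sub_self, add_zero]
    nlinarith

theorem blocks_geo3 (I : ℕ) :
    ∑ i ∈ range (I + 1), Real.exp (-((I : ℝ) - i)) ≤ 2 := by
  induction I with
  | zero => simp
  | succ I ih =>
    rw [sum_range_succ]
    have h2 : ∑ i ∈ range (I + 1), Real.exp (-(((I + 1 : ℕ) : ℝ) - i)) =
        Real.exp (-1) * ∑ i ∈ range (I + 1), Real.exp (-((I : ℝ) - i)) := by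
      rw [mul_sum]
      refine sum_congr rfl fun i _ => ?_
      rw [← Real.exp_add]
      congr 1
      push_cast
      ring
    rw [h2]
    have h3 : Real.exp (-1) ≤ 1 / 2 := by
      rw [Real.exp_neg]
      have : 2 ≤ Real.exp 1 := by
        have := Real.add_one_le_exp (1 : ℝ)
        linarith
      rw [inv_eq_one_div]
      exact one_div_le_one_div_of_le (by norm_num) this
    have h4 : Real.exp (-1) * ∑ i ∈ range (I + 1), Real.exp (-((I : ℝ) - i)) ≤ 1 / 2 * 2 :=
      mul_le_mul h3 ih (sum_nonneg fun i _ => (Real.exp_pos _).le) (by norm_num)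
    simp only [sub_self, neg_zero, Real.exp_zero]
    linarith

theorem blocks : BlocksStmt := by
  classical
  intro V _ Y d b K s θ δ₁ τ Dm hK hs hθ hδ hτ hDm hd
  rcases Y.eq_empty_or_nonempty with rfl | hY
  · refine ⟨∅, by simp, ?_, ?_⟩
    · simp
      positivity
    · simp
      positivity
  have hK' : (2 : ℝ) ≤ K := by exact_mod_cast hK
  have hK0 : (0 : ℝ) < K := by linarith
  obtain ⟨v₀, hv₀, hmax⟩ := Y.exists_max_image b hY
  set I := b v₀ with hI
  have hKI : (K : ℝ) ^ I ≤ Dm := (hd v₀ hv₀).1.trans (hd v₀ hv₀).2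
  obtain ⟨M, hM⟩ : ∃ M : ℕ → ℝ, ∀ i, M i = ∑ v ∈ Y.filter (fun v => b v = i), d v :=
    ⟨_, fun _ => rfl⟩
  obtain ⟨n, hn⟩ : ∃ n : ℕ → ℝ, ∀ i, n i = ((Y.filter (fun v => i + 2 ≤ b v)).card : ℝ) :=
    ⟨_, fun _ => rfl⟩
  obtain ⟨bad, hbad⟩ : ∃ bad : ℕ → Prop, ∀ i, bad i ↔
      θ * δ₁ ^ 2 * M i / (16 * s * (K : ℝ) ^ (i + 1)) < θ / s * n i + (τ + ((I : ℝ) - i)) :=
    ⟨_, fun _ => Iff.rfl⟩
  set X := Y.filter (fun v => ¬ bad (b v)) with hX
  have hd0 : ∀ v ∈ Y, 0 ≤ d v := fun v hv => le_trans (by positivity) (hd v hv).1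
  refine ⟨X, filter_subset _ _, ?_, ?_⟩
  · -- the lost mass
    have h1 : ∑ v ∈ Y \ X, d v = ∑ i ∈ (range (I + 1)).filter bad, M i := by
      have hYX : Y \ X = Y.filter (fun v => bad (b v)) := by
        ext v
        simp only [hX, mem_sdiff, mem_filter]
        tauto
      rw [hYX]
      simp_rw [hM]
      rw [← sum_fiberwise_of_maps_to (s := Y.filter (fun v => bad (b v)))
        (t := (range (I + 1)).filter bad) (g := b)]
      · refine sum_congr rfl fun i hi => ?_
        refine sum_congr ?_ fun _ _ => rfl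
        ext v
        simp only [mem_filter, mem_range] at hi ⊢
        constructor
        · rintro ⟨⟨h1, h2⟩, h3⟩
          exact ⟨h1, h3⟩
        · rintro ⟨h1, h3⟩
          exact ⟨⟨h1, h3 ▸ hi.2⟩, h3⟩
      · intro v hv
        simp only [mem_filter, mem_range] at hv ⊢
        exact ⟨by have := hmax v hv.1; omega, hv.2⟩
    rw [h1]
    have h2 : ∀ i ∈ (range (I + 1)).filter bad,
        M i ≤ 16 / δ₁ ^ 2 * ((K : ℝ) ^ (i + 1) * n i) +
          16 / δ₁ ^ 2 * (s / θ * ((K : ℝ) ^ (i + 1) * (τ + ((I : ℝ) - i)))) := by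
      intro i hi
      have hi' : bad i := (mem_filter.1 hi).2
      rw [hbad] at hi'
      have hp : 0 < 16 * s * (K : ℝ) ^ (i + 1) := by positivity
      rw [div_lt_iff₀ hp] at hi'
      have hp2 : 0 < θ * δ₁ ^ 2 := by positivity
      have h3 : M i ≤ (θ / s * n i + (τ + ((I : ℝ) - i))) * (16 * s * (K : ℝ) ^ (i + 1)) /
          (θ * δ₁ ^ 2) := by
        rw [le_div_iff₀ hp2]
        linarith
      refine h3.trans (le_of_eq ?_)
      field_simp
    have hnn : ∀ i, 0 ≤ n i := fun i => by rw [hn]; positivity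
    have h3 : ∑ i ∈ (range (I + 1)).filter bad, M i ≤
        ∑ i ∈ range (I + 1), (16 / δ₁ ^ 2 * ((K : ℝ) ^ (i + 1) * n i) +
          16 / δ₁ ^ 2 * (s / θ * ((K : ℝ) ^ (i + 1) * (τ + ((I : ℝ) - i))))) := by
      refine (sum_le_sum h2).trans (sum_le_sum_of_subset_of_nonneg (filter_subset _ _) ?_)
      intro i hi _
      have : (i : ℝ) ≤ I := by
        have := mem_range.1 hi
        exact_mod_cast Nat.lt_succ_iff.1 this
      have h5 := hnn i
      have h4 : 0 ≤ τ + ((I : ℝ) - i) := by linarith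
      positivity
    refine h3.trans ?_
    rw [sum_add_distrib, ← mul_sum, ← mul_sum, ← mul_sum, ← mul_add]
    refine mul_le_mul_of_nonneg_left ?_ (by positivity)
    refine add_le_add ?_ ?_
    · -- first sum
      have h4 : ∑ i ∈ range (I + 1), (K : ℝ) ^ (i + 1) * n i =
          ∑ v ∈ Y, ∑ i ∈ (range (I + 1)).filter (fun i => i + 2 ≤ b v), (K : ℝ) ^ (i + 1) := by
        have : ∀ i, (K : ℝ) ^ (i + 1) * n i =
            ∑ v ∈ Y, if i + 2 ≤ b v then (K : ℝ) ^ (i + 1) else 0 := by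
          intro i
          rw [← sum_filter, sum_const, nsmul_eq_mul, hn]
          ring
        simp_rw [this]
        rw [sum_comm]
        refine sum_congr rfl fun v _ => ?_
        rw [sum_filter]
      rw [h4, mul_sum]
      refine sum_le_sum fun v hv => ?_
      have h5 : ∑ i ∈ (range (I + 1)).filter (fun i => i + 2 ≤ b v), (K : ℝ) ^ (i + 1) ≤
          ∑ i ∈ range (b v - 1), (K : ℝ) ^ (i + 1) := by
        refine sum_le_sum_of_subset_of_nonneg ?_ fun i _ _ => by positivity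
        intro i hi
        simp only [mem_filter, mem_range] at hi ⊢
        omega
      have h6 := blocks_geo1 K hK' (b v)
      have h7 : (K : ℝ) ^ b v ≤ d v := (hd v hv).1
      have h8 : ∑ i ∈ range (b v - 1), (K : ℝ) ^ (i + 1) ≤ 2 * (K : ℝ) ^ b v / K := by
        rw [le_div_iff₀ hK0]
        linarith
      calc _ ≤ _ := h5
        _ ≤ _ := h8
        _ = 2 / K * (K : ℝ) ^ b v := by ring
        _ ≤ _ := mul_le_mul_of_nonneg_left h7 (by positivity)
    · -- second sum
      have h4 := blocks_geo2 K hK' I τ hτ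
      have h5 : s / θ * ∑ i ∈ range (I + 1), (K : ℝ) ^ (i + 1) * (τ + ((I : ℝ) - i)) ≤
          s / θ * ((K : ℝ) ^ (I + 1) * (2 * τ + 4)) :=
        mul_le_mul_of_nonneg_left h4 (by positivity)
      refine h5.trans ?_
      have h6 : (K : ℝ) ^ (I + 1) * (2 * τ + 4) ≤ K * Dm * (2 * τ + 4) := by
        refine mul_le_mul_of_nonneg_right ?_ (by linarith)
        rw [pow_succ, mul_comm]
        exact mul_le_mul_of_nonneg_left hKI hK0.le
      calc s / θ * ((K : ℝ) ^ (I + 1) * (2 * τ + 4)) ≤ s / θ * (K * Dm * (2 * τ + 4)) :=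
            mul_le_mul_of_nonneg_left h6 (by positivity)
        _ = _ := by ring
  · -- the sum of the exponentials
    have himg : X.image b ⊆ range (I + 1) := by
      intro i hi
      obtain ⟨v, hv, rfl⟩ := mem_image.1 hi
      have := hmax v (mem_filter.1 hv).1
      exact mem_range.2 (by omega)
    have h1 : ∀ i ∈ X.image b,
        Real.exp (θ / s * ((X.filter (fun v => i + 2 ≤ b v)).card : ℝ) -
          θ * δ₁ ^ 2 * (∑ v ∈ X.filter (fun v => b v = i), d v) /
            (16 * s * (K : ℝ) ^ (i + 1))) ≤ Real.exp (-τ) * Real.exp (-((I : ℝ) - i)) := by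
      intro i hi
      obtain ⟨v, hv, rfl⟩ := mem_image.1 hi
      have hnb : ¬ bad (b v) := (mem_filter.1 hv).2
      rw [← Real.exp_add]
      refine Real.exp_le_exp.2 ?_
      have h2 : X.filter (fun w => b w = b v) = Y.filter (fun w => b w = b v) := by
        ext w
        simp only [hX, mem_filter]
        constructor
        · rintro ⟨⟨h1, h2⟩, h3⟩
          exact ⟨h1, h3⟩
        · rintro ⟨h1, h3⟩
          exact ⟨⟨h1, h3 ▸ hnb⟩, h3⟩
      rw [h2]
      have h3 : ((X.filter (fun w => b v + 2 ≤ b w)).card : ℝ) ≤ n (b v) := by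
        rw [hn]
        exact_mod_cast card_le_card (filter_subset_filter _ (filter_subset _ _))
      have h4 : θ / s * ((X.filter (fun w => b v + 2 ≤ b w)).card : ℝ) ≤ θ / s * n (b v) :=
        mul_le_mul_of_nonneg_left h3 (by positivity)
      rw [hbad, not_lt] at hnb
      have h5 : (∑ w ∈ Y.filter (fun w => b w = b v), d w) = M (b v) := (hM _).symm
      rw [h5]
      linarith
    calc _ ≤ ∑ i ∈ X.image b, Real.exp (-τ) * Real.exp (-((I : ℝ) - i)) := sum_le_sum h1
      _ ≤ ∑ i ∈ range (I + 1), Real.exp (-τ) * Real.exp (-((I : ℝ) - i)) :=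
          sum_le_sum_of_subset_of_nonneg himg fun i _ _ => by positivity
      _ = Real.exp (-τ) * ∑ i ∈ range (I + 1), Real.exp (-((I : ℝ) - i)) := by rw [mul_sum]
      _ ≤ Real.exp (-τ) * 2 := mul_le_mul_of_nonneg_left (blocks_geo3 I) (Real.exp_pos _).le
      _ = _ := by ring

end Pool.Agent.Lib.MP_9b5ec2_co
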