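import Pool.Agent.Lib.MP_9b5ec2_co.Defs4

/-!
# Theorem of alternatives over a box
-/

set_option autoImplicit false

namespace Pool.Agent.Lib.MP_9b5ec2_co

open Finset

namespace BoxAltM

/-- the affine map -/
def bxMap {I J : Type} [Fintype J] (M : I → J → ℝ) (q : I → ℝ) (x : J → ℝ) (i : I) : ℝ :=
  ∑ j, M i j * x j - q i

lemma bx_cont {I J : Type} [Fintype J] (M : I → J → ℝ) (q : I → ℝ) : Continuous (bxMap M q) := by
  refine continuous_pi fun i => ?_
  unfold bxMap
  fun_prop

lemma bx_convex {I J : Type} [Fintype J] (M : I → J → ℝ) (q : I → ℝ) (S : Set (J → ℝ))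
    (hS : Convex ℝ S) : Convex ℝ (bxMap M q '' S) := by
  rintro _ ⟨p, hp, rfl⟩ _ ⟨r, hr, rfl⟩ a b ha hb hab
  refine ⟨a • p + b • r, hS hp hr ha hb hab, ?_⟩
  funext i
  show ∑ j, M i j * (a * p j + b * r j) - q i =
    a * (∑ j, M i j * p j - q i) + b * (∑ j, M i j * r j - q i)
  have h1 : ∑ j, M i j * (a * p j + b * r j) =
      a * ∑ j, M i j * p j + b * ∑ j, M i j * r j := by
    rw [mul_sum, mul_sum, ← sum_add_distrib]
    exact sum_congr rfl fun j _ => by ring
  rw [h1]
  have : b = 1 - a := by linarith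
  subst this
  ring

end BoxAltM

open BoxAltM in
theorem boxAlt : BoxAltStmt := by
  intro I J _ _ M q B hB
  by_cases hpk : ∃ x : J → ℝ, (∀ j, 0 ≤ x j ∧ x j ≤ B j) ∧ ∀ i, ∑ j, M i j * x j ≤ q i
  · exact Or.inl hpk
  right
  classical
  let S : Set (J → ℝ) := Set.Icc 0 B
  have hmemS : ∀ x : J → ℝ, x ∈ S ↔ ∀ j, 0 ≤ x j ∧ x j ≤ B j := by
    intro x
    constructor
    · intro h j
      exact ⟨h.1 j, h.2 j⟩
    · intro h
      exact ⟨fun j => (h j).1, fun j => (h j).2⟩
  let K : Set (I → ℝ) := bxMap M q '' S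
  let N : Set (I → ℝ) := {z | ∀ v, z v ≤ 0}
  have hK : IsCompact K := (isCompact_Icc).image (bx_cont M q)
  have hKc : Convex ℝ K := bx_convex M q S (convex_Icc 0 B)
  have hN : IsClosed N := by
    have : N = ⋂ v : I, {z : I → ℝ | z v ≤ 0} := by
      ext z
      simp [N]
    rw [this]
    exact isClosed_iInter fun v => isClosed_le (continuous_apply v) continuous_const
  have hNc : Convex ℝ N := by
    intro z hz w hw a b ha hb _ v
    show a * z v + b * w v ≤ 0
    have h1 := mul_nonneg ha (neg_nonneg.mpr (hz v))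
    have h2 := mul_nonneg hb (neg_nonneg.mpr (hw v))
    linarith
  have hdis : Disjoint K N := by
    rw [Set.disjoint_left]
    rintro _ ⟨x, hx, rfl⟩ hz
    apply hpk
    refine ⟨x, (hmemS x).1 hx, fun i => ?_⟩
    have h1 : ∑ j, M i j * x j - q i ≤ 0 := hz i
    linarith
  obtain ⟨f, u, w, hfK, huw, hfN⟩ := geometric_hahn_banach_compact_closed hKc hK hNc hN hdis
  have hw0 : w < 0 := by
    have := hfN 0 (fun v => le_rfl)
    rwa [map_zero] at this
  let y : I → ℝ := fun v => -f (Pi.single v 1)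
  have hy : ∀ v, y v = -f (Pi.single v 1) := fun _ => rfl
  have hf : ∀ z : I → ℝ, f z = -∑ v, z v * y v := by
    intro z
    have h1 : z = ∑ v, z v • (Pi.single v 1 : I → ℝ) := by
      funext u
      rw [Finset.sum_apply]
      simp only [Pi.smul_apply, smul_eq_mul]
      rw [Finset.sum_eq_single u]
      · simp
      · intro b _ hb
        rw [Pi.single_apply, if_neg (Ne.symm hb), mul_zero]
      · intro h
        exact absurd (mem_univ u) h
    conv_lhs => rw [h1]
    rw [map_sum, ← sum_neg_distrib]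
    refine sum_congr rfl fun v _ => ?_
    rw [map_smul, smul_eq_mul, hy]
    ring
  have hy0 : ∀ v, 0 ≤ y v := by
    intro v
    by_contra hneg
    push Not at hneg
    have hr : 0 < w / y v := div_pos_of_neg_of_neg hw0 hneg
    have h1 := hfN ((-(w / y v)) • (Pi.single v 1 : I → ℝ)) (fun u => by
      show -(w / y v) * (Pi.single v 1 : I → ℝ) u ≤ 0
      rw [Pi.single_apply]
      split_ifs
      · linarith
      · simp)
    rw [map_smul, smul_eq_mul] at h1
    have h2 : -(w / y v) * f (Pi.single v 1) = w := by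
      have : f (Pi.single v 1) = -y v := by rw [hy]; ring
      rw [this, neg_mul_neg]
      exact div_mul_cancel₀ _ hneg.ne
    rw [h2] at h1
    exact lt_irrefl _ h1
  refine ⟨y, hy0, fun x hx => ?_⟩
  have h1 := hfK (bxMap M q x) ⟨x, (hmemS x).2 hx, rfl⟩
  rw [hf] at h1
  have h2 : ∑ v, bxMap M q x v * y v =
      ∑ i, y i * ∑ j, M i j * x j - ∑ i, y i * q i := by
    rw [← sum_sub_distrib]
    refine sum_congr rfl fun i _ => ?_
    unfold bxMap
    ring
  rw [h2] at h1
  linarith

end Pool.Agent.Lib.MP_9b5ec2_co
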