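import Pool.Agent.Lib.MP_9b5ec2_co.Defs2

set_option autoImplicit false

namespace Pool.Agent.Lib.MP_9b5ec2_co

open Finset

section CodegSec

variable {V ι : Type} [Fintype V] [DecidableEq V] [Fintype ι] [DecidableEq ι]

lemma codeg_eq_sum (A : ι → Finset V) (u v : V) :
    codeg A u v = ∑ e ∈ univ.filter (fun e => v ∈ A e), if u ∈ A e then 1 else 0 := by
  unfold codeg
  rw [Finset.card_filter, Finset.sum_filter]
  refine Finset.sum_congr rfl fun e _ => ?_
  by_cases h1 : u ∈ A e <;> by_cases h2 : v ∈ A e <;> simp [h1, h2]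

lemma codeg_sum_on (A : ι → Finset V) (v : V) (S : Finset V) :
    ∑ u ∈ S, codeg A u v = ∑ e ∈ univ.filter (fun e => v ∈ A e), (A e ∩ S).card := by
  simp_rw [codeg_eq_sum]
  rw [Finset.sum_comm]
  refine Finset.sum_congr rfl fun e _ => ?_
  rw [← Finset.card_filter, Finset.inter_comm, Finset.filter_mem_eq_inter]

lemma codeg_sq_sum (A : ι → Finset V) (v : V) (S : Finset V) :
    ∑ u ∈ S, codeg A u v ^ 2 = ∑ e ∈ univ.filter (fun e => v ∈ A e),
      ∑ f ∈ univ.filter (fun e => v ∈ A e), (A e ∩ A f ∩ S).card := by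
  simp_rw [codeg_eq_sum, sq, Finset.sum_mul_sum]
  rw [Finset.sum_comm]
  refine Finset.sum_congr rfl fun e _ => ?_
  rw [Finset.sum_comm]
  refine Finset.sum_congr rfl fun f _ => ?_
  have h : ∀ u : V, ((if u ∈ A e then 1 else 0) * (if u ∈ A f then 1 else 0) : ℕ) =
      if u ∈ A e ∩ A f then 1 else 0 := by
    intro u
    by_cases h1 : u ∈ A e <;> by_cases h2 : u ∈ A f <;> simp [h1, h2]
  simp_rw [h]
  rw [← Finset.card_filter, Finset.inter_comm (A e ∩ A f), Finset.filter_mem_eq_inter]

theorem codegrees : CodegStmt := by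
  intro V ι _ _ _ _ A s γ v hs hγ hA hAA
  have hdg : dg A v = (univ.filter (fun e => v ∈ A e)).card := rfl
  refine ⟨?_, ?_, ?_⟩
  · have h := codeg_sum_on A v univ
    have h' : ∑ u, (codeg A u v : ℝ) =
        ∑ e ∈ univ.filter (fun e => v ∈ A e), ((A e ∩ univ).card : ℝ) := by
      exact_mod_cast h
    rw [h', hdg]
    calc ∑ e ∈ univ.filter (fun e => v ∈ A e), ((A e ∩ univ).card : ℝ)
        ≤ ∑ e ∈ univ.filter (fun e => v ∈ A e), 2 * s := by
          refine Finset.sum_le_sum fun e _ => ?_
          rw [Finset.inter_univ]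
          exact hA e
      _ = 2 * s * ((univ.filter (fun e => v ∈ A e)).card : ℝ) := by
          rw [Finset.sum_const, nsmul_eq_mul, mul_comm]
  · have h := codeg_sq_sum A v (univ.erase v)
    have h' : ∑ u ∈ univ.erase v, (codeg A u v : ℝ) ^ 2 =
        ∑ e ∈ univ.filter (fun e => v ∈ A e), ∑ f ∈ univ.filter (fun e => v ∈ A e),
          ((A e ∩ A f ∩ univ.erase v).card : ℝ) := by
      exact_mod_cast h
    rw [h', hdg]
    have hle : ∀ e ∈ univ.filter (fun e => v ∈ A e),
        ∑ f ∈ univ.filter (fun e => v ∈ A e), ((A e ∩ A f ∩ univ.erase v).card : ℝ) ≤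
          2 * s + γ * s * ((univ.filter (fun e => v ∈ A e)).card : ℝ) := by
      intro e he
      rw [← Finset.add_sum_erase _ _ he]
      refine add_le_add ?_ ?_
      · refine le_trans ?_ (hA e)
        exact_mod_cast Finset.card_le_card (fun x hx => by
          simp only [Finset.mem_inter] at hx; exact hx.1.1)
      · calc ∑ f ∈ (univ.filter (fun e => v ∈ A e)).erase e,
              ((A e ∩ A f ∩ univ.erase v).card : ℝ)
            ≤ ∑ f ∈ (univ.filter (fun e => v ∈ A e)).erase e, γ * s := by
              refine Finset.sum_le_sum fun f hf => ?_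
              refine le_trans ?_ (hAA e f (Finset.ne_of_mem_erase hf).symm)
              exact_mod_cast Finset.card_le_card Finset.inter_subset_left
          _ = γ * s * (((univ.filter (fun e => v ∈ A e)).erase e).card : ℝ) := by
              rw [Finset.sum_const, nsmul_eq_mul, mul_comm]
          _ ≤ _ := by
              refine mul_le_mul_of_nonneg_left ?_ (mul_nonneg hγ hs)
              exact_mod_cast Finset.card_le_card (Finset.erase_subset _ _)
    refine (Finset.sum_le_sum hle).trans (le_of_eq ?_)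
    rw [Finset.sum_const, nsmul_eq_mul]
    ring
  · intro T
    have h := codeg_sum_on A v (univ.erase v ∩ T)
    have h' : ∑ u ∈ univ.erase v ∩ T, (codeg A u v : ℝ) =
        ∑ e ∈ univ.filter (fun e => v ∈ A e), ((A e ∩ (univ.erase v ∩ T)).card : ℝ) := by
      exact_mod_cast h
    rw [h']
    unfold hit
    push_cast
    refine Finset.sum_congr rfl fun e _ => ?_
    congr 2
    ext x
    simp only [Finset.mem_inter, Finset.mem_erase, Finset.mem_univ]
    tauto

end CodegSec

end Pool.Agent.Lib.MP_9b5ec2_co
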