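import Pool.Agent.Lib.MP_9b5ec2_co.Defs2

/-!
# MP_9b5ec2_co: preparation
-/

set_option autoImplicit false

namespace Pool.Agent.Lib.MP_9b5ec2_co

open Finset

section prepAux

variable {V ι : Type} [Fintype V] [DecidableEq V] [Fintype ι] [DecidableEq ι]

theorem prep_dg (A : ι → Finset V) (v : V) :
    (dg A v : ℝ) = ∑ e, if v ∈ A e then (1 : ℝ) else 0 := by
  unfold dg deg
  rw [Finset.card_filter]
  push_cast
  rfl

theorem prep_card (B : Finset V) : (B.card : ℝ) = ∑ v, if v ∈ B then (1 : ℝ) else 0 := by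
  rw [Finset.sum_ite_mem, Finset.univ_inter, Finset.sum_const, nsmul_eq_mul, mul_one]

theorem prep_sum_dg (A : ι → Finset V) : ∑ v, (dg A v : ℝ) = ∑ e, ((A e).card : ℝ) := by
  simp_rw [prep_dg, prep_card]
  rw [Finset.sum_comm]

theorem prep_sum_sq (A : ι → Finset V) :
    ∑ v, (dg A v : ℝ) ^ 2 = ∑ e, ∑ f, ((A e ∩ A f).card : ℝ) := by
  have h1 : ∀ v, (dg A v : ℝ) ^ 2 = ∑ e, ∑ f, if v ∈ A e ∩ A f then (1 : ℝ) else 0 := by
    intro v
    rw [sq, prep_dg, Finset.sum_mul_sum]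
    refine Finset.sum_congr rfl fun e _ => Finset.sum_congr rfl fun f _ => ?_
    by_cases h2 : v ∈ A e <;> by_cases h3 : v ∈ A f <;> simp [h2, h3]
  simp_rw [h1, prep_card]
  rw [Finset.sum_comm]
  refine Finset.sum_congr rfl fun e _ => ?_
  rw [Finset.sum_comm]

theorem prep_sum_sq_le (A : ι → Finset V) (s γ : ℝ) (hs : 0 ≤ s) (hγ : 0 ≤ γ)
    (h2 : ∀ e, ((A e).card : ℝ) ≤ 2 * s)
    (hg : ∀ e f, e ≠ f → ((A e ∩ A f).card : ℝ) ≤ γ * s) :
    ∑ v, (dg A v : ℝ) ^ 2 ≤ 2 * s * (Fintype.card ι : ℝ) + γ * s * (Fintype.card ι : ℝ) ^ 2 := by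
  rw [prep_sum_sq]
  have h3 : ∀ e, ∑ f, ((A e ∩ A f).card : ℝ) ≤ 2 * s + γ * s * (Fintype.card ι : ℝ) := by
    intro e
    calc ∑ f, ((A e ∩ A f).card : ℝ) ≤ ∑ f, ((if f = e then 2 * s else 0) + γ * s) := by
          refine Finset.sum_le_sum fun f _ => ?_
          by_cases hf : f = e
          · subst hf
            rw [Finset.inter_self, if_pos rfl]
            have := h2 f
            have h4 : 0 ≤ γ * s := mul_nonneg hγ hs
            linarith
          · rw [if_neg hf, zero_add]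
            exact hg e f (fun h => hf h.symm)
      _ = 2 * s + γ * s * (Fintype.card ι : ℝ) := by
          rw [Finset.sum_add_distrib, Finset.sum_ite_eq', if_pos (Finset.mem_univ _),
            Finset.sum_const, nsmul_eq_mul, Finset.card_univ]
          ring
  calc ∑ e, ∑ f, ((A e ∩ A f).card : ℝ) ≤ ∑ _e : ι, (2 * s + γ * s * (Fintype.card ι : ℝ)) :=
        Finset.sum_le_sum fun e _ => h3 e
    _ = _ := by
        rw [Finset.sum_const, nsmul_eq_mul, Finset.card_univ]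
        ring

end prepAux

theorem prep (h : BlocksStmt) : PrepStmt := by
  intro θ δ₁ ξ hθ hδ hδ1 hξ
  set τ₀ : ℝ := max 0 (Real.log (2 / ξ)) with hτ₀
  have hτ0 : 0 ≤ τ₀ := le_max_left _ _
  have hτexp : 2 * Real.exp (-τ₀) ≤ ξ := by
    have h1 : Real.exp (-τ₀) ≤ Real.exp (-Real.log (2 / ξ)) :=
      Real.exp_le_exp.2 (neg_le_neg (le_max_right _ _))
    rw [Real.exp_neg (Real.log (2 / ξ)), Real.exp_log (by positivity), inv_div] at h1
    linarith
  obtain ⟨K₁, hK₁⟩ := exists_nat_ge (512 / δ₁ ^ 2)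
  refine ⟨max 2 K₁, le_max_left _ _, ?_⟩
  intro K hK Λ₁ hΛ₁
  have hK2 : 2 ≤ K := (le_max_left _ _).trans hK
  have hK2R : (2 : ℝ) ≤ K := by exact_mod_cast hK2
  have hKb : 512 / δ₁ ^ 2 ≤ (K : ℝ) := hK₁.trans (by exact_mod_cast (le_max_right _ _).trans hK)
  set ε₂ : ℝ := min 1 (θ * δ₁ ^ 2 / (128 * K * (2 * τ₀ + 4))) with hε₂
  have hεpos : 0 < ε₂ := lt_min one_pos (by positivity)
  have hε1 : ε₂ ≤ 1 := min_le_left _ _
  have hεb : ε₂ * (128 * K * (2 * τ₀ + 4)) ≤ θ * δ₁ ^ 2 := by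
    have := min_le_right (1 : ℝ) (θ * δ₁ ^ 2 / (128 * K * (2 * τ₀ + 4)))
    rwa [← hε₂, le_div_iff₀ (by positivity)] at this
  set Λ : ℝ := max (8 * Λ₁) (1024 / ε₂) with hΛ
  have hΛ1 : 8 * Λ₁ ≤ Λ := le_max_left _ _
  have hΛ2 : 1024 / ε₂ ≤ Λ := le_max_right _ _
  have hΛpos : 0 < Λ := lt_of_lt_of_le (by positivity) hΛ2
  refine ⟨Λ, ε₂ / 512, hΛpos, by positivity, ?_⟩
  intro V ι _ _ _ _ A s hs hV hA hAA hN
  set n : ℝ := (Fintype.card V : ℝ) with hn
  set N : ℝ := (Fintype.card ι : ℝ) with hNd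
  have hnpos : 0 < n := by rw [hn]; exact_mod_cast hV
  have hspos : 0 < s := by linarith
  have hNpos : 0 < N := by
    by_contra h0
    have h1 : N = 0 := le_antisymm (not_lt.1 h0) (Nat.cast_nonneg _)
    rw [h1, zero_mul] at hN
    have : 0 < Λ * n := by positivity
    linarith
  have hNnat : 0 < Fintype.card ι := Nat.cast_pos.1 (by rw [← hNd]; exact hNpos)
  obtain ⟨e₀⟩ := Fintype.card_pos_iff.1 hNnat
  have hsn : s ≤ n := by
    refine (hA e₀).1.trans ?_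
    rw [hn]
    exact_mod_cast Finset.card_le_univ _
  have hNΛ : Λ ≤ N := by
    have h1 : Λ * s ≤ N * s := (mul_le_mul_of_nonneg_left hsn hΛpos.le).trans hN
    exact le_of_mul_le_mul_right h1 hspos
  have htot := prep_sum_dg A
  have htot1 : N * s ≤ ∑ v, (dg A v : ℝ) := by
    rw [htot]
    calc N * s = ∑ _e : ι, s := by rw [Finset.sum_const, nsmul_eq_mul, Finset.card_univ]
      _ ≤ _ := Finset.sum_le_sum fun e _ => (hA e).1
  have htot2 : ∑ v, (dg A v : ℝ) ≤ 2 * (N * s) := by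
    rw [htot]
    calc ∑ e, ((A e).card : ℝ) ≤ ∑ _e : ι, 2 * s := Finset.sum_le_sum fun e _ => (hA e).2
      _ = 2 * (N * s) := by rw [Finset.sum_const, nsmul_eq_mul, Finset.card_univ]; ring
  -- (1)
  set V₁ := univ.filter (fun v : V => (dg A v : ℝ) < Λ₁) with hV₁
  set V₂ := univ.filter (fun v : V => ε₂ * N < (dg A v : ℝ)) with hV₂
  set Y := univ.filter (fun v : V => Λ₁ ≤ (dg A v : ℝ) ∧ (dg A v : ℝ) ≤ ε₂ * N) with hY
  have hm1 : ∑ v ∈ V₁, (dg A v : ℝ) ≤ N * s / 8 := by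
    calc ∑ v ∈ V₁, (dg A v : ℝ) ≤ ∑ _v ∈ V₁, Λ₁ :=
          Finset.sum_le_sum fun v hv => (Finset.mem_filter.1 hv).2.le
      _ = V₁.card * Λ₁ := by rw [Finset.sum_const, nsmul_eq_mul]
      _ ≤ n * Λ₁ := by
          refine mul_le_mul_of_nonneg_right ?_ (by linarith)
          rw [hn]
          exact_mod_cast Finset.card_le_univ _
      _ ≤ N * s / 8 := by
          have h1 : 8 * Λ₁ * n ≤ Λ * n := mul_le_mul_of_nonneg_right hΛ1 hnpos.le
          linarith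
  -- (2)
  have hV2card : (V₂.card : ℝ) * ε₂ ≤ 2 * s := by
    have h1 : (V₂.card : ℝ) * (ε₂ * N) ≤ 2 * (N * s) := by
      calc (V₂.card : ℝ) * (ε₂ * N) = ∑ _v ∈ V₂, ε₂ * N := by
            rw [Finset.sum_const, nsmul_eq_mul]
        _ ≤ ∑ v ∈ V₂, (dg A v : ℝ) :=
            Finset.sum_le_sum fun v hv => (Finset.mem_filter.1 hv).2.le
        _ ≤ ∑ v, (dg A v : ℝ) :=
            Finset.sum_le_sum_of_subset_of_nonneg (Finset.subset_univ _)
              fun v _ _ => Nat.cast_nonneg _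
        _ ≤ _ := htot2
    have h2 : ((V₂.card : ℝ) * ε₂) * N ≤ (2 * s) * N := by linarith
    exact le_of_mul_le_mul_right h2 hNpos
  have hm2 : ∑ v ∈ V₂, (dg A v : ℝ) ≤ N * s / 8 := by
    have hCS : (∑ v ∈ V₂, (dg A v : ℝ)) ^ 2 ≤ V₂.card * ∑ v ∈ V₂, (dg A v : ℝ) ^ 2 :=
      sq_sum_le_card_mul_sum_sq
    have hsq : ∑ v ∈ V₂, (dg A v : ℝ) ^ 2 ≤ 2 * s * N + ε₂ / 512 * s * N ^ 2 :=
      (Finset.sum_le_sum_of_subset_of_nonneg (Finset.subset_univ _)
        fun v _ _ => sq_nonneg _).trans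
        (prep_sum_sq_le A s (ε₂ / 512) hspos.le (by positivity) (fun e => (hA e).2) hAA)
    have hN2 : 2 * s * N ≤ ε₂ / 512 * s * N ^ 2 := by
      have h1 : 1024 ≤ N * ε₂ := by
        have := hΛ2.trans hNΛ
        rwa [div_le_iff₀ hεpos] at this
      have h2 : 0 ≤ s * N * (N * ε₂ - 1024) := by
        have : 0 ≤ N * ε₂ - 1024 := by linarith
        positivity
      nlinarith
    have hbig : ε₂ * (∑ v ∈ V₂, (dg A v : ℝ)) ^ 2 ≤ ε₂ * (N * s / 8) ^ 2 := by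
      calc ε₂ * (∑ v ∈ V₂, (dg A v : ℝ)) ^ 2
          ≤ ε₂ * (V₂.card * ∑ v ∈ V₂, (dg A v : ℝ) ^ 2) := mul_le_mul_of_nonneg_left hCS hεpos.le
        _ = (V₂.card * ε₂) * ∑ v ∈ V₂, (dg A v : ℝ) ^ 2 := by ring
        _ ≤ (2 * s) * (2 * (ε₂ / 512 * s * N ^ 2)) := by
            refine mul_le_mul hV2card (by linarith) (Finset.sum_nonneg fun v _ => sq_nonneg _)
              (by positivity)
        _ = ε₂ * (N * s) ^ 2 / 128 := by ring
        _ ≤ ε₂ * (N * s / 8) ^ 2 := by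
            have : 0 ≤ ε₂ * (N * s) ^ 2 := by positivity
            nlinarith
    have hbig' := le_of_mul_le_mul_left hbig hεpos
    exact le_of_sq_le_sq hbig' (by positivity)
  -- (3)
  obtain ⟨X, hXY, hX1, hX2⟩ := h V Y (fun v => (dg A v : ℝ)) (blk A K) K s θ δ₁ τ₀ (ε₂ * N) hK2
    hspos hθ hδ hτ0 (by positivity) (by
      intro v hv
      obtain ⟨h1, h2⟩ := (Finset.mem_filter.1 hv).2
      refine ⟨?_, h2⟩
      have h3 : dg A v ≠ 0 := by
        intro h0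
        rw [h0] at h1
        norm_num at h1
        linarith
      unfold blk
      exact_mod_cast Nat.pow_log_le_self K h3)
  have hYle : ∑ v ∈ Y, (dg A v : ℝ) ≤ 2 * (N * s) :=
    (Finset.sum_le_sum_of_subset_of_nonneg (Finset.subset_univ _)
      fun v _ _ => Nat.cast_nonneg _).trans htot2
  have hm3 : ∑ v ∈ Y \ X, (dg A v : ℝ) ≤ N * s / 8 + N * s / 8 := by
    refine hX1.trans ?_
    have hd2 : 0 < δ₁ ^ 2 := by positivity
    have e1 : 16 / δ₁ ^ 2 * (2 / K * ∑ v ∈ Y, (dg A v : ℝ)) ≤ N * s / 8 := by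
      calc 16 / δ₁ ^ 2 * (2 / K * ∑ v ∈ Y, (dg A v : ℝ))
          ≤ 16 / δ₁ ^ 2 * (2 / K * (2 * (N * s))) := by gcongr
        _ = (512 / δ₁ ^ 2) / K * (N * s / 8) := by ring
        _ ≤ 1 * (N * s / 8) := by
            refine mul_le_mul_of_nonneg_right ?_ (by positivity)
            rw [div_le_one (by positivity)]
            exact hKb
        _ = N * s / 8 := one_mul _
    have e2 : 16 / δ₁ ^ 2 * (s / θ * K * (ε₂ * N) * (2 * τ₀ + 4)) ≤ N * s / 8 := by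
      have e3 : 16 / δ₁ ^ 2 * (s / θ * K * (ε₂ * N) * (2 * τ₀ + 4)) =
          (ε₂ * (128 * K * (2 * τ₀ + 4))) / (θ * δ₁ ^ 2) * (N * s / 8) := by
        field_simp
        ring
      rw [e3]
      calc (ε₂ * (128 * K * (2 * τ₀ + 4))) / (θ * δ₁ ^ 2) * (N * s / 8) ≤ 1 * (N * s / 8) := by
            refine mul_le_mul_of_nonneg_right ?_ (by positivity)
            rw [div_le_one (by positivity)]
            exact hεb
        _ = N * s / 8 := one_mul _
    rw [mul_add]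
    exact add_le_add e1 e2
  refine ⟨X, ?_, ?_, ?_⟩
  · intro v hv
    exact (Finset.mem_filter.1 (hXY hv)).2.1
  · have hsplit : ∑ v, (dg A v : ℝ) ≤ ∑ v ∈ V₁, (dg A v : ℝ) + ∑ v ∈ V₂, (dg A v : ℝ) +
        (∑ v ∈ Y \ X, (dg A v : ℝ) + ∑ v ∈ X, (dg A v : ℝ)) := by
      rw [Finset.sum_sdiff hXY]
      have h1 : ∑ v, (dg A v : ℝ) ≤ ∑ v ∈ V₁ ∪ V₂ ∪ Y, (dg A v : ℝ) := by
        refine Finset.sum_le_sum_of_subset_of_nonneg ?_ fun v _ _ => Nat.cast_nonneg _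
        intro v _
        rw [Finset.mem_union, Finset.mem_union, hV₁, hV₂, hY, Finset.mem_filter,
          Finset.mem_filter, Finset.mem_filter]
        by_cases h2 : (dg A v : ℝ) < Λ₁
        · exact Or.inl (Or.inl ⟨Finset.mem_univ _, h2⟩)
        · by_cases h3 : ε₂ * N < (dg A v : ℝ)
          · exact Or.inl (Or.inr ⟨Finset.mem_univ _, h3⟩)
          · exact Or.inr ⟨Finset.mem_univ _, not_lt.1 h2, not_lt.1 h3⟩
      have hnn : ∀ S : Finset V, 0 ≤ ∑ v ∈ S, (dg A v : ℝ) := fun S =>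
        Finset.sum_nonneg fun v _ => Nat.cast_nonneg _
      have hun : ∀ S T : Finset V, ∑ v ∈ S ∪ T, (dg A v : ℝ) ≤
          ∑ v ∈ S, (dg A v : ℝ) + ∑ v ∈ T, (dg A v : ℝ) := by
        intro S T
        have := Finset.sum_union_inter (s₁ := S) (s₂ := T) (f := fun v => (dg A v : ℝ))
        linarith [hnn (S ∩ T)]
      linarith [hun (V₁ ∪ V₂) Y, hun V₁ V₂]
    linarith
  · refine le_trans (le_of_eq ?_) (hX2.trans hτexp)
    refine Finset.sum_congr rfl fun i _ => ?_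
    have h1 : X ∩ above A K (i + 2) = X.filter (fun v => i + 2 ≤ blk A K v) := by
      ext v
      simp [above]
    rw [h1]

end Pool.Agent.Lib.MP_9b5ec2_co
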