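import Mathlib
import Pool.Agent.Lib.MP_9b5ec2_co.Defs3
import Pool.Agent.Lib.MP_9b5ec2_co.Codeg
import Pool.Agent.Lib.MP_9b5ec2_co.Prep

/-! Consequences of averaged almost disjointness. -/

set_option autoImplicit false

namespace Pool.Agent.Lib.MP_9b5ec2_co

open Finset

section cdFactsAux

variable {V ι : Type} [Fintype V] [DecidableEq V] [Fintype ι] [DecidableEq ι]

theorem cdFacts_codeg (A : ι → Finset V) (v : V) :
    ∑ u, (codeg A u v : ℝ) ^ 2 =
      ∑ e, ∑ f, if v ∈ A e ∩ A f then ((A e ∩ A f).card : ℝ) else 0 := by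
  have h := codeg_sq_sum A v univ
  have h' : ∑ u, (codeg A u v : ℝ) ^ 2 =
      ∑ e ∈ univ.filter (fun e => v ∈ A e), ∑ f ∈ univ.filter (fun e => v ∈ A e),
        ((A e ∩ A f ∩ univ).card : ℝ) := by
    exact_mod_cast h
  rw [h', Finset.sum_filter]
  refine Finset.sum_congr rfl fun e _ => ?_
  by_cases he : v ∈ A e
  · rw [if_pos he, Finset.sum_filter]
    refine Finset.sum_congr rfl fun f _ => ?_
    by_cases hf : v ∈ A f
    · rw [if_pos hf, if_pos (Finset.mem_inter.2 ⟨he, hf⟩), Finset.inter_univ]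
    · rw [if_neg hf, if_neg (fun h2 => hf (Finset.mem_inter.1 h2).2)]
  · rw [if_neg he]
    symm
    refine Finset.sum_eq_zero fun f _ => ?_
    rw [if_neg (fun h2 => he (Finset.mem_inter.1 h2).1)]

theorem cdFacts_key (A : ι → Finset V) (W : Finset V) :
    ∑ e, ∑ f, ((A e ∩ A f ∩ W).card : ℝ) * ((A e ∩ A f).card : ℝ) =
      ∑ v ∈ W, ∑ u, (codeg A u v : ℝ) ^ 2 := by
  simp_rw [cdFacts_codeg]
  symm
  rw [Finset.sum_comm]
  refine Finset.sum_congr rfl fun e _ => ?_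
  rw [Finset.sum_comm]
  refine Finset.sum_congr rfl fun f _ => ?_
  rw [← Finset.sum_filter, Finset.sum_const, nsmul_eq_mul, Finset.filter_mem_eq_inter,
    Finset.inter_comm W]

theorem cdFacts_two (A : ι → Finset V) (s γ : ℝ) (h : CD A s γ) (W : Finset V) :
    ∑ e, ∑ f, ((A e ∩ A f ∩ W).card : ℝ) ^ 2 ≤ γ * s * ∑ v ∈ W, (dg A v : ℝ) ^ 2 := by
  calc ∑ e, ∑ f, ((A e ∩ A f ∩ W).card : ℝ) ^ 2
      ≤ ∑ e, ∑ f, ((A e ∩ A f ∩ W).card : ℝ) * ((A e ∩ A f).card : ℝ) := by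
        refine Finset.sum_le_sum fun e _ => Finset.sum_le_sum fun f _ => ?_
        rw [sq]
        refine mul_le_mul_of_nonneg_left ?_ (Nat.cast_nonneg _)
        exact_mod_cast Finset.card_le_card Finset.inter_subset_left
    _ = ∑ v ∈ W, ∑ u, (codeg A u v : ℝ) ^ 2 := cdFacts_key A W
    _ ≤ ∑ v ∈ W, γ * s * (dg A v : ℝ) ^ 2 := Finset.sum_le_sum fun v _ => h v
    _ = γ * s * ∑ v ∈ W, (dg A v : ℝ) ^ 2 := by rw [Finset.mul_sum]

end cdFactsAux

theorem cdFacts : CDFactsStmt := by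
  intro V ι _ _ _ _ A s γ hs hγ h
  refine ⟨?_, cdFacts_two A s γ h⟩
  have h2 := cdFacts_two A s γ h univ
  have hB := prep_sum_sq A
  set B : ℝ := ∑ v, (dg A v : ℝ) ^ 2 with hBdef
  set N : ℝ := (Fintype.card ι : ℝ) with hN
  have hN0 : 0 ≤ N := Nat.cast_nonneg _
  have hB0 : 0 ≤ B := Finset.sum_nonneg fun v _ => sq_nonneg _
  have hcs : B ^ 2 ≤ N ^ 2 * (γ * s * B) := by
    have h3 : B = ∑ p : ι × ι, ((A p.1 ∩ A p.2).card : ℝ) := by
      rw [hB, Fintype.sum_prod_type]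
    have h4 := sq_sum_le_card_mul_sum_sq (s := (univ : Finset (ι × ι)))
      (f := fun p => ((A p.1 ∩ A p.2).card : ℝ))
    have h5 : ∑ p : ι × ι, ((A p.1 ∩ A p.2).card : ℝ) ^ 2 ≤ γ * s * B := by
      rw [Fintype.sum_prod_type]
      refine le_trans (le_of_eq ?_) h2
      refine Finset.sum_congr rfl fun e _ => Finset.sum_congr rfl fun f _ => ?_
      rw [Finset.inter_univ]
    have h6 : ((univ : Finset (ι × ι)).card : ℝ) = N ^ 2 := by
      rw [Finset.card_univ, Fintype.card_prod]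
      push_cast
      rw [hN]
      ring
    rw [h6] at h4
    rw [h3] at h5 ⊢
    exact h4.trans (mul_le_mul_of_nonneg_left h5 (sq_nonneg _))
  rcases hB0.eq_or_lt with h0 | hpos
  · rw [← h0]
    positivity
  · have h7 : B * B ≤ (γ * s * N ^ 2) * B := by nlinarith [hcs]
    exact le_of_mul_le_mul_right h7 hpos

end Pool.Agent.Lib.MP_9b5ec2_co
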