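import Mathlib
import Pool.Agent.Lib.MP_9b5ec2_co.Defs3

/-!
# Expectation for random sets of independent points with different densities (MP_9b5ec2_co)
-/

set_option autoImplicit false

namespace Pool.Agent.Lib.MP_9b5ec2_co

open Finset

/-- The expectation of `f T` for a random subset `T` of `X` that contains every `v ∈ X`
independently with probability `p v`. -/
noncomputable def PEx {V : Type} [DecidableEq V] (p : V → ℝ) (X : Finset V)
    (f : Finset V → ℝ) : ℝ :=
  ∑ T ∈ X.powerset, (∏ v ∈ T, p v) * (∏ v ∈ X \ T, (1 - p v)) * f T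

variable {V : Type} [DecidableEq V]

theorem PEx_empty (p : V → ℝ) (f : Finset V → ℝ) : PEx p ∅ f = f ∅ := by
  unfold PEx
  simp

theorem PEx_insert (p : V → ℝ) (X : Finset V) {a : V} (ha : a ∉ X) (f : Finset V → ℝ) :
    PEx p (insert a X) f = (1 - p a) * PEx p X f + p a * PEx p X (fun T => f (insert a T)) := by
  unfold PEx
  rw [Finset.sum_powerset_insert ha, Finset.mul_sum, Finset.mul_sum]
  congr 1
  · refine Finset.sum_congr rfl fun T hT => ?_
    have hT' : T ⊆ X := Finset.mem_powerset.1 hT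
    have h1 : insert a X \ T = insert a (X \ T) := by
      rw [Finset.insert_sdiff_of_notMem _ (fun h => ha (hT' h))]
    rw [h1, Finset.prod_insert (fun h => ha (Finset.mem_sdiff.1 h).1)]
    ring
  · refine Finset.sum_congr rfl fun T hT => ?_
    have hT' : T ⊆ X := Finset.mem_powerset.1 hT
    have h1 : insert a X \ insert a T = X \ T := by
      ext v
      simp only [Finset.mem_sdiff, Finset.mem_insert, not_or]
      constructor
      · rintro ⟨h2 | h2, h3, h4⟩
        · exact absurd h2 h3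
        · exact ⟨h2, h4⟩
      · rintro ⟨h2, h3⟩
        exact ⟨Or.inr h2, fun h4 => ha (h4 ▸ h2), h3⟩
    rw [h1, Finset.prod_insert (fun h => ha (hT' h))]
    ring

theorem PEx_add (p : V → ℝ) (X : Finset V) (f g : Finset V → ℝ) :
    PEx p X (fun T => f T + g T) = PEx p X f + PEx p X g := by
  unfold PEx
  rw [← Finset.sum_add_distrib]
  exact Finset.sum_congr rfl fun T _ => by ring

theorem PEx_sub (p : V → ℝ) (X : Finset V) (f g : Finset V → ℝ) :
    PEx p X (fun T => f T - g T) = PEx p X f - PEx p X g := by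
  unfold PEx
  rw [← Finset.sum_sub_distrib]
  exact Finset.sum_congr rfl fun T _ => by ring

theorem PEx_mul_left (p : V → ℝ) (X : Finset V) (c : ℝ) (f : Finset V → ℝ) :
    PEx p X (fun T => c * f T) = c * PEx p X f := by
  unfold PEx
  rw [Finset.mul_sum]
  exact Finset.sum_congr rfl fun T _ => by ring

theorem PEx_mul_right (p : V → ℝ) (X : Finset V) (c : ℝ) (f : Finset V → ℝ) :
    PEx p X (fun T => f T * c) = PEx p X f * c := by
  unfold PEx
  rw [Finset.sum_mul]
  exact Finset.sum_congr rfl fun T _ => by ring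

theorem PEx_sum {κ : Type*} (p : V → ℝ) (X : Finset V) (K : Finset κ)
    (f : κ → Finset V → ℝ) :
    PEx p X (fun T => ∑ j ∈ K, f j T) = ∑ j ∈ K, PEx p X (f j) := by
  unfold PEx
  rw [Finset.sum_comm]
  exact Finset.sum_congr rfl fun T _ => by rw [Finset.mul_sum]

theorem PEx_congr (p : V → ℝ) (X : Finset V) (f g : Finset V → ℝ)
    (h : ∀ T, T ⊆ X → f T = g T) : PEx p X f = PEx p X g := by
  unfold PEx
  exact Finset.sum_congr rfl fun T hT => by rw [h T (Finset.mem_powerset.1 hT)]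

/-- only the densities on `X` matter -/
theorem PEx_congr_p (p p' : V → ℝ) (X : Finset V) (f : Finset V → ℝ)
    (h : ∀ v ∈ X, p v = p' v) : PEx p X f = PEx p' X f := by
  unfold PEx
  refine Finset.sum_congr rfl fun T hT => ?_
  have hT' : T ⊆ X := Finset.mem_powerset.1 hT
  have h1 : ∏ v ∈ T, p v = ∏ v ∈ T, p' v := Finset.prod_congr rfl fun v hv => h v (hT' hv)
  have h2 : ∏ v ∈ X \ T, (1 - p v) = ∏ v ∈ X \ T, (1 - p' v) :=
    Finset.prod_congr rfl fun v hv => by rw [h v (Finset.mem_sdiff.1 hv).1]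
  rw [h1, h2]

theorem PEx_const (p : V → ℝ) (X : Finset V) (c : ℝ) : PEx p X (fun _ => c) = c := by
  induction X using Finset.induction_on with
  | empty => exact PEx_empty p _
  | insert a X ha ih =>
    rw [PEx_insert p X ha, ih]
    ring

theorem PEx_one (p : V → ℝ) (X : Finset V) : PEx p X (fun _ => 1) = 1 := PEx_const p X 1

theorem PEx_prod (p : V → ℝ) (X : Finset V) (g : V → ℝ) :
    PEx p X (fun T => ∏ v ∈ T, g v) = ∏ v ∈ X, (1 - p v + p v * g v) := by
  induction X using Finset.induction_on with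
  | empty =>
    rw [PEx_empty]
    simp
  | insert a X ha ih =>
    rw [PEx_insert p X ha, ih, Finset.prod_insert ha]
    have h1 : PEx p X (fun T => ∏ v ∈ insert a T, g v) = g a * PEx p X (fun T => ∏ v ∈ T, g v) := by
      rw [← PEx_mul_left]
      refine PEx_congr p X _ _ fun T hT => ?_
      rw [Finset.prod_insert (fun h => ha (hT h))]
    rw [h1, ih]
    ring

theorem PEx_weight_nonneg {p : V → ℝ} {X : Finset V} (h0 : ∀ v ∈ X, 0 ≤ p v)
    (h1 : ∀ v ∈ X, p v ≤ 1) {T : Finset V} (hT : T ⊆ X) :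
    0 ≤ (∏ v ∈ T, p v) * (∏ v ∈ X \ T, (1 - p v)) :=
  mul_nonneg (Finset.prod_nonneg fun v hv => h0 v (hT hv))
    (Finset.prod_nonneg fun v hv => by linarith [h1 v (Finset.mem_sdiff.1 hv).1])

theorem PEx_mono {p : V → ℝ} {X : Finset V} (h0 : ∀ v ∈ X, 0 ≤ p v) (h1 : ∀ v ∈ X, p v ≤ 1)
    (f g : Finset V → ℝ) (h : ∀ T, T ⊆ X → f T ≤ g T) : PEx p X f ≤ PEx p X g := by
  unfold PEx
  exact Finset.sum_le_sum fun T hT => mul_le_mul_of_nonneg_left (h T (Finset.mem_powerset.1 hT))
    (PEx_weight_nonneg h0 h1 (Finset.mem_powerset.1 hT))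

theorem PEx_nonneg {p : V → ℝ} {X : Finset V} (h0 : ∀ v ∈ X, 0 ≤ p v) (h1 : ∀ v ∈ X, p v ≤ 1)
    (f : Finset V → ℝ) (h : ∀ T, T ⊆ X → 0 ≤ f T) : 0 ≤ PEx p X f := by
  have := PEx_mono h0 h1 (fun _ => 0) f h
  rwa [PEx_const] at this

/-- If the expectation is less than `c` then some subset has value less than `c`. -/
theorem PEx_exists {p : V → ℝ} {X : Finset V} (h0 : ∀ v ∈ X, 0 ≤ p v) (h1 : ∀ v ∈ X, p v ≤ 1)
    (f : Finset V → ℝ) (c : ℝ) (h : PEx p X f < c) : ∃ T, T ⊆ X ∧ f T < c := by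
  by_contra hcon
  have h2 : ∀ T, T ⊆ X → c ≤ f T := fun T hT => by
    by_contra h3
    exact hcon ⟨T, hT, not_le.1 h3⟩
  have := PEx_mono h0 h1 (fun _ => c) f h2
  rw [PEx_const] at this
  linarith

/-- independence of the parts in two disjoint sets -/
theorem PEx_union (p : V → ℝ) (X Y : Finset V) (h : Disjoint X Y) (f : Finset V → ℝ) :
    PEx p (X ∪ Y) f = PEx p X (fun T₁ => PEx p Y (fun T₂ => f (T₁ ∪ T₂))) := by
  induction X using Finset.induction_on generalizing f with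
  | empty =>
    rw [PEx_empty, Finset.empty_union]
    exact PEx_congr p Y _ _ fun T _ => by rw [Finset.empty_union]
  | insert a X ha ih =>
    rw [Finset.disjoint_insert_left] at h
    have ha' : a ∉ X ∪ Y := by
      rw [Finset.mem_union, not_or]
      exact ⟨ha, h.1⟩
    rw [Finset.insert_union, PEx_insert p _ ha', PEx_insert p _ ha, ih h.2, ih h.2]
    congr 2
    refine PEx_congr p X _ _ fun T₁ _ => PEx_congr p Y _ _ fun T₂ _ => ?_
    rw [Finset.insert_union]

/-- a function of `T ∩ Y` -/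
theorem PEx_inter (p : V → ℝ) (X Y : Finset V) (hY : Y ⊆ X) (f : Finset V → ℝ) :
    PEx p X (fun T => f (T ∩ Y)) = PEx p Y f := by
  have h1 : X = (X \ Y) ∪ Y := (Finset.sdiff_union_of_subset hY).symm
  have h2 : Disjoint (X \ Y) Y := Finset.sdiff_disjoint
  conv_lhs => rw [h1]
  rw [PEx_union p _ _ h2]
  have h3 : PEx p (X \ Y) (fun T₁ => PEx p Y (fun T₂ => f ((T₁ ∪ T₂) ∩ Y))) =
      PEx p (X \ Y) (fun _ => PEx p Y f) := by
    refine PEx_congr p _ _ _ fun T₁ hT₁ => PEx_congr p Y _ _ fun T₂ hT₂ => ?_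
    congr 1
    ext v
    simp only [Finset.mem_inter, Finset.mem_union]
    constructor
    · rintro ⟨h4 | h4, h5⟩
      · exact absurd h5 (Finset.mem_sdiff.1 (hT₁ h4)).2
      · exact h4
    · intro h4
      exact ⟨Or.inr h4, hT₂ h4⟩
  rw [h3, PEx_const]

/-- More points: smaller expectation of decreasing functions. -/
theorem PEx_anti {p p' : V → ℝ} {X : Finset V} (h0 : ∀ v ∈ X, 0 ≤ p' v)
    (hpp : ∀ v ∈ X, p' v ≤ p v) (h1 : ∀ v ∈ X, p v ≤ 1) (f : Finset V → ℝ)
    (hf : ∀ S T, S ⊆ T → f T ≤ f S) : PEx p X f ≤ PEx p' X f := by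
  induction X using Finset.induction_on generalizing f with
  | empty => rw [PEx_empty, PEx_empty]
  | insert a X ha ih =>
    have g0 : ∀ v ∈ X, 0 ≤ p' v := fun v hv => h0 v (Finset.mem_insert_of_mem hv)
    have g1 : ∀ v ∈ X, p' v ≤ p v := fun v hv => hpp v (Finset.mem_insert_of_mem hv)
    have g2 : ∀ v ∈ X, p v ≤ 1 := fun v hv => h1 v (Finset.mem_insert_of_mem hv)
    have a0 := h0 a (Finset.mem_insert_self a X)
    have a1 := hpp a (Finset.mem_insert_self a X)
    have a2 := h1 a (Finset.mem_insert_self a X)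
    rw [PEx_insert p X ha, PEx_insert p' X ha]
    have e1 := ih g0 g1 g2 f hf
    have e2 := ih g0 g1 g2 (fun T => f (insert a T)) fun S T hST =>
      hf _ _ (Finset.insert_subset_insert a hST)
    have e3 : PEx p' X (fun T => f (insert a T)) ≤ PEx p' X f :=
      PEx_mono g0 (fun v hv => (g1 v hv).trans (g2 v hv)) _ _ fun T _ =>
        hf _ _ (Finset.subset_insert a T)
    have e4 : (1 - p a) * PEx p X f ≤ (1 - p a) * PEx p' X f :=
      mul_le_mul_of_nonneg_left e1 (by linarith)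
    have e5 : p a * PEx p X (fun T => f (insert a T)) ≤
        p a * PEx p' X (fun T => f (insert a T)) :=
      mul_le_mul_of_nonneg_left e2 (by linarith)
    have e6 : (p a - p' a) * PEx p' X (fun T => f (insert a T)) ≤ (p a - p' a) * PEx p' X f :=
      mul_le_mul_of_nonneg_left e3 (by linarith)
    linarith

/-- The probability that the random set contains the set `Y`. -/
theorem PEx_contains (p : V → ℝ) (X Y : Finset V) (hY : Y ⊆ X) :
    PEx p X (fun T => if Y ⊆ T then 1 else 0) = ∏ v ∈ Y, p v := by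
  have h1 : PEx p X (fun T => if Y ⊆ T then (1 : ℝ) else 0) =
      PEx p X (fun T => (fun S => if Y ⊆ S then (1 : ℝ) else 0) (T ∩ Y)) := by
    refine PEx_congr p X _ _ fun T _ => ?_
    have h2 : Y ⊆ T ∩ Y ↔ Y ⊆ T := by
      rw [Finset.subset_inter_iff]
      exact ⟨fun h => h.1, fun h => ⟨h, Finset.Subset.refl _⟩⟩
    simp only [h2]
  rw [h1, PEx_inter p X Y hY (fun S => if Y ⊆ S then (1 : ℝ) else 0)]
  unfold PEx
  rw [Finset.sum_eq_single Y]
  · simp
  · intro T hT hne
    have h3 : ¬ Y ⊆ T := fun h => hne (Finset.Subset.antisymm (Finset.mem_powerset.1 hT) h)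
    simp only [h3, if_false, mul_zero]
  · intro h
    exact absurd (Finset.mem_powerset_self Y) h

theorem PEx_mem (p : V → ℝ) (X : Finset V) {v : V} (hv : v ∈ X) :
    PEx p X (fun T => if v ∈ T then 1 else 0) = p v := by
  have := PEx_contains p X {v} (by simpa using hv)
  simpa using this

/-- The probability that the random set misses `Y`. -/
theorem PEx_avoid (p : V → ℝ) (X Y : Finset V) (hY : Y ⊆ X) :
    PEx p X (fun T => if (Y ∩ T).Nonempty then 0 else 1) = ∏ v ∈ Y, (1 - p v) := by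
  have h1 : PEx p X (fun T => if (Y ∩ T).Nonempty then (0 : ℝ) else 1) =
      PEx p X (fun T => (fun S => if S.Nonempty then (0 : ℝ) else 1) (T ∩ Y)) := by
    refine PEx_congr p X _ _ fun T _ => ?_
    rw [Finset.inter_comm]
  rw [h1, PEx_inter p X Y hY (fun S => if S.Nonempty then (0 : ℝ) else 1)]
  unfold PEx
  rw [Finset.sum_eq_single ∅]
  · simp
  · intro T _ hne
    have h3 : T.Nonempty := Finset.nonempty_iff_ne_empty.2 hne
    simp only [h3, if_true, mul_zero]
  · intro h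
    exact absurd (Finset.empty_mem_powerset Y) h

/-- exponential moments of the number of points in `G` -/
theorem PEx_pow (p : V → ℝ) (X G : Finset V) (hG : G ⊆ X) (a : ℝ) :
    PEx p X (fun T => a ^ (T ∩ G).card) = ∏ v ∈ G, (1 + p v * (a - 1)) := by
  rw [PEx_inter p X G hG (fun S => a ^ S.card)]
  have h1 : PEx p G (fun S => a ^ S.card) = PEx p G (fun T => ∏ _v ∈ T, a) :=
    PEx_congr p G _ _ fun T _ => by rw [Finset.prod_const]
  rw [h1, PEx_prod]
  exact Finset.prod_congr rfl fun v _ => by ring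

/-- exponential moments, bounded -/
theorem PEx_exp_le {p : V → ℝ} {X : Finset V} (h0 : ∀ v ∈ X, 0 ≤ p v) (G : Finset V)
    (hG : G ⊆ X) (l : ℝ) (hl : 0 ≤ l) :
    PEx p X (fun T => Real.exp (l * ((T ∩ G).card : ℝ))) ≤
      Real.exp ((Real.exp l - 1) * ∑ v ∈ G, p v) := by
  have h1 : PEx p X (fun T => Real.exp (l * ((T ∩ G).card : ℝ))) =
      PEx p X (fun T => (Real.exp l) ^ (T ∩ G).card) := by
    refine PEx_congr p X _ _ fun T _ => ?_
    rw [← Real.exp_nat_mul]
    congr 1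
    ring
  rw [h1, PEx_pow p X G hG, Finset.mul_sum, Real.exp_sum]
  refine Finset.prod_le_prod (fun v hv => ?_) fun v hv => ?_
  · have h2 := h0 v (hG hv)
    have h3 : 0 ≤ Real.exp l - 1 := by
      have := Real.add_one_le_exp l
      linarith
    have := mul_nonneg h2 h3
    linarith
  · have := Real.add_one_le_exp ((Real.exp l - 1) * p v)
    linarith

/-- Cauchy-Schwarz -/
theorem PEx_cauchy {p : V → ℝ} {X : Finset V} (h0 : ∀ v ∈ X, 0 ≤ p v) (h1 : ∀ v ∈ X, p v ≤ 1)
    (f g : Finset V → ℝ) :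
    (PEx p X (fun T => f T * g T)) ^ 2 ≤ PEx p X (fun T => f T ^ 2) * PEx p X (fun T => g T ^ 2) := by
  have hw : ∀ T ∈ X.powerset, 0 ≤ (∏ v ∈ T, p v) * (∏ v ∈ X \ T, (1 - p v)) := fun T hT =>
    PEx_weight_nonneg h0 h1 (Finset.mem_powerset.1 hT)
  have h2 := Finset.sum_mul_sq_le_sq_mul_sq X.powerset
    (fun T => Real.sqrt ((∏ v ∈ T, p v) * (∏ v ∈ X \ T, (1 - p v))) * f T)
    (fun T => Real.sqrt ((∏ v ∈ T, p v) * (∏ v ∈ X \ T, (1 - p v))) * g T)
  unfold PEx
  have e1 : ∑ T ∈ X.powerset, (∏ v ∈ T, p v) * (∏ v ∈ X \ T, (1 - p v)) * (f T * g T) =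
      ∑ T ∈ X.powerset, Real.sqrt ((∏ v ∈ T, p v) * (∏ v ∈ X \ T, (1 - p v))) * f T *
        (Real.sqrt ((∏ v ∈ T, p v) * (∏ v ∈ X \ T, (1 - p v))) * g T) := by
    refine Finset.sum_congr rfl fun T hT => ?_
    have h3 := Real.mul_self_sqrt (hw T hT)
    calc (∏ v ∈ T, p v) * (∏ v ∈ X \ T, (1 - p v)) * (f T * g T) =
        Real.sqrt ((∏ v ∈ T, p v) * (∏ v ∈ X \ T, (1 - p v))) *
          Real.sqrt ((∏ v ∈ T, p v) * (∏ v ∈ X \ T, (1 - p v))) * (f T * g T) := by rw [h3]
      _ = _ := by ring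
  have e2 : ∀ f : Finset V → ℝ,
      ∑ T ∈ X.powerset, (∏ v ∈ T, p v) * (∏ v ∈ X \ T, (1 - p v)) * f T ^ 2 =
      ∑ T ∈ X.powerset,
        (Real.sqrt ((∏ v ∈ T, p v) * (∏ v ∈ X \ T, (1 - p v))) * f T) ^ 2 := by
    intro f
    refine Finset.sum_congr rfl fun T hT => ?_
    rw [mul_pow, Real.sq_sqrt (hw T hT)]
  rw [e1, e2 f, e2 g]
  exact h2

end Pool.Agent.Lib.MP_9b5ec2_co
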