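import Mathlib
import Pool.Agent.Lib.MP_9b5ec2_co.Defs3
import Pool.Agent.Lib.MP_9b5ec2_co.PEx

/-!
# Integral polychromatic colourings with `k ≥ (log n) ^ (1 + η)` colours (MP_9b5ec2_co)

Main statement `LogStmt`: for `m` and `0 < η ≤ 1` there is `C` such that every hypergraph with `n`
points and 2-colourable traces (`TwoCol m`) has `k` pairwise disjoint sets that meet all edges with
at least `C (k + (log n) ^ (1 + η))` points.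

Every module proves one `...Stmt`, possibly from other `...Stmt`s given as hypotheses. The complete
proof of each statement is in its docstring. Notation: `w(S) = Σ_{v ∈ S} w v`, `d(v) = fdeg A y v`,
`Σ_{i ∋ v}` is the sum over the indices `i` with `v ∈ A i`; `PEx p X f` (module `PEx.lean`) is the
expectation of `f R` for the random subset `R` of `X` with independent densities `p v`.
-/

set_option autoImplicit false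

namespace Pool.Agent.Lib.MP_9b5ec2_co

open Finset

/-- RANDOM HALF OF A RANDOM SET, different densities (see `Half.lean`, `half`).

PROOF. Induction on `X` with `PEx_empty`, `PEx_insert` (generalizing `f`), as in `Half.lean`. -/
def Half2Stmt : Prop :=
  ∀ (V : Type) [DecidableEq V] (X : Finset V) (p : V → ℝ) (f : Finset V → Finset V → ℝ),
    (∀ v ∈ X, 0 ≤ p v) → (∀ v ∈ X, p v ≤ 1 / 2) →
    PEx (fun v => 2 * p v) X (fun Q => PEx (fun _ => 1 / 2) Q (fun R => f R Q)) =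
      PEx p X (fun R => PEx (fun v => p v / (1 - p v)) (X \ R) (fun S => f R (R ∪ S)))

open Classical in
/-- RANDOM SETS ARE NETS, weighted and with exponentially small error (compare `EN.lean`).

PROOF (from `Half2Stmt`, `TraceStmt`). Let `d = 2m-2`, `c = ε'/8`, and `k₀ ≥ 1` so large that for
`k ≥ k₀`: `exp (- k ε'/8) ≤ 1/2` and `2 (4k)^d e (1/2)^(k ε'/2) ≤ exp (- c k)` (note
`(1/2)^(k ε'/2) ≤ exp (- k ε'/6)`). The event is decreasing in `R`, so by `PEx_anti` we may assume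
`p = k w` (which is `≤ 1/2`). It depends only on `R ∩ G` after weakening `A j ∩ R = ∅` to
`(A j ∩ G) ∩ (R ∩ G) = ∅` (`PEx_inter`). Let `a = k ε'/2`, `TT` = sets `T ⊆ G` of the form `A j ∩ G`
with `ε' ≤ w(T)`, `g(R, Q) = 1` if there is `T ∈ TT` with `T ∩ R = ∅`, `a ≤ |T ∩ Q|`, else `0`.
(ii) If `R ⊆ G` and `T ∈ TT`, `T ∩ R = ∅` then, with `p' = p/(1-p) ∈ [p, 1]`,
`PEx p' (G \ R) (fun S => g R (R ∪ S)) ≥ 1/2`: let `μ = Σ_{v ∈ T} p' v ≥ k ε'`. The indicator of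
`2 |S ∩ T| < μ` is at most `2^(μ/2) (1/2)^|S ∩ T|`, whose expectation is
`2^(μ/2) Π_{v ∈ T} (1 - p' v/2) ≤ exp ((log 2 - 1) μ/2) ≤ exp (- μ/8) ≤ 1/2` (`PEx_pow`); and if
`2 |S ∩ T| ≥ μ` then `|T ∩ (R ∪ S)| ≥ a`.
(iii) By `Half2Stmt` the probability is at most
`2 PEx (2p) G (fun Q => PEx (1/2) Q (fun R => g R Q))`.
(iv) For fixed `Q ⊆ G`: `PEx (1/2) Q (g R Q) ≤ (1/2)^a #{P ⊆ Q : |P| ≤ d}` (`TraceStmt`; the number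
of traces `A j ∩ Q`, for each of them with at least `a` points `PEx_avoid` gives `(1/2)^|P|`).
(v) `PEx (2p) G (#{P ⊆ Q : |P| ≤ d}) = Σ_{P ⊆ G, |P| ≤ d} Π_{v ∈ P} 2 p v` (`PEx_contains`)
`≤ (4k)^d Σ_{P ⊆ G} Π_{v ∈ P} (2 p v/(4k)) = (4k)^d Π_{v ∈ G} (1 + 2 p v/(4k)) ≤ (4k)^d e`, because
`4k ≥ 1` and `Σ_{v ∈ G} 2 p v = 2 k w(G) ≤ 4k`. -/
def EN2Stmt : Prop :=
  ∀ (m : ℕ) (ε' : ℝ), 1 ≤ m → 0 < ε' → ∃ c k₀ : ℝ, 0 < c ∧ 1 ≤ k₀ ∧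
    ∀ (k : ℝ), k₀ ≤ k → ∀ (V ι : Type) [Fintype V] [DecidableEq V] (A : ι → Finset V)
      (G : Finset V) (w p : V → ℝ), TwoCol m A → (∀ v, 0 ≤ w v) → (∀ v, k * w v ≤ 1 / 2) →
      (∀ v, k * w v ≤ p v ∧ p v ≤ 1) → ∑ v ∈ G, w v ≤ 2 →
      PEx p univ (fun R => if ∃ j, A j ∩ R = ∅ ∧ ε' ≤ ∑ v ∈ A j ∩ G, w v then (1 : ℝ) else 0) ≤
        Real.exp (-(c * k))

/-- THE AVERAGED PACKING THEOREM for weights.

PROOF (from `WGTStmt`, `DiscStmt`; let `Λ, γ', s₀` be from `WGTStmt`, `γ = γ'/4`). For a large real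
`S ≥ s₀` put `n v = ⌊S w v⌋₊`, `A' = wtBlow n A` (`Weight.lean`: `wtBlow_twoCol`, `card_wtBlow`,
`mem_wtBlow`), `X' = {(v, a) : v ∈ X}`, `s = S`. If `2 S < |A' i|` then `2 < w(A i)`, so `y i = 0`.
`fdeg A' y (v, a) = fdeg A y v`. `Σ_{X'} fdeg A' y = Σ_{v ∈ X} n v d(v) ≥ S Σ_X w d - Σ_X d`; as
`Σ_X w d ≥ (4/5) Σ y > 0` this is positive and `S Σ y ≤ (5/4) S Σ_X w d ≤ (4/3) Σ_{X'} fdeg A' y`
for `S` large. `Σ_{i,j ∋ v} y i y j |A' i ∩ A' j| ≤ S Σ_{i,j ∋ v} y i y j w(A i ∩ A j)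
≤ γ S d(v)²` (`A' i ∩ A' j` is the blow-up of `A i ∩ A j`). `DiscStmt` with `g = γ` and `Λ` gives a
family contradicting `WGTStmt` (`4 γ = γ'`). -/
def CWGTStmt : Prop :=
  ∀ m : ℕ, 1 ≤ m → ∃ γ : ℝ, 0 < γ ∧ ∀ (V ι : Type) [Fintype V] [DecidableEq V] [Fintype ι]
    [DecidableEq ι] (A : ι → Finset V) (w : V → ℝ) (y : ι → ℝ) (X : Finset V), TwoCol m A →
    (∀ v, 0 ≤ w v) → (∀ i, 0 ≤ y i) → (∀ i, y i ≠ 0 → ∑ v ∈ A i, w v ≤ 2) →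
    (∀ v ∈ X, 0 < fdeg A y v) → 0 < ∑ i, y i →
    ∑ i, y i ≤ 5 / 4 * ∑ v ∈ X, w v * fdeg A y v →
    (∀ v ∈ X, ∑ i ∈ univ.filter (fun i => v ∈ A i), ∑ j ∈ univ.filter (fun j => v ∈ A j),
      y i * y j * ∑ u ∈ A i ∩ A j, w u ≤ γ * (fdeg A y v) ^ 2) → False

/-- THEOREM OF ALTERNATIVES over a box.

PROOF. Let `K ⊆ (I → ℝ)` be the set of the vectors `(Σ_j M i j x j - q i)_i`, `x` in the box
`Set.Icc 0 B` (compact, convex), so `K` is compact and convex; `N = {z : z ≤ 0}` is closed and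
convex. If the first alternative fails they are disjoint. `geometric_hahn_banach_compact_closed`:
continuous linear `f`, reals `u < u'` with `f < u` on `K` and `u' < f` on `N`. `0 ∈ N` gives `u' < 0`;
`y i = - f (Pi.single i 1) ≥ 0` as `f` is bounded below on the cone `N`. For `x` in the box:
`Σ_i y i (Σ_j M i j x j - q i) = - f (..) > - u > 0`. (Compare `LPD.lean`.) -/
def BoxAltStmt : Prop :=
  ∀ (I J : Type) [Fintype I] [Fintype J] (M : I → J → ℝ) (q : I → ℝ) (B : J → ℝ),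
    (∀ j, 0 ≤ B j) →
    (∃ x : J → ℝ, (∀ j, 0 ≤ x j ∧ x j ≤ B j) ∧ ∀ i, ∑ j, M i j * x j ≤ q i) ∨
    (∃ y : I → ℝ, (∀ i, 0 ≤ y i) ∧ ∀ x : J → ℝ, (∀ j, 0 ≤ x j ∧ x j ≤ B j) →
      ∑ i, y i * q i < ∑ i, y i * ∑ j, M i j * x j)

/-- LOCAL COVERS of the missed edges, for edges of weight between 1 and 2.

PROOF (from `EN2Stmt`, `CWGTStmt`, `BoxAltStmt`). Let `γ` be from `CWGTStmt` (`γ ≤ 1` without loss
of generality), `ε' = γ/4`, `γ₁ = γ/8`, `b = 16/γ₁`; `c₀, k₀'` from `EN2Stmt` for `ε'`; `c = c₀/2`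
and `k₀ ≥ k₀'` with `exp (- c₀ k₀/2) ≤ γ/128`. For `k ≥ k₀` put `κ = exp (- c k)`,
`δ = exp (- c₀ k) ≤ γ κ/128`. Write `P R = (Π_{v ∈ R} p v) (Π_{v ∉ R} (1 - p v))`, so
`PEx p univ f = Σ_R P R f R`, `P R ≥ 0`. Apply `BoxAltStmt` with the variables `x (R, v)`
(`J = Finset V × V`, bounds `b w v`) and the constraints `- Σ_{v ∈ A i} x (R, v) ≤ -1` for all
`(R, i)` with `A i ∩ R = ∅`, and `Σ_R P R x (R, v) ≤ κ w v` for all `v`. The first alternative is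
the claim. Otherwise there are `y R i ≥ 0` (put `0` if `A i ∩ R ≠ ∅`) and `c' v ≥ 0` such that, with
`D R v = Σ_{i ∋ v} y R i` and `x (R, v) = b w v` if `D R v > P R c' v`, `0` otherwise,
`Y := Σ_R Σ_i y R i > κ Σ_v c' v w v + b Σ_R Σ_v w v (D R v - P R c' v)⁺`.
Put `y i = Σ_R y R i`, `d v = fdeg A y v = Σ_R D R v`, `z v = Σ_R (D R v - P R c' v)⁺`; `Y = Σ y > 0`,
`Y ≤ Σ_i y i w(A i) = Σ_v w v d v`, `Σ w z ≤ Y/b`, `Σ w c' ≤ Y/κ`.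
Let `X = {v : 0 < d v, z v ≤ γ₁ d v, κ c' v ≤ 16 d v}`. Outside `X`: `Σ_{z > γ₁ d} w d ≤ Y/(γ₁ b)
= Y/16`, `Σ_{κ c' > 16 d} w d ≤ κ Σ w c'/16 ≤ Y/16`. So `Σ_X w d ≥ (7/8) Y` and
`Y ≤ (5/4) Σ_X w d`.
PAIRS: for `i` with `v ∈ A i` let `bad i` = set of `R` such that some `j` has `A j ∩ R = ∅` and
`ε' ≤ w(A j ∩ A i)`; its probability is at most `δ` (`EN2Stmt`, `G = A i`). So
`Σ_{j ∋ v, w(A i ∩ A j) ≥ ε'} y j ≤ Σ_{R ∈ bad i} D R v ≤ Σ_{R ∈ bad i} (P R c' v +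
(D R v - P R c' v)⁺) ≤ δ c' v + z v`. Hence for `v ∈ X`:
`Σ_{i,j ∋ v} y i y j w(A i ∩ A j) ≤ ε' d² + 2 d (δ c' v + z v) ≤ (γ/4 + 32 δ/κ + γ/4) d² ≤ γ d²`
(`w(A i ∩ A j) ≤ w(A i) ≤ 2`). Contradiction to `CWGTStmt`. -/
def SD1Stmt : Prop :=
  ∀ m : ℕ, 1 ≤ m → ∃ b c k₀ : ℝ, 1 ≤ b ∧ 0 < c ∧ 1 ≤ k₀ ∧ ∀ (k : ℝ), k₀ ≤ k →
    ∀ (V ι : Type) [Fintype V] [DecidableEq V] [Fintype ι] [DecidableEq ι] (A : ι → Finset V)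
      (w p : V → ℝ), TwoCol m A → (∀ v, 0 ≤ w v) → (∀ v, k * w v ≤ 1 / 2) →
      (∀ v, k * w v ≤ p v ∧ p v ≤ 1) → (∀ i, 1 ≤ ∑ v ∈ A i, w v ∧ ∑ v ∈ A i, w v ≤ 2) →
      ∃ x : Finset V → V → ℝ, (∀ R v, 0 ≤ x R v ∧ x R v ≤ b * w v) ∧
        (∀ R i, A i ∩ R = ∅ → 1 ≤ ∑ v ∈ A i, x R v) ∧
        ∀ v, PEx p univ (fun R => x R v) ≤ Real.exp (-(c * k)) * w v

/-- LOCAL COVERS of the missed edges, general.

PROOF (from `SD1Stmt`, constants `b₁, c₁, k₁`; `b = 2 b₁`, `c = c₁/2`, `k₀ ≥ k₁` with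
`2 exp (- c₁ k₀/2) ≤ 1`). Choose `L` with `Σ_v w v < 2^L`. For `l < L` apply `SD1Stmt` to the
edges with `2^l ≤ w(A i) < 2^(l+1)` (a subtype), the weights `w/2^l` and `p = k w ≥ k w/2^l`
(`p ≤ 1/2`): functions `x_l`. Put `x = Σ_l x_l`: `x R v ≤ Σ_l b₁ w v/2^l ≤ 2 b₁ w v`, the
expectation is at most `2 exp (- c₁ k) w v ≤ exp (- c k) w v`, and every missed edge with
`1 ≤ w(A i)` is covered by the `x_l` of its class. -/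
def SD2Stmt : Prop :=
  ∀ m : ℕ, 1 ≤ m → ∃ b c k₀ : ℝ, 1 ≤ b ∧ 0 < c ∧ 1 ≤ k₀ ∧ ∀ (k : ℝ), k₀ ≤ k →
    ∀ (V ι : Type) [Fintype V] [DecidableEq V] [Fintype ι] [DecidableEq ι] (A : ι → Finset V)
      (w : V → ℝ), TwoCol m A → (∀ v, 0 ≤ w v) → (∀ v, k * w v ≤ 1 / 2) →
      ∃ x : Finset V → V → ℝ, (∀ R v, 0 ≤ x R v ∧ x R v ≤ b * w v) ∧
        (∀ R i, 1 ≤ ∑ v ∈ A i, w v → A i ∩ R = ∅ → 1 ≤ ∑ v ∈ A i, x R v) ∧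
        ∀ v, PEx (fun v => k * w v) univ (fun R => x R v) ≤ Real.exp (-(c * k)) * w v

open Classical in
/-- ITERATION: `r` rounds of sampling, the last one with the largest density.

PROOF (from `SD2Stmt`, which gives `b, c, k₀'`). Given `D` let `k₁ = max k₀' ...` with
`D sqrt b exp (- c k₁/4) ≤ 1/2`, `k₁ ≥ 1`. Induction on `r`, `F_0 = 1`, `F_r = exp (- c k₀ D^(J-1))`
for `r ≥ 1`.
`r = 0`: `q` = point mass at `∅`. The edge condition: if `1 ≤ w(A i)` for some `i` then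
`1 ≤ Σ_v w v`. The exponential moment is `1`.
`r + 1 ≤ J`: let `k = k₀ D^(J-r-1) ≥ k₁`, so `k₀ D^(J-r) = D k`, and `k w v ≤ 1/2` by the pointwise
hypothesis. Let `x` be from `SD2Stmt` for `k`. For every `R` the function `x R` satisfies the
pointwise hypothesis for `r` (`x R v ≤ b w v`), so the induction hypothesis gives `q_R`. Let
`q T = Σ_R P R Σ_{T' : R ∪ T' = T} q_R T'` (`P R` = the weight of `R` in `PEx (k w) univ`): the law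
of `R ∪ T'`. Points of `R` (if `P R ≠ 0`) and of `T'` have `w v ≠ 0` (`x R v ≤ b w v`).
EDGES: if `1 ≤ w(A i)` and `A i ∩ (R ∪ T') = ∅` then `1 ≤ x R (A i)` and `A i ∩ T' = ∅`. So the sum
is at most `PEx (F_r Σ_v x R v) ≤ F_r exp (- c k) Σ_v w v ≤ F_(r+1) Σ_v w v`.
MOMENTS: let `w(G) ≤ 4 b^(J-r-1)`, so `x R (G) ≤ b w(G) ≤ 4 b^(J-r)`. `|(R ∪ T') ∩ G| ≤ |R ∩ G| +
|T' ∩ G|`, so the moment is at most `PEx (exp (l |R ∩ G|) exp (4 l D k x_R(G)))`, where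
`4 l D k x_R(G) ≤ 16 l D k b^J ≤ c k/4`; `exp u ≤ 1 + u exp (c k/4)` for `0 ≤ u ≤ c k/4`. With
`exp l - 1 ≤ 2 l`, `exp (2l) - 1 ≤ 4 l` (`l ≤ 1/4`), `PEx_exp_le`:
`PEx exp (l |R ∩ G|) ≤ exp (2 l k w(G))` and, by `PEx_cauchy`,
`PEx (exp (l |R ∩ G|) x_R(G)) ≤ sqrt (PEx exp (2 l |R ∩ G|)) sqrt (PEx x_R(G)²)
≤ exp (2 l k w(G)) sqrt (b w(G) exp (- c k) w(G))`. So the moment is at most
`exp (2 l k w(G)) (1 + 4 l D k exp (c k/4) sqrt b exp (- c k/2) w(G))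
≤ exp (2 l k w(G)) exp (2 l k w(G)) = exp (4 l k w(G))`, as `D sqrt b exp (- c k/4) ≤ 1/2`. -/
def ChainStmt : Prop :=
  ∀ m : ℕ, 1 ≤ m → ∃ b c : ℝ, 1 ≤ b ∧ 0 < c ∧ ∀ D : ℝ, 2 ≤ D → ∃ k₁ : ℝ, 1 ≤ k₁ ∧
    ∀ (k₀ l : ℝ) (J r : ℕ), k₁ ≤ k₀ → 0 < l → l ≤ 1 / 4 → 64 * l * D * b ^ J ≤ c → r ≤ J →
    ∀ (V ι : Type) [Fintype V] [DecidableEq V] [Fintype ι] [DecidableEq ι] (A : ι → Finset V)
      (w : V → ℝ), TwoCol m A → (∀ v, 0 ≤ w v) →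
      (∀ v, 2 * k₀ * (D * b) ^ J * w v ≤ b ^ (J - r)) →
      ∃ q : Finset V → ℝ, (∀ T, 0 ≤ q T) ∧ ∑ T, q T = 1 ∧
        (∀ T, q T ≠ 0 → ∀ v ∈ T, w v ≠ 0) ∧
        ∑ T, q T * (if ∃ i, 1 ≤ ∑ v ∈ A i, w v ∧ A i ∩ T = ∅ then (1 : ℝ) else 0) ≤
          (if r = 0 then 1 else Real.exp (-(c * k₀ * D ^ (J - 1)))) * ∑ v, w v ∧
        ∀ G : Finset V, ∑ v ∈ G, w v ≤ 4 * b ^ (J - r) →
          ∑ T, q T * Real.exp (l * ((T ∩ G).card : ℝ)) ≤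
            Real.exp (4 * l * (k₀ * D ^ (J - r)) * ∑ v ∈ G, w v)

open Classical in
/-- GREEDY CHOICE of `k` disjoint nets. `Gs` are the test sets.

PROOF. Let `x = l E ≤ 1/2`. Choose the sets `T_0, T_1, ...` one after the other; put
`W_j = T_0 ∪ ... ∪ T_(j-1)`, `U_j = univ \ W_j`, `Ψ_j = Σ_{G ∈ Gs} exp (l |G ∩ W_j|)`, and keep
`Ψ_j ≤ |Gs| exp (3 x j)`. If `s ≤ |A i|` take `G ∈ Gs`, `G ⊆ A i`, `s ≤ |G|`: `exp (l |G ∩ W_j|)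
≤ Ψ_j`, so `l |G ∩ W_j| ≤ log |Gs| + 3 x j ≤ l s/2` for `j ≤ k` and
`|A i ∩ U_j| ≥ |G| - |G ∩ W_j| ≥ s/2`.
STEP (`j < k`): let `q` belong to `U_j`. `Σ_T q T Σ_G exp (l |G ∩ W_j|) exp (l |T ∩ G|) ≤ exp x Ψ_j`;
the `T` with `q T ≠ 0` for which no `i` with `s/2 ≤ |A i ∩ U_j|` has `A i ∩ T = ∅` have total weight
`≥ 1 - x ≥ 1/2`; so one of them, `T_j`, has
`Σ_G exp (l |G ∩ W_j| + l |T_j ∩ G|) ≤ exp x Ψ_j/(1 - x) ≤ exp (3 x) Ψ_j` (`1 ≤ (1 - x) exp (2x)`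
for `0 ≤ x ≤ 1/2`). As `T_j ⊆ U_j` is disjoint from `W_j`, the left side is `Ψ_(j+1)`. `T_j` meets all
`A i` with `s ≤ |A i|`. -/
def GreedyNetsStmt : Prop :=
  ∀ (V ι : Type) [Fintype V] [DecidableEq V] [Fintype ι] [DecidableEq ι] (A : ι → Finset V)
    (s l E : ℝ) (Gs : Finset (Finset V)) (k : ℕ), 0 < s → 0 < l → 0 ≤ E → l * E ≤ 1 / 2 →
    (∀ i, s ≤ ((A i).card : ℝ) → ∃ G ∈ Gs, G ⊆ A i ∧ s ≤ (G.card : ℝ)) →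
    (∀ U : Finset V, ∃ q : Finset V → ℝ, (∀ T, 0 ≤ q T) ∧ ∑ T, q T = 1 ∧
      (∀ T, q T ≠ 0 → T ⊆ U) ∧
      ∑ T, q T * (if ∃ i, s / 2 ≤ ((A i ∩ U).card : ℝ) ∧ A i ∩ T = ∅ then (1 : ℝ) else 0) ≤
        l * E ∧
      ∀ G ∈ Gs, ∑ T, q T * Real.exp (l * ((T ∩ G).card : ℝ)) ≤ Real.exp (l * E)) →
    Real.log (Gs.card : ℝ) + 3 * (l * E) * k ≤ l * (s / 2) →
    ∃ T : Fin k → Finset V, (∀ a b, a ≠ b → Disjoint (T a) (T b)) ∧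
      ∀ a i, s ≤ ((A i).card : ℝ) → (A i ∩ T a).Nonempty

/-- TEST SETS.

PROOF (from `TraceStmt` with `Q = univ`; `m ≥ 1`). The sets `A i` belong to `Ps`, and `Ps` has at
most as many elements as there are sets `P` of points with `|P| ≤ 2m-2`, at most `(n+1)^(2m-2)`
(a set with at most `d` points is the image of a map `Fin d → Option V`). For each `e ∈ Ps` with
`s ≤ |e|` choose `G ⊆ e` with `|G| = ⌈s⌉₊ ≤ s + 1 ≤ 2 s`. -/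
def TestStmt : Prop :=
  ∀ (m : ℕ) (V ι : Type) [Fintype V] [DecidableEq V] (A : ι → Finset V) (s : ℝ), 1 ≤ m →
    TwoCol m A → 1 ≤ s → ∃ Gs : Finset (Finset V),
      (∀ i, s ≤ ((A i).card : ℝ) → ∃ G ∈ Gs, G ⊆ A i ∧ s ≤ (G.card : ℝ)) ∧
      (∀ G ∈ Gs, (G.card : ℝ) ≤ 2 * s) ∧ Gs.card ≤ (Fintype.card V + 1) ^ (2 * m - 2)

/-- NUMERICAL CONSTANTS. `a = log (n + 2)`.

PROOF. Take `D = max 2 (b^(1/η))`, so `b ≤ D^η`. `k₀ ≥ max k₁ 1` is chosen below (`k₁` may depend on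
`D`). Let `J ≥ 1` be minimal with `8 a ≤ c k₀ D^(J-1)`. If `J = 1` then `D^J = D ≤ 2 D a` (as
`a ≥ log 2 ≥ 1/2`), otherwise `c k₀ D^(J-2) < 8 a`, `D^J < 8 D² a/(c k₀)`. So `D^J ≤ C₁ a` with
`C₁ = max (2 D) (8 D²/c)` (independent of `k₀ ≥ 1`), and `b^J ≤ (D^J)^η ≤ (C₁ a)^η`. Put
`l = min (1/(32 k₀)) (c/(64 D b^J))`, `E = 16 k₀`. Then `l ≤ 1/4`, `64 l D b^J ≤ c`, `l E ≤ 1/2`,
`1/l ≤ 32 k₀ + (64 D/c) (C₁ a)^η ≤ C₂ a^η` for a constant `C₂` (`a ≥ 1/2`, `η ≤ 1`).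
`2 (n+2) exp (- c k₀ D^(J-1)) ≤ 2 exp (- 7 a)`, and `l E ≥ 16 k₀/(C₂ a^η)`; `C₂ a^η exp (- 7 a)` is at
most `C₂`, hence for the inequality `2 exp (- 7a) ≤ l E` it is enough to use
`1/l ≤ 32 k₀ + (64 D/c) C₁ (1 + a)`: `2 exp (- 7a)/l ≤ 64 k₀ exp (- 7 a) +
(128 D C₁/c) (1+a) exp (- 7a) ≤ 16 k₀` if `k₀ ≥ 16 D C₁/c` (`exp (- 7a) ≤ 2^(-7)`,
`(1+a) exp (- 7 a) ≤ exp (-6 a) ≤ 2^(-6)`). Finally `4 k₀ (D b)^J ≤ 4 k₀ (C₁ a)^(1+η)` and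
`2 (2 m a)/l + 6 E k ≤ 4 m C₂ a^(1+η) + 96 k₀ k` are at most `C (k + a^(1+η))`, for a large
constant `C ≥ 1`, and `1 ≤ C (k + ..)`. -/
def ConstStmt : Prop :=
  ∀ (m : ℕ) (b c η : ℝ), 1 ≤ b → 0 < c → 0 < η → η ≤ 1 → ∃ D : ℝ, 2 ≤ D ∧
    ∀ k₁ : ℝ, 1 ≤ k₁ → ∃ k₀ C : ℝ, k₁ ≤ k₀ ∧ 1 ≤ C ∧
      ∀ (n k : ℕ) (s : ℝ), 1 ≤ k → C * (k + Real.log (n + 2) ^ (1 + η)) ≤ s →
        ∃ (J : ℕ) (l : ℝ), 1 ≤ J ∧ 0 < l ∧ l ≤ 1 / 4 ∧ 64 * l * D * b ^ J ≤ c ∧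
          l * (16 * k₀) ≤ 1 / 2 ∧ 1 ≤ s ∧ 4 * k₀ * (D * b) ^ J ≤ s ∧
          Real.exp (-(c * k₀ * D ^ (J - 1))) * (2 * n) ≤ l * (16 * k₀) ∧
          2 * m * Real.log (n + 2) + 3 * (l * (16 * k₀)) * k ≤ l * (s / 2)

/-- DISJOINT NETS.

PROOF (from `ChainStmt`, `GreedyNetsStmt`, `TestStmt`, `ConstStmt`; for `m = 0` use
`twoCol_mono` of `Transfer2.lean`). Take `b, c` from `ChainStmt`, `D` from `ConstStmt`, `k₁` from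
`ChainStmt`, `k₀, C` from `ConstStmt`. Given `A, k, s` let `n = card V`, `J, l` from `ConstStmt`, `Gs`
from `TestStmt`, `E = 16 k₀`. For `U : Finset V` apply `ChainStmt` with `r = J` and `w v = 2/s` for
`v ∈ U`, `0` otherwise: `2 k₀ (D b)^J (2/s) ≤ 1 = b^0`. The sets `T` with `q T ≠ 0` are in `U`;
`s/2 ≤ |A i ∩ U|` iff `1 ≤ w(A i)`; `Σ_v w v ≤ 2 n/s ≤ 2 n`, so the edge condition holds with `l E`;
for `G ∈ Gs`: `w(G) ≤ 2 |G|/s ≤ 4` and the moment is at most `exp (4 l k₀ 4) = exp (l E)`.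
`log |Gs| ≤ (2m-2) log (n+1) ≤ 2 m log (n+2)`. `GreedyNetsStmt` gives the nets. -/
def LogStmt : Prop :=
  ∀ (m : ℕ) (η : ℝ), 0 < η → η ≤ 1 → ∃ C : ℝ, 0 < C ∧
    ∀ (V ι : Type) [Fintype V] [DecidableEq V] [Fintype ι] [DecidableEq ι] (A : ι → Finset V)
      (k : ℕ) (s : ℝ), TwoCol m A → 1 ≤ k →
      C * (k + Real.log (Fintype.card V + 2) ^ (1 + η)) ≤ s →
      ∃ T : Fin k → Finset V, (∀ a b, a ≠ b → Disjoint (T a) (T b)) ∧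
        ∀ a i, s ≤ ((A i).card : ℝ) → (A i ∩ T a).Nonempty

end Pool.Agent.Lib.MP_9b5ec2_co
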