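import Mathlib
import Pool.Agent.Lib.MP_9b5ec2_co.Defs4
import Pool.Agent.Lib.MP_9b5ec2_co.Weight

/-!
# The averaged packing theorem for weights (`CWGTStmt`)
-/

set_option autoImplicit false

namespace Pool.Agent.Lib.MP_9b5ec2_co

open Finset

section cw

variable {V ι : Type} [Fintype V] [DecidableEq V] [Fintype ι] [DecidableEq ι]

omit [Fintype V] [DecidableEq ι] in
theorem cw_fdeg (n : V → ℕ) (A : ι → Finset V) (y : ι → ℝ) (x : Σ v : V, Fin (n v)) :
    fdeg (wtBlow n A) y x = fdeg A y x.1 := by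
  unfold fdeg
  refine Finset.sum_congr ?_ fun _ _ => rfl
  ext i
  simp only [mem_filter, mem_univ, true_and]
  exact mem_wtBlow n A i x

omit [Fintype V] [DecidableEq V] in
theorem cw_sum (n : V → ℕ) (X : Finset V) (f : V → ℝ) :
    ∑ x ∈ X.sigma (fun v => (univ : Finset (Fin (n v)))), f x.1 = ∑ v ∈ X, (n v : ℝ) * f v := by
  rw [Finset.sum_sigma]
  refine Finset.sum_congr rfl fun v _ => ?_
  change ∑ _s : Fin (n v), f v = (n v : ℝ) * f v
  rw [Finset.sum_const, Finset.card_univ, Fintype.card_fin, nsmul_eq_mul]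

omit [Fintype V] [Fintype ι] [DecidableEq ι] in
theorem cw_inter (n : V → ℕ) (A : ι → Finset V) (i j : ι) :
    (wtBlow n A i ∩ wtBlow n A j).card = ∑ u ∈ A i ∩ A j, n u := by
  have h : wtBlow n A i ∩ wtBlow n A j =
      (A i ∩ A j).sigma (fun v => (univ : Finset (Fin (n v)))) := by
    ext x
    simp only [mem_inter, mem_wtBlow, mem_sigma, mem_univ, and_true]
  rw [h, Finset.card_sigma]
  simp

end cw

/-- The averaged packing theorem for weights. -/
theorem cwgt (h1 : WGTStmt) (h2 : DiscStmt) : CWGTStmt := by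
  intro m hm
  obtain ⟨Λ, γ', s₀, hΛ, hγ', hs₀, hW⟩ := h1 m hm
  refine ⟨γ' / 4, by positivity, ?_⟩
  intro V ι _ _ _ _ A w y X hA hw hy hheavy hX hY hsum hpair
  set P : ℝ := ∑ v ∈ X, w v * fdeg A y v with hPdef
  set Q : ℝ := ∑ v ∈ X, fdeg A y v with hQdef
  have hP : 0 < P := by linarith
  have hQ : 0 ≤ Q := Finset.sum_nonneg fun v hv => (hX v hv).le
  set S : ℝ := max s₀ (16 * Q / P) with hSdef
  have hS₀ : s₀ ≤ S := le_max_left _ _
  have hSpos : 0 < S := by linarith
  have hSP : 16 * Q ≤ S * P := by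
    rw [← div_le_iff₀ hP]
    exact le_max_right _ _
  have hSPpos : 0 < S * P := mul_pos hSpos hP
  set n : V → ℕ := fun v => ⌊S * w v⌋₊ with hn
  have hnle : ∀ v, (n v : ℝ) ≤ S * w v := fun v =>
    Nat.floor_le (mul_nonneg hSpos.le (hw v))
  have hnge : ∀ v, S * w v - 1 ≤ (n v : ℝ) := fun v => (Nat.sub_one_lt_floor _).le
  have hmass : S * P - Q ≤ ∑ x ∈ X.sigma (fun v => (univ : Finset (Fin (n v)))),
      fdeg (wtBlow n A) y x := by
    rw [Finset.sum_congr rfl fun x _ => cw_fdeg n A y x, cw_sum n X (fun v => fdeg A y v),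
      hPdef, hQdef, Finset.mul_sum, ← Finset.sum_sub_distrib]
    refine Finset.sum_le_sum fun v hv => ?_
    have h3 := hnge v
    have h4 := (hX v hv).le
    nlinarith
  have g1 : ∀ i, 2 * S < ((wtBlow n A i).card : ℝ) → y i = 0 := by
    intro i hi
    by_contra hne
    have h3 := hheavy i hne
    rw [card_wtBlow] at hi
    push_cast at hi
    have h4 : ∑ v ∈ A i, (n v : ℝ) ≤ S * 2 := by
      calc ∑ v ∈ A i, (n v : ℝ) ≤ ∑ v ∈ A i, S * w v := Finset.sum_le_sum fun v _ => hnle v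
        _ = S * ∑ v ∈ A i, w v := (Finset.mul_sum _ _ _).symm
        _ ≤ S * 2 := mul_le_mul_of_nonneg_left h3 hSpos.le
    linarith
  have g2 : ∀ x ∈ X.sigma (fun v => (univ : Finset (Fin (n v)))),
      0 < fdeg (wtBlow n A) y x := by
    intro x hx
    rw [cw_fdeg]
    exact hX x.1 (Finset.mem_sigma.1 hx).1
  have g3 : 0 < ∑ x ∈ X.sigma (fun v => (univ : Finset (Fin (n v)))),
      fdeg (wtBlow n A) y x := by
    linarith
  have g4 : S * ∑ i, y i ≤ 4 / 3 * ∑ x ∈ X.sigma (fun v => (univ : Finset (Fin (n v)))),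
      fdeg (wtBlow n A) y x := by
    have h3 : S * ∑ i, y i ≤ S * (5 / 4 * P) := mul_le_mul_of_nonneg_left hsum hSpos.le
    nlinarith
  have g5 : ∀ x ∈ X.sigma (fun v => (univ : Finset (Fin (n v)))),
      ∑ i ∈ univ.filter (fun i => x ∈ wtBlow n A i),
        ∑ j ∈ univ.filter (fun j => x ∈ wtBlow n A j),
        y i * y j * ((wtBlow n A i ∩ wtBlow n A j).card : ℝ) ≤
          γ' / 4 * S * (fdeg (wtBlow n A) y x) ^ 2 := by
    intro x hx
    have hx' := (Finset.mem_sigma.1 hx).1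
    rw [cw_fdeg]
    have hf : (univ.filter fun i => x ∈ wtBlow n A i) = univ.filter fun i => x.1 ∈ A i := by
      ext i
      simp only [mem_filter, mem_univ, true_and]
      exact mem_wtBlow n A i x
    rw [hf]
    have h3 := hpair x.1 hx'
    calc ∑ i ∈ univ.filter (fun i => x.1 ∈ A i), ∑ j ∈ univ.filter (fun j => x.1 ∈ A j),
          y i * y j * ((wtBlow n A i ∩ wtBlow n A j).card : ℝ)
        ≤ ∑ i ∈ univ.filter (fun i => x.1 ∈ A i), ∑ j ∈ univ.filter (fun j => x.1 ∈ A j),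
          S * (y i * y j * ∑ u ∈ A i ∩ A j, w u) := by
          refine Finset.sum_le_sum fun i _ => Finset.sum_le_sum fun j _ => ?_
          rw [cw_inter]
          push_cast
          have h4 : ∑ u ∈ A i ∩ A j, (n u : ℝ) ≤ S * ∑ u ∈ A i ∩ A j, w u := by
            rw [Finset.mul_sum]
            exact Finset.sum_le_sum fun v _ => hnle v
          have h5 : 0 ≤ y i * y j := mul_nonneg (hy i) (hy j)
          calc y i * y j * ∑ u ∈ A i ∩ A j, (n u : ℝ)
              ≤ y i * y j * (S * ∑ u ∈ A i ∩ A j, w u) := mul_le_mul_of_nonneg_left h4 h5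
            _ = S * (y i * y j * ∑ u ∈ A i ∩ A j, w u) := by ring
      _ = S * ∑ i ∈ univ.filter (fun i => x.1 ∈ A i), ∑ j ∈ univ.filter (fun j => x.1 ∈ A j),
          y i * y j * ∑ u ∈ A i ∩ A j, w u := by
          rw [Finset.mul_sum]
          refine Finset.sum_congr rfl fun i _ => ?_
          rw [Finset.mul_sum]
      _ ≤ S * (γ' / 4 * (fdeg A y x.1) ^ 2) := mul_le_mul_of_nonneg_left h3 hSpos.le
      _ = γ' / 4 * S * (fdeg A y x.1) ^ 2 := by ring
  have key := h2 m (Σ v : V, Fin (n v)) ι (wtBlow n A) y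
      (X.sigma (fun v => (univ : Finset (Fin (n v))))) S (γ' / 4) Λ hSpos (by positivity)
      (wtBlow_twoCol n hA) hy g1 g2 g3 g4 g5
  obtain ⟨V', ι', i1, i2, i3, i4, A', h5, h6, h7, h8, h9, h10⟩ := key
  rw [show 4 * (γ' / 4) = γ' by ring] at h9
  exact hW V' ι' A' S h5 hS₀ h6 h7 h8 h9 h10

end Pool.Agent.Lib.MP_9b5ec2_co
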