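import Mathlib
import Pool.Agent.Lib.MP_9b5ec2_co.Defs4

/-!
# Iteration: `r` rounds of sampling (MP_9b5ec2_co)
-/

set_option autoImplicit false

namespace Pool.Agent.Lib.MP_9b5ec2_co

open Finset

section ChainAux

variable {V : Type} [Fintype V] [DecidableEq V]

/-- the law of `R ∪ T'` -/
noncomputable def chainLaw (p : V → ℝ) (qf : Finset V → Finset V → ℝ) (T : Finset V) : ℝ :=
  PEx p univ (fun R => ∑ T', qf R T' * (if R ∪ T' = T then (1 : ℝ) else 0))

theorem chain_push (p : V → ℝ) (qf : Finset V → Finset V → ℝ) (F : Finset V → ℝ) :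
    ∑ T, chainLaw p qf T * F T = PEx p univ (fun R => ∑ T', qf R T' * F (R ∪ T')) := by
  have h1 : ∀ T : Finset V, chainLaw p qf T * F T =
      PEx p univ (fun R => (∑ T', qf R T' * (if R ∪ T' = T then (1 : ℝ) else 0)) * F T) := by
    intro T
    rw [chainLaw, PEx_mul_right]
  rw [Finset.sum_congr rfl fun T _ => h1 T, ← PEx_sum]
  refine PEx_congr p univ _ _ fun R _ => ?_
  have h2 : ∀ T : Finset V,
      (∑ T', qf R T' * (if R ∪ T' = T then (1 : ℝ) else 0)) * F T =
        ∑ T', qf R T' * (if R ∪ T' = T then F T else 0) := by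
    intro T
    rw [Finset.sum_mul]
    refine Finset.sum_congr rfl fun T' _ => ?_
    by_cases h : R ∪ T' = T
    · simp only [h, if_true, mul_one]
    · simp only [h, if_false, mul_zero, zero_mul]
  rw [Finset.sum_congr rfl fun T _ => h2 T, Finset.sum_comm]
  refine Finset.sum_congr rfl fun T' _ => ?_
  rw [← Finset.mul_sum, Finset.sum_ite_eq]
  simp

theorem chainLaw_nonneg {p : V → ℝ} (h0 : ∀ v, 0 ≤ p v) (h1 : ∀ v, p v ≤ 1)
    {qf : Finset V → Finset V → ℝ} (hq : ∀ R T, 0 ≤ qf R T) (T : Finset V) :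
    0 ≤ chainLaw p qf T := by
  refine PEx_nonneg (fun v _ => h0 v) (fun v _ => h1 v) _ fun R _ => ?_
  refine Finset.sum_nonneg fun T' _ => mul_nonneg (hq R T') ?_
  split_ifs <;> norm_num

theorem chainLaw_ne {p : V → ℝ} {qf : Finset V → Finset V → ℝ} {T : Finset V}
    (h : chainLaw p qf T ≠ 0) :
    ∃ R T', (∀ v ∈ R, p v ≠ 0) ∧ qf R T' ≠ 0 ∧ R ∪ T' = T := by
  unfold chainLaw PEx at h
  obtain ⟨R, _, hR⟩ := Finset.exists_ne_zero_of_sum_ne_zero h
  have h1 := right_ne_zero_of_mul hR
  have h2 := left_ne_zero_of_mul (left_ne_zero_of_mul hR)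
  obtain ⟨T', _, hT'⟩ := Finset.exists_ne_zero_of_sum_ne_zero h1
  refine ⟨R, T', fun v hv => Finset.prod_ne_zero_iff.1 h2 v hv, left_ne_zero_of_mul hT', ?_⟩
  by_contra hne
  apply right_ne_zero_of_mul hT'
  simp [hne]

/-- the moment estimate of one round -/
theorem chain_moment {w p : V → ℝ} {x : Finset V → V → ℝ} {b c k l D : ℝ} (G : Finset V)
    (hb : 1 ≤ b) (hc : 0 < c) (hk : 1 ≤ k) (hl : 0 < l) (hl4 : l ≤ 1 / 4) (hD : 2 ≤ D)
    (hw : ∀ v, 0 ≤ w v) (hp : ∀ v, p v = k * w v) (hkw : ∀ v, k * w v ≤ 1 / 2)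
    (hx : ∀ R v, 0 ≤ x R v ∧ x R v ≤ b * w v)
    (hxE : ∀ v, PEx p univ (fun R => x R v) ≤ Real.exp (-(c * k)) * w v)
    (hu : ∀ R, 4 * l * (D * k) * ∑ v ∈ G, x R v ≤ c * k / 4)
    (hDb : D * Real.sqrt b * Real.exp (-(c * k / 4)) ≤ 1 / 2) :
    PEx p univ (fun R => Real.exp (l * ((R ∩ G).card : ℝ)) *
      Real.exp (4 * l * (D * k) * ∑ v ∈ G, x R v)) ≤ Real.exp (4 * l * k * ∑ v ∈ G, w v) := by
  have hp0 : ∀ v ∈ (univ : Finset V), 0 ≤ p v := fun v _ => by
    rw [hp]
    exact mul_nonneg (by linarith) (hw v)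
  have hp1 : ∀ v ∈ (univ : Finset V), p v ≤ 1 := fun v _ => by
    rw [hp]
    linarith [hkw v]
  set W := ∑ v ∈ G, w v with hW
  have hW0 : 0 ≤ W := Finset.sum_nonneg fun v _ => hw v
  have hpW : ∑ v ∈ G, p v = k * W := by
    rw [hW, Finset.mul_sum]
    exact Finset.sum_congr rfl fun v _ => hp v
  have hX0 : ∀ R, 0 ≤ ∑ v ∈ G, x R v := fun R => Finset.sum_nonneg fun v _ => (hx R v).1
  have hXb : ∀ R, ∑ v ∈ G, x R v ≤ b * W := fun R => by
    rw [hW, Finset.mul_sum]
    exact Finset.sum_le_sum fun v _ => (hx R v).2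
  have hXE : PEx p univ (fun R => ∑ v ∈ G, x R v) ≤ Real.exp (-(c * k)) * W := by
    rw [PEx_sum, hW, Finset.mul_sum]
    exact Finset.sum_le_sum fun v _ => hxE v
  have hlk : 0 ≤ l * k := by positivity
  -- exponential moments of `R ∩ G`
  have m1 : PEx p univ (fun R => Real.exp (l * ((R ∩ G).card : ℝ))) ≤
      Real.exp (2 * l * k * W) := by
    refine (PEx_exp_le hp0 G (Finset.subset_univ _) l hl.le).trans ?_
    rw [hpW]
    refine Real.exp_le_exp.2 ?_
    have h1 : Real.exp l - 1 ≤ 2 * l := by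
      have h2 : |Real.exp l - 1| ≤ 2 * |l| := Real.abs_exp_sub_one_le (by
        rw [abs_of_pos hl]; linarith)
      rw [abs_of_pos hl] at h2
      exact (le_abs_self _).trans h2
    have h3 : 0 ≤ k * W := mul_nonneg (by linarith) hW0
    nlinarith [mul_le_mul_of_nonneg_right h1 h3]
  have m2 : PEx p univ (fun R => Real.exp (l * ((R ∩ G).card : ℝ)) ^ 2) ≤
      Real.exp (4 * l * k * W) := by
    have e1 : PEx p univ (fun R => Real.exp (l * ((R ∩ G).card : ℝ)) ^ 2) =
        PEx p univ (fun R => Real.exp (2 * l * ((R ∩ G).card : ℝ))) := by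
      refine PEx_congr p univ _ _ fun R _ => ?_
      rw [← Real.exp_nat_mul]
      congr 1
      push_cast
      ring
    rw [e1]
    refine (PEx_exp_le hp0 G (Finset.subset_univ _) (2 * l) (by linarith)).trans ?_
    rw [hpW]
    refine Real.exp_le_exp.2 ?_
    have h1 : Real.exp (2 * l) - 1 ≤ 4 * l := by
      have h2 : |Real.exp (2 * l) - 1| ≤ 2 * |2 * l| := Real.abs_exp_sub_one_le (by
        rw [abs_of_pos (by linarith)]; linarith)
      rw [abs_of_pos (show 0 < 2 * l by linarith)] at h2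
      linarith [(le_abs_self _).trans h2]
    have h3 : 0 ≤ k * W := mul_nonneg (by linarith) hW0
    nlinarith [mul_le_mul_of_nonneg_right h1 h3]
  have m3 : PEx p univ (fun R => (∑ v ∈ G, x R v) ^ 2) ≤
      b * W ^ 2 * Real.exp (-(c * k)) := by
    have h1 : PEx p univ (fun R => (∑ v ∈ G, x R v) ^ 2) ≤
        PEx p univ (fun R => b * W * ∑ v ∈ G, x R v) := by
      refine PEx_mono hp0 hp1 _ _ fun R _ => ?_
      rw [sq]
      exact mul_le_mul_of_nonneg_right (hXb R) (hX0 R)
    rw [PEx_mul_left] at h1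
    have h2 : 0 ≤ b * W := mul_nonneg (by linarith) hW0
    have h3 := mul_le_mul_of_nonneg_left hXE h2
    calc _ ≤ _ := h1
      _ ≤ _ := h3
      _ = _ := by ring
  have m4 : PEx p univ (fun R => Real.exp (l * ((R ∩ G).card : ℝ)) * ∑ v ∈ G, x R v) ≤
      Real.exp (2 * l * k * W) * (Real.sqrt b * W * Real.exp (-(c * k / 2))) := by
    have h1 := PEx_cauchy hp0 hp1 (fun R => Real.exp (l * ((R ∩ G).card : ℝ)))
      (fun R => ∑ v ∈ G, x R v)
    have h2 : 0 ≤ Real.exp (2 * l * k * W) * (Real.sqrt b * W * Real.exp (-(c * k / 2))) := by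
      positivity
    refine abs_le_of_sq_le_sq' ?_ h2 |>.2
    refine h1.trans ?_
    have h3 : 0 ≤ PEx p univ (fun R => (∑ v ∈ G, x R v) ^ 2) :=
      PEx_nonneg hp0 hp1 _ fun R _ => sq_nonneg _
    refine (mul_le_mul m2 m3 h3 (Real.exp_pos _).le).trans (le_of_eq ?_)
    rw [mul_pow, mul_pow, mul_pow, Real.sq_sqrt (by linarith), ← Real.exp_nat_mul,
      ← Real.exp_nat_mul]
    have e1 : ((2 : ℕ) : ℝ) * (2 * l * k * W) = 4 * l * k * W := by push_cast; ring
    have e2 : ((2 : ℕ) : ℝ) * (-(c * k / 2)) = -(c * k) := by push_cast; ring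
    rw [e1, e2]
  -- the main estimate
  have hpt : ∀ R : Finset V, Real.exp (l * ((R ∩ G).card : ℝ)) *
      Real.exp (4 * l * (D * k) * ∑ v ∈ G, x R v) ≤
      Real.exp (l * ((R ∩ G).card : ℝ)) + 4 * l * (D * k) * Real.exp (c * k / 4) *
        (Real.exp (l * ((R ∩ G).card : ℝ)) * ∑ v ∈ G, x R v) := by
    intro R
    set u := 4 * l * (D * k) * ∑ v ∈ G, x R v with hudef
    have hu0 : 0 ≤ u := by
      have := hX0 R
      positivity
    have h1 : Real.exp u ≤ 1 + u * Real.exp (c * k / 4) := by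
      have h2 := Real.add_one_le_exp (-u)
      have h3 : Real.exp u * Real.exp (-u) = 1 := by
        rw [← Real.exp_add]; simp
      have h4 : Real.exp u * (-u + 1) ≤ 1 :=
        (mul_le_mul_of_nonneg_left h2 (Real.exp_pos _).le).trans (le_of_eq h3)
      have h5 : Real.exp u ≤ Real.exp (c * k / 4) := Real.exp_le_exp.2 (hu R)
      nlinarith [mul_le_mul_of_nonneg_left h5 hu0]
    have h6 := mul_le_mul_of_nonneg_left h1 (Real.exp_pos (l * ((R ∩ G).card : ℝ))).le
    refine h6.trans (le_of_eq ?_)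
    rw [hudef]
    ring
  refine (PEx_mono hp0 hp1 _ _ fun R _ => hpt R).trans ?_
  rw [PEx_add, PEx_mul_left]
  have hcoef : 0 ≤ 4 * l * (D * k) * Real.exp (c * k / 4) := by positivity
  refine (add_le_add m1 (mul_le_mul_of_nonneg_left m4 hcoef)).trans ?_
  have e3 : Real.exp (c * k / 4) * Real.exp (-(c * k / 2)) = Real.exp (-(c * k / 4)) := by
    rw [← Real.exp_add]
    congr 1
    ring
  have e4 : 4 * l * (D * k) * Real.exp (c * k / 4) *
      (Real.exp (2 * l * k * W) * (Real.sqrt b * W * Real.exp (-(c * k / 2)))) =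
      Real.exp (2 * l * k * W) * (4 * (l * k * W) *
        (D * Real.sqrt b * Real.exp (-(c * k / 4)))) := by
    rw [← e3]
    ring
  rw [e4]
  have h7 : 0 ≤ l * k * W := mul_nonneg hlk hW0
  have h8 : 4 * (l * k * W) * (D * Real.sqrt b * Real.exp (-(c * k / 4))) ≤ 2 * l * k * W := by
    have := mul_le_mul_of_nonneg_left hDb (show 0 ≤ 4 * (l * k * W) by positivity)
    linarith
  have h9 := Real.add_one_le_exp (2 * l * k * W)
  have h10 : Real.exp (4 * l * k * W) = Real.exp (2 * l * k * W) * Real.exp (2 * l * k * W) := by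
    rw [← Real.exp_add]
    congr 1
    ring
  rw [h10]
  have h11 := mul_le_mul_of_nonneg_left
    (show 1 + 4 * (l * k * W) * (D * Real.sqrt b * Real.exp (-(c * k / 4))) ≤
      Real.exp (2 * l * k * W) by linarith) (Real.exp_pos (2 * l * k * W)).le
  linarith

end ChainAux

theorem chain (h : SD2Stmt) : ChainStmt := by
  classical
  intro m hm
  obtain ⟨b, c, k₀', hb, hc, hk₀', hSD⟩ := h m hm
  refine ⟨b, c, hb, hc, fun D hD => ?_⟩
  refine ⟨max (max 1 k₀') (4 / c * Real.log (2 * D * Real.sqrt b)),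
    le_max_of_le_left (le_max_left _ _), ?_⟩
  intro k₀ l J r hk₁ hl hl4 hlD hrJ V ι _ _ _ _ A w hA hw hpt
  have hk01 : 1 ≤ k₀ := (le_max_left _ _).trans ((le_max_left _ _).trans hk₁)
  have hk02 : k₀' ≤ k₀ := (le_max_right _ _).trans ((le_max_left _ _).trans hk₁)
  have hk03 : 4 / c * Real.log (2 * D * Real.sqrt b) ≤ k₀ := (le_max_right _ _).trans hk₁
  have hb0 : 0 < b := by linarith
  have hD0 : 0 < D := by linarith
  have hDbk : ∀ k, k₀ ≤ k → D * Real.sqrt b * Real.exp (-(c * k / 4)) ≤ 1 / 2 := by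
    intro k hk
    have hs : 0 < Real.sqrt b := Real.sqrt_pos.2 hb0
    have h1 : Real.log (2 * D * Real.sqrt b) ≤ c * k / 4 := by
      have h2 : 4 / c * Real.log (2 * D * Real.sqrt b) ≤ k := hk03.trans hk
      have h3 := mul_le_mul_of_nonneg_left h2 (show 0 ≤ c / 4 by positivity)
      have h4 : c / 4 * (4 / c * Real.log (2 * D * Real.sqrt b)) =
          Real.log (2 * D * Real.sqrt b) := by
        field_simp
      rw [h4] at h3
      linarith
    have h5 : Real.exp (-(c * k / 4)) ≤ (2 * D * Real.sqrt b)⁻¹ := by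
      rw [Real.exp_neg]
      refine inv_anti₀ (by positivity) ?_
      calc 2 * D * Real.sqrt b = Real.exp (Real.log (2 * D * Real.sqrt b)) :=
            (Real.exp_log (by positivity)).symm
        _ ≤ _ := Real.exp_le_exp.2 h1
    calc D * Real.sqrt b * Real.exp (-(c * k / 4)) ≤
        D * Real.sqrt b * (2 * D * Real.sqrt b)⁻¹ :=
          mul_le_mul_of_nonneg_left h5 (by positivity)
      _ = 1 / 2 := by
        field_simp
  induction r generalizing w with
  | zero =>
    refine ⟨fun T => if T = ∅ then 1 else 0, fun T => ?_, ?_, ?_, ?_, ?_⟩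
    · show (0 : ℝ) ≤ if T = ∅ then 1 else 0
      split_ifs <;> norm_num
    · simp
    · intro T hT v hv
      have h1 : T = ∅ := by
        by_contra hne
        simp [hne] at hT
      rw [h1] at hv
      exact absurd hv (Finset.notMem_empty v)
    · rw [Finset.sum_eq_single ∅ (fun T _ hT => by simp [hT]) (fun h => absurd (Finset.mem_univ _) h)]
      simp only [if_true, one_mul]
      split_ifs with h1
      · obtain ⟨i, hi, -⟩ := h1
        refine hi.trans ?_
        exact Finset.sum_le_sum_of_subset_of_nonneg (Finset.subset_univ _) fun v _ _ => hw v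
      · exact Finset.sum_nonneg fun v _ => hw v
    · intro G _
      rw [Finset.sum_eq_single ∅ (fun T _ hT => by simp [hT]) (fun h => absurd (Finset.mem_univ _) h)]
      simp only [if_true, one_mul, Finset.empty_inter, Finset.card_empty, Nat.cast_zero, mul_zero,
        Real.exp_zero]
      refine Real.one_le_exp ?_
      have := Finset.sum_nonneg fun v (_ : v ∈ G) => hw v
      positivity
  | succ r ih =>
    have hrJ' : r ≤ J := by omega
    have hJr : J - r = (J - (r + 1)) + 1 := by omega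
    set k := k₀ * D ^ (J - (r + 1)) with hk
    have hDp : 1 ≤ D ^ (J - (r + 1)) := one_le_pow₀ (by linarith)
    have hkk : k₀ ≤ k := by
      rw [hk]
      nlinarith
    have hk1 : 1 ≤ k := hk01.trans hkk
    have hkw : ∀ v, k * w v ≤ 1 / 2 := by
      intro v
      have h1 := hpt v
      have h2 : D ^ (J - (r + 1)) ≤ D ^ J := pow_le_pow_right₀ (by linarith) (by omega)
      have h3 : b ^ (J - (r + 1)) ≤ b ^ J := pow_le_pow_right₀ hb (by omega)
      have hbJ : 0 < b ^ J := pow_pos hb0 J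
      have h4 : 2 * k₀ * D ^ J * w v * b ^ J ≤ 1 * b ^ J := by
        calc 2 * k₀ * D ^ J * w v * b ^ J = 2 * k₀ * (D * b) ^ J * w v := by
              rw [mul_pow]; ring
          _ ≤ _ := h1
          _ ≤ _ := by linarith
      have h5 : 2 * k₀ * D ^ J * w v ≤ 1 := le_of_mul_le_mul_right h4 hbJ
      have h6 : k₀ * w v * D ^ (J - (r + 1)) ≤ k₀ * w v * D ^ J :=
        mul_le_mul_of_nonneg_left h2 (mul_nonneg (by linarith) (hw v))
      calc k * w v = k₀ * w v * D ^ (J - (r + 1)) := by rw [hk]; ring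
        _ ≤ _ := h6
        _ ≤ 1 / 2 := by linarith
    obtain ⟨x, hx, hxe, hxE⟩ := hSD k (hk02.trans hkk) V ι A w hA hw hkw
    have hIH : ∀ R : Finset V, _ := fun R => ih hrJ' (x R) (fun v => (hx R v).1) (fun v => by
      have h1 : 0 ≤ 2 * k₀ * (D * b) ^ J := by positivity
      calc 2 * k₀ * (D * b) ^ J * x R v ≤ 2 * k₀ * (D * b) ^ J * (b * w v) :=
            mul_le_mul_of_nonneg_left (hx R v).2 h1
        _ = b * (2 * k₀ * (D * b) ^ J * w v) := by ring
        _ ≤ b * b ^ (J - (r + 1)) := mul_le_mul_of_nonneg_left (hpt v) hb0.le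
        _ = b ^ (J - r) := by rw [hJr, pow_succ]; ring)
    choose qf hq0 hq1 hqs hqe hqm using hIH
    have hp0 : ∀ v, 0 ≤ (fun v => k * w v) v := fun v => mul_nonneg (by linarith) (hw v)
    have hp1 : ∀ v, (fun v => k * w v) v ≤ 1 := fun v => by
      have := hkw v
      show k * w v ≤ 1
      linarith
    refine ⟨chainLaw (fun v => k * w v) qf, chainLaw_nonneg hp0 hp1 hq0, ?_, ?_, ?_, ?_⟩
    · have h1 := chain_push (fun v => k * w v) qf (fun _ => 1)
      simp only [mul_one] at h1
      rw [h1]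
      have h2 : (fun R : Finset V => ∑ T', qf R T') = fun _ => (1 : ℝ) := by
        funext R
        exact hq1 R
      rw [h2, PEx_const]
    · intro T hT v hv
      obtain ⟨R, T', hR, hT', rfl⟩ := chainLaw_ne hT
      rcases Finset.mem_union.1 hv with h1 | h1
      · exact right_ne_zero_of_mul (hR v h1)
      · have h2 := hqs R T' hT' v h1
        intro h3
        apply h2
        have h4 := hx R v
        rw [h3, mul_zero] at h4
        exact le_antisymm h4.2 h4.1
    · rw [chain_push]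
      have hstep : ∀ R : Finset V, ∑ T', qf R T' *
          (if ∃ i, 1 ≤ ∑ v ∈ A i, w v ∧ A i ∩ (R ∪ T') = ∅ then (1 : ℝ) else 0) ≤
          (if r = 0 then 1 else Real.exp (-(c * k₀ * D ^ (J - 1)))) * ∑ v, x R v := by
        intro R
        refine le_trans (Finset.sum_le_sum fun T' _ => ?_) (hqe R)
        refine mul_le_mul_of_nonneg_left ?_ (hq0 R T')
        by_cases h1 : ∃ i, 1 ≤ ∑ v ∈ A i, w v ∧ A i ∩ (R ∪ T') = ∅
        · obtain ⟨i, hi1, hi2⟩ := h1
          rw [Finset.inter_union_distrib_left, Finset.union_eq_empty] at hi2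
          have h2 : ∃ i, 1 ≤ ∑ v ∈ A i, x R v ∧ A i ∩ T' = ∅ :=
            ⟨i, hxe R i hi1 hi2.1, hi2.2⟩
          rw [if_pos h2]
          split_ifs <;> norm_num
        · rw [if_neg h1]
          split_ifs <;> norm_num
      have hF0 : 0 ≤ (if r = 0 then (1 : ℝ) else Real.exp (-(c * k₀ * D ^ (J - 1)))) := by
        split_ifs
        · norm_num
        · exact (Real.exp_pos _).le
      have h1 : PEx (fun v => k * w v) univ (fun R => ∑ T', qf R T' *
          (if ∃ i, 1 ≤ ∑ v ∈ A i, w v ∧ A i ∩ (R ∪ T') = ∅ then (1 : ℝ) else 0)) ≤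
          (if r = 0 then 1 else Real.exp (-(c * k₀ * D ^ (J - 1)))) *
            ∑ v, Real.exp (-(c * k)) * w v := by
        refine (PEx_mono (fun v _ => hp0 v) (fun v _ => hp1 v) _ _ fun R _ => hstep R).trans ?_
        rw [PEx_mul_left, PEx_sum]
        exact mul_le_mul_of_nonneg_left (Finset.sum_le_sum fun v _ => hxE v) hF0
      refine h1.trans ?_
      rw [← Finset.mul_sum, ← mul_assoc]
      refine mul_le_mul_of_nonneg_right ?_ (Finset.sum_nonneg fun v _ => hw v)
      rw [if_neg (Nat.succ_ne_zero r)]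
      by_cases hr : r = 0
      · subst hr
        rw [if_pos rfl, one_mul]
        refine le_of_eq ?_
        congr 1
        rw [hk]
        simp only [zero_add]
        ring
      · rw [if_neg hr]
        have h2 : Real.exp (-(c * k)) ≤ 1 := by
          rw [Real.exp_le_one_iff]
          have : 0 ≤ c * k := by positivity
          linarith
        have h3 := mul_le_mul_of_nonneg_left h2
          (Real.exp_pos (-(c * k₀ * D ^ (J - 1)))).le
        linarith
    · intro G hG
      rw [chain_push]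
      have hDk : k₀ * D ^ (J - r) = D * k := by
        rw [hJr, hk, pow_succ]
        ring
      have hstep : ∀ R : Finset V, ∑ T', qf R T' * Real.exp (l * (((R ∪ T') ∩ G).card : ℝ)) ≤
          Real.exp (l * ((R ∩ G).card : ℝ)) * Real.exp (4 * l * (D * k) * ∑ v ∈ G, x R v) := by
        intro R
        have hxG : ∑ v ∈ G, x R v ≤ 4 * b ^ (J - r) := by
          calc ∑ v ∈ G, x R v ≤ ∑ v ∈ G, b * w v := Finset.sum_le_sum fun v _ => (hx R v).2
            _ = b * ∑ v ∈ G, w v := by rw [Finset.mul_sum]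
            _ ≤ b * (4 * b ^ (J - (r + 1))) := mul_le_mul_of_nonneg_left hG hb0.le
            _ = 4 * b ^ (J - r) := by rw [hJr, pow_succ]; ring
        have h1 := hqm R G hxG
        rw [hDk] at h1
        calc ∑ T', qf R T' * Real.exp (l * (((R ∪ T') ∩ G).card : ℝ)) ≤
            ∑ T', Real.exp (l * ((R ∩ G).card : ℝ)) *
              (qf R T' * Real.exp (l * ((T' ∩ G).card : ℝ))) := by
              refine Finset.sum_le_sum fun T' _ => ?_
              have h2 : (((R ∪ T') ∩ G).card : ℝ) ≤ ((R ∩ G).card : ℝ) + ((T' ∩ G).card : ℝ) := by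
                rw [Finset.union_inter_distrib_right]
                exact_mod_cast Finset.card_union_le _ _
              have h3 : Real.exp (l * (((R ∪ T') ∩ G).card : ℝ)) ≤
                  Real.exp (l * ((R ∩ G).card : ℝ)) * Real.exp (l * ((T' ∩ G).card : ℝ)) := by
                rw [← Real.exp_add]
                refine Real.exp_le_exp.2 ?_
                nlinarith
              have h4 := mul_le_mul_of_nonneg_left h3 (hq0 R T')
              linarith
          _ = Real.exp (l * ((R ∩ G).card : ℝ)) *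
              ∑ T', qf R T' * Real.exp (l * ((T' ∩ G).card : ℝ)) := by rw [Finset.mul_sum]
          _ ≤ _ := mul_le_mul_of_nonneg_left h1 (Real.exp_pos _).le
      refine (PEx_mono (fun v _ => hp0 v) (fun v _ => hp1 v) _ _ fun R _ => hstep R).trans ?_
      refine chain_moment G hb hc hk1 hl hl4 hD hw (fun v => rfl) hkw hx hxE ?_ (hDbk k hkk)
      intro R
      have hxG : ∑ v ∈ G, x R v ≤ 4 * b ^ (J - r) := by
        calc ∑ v ∈ G, x R v ≤ ∑ v ∈ G, b * w v := Finset.sum_le_sum fun v _ => (hx R v).2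
          _ = b * ∑ v ∈ G, w v := by rw [Finset.mul_sum]
          _ ≤ b * (4 * b ^ (J - (r + 1))) := mul_le_mul_of_nonneg_left hG hb0.le
          _ = 4 * b ^ (J - r) := by rw [hJr, pow_succ]; ring
      have hbJ : b ^ (J - r) ≤ b ^ J := pow_le_pow_right₀ hb (by omega)
      have h1 : 4 * l * (D * k) * ∑ v ∈ G, x R v ≤ 4 * l * (D * k) * (4 * b ^ J) :=
        mul_le_mul_of_nonneg_left (by linarith) (by positivity)
      have h2 : 4 * l * (D * k) * (4 * b ^ J) = (64 * l * D * b ^ J) * (k / 4) := by ring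
      have h3 := mul_le_mul_of_nonneg_right hlD (show 0 ≤ k / 4 by positivity)
      linarith

end Pool.Agent.Lib.MP_9b5ec2_co
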