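import Pool.Agent.Lib.MP_9b5ec2_co.Defs

/-! # Cleaning (proof of `CleanStmt`) -/

set_option autoImplicit false

namespace Pool.Agent.Lib.MP_9b5ec2_co

open Finset

/-- The degree after removing one edge. -/
lemma clean_deg_erase {V ι : Type} [DecidableEq V] [DecidableEq ι] (A : ι → Finset V)
    (F : Finset ι) (e : ι) (he : e ∈ F) (v : V) :
    (deg A (F.erase e) v : ℝ) = (deg A F v : ℝ) - (if v ∈ A e then 1 else 0) := by
  unfold deg
  by_cases hv : v ∈ A e
  · rw [if_pos hv, Finset.filter_erase]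
    have h1 : e ∈ F.filter (fun e => v ∈ A e) := by simp [he, hv]
    rw [Finset.cast_card_erase_of_mem h1]
  · rw [if_neg hv, Finset.filter_erase]
    have h1 : e ∉ F.filter (fun e => v ∈ A e) := by simp [hv]
    rw [Finset.erase_eq_of_notMem h1]
    ring

/-- Number of the incidences of one edge. -/
lemma clean_sum_mem {V ι : Type} [DecidableEq V] (A : ι → Finset V)
    (Z : Finset V) (e : ι) :
    (∑ v ∈ Z, (if v ∈ A e then (1 : ℝ) else 0)) = ((A e ∩ Z).card : ℝ) := by
  rw [Finset.sum_ite_mem, Finset.sum_const, nsmul_eq_mul, mul_one, Finset.inter_comm]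

lemma clean_deg_mono {V ι : Type} [DecidableEq V] (A : ι → Finset V)
    (F F' : Finset ι) (h : F' ⊆ F) (v : V) : (deg A F' v : ℝ) ≤ (deg A F v : ℝ) := by
  unfold deg
  exact_mod_cast Finset.card_le_card (Finset.filter_subset_filter _ h)

/-- The invariant of the cleaning procedure. -/
def CleanInv {V ι : Type} [DecidableEq V] [DecidableEq ι] (A : ι → Finset V) (Z : Finset V)
    (F : Bool → Finset ι) (τ : Bool → ℝ) (q : ℝ) (Z' : Finset V) (F' : Bool → Finset ι) : Prop :=
  ((Z \ Z').card : ℝ) +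
      ∑ c : Bool, ∑ v ∈ Z', ((deg A (F c) v : ℝ) - (deg A (F' c) v : ℝ)) / (τ c / 2) ≤
    ∑ c : Bool, q * ((F c \ F' c).card : ℝ) / (τ c / 2)

lemma clean_step_edge {V ι : Type} [DecidableEq V] [DecidableEq ι] (A : ι → Finset V)
    (Z : Finset V) (F : Bool → Finset ι) (τ : Bool → ℝ) (q : ℝ) (hτ : ∀ c, 0 < τ c)
    (Z' : Finset V) (F' : Bool → Finset ι) (hF : ∀ c, F' c ⊆ F c)
    (hI : CleanInv A Z F τ q Z' F') (c : Bool) (e : ι) (he : e ∈ F' c)
    (hq : ((A e ∩ Z').card : ℝ) < q) :
    CleanInv A Z F τ q Z' (Function.update F' c ((F' c).erase e)) := by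
  unfold CleanInv at hI ⊢
  have key1 : ∀ d : Bool, (∑ v ∈ Z', ((deg A (F d) v : ℝ) -
      (deg A (Function.update F' c ((F' c).erase e) d) v : ℝ)) / (τ d / 2)) =
      (∑ v ∈ Z', ((deg A (F d) v : ℝ) - (deg A (F' d) v : ℝ)) / (τ d / 2)) +
        (if d = c then ((A e ∩ Z').card : ℝ) / (τ c / 2) else 0) := by
    intro d
    by_cases hd : d = c
    · subst hd
      rw [Function.update_self, if_pos rfl, ← clean_sum_mem, Finset.sum_div,
        ← Finset.sum_add_distrib]
      apply Finset.sum_congr rfl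
      intro v _
      rw [clean_deg_erase A _ e he v]
      ring
    · rw [Function.update_of_ne hd, if_neg hd, add_zero]
  have key2 : ∀ d : Bool,
      q * ((F d \ (Function.update F' c ((F' c).erase e) d)).card : ℝ) / (τ d / 2) =
      q * ((F d \ F' d).card : ℝ) / (τ d / 2) + (if d = c then q / (τ c / 2) else 0) := by
    intro d
    by_cases hd : d = c
    · subst hd
      rw [Function.update_self, if_pos rfl]
      have h1 : F d \ (F' d).erase e = insert e (F d \ F' d) := by
        ext x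
        simp only [Finset.mem_sdiff, Finset.mem_erase, Finset.mem_insert, not_and]
        constructor
        · rintro ⟨hx, hx2⟩
          by_cases hxe : x = e
          · exact Or.inl hxe
          · exact Or.inr ⟨hx, hx2 hxe⟩
        · rintro (hx | ⟨hx, hx2⟩)
          · subst hx
            exact ⟨hF d he, fun h => absurd rfl h⟩
          · exact ⟨hx, fun _ => hx2⟩
      have h2 : e ∉ F d \ F' d := by simp [he]
      rw [h1, Finset.card_insert_of_notMem h2]
      push_cast
      ring
    · rw [Function.update_of_ne hd, if_neg hd, add_zero]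
  simp only [key1, key2, Finset.sum_add_distrib, Finset.sum_ite_eq', Finset.mem_univ, if_true]
  have h3 : ((A e ∩ Z').card : ℝ) / (τ c / 2) ≤ q / (τ c / 2) :=
    div_le_div_of_nonneg_right hq.le (by linarith [hτ c])
  linarith

lemma clean_step_vertex {V ι : Type} [DecidableEq V] [DecidableEq ι] (A : ι → Finset V)
    (Z : Finset V) (F : Bool → Finset ι) (τ : Bool → ℝ) (q : ℝ) (hτ : ∀ c, 0 < τ c)
    (hdeg : ∀ c, ∀ v ∈ Z, τ c ≤ (deg A (F c) v : ℝ))
    (Z' : Finset V) (F' : Bool → Finset ι) (hZ : Z' ⊆ Z) (hF : ∀ c, F' c ⊆ F c)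
    (hI : CleanInv A Z F τ q Z' F') (c : Bool) (v : V) (hv : v ∈ Z')
    (hlow : (deg A (F' c) v : ℝ) < τ c / 2) :
    CleanInv A Z F τ q (Z'.erase v) F' := by
  unfold CleanInv at hI ⊢
  have h1 : Z \ Z'.erase v = insert v (Z \ Z') := by
    ext x
    simp only [Finset.mem_sdiff, Finset.mem_erase, Finset.mem_insert, not_and]
    constructor
    · rintro ⟨hx, hx2⟩
      by_cases hxe : x = v
      · exact Or.inl hxe
      · exact Or.inr ⟨hx, hx2 hxe⟩
    · rintro (hx | ⟨hx, hx2⟩)
      · subst hx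
        exact ⟨hZ hv, fun h => absurd rfl h⟩
      · exact ⟨hx, fun _ => hx2⟩
  have h2 : v ∉ Z \ Z' := by simp [hv]
  rw [h1, Finset.card_insert_of_notMem h2]
  have key : ∀ d : Bool, (∑ w ∈ Z'.erase v, ((deg A (F d) w : ℝ) -
      (deg A (F' d) w : ℝ)) / (τ d / 2)) =
      (∑ w ∈ Z', ((deg A (F d) w : ℝ) - (deg A (F' d) w : ℝ)) / (τ d / 2)) -
        ((deg A (F d) v : ℝ) - (deg A (F' d) v : ℝ)) / (τ d / 2) := by
    intro d
    rw [← Finset.sum_erase_add _ _ hv]
    ring
  simp only [key, Finset.sum_sub_distrib]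
  have h3 : 1 ≤ ((deg A (F c) v : ℝ) - (deg A (F' c) v : ℝ)) / (τ c / 2) := by
    rw [le_div_iff₀ (by linarith [hτ c])]
    linarith [hdeg c v (hZ hv)]
  have h4 : ∀ d : Bool, 0 ≤ ((deg A (F d) v : ℝ) - (deg A (F' d) v : ℝ)) / (τ d / 2) := by
    intro d
    apply div_nonneg
    · linarith [clean_deg_mono A (F d) (F' d) (hF d) v]
    · linarith [hτ d]
  have h5 : 1 ≤ ∑ d : Bool, ((deg A (F d) v : ℝ) - (deg A (F' d) v : ℝ)) / (τ d / 2) :=
    le_trans h3 (Finset.single_le_sum (fun d _ => h4 d) (Finset.mem_univ c))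
  push_cast
  linarith

lemma clean_aux {V ι : Type} [DecidableEq V] [DecidableEq ι] (A : ι → Finset V)
    (Z : Finset V) (F : Bool → Finset ι) (τ : Bool → ℝ) (q : ℝ) (hq0 : 0 ≤ q)
    (hτ : ∀ c, 0 < τ c)
    (hdeg : ∀ c, ∀ v ∈ Z, τ c ≤ (deg A (F c) v : ℝ)) :
    ∀ (N : ℕ) (Z' : Finset V) (F' : Bool → Finset ι), Z' ⊆ Z → (∀ c, F' c ⊆ F c) →
      CleanInv A Z F τ q Z' F' → Z'.card + ∑ c : Bool, (F' c).card = N →
    ∃ (Z' : Finset V) (F' : Bool → Finset ι), Z' ⊆ Z ∧ (∀ c, F' c ⊆ F c) ∧
      (∀ c, ∀ v ∈ Z', τ c / 2 ≤ (deg A (F' c) v : ℝ)) ∧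
      (∀ c, ∀ e ∈ F' c, q ≤ ((A e ∩ Z').card : ℝ)) ∧
      ((Z \ Z').card : ℝ) ≤ ∑ c : Bool, q * ((F c).card : ℝ) / (τ c / 2) := by
  intro N
  induction N using Nat.strong_induction_on with
  | _ N ih =>
    intro Z' F' hZ hF hI hN
    by_cases h1 : ∀ c, ∀ e ∈ F' c, q ≤ ((A e ∩ Z').card : ℝ)
    · by_cases h2 : ∀ c, ∀ v ∈ Z', τ c / 2 ≤ (deg A (F' c) v : ℝ)
      · refine ⟨Z', F', hZ, hF, h2, h1, ?_⟩
        unfold CleanInv at hI
        have h3 : 0 ≤ ∑ c : Bool, ∑ v ∈ Z',
            ((deg A (F c) v : ℝ) - (deg A (F' c) v : ℝ)) / (τ c / 2) := by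
          apply Finset.sum_nonneg
          intro c _
          apply Finset.sum_nonneg
          intro v _
          apply div_nonneg
          · linarith [clean_deg_mono A (F c) (F' c) (hF c) v]
          · linarith [hτ c]
        have h4 : ∑ c : Bool, q * ((F c \ F' c).card : ℝ) / (τ c / 2) ≤
            ∑ c : Bool, q * ((F c).card : ℝ) / (τ c / 2) := by
          apply Finset.sum_le_sum
          intro c _
          apply div_le_div_of_nonneg_right _ (by linarith [hτ c])
          apply mul_le_mul_of_nonneg_left _ hq0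
          exact_mod_cast Finset.card_le_card Finset.sdiff_subset
        linarith
      · push Not at h2
        obtain ⟨c, v, hv, hlow⟩ := h2
        refine ih _ ?_ (Z'.erase v) F' (subset_trans (Finset.erase_subset _ _) hZ) hF
          (clean_step_vertex A Z F τ q hτ hdeg Z' F' hZ hF hI c v hv hlow) rfl
        rw [← hN]
        have := Finset.card_erase_lt_of_mem hv
        omega
    · push Not at h1
      obtain ⟨c, e, he, hlow⟩ := h1
      refine ih _ ?_ Z' (Function.update F' c ((F' c).erase e)) hZ ?_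
        (clean_step_edge A Z F τ q hτ Z' F' hF hI c e he hlow) rfl
      · rw [← hN]
        have h5 := Finset.card_erase_lt_of_mem he
        have h6 : ∑ d : Bool, (Function.update F' c ((F' c).erase e) d).card <
            ∑ d : Bool, (F' d).card := by
          apply Finset.sum_lt_sum
          · intro d _
            by_cases hd : d = c
            · subst hd
              rw [Function.update_self]
              exact h5.le
            · rw [Function.update_of_ne hd]
          · exact ⟨c, Finset.mem_univ c, by rw [Function.update_self]; exact h5⟩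
        omega
      · intro d
        by_cases hd : d = c
        · subst hd
          rw [Function.update_self]
          exact subset_trans (Finset.erase_subset _ _) (hF d)
        · rw [Function.update_of_ne hd]
          exact hF d

theorem clean : CleanStmt := by
  intro V ι _ _ A Z F τ q hq0 hτ hdeg
  refine clean_aux A Z F τ q hq0 hτ hdeg _ Z F (subset_refl _) (fun _ => subset_refl _) ?_ rfl
  unfold CleanInv
  simp

end Pool.Agent.Lib.MP_9b5ec2_co
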