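import Mathlib
import Pool.Agent.Lib.MP_9b5ec2_co.Defs2
import Pool.Agent.Lib.MP_9b5ec2_co.Ex

/-! Expectation of the number of close pairs (`CloseExStmt`). -/

set_option autoImplicit false

namespace Pool.Agent.Lib.MP_9b5ec2_co

open Finset

/-- ordered close pairs of distinct points of `A e` -/
def closePairs {V ι : Type} [Fintype V] [DecidableEq V] [Fintype ι] [DecidableEq ι]
    (A : ι → Finset V) (K : ℕ) (e : ι) : Finset (V × V) :=
  (A e ×ˢ A e).filter (fun q => q.1 ≠ q.2 ∧ blk A K q.1 ≤ blk A K q.2 + 1 ∧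
    blk A K q.2 ≤ blk A K q.1 + 1)

theorem closeEx_clo {V ι : Type} [Fintype V] [DecidableEq V] [Fintype ι] [DecidableEq ι]
    (A : ι → Finset V) (K : ℕ) (p : ℝ) (e : ι) :
    Ex p univ (fun T => (clo A K T e : ℝ)) = p ^ 2 * ((closePairs A K e).card : ℝ) := by
  have h1 : Ex p univ (fun T => (clo A K T e : ℝ)) =
      Ex p univ (fun T => ∑ q ∈ closePairs A K e, if q.1 ∈ T ∧ q.2 ∈ T then (1 : ℝ) else 0) := by
    refine Ex_congr p univ _ _ fun T _ => ?_
    rw [← Finset.sum_filter, Finset.sum_const, nsmul_eq_mul, mul_one]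
    have h2 : (closePairs A K e).filter (fun q => q.1 ∈ T ∧ q.2 ∈ T) =
        ((A e ∩ T) ×ˢ (A e ∩ T)).filter (fun q => q.1 ≠ q.2 ∧ blk A K q.1 ≤ blk A K q.2 + 1 ∧
          blk A K q.2 ≤ blk A K q.1 + 1) := by
      ext ⟨a, b⟩
      simp only [closePairs, Finset.mem_filter, Finset.mem_product, Finset.mem_inter]
      tauto
    rw [h2]
    rfl
  rw [h1, Ex_sum]
  have h3 : ∀ q ∈ closePairs A K e,
      Ex p univ (fun T => if q.1 ∈ T ∧ q.2 ∈ T then (1 : ℝ) else 0) = p ^ 2 := by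
    intro q hq
    exact Ex_pair p univ (mem_univ _) (mem_univ _) (Finset.mem_filter.1 hq).2.1
  rw [Finset.sum_congr rfl h3, Finset.sum_const, nsmul_eq_mul, mul_comm]

theorem closeEx_card {V ι : Type} [Fintype V] [DecidableEq V] [Fintype ι] [DecidableEq ι]
    (A : ι → Finset V) (K : ℕ) (s : ℝ) (e : ι) (hA : ((A e).card : ℝ) ≤ 2 * s) :
    ((closePairs A K e).card : ℝ) ≤ 4 * s ^ 2 := by
  have h0 : (0 : ℝ) ≤ (A e).card := Nat.cast_nonneg _
  have h1 : (closePairs A K e).card ≤ (A e).card * (A e).card := by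
    rw [← Finset.card_product]
    exact Finset.card_le_card (Finset.filter_subset _ _)
  have h2 : ((closePairs A K e).card : ℝ) ≤ (A e).card * (A e).card := by exact_mod_cast h1
  nlinarith

theorem closeEx_card_good {V ι : Type} [Fintype V] [DecidableEq V] [Fintype ι] [DecidableEq ι]
    (A : ι → Finset V) (K : ℕ) (s η : ℝ) (e : ι) (hs : 0 ≤ s) (hη : 0 ≤ η)
    (hA : ((A e).card : ℝ) ≤ 2 * s)
    (hg : ∀ i : ℕ, (((A e).filter (fun v => blk A K v = i ∨ blk A K v = i + 1)).card : ℝ)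
      ≤ η * s) :
    ((closePairs A K e).card : ℝ) ≤ 4 * η * s ^ 2 := by
  have h1 : (closePairs A K e).card = ∑ u ∈ A e, ((A e).filter (fun v => u ≠ v ∧
      blk A K u ≤ blk A K v + 1 ∧ blk A K v ≤ blk A K u + 1)).card := by
    unfold closePairs
    rw [Finset.card_filter, Finset.sum_product]
    refine Finset.sum_congr rfl fun u _ => ?_
    rw [Finset.card_filter]
  have h2 : ∀ u ∈ A e, (((A e).filter (fun v => u ≠ v ∧
      blk A K u ≤ blk A K v + 1 ∧ blk A K v ≤ blk A K u + 1)).card : ℝ) ≤ 2 * (η * s) := by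
    intro u _
    have hsub : (A e).filter (fun v => u ≠ v ∧
        blk A K u ≤ blk A K v + 1 ∧ blk A K v ≤ blk A K u + 1) ⊆
        (A e).filter (fun v => blk A K v = blk A K u - 1 ∨ blk A K v = blk A K u - 1 + 1) ∪
        (A e).filter (fun v => blk A K v = blk A K u ∨ blk A K v = blk A K u + 1) := by
      intro v hv
      simp only [Finset.mem_filter, Finset.mem_union] at hv ⊢
      obtain ⟨hv1, _, hv2, hv3⟩ := hv
      by_cases h : blk A K v = blk A K u ∨ blk A K v = blk A K u + 1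
      · exact Or.inr ⟨hv1, h⟩
      · refine Or.inl ⟨hv1, Or.inl ?_⟩
        omega
    have hc := (Finset.card_le_card hsub).trans (Finset.card_union_le _ _)
    have hc' : (((A e).filter (fun v => u ≠ v ∧
      blk A K u ≤ blk A K v + 1 ∧ blk A K v ≤ blk A K u + 1)).card : ℝ) ≤
      (((A e).filter (fun v => blk A K v = blk A K u - 1 ∨
        blk A K v = blk A K u - 1 + 1)).card : ℝ) +
      (((A e).filter (fun v => blk A K v = blk A K u ∨ blk A K v = blk A K u + 1)).card : ℝ) := by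
      exact_mod_cast hc
    have g1 := hg (blk A K u - 1)
    have g2 := hg (blk A K u)
    linarith
  rw [h1]
  push_cast
  refine (Finset.sum_le_sum h2).trans ?_
  rw [Finset.sum_const, nsmul_eq_mul]
  have : 0 ≤ η * s := mul_nonneg hη hs
  nlinarith

theorem closeEx : CloseExStmt := by
  intro V ι _ _ _ _ A K s θ η ε hs hθ hθ1 hη hε hA hN hsp
  obtain ⟨Bad, hBad, hgood⟩ := hsp
  have hs0 : 0 < s := by linarith
  have hmain : Ex (θ / s) univ (fun T => 2 * s * ∑ e, (clo A K T e : ℝ)) =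
      2 * s * ∑ e, (θ / s) ^ 2 * ((closePairs A K e).card : ℝ) := by
    rw [Ex_mul_left, Ex_sum]
    congr 1
    exact Finset.sum_congr rfl fun e _ => closeEx_clo A K (θ / s) e
  rw [hmain, ← Finset.mul_sum]
  have hsum : ∑ e, ((closePairs A K e).card : ℝ) ≤
      4 * η * s ^ 2 * (Fintype.card ι : ℝ) + 4 * s ^ 2 * (ε * (Fintype.card ι : ℝ)) := by
    have h1 : ∀ e ∈ (univ : Finset ι), ((closePairs A K e).card : ℝ) ≤
        4 * η * s ^ 2 + if e ∈ Bad then 4 * s ^ 2 else 0 := by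
      intro e _
      split_ifs with h
      · have h2 := closeEx_card A K s e (hA e)
        have h3 : 0 ≤ 4 * η * s ^ 2 := by positivity
        linarith
      · have h2 := closeEx_card_good A K s η e hs0.le hη (hA e) (hgood e h)
        linarith
    refine (Finset.sum_le_sum h1).trans ?_
    rw [Finset.sum_add_distrib, Finset.sum_const, nsmul_eq_mul, Finset.sum_ite_mem,
      Finset.sum_const, nsmul_eq_mul, Finset.univ_inter, Finset.card_univ]
    have h4 : (Bad.card : ℝ) * (4 * s ^ 2) ≤ 4 * s ^ 2 * (ε * (Fintype.card ι : ℝ)) := by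
      rw [mul_comm]
      exact mul_le_mul_of_nonneg_left hBad (by positivity)
    linarith
  have hM : 0 ≤ mass A := Finset.sum_nonneg fun v _ => Nat.cast_nonneg _
  have hN0 : (0 : ℝ) ≤ (Fintype.card ι : ℝ) := Nat.cast_nonneg _
  have hp : 0 ≤ 2 * s * (θ / s) ^ 2 := by positivity
  calc 2 * s * ((θ / s) ^ 2 * ∑ e, ((closePairs A K e).card : ℝ))
      = 2 * s * (θ / s) ^ 2 * ∑ e, ((closePairs A K e).card : ℝ) := by ring
    _ ≤ 2 * s * (θ / s) ^ 2 * (4 * η * s ^ 2 * (Fintype.card ι : ℝ) +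
          4 * s ^ 2 * (ε * (Fintype.card ι : ℝ))) := mul_le_mul_of_nonneg_left hsum hp
    _ = 8 * (η + ε) * θ ^ 2 * ((Fintype.card ι : ℝ) * s) := by
        field_simp
        ring
    _ ≤ 8 * (η + ε) * 1 * (4 * mass A) := by
        have hθ2 : θ ^ 2 ≤ 1 := by nlinarith
        have h5 : 0 ≤ 8 * (η + ε) := by linarith
        have h6 : 8 * (η + ε) * θ ^ 2 ≤ 8 * (η + ε) * 1 := mul_le_mul_of_nonneg_left hθ2 h5
        have h7 : 0 ≤ (Fintype.card ι : ℝ) * s := mul_nonneg hN0 hs0.le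
        calc 8 * (η + ε) * θ ^ 2 * ((Fintype.card ι : ℝ) * s)
            ≤ 8 * (η + ε) * 1 * ((Fintype.card ι : ℝ) * s) := mul_le_mul_of_nonneg_right h6 h7
          _ ≤ 8 * (η + ε) * 1 * (4 * mass A) := mul_le_mul_of_nonneg_left hN (by linarith)
    _ = 32 * (η + ε) * mass A := by ring

end Pool.Agent.Lib.MP_9b5ec2_co
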