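import Mathlib
import Pool.Agent.Lib.MP_9b5ec2_co.Defs4

/-!
# Numerical constants (MP_9b5ec2_co, `ConstStmt`)
-/

set_option autoImplicit false

namespace Pool.Agent.Lib.MP_9b5ec2_co

/-- choice of the number of rounds -/
theorem const_exists_J (D c k₀ a : ℝ) (hD : 2 ≤ D) (hc : 0 < c) (hk : 1 ≤ k₀) (ha : 1 / 2 ≤ a) :
    ∃ j : ℕ, 8 * a ≤ c * k₀ * D ^ j ∧ D ^ (j + 1) ≤ max (2 * D) (8 * D ^ 2 / c) * a := by
  have hD0 : 0 < D := by linarith
  have hex : ∃ j : ℕ, 8 * a ≤ c * k₀ * D ^ j := by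
    obtain ⟨j, hj⟩ := pow_unbounded_of_one_lt (8 * a / (c * k₀)) (show (1 : ℝ) < D by linarith)
    refine ⟨j, ?_⟩
    have hck : 0 < c * k₀ := by positivity
    rw [div_lt_iff₀ hck] at hj
    linarith
  classical
  refine ⟨Nat.find hex, Nat.find_spec hex, ?_⟩
  rcases Nat.eq_zero_or_pos (Nat.find hex) with h0 | h0
  · rw [h0]
    have h1 : 2 * D ≤ max (2 * D) (8 * D ^ 2 / c) := le_max_left _ _
    calc D ^ (0 + 1) = 2 * D * (1 / 2) := by ring
      _ ≤ 2 * D * a := by gcongr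
      _ ≤ _ := by gcongr
  · obtain ⟨i, hi⟩ := Nat.exists_eq_succ_of_ne_zero h0.ne'
    have h1 : ¬ 8 * a ≤ c * k₀ * D ^ i := Nat.find_min hex (by omega)
    rw [not_le] at h1
    rw [hi]
    have h2 : 8 * D ^ 2 / c ≤ max (2 * D) (8 * D ^ 2 / c) := le_max_right _ _
    have h3 : c * D ^ i ≤ 8 * a := by
      have : c * D ^ i * 1 ≤ c * D ^ i * k₀ := by gcongr
      nlinarith
    calc D ^ (i.succ + 1) = D ^ 2 / c * (c * D ^ i) := by
          field_simp
          rw [Nat.succ_eq_add_one]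
          ring
      _ ≤ D ^ 2 / c * (8 * a) := by gcongr
      _ = 8 * D ^ 2 / c * a := by ring
      _ ≤ _ := by gcongr

/-- **Numerical constants.** -/
theorem consts : ConstStmt := by
  intro m b c η hb hc hη hη1
  obtain ⟨D, hDdef⟩ : ∃ D : ℝ, D = max 2 (b ^ (1 / η)) := ⟨_, rfl⟩
  have hD2 : 2 ≤ D := by rw [hDdef]; exact le_max_left _ _
  have hD0 : 0 < D := by linarith
  have hbD : b ≤ D ^ η := by
    have h1 : b ^ (1 / η) ≤ D := by rw [hDdef]; exact le_max_right _ _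
    calc b = (b ^ (1 / η)) ^ η := by
          rw [← Real.rpow_mul (by linarith), one_div_mul_cancel hη.ne', Real.rpow_one]
      _ ≤ D ^ η := Real.rpow_le_rpow (by positivity) h1 hη.le
  have hbD1 : b ≤ D := hbD.trans (by
    calc D ^ η ≤ D ^ (1 : ℝ) := Real.rpow_le_rpow_of_exponent_le (by linarith) hη1
      _ = D := Real.rpow_one D)
  refine ⟨D, hD2, fun k₁ hk₁ => ?_⟩
  obtain ⟨C₁, hC₁⟩ : ∃ C₁ : ℝ, C₁ = max (2 * D) (8 * D ^ 2 / c) := ⟨_, rfl⟩
  have hC₁0 : 0 < C₁ := by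
    rw [hC₁]; exact lt_of_lt_of_le (by linarith) (le_max_left _ _)
  obtain ⟨k₀, hk₀⟩ : ∃ k₀ : ℝ, k₀ = max k₁ (8 * D * C₁ / c) := ⟨_, rfl⟩
  have hk₀1 : k₁ ≤ k₀ := by rw [hk₀]; exact le_max_left _ _
  have hk₀2 : 8 * D * C₁ / c ≤ k₀ := by rw [hk₀]; exact le_max_right _ _
  have hk01 : 1 ≤ k₀ := hk₁.trans hk₀1
  have hk00 : 0 < k₀ := by linarith
  obtain ⟨Q, hQ⟩ : ∃ Q : ℝ, Q = C₁ ^ η := ⟨_, rfl⟩
  have hQ0 : 0 < Q := by rw [hQ]; positivity
  have hm0 : (0 : ℝ) ≤ m := Nat.cast_nonneg m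
  obtain ⟨C, hC⟩ : ∃ C : ℝ, C = 1 + 96 * k₀ + 4 * k₀ * (C₁ * Q) + 256 * m * k₀ +
    256 * m * D / c * Q := ⟨_, rfl⟩
  have hp1 : 0 ≤ 4 * k₀ * (C₁ * Q) := by positivity
  have hp2 : 0 ≤ 256 * m * k₀ := by positivity
  have hp3 : 0 ≤ 256 * m * D / c * Q := by positivity
  have hC1 : 1 ≤ C := by rw [hC]; linarith
  refine ⟨k₀, C, hk₀1, hC1, ?_⟩
  intro n k s hk hs
  obtain ⟨a, ha⟩ : ∃ a : ℝ, a = Real.log (n + 2) := ⟨_, rfl⟩
  rw [← ha] at hs ⊢
  have hn0 : (0 : ℝ) ≤ n := Nat.cast_nonneg n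
  have hexpa : Real.exp a = n + 2 := by rw [ha]; exact Real.exp_log (by linarith)
  have hlog2 : Real.log 2 ≤ a := by
    rw [ha]; exact Real.log_le_log (by norm_num) (by linarith)
  have ha2 : 1 / 2 ≤ a := by
    have := Real.log_two_gt_d9
    linarith
  have ha0 : 0 < a := by linarith
  obtain ⟨P, hP⟩ : ∃ P : ℝ, P = a ^ η := ⟨_, rfl⟩
  have hP0 : 0 < P := by rw [hP]; positivity
  have hX : a ^ (1 + η) = a * P := by
    rw [Real.rpow_add ha0, Real.rpow_one, hP]
  rw [hX] at hs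
  have haX : a ≤ 2 * (a * P) := by
    have h1 : 1 ≤ (2 * a) ^ η := Real.one_le_rpow (by linarith) hη.le
    have h2 : (2 * a) ^ η = 2 ^ η * P := by
      rw [Real.mul_rpow (by norm_num) ha0.le, hP]
    have h3 : (2 : ℝ) ^ η ≤ 2 := by
      calc (2 : ℝ) ^ η ≤ 2 ^ (1 : ℝ) := Real.rpow_le_rpow_of_exponent_le (by norm_num) hη1
        _ = 2 := Real.rpow_one 2
    have h4 : 1 ≤ 2 * P := by
      calc (1 : ℝ) ≤ 2 ^ η * P := by rw [← h2]; exact h1
        _ ≤ 2 * P := by gcongr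
    nlinarith
  obtain ⟨j, hj1, hj2⟩ := const_exists_J D c k₀ a hD2 hc hk01 ha2
  rw [← hC₁] at hj2
  have hDb : b ^ (j + 1) ≤ D ^ (j + 1) := by gcongr
  have hbJ : b ^ (j + 1) ≤ Q * P := by
    calc b ^ (j + 1) ≤ (D ^ η) ^ (j + 1) := by gcongr
      _ = (D ^ (j + 1)) ^ η := by
        rw [← Real.rpow_natCast, ← Real.rpow_mul hD0.le, mul_comm, Real.rpow_mul hD0.le,
          Real.rpow_natCast]
      _ ≤ (C₁ * a) ^ η := Real.rpow_le_rpow (by positivity) hj2 hη.le
      _ = Q * P := by rw [Real.mul_rpow hC₁0.le ha0.le, hQ, hP]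
  have hbJ0 : 0 < b ^ (j + 1) := by positivity
  obtain ⟨l, hl⟩ : ∃ l : ℝ, l = min (1 / (32 * k₀)) (c / (64 * D * b ^ (j + 1))) := ⟨_, rfl⟩
  have hl0 : 0 < l := by rw [hl]; exact lt_min (by positivity) (by positivity)
  have hl1 : l ≤ 1 / (32 * k₀) := by rw [hl]; exact min_le_left _ _
  have hl2 : l ≤ c / (64 * D * b ^ (j + 1)) := by rw [hl]; exact min_le_right _ _
  have hl1' : l * (32 * k₀) ≤ 1 := by
    rwa [le_div_iff₀ (by positivity)] at hl1
  have hl2' : l * (64 * D * b ^ (j + 1)) ≤ c := by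
    rwa [le_div_iff₀ (by positivity)] at hl2
  have hk1 : (1 : ℝ) ≤ k := by exact_mod_cast hk
  have haP : 0 < a * P := by positivity
  refine ⟨j + 1, l, by omega, hl0, ?_, ?_, ?_, ?_, ?_, ?_, ?_⟩
  · nlinarith
  · linarith
  · linarith
  · nlinarith
  · -- 4 k₀ (D b)^J ≤ s
    calc 4 * k₀ * (D * b) ^ (j + 1) = 4 * k₀ * (D ^ (j + 1) * b ^ (j + 1)) := by rw [mul_pow]
      _ ≤ 4 * k₀ * ((C₁ * a) * (Q * P)) := by gcongr
      _ = 4 * k₀ * (C₁ * Q) * (a * P) := by ring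
      _ ≤ C * (a * P) := by
        have : 4 * k₀ * (C₁ * Q) ≤ C := by rw [hC]; linarith
        gcongr
      _ ≤ C * (k + a * P) := by
        have : a * P ≤ k + a * P := by linarith
        gcongr
      _ ≤ s := hs
  · -- the exponential
    rw [Nat.add_sub_cancel]
    have h1 : Real.exp (-(c * k₀ * D ^ j)) ≤ Real.exp (-(8 * a)) := by
      apply Real.exp_le_exp.2; linarith
    have h2 : Real.exp (-(c * k₀ * D ^ j)) * (2 * n) ≤ 2 * Real.exp (-(7 * a)) := by
      calc Real.exp (-(c * k₀ * D ^ j)) * (2 * n) ≤ Real.exp (-(8 * a)) * (2 * (n + 2)) := by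
            gcongr; linarith
        _ = 2 * (Real.exp (-(8 * a)) * Real.exp a) := by rw [hexpa]; ring
        _ = 2 * Real.exp (-(7 * a)) := by rw [← Real.exp_add]; ring_nf
    refine h2.trans ?_
    have h3 : Real.exp (-(7 * a)) ≤ 1 / 8 := by
      have h4 : Real.exp (-a) ≤ 1 / 2 := by
        rw [Real.exp_neg, hexpa, inv_eq_one_div]
        exact one_div_le_one_div_of_le (by norm_num) (by linarith)
      calc Real.exp (-(7 * a)) ≤ Real.exp (-(3 * a)) := Real.exp_le_exp.2 (by linarith)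
        _ = Real.exp (-a) ^ 3 := by rw [← Real.exp_nat_mul]; congr 1; push_cast; ring
        _ ≤ (1 / 2) ^ 3 := by gcongr
        _ = 1 / 8 := by norm_num
    rcases min_choice (1 / (32 * k₀)) (c / (64 * D * b ^ (j + 1))) with h5 | h5
    · rw [h5] at hl
      rw [hl]
      have : 1 / (32 * k₀) * (16 * k₀) = 1 / 2 := by field_simp; norm_num
      rw [this]
      linarith
    · rw [h5] at hl
      rw [hl]
      have h6 : a * Real.exp (-(7 * a)) ≤ 1 := by
        have h7 : a ≤ Real.exp a := by have := Real.add_one_le_exp a; linarith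
        calc a * Real.exp (-(7 * a)) ≤ Real.exp a * Real.exp (-(7 * a)) := by gcongr
          _ = Real.exp (-(6 * a)) := by rw [← Real.exp_add]; ring_nf
          _ ≤ 1 := Real.exp_le_one_iff.2 (by linarith)
      rw [div_mul_eq_mul_div, le_div_iff₀ (by positivity)]
      calc 2 * Real.exp (-(7 * a)) * (64 * D * b ^ (j + 1))
          ≤ 2 * Real.exp (-(7 * a)) * (64 * D * (C₁ * a)) := by
            gcongr
            exact hDb.trans hj2
        _ = 16 * (8 * D * C₁) * (a * Real.exp (-(7 * a))) := by ring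
        _ ≤ 16 * (8 * D * C₁) * 1 := by gcongr
        _ ≤ c * (16 * k₀) := by
          rw [div_le_iff₀ hc] at hk₀2
          linarith
  · -- the last inequality
    -- 1 / l ≤ 32 k₀ + 64 D b^J / c
    have hinv : 1 ≤ l * (32 * k₀ + 64 * D * b ^ (j + 1) / c) := by
      rcases min_choice (1 / (32 * k₀)) (c / (64 * D * b ^ (j + 1))) with h5 | h5
      · rw [h5] at hl
        rw [hl]
        calc (1 : ℝ) = 1 / (32 * k₀) * (32 * k₀) := by field_simp
          _ ≤ _ := by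
            have : 0 ≤ 64 * D * b ^ (j + 1) / c := by positivity
            gcongr
            linarith
      · rw [h5] at hl
        rw [hl]
        calc (1 : ℝ) = c / (64 * D * b ^ (j + 1)) * (64 * D * b ^ (j + 1) / c) := by field_simp
          _ ≤ _ := by
            gcongr
            linarith
    have h1 : 2 * m * a ≤ l * (2 * m * a * (32 * k₀ + 64 * D * b ^ (j + 1) / c)) := by
      calc 2 * m * a = 2 * m * a * 1 := by ring
        _ ≤ 2 * m * a * (l * (32 * k₀ + 64 * D * b ^ (j + 1) / c)) := by gcongr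
        _ = _ := by ring
    have h2 : 2 * m * a * (32 * k₀ + 64 * D * b ^ (j + 1) / c) ≤
        (128 * m * k₀ + 128 * m * D / c * Q) * (a * P) := by
      have e1 : 2 * m * a * (32 * k₀) ≤ 128 * m * k₀ * (a * P) := by
        calc 2 * m * a * (32 * k₀) = 64 * m * k₀ * a := by ring
          _ ≤ 64 * m * k₀ * (2 * (a * P)) := by gcongr
          _ = _ := by ring
      have e2 : 2 * m * a * (64 * D * b ^ (j + 1) / c) ≤ 128 * m * D / c * Q * (a * P) := by
        calc 2 * m * a * (64 * D * b ^ (j + 1) / c) = 128 * m * D / c * a * b ^ (j + 1) := by ring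
          _ ≤ 128 * m * D / c * a * (Q * P) := by gcongr
          _ = _ := by ring
      linarith
    have h3 : (128 * m * k₀ + 128 * m * D / c * Q) * (a * P) + 48 * k₀ * k ≤ s / 2 := by
      have e3 : (256 * m * k₀ + 256 * m * D / c * Q) * (a * P) ≤ C * (a * P) := by
        have : 256 * m * k₀ + 256 * m * D / c * Q ≤ C := by rw [hC]; linarith
        gcongr
      have e4 : 96 * k₀ * k ≤ C * k := by
        have : 96 * k₀ ≤ C := by rw [hC]; linarith
        gcongr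
      have e5 : C * (k + a * P) = C * k + C * (a * P) := by ring
      have e6 : (256 * m * k₀ + 256 * m * D / c * Q) * (a * P) =
        2 * ((128 * m * k₀ + 128 * m * D / c * Q) * (a * P)) := by ring
      linarith
    calc 2 * m * a + 3 * (l * (16 * k₀)) * k
        ≤ l * (2 * m * a * (32 * k₀ + 64 * D * b ^ (j + 1) / c)) + 3 * (l * (16 * k₀)) * k := by
          linarith
      _ = l * (2 * m * a * (32 * k₀ + 64 * D * b ^ (j + 1) / c) + 48 * k₀ * k) := by ring
      _ ≤ l * (s / 2) := by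
        apply mul_le_mul_of_nonneg_left _ hl0.le
        linarith

end Pool.Agent.Lib.MP_9b5ec2_co
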