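import Mathlib
import Pool.Agent.Lib.MP_9b5ec2_co.Defs3

/-!
# Nets of small cost (module `CostNet`)
-/

set_option autoImplicit false

namespace Pool.Agent.Lib.MP_9b5ec2_co

open Finset

/-- the support of a cover of cost zero -/
lemma costNet_zero {V ι : Type} [Fintype V] [DecidableEq V] (A : ι → Finset V)
    (c x : V → ℝ) (hc : ∀ v, 0 ≤ c v) (hx : ∀ v, 0 ≤ x v) (hcov : ∀ i, 1 ≤ ∑ v ∈ A i, x v)
    (h0 : ∑ v, c v * x v ≤ 0) :
    ∃ T : Finset V, (∀ i, (A i ∩ T).Nonempty) ∧ ∑ v ∈ T, c v ≤ 0 := by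
  classical
  refine ⟨univ.filter (fun v => 0 < x v), fun i => ?_, ?_⟩
  · by_contra hne
    rw [not_nonempty_iff_eq_empty] at hne
    have h1 : ∑ v ∈ A i, x v = 0 := by
      refine sum_eq_zero fun v hv => ?_
      by_contra hxv
      have h2 : v ∈ A i ∩ univ.filter (fun v => 0 < x v) :=
        mem_inter.mpr ⟨hv, mem_filter.mpr ⟨mem_univ _, lt_of_le_of_ne (hx v) (Ne.symm hxv)⟩⟩
      rw [hne] at h2
      exact absurd h2 (notMem_empty _)
    have := hcov i
    linarith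
  · have h1 : ∑ v, c v * x v = 0 :=
      le_antisymm h0 (sum_nonneg fun v _ => mul_nonneg (hc v) (hx v))
    have h2 := (sum_eq_zero_iff_of_nonneg (fun v _ => mul_nonneg (hc v) (hx v))).mp h1
    refine (sum_eq_zero fun v hv => ?_).le
    have h3 := (mem_filter.mp hv).2
    have h4 := h2 v (mem_univ v)
    rcases mul_eq_zero.mp h4 with h | h
    · exact h
    · linarith

/-- extension of a packing by zero -/
lemma costNet_ext {V ι : Type} [Fintype V] [DecidableEq V] [Fintype ι] (A : ι → Finset V)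
    (c : V → ℝ) (R : Finset V) (t : ℝ)
    (h : ∃ y : {i // A i ∩ R = ∅} → ℝ,
      Packs (fun i : {i // A i ∩ R = ∅} => A i) c y ∧ t ≤ ∑ i, y i) :
    ∃ y : ι → ℝ, Packs A c y ∧ (∀ i, (A i ∩ R).Nonempty → y i = 0) ∧ t ≤ ∑ i, y i := by
  classical
  obtain ⟨y, ⟨hy0, hyc⟩, hys⟩ := h
  have hF : ∀ F : ι → ℝ, (∀ i, A i ∩ R ≠ ∅ → F i = 0) →
      ∑ i : {i // A i ∩ R = ∅}, F i = ∑ i, F i := by
    intro F hF
    rw [← Finset.sum_subtype (univ.filter (fun i => A i ∩ R = ∅)) (by simp) F]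
    exact sum_filter_of_ne (fun i _ hne => by by_contra hcon; exact hne (hF i hcon))
  set y' : ι → ℝ := fun i => if h : A i ∩ R = ∅ then y ⟨i, h⟩ else 0 with hy'
  have e1 : ∀ i : {i // A i ∩ R = ∅}, y i = y' i := by
    intro i
    simp only [hy']
    rw [dif_pos i.2]
  have e2 : ∀ i, A i ∩ R ≠ ∅ → y' i = 0 := by
    intro i hi
    simp only [hy']
    rw [dif_neg hi]
  refine ⟨y', ⟨fun i => ?_, fun v => ?_⟩, fun i hi => ?_, ?_⟩
  · by_cases hi : A i ∩ R = ∅
    · have := e1 ⟨i, hi⟩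
      rw [← this]
      exact hy0 _
    · rw [e2 i hi]
  · refine le_trans (le_of_eq ?_) (hyc v)
    unfold fdeg
    rw [sum_filter, sum_filter]
    have h3 := hF (fun i => if v ∈ A i then y' i else 0) (fun i hi => by
      simp only [e2 i hi, ite_self])
    rw [← h3]
    refine sum_congr rfl fun i _ => ?_
    simp only [e1 i]
  · exact e2 i (nonempty_iff_ne_empty.mp hi)
  · refine hys.trans (le_of_eq ?_)
    rw [← hF y' e2]
    exact sum_congr rfl fun i _ => e1 i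

/-- the main induction -/
lemma costNet_aux (h2 : LPDStmt) (m : ℕ) (K₁ : ℝ) (hK : 0 < K₁)
    (V : Type) [Fintype V] [DecidableEq V]
    (hdrop : ∀ (ι : Type) [Fintype ι] [DecidableEq ι] (A : ι → Finset V)
      (c x : V → ℝ), TwoCol m A → (∀ v, 0 ≤ c v) → (∀ v, 0 ≤ x v) →
      (∀ i, 1 ≤ ∑ v ∈ A i, x v) → 0 < ∑ v, c v * x v →
      ∃ R : Finset V, ∑ v ∈ R, c v ≤ K₁ * ∑ v, c v * x v ∧
        ¬ ∃ y : ι → ℝ, Packs A c y ∧ (∀ i, (A i ∩ R).Nonempty → y i = 0) ∧
          (1 - 1 / 96) * ∑ v, c v * x v ≤ ∑ i, y i) (N : ℕ) :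
    ∀ (ι : Type) [Fintype ι] [DecidableEq ι] (A : ι → Finset V)
      (c x : V → ℝ), Fintype.card ι = N → TwoCol m A → (∀ v, 0 ≤ c v) → (∀ v, 0 ≤ x v) →
      (∀ i, 1 ≤ ∑ v ∈ A i, x v) →
      ∃ T : Finset V, (∀ i, (A i ∩ T).Nonempty) ∧
        ∑ v ∈ T, c v ≤ (96 * K₁) * ∑ v, c v * x v := by
  classical
  induction N using Nat.strong_induction_on with
  | _ N ih =>
  intro ι _ _ A c x hN hA hc hx hcov
  by_contra hfail
  -- one step
  have hstep : ∀ z : V → ℝ, (∀ v, 0 ≤ z v) → (∀ i, 1 ≤ ∑ v ∈ A i, z v) →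
      (¬ ∃ T : Finset V, (∀ i, (A i ∩ T).Nonempty) ∧
        ∑ v ∈ T, c v ≤ (96 * K₁) * ∑ v, c v * z v) →
      ∃ z' : V → ℝ, (∀ v, 0 ≤ z' v) ∧ (∀ i, 1 ≤ ∑ v ∈ A i, z' v) ∧
        (¬ ∃ T : Finset V, (∀ i, (A i ∩ T).Nonempty) ∧
          ∑ v ∈ T, c v ≤ (96 * K₁) * ∑ v, c v * z' v) ∧
        ∑ v, c v * z' v ≤ (1 - 1 / 96) * ∑ v, c v * z v := by
    intro z hz hzc hzf
    have hpos : 0 < ∑ v, c v * z v := by
      by_contra hcon
      push Not at hcon
      obtain ⟨T, hT1, hT2⟩ := costNet_zero A c z hc hz hzc hcon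
      refine hzf ⟨T, hT1, ?_⟩
      have h0 : 0 ≤ ∑ v, c v * z v := sum_nonneg fun v _ => mul_nonneg (hc v) (hz v)
      have : 0 ≤ (96 * K₁) * ∑ v, c v * z v := by positivity
      linarith
    obtain ⟨R, hR, hRn⟩ := hdrop ι A c z hA hc hz hzc hpos
    have ht : 0 < (1 - 1 / 96) * ∑ v, c v * z v := by
      have : (0 : ℝ) < 1 - 1 / 96 := by norm_num
      positivity
    rcases h2 V {i // A i ∩ R = ∅} (fun i => A i) c ((1 - 1 / 96) * ∑ v, c v * z v) hc ht with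
      hp | ⟨z', hz', hzc', hlt⟩
    · exact absurd (costNet_ext A c R _ hp) hRn
    · by_cases hall : ∀ i, A i ∩ R = ∅
      · refine ⟨z', hz', fun i => hzc' ⟨i, hall i⟩, ?_, hlt.le⟩
        rintro ⟨T, hT1, hT2⟩
        refine hzf ⟨T, hT1, hT2.trans ?_⟩
        refine mul_le_mul_of_nonneg_left ?_ (by positivity)
        linarith
      · exfalso
        push Not at hall
        obtain ⟨i0, hi0⟩ := hall
        have hlt' : Fintype.card {i // A i ∩ R = ∅} < N := by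
          rw [← hN]
          exact Fintype.card_subtype_lt (x := i0) (nonempty_iff_ne_empty.mp hi0)
        obtain ⟨T', hT1, hT2⟩ := ih _ hlt' {i // A i ∩ R = ∅} (fun i => A i) c z' rfl
          (fun S => by
            obtain ⟨Q, hQ⟩ := hA S
            exact ⟨Q, fun i => hQ i⟩) hc hz' hzc'
        refine hzf ⟨R ∪ T', fun i => ?_, ?_⟩
        · by_cases hi : A i ∩ R = ∅
          · exact (hT1 ⟨i, hi⟩).mono (inter_subset_inter_left subset_union_right)
          · exact (nonempty_iff_ne_empty.mpr hi).mono (inter_subset_inter_left subset_union_left)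
        · have h3 : ∑ v ∈ R ∪ T', c v ≤ ∑ v ∈ R, c v + ∑ v ∈ T', c v := by
            rw [← sum_union_inter]
            have : 0 ≤ ∑ v ∈ R ∩ T', c v := sum_nonneg fun v _ => hc v
            linarith
          have h4 : (96 * K₁) * ∑ v, c v * z' v ≤
              (96 * K₁) * ((1 - 1 / 96) * ∑ v, c v * z v) :=
            mul_le_mul_of_nonneg_left hlt.le (by positivity)
          nlinarith
  -- iteration
  have hiter : ∀ j : ℕ, ∃ z' : V → ℝ, (∀ v, 0 ≤ z' v) ∧ (∀ i, 1 ≤ ∑ v ∈ A i, z' v) ∧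
        (¬ ∃ T : Finset V, (∀ i, (A i ∩ T).Nonempty) ∧
          ∑ v ∈ T, c v ≤ (96 * K₁) * ∑ v, c v * z' v) ∧
        ∑ v, c v * z' v ≤ (1 - 1 / 96) ^ j * ∑ v, c v * x v := by
    intro j
    induction j with
    | zero => exact ⟨x, hx, hcov, hfail, by simp⟩
    | succ j ihj =>
      obtain ⟨z, hz, hzc, hzf, hzl⟩ := ihj
      obtain ⟨z', hz', hzc', hzf', hzl'⟩ := hstep z hz hzc hzf
      refine ⟨z', hz', hzc', hzf', hzl'.trans ?_⟩
      rw [pow_succ]
      nlinarith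
  by_cases hZ : ∀ i, (A i ∩ univ.filter (fun v => c v = 0)).Nonempty
  · refine hfail ⟨univ.filter (fun v => c v = 0), hZ, ?_⟩
    have h0 : 0 ≤ ∑ v, c v * x v := sum_nonneg fun v _ => mul_nonneg (hc v) (hx v)
    have h3 : ∑ v ∈ univ.filter (fun v => c v = 0), c v = 0 :=
      sum_eq_zero fun v hv => (mem_filter.mp hv).2
    rw [h3]
    positivity
  · push Not at hZ
    obtain ⟨i, hi⟩ := hZ
    have hne : (A i).Nonempty := by
      by_contra hcon
      rw [not_nonempty_iff_eq_empty] at hcon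
      have := hcov i
      rw [hcon, sum_empty] at this
      linarith
    obtain ⟨v0, hv0, hmin⟩ := exists_min_image (A i) c hne
    have hc0 : 0 < c v0 := by
      refine lt_of_le_of_ne (hc v0) fun hcon => ?_
      have : v0 ∈ A i ∩ univ.filter (fun v => c v = 0) :=
        mem_inter.mpr ⟨hv0, mem_filter.mpr ⟨mem_univ _, hcon.symm⟩⟩
      rw [hi] at this
      exact absurd this (notMem_empty _)
    have hlow : ∀ z : V → ℝ, (∀ v, 0 ≤ z v) → (∀ i, 1 ≤ ∑ v ∈ A i, z v) →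
        c v0 ≤ ∑ v, c v * z v := by
      intro z hz hzc
      calc c v0 ≤ c v0 * ∑ v ∈ A i, z v := le_mul_of_one_le_right hc0.le (hzc i)
        _ = ∑ v ∈ A i, c v0 * z v := mul_sum _ _ _
        _ ≤ ∑ v ∈ A i, c v * z v :=
          sum_le_sum fun v hv => mul_le_mul_of_nonneg_right (hmin v hv) (hz v)
        _ ≤ ∑ v, c v * z v := sum_le_sum_of_subset_of_nonneg (subset_univ _)
          fun v _ _ => mul_nonneg (hc v) (hz v)
    have h0 : 0 < ∑ v, c v * x v := lt_of_lt_of_le hc0 (hlow x hx hcov)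
    obtain ⟨j, hj⟩ := exists_pow_lt_of_lt_one (div_pos hc0 h0)
      (by norm_num : (1 - 1 / 96 : ℝ) < 1)
    obtain ⟨z, hz, hzc, -, hzl⟩ := hiter j
    have h5 := hlow z hz hzc
    rw [lt_div_iff₀ h0] at hj
    linarith

theorem costNet (h1 : DropStmt) (h2 : LPDStmt) : CostNetStmt := by
  intro m
  obtain ⟨K₁, hK, hdrop⟩ := h1 (max m 1) (le_max_right _ _)
  refine ⟨96 * K₁, by positivity, ?_⟩
  intro V ι _ _ _ _ A c x hA hc hx hcov
  have hA' : TwoCol (max m 1) A := by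
    intro S
    obtain ⟨R, hR⟩ := hA S
    exact ⟨R, fun i hi => hR i ((le_max_left _ _).trans hi)⟩
  exact costNet_aux h2 (max m 1) K₁ hK V (fun ι' _ _ A' c' x' => hdrop V ι' A' c' x') _ ι A c x
    rfl hA' hc hx hcov

end Pool.Agent.Lib.MP_9b5ec2_co
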