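import Pool.Agent.Lib.MP_9b5ec2_co.Defs

/-!
# The counting form
-/

set_option autoImplicit false

namespace Pool.Agent.Lib.MP_9b5ec2_co

open Finset

theorem count_twoCol_mono {V ι : Type} [DecidableEq V] {m m' : ℕ} (h : m ≤ m')
    {A : ι → Finset V} (hA : TwoCol m A) : TwoCol m' A := by
  intro S
  obtain ⟨R, hR⟩ := hA S
  exact ⟨R, fun i hi => hR i (h.trans hi)⟩

theorem count_map_subtype {V : Type} [DecidableEq V] (O E : Finset V) :
    (E.subtype (· ∈ O)).map (Function.Embedding.subtype _) = E ∩ O := by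
  rw [Finset.subtype_map]
  ext x
  simp

theorem count_twoCol_sub {V ι : Type} [DecidableEq V] {m : ℕ} {A : ι → Finset V}
    (hA : TwoCol m A) (O : Finset V) :
    TwoCol m (fun e => (A e).subtype (· ∈ O)) := by
  intro S
  obtain ⟨R, hR⟩ := hA (S.map (Function.Embedding.subtype _))
  have key : ∀ i, ((A i).subtype (· ∈ O) ∩ S).map (Function.Embedding.subtype _) =
      A i ∩ S.map (Function.Embedding.subtype _) := by
    intro i
    rw [Finset.map_inter, count_map_subtype]
    ext x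
    simp only [mem_inter, mem_map, Function.Embedding.subtype_apply, Subtype.exists,
      exists_and_right, exists_eq_right]
    constructor
    · rintro ⟨⟨h1, _⟩, h3⟩; exact ⟨h1, h3⟩
    · rintro ⟨h1, h2, h3⟩; exact ⟨⟨h1, h2⟩, h2, h3⟩
  refine ⟨R.subtype (· ∈ O), fun i hi => ?_⟩
  have hi' : m ≤ (A i ∩ S.map (Function.Embedding.subtype _)).card := by
    rw [← key, card_map]; exact hi
  obtain ⟨⟨x, hx⟩, ⟨y, hy⟩⟩ := hR i hi'
  rw [← key] at hx hy
  constructor
  · rw [mem_inter, mem_map] at hx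
    obtain ⟨⟨z, hz, rfl⟩, hxR⟩ := hx
    exact ⟨z, mem_inter.2 ⟨hz, Finset.mem_subtype.2 hxR⟩⟩
  · rw [mem_sdiff, mem_map] at hy
    obtain ⟨⟨z, hz, rfl⟩, hyR⟩ := hy
    exact ⟨z, mem_sdiff.2 ⟨hz, fun h => hyR (Finset.mem_subtype.1 h)⟩⟩

/-- One dyadic scale. -/
theorem count_scale {m : ℕ} {Λ γ s₀ : ℝ} (hγ : 0 < γ) (hs₀ : 0 < s₀)
    (hG : ∀ (V ι : Type) [Fintype V] [DecidableEq V] [DecidableEq ι] (A : ι → Finset V) (s : ℝ),
      TwoCol m A → s₀ ≤ s →
      ∃ (R : Finset ι) (O : Finset V), (R.card : ℝ) * s ≤ Λ * (Fintype.card V : ℝ) ∧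
        8 * O.card ≤ Fintype.card V ∧ (∀ e ∈ R, ((A e).card : ℝ) ≤ 2 * s) ∧
        ∀ e, s ≤ ((A e).card : ℝ) → ((A e).card : ℝ) < 2 * s →
          (∃ f ∈ R, γ * s ≤ ((A e ∩ A f).card : ℝ)) ∨ s / 2 ≤ ((A e ∩ O).card : ℝ))
    {B : ℕ} (V ι : Type) [Fintype V] [DecidableEq V] (A : ι → Finset V)
    (hN : ∀ Y : Finset V, ∃ T : Finset V, T ⊆ Y ∧ T.card ≤ B ∧
      ∀ e, (A e ∩ Y).Nonempty → γ / 2 * (Y.card : ℝ) ≤ ((A e ∩ Y).card : ℝ) →
        (A e ∩ T).Nonempty)
    (hA : TwoCol m A) {C : ℝ} (hC : 0 < C) (hn : 0 < Fintype.card V)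
    (ih : ∀ O : Finset V, O.card < Fintype.card V → ∀ s : ℝ, 0 < s →
      ∃ T : Finset {x // x ∈ O}, (T.card : ℝ) * s ≤ C * (O.card : ℝ) ∧
        ∀ e, s ≤ (((A e).subtype (· ∈ O)).card : ℝ) → ((A e).subtype (· ∈ O) ∩ T).Nonempty)
    (s : ℝ) (hs : s₀ ≤ s) :
    ∃ T : Finset V, (T.card : ℝ) * s ≤ (B * Λ + C / 4) * (Fintype.card V : ℝ) ∧
      ∀ e, s ≤ ((A e).card : ℝ) → ((A e).card : ℝ) < 2 * s → (A e ∩ T).Nonempty := by
  classical
  have hspos : 0 < s := lt_of_lt_of_le hs₀ hs
  obtain ⟨R, O, hR, hO, hR2, hcov⟩ := hG V ι A s hA hs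
  choose N hN1 hN2 hN3 using hN
  obtain ⟨T', hT'1, hT'2⟩ := ih O (by omega) (s / 2) (by positivity)
  refine ⟨R.biUnion (fun f => N (A f)) ∪ T'.map (Function.Embedding.subtype _), ?_, ?_⟩
  · have e1 : ((R.biUnion (fun f => N (A f))).card : ℝ) ≤ R.card * B := by
      have : (R.biUnion (fun f => N (A f))).card ≤ R.card * B :=
        card_biUnion_le_card_mul _ _ _ (fun f _ => hN2 (A f))
      exact_mod_cast this
    have e2 : ((R.biUnion (fun f => N (A f)) ∪
        T'.map (Function.Embedding.subtype _)).card : ℝ) ≤ R.card * B + T'.card := by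
      have h3 := card_union_le (R.biUnion (fun f => N (A f)))
        (T'.map (Function.Embedding.subtype _))
      rw [card_map] at h3
      have h4 : ((R.biUnion (fun f => N (A f)) ∪
        T'.map (Function.Embedding.subtype _)).card : ℝ) ≤
          (R.biUnion (fun f => N (A f))).card + T'.card := by exact_mod_cast h3
      linarith
    have e3 : (O.card : ℝ) ≤ Fintype.card V / 8 := by
      have : ((8 * O.card : ℕ) : ℝ) ≤ Fintype.card V := by exact_mod_cast hO
      push_cast at this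
      linarith
    have e4 : (T'.card : ℝ) * s ≤ C / 4 * (Fintype.card V : ℝ) := by
      have := mul_le_mul_of_nonneg_left e3 hC.le
      nlinarith [hT'1]
    have e5 : (B : ℝ) * ((R.card : ℝ) * s) ≤ B * (Λ * (Fintype.card V : ℝ)) :=
      mul_le_mul_of_nonneg_left hR (by positivity)
    calc ((R.biUnion (fun f => N (A f)) ∪
        T'.map (Function.Embedding.subtype _)).card : ℝ) * s
        ≤ (R.card * B + T'.card) * s := mul_le_mul_of_nonneg_right e2 hspos.le
      _ = (B : ℝ) * ((R.card : ℝ) * s) + (T'.card : ℝ) * s := by ring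
      _ ≤ B * (Λ * (Fintype.card V : ℝ)) + C / 4 * (Fintype.card V : ℝ) := add_le_add e5 e4
      _ = (B * Λ + C / 4) * (Fintype.card V : ℝ) := by ring
  · intro e he1 he2
    rcases hcov e he1 he2 with ⟨f, hf, hef⟩ | hO2
    · have h3 : (A e ∩ A f).Nonempty := by
        rw [← card_pos]
        have : (0 : ℝ) < (A e ∩ A f).card := lt_of_lt_of_le (by positivity) hef
        exact_mod_cast this
      have h4 : γ / 2 * ((A f).card : ℝ) ≤ ((A e ∩ A f).card : ℝ) := by
        have := mul_le_mul_of_nonneg_left (hR2 f hf) (by positivity : 0 ≤ γ / 2)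
        linarith
      obtain ⟨x, hx⟩ := hN3 (A f) e h3 h4
      rw [mem_inter] at hx
      exact ⟨x, mem_inter.2 ⟨hx.1, mem_union_left _ (mem_biUnion.2 ⟨f, hf, hx.2⟩)⟩⟩
    · have h3 : s / 2 ≤ (((A e).subtype (· ∈ O)).card : ℝ) := by
        have h4 := count_map_subtype O (A e)
        have h5 := congrArg Finset.card h4
        rw [card_map] at h5
        rw [h5]
        exact hO2
      obtain ⟨x, hx⟩ := hT'2 e h3
      rw [mem_inter, Finset.mem_subtype] at hx
      exact ⟨x, mem_inter.2 ⟨hx.1, mem_union_right _ (mem_map.2 ⟨x, hx.2, rfl⟩)⟩⟩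

theorem count (h1 : GreedyStmt) (h2 : VCStmt) (h3 : NetStmt) : CountStmt := by
  intro m
  set m' := max m 1 with hm'
  have hm1 : 1 ≤ m' := le_max_right _ _
  obtain ⟨Λ, γ, s₀, hΛ, hγ, hs₀, hG⟩ := h1 m' hm1
  obtain ⟨B, hB⟩ := h3 (2 * m' - 2) (γ / 2) (by positivity)
  set K : ℝ := B * Λ with hK
  have hK0 : 0 ≤ K := by positivity
  set C : ℝ := max (4 * K) s₀ + 1 with hC
  have hC1 : 4 * K ≤ C := by have := le_max_left (4 * K) s₀; linarith
  have hC2 : s₀ ≤ C := by have := le_max_right (4 * K) s₀; linarith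
  have hCpos : 0 < C := by linarith
  refine ⟨C, hCpos, ?_⟩
  have main : ∀ n : ℕ, ∀ (V ι : Type) [Fintype V] [DecidableEq V] (A : ι → Finset V),
      Fintype.card V = n → TwoCol m' A → ∀ s : ℝ, 0 < s → ∃ T : Finset V,
      (T.card : ℝ) * s ≤ C * (Fintype.card V : ℝ) ∧
      ∀ e, s ≤ ((A e).card : ℝ) → (A e ∩ T).Nonempty := by
    intro n
    induction n using Nat.strong_induction_on with
    | _ n ih =>
    intro V ι _ _ A hn hA s hs
    classical
    rcases Nat.eq_zero_or_pos n with h0 | hpos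
    · refine ⟨∅, by simp only [card_empty]; push_cast; rw [zero_mul]; positivity, ?_⟩
      intro e he
      exfalso
      have h4 : (A e).card ≤ Fintype.card V := card_le_univ _
      have h5 : (A e).card = 0 := by omega
      rw [h5] at he
      push_cast at he
      linarith
    rcases lt_or_ge s s₀ with hlt | hge
    · refine ⟨univ, ?_, ?_⟩
      · rw [card_univ, mul_comm]
        exact mul_le_mul_of_nonneg_right (by linarith) (by positivity)
      · intro e he
        rw [inter_univ, ← card_pos]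
        have : (0 : ℝ) < (A e).card := lt_of_lt_of_le hs he
        exact_mod_cast this
    -- the scales
    have hVC : ∀ S : Finset V, S.card = 2 * m' - 2 + 1 → ¬ ∀ X, X ⊆ S → ∃ e, A e ∩ S = X := by
      intro S hS
      exact h2 m' V ι A hm1 hA S (by omega)
    have hscale : ∀ j : ℕ, ∃ T : Finset V,
        (T.card : ℝ) * (2 ^ j * s) ≤ (K + C / 4) * (Fintype.card V : ℝ) ∧
        ∀ e, 2 ^ j * s ≤ ((A e).card : ℝ) → ((A e).card : ℝ) < 2 * (2 ^ j * s) →
          (A e ∩ T).Nonempty := by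
      intro j
      refine count_scale (m := m') hγ hs₀ hG V ι A (hB V ι A hVC) hA hCpos (by omega) ?_
        (2 ^ j * s) ?_
      · intro O hO s' hs'
        obtain ⟨T, hT1, hT2⟩ := ih O.card (by omega) {x // x ∈ O} ι
          (fun e => (A e).subtype (· ∈ O)) (by simp) (count_twoCol_sub hA O) s' hs'
        refine ⟨T, ?_, hT2⟩
        have : (Fintype.card {x // x ∈ O} : ℝ) = O.card := by simp
        rw [← this]
        exact hT1
      · have : (1 : ℝ) ≤ 2 ^ j := one_le_pow₀ (by norm_num)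
        nlinarith
    choose T hT1 hT2 using hscale
    obtain ⟨J, hJ⟩ := pow_unbounded_of_one_lt ((Fintype.card V : ℝ) / s) (by norm_num : (1 : ℝ) < 2)
    rw [div_lt_iff₀ hs] at hJ
    refine ⟨(range J).biUnion T, ?_, ?_⟩
    · have e1 : (((range J).biUnion T).card : ℝ) ≤ ∑ j ∈ range J, ((T j).card : ℝ) := by
        exact_mod_cast card_biUnion_le
      have e2 : ∀ j ∈ range J, ((T j).card : ℝ) * s ≤
          (1 / 2) ^ j * ((K + C / 4) * (Fintype.card V : ℝ)) := by
        intro j _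
        have h5 := mul_le_mul_of_nonneg_left (hT1 j) (by positivity : (0 : ℝ) ≤ (1 / 2) ^ j)
        have h6 : (1 / 2 : ℝ) ^ j * (((T j).card : ℝ) * (2 ^ j * s)) = ((T j).card : ℝ) * s := by
          have : (1 / 2 : ℝ) ^ j * 2 ^ j = 1 := by rw [← mul_pow]; norm_num
          calc (1 / 2 : ℝ) ^ j * (((T j).card : ℝ) * (2 ^ j * s))
              = ((1 / 2 : ℝ) ^ j * 2 ^ j) * (((T j).card : ℝ) * s) := by ring
            _ = ((T j).card : ℝ) * s := by rw [this, one_mul]
        rw [h6] at h5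
        exact h5
      have e3 : ∑ j ∈ range J, (1 / 2 : ℝ) ^ j ≤ 2 := by
        have h7 := geom_sum_eq (by norm_num : (1 / 2 : ℝ) ≠ 1) J
        rw [h7]
        have : (0 : ℝ) ≤ (1 / 2) ^ J := by positivity
        rw [div_le_iff_of_neg (by norm_num)]
        linarith
      have e4 : 0 ≤ (K + C / 4) * (Fintype.card V : ℝ) := by positivity
      calc (((range J).biUnion T).card : ℝ) * s
          ≤ (∑ j ∈ range J, ((T j).card : ℝ)) * s := mul_le_mul_of_nonneg_right e1 hs.le
        _ = ∑ j ∈ range J, ((T j).card : ℝ) * s := by rw [Finset.sum_mul]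
        _ ≤ ∑ j ∈ range J, (1 / 2) ^ j * ((K + C / 4) * (Fintype.card V : ℝ)) :=
            Finset.sum_le_sum e2
        _ = (∑ j ∈ range J, (1 / 2 : ℝ) ^ j) * ((K + C / 4) * (Fintype.card V : ℝ)) := by
            rw [Finset.sum_mul]
        _ ≤ 2 * ((K + C / 4) * (Fintype.card V : ℝ)) := mul_le_mul_of_nonneg_right e3 e4
        _ ≤ C * (Fintype.card V : ℝ) := by
            have h8 : (0 : ℝ) ≤ Fintype.card V := by positivity
            nlinarith
    · intro e he
      have hex : ∃ j : ℕ, ((A e).card : ℝ) < 2 ^ j * s := by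
        refine ⟨J, lt_of_le_of_lt ?_ hJ⟩
        exact_mod_cast card_le_univ _
      set j := Nat.find hex with hj
      have hj1 : ((A e).card : ℝ) < 2 ^ j * s := Nat.find_spec hex
      have hjJ : j ≤ J := by
        apply Nat.find_min' hex
        refine lt_of_le_of_lt ?_ hJ
        exact_mod_cast card_le_univ _
      have hj0 : j ≠ 0 := by
        intro h0
        rw [h0, pow_zero, one_mul] at hj1
        linarith
      obtain ⟨i, hi⟩ := Nat.exists_eq_succ_of_ne_zero hj0
      have hi1 : 2 ^ i * s ≤ ((A e).card : ℝ) := by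
        by_contra hcon
        push Not at hcon
        have := Nat.find_min' hex hcon
        omega
      have hi2 : ((A e).card : ℝ) < 2 * (2 ^ i * s) := by
        rw [hi, pow_succ] at hj1
        linarith
      obtain ⟨x, hx⟩ := hT2 i e hi1 hi2
      rw [mem_inter] at hx
      exact ⟨x, mem_inter.2 ⟨hx.1, mem_biUnion.2 ⟨i, mem_range.2 (by omega), hx.2⟩⟩⟩
  intro V ι _ _ A hA s hs
  exact main _ V ι A rfl (count_twoCol_mono (le_max_left _ _) hA) s hs

end Pool.Agent.Lib.MP_9b5ec2_co
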