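import Pool.Agent.Lib.MP_9b5ec2_co.Defs2
import Pool.Agent.Lib.MP_9b5ec2_co.Ex

/-!
# Large deviations in the blocks (MP_9b5ec2_co, P8)
-/

set_option autoImplicit false

namespace Pool.Agent.Lib.MP_9b5ec2_co

open Finset

section devex

variable {V ι : Type} [Fintype V] [DecidableEq V] [Fintype ι] [DecidableEq ι]

lemma devex_above_anti (A : ι → Finset V) (K : ℕ) {a b : ℕ} (hab : a ≤ b) :
    above A K b ⊆ above A K a := by
  intro x hx
  simp only [above, mem_filter, mem_univ, true_and] at hx ⊢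
  omega

lemma devex_inter_congr (A : ι → Finset V) (K : ℕ) {T T' : Finset V} {a b : ℕ} (hab : a ≤ b)
    (h : T ∩ above A K a = T' ∩ above A K a) : T ∩ above A K b = T' ∩ above A K b := by
  have hs := devex_above_anti A K hab
  have e : above A K b = above A K a ∩ above A K b := (inter_eq_right.2 hs).symm
  rw [e, ← inter_assoc, ← inter_assoc, h]

lemma devex_cnt_congr (A : ι → Finset V) (K : ℕ) (Φ : Prd V ι) {T T' : Finset V} (W : Finset V)
    {u : V} (v : V) {a : ℕ} (ha : a ≤ blk A K u + 2)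
    (h : T ∩ above A K a = T' ∩ above A K a) :
    cnt A K Φ T W u v = cnt A K Φ T' W u v := by
  unfold cnt
  rw [devex_inter_congr A K ha h]

lemma devex_frz_congr (A : ι → Finset V) (K I : ℕ) (p : ℝ) (Φ : Prd V ι) {T T' : Finset V}
    (W : Finset V) {i : ℕ} (h : T ∩ above A K (i + 1) = T' ∩ above A K (i + 1)) :
    ∀ k, k ≤ I - i → ∀ v, frz A K I p Φ T W k v = frz A K I p Φ T' W k v := by
  intro k
  induction k with
  | zero => intro _ v; rfl
  | succ k ih =>
    intro hk v
    have ihv := ih (by omega) v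
    simp only [frz]
    rw [ihv]
    congr 1
    split_ifs
    · apply Finset.sum_congr rfl
      intro u hu
      have hub : blk A K u = I - k := by simpa using hu
      have h1 : cnt A K Φ T W u v = cnt A K Φ T' W u v :=
        devex_cnt_congr A K Φ W v (a := i + 1) (by omega) h
      have h2 : (u ∈ T) ↔ (u ∈ T') := by
        have hua : u ∈ above A K (i + 1) := by
          simp only [above, mem_filter, mem_univ, true_and]
          omega
        constructor
        · intro hT
          have : u ∈ T ∩ above A K (i + 1) := mem_inter.2 ⟨hT, hua⟩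
          rw [h] at this
          exact (mem_inter.1 this).1
        · intro hT
          have : u ∈ T' ∩ above A K (i + 1) := mem_inter.2 ⟨hT, hua⟩
          rw [← h] at this
          exact (mem_inter.1 this).1
      rw [h1]
      congr 2
      by_cases hT : u ∈ T
      · rw [if_pos hT, if_pos (h2.1 hT)]
      · rw [if_neg hT, if_neg (fun h' => hT (h2.2 h'))]
    · rfl

lemma devex_coef_congr (A : ι → Finset V) (K I : ℕ) (p : ℝ) (Φ : Prd V ι) {T T' : Finset V}
    (W : Finset V) {i : ℕ} (h : T ∩ above A K (i + 1) = T' ∩ above A K (i + 1)) {u : V}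
    (hu : blk A K u = i) :
    coef A K I p Φ T W (I - i) u = coef A K I p Φ T' W (I - i) u := by
  unfold coef
  apply Finset.sum_congr rfl
  intro v _
  rw [devex_frz_congr A K I p Φ W h (I - i) le_rfl v,
    devex_cnt_congr A K Φ W v (a := i + 1) (by omega) h]

lemma devex_cnt_le_codeg (A : ι → Finset V) (K : ℕ) (Φ : Prd V ι) (T W : Finset V) (u v : V) :
    cnt A K Φ T W u v ≤ codeg A v u := by
  unfold cnt codeg
  apply card_le_card
  intro e he
  simp only [mem_filter, mem_univ, true_and] at he ⊢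
  exact ⟨he.2.1, he.1⟩

lemma devex_cnt_self_le (A : ι → Finset V) (K : ℕ) (Φ : Prd V ι) (T W : Finset V) (u : V) :
    cnt A K Φ T W u u ≤ dg A u := by
  unfold cnt dg deg
  apply card_le_card
  intro e he
  simp only [mem_filter, mem_univ, true_and] at he ⊢
  exact he.1

lemma devex_coef_bound (h2 : CodegStmt) (A : ι → Finset V) (K I : ℕ) (p s : ℝ) (Φ : Prd V ι)
    (T W : Finset V) (k : ℕ) (u : V) (hs : 1 ≤ s) (hA : ∀ e, ((A e).card : ℝ) ≤ 2 * s)
    (hd : ∀ v, 1 ≤ dg A v) :
    |coef A K I p Φ T W k u| ≤ 2 * s * (dg A u : ℝ) := by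
  have h3 := (h2 V ι A s 2 u (by linarith) (by norm_num) hA (by
    intro e f _
    refine le_trans ?_ (hA e)
    exact_mod_cast card_le_card inter_subset_left)).1
  refine le_trans ?_ h3
  unfold coef
  refine (Finset.abs_sum_le_sum_abs _ _).trans (Finset.sum_le_sum fun v _ => ?_)
  have hdv : (0 : ℝ) < dg A v := by
    have := hd v
    exact_mod_cast this
  have hc : ((cnt A K Φ T W u v : ℕ) : ℝ) ≤ codeg A v u := by
    exact_mod_cast devex_cnt_le_codeg A K Φ T W u v
  split_ifs with h
  · rw [abs_div, abs_mul, abs_of_pos hdv, Nat.abs_cast, div_le_iff₀ hdv]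
    calc |frz A K I p Φ T W k v| * (cnt A K Φ T W u v : ℝ)
        ≤ (dg A v : ℝ) * (codeg A v u : ℝ) :=
          mul_le_mul h.1 hc (by positivity) hdv.le
      _ = (codeg A v u : ℝ) * (dg A v : ℝ) := mul_comm _ _
  · rw [abs_zero]; positivity

/-- the general statement for one coefficient function -/
lemma devex_main (h1 : LinStmt) (A : ι → Finset V) (K : ℕ) (s θ δ₁ : ℝ)
    (C : ℕ → Finset V → Finset V → V → ℝ) (hK : 2 ≤ K) (hs : 1 ≤ s) (hθ : 0 < θ) (hθ1 : θ ≤ 1)
    (hδ : 0 < δ₁) (hδ1 : δ₁ ≤ 1)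
    (hloc : ∀ i T T' W u, T ∩ above A K (i + 1) = T' ∩ above A K (i + 1) → blk A K u = i →
      C i T W u = C i T' W u)
    (hbd : ∀ i T W u, blk A K u = i → |C i T W u| ≤ 2 * s * (dg A u : ℝ)) :
    Ex (θ / s) univ (fun T => ∑ i ∈ univ.image (blk A K),
      ∑ W ∈ (T ∩ above A K (i + 2)).powerset,
        if δ₁ * θ * (∑ v ∈ univ.filter (fun v => blk A K v = i), (dg A v : ℝ)) <
          ∑ u ∈ univ.filter (fun u => blk A K u = i), ((if u ∈ T then (1 : ℝ) else 0) - θ / s) *
            C i T W u then (1 : ℝ) else 0) ≤ blockSum A K s θ δ₁ := by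
  rw [Ex_sum]
  unfold blockSum
  apply Finset.sum_le_sum
  intro i _
  have hs0 : 0 < s := by linarith
  have hKpos : (0 : ℝ) < (K : ℝ) ^ (i + 1) := by
    have : 0 < K := by omega
    positivity
  obtain ⟨M, hM⟩ : ∃ M : ℝ, M = ∑ v ∈ univ.filter (fun v => blk A K v = i), (dg A v : ℝ) :=
    ⟨_, rfl⟩
  have hp0 : 0 ≤ θ / s := by positivity
  have hp1 : θ / s ≤ 1 := by
    rw [div_le_one hs0]; linarith
  rw [← hM]
  have hEq : Ex (θ / s) univ (fun T => ∑ W ∈ (T ∩ above A K (i + 2)).powerset,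
        if δ₁ * θ * M < ∑ u ∈ univ.filter (fun u => blk A K u = i),
          ((if u ∈ T then (1 : ℝ) else 0) - θ / s) * C i T W u then (1 : ℝ) else 0) =
      Ex (θ / s) univ (fun T => ∑ W ∈ (T ∩ above A K (i + 2)).powerset,
        if δ₁ * θ * M < ∑ u ∈ univ.filter (fun u => blk A K u = i),
          ((if u ∈ T then (1 : ℝ) else 0) - θ / s) * C i (T ∩ above A K (i + 1)) W u
            then (1 : ℝ) else 0) := by
    apply Ex_congr
    intro T _
    apply Finset.sum_congr rfl
    intro W _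
    have : ∑ u ∈ univ.filter (fun u => blk A K u = i),
          ((if u ∈ T then (1 : ℝ) else 0) - θ / s) * C i T W u =
        ∑ u ∈ univ.filter (fun u => blk A K u = i),
          ((if u ∈ T then (1 : ℝ) else 0) - θ / s) * C i (T ∩ above A K (i + 1)) W u := by
      apply Finset.sum_congr rfl
      intro u hu
      have hub : blk A K u = i := by simpa using hu
      rw [hloc i T (T ∩ above A K (i + 1)) W u (by rw [inter_assoc, inter_self]) hub]
    rw [this]
  rw [hEq]
  have hmain := h1 V (univ.filter (fun u => blk A K u = i)) (above A K (i + 1))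
    (above A K (i + 2)) (θ / s) (δ₁ / (8 * s * (K : ℝ) ^ (i + 1))) (2 * s * (K : ℝ) ^ (i + 1))
    (4 * s ^ 2 * (K : ℝ) ^ (i + 1) * M) (δ₁ * θ * M) (C i) ?_ ?_ hp0 hp1 (by positivity) ?_ ?_
  · refine hmain.trans ?_
    have e1 : (1 + θ / s) ^ (above A K (i + 2)).card ≤
        Real.exp (θ / s * ((above A K (i + 2)).card : ℝ)) := by
      rw [mul_comm, Real.exp_nat_mul]
      apply pow_le_pow_left₀ (by positivity)
      have := Real.add_one_le_exp (θ / s)
      linarith
    have e2 : θ / s * (δ₁ / (8 * s * (K : ℝ) ^ (i + 1))) ^ 2 * (4 * s ^ 2 * (K : ℝ) ^ (i + 1) * M) -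
        δ₁ / (8 * s * (K : ℝ) ^ (i + 1)) * (δ₁ * θ * M) =
        -(θ * δ₁ ^ 2 * M / (16 * s * (K : ℝ) ^ (i + 1))) := by
      have := hKpos.ne'
      field_simp
      ring
    rw [e2]
    calc (1 + θ / s) ^ (above A K (i + 2)).card *
          Real.exp (-(θ * δ₁ ^ 2 * M / (16 * s * (K : ℝ) ^ (i + 1))))
        ≤ Real.exp (θ / s * ((above A K (i + 2)).card : ℝ)) *
          Real.exp (-(θ * δ₁ ^ 2 * M / (16 * s * (K : ℝ) ^ (i + 1)))) :=
          mul_le_mul_of_nonneg_right e1 (Real.exp_pos _).le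
      _ = Real.exp (θ / s * ((above A K (i + 2)).card : ℝ) -
          θ * δ₁ ^ 2 * M / (16 * s * (K : ℝ) ^ (i + 1))) := by
          rw [← Real.exp_add]
          ring_nf
  · rw [Finset.disjoint_left]
    intro x hx hx2
    simp only [above, mem_filter, mem_univ, true_and] at hx hx2
    omega
  · exact devex_above_anti A K (by omega)
  · have e : δ₁ / (8 * s * (K : ℝ) ^ (i + 1)) * (2 * s * (K : ℝ) ^ (i + 1)) = δ₁ / 4 := by
      have := hKpos.ne'
      field_simp
      ring
    rw [e]
    linarith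
  · intro T' W _ _
    have hdK : ∀ u, blk A K u = i → (dg A u : ℝ) ≤ (K : ℝ) ^ (i + 1) := by
      intro u hu
      have h3 : dg A u < K ^ (Nat.log K (dg A u) + 1) :=
        Nat.lt_pow_succ_log_self (by omega) _
      have h4 : Nat.log K (dg A u) = i := hu
      rw [h4] at h3
      exact_mod_cast h3.le
    constructor
    · intro u hu
      have hub : blk A K u = i := by simpa using hu
      refine (hbd i T' W u hub).trans ?_
      exact mul_le_mul_of_nonneg_left (hdK u hub) (by positivity)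
    · rw [hM, Finset.mul_sum]
      apply Finset.sum_le_sum
      intro u hu
      have hub : blk A K u = i := by simpa using hu
      have h3 := hbd i T' W u hub
      have h4 : (C i T' W u) ^ 2 ≤ (2 * s * (dg A u : ℝ)) ^ 2 := by
        rw [← sq_abs]
        exact pow_le_pow_left₀ (abs_nonneg _) h3 2
      refine h4.trans ?_
      have h5 := hdK u hub
      have h6 : (0 : ℝ) ≤ 4 * s ^ 2 * (dg A u : ℝ) := by positivity
      calc (2 * s * (dg A u : ℝ)) ^ 2 = 4 * s ^ 2 * (dg A u : ℝ) * (dg A u : ℝ) := by ring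
        _ ≤ 4 * s ^ 2 * (dg A u : ℝ) * (K : ℝ) ^ (i + 1) := mul_le_mul_of_nonneg_left h5 h6
        _ = 4 * s ^ 2 * (K : ℝ) ^ (i + 1) * (dg A u : ℝ) := by ring

end devex

theorem devEx (h1 : LinStmt) (h2 : CodegStmt) : DevExStmt := by
  intro V ι _ _ _ _ A K I s θ δ₁ Φ hK hs hθ hθ1 hδ hδ1 hA hd hI
  constructor
  · exact devex_main h1 A K s θ δ₁ (fun i T W u => coef A K I (θ / s) Φ T W (I - i) u) hK hs hθ
      hθ1 hδ hδ1 (fun i T T' W u hT hu => devex_coef_congr A K I (θ / s) Φ W hT hu)
      (fun i T W u _ => devex_coef_bound h2 A K I (θ / s) s Φ T W (I - i) u hs hA hd)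
  · refine devex_main h1 A K s θ δ₁ (fun i T W u => 2 * s * (cnt A K Φ T W u u : ℝ)) hK hs hθ
      hθ1 hδ hδ1 ?_ ?_
    · intro i T T' W u hT hu
      rw [devex_cnt_congr A K Φ W u (a := i + 1) (by omega) hT]
    · intro i T W u _
      have h3 : ((cnt A K Φ T W u u : ℕ) : ℝ) ≤ dg A u := by
        exact_mod_cast devex_cnt_self_le A K Φ T W u
      rw [abs_of_nonneg (by positivity)]
      exact mul_le_mul_of_nonneg_left h3 (by positivity)

end Pool.Agent.Lib.MP_9b5ec2_co
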