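import Mathlib
import Pool.Agent.Lib.MP_9b5ec2_co.Defs3
import Pool.Agent.Lib.MP_9b5ec2_co.Codeg
import Pool.Agent.Lib.MP_9b5ec2_co.GT

/-!
# Discretization of fractional packings (`DiscStmt`)
-/

set_option autoImplicit false

namespace Pool.Agent.Lib.MP_9b5ec2_co

open Finset

section disc

variable {V ι : Type} [Fintype V] [DecidableEq V] [Fintype ι] [DecidableEq ι]

/-- the family `A` restricted to `X`, with the multiplicities `l` -/
def discFam (A : ι → Finset V) (X : Finset V) (l : ι → ℕ) :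
    (Σ i, Fin (l i)) → Finset {x // x ∈ X} :=
  fun e => gtRestr A X e.1

theorem disc_sum (A : ι → Finset V) (X : Finset V) (l : ι → ℕ) (v : {x // x ∈ X}) (F : ι → ℝ) :
    ∑ e ∈ univ.filter (fun e => v ∈ discFam A X l e), F e.1 =
      ∑ i ∈ univ.filter (fun i => v.1 ∈ A i), (l i : ℝ) * F i := by
  rw [Finset.sum_filter, Finset.sum_filter, Fintype.sum_sigma]
  refine Finset.sum_congr rfl fun i _ => ?_
  have h : ∀ a : Fin (l i), (if v ∈ discFam A X l ⟨i, a⟩ then F i else 0) =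
      if v.1 ∈ A i then F i else 0 := by
    intro a
    have h1 : v ∈ discFam A X l ⟨i, a⟩ ↔ v.1 ∈ A i := gtRestr_mem A X i v
    by_cases h2 : v.1 ∈ A i
    · rw [if_pos (h1.2 h2), if_pos h2]
    · rw [if_neg (fun h3 => h2 (h1.1 h3)), if_neg h2]
  rw [Finset.sum_congr rfl fun a _ => h a, Finset.sum_const, Finset.card_univ, Fintype.card_fin,
    nsmul_eq_mul]
  split_ifs <;> simp

theorem disc_dg (A : ι → Finset V) (X : Finset V) (l : ι → ℕ) (v : {x // x ∈ X}) :
    (dg (discFam A X l) v : ℝ) = ∑ i ∈ univ.filter (fun i => v.1 ∈ A i), (l i : ℝ) := by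
  have h := disc_sum A X l v (fun _ => 1)
  simp only [mul_one] at h
  rw [← h, Finset.sum_const, nsmul_eq_mul, mul_one]
  rfl

theorem disc_twoCol {m : ℕ} {A : ι → Finset V} (X : Finset V) (l : ι → ℕ) (h : TwoCol m A) :
    TwoCol m (discFam A X l) := by
  intro S
  obtain ⟨R, hR⟩ := gtRestr_twoCol X h S
  exact ⟨R, fun e he => hR e.1 he⟩

theorem disc_codeg (A : ι → Finset V) (X : Finset V) (l : ι → ℕ) (v : {x // x ∈ X}) :
    ∑ u, (codeg (discFam A X l) u v : ℝ) ^ 2 ≤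
      ∑ i ∈ univ.filter (fun i => v.1 ∈ A i), ∑ j ∈ univ.filter (fun j => v.1 ∈ A j),
        (l i : ℝ) * ((l j : ℝ) * ((A i ∩ A j).card : ℝ)) := by
  have h := codeg_sq_sum (discFam A X l) v univ
  have h' : ∑ u, (codeg (discFam A X l) u v : ℝ) ^ 2 =
      ∑ e ∈ univ.filter (fun e => v ∈ discFam A X l e),
        ∑ f ∈ univ.filter (fun e => v ∈ discFam A X l e),
          ((discFam A X l e ∩ discFam A X l f ∩ univ).card : ℝ) := by
    exact_mod_cast h
  rw [h']
  have h1 : ∀ e f : (Σ i, Fin (l i)), ((discFam A X l e ∩ discFam A X l f ∩ univ).card : ℝ) ≤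
      ((A e.1 ∩ A f.1).card : ℝ) := by
    intro e f
    rw [Finset.inter_univ]
    exact_mod_cast gtRestr_inter_le A X e.1 f.1
  refine (Finset.sum_le_sum fun e _ => Finset.sum_le_sum fun f _ => h1 e f).trans (le_of_eq ?_)
  have h2 : ∀ e : (Σ i, Fin (l i)), ∑ f ∈ univ.filter (fun f => v ∈ discFam A X l f),
      ((A e.1 ∩ A f.1).card : ℝ) = ∑ j ∈ univ.filter (fun j => v.1 ∈ A j),
        (l j : ℝ) * ((A e.1 ∩ A j).card : ℝ) := fun e =>
    disc_sum A X l v (fun j => ((A e.1 ∩ A j).card : ℝ))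
  rw [Finset.sum_congr rfl fun e _ => h2 e]
  rw [disc_sum A X l v (fun i => ∑ j ∈ univ.filter (fun j => v.1 ∈ A j),
        (l j : ℝ) * ((A i ∩ A j).card : ℝ))]
  refine Finset.sum_congr rfl fun i _ => ?_
  rw [Finset.mul_sum]

end disc

theorem disc : DiscStmt := by
  intro m V ι _ _ _ _ A y X s g Λ hs hg hA hy hy2 hX hXs hsy hCD
  -- the choice of `q`
  have hXne : X.Nonempty := by
    by_contra h
    rw [Finset.not_nonempty_iff_eq_empty] at h
    rw [h, Finset.sum_empty] at hXs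
    exact lt_irrefl _ hXs
  set N : ℝ := (Fintype.card ι : ℝ) with hN
  have hN0 : 0 ≤ N := Nat.cast_nonneg _
  obtain ⟨v₀, hv₀, hmin⟩ := X.exists_min_image (fun v => fdeg A y v) hXne
  have hf0 : 0 < fdeg A y v₀ := hX v₀ hv₀
  obtain ⟨q, hq⟩ := exists_nat_ge ((3 * N + |Λ| + N + 1) / fdeg A y v₀)
  rw [div_le_iff₀ hf0] at hq
  have hq1 : ∀ v ∈ X, 3 * N + |Λ| + N + 1 ≤ q * fdeg A y v := fun v hv =>
    hq.trans (mul_le_mul_of_nonneg_left (hmin v hv) (Nat.cast_nonneg _))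
  have hqn : (0 : ℝ) ≤ q := Nat.cast_nonneg _
  set l : ι → ℕ := fun i => ⌊q * y i⌋₊ with hl
  have hl1 : ∀ i, (l i : ℝ) ≤ q * y i := fun i =>
    Nat.floor_le (mul_nonneg hqn (hy i))
  have hl2 : ∀ i, (q : ℝ) * y i - 1 ≤ l i := fun i => (Nat.sub_one_lt_floor _).le
  -- degrees
  have hdle : ∀ v : {x // x ∈ X}, (dg (discFam A X l) v : ℝ) ≤ q * fdeg A y v.1 := by
    intro v
    rw [disc_dg, fdeg, Finset.mul_sum]
    exact Finset.sum_le_sum fun i _ => hl1 i
  have hdge : ∀ v : {x // x ∈ X}, (q : ℝ) * fdeg A y v.1 - N ≤ dg (discFam A X l) v := by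
    intro v
    rw [disc_dg, fdeg, Finset.mul_sum]
    have h1 : ∑ i ∈ univ.filter (fun i => v.1 ∈ A i), ((q : ℝ) * y i - 1) ≤
        ∑ i ∈ univ.filter (fun i => v.1 ∈ A i), (l i : ℝ) :=
      Finset.sum_le_sum fun i _ => hl2 i
    rw [Finset.sum_sub_distrib, Finset.sum_const, nsmul_eq_mul, mul_one] at h1
    have h2 : ((univ.filter (fun i => v.1 ∈ A i)).card : ℝ) ≤ N := by
      rw [hN, ← Finset.card_univ]
      exact_mod_cast Finset.card_filter_le _ _
    linarith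
  have habs : Λ ≤ |Λ| := le_abs_self Λ
  have habs0 : 0 ≤ |Λ| := abs_nonneg Λ
  have hd23 : ∀ v : {x // x ∈ X}, 2 / 3 * ((q : ℝ) * fdeg A y v.1) ≤ dg (discFam A X l) v := by
    intro v
    have h1 := hdge v
    have h2 := hq1 v.1 v.2
    linarith
  have hcard : (Fintype.card (Σ i, Fin (l i)) : ℝ) ≤ q * ∑ i, y i := by
    rw [Fintype.card_sigma, Nat.cast_sum, Finset.mul_sum]
    refine Finset.sum_le_sum fun i _ => ?_
    rw [Fintype.card_fin]
    exact hl1 i
  have hmass : 2 / 3 * ((q : ℝ) * ∑ v ∈ X, fdeg A y v) ≤ mass (discFam A X l) := by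
    unfold mass
    rw [← Finset.sum_coe_sort X, Finset.mul_sum, Finset.mul_sum]
    exact Finset.sum_le_sum fun v _ => hd23 v
  refine ⟨{x // x ∈ X}, (Σ i, Fin (l i)), inferInstance, inferInstance, inferInstance,
    inferInstance, discFam A X l, disc_twoCol X l hA, ?_, ?_, ?_, ?_, ?_⟩
  · -- nonempty
    by_contra h
    have h0 : Fintype.card (Σ i, Fin (l i)) = 0 := Nat.eq_zero_of_not_pos h
    have h1 : dg (discFam A X l) ⟨v₀, hv₀⟩ ≤ Fintype.card (Σ i, Fin (l i)) := by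
      unfold dg deg
      exact (Finset.card_filter_le _ _)
    have h2 : (dg (discFam A X l) ⟨v₀, hv₀⟩ : ℝ) ≤ 0 := by
      rw [h0] at h1
      exact_mod_cast h1
    have h3 := hd23 ⟨v₀, hv₀⟩
    have h4 := hq1 v₀ hv₀
    simp only at h3
    linarith
  · -- sizes
    intro e
    obtain ⟨i, a⟩ := e
    have hpos : 0 < l i := lt_of_le_of_lt (Nat.zero_le _) a.2
    have h1 : (1 : ℝ) ≤ q * y i := (by exact_mod_cast hpos : (1 : ℝ) ≤ (l i : ℝ)).trans (hl1 i)
    have h2 : ¬ 2 * s < ((A i).card : ℝ) := by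
      intro h3
      rw [hy2 i h3, mul_zero] at h1
      linarith
    refine le_trans ?_ (not_lt.1 h2)
    exact_mod_cast gtRestr_card_le A X i
  · -- mass
    have h1 : (Fintype.card (Σ i, Fin (l i)) : ℝ) * s ≤ q * (s * ∑ i, y i) := by
      calc (Fintype.card (Σ i, Fin (l i)) : ℝ) * s ≤ (q * ∑ i, y i) * s :=
            mul_le_mul_of_nonneg_right hcard hs.le
        _ = q * (s * ∑ i, y i) := by ring
    have h2 : (q : ℝ) * (s * ∑ i, y i) ≤ q * (4 / 3 * ∑ v ∈ X, fdeg A y v) :=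
      mul_le_mul_of_nonneg_left hsy hqn
    linarith
  · -- averaged almost disjointness
    intro v
    refine (disc_codeg A X l v).trans ?_
    have hq2 : 0 ≤ (q : ℝ) ^ 2 := by positivity
    calc ∑ i ∈ univ.filter (fun i => v.1 ∈ A i), ∑ j ∈ univ.filter (fun j => v.1 ∈ A j),
          (l i : ℝ) * ((l j : ℝ) * ((A i ∩ A j).card : ℝ))
        ≤ ∑ i ∈ univ.filter (fun i => v.1 ∈ A i), ∑ j ∈ univ.filter (fun j => v.1 ∈ A j),
          (q : ℝ) ^ 2 * (y i * y j * ((A i ∩ A j).card : ℝ)) := by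
          refine Finset.sum_le_sum fun i _ => Finset.sum_le_sum fun j _ => ?_
          have h1 : (l i : ℝ) * (l j : ℝ) ≤ (q * y i) * (q * y j) :=
            mul_le_mul (hl1 i) (hl1 j) (Nat.cast_nonneg _) (mul_nonneg hqn (hy i))
          calc (l i : ℝ) * ((l j : ℝ) * ((A i ∩ A j).card : ℝ))
              = (l i : ℝ) * (l j : ℝ) * ((A i ∩ A j).card : ℝ) := by ring
            _ ≤ (q * y i) * (q * y j) * ((A i ∩ A j).card : ℝ) :=
                mul_le_mul_of_nonneg_right h1 (Nat.cast_nonneg _)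
            _ = (q : ℝ) ^ 2 * (y i * y j * ((A i ∩ A j).card : ℝ)) := by ring
      _ = (q : ℝ) ^ 2 * ∑ i ∈ univ.filter (fun i => v.1 ∈ A i),
            ∑ j ∈ univ.filter (fun j => v.1 ∈ A j), y i * y j * ((A i ∩ A j).card : ℝ) := by
          rw [Finset.mul_sum]
          refine Finset.sum_congr rfl fun i _ => ?_
          rw [Finset.mul_sum]
      _ ≤ (q : ℝ) ^ 2 * (g * s * (fdeg A y v.1) ^ 2) :=
          mul_le_mul_of_nonneg_left (hCD v.1 v.2) hq2
      _ = g * s * (q * fdeg A y v.1) ^ 2 := by ring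
      _ ≤ g * s * (2 * (dg (discFam A X l) v : ℝ)) ^ 2 := by
          have h1 := hd23 v
          have h2 : 0 ≤ (q : ℝ) * fdeg A y v.1 := mul_nonneg hqn (hX v.1 v.2).le
          refine mul_le_mul_of_nonneg_left ?_ (mul_nonneg hg hs.le)
          exact pow_le_pow_left₀ h2 (by linarith) 2
      _ = 4 * g * s * (dg (discFam A X l) v : ℝ) ^ 2 := by ring
  · intro v
    have h1 := hdge v
    have h2 := hq1 v.1 v.2
    linarith

end Pool.Agent.Lib.MP_9b5ec2_co
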