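import Pool.Agent.Lib.MP_9b5ec2_co.Defs3

/-!
# MP_9b5ec2_co: the drop lemma (from the uniform drop lemma, by blowing up points)
-/

set_option autoImplicit false

namespace Pool.Agent.Lib.MP_9b5ec2_co

open Finset

/-- The sum of a function of the first coordinate over the blow-up. -/
private lemma drop_sum_sigma {V : Type} [Fintype V] [DecidableEq V] (n : V → ℕ) (c : V → ℝ) :
    ∑ x : (Σ v : V, Fin (n v)), c x.1 = ∑ v, (n v : ℝ) * c v := by
  rw [Fintype.sum_sigma]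
  refine Finset.sum_congr rfl fun v _ => ?_
  simp

/-- The sum over the projection of a set is at most the sum over the set. -/
private lemma drop_sum_image {V : Type} [DecidableEq V] (n : V → ℕ) (c : V → ℝ)
    (hc : ∀ v, 0 ≤ c v) (R' : Finset (Σ v : V, Fin (n v))) :
    ∑ v ∈ R'.image Sigma.fst, c v ≤ ∑ x ∈ R', c x.1 := by
  rw [← Finset.sum_fiberwise_of_maps_to (s := R') (t := R'.image Sigma.fst) (g := Sigma.fst)
    (fun x hx => Finset.mem_image_of_mem _ hx)]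
  refine Finset.sum_le_sum fun v hv => ?_
  obtain ⟨x, hx, hxv⟩ := Finset.mem_image.1 hv
  have hmem : x ∈ R'.filter (fun y => y.1 = v) := Finset.mem_filter.2 ⟨hx, hxv⟩
  have h1 : c x.1 ≤ ∑ y ∈ R'.filter (fun y => y.1 = v), c y.1 :=
    Finset.single_le_sum (f := fun y : (Σ v : V, Fin (n v)) => c y.1) (fun y _ => hc y.1) hmem
  rw [hxv] at h1
  exact h1

private lemma drop_fdeg {V ι : Type} [DecidableEq V] [Fintype ι] (n : V → ℕ) (A : ι → Finset V)
    (y : ι → ℝ) (x : Σ v : V, Fin (n v)) : fdeg (wtBlow n A) y x = fdeg A y x.1 := by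
  unfold fdeg
  refine Finset.sum_congr ?_ fun _ _ => rfl
  ext i
  simp [mem_wtBlow]

theorem drop (h : KLUStmt) : DropStmt := by
  intro m hm
  obtain ⟨K₀, s₀, hK₀, hs₀, H⟩ := h m hm
  refine ⟨2 * K₀, by linarith, ?_⟩
  intro V ι _ _ _ _ A c x hA hc hx hcov hL
  set L : ℝ := ∑ v, c v * x v with hLdef
  set Sc : ℝ := ∑ v, c v with hSc
  have hSc0 : 0 ≤ Sc := Finset.sum_nonneg fun v _ => hc v
  set S : ℝ := max s₀ (94 * Sc / L) with hS
  have hSs₀ : s₀ ≤ S := le_max_left _ _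
  have hS1 : 1 ≤ S := hs₀.trans hSs₀
  have hS0 : 0 < S := by linarith
  have hSL : 94 * Sc ≤ S * L := by
    have : 94 * Sc / L ≤ S := le_max_right _ _
    rwa [div_le_iff₀ hL] at this
  set n : V → ℕ := fun v => ⌈S * x v⌉₊ with hn
  have hn1 : ∀ v, S * x v ≤ (n v : ℝ) := fun v => Nat.le_ceil _
  have hn2 : ∀ v, (n v : ℝ) ≤ S * x v + 1 := fun v =>
    (Nat.ceil_lt_add_one (mul_nonneg hS0.le (hx v))).le
  -- the blow-up
  set c' : (Σ v : V, Fin (n v)) → ℝ := fun z => c z.1 with hc'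
  have hsum : ∑ z, c' z = ∑ v, (n v : ℝ) * c v := drop_sum_sigma n c
  have hlow : S * L ≤ ∑ z, c' z := by
    rw [hsum, hLdef, Finset.mul_sum]
    refine Finset.sum_le_sum fun v _ => ?_
    calc S * (c v * x v) = (S * x v) * c v := by ring
      _ ≤ (n v : ℝ) * c v := mul_le_mul_of_nonneg_right (hn1 v) (hc v)
  have hup : ∑ z, c' z ≤ S * L + Sc := by
    rw [hsum, hLdef, hSc, Finset.mul_sum, ← Finset.sum_add_distrib]
    refine Finset.sum_le_sum fun v _ => ?_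
    calc (n v : ℝ) * c v ≤ (S * x v + 1) * c v := mul_le_mul_of_nonneg_right (hn2 v) (hc v)
      _ = S * (c v * x v) + c v := by ring
  have hSLpos : 0 < S * L := mul_pos hS0 hL
  have hcard : ∀ i, S ≤ ((wtBlow n A i).card : ℝ) := by
    intro i
    rw [card_wtBlow, Nat.cast_sum]
    calc S = S * 1 := by ring
      _ ≤ S * ∑ v ∈ A i, x v := mul_le_mul_of_nonneg_left (hcov i) hS0.le
      _ = ∑ v ∈ A i, S * x v := by rw [Finset.mul_sum]
      _ ≤ ∑ v ∈ A i, (n v : ℝ) := Finset.sum_le_sum fun v _ => hn1 v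
  obtain ⟨R', hR', hno⟩ := H (Σ v : V, Fin (n v)) ι (wtBlow n A) c' S (wtBlow_twoCol n hA) hSs₀
    hcard (fun z => hc z.1) (lt_of_lt_of_le hSLpos hlow)
  refine ⟨R'.image Sigma.fst, ?_, ?_⟩
  · have h1 : ∑ v ∈ R'.image Sigma.fst, c v ≤ ∑ z ∈ R', c' z := drop_sum_image n c hc R'
    have h2 : S * ∑ z ∈ R', c' z ≤ K₀ * (S * L + Sc) :=
      hR'.trans (mul_le_mul_of_nonneg_left hup hK₀.le)
    have h3 : K₀ * (S * L + Sc) ≤ S * (2 * K₀ * L) := by
      have : S * L + Sc ≤ 2 * (S * L) := by linarith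
      calc K₀ * (S * L + Sc) ≤ K₀ * (2 * (S * L)) := mul_le_mul_of_nonneg_left this hK₀.le
        _ = S * (2 * K₀ * L) := by ring
    have h4 : ∑ z ∈ R', c' z ≤ 2 * K₀ * L := le_of_mul_le_mul_left (h2.trans h3) hS0
    exact h1.trans h4
  · rintro ⟨y, ⟨hy0, hyd⟩, hyR, hyL⟩
    apply hno
    refine ⟨y, ⟨hy0, fun z => ?_⟩, fun i hi => ?_, ?_⟩
    · rw [drop_fdeg]
      exact hyd z.1
    · apply hyR i
      obtain ⟨z, hz⟩ := hi
      rw [Finset.mem_inter, mem_wtBlow] at hz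
      exact ⟨z.1, Finset.mem_inter.2 ⟨hz.1, Finset.mem_image_of_mem _ hz.2⟩⟩
    · have h1 : S * ((1 - 1 / 96) * L) ≤ S * ∑ i, y i := mul_le_mul_of_nonneg_left hyL hS0.le
      have h2 : (1 - 1 / 48) * ∑ z, c' z ≤ (1 - 1 / 48) * (S * L + Sc) :=
        mul_le_mul_of_nonneg_left hup (by norm_num)
      have h3 : (1 - 1 / 48 : ℝ) * (S * L + Sc) ≤ S * ((1 - 1 / 96) * L) := by
        nlinarith
      exact h2.trans (h3.trans h1)

end Pool.Agent.Lib.MP_9b5ec2_co
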