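import Mathlib
import Pool.Agent.Lib.MP_9b5ec2_co.Ex
import Pool.Agent.Lib.MP_9b5ec2_co.Defs2

/-! Linear statistic with union bound (`LinStmt`). -/

set_option autoImplicit false
set_option linter.unusedSectionVars false

namespace Pool.Agent.Lib.MP_9b5ec2_co

open Finset

section lin

variable {V : Type} [DecidableEq V]

theorem lin_Ex_insert (p : ℝ) (X : Finset V) (a : V) (ha : a ∉ X) (f : Finset V → ℝ) :
    Ex p (insert a X) f = (1 - p) * Ex p X f + p * Ex p X (fun T => f (insert a T)) := by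
  unfold Ex
  rw [Finset.sum_powerset_insert ha, Finset.mul_sum, Finset.mul_sum]
  congr 1
  · refine Finset.sum_congr rfl fun T hT => ?_
    have hTX := Finset.mem_powerset.1 hT
    rw [Finset.card_insert_of_notMem ha]
    have h1 : X.card + 1 - T.card = (X.card - T.card) + 1 := by
      have := Finset.card_le_card hTX
      omega
    rw [h1, pow_succ]
    ring
  · refine Finset.sum_congr rfl fun T hT => ?_
    have hTX := Finset.mem_powerset.1 hT
    have haT : a ∉ T := fun h => ha (hTX h)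
    rw [Finset.card_insert_of_notMem ha, Finset.card_insert_of_notMem haT,
      Nat.add_sub_add_right, pow_succ]
    ring

theorem lin_Ex_union (p : ℝ) (Y : Finset V) : ∀ (X : Finset V), Disjoint X Y →
    ∀ f : Finset V → ℝ,
    Ex p (X ∪ Y) f = Ex p X (fun T₁ => Ex p Y (fun T₂ => f (T₁ ∪ T₂))) := by
  intro X
  induction X using Finset.induction_on with
  | empty =>
    intro _ f
    have h1 : Ex p (∅ : Finset V) (fun T₁ => Ex p Y (fun T₂ => f (T₁ ∪ T₂))) =
        Ex p Y (fun T₂ => f (∅ ∪ T₂)) := by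
      conv_lhs => unfold Ex
      simp [Ex]
    rw [h1, Finset.empty_union]
    refine Ex_congr p Y _ _ fun T _ => ?_
    rw [Finset.empty_union]
  | insert a X ha ih =>
    intro hd f
    rw [Finset.disjoint_insert_left] at hd
    have hn : a ∉ X ∪ Y := by
      simp only [Finset.mem_union, not_or]
      exact ⟨ha, hd.1⟩
    rw [Finset.insert_union, lin_Ex_insert p (X ∪ Y) a hn, lin_Ex_insert p X a ha,
      ih hd.2 f, ih hd.2 (fun T => f (insert a T))]
    congr 2
    refine Ex_congr p X _ _ fun T _ => ?_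
    refine Ex_congr p Y _ _ fun T' _ => ?_
    rw [Finset.insert_union]

/-- exponential moment of a centred linear statistic -/
theorem lin_moment (P : Finset V) (p l L B t : ℝ) (c : V → ℝ) (hp0 : 0 ≤ p) (hp1 : p ≤ 1)
    (hl : 0 ≤ l) (hL : l * L ≤ 1) (hc : ∀ u ∈ P, |c u| ≤ L) (hB : ∑ u ∈ P, (c u) ^ 2 ≤ B) :
    Ex p P (fun T => if t < ∑ u ∈ P, ((if u ∈ T then (1 : ℝ) else 0) - p) * c u
      then (1 : ℝ) else 0) ≤ Real.exp (p * l ^ 2 * B - l * t) := by
  have h1 : Ex p P (fun T => if t < ∑ u ∈ P, ((if u ∈ T then (1 : ℝ) else 0) - p) * c u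
      then (1 : ℝ) else 0) ≤
      Ex p P (fun T => (Real.exp (-(l * t)) * ∏ u ∈ P, Real.exp (-(p * (l * c u)))) *
        ∏ u ∈ T, Real.exp (l * c u)) := by
    refine Ex_mono hp0 hp1 P _ _ fun T hT => ?_
    have e1 : (Real.exp (-(l * t)) * ∏ u ∈ P, Real.exp (-(p * (l * c u)))) *
        ∏ u ∈ T, Real.exp (l * c u) =
        Real.exp (l * (∑ u ∈ P, ((if u ∈ T then (1 : ℝ) else 0) - p) * c u) - l * t) := by
      rw [← Real.exp_sum, ← Real.exp_sum, ← Real.exp_add, ← Real.exp_add]
      congr 1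
      have e2 : ∑ u ∈ P, ((if u ∈ T then (1 : ℝ) else 0) - p) * c u =
          ∑ u ∈ T, c u - p * ∑ u ∈ P, c u := by
        rw [Finset.mul_sum]
        have e3 : ∑ u ∈ T, c u = ∑ u ∈ P, if u ∈ T then c u else 0 := by
          rw [Finset.sum_ite_mem, Finset.inter_eq_right.2 hT]
        rw [e3, ← Finset.sum_sub_distrib]
        refine Finset.sum_congr rfl fun u _ => ?_
        split_ifs <;> ring
      rw [e2, ← Finset.mul_sum, Finset.sum_neg_distrib, ← Finset.mul_sum, ← Finset.mul_sum]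
      ring
    rw [e1]
    split_ifs with h
    · have h0 : 0 ≤ l * (∑ u ∈ P, ((if u ∈ T then (1 : ℝ) else 0) - p) * c u) - l * t := by
        have := mul_le_mul_of_nonneg_left h.le hl
        linarith
      exact Real.one_le_exp h0
    · exact (Real.exp_pos _).le
  refine h1.trans ?_
  rw [Ex_mul_left, Ex_prod, mul_assoc, ← Finset.prod_mul_distrib]
  have h2 : ∏ u ∈ P, (Real.exp (-(p * (l * c u))) * (1 - p + p * Real.exp (l * c u))) ≤
      ∏ u ∈ P, Real.exp (p * (l * c u) ^ 2) := by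
    refine Finset.prod_le_prod (fun u _ => ?_) (fun u hu => ?_)
    · refine mul_nonneg (Real.exp_pos _).le ?_
      have := mul_nonneg hp0 (Real.exp_pos (l * c u)).le
      linarith
    · have hx : |l * c u| ≤ 1 := by
        rw [abs_mul, abs_of_nonneg hl]
        exact (mul_le_mul_of_nonneg_left (hc u hu) hl).trans hL
      have h3 := Real.abs_exp_sub_one_sub_id_le hx
      have h4 : Real.exp (l * c u) - 1 - l * c u ≤ (l * c u) ^ 2 := (le_abs_self _).trans h3
      have h5 : 1 - p + p * Real.exp (l * c u) ≤ Real.exp (p * (Real.exp (l * c u) - 1)) := by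
        have := Real.add_one_le_exp (p * (Real.exp (l * c u) - 1))
        linarith
      calc Real.exp (-(p * (l * c u))) * (1 - p + p * Real.exp (l * c u))
          ≤ Real.exp (-(p * (l * c u))) * Real.exp (p * (Real.exp (l * c u) - 1)) :=
            mul_le_mul_of_nonneg_left h5 (Real.exp_pos _).le
        _ = Real.exp (p * (Real.exp (l * c u) - 1 - l * c u)) := by
            rw [← Real.exp_add]
            congr 1
            ring
        _ ≤ Real.exp (p * (l * c u) ^ 2) :=
            Real.exp_le_exp.2 (mul_le_mul_of_nonneg_left h4 hp0)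
  calc Real.exp (-(l * t)) *
        ∏ u ∈ P, (Real.exp (-(p * (l * c u))) * (1 - p + p * Real.exp (l * c u)))
      ≤ Real.exp (-(l * t)) * ∏ u ∈ P, Real.exp (p * (l * c u) ^ 2) :=
        mul_le_mul_of_nonneg_left h2 (Real.exp_pos _).le
    _ = Real.exp (p * l ^ 2 * (∑ u ∈ P, (c u) ^ 2) - l * t) := by
        rw [← Real.exp_sum, ← Real.exp_add]
        congr 1
        rw [Finset.mul_sum]
        have e4 : ∑ u ∈ P, p * (l * c u) ^ 2 = ∑ u ∈ P, p * l ^ 2 * (c u) ^ 2 :=
          Finset.sum_congr rfl fun u _ => by ring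
        rw [e4]
        ring
    _ ≤ Real.exp (p * l ^ 2 * B - l * t) := by
        refine Real.exp_le_exp.2 ?_
        have := mul_le_mul_of_nonneg_left hB (mul_nonneg hp0 (sq_nonneg l))
        linarith

end lin

theorem lin : LinStmt := by
  intro V _ _ P R R₂ p l L B t C hPR hR₂ hp0 hp1 hl hL hC
  have hu : (univ : Finset V) = (univ \ P) ∪ P := by
    rw [Finset.sdiff_union_of_subset (Finset.subset_univ P)]
  have hdis : Disjoint (univ \ P) P := Finset.sdiff_disjoint
  rw [hu, lin_Ex_union p P (univ \ P) hdis]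
  have key : ∀ T₁ : Finset V, T₁ ⊆ univ \ P →
      Ex p P (fun T₂ => ∑ W ∈ ((T₁ ∪ T₂) ∩ R₂).powerset,
        if t < ∑ u ∈ P, ((if u ∈ T₁ ∪ T₂ then (1 : ℝ) else 0) - p) * C ((T₁ ∪ T₂) ∩ R) W u
          then (1 : ℝ) else 0) ≤
      2 ^ (T₁ ∩ R₂).card * Real.exp (p * l ^ 2 * B - l * t) := by
    intro T₁ hT₁
    have h1 : Ex p P (fun T₂ => ∑ W ∈ ((T₁ ∪ T₂) ∩ R₂).powerset,
        if t < ∑ u ∈ P, ((if u ∈ T₁ ∪ T₂ then (1 : ℝ) else 0) - p) * C ((T₁ ∪ T₂) ∩ R) W u
          then (1 : ℝ) else 0) =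
        Ex p P (fun T₂ => ∑ W ∈ (T₁ ∩ R₂).powerset,
        if t < ∑ u ∈ P, ((if u ∈ T₂ then (1 : ℝ) else 0) - p) * C (T₁ ∩ R) W u
          then (1 : ℝ) else 0) := by
      refine Ex_congr p P _ _ fun T₂ hT₂ => ?_
      have e1 : (T₁ ∪ T₂) ∩ R = T₁ ∩ R := by
        ext x
        simp only [Finset.mem_inter, Finset.mem_union]
        constructor
        · rintro ⟨h | h, hR⟩
          · exact ⟨h, hR⟩
          · exact absurd hR (Finset.disjoint_left.1 hPR (hT₂ h))
        · rintro ⟨h, hR⟩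
          exact ⟨Or.inl h, hR⟩
      have e2 : (T₁ ∪ T₂) ∩ R₂ = T₁ ∩ R₂ := by
        ext x
        simp only [Finset.mem_inter, Finset.mem_union]
        constructor
        · rintro ⟨h | h, hR⟩
          · exact ⟨h, hR⟩
          · exact absurd (hR₂ hR) (Finset.disjoint_left.1 hPR (hT₂ h))
        · rintro ⟨h, hR⟩
          exact ⟨Or.inl h, hR⟩
      rw [e1, e2]
      refine Finset.sum_congr rfl fun W _ => ?_
      have e3 : ∑ u ∈ P, ((if u ∈ T₁ ∪ T₂ then (1 : ℝ) else 0) - p) * C (T₁ ∩ R) W u =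
          ∑ u ∈ P, ((if u ∈ T₂ then (1 : ℝ) else 0) - p) * C (T₁ ∩ R) W u := by
        refine Finset.sum_congr rfl fun u hu => ?_
        have hu1 : u ∉ T₁ := fun h => (Finset.mem_sdiff.1 (hT₁ h)).2 hu
        simp [Finset.mem_union, hu1]
      rw [e3]
    rw [h1, Ex_sum]
    calc ∑ W ∈ (T₁ ∩ R₂).powerset, Ex p P (fun T₂ =>
          if t < ∑ u ∈ P, ((if u ∈ T₂ then (1 : ℝ) else 0) - p) * C (T₁ ∩ R) W u
            then (1 : ℝ) else 0)
        ≤ ∑ _W ∈ (T₁ ∩ R₂).powerset, Real.exp (p * l ^ 2 * B - l * t) := by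
          refine Finset.sum_le_sum fun W hW => ?_
          have hW' := Finset.mem_powerset.1 hW
          have h2 := hC (T₁ ∩ R) W Finset.inter_subset_right (by
            intro x hx
            have := Finset.mem_inter.1 (hW' hx)
            exact Finset.mem_inter.2 ⟨Finset.mem_inter.2 ⟨this.1, hR₂ this.2⟩, this.2⟩)
          exact lin_moment P p l L B t _ hp0 hp1 hl hL h2.1 h2.2
      _ = 2 ^ (T₁ ∩ R₂).card * Real.exp (p * l ^ 2 * B - l * t) := by
          rw [Finset.sum_const, Finset.card_powerset, nsmul_eq_mul]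
          push_cast
          ring
  refine (Ex_mono hp0 hp1 (univ \ P) _ _ key).trans ?_
  rw [Ex_mul_right, Ex_pow p 2 (univ \ P) R₂]
  · have e : (1 - p + p * 2 : ℝ) = 1 + p := by ring
    rw [e]
  · intro x hx
    refine Finset.mem_sdiff.2 ⟨Finset.mem_univ x, fun hxP => ?_⟩
    exact Finset.disjoint_left.1 hPR hxP (hR₂ hx)

end Pool.Agent.Lib.MP_9b5ec2_co
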