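import Mathlib
import Pool.Agent.Lib.MP_9b5ec2_co.Defs3
import Pool.Agent.Lib.MP_9b5ec2_co.Ex
import Pool.Agent.Lib.MP_9b5ec2_co.Lin

/-!
# Random sets are nets (MP_9b5ec2_co)
-/

set_option autoImplicit false

namespace Pool.Agent.Lib.MP_9b5ec2_co

open Finset

open Classical in
/-- The indicator of the double sampling event. -/
private noncomputable def enG {V ι : Type} [DecidableEq V] (A : ι → Finset V) (G : Finset V)
    (w a : ℝ) (R Q : Finset V) : ℝ :=
  if ∃ j, A j ∩ G ∩ R = ∅ ∧ w ≤ ((A j ∩ G).card : ℝ) ∧ a ≤ ((A j ∩ Q).card : ℝ) then 1 else 0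

private theorem en_nonneg {V ι : Type} [DecidableEq V] (A : ι → Finset V) (G : Finset V)
    (w a : ℝ) (R Q : Finset V) : 0 ≤ enG A G w a R Q := by
  unfold enG
  split_ifs <;> norm_num

private theorem en_pow (n : ℕ) : (1 / 2 : ℝ) ^ n ≤ Real.exp (-((n : ℝ) / 2)) := by
  have h1 : Real.exp (1 / 2) ≤ 2 := by
    have h2 : Real.exp (1 / 2) * Real.exp (1 / 2) = Real.exp 1 := by
      rw [← Real.exp_add]
      norm_num
    have h3 := Real.exp_one_lt_d9
    have h4 := Real.exp_pos (1 / 2)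
    nlinarith
  have h5 : (1 / 2 : ℝ) ≤ Real.exp (-(1 / 2)) := by
    rw [Real.exp_neg]
    have h6 : (1 / 2 : ℝ) = 2⁻¹ := by norm_num
    calc (1 / 2 : ℝ) = 2⁻¹ := h6
      _ ≤ (Real.exp (1 / 2))⁻¹ := inv_anti₀ (Real.exp_pos _) h1
  calc (1 / 2 : ℝ) ^ n ≤ (Real.exp (-(1 / 2))) ^ n := pow_le_pow_left₀ (by norm_num) h5 n
    _ = Real.exp (-((n : ℝ) / 2)) := by
      rw [← Real.exp_nat_mul]
      congr 1
      ring

private theorem en_two (h3 : TailStmt) {V ι : Type} [DecidableEq V] (A : ι → Finset V)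
    (G R : Finset V) (w a q : ℝ) (hq0 : 0 ≤ q) (hq1 : q ≤ 1)
    (ha : 2 * a ≤ q * w) (hw : Real.exp (-(q * w) / 8) ≤ 1 / 2)
    (hE : ∃ j, A j ∩ G ∩ R = ∅ ∧ w ≤ ((A j ∩ G).card : ℝ)) :
    1 ≤ 2 * Ex q (G \ R) (fun S => enG A G w a R (R ∪ S)) := by
  classical
  obtain ⟨j, hj, hjw⟩ := hE
  have hT : A j ∩ G ⊆ G \ R := by
    intro x hx
    rw [Finset.mem_sdiff]
    refine ⟨(Finset.mem_inter.1 hx).2, fun hxR => ?_⟩
    have : x ∈ A j ∩ G ∩ R := Finset.mem_inter.2 ⟨hx, hxR⟩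
    rw [hj] at this
    exact Finset.notMem_empty x this
  have h1 := h3 V (G \ R) (A j ∩ G) q hq0 hq1 hT
  have h2 : Real.exp (-(q * ((A j ∩ G).card : ℝ)) / 8) ≤ 1 / 2 := by
    refine (Real.exp_le_exp.2 ?_).trans hw
    have := mul_le_mul_of_nonneg_left hjw hq0
    linarith
  have h4 : Ex q (G \ R) (fun S => 1 - (if 2 * ((S ∩ (A j ∩ G)).card : ℝ) <
      q * ((A j ∩ G).card : ℝ) then (1 : ℝ) else 0)) ≤
      Ex q (G \ R) (fun S => enG A G w a R (R ∪ S)) := by
    refine Ex_mono hq0 hq1 _ _ _ fun S _ => ?_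
    split_ifs with hlt
    · rw [sub_self]
      exact en_nonneg _ _ _ _ _ _
    · have h5 : ∃ j, A j ∩ G ∩ R = ∅ ∧ w ≤ ((A j ∩ G).card : ℝ) ∧
          a ≤ ((A j ∩ (R ∪ S)).card : ℝ) := by
        refine ⟨j, hj, hjw, ?_⟩
        have h6 : S ∩ (A j ∩ G) ⊆ A j ∩ (R ∪ S) := by
          intro x hx
          rw [Finset.mem_inter, Finset.mem_inter] at hx
          exact Finset.mem_inter.2 ⟨hx.2.1, Finset.mem_union_right _ hx.1⟩
        have h7 : ((S ∩ (A j ∩ G)).card : ℝ) ≤ ((A j ∩ (R ∪ S)).card : ℝ) := by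
          exact_mod_cast Finset.card_le_card h6
        have h8 := mul_le_mul_of_nonneg_left hjw hq0
        rw [not_lt] at hlt
        linarith
      unfold enG
      rw [if_pos h5]
      norm_num
  rw [Ex_sub, Ex_const] at h4
  linarith

private theorem en_four (h2 : TraceStmt) {V ι : Type} [DecidableEq V] (m : ℕ)
    (A : ι → Finset V) (hm : 1 ≤ m) (hA : TwoCol m A) (G Q : Finset V) (hQ : Q ⊆ G) (w a : ℝ) :
    Ex (1 / 2) Q (fun R => enG A G w a R Q) ≤
      ((Q.powerset.filter (fun P => P.card ≤ 2 * m - 2)).card : ℝ) * Real.exp (-(a / 2)) := by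
  classical
  obtain ⟨Ps, hP1, hP2, hP3⟩ := h2 m V ι A hm hA Q
  have h1 : Ex (1 / 2) Q (fun R => enG A G w a R Q) ≤
      Ex (1 / 2) Q (fun R => ∑ P ∈ Ps.filter (fun P => a ≤ (P.card : ℝ)),
        if (P ∩ R).Nonempty then (0 : ℝ) else 1) := by
    refine Ex_mono (by norm_num) (by norm_num) _ _ _ fun R _ => ?_
    have hnn : ∀ P ∈ Ps.filter (fun P => a ≤ (P.card : ℝ)),
        (0 : ℝ) ≤ if (P ∩ R).Nonempty then (0 : ℝ) else 1 := by
      intro P _
      split_ifs <;> norm_num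
    unfold enG
    split_ifs with hE
    · obtain ⟨j, hj, -, hja⟩ := hE
      have hmem : A j ∩ Q ∈ Ps.filter (fun P => a ≤ (P.card : ℝ)) :=
        Finset.mem_filter.2 ⟨hP1 j, hja⟩
      have hne : ¬ (A j ∩ Q ∩ R).Nonempty := by
        rintro ⟨x, hx⟩
        rw [Finset.mem_inter, Finset.mem_inter] at hx
        have : x ∈ A j ∩ G ∩ R :=
          Finset.mem_inter.2 ⟨Finset.mem_inter.2 ⟨hx.1.1, hQ hx.1.2⟩, hx.2⟩
        rw [hj] at this
        exact Finset.notMem_empty x this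
      have h5 := Finset.single_le_sum hnn hmem
      rw [if_neg hne] at h5
      exact h5
    · exact Finset.sum_nonneg hnn
  refine h1.trans ?_
  rw [Ex_sum]
  have h6 : ∀ P ∈ Ps.filter (fun P => a ≤ (P.card : ℝ)),
      Ex (1 / 2) Q (fun R => if (P ∩ R).Nonempty then (0 : ℝ) else 1) ≤
        Real.exp (-(a / 2)) := by
    intro P hP
    obtain ⟨hP', hPa⟩ := Finset.mem_filter.1 hP
    rw [Ex_avoid, Finset.inter_eq_left.2 (hP2 P hP')]
    have h7 : (1 - 1 / 2 : ℝ) = 1 / 2 := by norm_num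
    rw [h7]
    refine (en_pow _).trans (Real.exp_le_exp.2 ?_)
    linarith
  refine (Finset.sum_le_card_nsmul _ _ _ h6).trans ?_
  rw [nsmul_eq_mul]
  refine mul_le_mul_of_nonneg_right ?_ (Real.exp_pos _).le
  have h8 : (Ps.filter (fun P => a ≤ (P.card : ℝ))).card ≤
      (Q.powerset.filter (fun P => P.card ≤ 2 * m - 2)).card :=
    (Finset.card_filter_le _ _).trans hP3
  exact_mod_cast h8

private theorem en_five {V : Type} [DecidableEq V] (G : Finset V) (d : ℕ) (x b : ℝ) (hx : 0 ≤ x)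
    (hb : x * (G.card : ℝ) ≤ b) (hb1 : 1 ≤ b) :
    Ex x G (fun Q => ((Q.powerset.filter (fun P => P.card ≤ d)).card : ℝ)) ≤
      ((d : ℝ) + 1) * b ^ d := by
  have h1 : Ex x G (fun Q => ((Q.powerset.filter (fun P => P.card ≤ d)).card : ℝ)) =
      Ex x G (fun Q => ∑ P ∈ G.powerset.filter (fun P => P.card ≤ d),
        if P ⊆ Q then (1 : ℝ) else 0) := by
    refine Ex_congr _ _ _ _ fun Q hQ => ?_
    rw [← Finset.sum_filter, Finset.sum_const, nsmul_eq_mul, mul_one]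
    congr 2
    ext P
    simp only [Finset.mem_filter, Finset.mem_powerset]
    constructor
    · rintro ⟨h2, h3⟩
      exact ⟨⟨h2.trans hQ, h3⟩, h2⟩
    · rintro ⟨⟨_, h3⟩, h4⟩
      exact ⟨h4, h3⟩
  rw [h1, Ex_sum]
  have h2 : ∀ P ∈ G.powerset.filter (fun P => P.card ≤ d),
      Ex x G (fun Q => if P ⊆ Q then (1 : ℝ) else 0) = x ^ P.card := by
    intro P hP
    exact Ex_contains x G P (Finset.mem_powerset.1 (Finset.mem_filter.1 hP).1)
  rw [Finset.sum_congr rfl h2, Finset.sum_filter,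
    Finset.sum_powerset_apply_card (fun i => if i ≤ d then x ^ i else 0)]
  have h3 : ∀ i ∈ Finset.range (G.card + 1),
      G.card.choose i • (if i ≤ d then x ^ i else 0) ≤ if i ≤ d then b ^ d else 0 := by
    intro i _
    split_ifs with hi
    · rw [nsmul_eq_mul]
      have h4 : (G.card.choose i : ℝ) ≤ (G.card : ℝ) ^ i := by
        exact_mod_cast Nat.choose_le_pow G.card i
      calc (G.card.choose i : ℝ) * x ^ i ≤ (G.card : ℝ) ^ i * x ^ i :=
            mul_le_mul_of_nonneg_right h4 (pow_nonneg hx i)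
        _ = (x * (G.card : ℝ)) ^ i := by rw [mul_pow]; ring
        _ ≤ b ^ i := pow_le_pow_left₀ (by positivity) hb i
        _ ≤ b ^ d := pow_le_pow_right₀ hb1 hi
    · rw [smul_zero]
  refine (Finset.sum_le_sum h3).trans ?_
  rw [← Finset.sum_filter, Finset.sum_const, nsmul_eq_mul]
  refine mul_le_mul_of_nonneg_right ?_ (by positivity)
  have h5 : (Finset.range (G.card + 1)).filter (fun i => i ≤ d) ⊆ Finset.range (d + 1) := by
    intro i hi
    rw [Finset.mem_range]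
    exact Nat.lt_succ_of_le (Finset.mem_filter.1 hi).2
  have h6 := Finset.card_le_card h5
  rw [Finset.card_range] at h6
  exact_mod_cast h6

private theorem en_choose (d : ℕ) (ε' δ : ℝ) (hε : 0 < ε') (hδ : 0 < δ) :
    ∃ k : ℝ, 1 ≤ k ∧ Real.exp (-(k * ε') / 8) ≤ 1 / 2 ∧
      2 * (((d : ℝ) + 1) * (4 * k) ^ d * Real.exp (-(k * ε' / 4))) ≤ δ := by
  have h1 := Real.tendsto_pow_mul_exp_neg_atTop_nhds_zero d
  have hc : 0 < δ / (2 * ((d : ℝ) + 1) * (16 / ε') ^ d) := by positivity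
  have h2 := (h1.eventually (gt_mem_nhds hc)).and
    ((Filter.eventually_ge_atTop (ε' / 4)).and (Filter.eventually_ge_atTop 2))
  obtain ⟨x, hx1, hx2, hx3⟩ := h2.exists
  refine ⟨4 * x / ε', ?_, ?_, ?_⟩
  · rw [le_div_iff₀ hε]
    linarith
  · have h3 : -(4 * x / ε' * ε') / 8 = -(x / 2) := by
      field_simp
      ring
    rw [h3]
    refine (Real.exp_le_exp.2 (show -(x / 2) ≤ -1 by linarith)).trans ?_
    rw [Real.exp_neg]
    have h4 : (2 : ℝ) ≤ Real.exp 1 := by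
      have := Real.exp_one_gt_d9
      linarith
    rw [one_div]
    exact inv_anti₀ (by norm_num) h4
  · have h5 : 4 * x / ε' * ε' / 4 = x := by
      field_simp
    have h6 : 4 * (4 * x / ε') = 16 / ε' * x := by ring
    rw [h5, h6, mul_pow]
    have hp : 0 < 2 * ((d : ℝ) + 1) * (16 / ε') ^ d := by positivity
    rw [lt_div_iff₀ hp] at hx1
    have h7 : 2 * (((d : ℝ) + 1) * ((16 / ε') ^ d * x ^ d) * Real.exp (-x)) =
        x ^ d * Real.exp (-x) * (2 * ((d : ℝ) + 1) * (16 / ε') ^ d) := by ring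
    rw [h7]
    exact hx1.le

theorem en (h1 : HalfStmt) (h2 : TraceStmt) (h3 : TailStmt) : ENStmt := by
  classical
  intro m ε' δ hm hε hδ
  obtain ⟨k, hk1, hk2, hk3⟩ := en_choose (2 * m - 2) ε' δ hε hδ
  refine ⟨k, hk1, ?_⟩
  intro V ι _ _ A G s hA hs hG
  have hspos : 0 < s := by linarith
  have hp0 : 0 ≤ k / s := by positivity
  have hp2 : k / s ≤ 1 / 2 := by
    rw [div_le_iff₀ hspos]
    linarith
  have hps : k / s * s = k := by field_simp
  obtain ⟨p, hp⟩ : ∃ p : ℝ, p = k / s := ⟨_, rfl⟩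
  rw [← hp] at hp0 hp2 hps
  have hq : p ≤ p / (1 - p) := by
    rw [le_div_iff₀ (by linarith)]
    nlinarith
  have hq1 : p / (1 - p) ≤ 1 := by
    rw [div_le_one (by linarith)]
    linarith
  have hq0 : 0 ≤ p / (1 - p) := hp0.trans hq
  have hqw : k * ε' ≤ p / (1 - p) * (ε' * s) := by
    have h4 : p * (ε' * s) ≤ p / (1 - p) * (ε' * s) :=
      mul_le_mul_of_nonneg_right hq (by positivity)
    have h5 : p * (ε' * s) = k * ε' := by
      rw [← hps]
      ring
    linarith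
  -- step (i)
  have s1 : Ex (k / s) univ (fun R => if ∃ j, A j ∩ R = ∅ ∧ ε' * s ≤ ((A j ∩ G).card : ℝ)
      then (1 : ℝ) else 0) ≤
      Ex p G (fun R => if ∃ j, A j ∩ G ∩ R = ∅ ∧ ε' * s ≤ ((A j ∩ G).card : ℝ)
        then (1 : ℝ) else 0) := by
    rw [← hp]
    have hu : (univ : Finset V) = (univ \ G) ∪ G := by
      rw [Finset.sdiff_union_self_eq_union]
      simp
    rw [hu, lin_Ex_union p G (univ \ G) Finset.sdiff_disjoint]
    refine (Ex_mono hp0 (by linarith) (univ \ G) _ (fun _ => Ex p G (fun R =>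
      if ∃ j, A j ∩ G ∩ R = ∅ ∧ ε' * s ≤ ((A j ∩ G).card : ℝ) then (1 : ℝ) else 0))
      fun T₁ _ => ?_).trans (le_of_eq (Ex_const _ _ _))
    refine Ex_mono hp0 (by linarith) G _ _ fun T₂ _ => ?_
    by_cases hE : ∃ j, A j ∩ (T₁ ∪ T₂) = ∅ ∧ ε' * s ≤ ((A j ∩ G).card : ℝ)
    · have hE' : ∃ j, A j ∩ G ∩ T₂ = ∅ ∧ ε' * s ≤ ((A j ∩ G).card : ℝ) := by
        obtain ⟨j, hj, hjw⟩ := hE
        refine ⟨j, ?_, hjw⟩
        rw [Finset.eq_empty_iff_forall_notMem] at hj ⊢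
        intro x hx
        rw [Finset.mem_inter, Finset.mem_inter] at hx
        exact hj x (Finset.mem_inter.2 ⟨hx.1.1, Finset.mem_union_right _ hx.2⟩)
      rw [if_pos hE, if_pos hE']
    · rw [if_neg hE]
      split_ifs <;> norm_num
  -- step (ii)
  have s2 : Ex p G (fun R => if ∃ j, A j ∩ G ∩ R = ∅ ∧ ε' * s ≤ ((A j ∩ G).card : ℝ)
        then (1 : ℝ) else 0) ≤
      Ex p G (fun R => 2 * Ex (p / (1 - p)) (G \ R)
        (fun S => enG A G (ε' * s) (k * ε' / 2) R (R ∪ S))) := by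
    refine Ex_mono hp0 (by linarith) G _ _ fun R _ => ?_
    split_ifs with hE
    · refine en_two h3 A G R (ε' * s) (k * ε' / 2) (p / (1 - p)) hq0 hq1 (by linarith) ?_ hE
      refine (Real.exp_le_exp.2 ?_).trans hk2
      linarith
    · have := Ex_nonneg hq0 hq1 (G \ R)
        (fun S => enG A G (ε' * s) (k * ε' / 2) R (R ∪ S)) fun S _ => en_nonneg _ _ _ _ _ _
      linarith
  -- step (iii)
  rw [Ex_mul_left, ← h1 V G p (fun R Q => enG A G (ε' * s) (k * ε' / 2) R Q) hp0 hp2] at s2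
  -- steps (iv), (v)
  have s3 : Ex (2 * p) G (fun Q => Ex (1 / 2) Q
      (fun R => enG A G (ε' * s) (k * ε' / 2) R Q)) ≤
      Ex (2 * p) G (fun Q => ((Q.powerset.filter (fun P => P.card ≤ 2 * m - 2)).card : ℝ) *
        Real.exp (-(k * ε' / 2 / 2))) := by
    refine Ex_mono (by linarith) (by linarith) G _ _ fun Q hQ => ?_
    exact en_four h2 m A hm hA G Q hQ _ _
  rw [Ex_mul_right] at s3
  have s4 := en_five G (2 * m - 2) (2 * p) (4 * k) (by linarith)
    (by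
      have h4 := mul_le_mul_of_nonneg_left hG (show (0 : ℝ) ≤ 2 * p by linarith)
      have h5 : 2 * p * (2 * s) = 4 * k := by
        rw [← hps]
        ring
      linarith) (by linarith)
  have s5 := mul_le_mul_of_nonneg_right s4 (Real.exp_pos (-(k * ε' / 2 / 2))).le
  have h6 : k * ε' / 2 / 2 = k * ε' / 4 := by ring
  rw [h6] at s3 s5
  linarith

end Pool.Agent.Lib.MP_9b5ec2_co
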