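import Mathlib
import Pool.Agent.Lib.MP_9b5ec2_co.Defs4

/-!
# Random sets are nets, weighted version (MP_9b5ec2_co)
-/

set_option autoImplicit false

namespace Pool.Agent.Lib.MP_9b5ec2_co

open Finset

open Classical in
/-- The indicator of the double sampling event. -/
private noncomputable def en2G {V ι : Type} [DecidableEq V] (A : ι → Finset V) (G : Finset V)
    (w : V → ℝ) (e a : ℝ) (R Q : Finset V) : ℝ :=
  if ∃ j, A j ∩ G ∩ R = ∅ ∧ e ≤ ∑ v ∈ A j ∩ G, w v ∧ a ≤ ((A j ∩ Q).card : ℝ) then 1 else 0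

private theorem en2_nonneg {V ι : Type} [DecidableEq V] (A : ι → Finset V) (G : Finset V)
    (w : V → ℝ) (e a : ℝ) (R Q : Finset V) : 0 ≤ en2G A G w e a R Q := by
  unfold en2G
  split_ifs <;> norm_num

private theorem en2_half_pow (n : ℕ) : (1 / 2 : ℝ) ^ n ≤ Real.exp (-((n : ℝ) / 2)) := by
  have h1 : (1 / 2 : ℝ) ≤ Real.exp (-(1 / 2)) := by
    have := Real.add_one_le_exp (-(1 / 2) : ℝ)
    linarith
  calc (1 / 2 : ℝ) ^ n ≤ (Real.exp (-(1 / 2))) ^ n := pow_le_pow_left₀ (by norm_num) h1 n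
    _ = Real.exp (-((n : ℝ) / 2)) := by
      rw [← Real.exp_nat_mul]
      congr 1
      ring

/-- The lower tail. -/
private theorem en2_tail {V : Type} [DecidableEq V] (X T : Finset V) (p : V → ℝ)
    (h0 : ∀ v ∈ X, 0 ≤ p v) (h1 : ∀ v ∈ X, p v ≤ 1) (hT : T ⊆ X) :
    PEx p X (fun S => if 2 * ((S ∩ T).card : ℝ) < ∑ v ∈ T, p v then (1 : ℝ) else 0) ≤
      Real.exp (-(∑ v ∈ T, p v) / 8) := by
  classical
  obtain ⟨μ, hμ⟩ : ∃ μ : ℝ, μ = ∑ v ∈ T, p v := ⟨_, rfl⟩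
  have hμ0 : 0 ≤ μ := by
    rw [hμ]
    exact Finset.sum_nonneg fun v hv => h0 v (hT hv)
  rw [← hμ]
  have hlog : Real.log 2 ≤ 7 / 10 := by
    have := Real.log_two_lt_d9
    linarith
  have hlog0 : 0 < Real.log 2 := Real.log_pos (by norm_num)
  have h2 : PEx p X (fun S => if 2 * ((S ∩ T).card : ℝ) < μ then (1 : ℝ) else 0) ≤
      PEx p X (fun S => Real.exp (Real.log 2 * (μ / 2)) * (1 / 2 : ℝ) ^ (S ∩ T).card) := by
    refine PEx_mono h0 h1 _ _ fun S _ => ?_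
    split_ifs with h
    · have h3 : (1 / 2 : ℝ) ^ (S ∩ T).card = Real.exp (-(Real.log 2 * ((S ∩ T).card : ℝ))) := by
        rw [← Real.exp_log (show (0 : ℝ) < (1 / 2 : ℝ) ^ (S ∩ T).card by positivity),
          Real.log_pow, one_div, Real.log_inv]
        congr 1
        ring
      rw [h3, ← Real.exp_add]
      refine Real.one_le_exp ?_
      have h4 := mul_le_mul_of_nonneg_left h.le hlog0.le
      linarith
    · positivity
  refine h2.trans ?_
  rw [PEx_mul_left, PEx_pow p X T hT]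
  have h5 : ∏ v ∈ T, (1 + p v * (1 / 2 - 1)) ≤ Real.exp (-(μ / 2)) := by
    have h6 : -(μ / 2) = ∑ v ∈ T, (p v * (1 / 2 - 1)) := by
      rw [← Finset.sum_mul, ← hμ]
      ring
    rw [h6, Real.exp_sum]
    refine Finset.prod_le_prod (fun v hv => ?_) (fun v _ => ?_)
    · have := h1 v (hT hv)
      linarith
    · have := Real.add_one_le_exp (p v * (1 / 2 - 1))
      linarith
  calc Real.exp (Real.log 2 * (μ / 2)) * ∏ v ∈ T, (1 + p v * (1 / 2 - 1))
      ≤ Real.exp (Real.log 2 * (μ / 2)) * Real.exp (-(μ / 2)) :=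
        mul_le_mul_of_nonneg_left h5 (Real.exp_pos _).le
    _ = Real.exp (Real.log 2 * (μ / 2) + -(μ / 2)) := (Real.exp_add _ _).symm
    _ ≤ Real.exp (-μ / 8) := by
      refine Real.exp_le_exp.2 ?_
      have h7 := mul_le_mul_of_nonneg_right hlog (show (0 : ℝ) ≤ μ / 2 by linarith)
      linarith

private theorem en2_two {V ι : Type} [DecidableEq V] (A : ι → Finset V)
    (G R : Finset V) (w q : V → ℝ) (e a k : ℝ) (hq0 : ∀ v, 0 ≤ q v) (hq1 : ∀ v, q v ≤ 1)
    (hk : 0 ≤ k) (hwq : ∀ v, k * w v ≤ q v) (ha : 2 * a ≤ k * e)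
    (he : Real.exp (-(k * e) / 8) ≤ 1 / 2)
    (hE : ∃ j, A j ∩ G ∩ R = ∅ ∧ e ≤ ∑ v ∈ A j ∩ G, w v) :
    1 ≤ 2 * PEx q (G \ R) (fun S => en2G A G w e a R (R ∪ S)) := by
  classical
  obtain ⟨j, hj, hjw⟩ := hE
  have hT : A j ∩ G ⊆ G \ R := by
    intro x hx
    rw [Finset.mem_sdiff]
    refine ⟨(Finset.mem_inter.1 hx).2, fun hxR => ?_⟩
    have : x ∈ A j ∩ G ∩ R := Finset.mem_inter.2 ⟨hx, hxR⟩
    rw [hj] at this
    exact Finset.notMem_empty x this
  have hμ : k * e ≤ ∑ v ∈ A j ∩ G, q v := by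
    calc k * e ≤ k * ∑ v ∈ A j ∩ G, w v := mul_le_mul_of_nonneg_left hjw hk
      _ = ∑ v ∈ A j ∩ G, k * w v := Finset.mul_sum _ _ _
      _ ≤ ∑ v ∈ A j ∩ G, q v := Finset.sum_le_sum fun v _ => hwq v
  have h1 := en2_tail (G \ R) (A j ∩ G) q (fun v _ => hq0 v) (fun v _ => hq1 v) hT
  have h2 : Real.exp (-(∑ v ∈ A j ∩ G, q v) / 8) ≤ 1 / 2 := by
    refine (Real.exp_le_exp.2 ?_).trans he
    linarith
  have h4 : PEx q (G \ R) (fun S => 1 - (if 2 * ((S ∩ (A j ∩ G)).card : ℝ) <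
      ∑ v ∈ A j ∩ G, q v then (1 : ℝ) else 0)) ≤
      PEx q (G \ R) (fun S => en2G A G w e a R (R ∪ S)) := by
    refine PEx_mono (fun v _ => hq0 v) (fun v _ => hq1 v) _ _ fun S _ => ?_
    split_ifs with hlt
    · rw [sub_self]
      exact en2_nonneg _ _ _ _ _ _ _
    · have h5 : ∃ j, A j ∩ G ∩ R = ∅ ∧ e ≤ ∑ v ∈ A j ∩ G, w v ∧
          a ≤ ((A j ∩ (R ∪ S)).card : ℝ) := by
        refine ⟨j, hj, hjw, ?_⟩
        have h6 : S ∩ (A j ∩ G) ⊆ A j ∩ (R ∪ S) := by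
          intro x hx
          rw [Finset.mem_inter, Finset.mem_inter] at hx
          exact Finset.mem_inter.2 ⟨hx.2.1, Finset.mem_union_right _ hx.1⟩
        have h7 : ((S ∩ (A j ∩ G)).card : ℝ) ≤ ((A j ∩ (R ∪ S)).card : ℝ) := by
          exact_mod_cast Finset.card_le_card h6
        rw [not_lt] at hlt
        linarith
      unfold en2G
      rw [if_pos h5]
      norm_num
  rw [PEx_sub, PEx_const] at h4
  linarith

private theorem en2_four (h2 : TraceStmt) {V ι : Type} [DecidableEq V] (m : ℕ)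
    (A : ι → Finset V) (hm : 1 ≤ m) (hA : TwoCol m A) (G Q : Finset V) (hQ : Q ⊆ G)
    (w : V → ℝ) (e a : ℝ) :
    PEx (fun _ => 1 / 2) Q (fun R => en2G A G w e a R Q) ≤
      ((Q.powerset.filter (fun P => P.card ≤ 2 * m - 2)).card : ℝ) * Real.exp (-(a / 2)) := by
  classical
  obtain ⟨Ps, hP1, hP2, hP3⟩ := h2 m V ι A hm hA Q
  have h1 : PEx (fun _ => 1 / 2) Q (fun R => en2G A G w e a R Q) ≤
      PEx (fun _ => 1 / 2) Q (fun R => ∑ P ∈ Ps.filter (fun P => a ≤ (P.card : ℝ)),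
        if (P ∩ R).Nonempty then (0 : ℝ) else 1) := by
    refine PEx_mono (fun v _ => by norm_num) (fun v _ => by norm_num) _ _ fun R _ => ?_
    have hnn : ∀ P ∈ Ps.filter (fun P => a ≤ (P.card : ℝ)),
        (0 : ℝ) ≤ if (P ∩ R).Nonempty then (0 : ℝ) else 1 := by
      intro P _
      split_ifs <;> norm_num
    unfold en2G
    split_ifs with hE
    · obtain ⟨j, hj, -, hja⟩ := hE
      have hmem : A j ∩ Q ∈ Ps.filter (fun P => a ≤ (P.card : ℝ)) :=
        Finset.mem_filter.2 ⟨hP1 j, hja⟩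
      have hne : ¬ (A j ∩ Q ∩ R).Nonempty := by
        rintro ⟨x, hx⟩
        rw [Finset.mem_inter, Finset.mem_inter] at hx
        have : x ∈ A j ∩ G ∩ R :=
          Finset.mem_inter.2 ⟨Finset.mem_inter.2 ⟨hx.1.1, hQ hx.1.2⟩, hx.2⟩
        rw [hj] at this
        exact Finset.notMem_empty x this
      have h5 := Finset.single_le_sum hnn hmem
      rw [if_neg hne] at h5
      exact h5
    · exact Finset.sum_nonneg hnn
  refine h1.trans ?_
  rw [PEx_sum]
  have h6 : ∀ P ∈ Ps.filter (fun P => a ≤ (P.card : ℝ)),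
      PEx (fun _ => 1 / 2) Q (fun R => if (P ∩ R).Nonempty then (0 : ℝ) else 1) ≤
        Real.exp (-(a / 2)) := by
    intro P hP
    obtain ⟨hP', hPa⟩ := Finset.mem_filter.1 hP
    rw [PEx_avoid _ Q P (hP2 P hP'), Finset.prod_const]
    have h7 : (1 - 1 / 2 : ℝ) = 1 / 2 := by norm_num
    rw [h7]
    refine (en2_half_pow _).trans (Real.exp_le_exp.2 ?_)
    linarith
  refine (Finset.sum_le_card_nsmul _ _ _ h6).trans ?_
  rw [nsmul_eq_mul]
  refine mul_le_mul_of_nonneg_right ?_ (Real.exp_pos _).le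
  have h8 : (Ps.filter (fun P => a ≤ (P.card : ℝ))).card ≤
      (Q.powerset.filter (fun P => P.card ≤ 2 * m - 2)).card :=
    (Finset.card_filter_le _ _).trans hP3
  exact_mod_cast h8

private theorem en2_five {V : Type} [DecidableEq V] (G : Finset V) (d : ℕ) (x : V → ℝ) (b : ℝ)
    (hx : ∀ v, 0 ≤ x v) (hb : ∑ v ∈ G, x v ≤ b) (hb1 : 1 ≤ b) :
    PEx x G (fun Q => ((Q.powerset.filter (fun P => P.card ≤ d)).card : ℝ)) ≤
      b ^ d * Real.exp 1 := by
  have h1 : PEx x G (fun Q => ((Q.powerset.filter (fun P => P.card ≤ d)).card : ℝ)) =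
      PEx x G (fun Q => ∑ P ∈ G.powerset.filter (fun P => P.card ≤ d),
        if P ⊆ Q then (1 : ℝ) else 0) := by
    refine PEx_congr _ _ _ _ fun Q hQ => ?_
    rw [← Finset.sum_filter, Finset.sum_const, nsmul_eq_mul, mul_one]
    congr 2
    ext P
    simp only [Finset.mem_filter, Finset.mem_powerset]
    constructor
    · rintro ⟨h2, h3⟩
      exact ⟨⟨h2.trans hQ, h3⟩, h2⟩
    · rintro ⟨⟨_, h3⟩, h4⟩
      exact ⟨h4, h3⟩
  have hb0 : 0 < b := by linarith
  rw [h1, PEx_sum]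
  have h2 : ∀ P ∈ G.powerset.filter (fun P => P.card ≤ d),
      PEx x G (fun Q => if P ⊆ Q then (1 : ℝ) else 0) ≤ b ^ d * ∏ v ∈ P, (x v / b) := by
    intro P hP
    obtain ⟨hP1, hP2⟩ := Finset.mem_filter.1 hP
    rw [PEx_contains x G P (Finset.mem_powerset.1 hP1)]
    have h3 : ∏ v ∈ P, x v = b ^ P.card * ∏ v ∈ P, (x v / b) := by
      rw [← Finset.prod_const, ← Finset.prod_mul_distrib]
      exact Finset.prod_congr rfl fun v _ => by field_simp
    rw [h3]
    refine mul_le_mul_of_nonneg_right (pow_le_pow_right₀ hb1 hP2) ?_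
    exact Finset.prod_nonneg fun v _ => div_nonneg (hx v) hb0.le
  refine (Finset.sum_le_sum h2).trans ?_
  rw [← Finset.mul_sum]
  refine mul_le_mul_of_nonneg_left ?_ (by positivity)
  calc ∑ P ∈ G.powerset.filter (fun P => P.card ≤ d), ∏ v ∈ P, (x v / b)
      ≤ ∑ P ∈ G.powerset, ∏ v ∈ P, (x v / b) :=
        Finset.sum_le_sum_of_subset_of_nonneg (Finset.filter_subset _ _)
          fun P _ _ => Finset.prod_nonneg fun v _ => div_nonneg (hx v) hb0.le
    _ = ∏ v ∈ G, (1 + x v / b) := (Finset.prod_one_add _).symm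
    _ ≤ ∏ v ∈ G, Real.exp (x v / b) := by
        refine Finset.prod_le_prod (fun v _ => ?_) (fun v _ => ?_)
        · have := div_nonneg (hx v) hb0.le
          linarith
        · have := Real.add_one_le_exp (x v / b)
          linarith
    _ = Real.exp (∑ v ∈ G, x v / b) := (Real.exp_sum _ _).symm
    _ ≤ Real.exp 1 := by
        refine Real.exp_le_exp.2 ?_
        rw [← Finset.sum_div, div_le_one hb0]
        exact hb

private theorem en2_choose (d : ℕ) (ε' : ℝ) (hε : 0 < ε') :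
    ∃ k₀ : ℝ, 1 ≤ k₀ ∧ ∀ k, k₀ ≤ k → Real.exp (-(k * ε') / 8) ≤ 1 / 2 ∧
      2 * ((4 * k) ^ d * Real.exp 1 * Real.exp (-(k * ε' / 8))) ≤ 1 := by
  have h1 := Real.tendsto_pow_mul_exp_neg_atTop_nhds_zero d
  have hc : 0 < 1 / (2 * (32 / ε') ^ d * Real.exp 1) := by positivity
  have h2 := (h1.eventually (gt_mem_nhds hc)).and (Filter.eventually_ge_atTop 1)
  obtain ⟨x₀, hx₀⟩ := Filter.eventually_atTop.1 h2
  refine ⟨max 1 (8 * x₀ / ε'), le_max_left _ _, ?_⟩
  intro k hk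
  have hk1 : 1 ≤ k := (le_max_left _ _).trans hk
  have hk2 : 8 * x₀ / ε' ≤ k := (le_max_right _ _).trans hk
  have hx : x₀ ≤ k * ε' / 8 := by
    rw [div_le_iff₀ hε] at hk2
    linarith
  obtain ⟨h3, h4⟩ := hx₀ _ hx
  constructor
  · have h5 : -(k * ε') / 8 ≤ -1 := by linarith
    refine (Real.exp_le_exp.2 h5).trans ?_
    rw [Real.exp_neg]
    have h6 : (2 : ℝ) ≤ Real.exp 1 := by
      have := Real.exp_one_gt_d9
      linarith
    rw [one_div]
    exact inv_anti₀ (by norm_num) h6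
  · have hp : 0 < 2 * (32 / ε') ^ d * Real.exp 1 := by positivity
    rw [lt_div_iff₀ hp] at h3
    have h5 : 4 * k = 32 / ε' * (k * ε' / 8) := by
      field_simp
      ring
    have h6 : 2 * ((4 * k) ^ d * Real.exp 1 * Real.exp (-(k * ε' / 8))) =
        (k * ε' / 8) ^ d * Real.exp (-(k * ε' / 8)) * (2 * (32 / ε') ^ d * Real.exp 1) := by
      rw [h5, mul_pow]
      have h7 : 32 / ε' * (k * ε' / 8) = 4 * k := h5.symm
      ring
    rw [h6]
    exact h3.le

theorem en2 (h1 : Half2Stmt) (h2 : TraceStmt) : EN2Stmt := by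
  classical
  intro m ε' hm hε
  obtain ⟨k₀, hk₀, hk⟩ := en2_choose (2 * m - 2) ε' hε
  refine ⟨ε' / 8, k₀, by positivity, hk₀, ?_⟩
  intro k hkk V ι _ _ A G w p hA hw hw2 hp hG
  obtain ⟨hk2, hk3⟩ := hk k hkk
  have hk1 : 1 ≤ k := hk₀.trans hkk
  have hk0 : 0 ≤ k := by linarith
  have hq0 : ∀ v, 0 ≤ k * w v := fun v => mul_nonneg hk0 (hw v)
  have hden : ∀ v, 0 < 1 - k * w v := fun v => by
    have := hw2 v
    linarith
  have hq : ∀ v, k * w v ≤ k * w v / (1 - k * w v) := fun v => by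
    rw [le_div_iff₀ (hden v)]
    have h3 := mul_nonneg (hq0 v) (hq0 v)
    have h4 : k * w v * (1 - k * w v) = k * w v - k * w v * (k * w v) := by ring
    linarith
  have hq1 : ∀ v, k * w v / (1 - k * w v) ≤ 1 := fun v => by
    rw [div_le_one (hden v)]
    have := hw2 v
    linarith
  have hq00 : ∀ v, 0 ≤ k * w v / (1 - k * w v) := fun v => (hq0 v).trans (hq v)
  -- step (0): smaller densities
  have s0 : PEx p univ (fun R => if ∃ j, A j ∩ R = ∅ ∧ ε' ≤ ∑ v ∈ A j ∩ G, w v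
      then (1 : ℝ) else 0) ≤
      PEx (fun v => k * w v) univ (fun R => if ∃ j, A j ∩ R = ∅ ∧ ε' ≤ ∑ v ∈ A j ∩ G, w v
      then (1 : ℝ) else 0) := by
    refine PEx_anti (fun v _ => hq0 v) (fun v _ => (hp v).1) (fun v _ => (hp v).2) _ ?_
    intro S T hST
    by_cases hE : ∃ j, A j ∩ T = ∅ ∧ ε' ≤ ∑ v ∈ A j ∩ G, w v
    · have hE' : ∃ j, A j ∩ S = ∅ ∧ ε' ≤ ∑ v ∈ A j ∩ G, w v := by
        obtain ⟨j, hj, hjw⟩ := hE
        refine ⟨j, ?_, hjw⟩
        rw [Finset.eq_empty_iff_forall_notMem] at hj ⊢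
        intro x hx
        rw [Finset.mem_inter] at hx
        exact hj x (Finset.mem_inter.2 ⟨hx.1, hST hx.2⟩)
      simp only [if_pos hE, if_pos hE', le_refl]
    · simp only [if_neg hE]
      split_ifs <;> norm_num
  -- step (i)
  have s1 : PEx (fun v => k * w v) univ (fun R => if ∃ j, A j ∩ R = ∅ ∧
      ε' ≤ ∑ v ∈ A j ∩ G, w v then (1 : ℝ) else 0) ≤
      PEx (fun v => k * w v) G (fun R => if ∃ j, A j ∩ G ∩ R = ∅ ∧ ε' ≤ ∑ v ∈ A j ∩ G, w v
        then (1 : ℝ) else 0) := by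
    rw [← PEx_inter (fun v => k * w v) univ G (Finset.subset_univ G)
      (fun R => if ∃ j, A j ∩ G ∩ R = ∅ ∧ ε' ≤ ∑ v ∈ A j ∩ G, w v then (1 : ℝ) else 0)]
    refine PEx_mono (fun v _ => hq0 v) (fun v _ => by have := hw2 v; linarith) _ _
      fun R _ => ?_
    by_cases hE : ∃ j, A j ∩ R = ∅ ∧ ε' ≤ ∑ v ∈ A j ∩ G, w v
    · have hE' : ∃ j, A j ∩ G ∩ (R ∩ G) = ∅ ∧ ε' ≤ ∑ v ∈ A j ∩ G, w v := by
        obtain ⟨j, hj, hjw⟩ := hE
        refine ⟨j, ?_, hjw⟩
        rw [Finset.eq_empty_iff_forall_notMem] at hj ⊢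
        intro x hx
        rw [Finset.mem_inter, Finset.mem_inter, Finset.mem_inter] at hx
        exact hj x (Finset.mem_inter.2 ⟨hx.1.1, hx.2.1⟩)
      rw [if_pos hE, if_pos hE']
    · rw [if_neg hE]
      split_ifs <;> norm_num
  -- step (ii)
  have s2 : PEx (fun v => k * w v) G (fun R => if ∃ j, A j ∩ G ∩ R = ∅ ∧
        ε' ≤ ∑ v ∈ A j ∩ G, w v then (1 : ℝ) else 0) ≤
      PEx (fun v => k * w v) G (fun R => 2 * PEx (fun v => k * w v / (1 - k * w v)) (G \ R)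
        (fun S => en2G A G w ε' (k * ε' / 2) R (R ∪ S))) := by
    refine PEx_mono (fun v _ => hq0 v) (fun v _ => by have := hw2 v; linarith) _ _
      fun R _ => ?_
    split_ifs with hE
    · exact en2_two A G R w (fun v => k * w v / (1 - k * w v)) ε' (k * ε' / 2) k hq00 hq1 hk0
        hq (by linarith) hk2 hE
    · have := PEx_nonneg (X := G \ R) (fun v _ => hq00 v) (fun v _ => hq1 v)
        (fun S => en2G A G w ε' (k * ε' / 2) R (R ∪ S)) fun S _ => en2_nonneg _ _ _ _ _ _ _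
      linarith
  -- step (iii)
  rw [PEx_mul_left, ← h1 V G (fun v => k * w v) (fun R Q => en2G A G w ε' (k * ε' / 2) R Q)
    (fun v _ => hq0 v) (fun v _ => hw2 v)] at s2
  -- steps (iv), (v)
  have s3 : PEx (fun v => 2 * (k * w v)) G (fun Q => PEx (fun _ => 1 / 2) Q
      (fun R => en2G A G w ε' (k * ε' / 2) R Q)) ≤
      PEx (fun v => 2 * (k * w v)) G
        (fun Q => ((Q.powerset.filter (fun P => P.card ≤ 2 * m - 2)).card : ℝ) *
        Real.exp (-(k * ε' / 2 / 2))) := by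
    refine PEx_mono (fun v _ => by have := hq0 v; linarith)
      (fun v _ => by have := hw2 v; linarith) _ _ fun Q hQ => ?_
    exact en2_four h2 m A hm hA G Q hQ _ _ _
  rw [PEx_mul_right] at s3
  have s4 := en2_five G (2 * m - 2) (fun v => 2 * (k * w v)) (4 * k)
    (fun v => by have := hq0 v; linarith)
    (by
      rw [← Finset.mul_sum, ← Finset.mul_sum]
      have h5 := mul_le_mul_of_nonneg_left hG hk0
      linarith) (by linarith)
  have s5 := mul_le_mul_of_nonneg_right s4 (Real.exp_pos (-(k * ε' / 2 / 2))).le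
  have h6 : Real.exp (-(k * ε' / 2 / 2)) =
      Real.exp (-(k * ε' / 8)) * Real.exp (-(k * ε' / 8)) := by
    rw [← Real.exp_add]
    congr 1
    ring
  have h7 := mul_le_mul_of_nonneg_right hk3 (Real.exp_pos (-(k * ε' / 8))).le
  have h8 : 2 * ((4 * k) ^ (2 * m - 2) * Real.exp 1 * Real.exp (-(k * ε' / 2 / 2))) =
      2 * ((4 * k) ^ (2 * m - 2) * Real.exp 1 * Real.exp (-(k * ε' / 8))) *
        Real.exp (-(k * ε' / 8)) := by
    rw [h6]
    ring
  have h9 : -(ε' / 8 * k) = -(k * ε' / 8) := by ring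
  rw [h9]
  linarith

end Pool.Agent.Lib.MP_9b5ec2_co
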