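import Mathlib
import Pool.Agent.Lib.MP_9b5ec2_co.Defs2

/-!
# END (MP_9b5ec2_co, P18)
-/

set_option autoImplicit false

namespace Pool.Agent.Lib.MP_9b5ec2_co

open Finset

section endaux

variable {V ι : Type} [Fintype V] [DecidableEq V] [Fintype ι] [DecidableEq ι]

omit [Fintype ι] [DecidableEq ι] in
lemma End_sum_deg (A : ι → Finset V) (F : Finset ι) :
    ∑ v, deg A F v = ∑ e ∈ F, (A e).card := by
  simp only [deg, Finset.card_filter]
  rw [Finset.sum_comm]
  refine Finset.sum_congr rfl fun e _ => ?_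
  simp

omit [Fintype V] [Fintype ι] [DecidableEq ι] in
lemma End_deg_mono (A : ι → Finset V) {F F' : Finset ι} (h : F ⊆ F') (v : V) :
    deg A F v ≤ deg A F' v := by
  unfold deg
  exact Finset.card_le_card (Finset.filter_subset_filter _ h)

omit [DecidableEq ι] in
lemma End_mono_restrict (A : ι → Finset V) (K : ℕ) (T W : Finset V) (c : Bool) (b k : ℕ) :
    mono A K (T ∩ above A K k) (W ∩ above A K k) c b k = mono A K T W c b k := by
  ext e
  simp only [mono, mem_filter, mem_univ, true_and]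
  have h : T ∩ above A K k ∩ above A K k = T ∩ above A K k := by
    rw [inter_assoc, inter_self]
  rw [h]
  refine and_congr_right fun _ => ?_
  refine forall₂_congr fun x hx => ?_
  have hx' : x ∈ above A K k := (mem_inter.1 (mem_inter.1 hx).2).2
  have h2 : decide (x ∈ W ∩ above A K k) = decide (x ∈ W) := by
    rw [decide_eq_decide, mem_inter]
    exact ⟨fun h => h.1, fun h => ⟨h, hx'⟩⟩
  rw [h2]

omit [DecidableEq ι] in
lemma End_step (A : ι → Finset V) (K : ℕ) (T W : Finset V) (c : Bool) (b k : ℕ) (e : ι)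
    (h : ¬ ∃ u, u ∈ A e ∧ u ∈ T ∧ blk A K u = k) :
    e ∈ mono A K T W c b k ↔ e ∈ mono A K T W c b (k + 1) := by
  have hs : A e ∩ (T ∩ above A K k) = A e ∩ (T ∩ above A K (k + 1)) := by
    ext u
    simp only [mem_inter, above, mem_filter, mem_univ, true_and]
    constructor
    · rintro ⟨h1, h2, h3⟩
      refine ⟨h1, h2, ?_⟩
      rcases Nat.lt_or_ge k (blk A K u) with h4 | h4
      · exact h4
      · exact absurd ⟨u, h1, h2, le_antisymm h4 h3⟩ h
    · rintro ⟨h1, h2, h3⟩
      exact ⟨h1, h2, by omega⟩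
  simp only [mono, mem_filter, mem_univ, true_and, hs]

omit [DecidableEq ι] in
lemma End_not_zero (A : ι → Finset V) (K m : ℕ) (T W : Finset V) (c : Bool) (b : ℕ)
    (hmb : m ≤ b)
    (hcol : ∀ e, m ≤ (A e ∩ T).card → (A e ∩ T ∩ W).Nonempty ∧ ((A e ∩ T) \ W).Nonempty)
    (e : ι) : e ∉ mono A K T W c b 0 := by
  intro he
  have ha : above A K 0 = univ := by
    unfold above
    simp
  simp only [mono, mem_filter, mem_univ, true_and, ha, inter_univ] at he
  obtain ⟨h1, h2⟩ := he
  obtain ⟨⟨x, hx⟩, ⟨y, hy⟩⟩ := hcol e (by omega)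
  rw [mem_inter] at hx
  rw [mem_sdiff] at hy
  have hx2 := h2 x hx.1
  have hy2 := h2 y hy.1
  rw [← hy2] at hx2
  simp [hx.2, hy.2] at hx2

open Classical in
/-- the pairs counted by `cnt` -/
lemma End_cnt (A : ι → Finset V) (K : ℕ) (T W : Finset V) (c : Bool) (b : ℕ) (u : V) :
    cnt A K (stPrd A K c b) T W u u =
      (univ.filter (fun e => u ∈ A e ∧ e ∈ mono A K T W c b (blk A K u + 2))).card := by
  unfold cnt stPrd
  rw [End_mono_restrict]
  congr 1
  ext e
  simp only [mem_filter, mem_univ, true_and]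
  tauto

open Classical in
/-- every edge that is in some `mono` is counted -/
lemma End_exists (A : ι → Finset V) (K m : ℕ) (T W : Finset V) (c : Bool) (b : ℕ)
    (hmb : m ≤ b)
    (hcol : ∀ e, m ≤ (A e ∩ T).card → (A e ∩ T ∩ W).Nonempty ∧ ((A e ∩ T) \ W).Nonempty)
    (e : ι) (he : ∃ k, e ∈ mono A K T W c b k) :
    1 ≤ (T.filter (fun u => u ∈ A e ∧ e ∈ mono A K T W c b (blk A K u + 2))).card +
      clo A K T e := by
  have hk := Nat.find_spec he
  have hmin := fun j hj => Nat.find_min he (m := j) hj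
  generalize Nat.find he = k at hk hmin
  cases k with
  | zero => exact absurd hk (End_not_zero A K m T W c b hmb hcol e)
  | succ k =>
    have h1 : e ∉ mono A K T W c b k := hmin k (Nat.lt_succ_self k)
    have h2 : ∃ u, u ∈ A e ∧ u ∈ T ∧ blk A K u = k := by
      by_contra hcon
      exact h1 ((End_step A K T W c b k e hcon).2 hk)
    obtain ⟨u, hu1, hu2, hu3⟩ := h2
    by_cases h3 : e ∈ mono A K T W c b (k + 1 + 1)
    · have h4 : u ∈ T.filter (fun u => u ∈ A e ∧ e ∈ mono A K T W c b (blk A K u + 2)) := by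
        rw [mem_filter, hu3]
        exact ⟨hu2, hu1, h3⟩
      have := Finset.card_pos.2 ⟨u, h4⟩
      omega
    · have h4 : ∃ u', u' ∈ A e ∧ u' ∈ T ∧ blk A K u' = k + 1 := by
        by_contra hcon
        exact h3 ((End_step A K T W c b (k + 1) e hcon).1 hk)
      obtain ⟨u', hu1', hu2', hu3'⟩ := h4
      have h5 : (u, u') ∈ ((A e ∩ T) ×ˢ (A e ∩ T)).filter (fun q => q.1 ≠ q.2 ∧
          blk A K q.1 ≤ blk A K q.2 + 1 ∧ blk A K q.2 ≤ blk A K q.1 + 1) := by
        rw [mem_filter, mem_product]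
        refine ⟨⟨mem_inter.2 ⟨hu1, hu2⟩, mem_inter.2 ⟨hu1', hu2'⟩⟩, ?_, ?_, ?_⟩
        · intro hEq
          have hEq' : u = u' := hEq
          rw [hEq'] at hu3
          omega
        · simp only
          omega
        · simp only
          omega
      have h6 : 0 < clo A K T e := Finset.card_pos.2 ⟨_, h5⟩
      omega

end endaux

open Classical in
/-- END -/
theorem endThm : EndStmt := by
  intro V ι _ _ _ _ A K m s θ δ x T W a c hs hθ hθ8 hδ hδ1 hx hδx hA hM hWT hclose hglob hma
    hcol hreg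
  set b : ℕ := a c with hb
  set E : Finset ι := univ.filter (fun e => ∃ k, e ∈ mono A K T W c b k) with hE
  have hs0 : 0 < s := by linarith
  -- the number of incidences of `E`
  have hinc : ((∑ v, deg A E v : ℕ) : ℝ) ≤ 2 * s * E.card := by
    rw [End_sum_deg]
    push_cast
    calc ∑ e ∈ E, ((A e).card : ℝ) ≤ ∑ _e ∈ E, 2 * s := Finset.sum_le_sum fun e _ => hA e
      _ = 2 * s * E.card := by rw [Finset.sum_const, nsmul_eq_mul]; ring
  -- (F1)
  have F1 : x * (x * mass A) ≤ 2 * s * E.card := by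
    refine le_trans ?_ hinc
    calc x * (x * mass A) ≤ x * ∑ v ∈ reg A K T W a x, (dg A v : ℝ) :=
          mul_le_mul_of_nonneg_left hreg hx.le
      _ = ∑ v ∈ reg A K T W a x, x * (dg A v : ℝ) := Finset.mul_sum _ _ _
      _ ≤ ∑ v ∈ reg A K T W a x, (deg A E v : ℝ) := by
          refine Finset.sum_le_sum fun v hv => ?_
          have h1 : ripe A K T W a x (blk A K v + 2) v := by
            unfold reg at hv
            exact (mem_filter.1 hv).2
          refine (h1 c).trans ?_
          have h2 : mono A K T W c (a c) (blk A K v + 2) ⊆ E := by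
            intro e he
            rw [hE, mem_filter]
            exact ⟨mem_univ _, _, he⟩
          exact_mod_cast End_deg_mono A h2 v
      _ ≤ ∑ v, (deg A E v : ℝ) :=
          Finset.sum_le_sum_of_subset_of_nonneg (Finset.subset_univ _)
            fun _ _ _ => Nat.cast_nonneg _
      _ = _ := by push_cast; rfl
  -- (F4)
  have F4 : E.card ≤ ∑ u ∈ T, cnt A K (stPrd A K c b) T W u u + ∑ e, clo A K T e := by
    have h1 : E.card ≤ ∑ e ∈ E,
        ((T.filter (fun u => u ∈ A e ∧ e ∈ mono A K T W c b (blk A K u + 2))).card +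
          clo A K T e) := by
      rw [Finset.card_eq_sum_ones]
      refine Finset.sum_le_sum fun e he => ?_
      rw [hE, mem_filter] at he
      exact End_exists A K m T W c b hma hcol e he.2
    refine h1.trans ?_
    refine (Finset.sum_le_sum_of_subset (Finset.subset_univ E)).trans ?_
    rw [Finset.sum_add_distrib]
    apply Nat.add_le_add_right
    apply le_of_eq
    simp only [End_cnt, Finset.card_filter]
    rw [Finset.sum_comm]
  -- (F5)
  have F5 : ∑ u, cnt A K (stPrd A K c b) T W u u ≤ ∑ v, deg A E v := by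
    refine Finset.sum_le_sum fun u _ => ?_
    rw [End_cnt]
    unfold deg
    apply Finset.card_le_card
    intro e he
    rw [mem_filter] at he
    rw [mem_filter, hE, mem_filter]
    exact ⟨⟨mem_univ _, _, he.2.2⟩, he.2.1⟩
  have hg := hglob W hWT
  have F4' : (E.card : ℝ) ≤ ∑ u ∈ T, (cnt A K (stPrd A K c b) T W u u : ℝ) +
      ∑ e, (clo A K T e : ℝ) := by exact_mod_cast F4
  have F5' : ∑ u, (cnt A K (stPrd A K c b) T W u u : ℝ) ≤ 2 * s * E.card := by
    refine le_trans ?_ hinc
    exact_mod_cast F5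
  unfold Close at hclose
  -- arithmetic
  have hp : θ / s * ∑ u, (cnt A K (stPrd A K c b) T W u u : ℝ) ≤ 2 * θ * E.card := by
    calc θ / s * ∑ u, (cnt A K (stPrd A K c b) T W u u : ℝ) ≤ θ / s * (2 * s * E.card) :=
          mul_le_mul_of_nonneg_left F5' (by positivity)
      _ = 2 * θ * E.card := by field_simp
  have h2 : s * (δ * (θ / s) * mass A) = δ * θ * mass A := by field_simp
  have hEn : (0 : ℝ) ≤ E.card := Nat.cast_nonneg _
  have h3 : s * (E.card : ℝ) ≤ s * (2 * θ * E.card) + δ * θ * mass A + δ ^ 2 * mass A / 2 := by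
    have h4 : (E.card : ℝ) ≤ 2 * θ * E.card + δ * (θ / s) * mass A + ∑ e, (clo A K T e : ℝ) := by
      linarith
    have h5 := mul_le_mul_of_nonneg_left h4 hs0.le
    have h6 : s * ∑ e, (clo A K T e : ℝ) ≤ δ ^ 2 * mass A / 2 := by linarith
    linarith
  have h7 : s * (2 * θ * E.card) ≤ s * (E.card : ℝ) / 4 := by
    have : 2 * θ * (E.card : ℝ) ≤ E.card / 4 := by nlinarith
    have := mul_le_mul_of_nonneg_left this hs0.le
    linarith
  have h8 : δ * θ * mass A ≤ δ * mass A / 8 := by
    have : δ * θ ≤ δ * (1 / 8) := mul_le_mul_of_nonneg_left hθ8 hδ.le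
    have := mul_le_mul_of_nonneg_right this hM.le
    linarith
  have h9 : δ ^ 2 * mass A ≤ δ * mass A := by
    have : δ ^ 2 ≤ δ := by nlinarith
    exact mul_le_mul_of_nonneg_right this hM.le
  have h10 : 4 * δ * mass A < x ^ 2 * mass A := mul_lt_mul_of_pos_right hδx hM
  have h11 : 0 < δ * mass A := mul_pos hδ hM
  nlinarith

end Pool.Agent.Lib.MP_9b5ec2_co
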