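import Pool.Agent.Lib.MP_9b5ec2_co.Defs2

/-! Few pairs, or the next position (MP_9b5ec2_co): `FewStmt` from `LossStmt` and `GainStmt`. -/

set_option autoImplicit false

namespace Pool.Agent.Lib.MP_9b5ec2_co

open Finset

section few

variable {V ι : Type} [Fintype V] [DecidableEq V] [Fintype ι] [DecidableEq ι]

/-- the number of pairs is at most `hit` -/
theorem few_le_hit (A : ι → Finset V) (T S : Finset V) (v : V) (F : V → Finset ι)
    (hS : S ⊆ T) (hv : v ∉ S) :
    ∑ u ∈ S, ((F u).filter (fun e => u ∈ A e ∧ v ∈ A e)).card ≤ hit A T v := by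
  have h1 : ∀ u ∈ S, ((F u).filter (fun e => u ∈ A e ∧ v ∈ A e)).card ≤
      ∑ e ∈ univ.filter (fun e => v ∈ A e), if u ∈ A e then 1 else 0 := by
    intro u _
    rw [← Finset.card_filter]
    apply Finset.card_le_card
    intro e he
    simp only [Finset.mem_filter, Finset.mem_univ, true_and] at he ⊢
    exact ⟨he.2.2, he.2.1⟩
  refine le_trans (Finset.sum_le_sum h1) ?_
  rw [Finset.sum_comm]
  unfold hit
  apply Finset.sum_le_sum
  intro e _
  rw [← Finset.card_filter]
  apply Finset.card_le_card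
  intro u hu
  simp only [Finset.mem_filter, Finset.mem_inter, Finset.mem_erase] at hu ⊢
  refine ⟨⟨?_, hu.2⟩, hS hu.1⟩
  rintro rfl
  exact hv hu.1

/-- the sum of `hit` over a set -/
theorem few_hit_sum (A : ι → Finset V) (θ δ : ℝ) (T S : Finset V) (hθ : 0 < θ)
    (hH : Heavy A θ δ T) :
    ∑ v ∈ S, (hit A T v : ℝ) ≤ 4 * θ * ∑ v ∈ S, (dg A v : ℝ) + δ * mass A := by
  classical
  have h1 : ∀ v ∈ S, (hit A T v : ℝ) ≤ 4 * θ * (dg A v : ℝ) +
      (if 4 * θ * (dg A v : ℝ) < (hit A T v : ℝ) then (hit A T v : ℝ) else 0) := by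
    intro v _
    split_ifs with h
    · have : 0 ≤ 4 * θ * (dg A v : ℝ) := by positivity
      linarith
    · linarith [not_lt.1 h]
  refine le_trans (Finset.sum_le_sum h1) ?_
  rw [Finset.sum_add_distrib, ← Finset.mul_sum]
  have h2 : ∑ v ∈ S, (if 4 * θ * (dg A v : ℝ) < (hit A T v : ℝ) then (hit A T v : ℝ) else 0) ≤
      ∑ v ∈ univ.filter (fun v => 4 * θ * (dg A v : ℝ) < (hit A T v : ℝ)), (hit A T v : ℝ) := by
    rw [Finset.sum_filter]
    apply Finset.sum_le_sum_of_subset_of_nonneg (Finset.subset_univ _)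
    intro v _ _
    split_ifs <;> positivity
  have h3 : ∑ v ∈ univ.filter (fun v => 4 * θ * (dg A v : ℝ) < (hit A T v : ℝ)),
      (hit A T v : ℝ) ≤ δ * mass A := hH
  linarith

end few

theorem few (h1 : LossStmt) (h2 : GainStmt) : FewStmt := by
  intro V ι _ _ _ _ A K s θ δ x' T W U Aty c a P _ hs hθ hθ8 hδ hx' hδx hsize hdg hUT hUW hH
    hAty htyp hnext
  classical
  by_cases hY : x' * mass A ≤
      ∑ v ∈ reg A K T W (Function.update a c (a c + 1)) x', (dg A v : ℝ)
  · exact Or.inl hY
  refine Or.inr ?_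
  rw [not_le] at hY
  set Y := reg A K T W (Function.update a c (a c + 1)) x' with hYdef
  have hM : 0 ≤ mass A := by
    unfold mass
    positivity
  -- the number of pairs at `v`
  set n : V → ℝ := fun v => ∑ u ∈ U.filter (fun u => P u v ∧ blk A K v + 2 ≤ blk A K u),
      (((mono A K T W c (a c) (blk A K u + 2)).filter
        (fun e => u ∈ A e ∧ v ∈ A e)).card : ℝ) with hn
  have hnhit : ∀ v, n v ≤ (hit A T v : ℝ) := by
    intro v
    have h := few_le_hit A T (U.filter (fun u => P u v ∧ blk A K v + 2 ≤ blk A K u)) v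
      (fun u => mono A K T W c (a c) (blk A K u + 2))
      (fun u hu => hUT (Finset.mem_filter.1 hu).1)
      (fun hv => by
        have := (Finset.mem_filter.1 hv).2.2
        omega)
    have h' : ((∑ u ∈ U.filter (fun u => P u v ∧ blk A K v + 2 ≤ blk A K u),
      ((mono A K T W c (a c) (blk A K u + 2)).filter
        (fun e => u ∈ A e ∧ v ∈ A e)).card : ℕ) : ℝ) ≤ (hit A T v : ℝ) := by exact_mod_cast h
    rw [Nat.cast_sum] at h'
    exact h'
  -- typical points with many pairs are in `Y`
  have hkey : ∀ v, v ∉ Aty → 2 * x' * (dg A v : ℝ) ≤ n v → v ∈ Y := by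
    intro v hv hnv
    have hd1 : (1 : ℝ) ≤ (dg A v : ℝ) := by exact_mod_cast hdg v
    obtain ⟨hdev, hclo⟩ := htyp v hv
    have hloss := h1 V ι A K s θ δ T W c (a c + 1) v (by linarith) hθ hsize hdev hclo
    have hgain := h2 V ι A K T W (U.filter (fun u => P u v)) c (a c) v
      ((Finset.filter_subset _ _).trans hUT)
      (fun u hu => hUW u (Finset.mem_filter.1 hu).1)
    rw [Finset.filter_filter] at hgain
    have hgain' : n v ≤ ((ever A K T W c (a c + 1) v).card : ℝ) + (cloV A K T v : ℝ) := by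
      have : ((∑ u ∈ U.filter (fun u => P u v ∧ blk A K v + 2 ≤ blk A K u),
        ((mono A K T W c (a c) (blk A K u + 2)).filter
        (fun e => u ∈ A e ∧ v ∈ A e)).card : ℕ) : ℝ) ≤
        (((ever A K T W c (a c + 1) v).card + cloV A K T v : ℕ) : ℝ) := by exact_mod_cast hgain
      rw [Nat.cast_sum, Nat.cast_add] at this
      exact this
    -- degree for the colour `c`
    have hdegc : x' * (dg A v : ℝ) ≤
        (deg A (mono A K T W c (a c + 1) (blk A K v + 2)) v : ℝ) := by
      have hE : n v - δ * (dg A v : ℝ) ≤ ((ever A K T W c (a c + 1) v).card : ℝ) := by linarith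
      have hE0 : 0 ≤ ((ever A K T W c (a c + 1) v).card : ℝ) := by positivity
      have h34 : (3 : ℝ) / 4 ≤ 1 - 2 * θ := by linarith
      have h5 : 3 / 4 * ((ever A K T W c (a c + 1) v).card : ℝ) ≤
          (1 - 2 * θ) * ((ever A K T W c (a c + 1) v).card : ℝ) :=
        mul_le_mul_of_nonneg_right h34 hE0
      have h6 : 6 * δ * (dg A v : ℝ) ≤ x' * (dg A v : ℝ) :=
        mul_le_mul_of_nonneg_right hδx (by linarith)
      nlinarith
    -- `n v > 0`, so the other colour is fine as well
    have hnpos : 0 < n v := by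
      have : 0 < 2 * x' * (dg A v : ℝ) := by positivity
      linarith
    have hex : ∃ u ∈ U.filter (fun u => P u v ∧ blk A K v + 2 ≤ blk A K u),
        (((mono A K T W c (a c) (blk A K u + 2)).filter
          (fun e => u ∈ A e ∧ v ∈ A e)).card : ℝ) ≠ 0 := by
      by_contra hcon
      have h0 : n v = 0 := by
        apply Finset.sum_eq_zero
        intro u hu
        by_contra hne
        exact hcon ⟨u, hu, hne⟩
      linarith
    obtain ⟨u, hu, hcu⟩ := hex
    obtain ⟨huU, hPu, hbu⟩ := Finset.mem_filter.1 hu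
    have hne : ((mono A K T W c (a c) (blk A K u + 2)).filter
        (fun e => u ∈ A e ∧ v ∈ A e)).Nonempty := by
      rw [← Finset.card_pos]
      apply Nat.pos_of_ne_zero
      intro h0
      apply hcu
      rw [h0]
      norm_num
    have hdegc' := hnext v hv u huU hPu hbu hne
    -- conclusion
    rw [hYdef, reg, Finset.mem_filter]
    refine ⟨Finset.mem_univ v, ?_⟩
    intro c'
    by_cases hc : c' = c
    · subst hc
      rw [Function.update_self]
      exact hdegc
    · have hc' : c' = !c := by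
        cases c' <;> cases c <;> simp_all
      rw [Function.update_of_ne hc, hc']
      exact hdegc'
  -- pointwise bound
  have hpt : ∀ v, n v ≤ 2 * x' * (dg A v : ℝ) + (if v ∈ Y then (hit A T v : ℝ) else 0) +
      (if v ∈ Aty then (hit A T v : ℝ) else 0) := by
    intro v
    have hd : 0 ≤ 2 * x' * (dg A v : ℝ) := by positivity
    have hh : 0 ≤ (hit A T v : ℝ) := by positivity
    by_cases hv : v ∈ Aty
    · rw [if_pos hv]
      have : 0 ≤ (if v ∈ Y then (hit A T v : ℝ) else 0) := by split_ifs <;> positivity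
      linarith [hnhit v]
    · rw [if_neg hv]
      by_cases hvY : v ∈ Y
      · rw [if_pos hvY]
        linarith [hnhit v]
      · rw [if_neg hvY]
        have : ¬ 2 * x' * (dg A v : ℝ) ≤ n v := fun h => hvY (hkey v hv h)
        linarith [not_le.1 this]
  have hsum : ∑ v, n v ≤ 2 * x' * mass A + ∑ v ∈ Y, (hit A T v : ℝ) +
      ∑ v ∈ Aty, (hit A T v : ℝ) := by
    refine le_trans (Finset.sum_le_sum fun v _ => hpt v) ?_
    rw [Finset.sum_add_distrib, Finset.sum_add_distrib, ← Finset.mul_sum, Finset.sum_ite_mem,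
      Finset.sum_ite_mem, Finset.univ_inter, Finset.univ_inter]
    exact le_refl _
  have hYs := few_hit_sum A θ δ T Y hθ hH
  have hAs := few_hit_sum A θ δ T Aty hθ hH
  have e1 : 4 * θ * ∑ v ∈ Y, (dg A v : ℝ) ≤ 1 / 2 * (x' * mass A) := by
    have : 4 * θ ≤ 1 / 2 := by linarith
    exact mul_le_mul this hY.le (by positivity) (by norm_num)
  have e2 : 4 * θ * ∑ v ∈ Aty, (dg A v : ℝ) ≤ 1 / 2 * (7 * δ * mass A) := by
    have : 4 * θ ≤ 1 / 2 := by linarith
    exact mul_le_mul this hAty (by positivity) (by norm_num)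
  have e3 : 0 ≤ δ * mass A := by positivity
  have e4 : 0 ≤ x' * mass A := by positivity
  change ∑ v, n v ≤ _
  nlinarith

end Pool.Agent.Lib.MP_9b5ec2_co
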