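import Pool.Agent.Lib.MP_9b5ec2_co.Defs3

/-!
# Fractional polychromatic colourings from cheap nets, by duality (MP_9b5ec2_co, module Q17)
-/

set_option autoImplicit false

namespace Pool.Agent.Lib.MP_9b5ec2_co

open Finset

/-- extension of a function on a subtype by zero: sums -/
theorem frac_sum_ext {α : Type} [Fintype α] (P : α → Prop) [DecidablePred P]
    (f : {x // P x} → ℝ) (Q : α → Prop) [DecidablePred Q] :
    ∑ x ∈ univ.filter Q, (if h : P x then f ⟨x, h⟩ else 0) =
      ∑ x ∈ univ.filter (fun x : {x // P x} => Q x.1), f x := by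
  classical
  rw [Finset.sum_filter, Finset.sum_filter]
  have h1 : ∀ x : α, (if Q x then (if h : P x then f ⟨x, h⟩ else 0) else 0) =
      if h : P x then (if Q x then f ⟨x, h⟩ else 0) else 0 := by
    intro x
    by_cases hQ : Q x <;> by_cases hP : P x <;> simp [hQ, hP]
  simp_rw [h1]
  rw [← Finset.sum_subset (Finset.filter_subset P univ)]
  · rw [Finset.sum_subtype (univ.filter P) (p := P) (by simp)]
    refine Finset.sum_congr rfl fun x _ => ?_
    rw [dif_pos x.2]
  · intro x _ hx
    have hP : ¬ P x := fun h => hx (by simp [h])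
    rw [dif_neg hP]

theorem frac (h1 : CostNetStmt) (h2 : LPDStmt) : FracStmt := by
  classical
  intro m
  obtain ⟨C, hC, hnet⟩ := h1 m
  refine ⟨C, hC, ?_⟩
  intro V ι _ _ _ _ A w t hA hw ht
  have hcap : ∀ v, 0 ≤ C * w v / t := fun v => div_nonneg (mul_nonneg hC.le (hw v)) ht.le
  rcases h2 V {T : Finset V // ∀ i, t ≤ ∑ v ∈ A i, w v → (A i ∩ T).Nonempty} (fun T => T.1)
    (fun v => C * w v / t) 1 hcap one_pos with ⟨y, hy, hY⟩ | ⟨x, hx0, hx1, hx2⟩
  · set Y : ℝ := ∑ T, y T with hYdef
    have hYpos : 0 < Y := lt_of_lt_of_le one_pos hY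
    refine ⟨fun T => if h : (∀ i, t ≤ ∑ v ∈ A i, w v → (A i ∩ T).Nonempty) then y ⟨T, h⟩ / Y else 0,
      ?_, ?_, ?_, ?_⟩
    · intro T
      dsimp only
      split_ifs with h
      · exact div_nonneg (hy.1 _) hYpos.le
      · exact le_rfl
    · have h3 := frac_sum_ext (fun T : Finset V => ∀ i, t ≤ ∑ v ∈ A i, w v → (A i ∩ T).Nonempty)
        (fun T => y T / Y) (fun _ => True)
      simp only [Finset.filter_true] at h3
      rw [h3, ← Finset.sum_div, ← hYdef, div_self hYpos.ne']
    · intro T hT i hi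
      by_contra hc
      apply hT
      exact dif_neg fun h => hc (h i hi)
    · intro v
      have h3 := frac_sum_ext (fun T : Finset V => ∀ i, t ≤ ∑ v ∈ A i, w v → (A i ∩ T).Nonempty)
        (fun T => y T / Y) (fun T => v ∈ T)
      rw [h3, ← Finset.sum_div]
      have h4 := hy.2 v
      unfold fdeg at h4
      have h5 : 0 ≤ C * w v := mul_nonneg hC.le (hw v)
      calc t * ((∑ T ∈ univ.filter
            (fun T : {T : Finset V // ∀ i, t ≤ ∑ v ∈ A i, w v → (A i ∩ T).Nonempty} => v ∈ T.1),
              y T) / Y)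
          ≤ t * ((C * w v / t) / Y) := by
            apply mul_le_mul_of_nonneg_left _ ht.le
            exact div_le_div_of_nonneg_right h4 hYpos.le
        _ = C * w v / Y := by field_simp
        _ ≤ C * w v := div_le_self h5 hY
  · exfalso
    obtain ⟨T, hT, hTc⟩ := hnet V {i : ι // t ≤ ∑ v ∈ A i, w v} (fun i => A i.1) x
      (fun v => w v / t) (by
        intro S
        obtain ⟨R, hR⟩ := hA S
        exact ⟨R, fun i => hR i.1⟩) hx0 (fun v => div_nonneg (hw v) ht.le) (by
        intro i
        rw [← Finset.sum_div, le_div_iff₀ ht, one_mul]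
        exact i.2)
    have h6 := hx1 ⟨T, fun i hi => hT ⟨i, hi⟩⟩
    have h7 : C * ∑ v, x v * (w v / t) = ∑ v, C * w v / t * x v := by
      rw [Finset.mul_sum]
      refine Finset.sum_congr rfl fun v _ => by ring
    rw [h7] at hTc
    have h8 : (1 : ℝ) ≤ ∑ v ∈ T, x v := h6
    linarith

end Pool.Agent.Lib.MP_9b5ec2_co
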