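import Pool.Agent.Lib.MP_9b5ec2_co.Defs2

/-!
The frozen deviation: quadratic potential and telescoping sum.
-/

set_option autoImplicit false

namespace Pool.Agent.Lib.MP_9b5ec2_co

open Finset

section freeze

variable {V ι : Type} [Fintype V] [DecidableEq V] [Fintype ι] [DecidableEq ι]
  (A : ι → Finset V) (K I : ℕ) (p : ℝ) (Φ : Prd V ι) (T W : Finset V)

/-- the deviation of the block `I - k` at `v` -/
noncomputable def frzDev (k : ℕ) (v : V) : ℝ :=
  ∑ u ∈ univ.filter (fun u => blk A K u = I - k),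
    ((if u ∈ T then (1 : ℝ) else 0) - p) * (cnt A K Φ T W u v : ℝ)

lemma frz_succ_eq (k : ℕ) (v : V) : frz A K I p Φ T W (k + 1) v = frz A K I p Φ T W k v +
      if |frz A K I p Φ T W k v| ≤ (dg A v : ℝ) ∧ blk A K v + 2 ≤ I - k then
        frzDev A K I p Φ T W k v else 0 := rfl

lemma frz_coef_sum (k : ℕ) :
    ∑ u ∈ univ.filter (fun u => blk A K u = I - k),
        ((if u ∈ T then (1 : ℝ) else 0) - p) * coef A K I p Φ T W k u =
      ∑ v, if |frz A K I p Φ T W k v| ≤ (dg A v : ℝ) ∧ blk A K v + 2 ≤ I - k then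
        frz A K I p Φ T W k v * frzDev A K I p Φ T W k v / (dg A v : ℝ) else 0 := by
  unfold coef
  simp_rw [Finset.mul_sum]
  rw [Finset.sum_comm]
  refine Finset.sum_congr rfl fun v _ => ?_
  by_cases h : |frz A K I p Φ T W k v| ≤ (dg A v : ℝ) ∧ blk A K v + 2 ≤ I - k
  · simp only [if_pos h]
    unfold frzDev
    rw [Finset.mul_sum, Finset.sum_div]
    refine Finset.sum_congr rfl fun u _ => ?_
    ring
  · simp only [if_neg h]
    simp

lemma frz_sum_sq (k : ℕ) :
    ∑ v, (frz A K I p Φ T W (k + 1) v) ^ 2 / (dg A v : ℝ) =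
      ∑ v, (frz A K I p Φ T W k v) ^ 2 / (dg A v : ℝ) +
      2 * ∑ u ∈ univ.filter (fun u => blk A K u = I - k),
        ((if u ∈ T then (1 : ℝ) else 0) - p) * coef A K I p Φ T W k u +
      ∑ v, (if |frz A K I p Φ T W k v| ≤ (dg A v : ℝ) ∧ blk A K v + 2 ≤ I - k then
        (frzDev A K I p Φ T W k v) ^ 2 / (dg A v : ℝ) else 0) := by
  rw [frz_coef_sum, Finset.mul_sum, ← Finset.sum_add_distrib, ← Finset.sum_add_distrib]
  refine Finset.sum_congr rfl fun v _ => ?_
  rw [frz_succ_eq]
  by_cases h : |frz A K I p Φ T W k v| ≤ (dg A v : ℝ) ∧ blk A K v + 2 ≤ I - k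
  · simp only [if_pos h]
    ring
  · simp only [if_neg h]
    ring

open Classical in
lemma frz_cnt_le (u v : V) : (cnt A K Φ T W u v : ℝ) ≤ (codeg A u v : ℝ) := by
  have : cnt A K Φ T W u v ≤ codeg A u v := by
    unfold cnt codeg
    apply Finset.card_le_card
    intro e he
    rw [Finset.mem_filter] at he ⊢
    exact ⟨he.1, he.2.1, he.2.2.1⟩
  exact_mod_cast this

/-- the colour independent bound of the deviation of a block -/
noncomputable def frzBd (i : ℕ) (v : V) : ℝ :=
  ∑ u ∈ univ.filter (fun u => blk A K u = i) ∩ T, (codeg A u v : ℝ) +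
      p * ∑ u ∈ univ.filter (fun u => blk A K u = i), (codeg A u v : ℝ)

lemma frzDev_abs (hp : 0 ≤ p) (k : ℕ) (v : V) :
    |frzDev A K I p Φ T W k v| ≤ frzBd A K p T (I - k) v := by
  unfold frzDev frzBd
  refine (Finset.abs_sum_le_sum_abs _ _).trans ?_
  have h1 : ∑ u ∈ univ.filter (fun u => blk A K u = I - k) ∩ T, (codeg A u v : ℝ) =
      ∑ u ∈ univ.filter (fun u => blk A K u = I - k),
        (if u ∈ T then (codeg A u v : ℝ) else 0) := by
    rw [← Finset.filter_mem_eq_inter, Finset.sum_filter]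
  rw [h1, Finset.mul_sum, ← Finset.sum_add_distrib]
  refine Finset.sum_le_sum fun u _ => ?_
  rw [abs_mul]
  have h2 : |(cnt A K Φ T W u v : ℝ)| ≤ (codeg A u v : ℝ) := by
    rw [abs_of_nonneg (by positivity)]
    exact frz_cnt_le A K Φ T W u v
  have h3 : |(if u ∈ T then (1 : ℝ) else 0) - p| ≤ (if u ∈ T then (1 : ℝ) else 0) + p := by
    refine (abs_sub _ _).trans ?_
    rw [abs_of_nonneg hp]
    split_ifs
    · simp
    · simp
  have h4 : (0 : ℝ) ≤ (codeg A u v : ℝ) := by positivity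
  have h5 : (0 : ℝ) ≤ (if u ∈ T then (1 : ℝ) else 0) + p := by
    split_ifs
    · linarith
    · linarith
  calc |(if u ∈ T then (1 : ℝ) else 0) - p| * |(cnt A K Φ T W u v : ℝ)| ≤
      ((if u ∈ T then (1 : ℝ) else 0) + p) * (codeg A u v : ℝ) :=
        mul_le_mul h3 h2 (abs_nonneg _) h5
    _ = (if u ∈ T then (codeg A u v : ℝ) else 0) + p * (codeg A u v : ℝ) := by
        split_ifs
        · ring
        · ring

/-- The squares of the increments in one step. -/
lemma frz_sq_le (hp : 0 ≤ p) (k : ℕ) :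
    ∑ v, (if |frz A K I p Φ T W k v| ≤ (dg A v : ℝ) ∧ blk A K v + 2 ≤ I - k then
        (frzDev A K I p Φ T W k v) ^ 2 / (dg A v : ℝ) else 0) ≤
      ∑ v ∈ univ.filter (fun v => blk A K v + 2 ≤ I - k),
        (frzBd A K p T (I - k) v) ^ 2 / (dg A v : ℝ) := by
  rw [Finset.sum_filter]
  refine Finset.sum_le_sum fun v _ => ?_
  have h1 := frzDev_abs A K I p Φ T W hp k v
  have h2 : (frzDev A K I p Φ T W k v) ^ 2 ≤ (frzBd A K p T (I - k) v) ^ 2 := by
    rw [← sq_abs (frzDev A K I p Φ T W k v)]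
    exact pow_le_pow_left₀ (abs_nonneg _) h1 2
  have h3 : (0 : ℝ) ≤ (dg A v : ℝ) := by positivity
  by_cases h : blk A K v + 2 ≤ I - k
  · rw [if_pos h]
    by_cases h' : |frz A K I p Φ T W k v| ≤ (dg A v : ℝ)
    · rw [if_pos ⟨h', h⟩]
      exact div_le_div_of_nonneg_right h2 h3
    · rw [if_neg (fun hh => h' hh.1)]
      positivity
  · rw [if_neg h, if_neg (fun hh => h hh.2)]

/-- The potential after `m` steps. -/
lemma frz_potential (hp : 0 ≤ p) (z : ℝ)
    (hz : ∀ k, k ≤ I → ∑ u ∈ univ.filter (fun u => blk A K u = I - k),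
      ((if u ∈ T then (1 : ℝ) else 0) - p) * coef A K I p Φ T W k u ≤
        z * ∑ v ∈ univ.filter (fun v => blk A K v = I - k), (dg A v : ℝ)) (m : ℕ)
    (hm : m ≤ I + 1) :
    ∑ v, (frz A K I p Φ T W m v) ^ 2 / (dg A v : ℝ) ≤
      ∑ k ∈ range m, (2 * (z * ∑ v ∈ univ.filter (fun v => blk A K v = I - k), (dg A v : ℝ)) +
        ∑ v ∈ univ.filter (fun v => blk A K v + 2 ≤ I - k),
          (frzBd A K p T (I - k) v) ^ 2 / (dg A v : ℝ)) := by
  induction m with
  | zero =>
    have h0 : ∀ v, frz A K I p Φ T W 0 v = 0 := fun v => rfl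
    simp [h0]
  | succ m ih =>
    have h1 := ih (by omega)
    rw [frz_sum_sq, Finset.sum_range_succ]
    have h2 := hz m (by omega)
    have h3 := frz_sq_le A K I p Φ T W hp m
    linarith

lemma frz_stays (k m : ℕ) (hkm : k ≤ m) (v : V) (h : (dg A v : ℝ) < |frz A K I p Φ T W k v|) :
    frz A K I p Φ T W m v = frz A K I p Φ T W k v := by
  induction m, hkm using Nat.le_induction with
  | base => rfl
  | succ m _ ih =>
    rw [frz_succ_eq, ih, if_neg, add_zero]
    intro hh
    exact absurd hh.1 (not_le.2 h)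

lemma frz_unfrozen (v : V) (m : ℕ) (h : ∀ k, k < m → |frz A K I p Φ T W k v| ≤ (dg A v : ℝ)) :
    frz A K I p Φ T W m v =
      ∑ k ∈ range m, if blk A K v + 2 ≤ I - k then frzDev A K I p Φ T W k v else 0 := by
  induction m with
  | zero => rw [Finset.sum_range_zero]; rfl
  | succ m ih =>
    rw [Finset.sum_range_succ, ← ih (fun k hk => h k (by omega)), frz_succ_eq]
    congr 1
    by_cases h' : blk A K v + 2 ≤ I - m
    · rw [if_pos h', if_pos ⟨h m (by omega), h'⟩]
    · rw [if_neg h', if_neg (fun hh => h' hh.2)]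

/-- The sum over the blocks is the deviation. -/
lemma frz_dev (hI : ∀ v, blk A K v ≤ I) (v : V) :
    ∑ k ∈ range (I + 1), (if blk A K v + 2 ≤ I - k then frzDev A K I p Φ T W k v else 0) =
      dev A K p Φ T W v := by
  have h1 : ∑ k ∈ range (I + 1),
      (if blk A K v + 2 ≤ I - k then frzDev A K I p Φ T W k v else 0) =
      ∑ i ∈ range (I + 1), (if blk A K v + 2 ≤ i then
        ∑ u ∈ univ.filter (fun u => blk A K u = i),
          ((if u ∈ T then (1 : ℝ) else 0) - p) * (cnt A K Φ T W u v : ℝ) else 0) := by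
    rw [← Finset.sum_range_reflect]
    refine Finset.sum_congr rfl fun k hk => ?_
    have hk' := Finset.mem_range.1 hk
    have e1 : I + 1 - 1 - k = I - k := by omega
    have e2 : I - (I - k) = k := by omega
    rw [e1]
    unfold frzDev
    rw [e2]
  rw [h1]
  unfold dev above
  rw [Finset.sum_filter]
  have h2 : ∀ i, (if blk A K v + 2 ≤ i then
        ∑ u ∈ univ.filter (fun u => blk A K u = i),
          ((if u ∈ T then (1 : ℝ) else 0) - p) * (cnt A K Φ T W u v : ℝ) else 0) =
      ∑ u ∈ univ.filter (fun u => blk A K u = i), (if blk A K v + 2 ≤ blk A K u then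
          ((if u ∈ T then (1 : ℝ) else 0) - p) * (cnt A K Φ T W u v : ℝ) else 0) := by
    intro i
    by_cases hi : blk A K v + 2 ≤ i
    · rw [if_pos hi]
      refine Finset.sum_congr rfl fun u hu => ?_
      rw [(Finset.mem_filter.1 hu).2, if_pos hi]
    · rw [if_neg hi]
      symm
      refine Finset.sum_eq_zero fun u hu => ?_
      rw [(Finset.mem_filter.1 hu).2, if_neg hi]
  simp_rw [h2]
  exact Finset.sum_fiberwise_of_maps_to (fun u _ => Finset.mem_range.2 (by have := hI u; omega)) _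

lemma frz_rtot : ∑ k ∈ range (I + 1), ∑ v ∈ univ.filter (fun v => blk A K v + 2 ≤ I - k),
          (frzBd A K p T (I - k) v) ^ 2 / (dg A v : ℝ) = rtot A K I p T := by
  unfold rtot
  rw [← Finset.sum_range_reflect]
  refine Finset.sum_congr rfl fun k hk => ?_
  have hk' := Finset.mem_range.1 hk
  have e1 : I + 1 - 1 - k = I - k := by omega
  have e2 : I - (I - k) = k := by omega
  rw [e1, e2]
  rfl

lemma frz_mass (hI : ∀ v, blk A K v ≤ I) :
    ∑ k ∈ range (I + 1), ∑ v ∈ univ.filter (fun v => blk A K v = I - k), (dg A v : ℝ) =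
      mass A := by
  unfold mass
  rw [← Finset.sum_fiberwise_of_maps_to (t := range (I + 1)) (g := blk A K)
    (fun u _ => Finset.mem_range.2 (by have := hI u; omega)), ← Finset.sum_range_reflect]
  refine Finset.sum_congr rfl fun k hk => ?_
  have hk' := Finset.mem_range.1 hk
  have e1 : I + 1 - 1 - k = I - k := by omega
  have e2 : I - (I - k) = k := by omega
  rw [e1, e2]

end freeze

theorem freeze : FreezeStmt := by
  intro V ι _ _ _ _ A K I p δ z r Φ T W hp hδ hδ1 hd hI hzr hz hr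
  have hpot := frz_potential A K I p Φ T W hp z hz (I + 1) le_rfl
  rw [Finset.sum_add_distrib, ← Finset.mul_sum, ← Finset.mul_sum, frz_mass A K I hI,
    frz_rtot] at hpot
  have hM : 0 ≤ mass A := by unfold mass; positivity
  have hQ : ∑ v, (frz A K I p Φ T W (I + 1) v) ^ 2 / (dg A v : ℝ) ≤ δ ^ 3 * mass A := by
    have := mul_le_mul_of_nonneg_right hzr hM
    nlinarith
  -- points with a large deviation have a large frozen deviation
  have hsub : univ.filter (fun v => δ * (dg A v : ℝ) < |dev A K p Φ T W v|) ⊆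
      univ.filter (fun v => δ * (dg A v : ℝ) < |frz A K I p Φ T W (I + 1) v|) := by
    intro v hv
    rw [Finset.mem_filter] at hv ⊢
    refine ⟨hv.1, ?_⟩
    by_contra hcon
    rw [not_lt] at hcon
    have hdv : (0 : ℝ) ≤ (dg A v : ℝ) := by positivity
    have h1 : |frz A K I p Φ T W (I + 1) v| ≤ (dg A v : ℝ) := by nlinarith
    have h2 : ∀ k, k < I + 1 → |frz A K I p Φ T W k v| ≤ (dg A v : ℝ) := by
      intro k hk
      by_contra hk'
      rw [not_le] at hk'
      have := frz_stays A K I p Φ T W k (I + 1) hk.le v hk'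
      rw [this] at h1
      exact absurd h1 (not_le.2 hk')
    have h3 := frz_unfrozen A K I p Φ T W v (I + 1) h2
    rw [frz_dev A K I p Φ T W hI v] at h3
    rw [h3] at hcon
    exact absurd hv.2 (not_lt.2 hcon)
  refine (Finset.sum_le_sum_of_subset_of_nonneg hsub fun v _ _ => by positivity).trans ?_
  have h1 : δ ^ 2 * ∑ v ∈ univ.filter (fun v => δ * (dg A v : ℝ) <
      |frz A K I p Φ T W (I + 1) v|), (dg A v : ℝ) ≤
      ∑ v, (frz A K I p Φ T W (I + 1) v) ^ 2 / (dg A v : ℝ) := by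
    rw [Finset.mul_sum]
    refine le_trans (Finset.sum_le_sum (g := fun v =>
      (frz A K I p Φ T W (I + 1) v) ^ 2 / (dg A v : ℝ)) ?_)
      (Finset.sum_le_sum_of_subset_of_nonneg (Finset.filter_subset _ _)
        fun v _ _ => by positivity)
    intro v hv
    have hv2 := (Finset.mem_filter.1 hv).2
    have hdv : (0 : ℝ) < (dg A v : ℝ) := by
      have := hd v
      exact_mod_cast this
    rw [le_div_iff₀ hdv]
    have h3 : (δ * (dg A v : ℝ)) ^ 2 ≤ |frz A K I p Φ T W (I + 1) v| ^ 2 :=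
      pow_le_pow_left₀ (by positivity) hv2.le 2
    rw [sq_abs] at h3
    nlinarith
  have h2 : δ ^ 2 * ∑ v ∈ univ.filter (fun v => δ * (dg A v : ℝ) <
      |frz A K I p Φ T W (I + 1) v|), (dg A v : ℝ) ≤ δ ^ 2 * (δ * mass A) := by
    calc _ ≤ _ := h1
      _ ≤ δ ^ 3 * mass A := hQ
      _ = δ ^ 2 * (δ * mass A) := by ring
  exact le_of_mul_le_mul_left h2 (by positivity)

end Pool.Agent.Lib.MP_9b5ec2_co
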