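import Pool.Agent.Lib.MP_9b5ec2_co.Defs2

/-!
# MP_9b5ec2_co: GAIN
-/

set_option autoImplicit false

namespace Pool.Agent.Lib.MP_9b5ec2_co

open Finset

theorem gain_mem_above {V ι : Type} [Fintype V] [DecidableEq V] [Fintype ι] [DecidableEq ι]
    {A : ι → Finset V} {K k : ℕ} {u : V} : u ∈ above A K k ↔ k ≤ blk A K u := by
  unfold above
  simp

theorem gain_mem_mono {V ι : Type} [Fintype V] [DecidableEq V] [Fintype ι] [DecidableEq ι]
    {A : ι → Finset V} {K : ℕ} {T W : Finset V} {c : Bool} {a k : ℕ} {e : ι} :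
    e ∈ mono A K T W c a k ↔ (A e ∩ (T ∩ above A K k)).card = a ∧
      ∀ x ∈ A e ∩ (T ∩ above A K k), decide (x ∈ W) = c := by
  unfold mono
  simp

theorem gain_clean {V ι : Type} [Fintype V] [DecidableEq V] [Fintype ι] [DecidableEq ι]
    (A : ι → Finset V) (K : ℕ) (T W : Finset V) (c : Bool) (a : ℕ) (e : ι) (u : V)
    (hu : u ∈ A e) (huT : u ∈ T) (huW : decide (u ∈ W) = c)
    (hm : e ∈ mono A K T W c a (blk A K u + 2))
    (hcl : ∀ u' ∈ A e, u' ∈ T → u' ≠ u → blk A K u ≤ blk A K u' → blk A K u + 2 ≤ blk A K u') :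
    e ∈ mono A K T W c (a + 1) (blk A K u) := by
  rw [gain_mem_mono] at hm ⊢
  have h1 : A e ∩ (T ∩ above A K (blk A K u)) =
      insert u (A e ∩ (T ∩ above A K (blk A K u + 2))) := by
    ext x
    simp only [Finset.mem_inter, Finset.mem_insert, gain_mem_above]
    constructor
    · rintro ⟨h1, h2, h3⟩
      by_cases hx : x = u
      · exact Or.inl hx
      · exact Or.inr ⟨h1, h2, hcl x h1 h2 hx h3⟩
    · rintro (h | ⟨h1, h2, h3⟩)
      · rw [h]; exact ⟨hu, huT, le_rfl⟩
      · exact ⟨h1, h2, by omega⟩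
  have h2 : u ∉ A e ∩ (T ∩ above A K (blk A K u + 2)) := by
    simp only [Finset.mem_inter, gain_mem_above]
    rintro ⟨-, -, h⟩
    omega
  rw [h1]
  refine ⟨by rw [Finset.card_insert_of_notMem h2, hm.1], ?_⟩
  intro x hx
  rcases Finset.mem_insert.1 hx with h | h
  · rw [h]; exact huW
  · exact hm.2 x h

theorem gain_unique {V ι : Type} [Fintype V] [DecidableEq V] [Fintype ι] [DecidableEq ι]
    (A : ι → Finset V) (K : ℕ) (T W : Finset V) (c : Bool) (a : ℕ) (e : ι) (u w : V)
    (hw : w ∈ A e) (hwT : w ∈ T)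
    (hm : e ∈ mono A K T W c a (blk A K u + 2)) (hm' : e ∈ mono A K T W c a (blk A K w + 2))
    (hcl : ∀ u' ∈ A e, u' ∈ T → u' ≠ u → blk A K u ≤ blk A K u' → blk A K u + 2 ≤ blk A K u')
    (hle : blk A K u ≤ blk A K w) (hne : w ≠ u) : False := by
  rw [gain_mem_mono] at hm hm'
  have h1 := hcl w hw hwT hne hle
  have h2 : insert w (A e ∩ (T ∩ above A K (blk A K w + 2))) ⊆
      A e ∩ (T ∩ above A K (blk A K u + 2)) := by
    intro x hx
    simp only [Finset.mem_inter, Finset.mem_insert, gain_mem_above] at hx ⊢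
    rcases hx with h | ⟨h3, h4, h5⟩
    · rw [h]; exact ⟨hw, hwT, h1⟩
    · exact ⟨h3, h4, by omega⟩
  have h3 : w ∉ A e ∩ (T ∩ above A K (blk A K w + 2)) := by
    simp only [Finset.mem_inter, gain_mem_above]
    rintro ⟨-, -, h⟩
    omega
  have h4 := Finset.card_le_card h2
  rw [Finset.card_insert_of_notMem h3, hm.1, hm'.1] at h4
  omega

theorem gain : GainStmt := by
  classical
  intro V ι _ _ _ _ A K T W U c a v hUT hU
  have h1 : ∀ u, ((mono A K T W c a (blk A K u + 2)).filter
      (fun e => u ∈ A e ∧ v ∈ A e)).card =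
      ∑ e, if (e ∈ mono A K T W c a (blk A K u + 2) ∧ u ∈ A e ∧ v ∈ A e) then 1 else 0 := by
    intro u
    rw [← Finset.card_filter]
    congr 1
    ext e
    simp [Finset.mem_filter]
  rw [Finset.sum_congr rfl (fun u _ => h1 u), Finset.sum_comm]
  have h2 : ∀ e ∈ (univ : Finset ι),
      (∑ u ∈ U.filter (fun u => blk A K v + 2 ≤ blk A K u),
        if (e ∈ mono A K T W c a (blk A K u + 2) ∧ u ∈ A e ∧ v ∈ A e) then 1 else 0) ≤
      (if (v ∈ A e ∧ ∃ k, blk A K v + 2 ≤ k ∧ e ∈ mono A K T W c (a + 1) k) then 1 else 0) +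
        (if v ∈ A e then clo A K T e else 0) := by
    intro e _
    by_cases hv : v ∈ A e
    · rw [if_pos hv, ← Finset.card_filter]
      set Q := (U.filter (fun u => blk A K v + 2 ≤ blk A K u)).filter
        (fun u => e ∈ mono A K T W c a (blk A K u + 2) ∧ u ∈ A e ∧ v ∈ A e) with hQ
      have hQm : ∀ u ∈ Q, u ∈ U ∧ blk A K v + 2 ≤ blk A K u ∧
          e ∈ mono A K T W c a (blk A K u + 2) ∧ u ∈ A e := by
        intro u hu
        rw [hQ, Finset.mem_filter, Finset.mem_filter] at hu
        exact ⟨hu.1.1, hu.1.2, hu.2.1, hu.2.2.1⟩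
      let cl : V → Prop := fun u => ∀ u' ∈ A e, u' ∈ T → u' ≠ u → blk A K u ≤ blk A K u' →
        blk A K u + 2 ≤ blk A K u'
      rw [← Finset.card_filter_add_card_filter_not (s := Q) (fun u => cl u)]
      apply Nat.add_le_add
      · by_cases hne : (Q.filter (fun u => cl u)).Nonempty
        · obtain ⟨u, hu⟩ := hne
          rw [Finset.mem_filter] at hu
          have hu1 := hQm u hu.1
          have hev := gain_clean A K T W c a e u hu1.2.2.2 (hUT hu1.1) (hU u hu1.1) hu1.2.2.1 hu.2
          rw [if_pos ⟨hv, blk A K u, hu1.2.1, hev⟩]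
          apply Finset.card_le_one.2
          intro x hx y hy
          rw [Finset.mem_filter] at hx hy
          have hx1 := hQm x hx.1
          have hy1 := hQm y hy.1
          by_contra hxy
          rcases le_total (blk A K x) (blk A K y) with hle | hle
          · exact gain_unique A K T W c a e x y hy1.2.2.2 (hUT hy1.1) hx1.2.2.1 hy1.2.2.1 hx.2 hle
              (fun h => hxy h.symm)
          · exact gain_unique A K T W c a e y x hx1.2.2.2 (hUT hx1.1) hy1.2.2.1 hx1.2.2.1 hy.2 hle
              hxy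
        · rw [Finset.not_nonempty_iff_eq_empty] at hne
          rw [hne, Finset.card_empty]
          exact Nat.zero_le _
      · unfold clo
        refine le_trans (Finset.card_le_card ?_) (Finset.card_image_le (f := Prod.fst))
        intro u hu
        rw [Finset.mem_filter] at hu
        have hu1 := hQm u hu.1
        have hu2 : ¬ ∀ u' ∈ A e, u' ∈ T → u' ≠ u → blk A K u ≤ blk A K u' →
          blk A K u + 2 ≤ blk A K u' := hu.2
        push Not at hu2
        obtain ⟨u', h3, h4, h5, h6, h7⟩ := hu2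
        rw [Finset.mem_image]
        refine ⟨(u, u'), ?_, rfl⟩
        rw [Finset.mem_filter, Finset.mem_product, Finset.mem_inter, Finset.mem_inter]
        exact ⟨⟨⟨hu1.2.2.2, hUT hu1.1⟩, h3, h4⟩, h5.symm, by simp only; omega, by simp only; omega⟩
    · rw [Finset.sum_eq_zero]
      · exact Nat.zero_le _
      · intro u _
        rw [if_neg]
        exact fun h => hv h.2.2
  refine (Finset.sum_le_sum h2).trans (le_of_eq ?_)
  rw [Finset.sum_add_distrib, ← Finset.card_filter, ← Finset.sum_filter]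
  rfl

end Pool.Agent.Lib.MP_9b5ec2_co
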