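import Pool.Agent.Lib.MP_9b5ec2_co.Defs2

/-!
# Many good points (MP_9b5ec2_co)
-/

set_option autoImplicit false

namespace Pool.Agent.Lib.MP_9b5ec2_co

open Finset

section good_aux

variable {V ι : Type} [Fintype V] [DecidableEq V] [Fintype ι] [DecidableEq ι]

/-- The triples counted in `qcount`. -/
def goodTr (A : ι → Finset V) (K : ℕ) (T W : Finset V) (a : Bool → ℕ) (ρ : ℝ) (c : Bool) (u : V)
    (e : ι) (v : V) : Prop :=
  e ∈ mono A K T W c (a c) (blk A K u + 2) ∧ u ∈ A e ∧ v ∈ A e ∧ blk A K v + 2 ≤ blk A K u ∧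
    ripe A K T W a (ρ / 4) (blk A K u + 2) v

open Classical in
theorem good_qcount_eq (A : ι → Finset V) (K : ℕ) (T W : Finset V) (a : Bool → ℕ) (ρ : ℝ)
    (c : Bool) (u : V) :
    qcount A K T W a ρ c u = ∑ e, ∑ v, if goodTr A K T W a ρ c u e v then 1 else 0 := by
  unfold qcount
  rw [← Finset.sum_subset (Finset.subset_univ
    ((mono A K T W c (a c) (blk A K u + 2)).filter (fun e => u ∈ A e)))]
  · refine Finset.sum_congr rfl fun e he => ?_
    rw [Finset.mem_filter] at he
    rw [← Finset.card_filter]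
    congr 1
    ext v
    simp only [Finset.mem_filter, Finset.mem_univ, true_and, goodTr]
    constructor
    · rintro ⟨h1, h2, h3⟩
      exact ⟨he.1, he.2, h1, h2, h3⟩
    · rintro ⟨-, -, h1, h2, h3⟩
      exact ⟨h1, h2, h3⟩
  · intro e _ he
    refine Finset.sum_eq_zero fun v _ => if_neg fun h => he ?_
    rw [Finset.mem_filter]
    exact ⟨h.1, h.2.1⟩

open Classical in
theorem good_qcount_le (A : ι → Finset V) (K : ℕ) (s : ℝ) (T W : Finset V) (a : Bool → ℕ) (ρ : ℝ)
    (c : Bool) (u : V) (hA : ∀ e, ((A e).card : ℝ) ≤ 2 * s) :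
    (qcount A K T W a ρ c u : ℝ) ≤ 2 * s * (dg A u : ℝ) := by
  unfold qcount
  push_cast
  have h1 : ∀ e ∈ (mono A K T W c (a c) (blk A K u + 2)).filter (fun e => u ∈ A e),
      ((((A e).filter (fun v => blk A K v + 2 ≤ blk A K u ∧
        ripe A K T W a (ρ / 4) (blk A K u + 2) v)).card : ℕ) : ℝ) ≤ 2 * s := fun e _ =>
    le_trans (by exact_mod_cast Finset.card_filter_le _ _) (hA e)
  have h2 : ((mono A K T W c (a c) (blk A K u + 2)).filter (fun e => u ∈ A e)).card ≤ dg A u := by
    unfold dg deg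
    exact Finset.card_le_card (Finset.filter_subset_filter _ (Finset.subset_univ _))
  rcases (mono A K T W c (a c) (blk A K u + 2)).filter (fun e => u ∈ A e) |>.eq_empty_or_nonempty
    with h0 | ⟨e0, he0⟩
  · rw [h0, Finset.sum_empty]
    rcases isEmpty_or_nonempty ι with hι | ⟨⟨e⟩⟩
    · have : dg A u = 0 := by
        unfold dg deg
        rw [Finset.card_eq_zero]
        exact Finset.eq_empty_of_isEmpty _
      rw [this]
      simp
    · have : 0 ≤ 2 * s := le_trans (Nat.cast_nonneg _) (hA e)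
      positivity
  · have hs0 : 0 ≤ 2 * s := le_trans (Nat.cast_nonneg _) (hA e0)
    refine (Finset.sum_le_card_nsmul _ _ _ h1).trans ?_
    rw [nsmul_eq_mul, mul_comm]
    exact mul_le_mul_of_nonneg_left (by exact_mod_cast h2) hs0

end good_aux

theorem goodThm (h1 : RipeStmt) (h2 : TopStmt) : GoodStmt := by
  classical
  intro V ι _ _ _ _ A K s η ε x T W a hs hx hx1 hη hη2 hε hε2 hA hN hSp hR
  have hM : 0 ≤ mass A := Finset.sum_nonneg fun v _ => Nat.cast_nonneg _
  obtain ⟨Bad, hBad, hSpr⟩ := hSp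
  set R := reg A K T W a x with hRdef
  have hmem : ∀ v, v ∈ R ↔ ripe A K T W a x (blk A K v + 2) v := by
    intro v
    rw [hRdef]
    unfold reg
    rw [Finset.mem_filter]
    exact ⟨fun h => h.2, fun h => ⟨Finset.mem_univ _, h⟩⟩
  have hch : ∀ v, ∃ (c : Bool) (G : Finset ι), v ∈ R →
      G ⊆ (mono A K T W c (a c) (blk A K v + 2)).filter (fun e => v ∈ A e) ∧
      3 * deg A (mono A K T W c (a c) (blk A K v + 2)) v ≤ 4 * G.card ∧
      ∀ e ∈ G, ∀ k, blk A K v + 2 ≤ k → e ∈ mono A K T W c (a c) k →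
        ripe A K T W a (x / 4) k v := by
    intro v
    by_cases hv : v ∈ R
    · obtain ⟨c, G, h⟩ := h1 V ι A K T W a x v hx.le ((hmem v).1 hv)
      exact ⟨c, G, fun _ => h⟩
    · exact ⟨true, ∅, fun h => absurd h hv⟩
  choose cc GG hG using hch
  -- the colour
  have hcol : ∃ c : Bool, x / 2 * mass A ≤ ∑ v ∈ R.filter (fun v => cc v = c), (dg A v : ℝ) := by
    have hsplit : ∑ v ∈ R, (dg A v : ℝ) = ∑ v ∈ R.filter (fun v => cc v = true), (dg A v : ℝ) +
        ∑ v ∈ R.filter (fun v => cc v = false), (dg A v : ℝ) := by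
      rw [← Finset.sum_filter_add_sum_filter_not R (fun v => cc v = true)]
      congr 2
      ext v
      simp
    by_contra hcon
    push Not at hcon
    have e1 := hcon true
    have e2 := hcon false
    linarith
  obtain ⟨c, hc⟩ := hcol
  set Rc := R.filter (fun v => cc v = c) with hRc
  set κ : ℝ := x ^ 2 / 192 with hκ
  have hκ0 : 0 ≤ κ := by positivity
  -- the sets X_e
  set X : ι → Finset V := fun e => (A e ∩ R).filter
    (fun u => e ∈ mono A K T W c (a c) (blk A K u + 2)) with hX
  have hXm : ∀ e u, u ∈ X e ↔ u ∈ A e ∧ u ∈ R ∧ e ∈ mono A K T W c (a c) (blk A K u + 2) := by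
    intro e u
    rw [hX]
    simp only [Finset.mem_filter, Finset.mem_inter]
    tauto
  set low : ι → Finset V := fun e => (X e).filter (fun v =>
    (((X e).filter (fun u => blk A K v + 2 ≤ blk A K u)).card : ℝ) < κ * s) with hlow
  have hXA : ∀ e, X e ⊆ A e := fun e u hu => ((hXm e u).1 hu).1
  have hlowle : ∀ e, ((low e).card : ℝ) ≤ (κ + η) * s + (if e ∈ Bad then 2 * s else 0) := by
    intro e
    by_cases he : e ∈ Bad
    · rw [if_pos he]
      have e1 : (low e).card ≤ (A e).card :=
        Finset.card_le_card ((Finset.filter_subset _ _).trans (hXA e))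
      have e2 : ((low e).card : ℝ) ≤ ((A e).card : ℝ) := by exact_mod_cast e1
      have e3 := hA e
      have e4 : 0 ≤ (κ + η) * s := by positivity
      linarith
    · rw [if_neg he, add_zero]
      have e1 := (h2 V (X e) (fun v => blk A K v) (κ * s) (η * s) (by positivity) (by
        intro i
        have e2 := hSpr e he i
        refine le_trans ?_ e2
        have : ((X e).filter (fun v => blk A K v = i ∨ blk A K v = i + 1)).card ≤
          ((A e).filter (fun v => blk A K v = i ∨ blk A K v = i + 1)).card :=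
          Finset.card_le_card (Finset.filter_subset_filter _ (hXA e))
        exact_mod_cast this)).1
      rw [add_mul]
      exact e1
  have hlowsum : ∑ e, ((low e).card : ℝ) ≤ x ^ 2 / 16 * mass A := by
    calc ∑ e, ((low e).card : ℝ) ≤ ∑ e, ((κ + η) * s + (if e ∈ Bad then 2 * s else 0)) :=
          Finset.sum_le_sum fun e _ => hlowle e
      _ = (Fintype.card ι : ℝ) * ((κ + η) * s) + (Bad.card : ℝ) * (2 * s) := by
          rw [Finset.sum_add_distrib, Finset.sum_const, Finset.sum_ite_mem, Finset.univ_inter,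
            Finset.sum_const, nsmul_eq_mul, nsmul_eq_mul, Finset.card_univ]
      _ ≤ (Fintype.card ι : ℝ) * ((κ + η) * s) + (ε * (Fintype.card ι : ℝ)) * (2 * s) := by
          have : (0 : ℝ) ≤ 2 * s := by linarith
          linarith [mul_le_mul_of_nonneg_right hBad this]
      _ = ((Fintype.card ι : ℝ) * s) * (κ + η + 2 * ε) := by ring
      _ ≤ (4 * mass A) * (κ + η + 2 * ε) := by
          refine mul_le_mul_of_nonneg_right hN (by positivity)
      _ ≤ (4 * mass A) * (3 * κ) := by
          refine mul_le_mul_of_nonneg_left ?_ (by positivity)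
          linarith
      _ = x ^ 2 / 16 * mass A := by rw [hκ]; ring
  -- the edges with few points above
  set F : V → Finset ι := fun v => (mono A K T W c (a c) (blk A K v + 2)).filter
    (fun e => v ∈ A e) with hF
  have hFdeg : ∀ v, deg A (mono A K T W c (a c) (blk A K v + 2)) v = (F v).card := fun v => rfl
  have hFx : ∀ v ∈ R, x * (dg A v : ℝ) ≤ ((F v).card : ℝ) := fun v hv => ((hmem v).1 hv) c
  set lowE : V → Finset ι := fun v => univ.filter (fun e => v ∈ low e) with hlowE
  have hdc : ∑ v, ((lowE v).card : ℝ) = ∑ e, ((low e).card : ℝ) := by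
    have e1 : ∀ v, ((lowE v).card : ℝ) = ∑ e, if v ∈ low e then (1 : ℝ) else 0 := by
      intro v
      rw [hlowE]
      simp
    have e2 : ∀ e, ((low e).card : ℝ) = ∑ v, if v ∈ low e then (1 : ℝ) else 0 := by
      intro e
      simp
    rw [Finset.sum_congr rfl fun v _ => e1 v, Finset.sum_congr rfl fun e _ => e2 e,
      Finset.sum_comm]
  set Rest := Rc.filter (fun v => 4 * (lowE v).card < (F v).card) with hRest
  have hD1 : x * ∑ v ∈ Rc.filter (fun v => ¬ 4 * (lowE v).card < (F v).card), (dg A v : ℝ) ≤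
      x ^ 2 / 4 * mass A := by
    rw [Finset.mul_sum]
    calc ∑ v ∈ Rc.filter (fun v => ¬ 4 * (lowE v).card < (F v).card), x * (dg A v : ℝ)
        ≤ ∑ v ∈ Rc.filter (fun v => ¬ 4 * (lowE v).card < (F v).card), 4 * ((lowE v).card : ℝ) := by
          refine Finset.sum_le_sum fun v hv => ?_
          rw [Finset.mem_filter, hRc, Finset.mem_filter, not_lt] at hv
          refine (hFx v hv.1.1).trans ?_
          exact_mod_cast hv.2
      _ ≤ ∑ v, 4 * ((lowE v).card : ℝ) :=
          Finset.sum_le_sum_of_subset_of_nonneg (Finset.subset_univ _) fun v _ _ => by positivity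
      _ = 4 * ∑ e, ((low e).card : ℝ) := by rw [← Finset.mul_sum, hdc]
      _ ≤ 4 * (x ^ 2 / 16 * mass A) := by linarith
      _ = x ^ 2 / 4 * mass A := by ring
  have hD1' : ∑ v ∈ Rc.filter (fun v => ¬ 4 * (lowE v).card < (F v).card), (dg A v : ℝ) ≤
      x / 4 * mass A := by
    have : x * ∑ v ∈ Rc.filter (fun v => ¬ 4 * (lowE v).card < (F v).card), (dg A v : ℝ) ≤
        x * (x / 4 * mass A) := by
      refine hD1.trans (le_of_eq ?_)
      ring
    exact le_of_mul_le_mul_left this hx
  have hRestM : x / 4 * mass A ≤ ∑ v ∈ Rest, (dg A v : ℝ) := by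
    have := Finset.sum_filter_add_sum_filter_not Rc (fun v => 4 * (lowE v).card < (F v).card)
      (fun v => (dg A v : ℝ))
    linarith
  -- lower bound for the triples through v
  have hvlow : ∀ v ∈ Rest, x / 2 * (dg A v : ℝ) * (κ * s) ≤
      ∑ e, ∑ u ∈ R, if goodTr A K T W a x c u e v then (1 : ℝ) else 0 := by
    intro v hv
    rw [hRest, Finset.mem_filter, hRc, Finset.mem_filter] at hv
    obtain ⟨⟨hvR, hvc⟩, hv4⟩ := hv
    obtain ⟨g1, g2, g3⟩ := hG v hvR
    rw [hvc] at g1 g2 g3
    rw [hFdeg] at g2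
    have hcard : x / 2 * (dg A v : ℝ) ≤ ((GG v \ lowE v).card : ℝ) := by
      have e1 : (GG v).card ≤ (GG v \ lowE v).card + (lowE v).card :=
        Finset.card_le_card_sdiff_add_card
      have e2 : 2 * (F v).card ≤ 4 * (GG v \ lowE v).card := by omega
      have e3 : (2 : ℝ) * ((F v).card : ℝ) ≤ 4 * ((GG v \ lowE v).card : ℝ) := by
        exact_mod_cast e2
      have e4 := hFx v hvR
      linarith
    have hin : ∀ e ∈ GG v \ lowE v, κ * s ≤
        ∑ u ∈ R, if goodTr A K T W a x c u e v then (1 : ℝ) else 0 := by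
      intro e he
      rw [Finset.mem_sdiff] at he
      obtain ⟨heG, heL⟩ := he
      have heF := g1 heG
      rw [Finset.mem_filter] at heF
      have hvX : v ∈ X e := (hXm e v).2 ⟨heF.2, hvR, heF.1⟩
      have hvl : v ∉ low e := by
        intro h
        apply heL
        rw [hlowE]
        simp only [Finset.mem_filter, Finset.mem_univ, true_and]
        exact h
      have hge : κ * s ≤ (((X e).filter (fun u => blk A K v + 2 ≤ blk A K u)).card : ℝ) := by
        by_contra hcon
        rw [not_le] at hcon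
        apply hvl
        rw [hlow]
        simp only [Finset.mem_filter]
        exact ⟨hvX, hcon⟩
      refine hge.trans ?_
      rw [← Finset.sum_filter, Finset.sum_const, nsmul_eq_mul, mul_one]
      have : (X e).filter (fun u => blk A K v + 2 ≤ blk A K u) ⊆
          R.filter (fun u => goodTr A K T W a x c u e v) := by
        intro u hu
        rw [Finset.mem_filter, hXm] at hu
        obtain ⟨⟨hu1, hu2, hu3⟩, hu4⟩ := hu
        rw [Finset.mem_filter]
        exact ⟨hu2, hu3, hu1, heF.2, hu4, g3 e heG _ (by omega) hu3⟩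
      exact_mod_cast Finset.card_le_card this
    calc x / 2 * (dg A v : ℝ) * (κ * s) ≤ ((GG v \ lowE v).card : ℝ) * (κ * s) :=
          mul_le_mul_of_nonneg_right hcard (by positivity)
      _ = ∑ e ∈ GG v \ lowE v, κ * s := by rw [Finset.sum_const, nsmul_eq_mul]
      _ ≤ ∑ e ∈ GG v \ lowE v, ∑ u ∈ R, (if goodTr A K T W a x c u e v then (1 : ℝ) else 0) :=
          Finset.sum_le_sum hin
      _ ≤ ∑ e, ∑ u ∈ R, (if goodTr A K T W a x c u e v then (1 : ℝ) else 0) :=
          Finset.sum_le_sum_of_subset_of_nonneg (Finset.subset_univ _) fun e _ _ =>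
            Finset.sum_nonneg fun u _ => by split_ifs <;> norm_num
  have hq : ∑ u ∈ R, (qcount A K T W a x c u : ℝ) =
      ∑ v, ∑ e, ∑ u ∈ R, if goodTr A K T W a x c u e v then (1 : ℝ) else 0 := by
    have e1 : ∀ u, (qcount A K T W a x c u : ℝ) =
        ∑ e, ∑ v, if goodTr A K T W a x c u e v then (1 : ℝ) else 0 := by
      intro u
      rw [good_qcount_eq]
      push_cast
      rfl
    rw [Finset.sum_congr rfl fun u _ => e1 u, Finset.sum_comm]
    rw [Finset.sum_congr rfl fun e _ => Finset.sum_comm, Finset.sum_comm]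
  set c₁ : ℝ := x ^ 4 / 1536 with hc₁
  have hqlow : c₁ * mass A * s ≤ ∑ u ∈ R, (qcount A K T W a x c u : ℝ) := by
    rw [hq]
    calc c₁ * mass A * s = x / 4 * mass A * (x / 2 * (κ * s)) := by rw [hc₁, hκ]; ring
      _ ≤ (∑ v ∈ Rest, (dg A v : ℝ)) * (x / 2 * (κ * s)) :=
          mul_le_mul_of_nonneg_right hRestM (by positivity)
      _ = ∑ v ∈ Rest, x / 2 * (dg A v : ℝ) * (κ * s) := by
          rw [Finset.sum_mul]
          refine Finset.sum_congr rfl fun v _ => ?_
          ring
      _ ≤ ∑ v ∈ Rest, ∑ e, ∑ u ∈ R, (if goodTr A K T W a x c u e v then (1 : ℝ) else 0) :=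
          Finset.sum_le_sum hvlow
      _ ≤ _ := Finset.sum_le_sum_of_subset_of_nonneg (Finset.subset_univ _) fun v _ _ =>
            Finset.sum_nonneg fun e _ => Finset.sum_nonneg fun u _ => by split_ifs <;> norm_num
  -- the good points
  set R₁ : Finset V := univ.filter (fun v => good A K s c₁ T W a x c v) with hR₁
  have hR₁m : ∀ v, v ∈ R₁ ↔ good A K s c₁ T W a x c v := by
    intro v
    rw [hR₁, Finset.mem_filter]
    exact ⟨fun h => h.2, fun h => ⟨Finset.mem_univ _, h⟩⟩
  refine ⟨c, R₁, hR₁m, ?_⟩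
  have hup : ∑ u ∈ R, (qcount A K T W a x c u : ℝ) ≤
      2 * s * ∑ v ∈ R₁, (dg A v : ℝ) + c₁ / 2 * s * mass A := by
    calc ∑ u ∈ R, (qcount A K T W a x c u : ℝ)
        ≤ ∑ u ∈ R, ((if u ∈ R₁ then 2 * s * (dg A u : ℝ) else 0) + c₁ / 2 * s * (dg A u : ℝ)) := by
          refine Finset.sum_le_sum fun u hu => ?_
          have e0 : 0 ≤ c₁ / 2 * s * (dg A u : ℝ) := by positivity
          by_cases hu1 : u ∈ R₁
          · rw [if_pos hu1]
            have := good_qcount_le A K s T W a x c u hA
            linarith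
          · rw [if_neg hu1, zero_add]
            by_contra hcon
            rw [not_le] at hcon
            exact hu1 ((hR₁m u).2 ⟨(hmem u).1 hu, hcon.le⟩)
      _ = ∑ u ∈ R, (if u ∈ R₁ then 2 * s * (dg A u : ℝ) else 0) +
            ∑ u ∈ R, c₁ / 2 * s * (dg A u : ℝ) := Finset.sum_add_distrib
      _ ≤ ∑ u, (if u ∈ R₁ then 2 * s * (dg A u : ℝ) else 0) +
            ∑ u, c₁ / 2 * s * (dg A u : ℝ) := by
          refine add_le_add ?_ ?_
          · refine Finset.sum_le_sum_of_subset_of_nonneg (Finset.subset_univ _) fun u _ _ => ?_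
            split_ifs
            · positivity
            · exact le_rfl
          · refine Finset.sum_le_sum_of_subset_of_nonneg (Finset.subset_univ _) fun u _ _ => ?_
            positivity
      _ = _ := by
          rw [Finset.sum_ite_mem, Finset.univ_inter, ← Finset.mul_sum, ← Finset.mul_sum]
          rfl
  have hfin : c₁ / 2 * mass A * s ≤ (2 * ∑ v ∈ R₁, (dg A v : ℝ)) * s := by
    have e1 := hqlow.trans hup
    nlinarith
  have hs0 : 0 < s := by linarith
  have := le_of_mul_le_mul_right hfin hs0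
  linarith

end Pool.Agent.Lib.MP_9b5ec2_co
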