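import Pool.Agent.Lib.MP_9b5ec2_co.Defs

/-!
# Representatives at the scale `s`
-/

set_option autoImplicit false
set_option linter.unusedSectionVars false

namespace Pool.Agent.Lib.MP_9b5ec2_co

open Finset

section Greedy

variable {V ι : Type} [Fintype V] [DecidableEq V]

/-- The number of entries of `l` whose edge contains `v`. -/
def grL (A : ι → Finset V) (l : List ι) (v : V) : ℕ := l.countP (fun f => decide (v ∈ A f))

/-- The points of load at least `Δ`. -/
def grO (A : ι → Finset V) (Δ : ℕ) (l : List ι) : Finset V :=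
  univ.filter (fun v => Δ ≤ grL A l v)

/-- Valid lists. -/
def grValid (A : ι → Finset V) (Δ : ℕ) (γ s : ℝ) : List ι → Prop
  | [] => True
  | e :: l => grValid A Δ γ s l ∧ s ≤ ((A e).card : ℝ) ∧ ((A e).card : ℝ) < 2 * s ∧
      (∀ f ∈ l, ((A e ∩ A f).card : ℝ) < γ * s) ∧ ((A e ∩ grO A Δ l).card : ℝ) < s / 2

/-- The size of the core at `v`. -/
def grC (A : ι → Finset V) (Δ : ℕ) : List ι → V → ℕ
  | [], _ => 0
  | e :: l, v => grC A Δ l v + if v ∈ A e \ grO A Δ l then 1 else 0

theorem grL_cons (A : ι → Finset V) (e : ι) (l : List ι) (v : V) :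
    grL A (e :: l) v = grL A l v + if v ∈ A e then 1 else 0 := by
  simp [grL, List.countP_cons]

theorem grC_le (A : ι → Finset V) (Δ : ℕ) (l : List ι) (v : V) :
    grC A Δ l v ≤ grL A l v := by
  induction l with
  | nil => simp [grC]
  | cons e l ih =>
    rw [grL_cons, grC]
    have : (if v ∈ A e \ grO A Δ l then 1 else 0) ≤ (if v ∈ A e then 1 else 0) := by
      by_cases h : v ∈ A e
      · rw [if_pos h]
        split_ifs <;> omega
      · simp [h]
    omega

theorem grC_le_load (A : ι → Finset V) (Δ : ℕ) (l : List ι) (v : V) :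
    grC A Δ l v ≤ Δ := by
  induction l with
  | nil => simp [grC]
  | cons e l ih =>
    rw [grC]
    split_ifs with h
    · have h1 : v ∉ grO A Δ l := (Finset.mem_sdiff.mp h).2
      have h2 : grL A l v < Δ := by
        by_contra hc
        push Not at hc
        exact h1 (by simp [grO, hc])
      have h3 := grC_le A Δ l v
      omega
    · omega

theorem gr_sumL (A : ι → Finset V) (Δ : ℕ) (γ s : ℝ) (l : List ι)
    (h : grValid A Δ γ s l) : (∑ v, (grL A l v : ℝ)) ≤ 2 * s * l.length := by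
  induction l with
  | nil => simp [grL]
  | cons e l ih =>
    obtain ⟨h1, _, h3, _, _⟩ := h
    have h4 : ∑ v, (grL A (e :: l) v : ℝ) = ∑ v, (grL A l v : ℝ) + ((A e).card : ℝ) := by
      simp only [grL_cons, Nat.cast_add, Finset.sum_add_distrib]
      congr 1
      rw [← Nat.cast_sum, ← Finset.card_filter]
      simp
    rw [h4, List.length_cons]
    push_cast
    linarith [ih h1]

theorem gr_sumC (A : ι → Finset V) (Δ : ℕ) (γ s : ℝ) (l : List ι)
    (h : grValid A Δ γ s l) : l.length * s / 2 ≤ ∑ v, (grC A Δ l v : ℝ) := by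
  induction l with
  | nil => simp [grC]
  | cons e l ih =>
    obtain ⟨h1, h2, _, _, h5⟩ := h
    have h4 : ∑ v, (grC A Δ (e :: l) v : ℝ) =
        ∑ v, (grC A Δ l v : ℝ) + ((A e \ grO A Δ l).card : ℝ) := by
      simp only [grC, Nat.cast_add, Finset.sum_add_distrib]
      congr 1
      rw [← Nat.cast_sum, ← Finset.card_filter]
      congr 2
      ext x
      simp
    have h6 : ((A e \ grO A Δ l).card : ℝ) + ((A e ∩ grO A Δ l).card : ℝ) = ((A e).card : ℝ) := by
      exact_mod_cast Finset.card_sdiff_add_card_inter (A e) (grO A Δ l)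
    rw [h4, List.length_cons]
    push_cast
    linarith [ih h1]

theorem gr_size (A : ι → Finset V) (Δ : ℕ) (γ s : ℝ) (l : List ι)
    (h : grValid A Δ γ s l) : ∀ e ∈ l, ((A e).card : ℝ) ≤ 2 * s := by
  induction l with
  | nil => simp
  | cons e l ih =>
    obtain ⟨h1, _, h3, _, _⟩ := h
    intro f hf
    rcases List.mem_cons.mp hf with rfl | hf
    · exact h3.le
    · exact ih h1 f hf

theorem gr_pairwise (A : ι → Finset V) (Δ : ℕ) (γ s : ℝ) (l : List ι)
    (h : grValid A Δ γ s l) : l.Pairwise (fun e f => ((A e ∩ A f).card : ℝ) ≤ γ * s) := by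
  induction l with
  | nil => simp
  | cons e l ih =>
    obtain ⟨h1, _, _, h4, _⟩ := h
    rw [List.pairwise_cons]
    exact ⟨fun f hf => (h4 f hf).le, ih h1⟩

theorem gr_map_sum (A : ι → Finset V) (l : List ι) (v : V) :
    (List.map (fun f => if v ∈ A f then 1 else 0) l).sum = l.countP (fun f => decide (v ∈ A f)) := by
  induction l with
  | nil => simp
  | cons e l ih =>
    rw [List.map_cons, List.sum_cons, List.countP_cons, ih]
    simp [add_comm]

theorem gr_deg (A : ι → Finset V) (l : List ι) (v : V) :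
    deg (fun i : Fin l.length => A l[i.1]) univ v = grL A l v := by
  unfold deg grL
  rw [Finset.card_filter]
  have h := Fin.sum_univ_fun_getElem l (fun f => if v ∈ A f then 1 else 0)
  exact h.trans (gr_map_sum A l v)

theorem gr_length (D c₀ Λ γ s₀ : ℝ) (m : ℕ) (hD : D = 256) (hc : c₀ = 1 / 4) (hΛ : 1 ≤ Λ)
    (hB : ∀ (V ι : Type) [Fintype V] [DecidableEq V] [Fintype ι] [DecidableEq ι]
        (A : ι → Finset V) (s lam : ℝ), TwoCol m A → s₀ ≤ s → 0 < Fintype.card V →
        (∀ e, ((A e).card : ℝ) ≤ 2 * s) →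
        (∀ e f, e ≠ f → ((A e ∩ A f).card : ℝ) ≤ γ * s) →
        (Fintype.card ι : ℝ) * s = lam * (Fintype.card V : ℝ) → Λ ≤ lam →
        c₀ * lam * (Fintype.card V : ℝ) ≤
          ∑ v ∈ univ.filter (fun v => (deg A univ v : ℝ) ≤ D * lam), (deg A univ v : ℝ) →
        False)
    (A : ι → Finset V) (Δ : ℕ) (s : ℝ) (hΔ : (Δ : ℝ) ≤ 32 * Λ) (hA : TwoCol m A) (hs : s₀ ≤ s)
    (hn : 0 < Fintype.card V) (l : List ι)
    (hl : grValid A Δ γ s l) : (l.length : ℝ) * s < Λ * (Fintype.card V : ℝ) := by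
  by_contra hcon
  push Not at hcon
  set n : ℝ := (Fintype.card V : ℝ) with hnn
  have hn0 : 0 < n := by rw [hnn]; exact_mod_cast hn
  set lam : ℝ := (l.length : ℝ) * s / n with hlam
  have hlamn : lam * n = (l.length : ℝ) * s := by rw [hlam]; field_simp
  have hΛlam : Λ ≤ lam := by rw [hlam, le_div_iff₀ hn0]; exact hcon
  have hlam0 : 0 < lam := by linarith
  have hsumL := gr_sumL A Δ γ s l hl
  have hsumC := gr_sumC A Δ γ s l hl
  set H : Finset V := univ.filter (fun v => ¬ ((grL A l v : ℝ) ≤ 256 * lam)) with hH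
  set G : Finset V := univ.filter (fun v => (grL A l v : ℝ) ≤ 256 * lam) with hG
  have hHc : (256 * lam) * (H.card : ℝ) ≤ 2 * (lam * n) := by
    have h1 : ∑ v ∈ H, (256 * lam) ≤ ∑ v ∈ H, (grL A l v : ℝ) := by
      apply Finset.sum_le_sum
      intro v hv
      have := (Finset.mem_filter.mp hv).2
      push Not at this
      exact this.le
    have h2 : ∑ v ∈ H, (grL A l v : ℝ) ≤ ∑ v, (grL A l v : ℝ) :=
      Finset.sum_le_sum_of_subset_of_nonneg (Finset.subset_univ _)
        (fun v _ _ => Nat.cast_nonneg _)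
    rw [Finset.sum_const, nsmul_eq_mul] at h1
    rw [hlamn]
    linarith
  have hHc' : (H.card : ℝ) ≤ n / 128 := by
    have : lam * (256 * (H.card : ℝ)) ≤ lam * (2 * n) := by linarith
    have := le_of_mul_le_mul_left this hlam0
    linarith
  have hHC : ∑ v ∈ H, (grC A Δ l v : ℝ) ≤ lam * n / 4 := by
    have h1 : ∑ v ∈ H, (grC A Δ l v : ℝ) ≤ ∑ v ∈ H, (32 * Λ) := by
      apply Finset.sum_le_sum
      intro v _
      exact le_trans (by exact_mod_cast grC_le_load A Δ l v) hΔ
    rw [Finset.sum_const, nsmul_eq_mul] at h1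
    have h2 : (H.card : ℝ) * (32 * Λ) ≤ n / 128 * (32 * lam) :=
      mul_le_mul hHc' (by linarith) (by linarith) (by positivity)
    linarith
  have hsplit : ∑ v, (grC A Δ l v : ℝ) = ∑ v ∈ G, (grC A Δ l v : ℝ) +
      ∑ v ∈ H, (grC A Δ l v : ℝ) := (Finset.sum_filter_add_sum_filter_not _ _ _).symm
  have hGC : lam * n / 4 ≤ ∑ v ∈ G, (grL A l v : ℝ) := by
    have h1 : ∑ v ∈ G, (grC A Δ l v : ℝ) ≤ ∑ v ∈ G, (grL A l v : ℝ) := by
      apply Finset.sum_le_sum
      intro v _
      exact_mod_cast grC_le A Δ l v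
    linarith
  refine hB V (Fin l.length) (fun i => A l[i.1]) s lam ?_ hs hn ?_ ?_ ?_ hΛlam ?_
  · intro S
    obtain ⟨R, hR⟩ := hA S
    exact ⟨R, fun i hi => hR _ hi⟩
  · intro i
    exact gr_size A Δ γ s l hl _ (List.getElem_mem _)
  · intro i j hij
    have hp := List.pairwise_iff_getElem.mp (gr_pairwise A Δ γ s l hl)
    rcases lt_or_gt_of_ne (fun h => hij (Fin.ext h) : (i : ℕ) ≠ (j : ℕ)) with h | h
    · exact hp i j i.2 j.2 h
    · rw [Finset.inter_comm]
      exact hp j i j.2 i.2 h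
  · rw [Fintype.card_fin, hlamn]
  · simp only [gr_deg]
    rw [hD, hc]
    have : 1 / 4 * lam * n = lam * n / 4 := by ring
    rw [this]
    exact hGC

end Greedy

theorem greedy (h : LemmaBStmt) : GreedyStmt := by
  classical
  intro m hm
  obtain ⟨Λ, γ, s₀, hΛ, hγ, hγ1, hs₀, hB⟩ := h m 256 (1 / 4) hm (by norm_num) (by norm_num)
  refine ⟨Λ, γ, s₀, by linarith, hγ, hs₀, ?_⟩
  intro V ι _ _ _ A s hA hs
  have hs0 : 0 < s := lt_of_lt_of_le hs₀ hs
  rcases Nat.eq_zero_or_pos (Fintype.card V) with hn | hn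
  · refine ⟨∅, ∅, by simp [hn], by simp, by simp, ?_⟩
    intro e he
    exfalso
    have h1 : (A e).card ≤ 0 := by
      rw [← hn]
      exact Finset.card_le_univ _
    have h2 : ((A e).card : ℝ) ≤ 0 := by exact_mod_cast h1
    linarith
  · set Δ : ℕ := ⌈16 * Λ⌉₊ with hΔ
    have hΔ1 : 16 * Λ ≤ (Δ : ℝ) := Nat.le_ceil _
    have hΔ2 : (Δ : ℝ) ≤ 32 * Λ := by
      have := Nat.ceil_lt_add_one (show 0 ≤ 16 * Λ by linarith)
      rw [← hΔ] at this
      linarith
    have hlen := fun l => gr_length 256 (1 / 4) Λ γ s₀ m rfl rfl hΛ hB A Δ s hΔ2 hA hs hn l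
    have hn0 : (0 : ℝ) < (Fintype.card V : ℝ) := by exact_mod_cast hn
    -- a valid list that cannot be extended
    obtain ⟨l, hl, hmax⟩ : ∃ l, grValid A Δ γ s l ∧ ∀ e, ¬ grValid A Δ γ s (e :: l) := by
      by_contra hcon
      push Not at hcon
      have hall : ∀ N : ℕ, ∃ l, grValid A Δ γ s l ∧ l.length = N := by
        intro N
        induction N with
        | zero => exact ⟨[], trivial, rfl⟩
        | succ N ih =>
          obtain ⟨l, hl, hN⟩ := ih
          obtain ⟨e, he⟩ := hcon l hl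
          exact ⟨e :: l, he, by rw [List.length_cons, hN]⟩
      obtain ⟨N, hN⟩ := exists_nat_ge (Λ * (Fintype.card V : ℝ) / s)
      obtain ⟨l, hl, hlN⟩ := hall N
      have := hlen l hl
      rw [hlN] at this
      rw [div_le_iff₀ hs0] at hN
      linarith
    have hNs := hlen l hl
    refine ⟨l.toFinset, grO A Δ l, ?_, ?_, ?_, ?_⟩
    · have h1 : (l.toFinset.card : ℝ) ≤ (l.length : ℝ) := by
        exact_mod_cast List.toFinset_card_le l
      have := mul_le_mul_of_nonneg_right h1 hs0.le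
      linarith
    · have h1 := gr_sumL A Δ γ s l hl
      have h2 : ∑ v ∈ grO A Δ l, (Δ : ℝ) ≤ ∑ v, (grL A l v : ℝ) := by
        calc ∑ v ∈ grO A Δ l, (Δ : ℝ) ≤ ∑ v ∈ grO A Δ l, (grL A l v : ℝ) := by
              apply Finset.sum_le_sum
              intro v hv
              exact_mod_cast (Finset.mem_filter.mp hv).2
          _ ≤ _ := Finset.sum_le_sum_of_subset_of_nonneg (Finset.subset_univ _)
              (fun v _ _ => Nat.cast_nonneg _)
      rw [Finset.sum_const, nsmul_eq_mul] at h2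
      have h3 : ((grO A Δ l).card : ℝ) * (16 * Λ) ≤ 2 * (Λ * (Fintype.card V : ℝ)) := by
        have := mul_le_mul_of_nonneg_left hΔ1 (Nat.cast_nonneg (α := ℝ) (grO A Δ l).card)
        linarith
      have h4 : Λ * (8 * ((grO A Δ l).card : ℝ)) ≤ Λ * (Fintype.card V : ℝ) := by linarith
      have h5 := le_of_mul_le_mul_left h4 (by linarith)
      exact_mod_cast h5
    · intro e he
      exact gr_size A Δ γ s l hl e (List.mem_toFinset.mp he)
    · intro e he1 he2
      by_contra hcon
      push Not at hcon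
      exact hmax e ⟨hl, he1, he2, fun f hf => hcon.1 f (List.mem_toFinset.mpr hf), hcon.2⟩

end Pool.Agent.Lib.MP_9b5ec2_co
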