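import Pool.Agent.Lib.MP_9b5ec2_co.Defs4

/-!
# Greedy choice of disjoint nets with an exponential potential (MP_9b5ec2_co)
-/

set_option autoImplicit false

namespace Pool.Agent.Lib.MP_9b5ec2_co

open Finset

namespace GreedyNetsAux

/-- an averaging argument: some point of positive weight is good and has a small value -/
theorem average {T : Type} [Fintype T] (q f : T → ℝ) (b : T → Prop) [DecidablePred b] (x Ψ : ℝ)
    (hq : ∀ t, 0 ≤ q t) (h1 : ∑ t, q t = 1) (hx0 : 0 ≤ x) (hx : x ≤ 1 / 2) (hΨ : 0 < Ψ)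
    (hf : ∀ t, 0 < f t) (hb : ∑ t, q t * (if b t then (1 : ℝ) else 0) ≤ x)
    (hfq : ∑ t, q t * f t ≤ Real.exp x * Ψ) :
    ∃ t, q t ≠ 0 ∧ ¬ b t ∧ f t ≤ Real.exp (3 * x) * Ψ := by
  by_contra hcon
  push Not at hcon
  have e3 : 0 < Real.exp (3 * x) := Real.exp_pos _
  have ex : 0 < Real.exp x := Real.exp_pos _
  have key : ∀ t, q t ≠ 0 →
      Real.exp (3 * x) * Ψ < f t + Real.exp (3 * x) * Ψ * (if b t then (1 : ℝ) else 0) := by
    intro t ht
    by_cases hbt : b t
    · rw [if_pos hbt]
      have := hf t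
      linarith
    · rw [if_neg hbt]
      have := hcon t ht hbt
      linarith
  have h2 : ∑ t, q t * (Real.exp (3 * x) * Ψ) <
      ∑ t, q t * (f t + Real.exp (3 * x) * Ψ * (if b t then (1 : ℝ) else 0)) := by
    refine Finset.sum_lt_sum (fun t _ => ?_) ?_
    · by_cases ht : q t = 0
      · rw [ht, zero_mul, zero_mul]
      · exact mul_le_mul_of_nonneg_left (key t ht).le (hq t)
    · by_contra hno
      push Not at hno
      have h3 : ∑ t, q t = 0 := by
        refine Finset.sum_eq_zero fun t _ => ?_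
        by_contra ht
        have h4 : 0 < q t := lt_of_le_of_ne (hq t) (Ne.symm ht)
        have h5 := hno t (Finset.mem_univ t)
        have h6 := mul_lt_mul_of_pos_left (key t ht) h4
        linarith
      rw [h1] at h3
      exact one_ne_zero h3
  have h3 : ∑ t, q t * (f t + Real.exp (3 * x) * Ψ * (if b t then (1 : ℝ) else 0)) =
      ∑ t, q t * f t + Real.exp (3 * x) * Ψ * ∑ t, q t * (if b t then (1 : ℝ) else 0) := by
    rw [Finset.mul_sum, ← Finset.sum_add_distrib]
    exact Finset.sum_congr rfl fun t _ => by ring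
  rw [h3, ← Finset.sum_mul, h1, one_mul] at h2
  have h4 : Real.exp (3 * x) * Ψ * ∑ t, q t * (if b t then (1 : ℝ) else 0) ≤
      Real.exp (3 * x) * Ψ * x := mul_le_mul_of_nonneg_left hb (by positivity)
  have h5 : Real.exp (3 * x) * Ψ * (1 - x) < Real.exp x * Ψ := by
    linarith
  have h6 : Real.exp (3 * x) = Real.exp x * Real.exp (2 * x) := by
    rw [← Real.exp_add]
    congr 1
    ring
  have h7 : 1 ≤ Real.exp (2 * x) * (1 - x) := by
    have h8 := Real.add_one_le_exp (2 * x)
    have h9 : (2 * x + 1) * (1 - x) ≤ Real.exp (2 * x) * (1 - x) :=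
      mul_le_mul_of_nonneg_right h8 (by linarith)
    nlinarith
  rw [h6] at h5
  have h10 : Real.exp x * Ψ * 1 ≤ Real.exp x * Ψ * (Real.exp (2 * x) * (1 - x)) :=
    mul_le_mul_of_nonneg_left h7 (by positivity)
  nlinarith

variable {V ι : Type} [Fintype V] [DecidableEq V] [Fintype ι] [DecidableEq ι]

/-- the potential -/
noncomputable def pot (l : ℝ) (Gs : Finset (Finset V)) (W : Finset V) : ℝ :=
  ∑ G ∈ Gs, Real.exp (l * ((G ∩ W).card : ℝ))

open Classical in
theorem step (A : ι → Finset V) (s l E : ℝ) (Gs : Finset (Finset V)) (k : ℕ) (hl : 0 < l)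
    (hE : 0 ≤ E) (hlE : l * E ≤ 1 / 2) (hGs : Gs.Nonempty)
    (htest : ∀ i, s ≤ ((A i).card : ℝ) → ∃ G ∈ Gs, G ⊆ A i ∧ s ≤ (G.card : ℝ))
    (hq : ∀ U : Finset V, ∃ q : Finset V → ℝ, (∀ T, 0 ≤ q T) ∧ ∑ T, q T = 1 ∧
      (∀ T, q T ≠ 0 → T ⊆ U) ∧
      ∑ T, q T * (if ∃ i, s / 2 ≤ ((A i ∩ U).card : ℝ) ∧ A i ∩ T = ∅ then (1 : ℝ) else 0) ≤
        l * E ∧
      ∀ G ∈ Gs, ∑ T, q T * Real.exp (l * ((T ∩ G).card : ℝ)) ≤ Real.exp (l * E))
    (hlog : Real.log (Gs.card : ℝ) + 3 * (l * E) * k ≤ l * (s / 2)) (W : Finset V) (j : ℕ)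
    (hj : j < k) (hW : pot l Gs W ≤ Gs.card * Real.exp (3 * (l * E) * j)) :
    ∃ T : Finset V, Disjoint W T ∧ (∀ i, s ≤ ((A i).card : ℝ) → (A i ∩ T).Nonempty) ∧
      pot l Gs (W ∪ T) ≤ Gs.card * Real.exp (3 * (l * E) * (j + 1 : ℕ)) := by
  have hx0 : 0 ≤ l * E := mul_nonneg hl.le hE
  have hcard : (0 : ℝ) < Gs.card := by exact_mod_cast Finset.card_pos.mpr hGs
  -- every relevant edge has at least `s / 2` points outside `W`
  have hhalf : ∀ i, s ≤ ((A i).card : ℝ) → s / 2 ≤ ((A i ∩ Wᶜ).card : ℝ) := by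
    intro i hi
    obtain ⟨G, hG, hGA, hGs'⟩ := htest i hi
    have h1 : Real.exp (l * ((G ∩ W).card : ℝ)) ≤ pot l Gs W :=
      Finset.single_le_sum (f := fun G : Finset V => Real.exp (l * ((G ∩ W).card : ℝ)))
        (fun G _ => (Real.exp_pos _).le) hG
    have h2 := h1.trans hW
    have h3 := Real.log_le_log (Real.exp_pos _) h2
    rw [Real.log_exp, Real.log_mul hcard.ne' (Real.exp_pos _).ne', Real.log_exp] at h3
    have h4 : 3 * (l * E) * (j : ℝ) ≤ 3 * (l * E) * (k : ℝ) :=
      mul_le_mul_of_nonneg_left (by exact_mod_cast hj.le) (by positivity)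
    have h5 : ((G ∩ W).card : ℝ) ≤ s / 2 := by
      have : l * ((G ∩ W).card : ℝ) ≤ l * (s / 2) := by linarith
      exact le_of_mul_le_mul_left this hl
    have h6 : (G.card : ℝ) = ((G ∩ W).card : ℝ) + ((G ∩ Wᶜ).card : ℝ) := by
      have h7 : (G ∩ W).card + (G ∩ Wᶜ).card = G.card := by
        rw [← Finset.card_union_of_disjoint, ← Finset.inter_union_distrib_left,
          Finset.union_compl, Finset.inter_univ]
        exact Finset.disjoint_left.mpr fun v hv hv' =>
          (Finset.mem_compl.mp (Finset.mem_inter.mp hv').2) (Finset.mem_inter.mp hv).2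
      exact_mod_cast h7.symm
    have h8 : ((G ∩ Wᶜ).card : ℝ) ≤ ((A i ∩ Wᶜ).card : ℝ) := by
      exact_mod_cast Finset.card_le_card (Finset.inter_subset_inter_right hGA)
    linarith
  obtain ⟨q, hq0, hq1, hqU, hqb, hqG⟩ := hq Wᶜ
  have hΨ : 0 < pot l Gs W := Finset.sum_pos (fun G _ => Real.exp_pos _) hGs
  obtain ⟨T, hT, hbT, hfT⟩ := average q
    (fun T => ∑ G ∈ Gs, Real.exp (l * ((G ∩ W).card : ℝ)) * Real.exp (l * ((T ∩ G).card : ℝ)))
    (fun T => ∃ i, s / 2 ≤ ((A i ∩ Wᶜ).card : ℝ) ∧ A i ∩ T = ∅) (l * E) (pot l Gs W) hq0 hq1 hx0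
    hlE hΨ (fun T => Finset.sum_pos (fun G _ => by positivity) hGs) hqb (by
      have h1 : ∑ T, q T * ∑ G ∈ Gs, Real.exp (l * ((G ∩ W).card : ℝ)) *
          Real.exp (l * ((T ∩ G).card : ℝ)) = ∑ G ∈ Gs, Real.exp (l * ((G ∩ W).card : ℝ)) *
          ∑ T, q T * Real.exp (l * ((T ∩ G).card : ℝ)) := by
        simp only [Finset.mul_sum]
        rw [Finset.sum_comm]
        exact Finset.sum_congr rfl fun G _ => Finset.sum_congr rfl fun T _ => by ring
      rw [h1, pot, Finset.mul_sum]
      refine Finset.sum_le_sum fun G hG => ?_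
      rw [mul_comm (Real.exp (l * E))]
      exact mul_le_mul_of_nonneg_left (hqG G hG) (Real.exp_pos _).le)
  refine ⟨T, ?_, ?_, ?_⟩
  · rw [Finset.disjoint_left]
    intro v hv hvT
    exact (Finset.mem_compl.mp (hqU T hT hvT)) hv
  · intro i hi
    rw [Finset.nonempty_iff_ne_empty]
    intro hne
    exact hbT ⟨i, hhalf i hi, hne⟩
  · have h1 : pot l Gs (W ∪ T) ≤
        ∑ G ∈ Gs, Real.exp (l * ((G ∩ W).card : ℝ)) * Real.exp (l * ((T ∩ G).card : ℝ)) := by
      refine Finset.sum_le_sum fun G _ => ?_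
      rw [← Real.exp_add, ← mul_add]
      apply Real.exp_le_exp.mpr
      refine mul_le_mul_of_nonneg_left ?_ hl.le
      rw [Finset.inter_union_distrib_left, Finset.inter_comm T G]
      exact_mod_cast Finset.card_union_le _ _
    refine h1.trans (hfT.trans ?_)
    have h2 : Real.exp (3 * (l * E)) * pot l Gs W ≤
        Real.exp (3 * (l * E)) * (Gs.card * Real.exp (3 * (l * E) * j)) :=
      mul_le_mul_of_nonneg_left hW (Real.exp_pos _).le
    refine h2.trans (le_of_eq ?_)
    have h3 : Real.exp (3 * (l * E) * (j + 1 : ℕ)) =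
        Real.exp (3 * (l * E)) * Real.exp (3 * (l * E) * j) := by
      rw [← Real.exp_add]
      congr 1
      push_cast
      ring
    rw [h3]
    ring

end GreedyNetsAux

open GreedyNetsAux in
theorem greedyNets : GreedyNetsStmt := by
  classical
  intro V ι _ _ _ _ A s l E Gs k hs hl hE hlE htest hq hlog
  rcases Gs.eq_empty_or_nonempty with hGs | hGs
  · refine ⟨fun _ => ∅, fun _ _ _ => Finset.disjoint_empty_left _, fun a i hi => ?_⟩
    obtain ⟨G, hG, -, -⟩ := htest i hi
    rw [hGs] at hG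
    exact absurd hG (Finset.notMem_empty G)
  have key : ∀ j : ℕ, j ≤ k → ∃ T : Fin j → Finset V, (∀ a b, a ≠ b → Disjoint (T a) (T b)) ∧
      (∀ a i, s ≤ ((A i).card : ℝ) → (A i ∩ T a).Nonempty) ∧
      pot l Gs (Finset.univ.biUnion T) ≤ Gs.card * Real.exp (3 * (l * E) * j) := by
    intro j
    induction j with
    | zero =>
      intro _
      refine ⟨fun a => a.elim0, fun a => a.elim0, fun a => a.elim0, ?_⟩
      simp [pot]
    | succ j ih =>
      intro hj
      obtain ⟨T, hT1, hT2, hT3⟩ := ih (by omega)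
      obtain ⟨T', h1, h2, h3⟩ := step A s l E Gs k hl hE hlE hGs htest hq hlog
        (Finset.univ.biUnion T) j (by omega) hT3
      have hdis : ∀ a, Disjoint (T a) T' := fun a =>
        Finset.disjoint_of_subset_left (Finset.subset_biUnion_of_mem T (Finset.mem_univ a)) h1
      refine ⟨Fin.snoc (α := fun _ => Finset V) T T', ?_, ?_, ?_⟩
      · intro a b hab
        induction a using Fin.lastCases with
        | last =>
          induction b using Fin.lastCases with
          | last => exact absurd rfl hab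
          | cast b =>
            rw [Fin.snoc_last, Fin.snoc_castSucc]
            exact (hdis b).symm
        | cast a =>
          induction b using Fin.lastCases with
          | last =>
            rw [Fin.snoc_last, Fin.snoc_castSucc]
            exact hdis a
          | cast b =>
            rw [Fin.snoc_castSucc, Fin.snoc_castSucc]
            exact hT1 a b (fun h => hab (by rw [h]))
      · intro a i hi
        induction a using Fin.lastCases with
        | last =>
          rw [Fin.snoc_last]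
          exact h2 i hi
        | cast a =>
          rw [Fin.snoc_castSucc]
          exact hT2 a i hi
      · have h4 : Finset.univ.biUnion (Fin.snoc (α := fun _ => Finset V) T T') =
            Finset.univ.biUnion T ∪ T' := by
          ext v
          simp only [Finset.mem_biUnion, Finset.mem_univ, true_and, Finset.mem_union]
          constructor
          · rintro ⟨a, ha⟩
            induction a using Fin.lastCases with
            | last =>
              rw [Fin.snoc_last] at ha
              exact Or.inr ha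
            | cast a =>
              rw [Fin.snoc_castSucc] at ha
              exact Or.inl ⟨a, ha⟩
          · rintro (⟨a, ha⟩ | ha)
            · exact ⟨a.castSucc, by rw [Fin.snoc_castSucc]; exact ha⟩
            · exact ⟨Fin.last j, by rw [Fin.snoc_last]; exact ha⟩
        rw [h4]
        exact h3
  obtain ⟨T, hT1, hT2, -⟩ := key k le_rfl
  exact ⟨T, hT1, hT2⟩

end Pool.Agent.Lib.MP_9b5ec2_co
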