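import Pool.Agent.Lib.MP_9b5ec2_co.Defs3
import Pool.Agent.Lib.MP_9b5ec2_co.Ex

/-!
# A random half of a random set (MP_9b5ec2_co)
-/

set_option autoImplicit false

namespace Pool.Agent.Lib.MP_9b5ec2_co

open Finset

theorem half_Ex_insert {V : Type} [DecidableEq V] (p : ℝ) (X : Finset V) {a : V} (ha : a ∉ X)
    (f : Finset V → ℝ) :
    Ex p (insert a X) f = p * Ex p X (fun T => f (insert a T)) + (1 - p) * Ex p X f := by
  unfold Ex
  rw [Finset.sum_powerset_insert ha, Finset.mul_sum, Finset.mul_sum, add_comm]
  congr 1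
  · refine Finset.sum_congr rfl fun T hT => ?_
    have hT' : T ⊆ X := Finset.mem_powerset.1 hT
    rw [Finset.card_insert_of_notMem (fun h => ha (hT' h)), Finset.card_insert_of_notMem ha,
      Nat.add_sub_add_right, pow_succ]
    ring
  · refine Finset.sum_congr rfl fun T hT => ?_
    have hT' : T ⊆ X := Finset.mem_powerset.1 hT
    have hc := Finset.card_le_card hT'
    rw [Finset.card_insert_of_notMem ha, Nat.sub_add_comm hc, pow_succ]
    ring

theorem half_Ex_empty {V : Type} [DecidableEq V] (p : ℝ) (f : Finset V → ℝ) :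
    Ex p ∅ f = f ∅ := by
  unfold Ex
  simp

/-- RANDOM HALF OF A RANDOM SET. -/
theorem half : HalfStmt := by
  intro V _ X p f hp0 hp1
  have h1p : (1 - p) ≠ 0 := by linarith
  induction X using Finset.induction_on generalizing f with
  | empty =>
    rw [half_Ex_empty, half_Ex_empty, half_Ex_empty, Finset.empty_sdiff, half_Ex_empty]
    simp
  | insert a X ha ih =>
    rw [half_Ex_insert _ _ ha, half_Ex_insert _ _ ha]
    have e1 : Ex (2 * p) X (fun Q => Ex (1 / 2) (insert a Q) (fun R => f R (insert a Q))) =
        1 / 2 * Ex (2 * p) X (fun Q => Ex (1 / 2) Q (fun R => f (insert a R) (insert a Q))) +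
        1 / 2 * Ex (2 * p) X (fun Q => Ex (1 / 2) Q (fun R => f R (insert a Q))) := by
      rw [← Ex_mul_left, ← Ex_mul_left, ← Ex_add]
      refine Ex_congr _ _ _ _ fun Q hQ => ?_
      rw [half_Ex_insert _ _ (fun h => ha (hQ h))]
      norm_num
    have e2 : Ex p X (fun R => Ex (p / (1 - p)) (insert a X \ insert a R)
        (fun S => f (insert a R) (insert a R ∪ S))) =
        Ex p X (fun R => Ex (p / (1 - p)) (X \ R)
          (fun S => f (insert a R) (insert a (R ∪ S)))) := by
      refine Ex_congr _ _ _ _ fun R hR => ?_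
      have h1 : insert a X \ insert a R = X \ R := by
        ext v
        simp only [Finset.mem_sdiff, Finset.mem_insert, not_or]
        constructor
        · rintro ⟨h | h, h2, h3⟩
          · exact absurd h h2
          · exact ⟨h, h3⟩
        · rintro ⟨h, h3⟩
          exact ⟨Or.inr h, fun h4 => ha (h4 ▸ h), h3⟩
      rw [h1]
      refine Ex_congr _ _ _ _ fun S _ => ?_
      rw [Finset.insert_union]
    have e3 : Ex p X (fun R => Ex (p / (1 - p)) (insert a X \ R) (fun S => f R (R ∪ S))) =
        p / (1 - p) * Ex p X (fun R => Ex (p / (1 - p)) (X \ R)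
          (fun S => f R (insert a (R ∪ S)))) +
        (1 - p / (1 - p)) * Ex p X (fun R => Ex (p / (1 - p)) (X \ R) (fun S => f R (R ∪ S))) := by
      rw [← Ex_mul_left, ← Ex_mul_left, ← Ex_add]
      refine Ex_congr _ _ _ _ fun R hR => ?_
      have haR : a ∉ R := fun h => ha (hR h)
      have h1 : insert a X \ R = insert a (X \ R) := by
        rw [Finset.insert_sdiff_of_notMem _ haR]
      have h2 : a ∉ X \ R := fun h => ha (Finset.mem_sdiff.1 h).1
      rw [h1, half_Ex_insert _ _ h2]
      congr 2
      refine Ex_congr _ _ _ _ fun S _ => ?_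
      rw [Finset.union_insert]
    rw [e1, e2, e3, ih (fun R Q => f (insert a R) (insert a Q)), ih (fun R Q => f R (insert a Q)),
      ih f]
    field_simp
    ring

end Pool.Agent.Lib.MP_9b5ec2_co
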