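import Pool.Agent.Lib.MP_9b5ec2_co.Defs4

/-!
# A random half of a random set, different densities (MP_9b5ec2_co)
-/

set_option autoImplicit false

namespace Pool.Agent.Lib.MP_9b5ec2_co

open Finset

/-- RANDOM HALF OF A RANDOM SET, different densities. -/
theorem half2 : Half2Stmt := by
  intro V _ X p f hp0 hp1
  induction X using Finset.induction_on generalizing f with
  | empty =>
    rw [PEx_empty, PEx_empty, PEx_empty, Finset.empty_sdiff, PEx_empty]
    simp
  | insert a X ha ih =>
    have hp0' : ∀ v ∈ X, 0 ≤ p v := fun v hv => hp0 v (Finset.mem_insert_of_mem hv)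
    have hp1' : ∀ v ∈ X, p v ≤ 1 / 2 := fun v hv => hp1 v (Finset.mem_insert_of_mem hv)
    have hpa := hp1 a (Finset.mem_insert_self a X)
    have h1p : (1 - p a) ≠ 0 := by linarith
    rw [PEx_insert _ _ ha, PEx_insert _ _ ha]
    have e1 : PEx (fun v => 2 * p v) X
        (fun Q => PEx (fun _ => 1 / 2) (insert a Q) (fun R => f R (insert a Q))) =
        1 / 2 * PEx (fun v => 2 * p v) X
          (fun Q => PEx (fun _ => 1 / 2) Q (fun R => f (insert a R) (insert a Q))) +
        1 / 2 * PEx (fun v => 2 * p v) X
          (fun Q => PEx (fun _ => 1 / 2) Q (fun R => f R (insert a Q))) := by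
      rw [← PEx_mul_left, ← PEx_mul_left, ← PEx_add]
      refine PEx_congr _ _ _ _ fun Q hQ => ?_
      rw [PEx_insert _ _ (fun h => ha (hQ h))]
      norm_num
      ring
    have e2 : PEx p X (fun R => PEx (fun v => p v / (1 - p v)) (insert a X \ insert a R)
        (fun S => f (insert a R) (insert a R ∪ S))) =
        PEx p X (fun R => PEx (fun v => p v / (1 - p v)) (X \ R)
          (fun S => f (insert a R) (insert a (R ∪ S)))) := by
      refine PEx_congr _ _ _ _ fun R hR => ?_
      have h1 : insert a X \ insert a R = X \ R := by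
        ext v
        simp only [Finset.mem_sdiff, Finset.mem_insert, not_or]
        constructor
        · rintro ⟨h | h, h2, h3⟩
          · exact absurd h h2
          · exact ⟨h, h3⟩
        · rintro ⟨h, h3⟩
          exact ⟨Or.inr h, fun h4 => ha (h4 ▸ h), h3⟩
      rw [h1]
      refine PEx_congr _ _ _ _ fun S _ => ?_
      rw [Finset.insert_union]
    have e3 : PEx p X (fun R => PEx (fun v => p v / (1 - p v)) (insert a X \ R)
        (fun S => f R (R ∪ S))) =
        p a / (1 - p a) * PEx p X (fun R => PEx (fun v => p v / (1 - p v)) (X \ R)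
          (fun S => f R (insert a (R ∪ S)))) +
        (1 - p a / (1 - p a)) *
          PEx p X (fun R => PEx (fun v => p v / (1 - p v)) (X \ R) (fun S => f R (R ∪ S))) := by
      rw [← PEx_mul_left, ← PEx_mul_left, ← PEx_add]
      refine PEx_congr _ _ _ _ fun R hR => ?_
      have haR : a ∉ R := fun h => ha (hR h)
      have h1 : insert a X \ R = insert a (X \ R) := by
        rw [Finset.insert_sdiff_of_notMem _ haR]
      have h2 : a ∉ X \ R := fun h => ha (Finset.mem_sdiff.1 h).1
      rw [h1, PEx_insert _ _ h2, add_comm]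
      congr 2
      refine PEx_congr _ _ _ _ fun S _ => ?_
      rw [Finset.union_insert]
    rw [e1, e2, e3, ih (fun R Q => f (insert a R) (insert a Q)) hp0' hp1',
      ih (fun R Q => f R (insert a Q)) hp0' hp1', ih f hp0' hp1']
    field_simp
    ring

end Pool.Agent.Lib.MP_9b5ec2_co
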