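import Pool.Agent.Lib.MP_9b5ec2_co.Ex
import Pool.Agent.Lib.MP_9b5ec2_co.Defs2

/-! Expectation of the heavy part. -/

set_option autoImplicit false

namespace Pool.Agent.Lib.MP_9b5ec2_co

open Finset

/-- the expectation for one point -/
theorem heavyEx_one (h1 : CodegStmt) (h2 : WMomStmt) {V ι : Type} [Fintype V] [DecidableEq V]
    [Fintype ι] [DecidableEq ι] (A : ι → Finset V) (s θ γ Λ : ℝ) (hs : 1 ≤ s) (hθ : 0 < θ)
    (hθ1 : θ ≤ 1) (hγ : 0 ≤ γ) (hΛ : 1 ≤ Λ) (hA : ∀ e, ((A e).card : ℝ) ≤ 2 * s)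
    (hAA : ∀ e f, e ≠ f → ((A e ∩ A f).card : ℝ) ≤ γ * s) (hdg : ∀ v, Λ ≤ (dg A v : ℝ)) (v : V) :
    Ex (θ / s) univ (fun T => if 4 * θ * (dg A v : ℝ) < (hit A T v : ℝ) then (hit A T v : ℝ)
      else 0) ≤ 2 + γ * (dg A v : ℝ) := by
  have hs0 : 0 < s := by linarith
  have hp0 : 0 ≤ θ / s := by positivity
  have hp1 : θ / s ≤ 1 := by
    rw [div_le_one hs0]
    linarith
  obtain ⟨c1, c2, c3⟩ := h1 V ι A s γ v hs0.le hγ hA hAA
  have hd : 0 < (dg A v : ℝ) := by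
    have := hdg v
    linarith
  set d : ℝ := (dg A v : ℝ) with hd'
  have hw : ∀ u : V, 0 ≤ (codeg A u v : ℝ) := fun u => Nat.cast_nonneg _
  have hμ : 0 < 2 * θ * d := by positivity
  have hle : θ / s * ∑ u ∈ univ.erase v, (codeg A u v : ℝ) ≤ 2 * θ * d := by
    have h3 : ∑ u ∈ univ.erase v, (codeg A u v : ℝ) ≤ 2 * s * d :=
      (Finset.sum_le_sum_of_subset_of_nonneg (Finset.subset_univ _) (fun u _ _ => hw u)).trans c1
    calc θ / s * ∑ u ∈ univ.erase v, (codeg A u v : ℝ) ≤ θ / s * (2 * s * d) :=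
          mul_le_mul_of_nonneg_left h3 hp0
      _ = 2 * θ * d := by
          field_simp
  have key := (h2 V (univ.erase v) (fun u => (codeg A u v : ℝ)) (θ / s) hp0 hp1 hw).1
    (2 * θ * d) hμ hle
  have e1 : Ex (θ / s) univ (fun T => if 4 * θ * d < (hit A T v : ℝ) then (hit A T v : ℝ)
      else 0) = Ex (θ / s) univ (fun T => if 2 * (2 * θ * d) <
        ∑ u ∈ univ.erase v ∩ T, (codeg A u v : ℝ) then
        ∑ u ∈ univ.erase v ∩ T, (codeg A u v : ℝ) else 0) := by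
    refine Ex_congr _ _ _ _ fun T _ => ?_
    rw [← c3 T]
    have e2 : 2 * (2 * θ * d) = 4 * θ * d := by ring
    rw [e2]
  rw [e1]
  refine key.trans ?_
  rw [div_le_iff₀ hμ]
  calc 2 * (θ / s * ∑ u ∈ univ.erase v, (codeg A u v : ℝ) ^ 2)
      ≤ 2 * (θ / s * (2 * s * d + γ * s * d ^ 2)) := by
        refine mul_le_mul_of_nonneg_left ?_ (by norm_num)
        exact mul_le_mul_of_nonneg_left c2 hp0
    _ = (2 + γ * d) * (2 * θ * d) := by
        field_simp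

theorem heavyEx (h1 : CodegStmt) (h2 : WMomStmt) : HeavyExStmt := by
  intro V ι _ _ _ _ A s θ γ Λ hs hθ hθ1 hγ hΛ hA hAA hdg
  have hΛ0 : 0 < Λ := by linarith
  have e1 : Ex (θ / s) univ (fun T => ∑ v ∈ univ.filter (fun v => 4 * θ * (dg A v : ℝ) <
      (hit A T v : ℝ)), (hit A T v : ℝ)) =
      ∑ v ∈ univ, Ex (θ / s) univ (fun T => if 4 * θ * (dg A v : ℝ) < (hit A T v : ℝ) then
        (hit A T v : ℝ) else 0) := by
    rw [← Ex_sum]
    refine Ex_congr _ _ _ _ fun T _ => ?_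
    rw [Finset.sum_filter]
  rw [e1]
  have h3 : ∑ v ∈ univ, Ex (θ / s) univ (fun T => if 4 * θ * (dg A v : ℝ) < (hit A T v : ℝ) then
      (hit A T v : ℝ) else 0) ≤ ∑ v ∈ univ, (2 + γ * (dg A v : ℝ)) :=
    Finset.sum_le_sum fun v _ => heavyEx_one h1 h2 A s θ γ Λ hs hθ hθ1 hγ hΛ hA hAA hdg v
  refine h3.trans ?_
  rw [Finset.sum_add_distrib, ← Finset.mul_sum]
  have hM : Λ * ((univ : Finset V).card : ℝ) ≤ mass A := by
    unfold mass
    calc Λ * ((univ : Finset V).card : ℝ) = ∑ _v : V, Λ := by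
          rw [Finset.sum_const, nsmul_eq_mul, mul_comm]
      _ ≤ ∑ v, (dg A v : ℝ) := Finset.sum_le_sum fun v _ => hdg v
  have h4 : ∑ _v : V, (2 : ℝ) ≤ 2 / Λ * mass A := by
    rw [Finset.sum_const, nsmul_eq_mul]
    calc ((univ : Finset V).card : ℝ) * 2 = 2 / Λ * (Λ * ((univ : Finset V).card : ℝ)) := by
          field_simp
      _ ≤ 2 / Λ * mass A := mul_le_mul_of_nonneg_left hM (by positivity)
  have h5 : γ * ∑ v, (dg A v : ℝ) = γ * mass A := rfl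
  rw [h5]
  linarith

end Pool.Agent.Lib.MP_9b5ec2_co
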