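import Pool.Agent.Lib.MP_9b5ec2_co.Ex
import Pool.Agent.Lib.MP_9b5ec2_co.Defs3

/-! Expectation of the heavy part, averaged version. -/

set_option autoImplicit false

namespace Pool.Agent.Lib.MP_9b5ec2_co

open Finset

/-- pairwise intersections have size at most `2 s` -/
theorem cd_inter_le {V ι : Type} [Fintype V] [DecidableEq V] [Fintype ι] [DecidableEq ι]
    (A : ι → Finset V) (s : ℝ) (hA : ∀ e, ((A e).card : ℝ) ≤ 2 * s) (e f : ι) (_h : e ≠ f) :
    ((A e ∩ A f).card : ℝ) ≤ 2 * s :=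
  le_trans (by exact_mod_cast Finset.card_le_card Finset.inter_subset_left) (hA e)

/-- the sum of the squares of the codegrees with the other points -/
theorem cd_erase_le {V ι : Type} [Fintype V] [DecidableEq V] [Fintype ι] [DecidableEq ι]
    (A : ι → Finset V) (s γ : ℝ) (hCD : CD A s γ) (v : V) :
    ∑ u ∈ univ.erase v, (codeg A u v : ℝ) ^ 2 ≤ γ * s * (dg A v : ℝ) ^ 2 :=
  (Finset.sum_le_sum_of_subset_of_nonneg (Finset.subset_univ _)
    (fun u _ _ => sq_nonneg _)).trans (hCD v)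

/-- the expectation for one point -/
theorem heavyEx2_one (h1 : CodegStmt) (h2 : WMomStmt) {V ι : Type} [Fintype V] [DecidableEq V]
    [Fintype ι] [DecidableEq ι] (A : ι → Finset V) (s θ γ : ℝ) (hs : 1 ≤ s) (hθ : 0 < θ)
    (hθ1 : θ ≤ 1) (hA : ∀ e, ((A e).card : ℝ) ≤ 2 * s)
    (hCD : CD A s γ) (hdg : ∀ v, 1 ≤ dg A v) (v : V) :
    Ex (θ / s) univ (fun T => if 4 * θ * (dg A v : ℝ) < (hit A T v : ℝ) then (hit A T v : ℝ)
      else 0) ≤ γ * (dg A v : ℝ) := by
  have hs0 : 0 < s := by linarith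
  have hp0 : 0 ≤ θ / s := by positivity
  have hp1 : θ / s ≤ 1 := by
    rw [div_le_one hs0]
    linarith
  obtain ⟨c1, -, c3⟩ := h1 V ι A s 2 v hs0.le (by norm_num) hA (cd_inter_le A s hA)
  have c2 := cd_erase_le A s γ hCD v
  have hd : 0 < (dg A v : ℝ) := by
    have := hdg v
    exact_mod_cast this
  set d : ℝ := (dg A v : ℝ) with hd'
  have hw : ∀ u : V, 0 ≤ (codeg A u v : ℝ) := fun u => Nat.cast_nonneg _
  have hμ : 0 < 2 * θ * d := by positivity
  have hle : θ / s * ∑ u ∈ univ.erase v, (codeg A u v : ℝ) ≤ 2 * θ * d := by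
    have h3 : ∑ u ∈ univ.erase v, (codeg A u v : ℝ) ≤ 2 * s * d :=
      (Finset.sum_le_sum_of_subset_of_nonneg (Finset.subset_univ _) (fun u _ _ => hw u)).trans c1
    calc θ / s * ∑ u ∈ univ.erase v, (codeg A u v : ℝ) ≤ θ / s * (2 * s * d) :=
          mul_le_mul_of_nonneg_left h3 hp0
      _ = 2 * θ * d := by
          field_simp
  have key := (h2 V (univ.erase v) (fun u => (codeg A u v : ℝ)) (θ / s) hp0 hp1 hw).1
    (2 * θ * d) hμ hle
  have e1 : Ex (θ / s) univ (fun T => if 4 * θ * d < (hit A T v : ℝ) then (hit A T v : ℝ)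
      else 0) = Ex (θ / s) univ (fun T => if 2 * (2 * θ * d) <
        ∑ u ∈ univ.erase v ∩ T, (codeg A u v : ℝ) then
        ∑ u ∈ univ.erase v ∩ T, (codeg A u v : ℝ) else 0) := by
    refine Ex_congr _ _ _ _ fun T _ => ?_
    rw [← c3 T]
    have e2 : 2 * (2 * θ * d) = 4 * θ * d := by ring
    rw [e2]
  rw [e1]
  refine key.trans ?_
  rw [div_le_iff₀ hμ]
  calc 2 * (θ / s * ∑ u ∈ univ.erase v, (codeg A u v : ℝ) ^ 2)
      ≤ 2 * (θ / s * (γ * s * d ^ 2)) := by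
        refine mul_le_mul_of_nonneg_left ?_ (by norm_num)
        exact mul_le_mul_of_nonneg_left c2 hp0
    _ = γ * d * (2 * θ * d) := by
        field_simp

theorem heavyEx2 (h1 : CodegStmt) (h2 : WMomStmt) : HeavyEx2Stmt := by
  intro V ι _ _ _ _ A s θ γ hs hθ hθ1 _hγ hA hCD hdg
  have e1 : Ex (θ / s) univ (fun T => ∑ v ∈ univ.filter (fun v => 4 * θ * (dg A v : ℝ) <
      (hit A T v : ℝ)), (hit A T v : ℝ)) =
      ∑ v ∈ univ, Ex (θ / s) univ (fun T => if 4 * θ * (dg A v : ℝ) < (hit A T v : ℝ) then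
        (hit A T v : ℝ) else 0) := by
    rw [← Ex_sum]
    refine Ex_congr _ _ _ _ fun T _ => ?_
    rw [Finset.sum_filter]
  rw [e1]
  have h3 : ∑ v ∈ univ, Ex (θ / s) univ (fun T => if 4 * θ * (dg A v : ℝ) < (hit A T v : ℝ) then
      (hit A T v : ℝ) else 0) ≤ ∑ v ∈ univ, γ * (dg A v : ℝ) :=
    Finset.sum_le_sum fun v _ => heavyEx2_one h1 h2 A s θ γ hs hθ hθ1 hA hCD hdg v
  refine h3.trans ?_
  rw [← Finset.mul_sum]
  exact le_rfl

end Pool.Agent.Lib.MP_9b5ec2_co
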