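import Mathlib

/-! Finite hypergraphs, traces, hereditary families, polychromatic colourings. -/

set_option autoImplicit false

namespace Pool.Agent.Lib.MP_9b5ec2_co

universe u

/-- A finite hypergraph whose vertices are elements of the type `α`: a finite vertex set and a
finite set of hyperedges, each a subset of the vertex set. -/
structure FinHypergraph (α : Type u) where
  verts : Finset α
  edges : Finset (Finset α)
  edges_subset : ∀ e ∈ edges, e ⊆ verts

variable {α : Type u} [DecidableEq α]

/-- The induced subhypergraph `H[S]`: vertex set `S` and hyperedges `e ∩ S`. -/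
def FinHypergraph.induce (H : FinHypergraph α) (S : Finset α) (_hS : S ⊆ H.verts) : FinHypergraph α where
  verts := S
  edges := H.edges.image (fun e => e ∩ S)
  edges_subset := by
    intro e he
    obtain ⟨f, _, rfl⟩ := Finset.mem_image.1 he
    exact Finset.inter_subset_right

/-- The family is closed under induced subhypergraphs. -/
def Hereditary (F : Set (FinHypergraph α)) : Prop :=
  ∀ H ∈ F, ∀ (S : Finset α) (hS : S ⊆ H.verts), H.induce S hS ∈ F

/-- `c` is polychromatic for hyperedges of size at least `m`: every such hyperedge meets all `k`
colour classes. -/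
def Polychromatic {α : Type u} (k m : ℕ) (H : FinHypergraph α) (c : α → Fin k) : Prop :=
  ∀ e ∈ H.edges, m ≤ e.card → ∀ i : Fin k, ∃ v ∈ e, c v = i

/-- `m_k(F) ≤ m`: every member of `F` has a `k`-colouring that is polychromatic for hyperedges of
size at least `m`. -/
def PolyLE {α : Type u} (F : Set (FinHypergraph α)) (k m : ℕ) : Prop :=
  ∀ H ∈ F, ∃ c : α → Fin k, Polychromatic k m H c

end Pool.Agent.Lib.MP_9b5ec2_co
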