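import Pool.Agent.Lib.MP_9b5ec2_co.Defs3

/-! Uniform drop lemma. -/

set_option autoImplicit false

namespace Pool.Agent.Lib.MP_9b5ec2_co

open Finset

theorem klu (h1 : WGTStmt) (h2 : AvgStmt) (h3 : TrimStmt) (h4 : DiscStmt) : KLUStmt := by
  intro m hm
  obtain ⟨Λ, γ, sW, _, hγ, hsW, hW⟩ := h1 m hm
  obtain ⟨K₀, sA, hK₀, hsA, hA⟩ := h2 m (γ / 8) (γ / 64) (1 / 48) hm (by positivity)
    (by positivity) (by norm_num) (by norm_num)
  refine ⟨K₀, max sW sA, hK₀, hsW.trans (le_max_left _ _), ?_⟩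
  intro V ι _ _ _ _ A c s hT hs hsz hc hS
  have hs1 : sW ≤ s := (le_max_left _ _).trans hs
  have hs2 : sA ≤ s := (le_max_right _ _).trans hs
  have hs0 : 0 < s := by linarith
  by_contra hcon
  push Not at hcon
  obtain ⟨z, hz1, hz2, hz3⟩ := hA V ι A c s hT hs2 hc (fun R hR => by
    obtain ⟨y, hy1, hy2, hy3⟩ := hcon R hR
    exact ⟨y, hy1, hy2, hy3⟩)
  obtain ⟨y, X, hy1, hy2, hy3, hy4, hy5, hy6⟩ := h3 V ι A c z s (γ / 8) (γ / 64) hs0
    (by positivity) (by positivity) hsz hS hz1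
    (by
      have e : (1 - 1 / 24 : ℝ) = 1 - 2 * (1 / 48) := by norm_num
      rw [e]
      exact hz2) hz3
  obtain ⟨V', ι', i1, i2, i3, i4, A', hT', hN', hA', hmass, hCD, hdg⟩ := h4 m V ι A y X s
    (γ / 8 + 8 * (γ / 64)) Λ hs0 (by positivity) hT hy1 hy2 hy3 hy4 hy5 hy6
  refine hW V' ι' A' s hT' hs1 hN' hA' hmass ?_ hdg
  have e : 4 * (γ / 8 + 8 * (γ / 64)) = γ := by ring
  rw [e] at hCD
  exact hCD

end Pool.Agent.Lib.MP_9b5ec2_co
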