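import Pool.Agent.Lib.MP_9b5ec2_co.Defs3

/-!
# Linear programming duality for packings and covers
-/

set_option autoImplicit false

namespace Pool.Agent.Lib.MP_9b5ec2_co

open Finset

namespace LPDM

/-- the affine map -/
def lpdMap {V κ : Type} [DecidableEq V] [Fintype κ] (B : κ → Finset V) (c : V → ℝ) (t : ℝ)
    (p : κ → ℝ) (v : V) : ℝ := t * fdeg B p v - c v

lemma lpd_cont {V κ : Type} [DecidableEq V] [Fintype κ] (B : κ → Finset V) (c : V → ℝ)
    (t : ℝ) : Continuous (lpdMap B c t) := by
  refine continuous_pi fun v => ?_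
  unfold lpdMap fdeg
  fun_prop

lemma lpd_fdeg_comb {V κ : Type} [DecidableEq V] [Fintype κ] (B : κ → Finset V) (a b : ℝ)
    (p q : κ → ℝ) (v : V) : fdeg B (a • p + b • q) v = a * fdeg B p v + b * fdeg B q v := by
  unfold fdeg
  rw [mul_sum, mul_sum, ← sum_add_distrib]
  rfl

lemma lpd_convex {V κ : Type} [DecidableEq V] [Fintype κ] (B : κ → Finset V) (c : V → ℝ)
    (t : ℝ) : Convex ℝ (lpdMap B c t '' stdSimplex ℝ κ) := by
  rintro _ ⟨p, hp, rfl⟩ _ ⟨q, hq, rfl⟩ a b ha hb hab
  refine ⟨a • p + b • q, convex_stdSimplex ℝ κ hp hq ha hb hab, ?_⟩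
  funext v
  show t * fdeg B (a • p + b • q) v - c v = a * (t * fdeg B p v - c v) + b * (t * fdeg B q v - c v)
  rw [lpd_fdeg_comb]
  have : b = 1 - a := by linarith
  subst this
  ring

end LPDM

open LPDM in
theorem lpd : LPDStmt := by
  intro V κ _ _ _ B c t hc ht
  rcases isEmpty_or_nonempty κ with hκ | hκ
  · right
    refine ⟨fun _ => 0, fun _ => le_rfl, fun i => (hκ.false i).elim, ?_⟩
    simpa using ht
  by_cases hpk : ∃ y : κ → ℝ, Packs B c y ∧ t ≤ ∑ i, y i
  · exact Or.inl hpk
  right
  let K : Set (V → ℝ) := lpdMap B c t '' stdSimplex ℝ κ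
  let N : Set (V → ℝ) := {z | ∀ v, z v ≤ 0}
  have hK : IsCompact K := (isCompact_stdSimplex (𝕜 := ℝ) κ).image (lpd_cont B c t)
  have hKc : Convex ℝ K := lpd_convex B c t
  have hN : IsClosed N := by
    have : N = ⋂ v : V, {z : V → ℝ | z v ≤ 0} := by
      ext z
      simp [N]
    rw [this]
    exact isClosed_iInter fun v => isClosed_le (continuous_apply v) continuous_const
  have hNc : Convex ℝ N := by
    intro z hz w hw a b ha hb _ v
    show a * z v + b * w v ≤ 0
    have h1 := mul_nonneg ha (neg_nonneg.mpr (hz v))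
    have h2 := mul_nonneg hb (neg_nonneg.mpr (hw v))
    linarith
  have hdis : Disjoint K N := by
    rw [Set.disjoint_left]
    rintro _ ⟨p, hp, rfl⟩ hz
    apply hpk
    refine ⟨t • p, ⟨fun i => mul_nonneg ht.le (hp.1 i), fun v => ?_⟩, ?_⟩
    · have h1 := hz v
      have h2 : fdeg B (t • p) v = t * fdeg B p v := by
        unfold fdeg
        rw [mul_sum]
        rfl
      rw [h2]
      unfold lpdMap at h1
      linarith
    · have : ∑ i, (t • p) i = t * ∑ i, p i := by
        rw [mul_sum]
        rfl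
      rw [this, hp.2, mul_one]
  obtain ⟨f, u, w, hfK, huw, hfN⟩ := geometric_hahn_banach_compact_closed hKc hK hNc hN hdis
  have hw0 : w < 0 := by
    have := hfN 0 (fun v => le_rfl)
    rwa [map_zero] at this
  let x : V → ℝ := fun v => -f (Pi.single v 1)
  have hx : ∀ v, x v = -f (Pi.single v 1) := fun _ => rfl
  have hf : ∀ z : V → ℝ, f z = -∑ v, z v * x v := by
    intro z
    have h1 : z = ∑ v, z v • (Pi.single v 1 : V → ℝ) := by
      funext u
      rw [Finset.sum_apply]
      simp only [Pi.smul_apply, smul_eq_mul]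
      rw [Finset.sum_eq_single u]
      · simp
      · intro b _ hb
        rw [Pi.single_apply, if_neg (Ne.symm hb), mul_zero]
      · intro h
        exact absurd (mem_univ u) h
    conv_lhs => rw [h1]
    rw [map_sum, ← sum_neg_distrib]
    refine sum_congr rfl fun v _ => ?_
    rw [map_smul, smul_eq_mul, hx]
    ring
  have hx0 : ∀ v, 0 ≤ x v := by
    intro v
    by_contra hneg
    push Not at hneg
    -- take r = w / x v > 0
    have hr : 0 < w / x v := div_pos_of_neg_of_neg hw0 hneg
    have h1 := hfN ((-(w / x v)) • (Pi.single v 1 : V → ℝ)) (fun u => by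
      show -(w / x v) * (Pi.single v 1 : V → ℝ) u ≤ 0
      rw [Pi.single_apply]
      split_ifs
      · linarith
      · simp)
    rw [map_smul, smul_eq_mul] at h1
    have h2 : -(w / x v) * f (Pi.single v 1) = w := by
      have : f (Pi.single v 1) = -x v := by rw [hx]; ring
      rw [this, neg_mul_neg]
      exact div_mul_cancel₀ _ hneg.ne
    rw [h2] at h1
    exact lt_irrefl _ h1
  have hkey : ∀ i, ∑ v, c v * x v < t * ∑ v ∈ B i, x v := by
    intro i
    classical
    have h1 := hfK (lpdMap B c t (Pi.single i 1)) ⟨_, single_mem_stdSimplex ℝ i, rfl⟩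
    rw [hf] at h1
    have h2 : ∀ v, fdeg B (Pi.single i 1) v = if v ∈ B i then 1 else 0 := by
      intro v
      unfold fdeg
      rw [Finset.sum_filter]
      have h5 : ∀ a, (if v ∈ B a then (Pi.single i 1 : κ → ℝ) a else 0) =
          if a = i then (if v ∈ B i then (1 : ℝ) else 0) else 0 := by
        intro a
        by_cases ha : a = i
        · subst ha
          simp
        · rw [Pi.single_apply, if_neg ha, if_neg ha]
          simp
      simp_rw [h5]
      rw [Finset.sum_ite_eq' univ i, if_pos (mem_univ i)]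
    have h3 : ∑ v, lpdMap B c t (Pi.single i 1) v * x v = t * ∑ v ∈ B i, x v - ∑ v, c v * x v := by
      unfold lpdMap
      simp_rw [h2]
      have h4 : ∀ v, (t * (if v ∈ B i then (1 : ℝ) else 0) - c v) * x v =
          (if v ∈ B i then t * x v else 0) - c v * x v := by
        intro v
        split_ifs <;> ring
      simp_rw [h4]
      rw [sum_sub_distrib, mul_sum]
      congr 1
      rw [← Finset.sum_filter]
      simp
    rw [h3] at h1
    linarith
  have hS : 0 ≤ ∑ v, c v * x v := sum_nonneg fun v _ => mul_nonneg (hc v) (hx0 v)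
  obtain ⟨i0, hi0⟩ := Finite.exists_min (fun i => ∑ v ∈ B i, x v)
  set l : ℝ := ∑ v ∈ B i0, x v with hl
  have hl0 : 0 < l := by
    have h1 := hkey i0
    by_contra hneg
    push Not at hneg
    have := mul_nonpos_of_nonneg_of_nonpos ht.le hneg
    linarith
  refine ⟨fun v => x v / l, fun v => div_nonneg (hx0 v) hl0.le, fun i => ?_, ?_⟩
  · rw [← sum_div, le_div_iff₀ hl0, one_mul]
    exact hi0 i
  · have h1 : ∑ v, c v * (x v / l) = (∑ v, c v * x v) / l := by
      rw [sum_div]
      exact sum_congr rfl fun v _ => by ring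
    rw [h1, div_lt_iff₀ hl0]
    exact hkey i0

end Pool.Agent.Lib.MP_9b5ec2_co
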