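import Mathlib
import Pool.Agent.Lib.MP_9b5ec2_co.Defs

/-! LEMMA B from the absence of positions. -/

set_option autoImplicit false

namespace Pool.Agent.Lib.MP_9b5ec2_co

open Finset

namespace LemmaBAux

variable {V ι : Type} [Fintype V] [DecidableEq V] [Fintype ι] [DecidableEq ι]

theorem deg_eq (A : ι → Finset V) (v : V) :
    (deg A univ v : ℝ) = ∑ e : ι, if v ∈ A e then 1 else 0 := by
  unfold deg
  rw [Finset.sum_boole]

theorem sum_sq_eq (A : ι → Finset V) :
    ∑ v : V, (deg A univ v : ℝ) ^ 2 = ∑ e : ι, ∑ f : ι, ((A e ∩ A f).card : ℝ) := by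
  have h1 : ∀ v : V, (deg A univ v : ℝ) ^ 2 =
      ∑ e : ι, ∑ f : ι, if v ∈ A e ∩ A f then (1 : ℝ) else 0 := by
    intro v
    rw [deg_eq, sq, Finset.sum_mul_sum]
    refine Finset.sum_congr rfl fun e _ => Finset.sum_congr rfl fun f _ => ?_
    by_cases he : v ∈ A e <;> by_cases hf : v ∈ A f <;> simp [he, hf]
  simp_rw [h1]
  rw [Finset.sum_comm]
  refine Finset.sum_congr rfl fun e _ => ?_
  rw [Finset.sum_comm]
  refine Finset.sum_congr rfl fun f _ => ?_
  rw [Finset.sum_ite_mem, Finset.univ_inter, Finset.sum_const, nsmul_eq_mul, mul_one]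

theorem sum_sq_le (A : ι → Finset V) (s γ : ℝ) (hγ : 0 ≤ γ * s)
    (hA : ∀ e, ((A e).card : ℝ) ≤ 2 * s)
    (hAA : ∀ e f, e ≠ f → ((A e ∩ A f).card : ℝ) ≤ γ * s) :
    ∑ v : V, (deg A univ v : ℝ) ^ 2 ≤
      2 * s * (Fintype.card ι : ℝ) + γ * s * (Fintype.card ι : ℝ) ^ 2 := by
  rw [sum_sq_eq]
  have h1 : ∀ e f : ι, ((A e ∩ A f).card : ℝ) ≤ (if e = f then 2 * s else 0) + γ * s := by
    intro e f
    by_cases h : e = f
    · subst h
      rw [if_pos rfl, Finset.inter_self]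
      linarith [hA e]
    · rw [if_neg h, zero_add]
      exact hAA e f h
  calc ∑ e : ι, ∑ f : ι, ((A e ∩ A f).card : ℝ)
      ≤ ∑ e : ι, ∑ f : ι, ((if e = f then 2 * s else 0) + γ * s) :=
        Finset.sum_le_sum fun e _ => Finset.sum_le_sum fun f _ => h1 e f
    _ = 2 * s * (Fintype.card ι : ℝ) + γ * s * (Fintype.card ι : ℝ) ^ 2 := by
        simp_rw [Finset.sum_add_distrib, Finset.sum_ite_eq, Finset.mem_univ, if_true,
          Finset.sum_const, nsmul_eq_mul, Finset.card_univ]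
        ring

end LemmaBAux

open LemmaBAux in
theorem lemmaB (h : NoPosStmt) : LemmaBStmt := by
  intro m D c₀ hm hD hc
  obtain ⟨Λ₁, η₁, γ₁, M₁, hΛ₁, hη₁, hγ₁, hM₁, hno⟩ :=
    h m (2 * m - 1) 0 hm (by omega) 1 1 D (c₀ / (2 * D)) (c₀ / 2) one_pos hD
      (by positivity) (by positivity)
  have hc3 : 0 < c₀ ^ 3 := by positivity
  refine ⟨max (max Λ₁ 1) (32 * D / c₀ ^ 3), min (min γ₁ 1) (c₀ ^ 3 / (16 * D * M₁)), M₁,
    ?_, ?_, ?_, hM₁, ?_⟩
  · exact (le_max_right _ _).trans (le_max_left _ _)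
  · exact lt_min (lt_min hγ₁ one_pos) (by positivity)
  · exact (min_le_left _ _).trans (min_le_right _ _)
  intro V ι _ _ _ _ A s lam hTC hs hV hA hAA hN hlam hsum
  set γ := min (min γ₁ 1) (c₀ ^ 3 / (16 * D * M₁)) with hγdef
  have hγ0 : 0 < γ := lt_min (lt_min hγ₁ one_pos) (by positivity)
  have hγ₁' : γ ≤ γ₁ := (min_le_left _ _).trans (min_le_left _ _)
  have hγM : γ ≤ c₀ ^ 3 / (16 * D * M₁) := min_le_right _ _
  have hΛ₁lam : Λ₁ ≤ lam := ((le_max_left _ _).trans (le_max_left _ _)).trans hlam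
  have h1lam : 1 ≤ lam := ((le_max_right _ _).trans (le_max_left _ _)).trans hlam
  have h32 : 32 * D / c₀ ^ 3 ≤ lam := (le_max_right _ _).trans hlam
  have hlam0 : 0 < lam := by linarith
  have hs0 : 0 < s := hM₁.trans_le hs
  have hn0 : (0 : ℝ) < (Fintype.card V : ℝ) := by exact_mod_cast hV
  set n : ℝ := (Fintype.card V : ℝ) with hn
  set N : ℝ := (Fintype.card ι : ℝ) with hNdef
  set Z : Finset V := univ.filter (fun v => c₀ / 2 * lam ≤ (deg A univ v : ℝ) ∧
    (deg A univ v : ℝ) ≤ D * lam) with hZ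
  -- the mass on `Z`
  have hmass : c₀ / 2 * lam * n ≤ ∑ v ∈ Z, (deg A univ v : ℝ) := by
    have h1 : ∑ v ∈ univ.filter (fun v => (deg A univ v : ℝ) ≤ D * lam), (deg A univ v : ℝ) ≤
        ∑ v ∈ Z, (deg A univ v : ℝ) + c₀ / 2 * lam * n := by
      have h2 : ∑ v ∈ univ.filter (fun v => (deg A univ v : ℝ) ≤ D * lam), (deg A univ v : ℝ) =
          ∑ v ∈ (univ.filter (fun v => (deg A univ v : ℝ) ≤ D * lam)).filter
            (fun v => c₀ / 2 * lam ≤ (deg A univ v : ℝ)), (deg A univ v : ℝ) +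
          ∑ v ∈ (univ.filter (fun v => (deg A univ v : ℝ) ≤ D * lam)).filter
            (fun v => ¬ c₀ / 2 * lam ≤ (deg A univ v : ℝ)), (deg A univ v : ℝ) :=
        (Finset.sum_filter_add_sum_filter_not _ _ _).symm
      have h3 : (univ.filter (fun v => (deg A univ v : ℝ) ≤ D * lam)).filter
            (fun v => c₀ / 2 * lam ≤ (deg A univ v : ℝ)) = Z := by
        rw [hZ, Finset.filter_filter]
        refine Finset.filter_congr fun v _ => ?_
        exact and_comm
      rw [h2, h3]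
      refine add_le_add_right ?_ _
      calc ∑ v ∈ (univ.filter (fun v => (deg A univ v : ℝ) ≤ D * lam)).filter
            (fun v => ¬ c₀ / 2 * lam ≤ (deg A univ v : ℝ)), (deg A univ v : ℝ)
          ≤ ∑ v ∈ (univ.filter (fun v => (deg A univ v : ℝ) ≤ D * lam)).filter
            (fun v => ¬ c₀ / 2 * lam ≤ (deg A univ v : ℝ)), c₀ / 2 * lam := by
            refine Finset.sum_le_sum fun v hv => ?_
            exact (not_le.1 (Finset.mem_filter.1 hv).2).le
        _ ≤ ∑ v : V, c₀ / 2 * lam := by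
            refine Finset.sum_le_sum_of_subset_of_nonneg (Finset.subset_univ _) fun v _ _ => ?_
            positivity
        _ = c₀ / 2 * lam * n := by
            rw [Finset.sum_const, nsmul_eq_mul, Finset.card_univ]
            ring
    have h4 : c₀ * lam * n = c₀ / 2 * lam * n + c₀ / 2 * lam * n := by ring
    linarith
  have hZcard : c₀ / (2 * D) * n ≤ (Z.card : ℝ) := by
    have h1 : ∑ v ∈ Z, (deg A univ v : ℝ) ≤ (Z.card : ℝ) * (D * lam) := by
      calc ∑ v ∈ Z, (deg A univ v : ℝ) ≤ ∑ v ∈ Z, D * lam :=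
            Finset.sum_le_sum fun v hv => (Finset.mem_filter.1 hv).2.2
        _ = (Z.card : ℝ) * (D * lam) := by rw [Finset.sum_const, nsmul_eq_mul]
    have h2 : c₀ / 2 * lam * n ≤ (Z.card : ℝ) * (D * lam) := hmass.trans h1
    have h3 : c₀ / (2 * D) * n * (D * lam) = c₀ / 2 * lam * n := by field_simp
    rw [← h3] at h2
    exact le_of_mul_le_mul_right h2 (by positivity)
  -- the second moment
  have hsq : (Z.card : ℝ) * (c₀ / 2 * lam) ^ 2 ≤ ∑ v : V, (deg A univ v : ℝ) ^ 2 := by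
    calc (Z.card : ℝ) * (c₀ / 2 * lam) ^ 2 = ∑ v ∈ Z, (c₀ / 2 * lam) ^ 2 := by
          rw [Finset.sum_const, nsmul_eq_mul]
      _ ≤ ∑ v ∈ Z, (deg A univ v : ℝ) ^ 2 := by
          refine Finset.sum_le_sum fun v hv => ?_
          exact pow_le_pow_left₀ (by positivity) (Finset.mem_filter.1 hv).2.1 2
      _ ≤ ∑ v : V, (deg A univ v : ℝ) ^ 2 :=
          Finset.sum_le_sum_of_subset_of_nonneg (Finset.subset_univ _) fun v _ _ => sq_nonneg _
  have hsq2 := sum_sq_le A s γ (by positivity) hA hAA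
  have hkey : c₀ / (2 * D) * n * (c₀ / 2 * lam) ^ 2 ≤ 2 * s * N + γ * s * N ^ 2 :=
    (mul_le_mul_of_nonneg_right hZcard (by positivity)).trans (hsq.trans hsq2)
  have hNs : N * s = lam * n := hN
  have hN0 : 0 ≤ N := by positivity
  have hkey2 : (c₀ ^ 3 / (8 * D) * lam) * (lam * n) ≤ (2 + γ * N) * (lam * n) := by
    have e1 : c₀ / (2 * D) * n * (c₀ / 2 * lam) ^ 2 = (c₀ ^ 3 / (8 * D) * lam) * (lam * n) := by
      field_simp
      ring
    have e2 : 2 * s * N + γ * s * N ^ 2 = (2 + γ * N) * (lam * n) := by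
      rw [← hNs]; ring
    rw [e1, e2] at hkey
    exact hkey
  have hkey3 : c₀ ^ 3 / (8 * D) * lam ≤ 2 + γ * N :=
    le_of_mul_le_mul_right hkey2 (by positivity)
  have htwo : 2 ≤ c₀ ^ 3 / (16 * D) * lam := by
    have h1 := mul_le_mul_of_nonneg_left h32 (show 0 ≤ c₀ ^ 3 / (16 * D) by positivity)
    have e : c₀ ^ 3 / (16 * D) * (32 * D / c₀ ^ 3) = 2 := by
      field_simp
      norm_num
    linarith
  have hkey4 : c₀ ^ 3 / (16 * D) * lam ≤ γ * N := by
    have e : c₀ ^ 3 / (8 * D) * lam = c₀ ^ 3 / (16 * D) * lam + c₀ ^ 3 / (16 * D) * lam := by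
      field_simp
      ring
    linarith
  have hkey5 : c₀ ^ 3 / (16 * D) * s ≤ γ * n := by
    have h1 := mul_le_mul_of_nonneg_right hkey4 hs0.le
    have e1 : c₀ ^ 3 / (16 * D) * lam * s = (c₀ ^ 3 / (16 * D) * s) * lam := by ring
    have e2 : γ * N * s = (γ * n) * lam := by
      rw [mul_assoc, hNs]; ring
    rw [e1, e2] at h1
    exact le_of_mul_le_mul_right h1 hlam0
  have hMs : M₁ * s ≤ n := by
    have h1 : c₀ ^ 3 / (16 * D) * s ≤ c₀ ^ 3 / (16 * D * M₁) * n :=
      hkey5.trans (mul_le_mul_of_nonneg_right hγM hn0.le)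
    have e1 : c₀ ^ 3 / (16 * D * M₁) * n = c₀ ^ 3 / (16 * D) * (n / M₁) := by
      field_simp
    rw [e1] at h1
    have h2 : s ≤ n / M₁ := le_of_mul_le_mul_left h1 (by positivity)
    rw [le_div_iff₀ hM₁] at h2
    linarith
  refine hno V ι Unit A s ∅ (fun _ => univ) (fun _ => lam) (by simp) hTC hs hMs hA
    (fun e f hef => (hAA e f hef).trans (mul_le_mul_of_nonneg_right hγ₁' hs0.le)) ?_
  refine ⟨?_, fun _ => hΛ₁lam, ?_, ?_⟩
  · rw [Finset.card_empty, Nat.cast_zero, zero_mul]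
    positivity
  · intro _
    show ((univ : Finset ι).card : ℝ) * s ≤ 1 * lam * n
    rw [Finset.card_univ, one_mul]
    exact hNs.le
  · intro W _
    refine ⟨fun _ => 0, fun _ => (), fun _ => univ, Z, ⟨rfl, fun _ => Finset.Subset.refl _,
      ?_, ?_, Finset.disjoint_empty_right _, ?_, ?_⟩, hZcard⟩
    · intro _ e _
      rw [Finset.inter_empty, Finset.card_empty]
    · intro _ e _ x hx
      rw [Finset.inter_empty] at hx
      exact absurd hx (Finset.notMem_empty x)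
    · intro _ v hv
      exact (Finset.mem_filter.1 hv).2.1
    · intro _ v hv
      exact (Finset.mem_filter.1 hv).2.2

end Pool.Agent.Lib.MP_9b5ec2_co
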