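import Mathlib
import Pool.Agent.Lib.MP_9b5ec2_co.Defs2
import Pool.Agent.Lib.MP_9b5ec2_co.Hyper

/-! From hereditary families to `TwoCol`, second part: packing and polychromatic colourings. -/

set_option autoImplicit false

namespace Pool.Agent.Lib.MP_9b5ec2_co

open Finset

universe u

/-- A model of a member of a hereditary family on `Fin n`. -/
theorem exists_model {m : ℕ} {α : Type u} [DecidableEq α] {F : Set (FinHypergraph α)}
    (hF : Hereditary F) (hP : PolyLE F 2 m) {H : FinHypergraph α} (hH : H ∈ F) :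
    ∃ (pt : Fin H.verts.card → α) (ed : Fin H.edges.card → Finset α)
      (A : Fin H.edges.card → Finset (Fin H.verts.card)),
      Function.Injective pt ∧ (∀ v ∈ H.verts, ∃ i, pt i = v) ∧ Function.Injective ed ∧
      (∀ i, ed i ∈ H.edges) ∧ (∀ e ∈ H.edges, ∃ i, ed i = e) ∧
      (∀ i, (A i).image pt = ed i) ∧ TwoCol m A := by
  classical
  let eq : H.verts ≃ Fin H.verts.card := H.verts.equivFin
  let pt : Fin H.verts.card → α := fun i => (eq.symm i : α)
  have pt_inj : Function.Injective pt := fun i j hij => by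
    have : eq.symm i = eq.symm j := Subtype.ext hij
    exact eq.symm.injective this
  have pt_mem : ∀ i, pt i ∈ H.verts := fun i => (eq.symm i).2
  have pt_surj : ∀ v ∈ H.verts, ∃ i, pt i = v := fun v hv => ⟨eq ⟨v, hv⟩, by simp [pt]⟩
  let ed : Fin H.edges.card → Finset α := fun i => (H.edges.equivFin.symm i : Finset α)
  have ed_inj : Function.Injective ed := fun i j hij => by
    have : H.edges.equivFin.symm i = H.edges.equivFin.symm j := Subtype.ext hij
    exact H.edges.equivFin.symm.injective this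
  have ed_mem : ∀ i, ed i ∈ H.edges := fun i => (H.edges.equivFin.symm i).2
  have ed_surj : ∀ e ∈ H.edges, ∃ i, ed i = e := fun e he =>
    ⟨H.edges.equivFin ⟨e, he⟩, by simp [ed]⟩
  let A : Fin H.edges.card → Finset (Fin H.verts.card) :=
    fun i => univ.filter (fun x => pt x ∈ ed i)
  have hA : ∀ i, (A i).image pt = ed i := by
    intro i
    ext v
    simp only [A, Finset.mem_image, Finset.mem_filter, Finset.mem_univ, true_and]
    constructor
    · rintro ⟨x, hx, rfl⟩
      exact hx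
    · intro hv
      obtain ⟨x, rfl⟩ := pt_surj v (H.edges_subset _ (ed_mem i) hv)
      exact ⟨x, hv, rfl⟩
  refine ⟨pt, ed, A, pt_inj, pt_surj, ed_inj, ed_mem, ed_surj, hA, ?_⟩
  intro S
  have hSsub : S.image pt ⊆ H.verts := by
    intro v hv
    obtain ⟨x, _, rfl⟩ := Finset.mem_image.1 hv
    exact pt_mem x
  obtain ⟨c, hc⟩ := hP _ (hF H hH (S.image pt) hSsub)
  refine ⟨univ.filter (fun x => c (pt x) = 0), ?_⟩
  intro i hi
  have himg : (A i ∩ S).image pt = ed i ∩ S.image pt := by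
    rw [Finset.image_inter _ _ pt_inj, hA]
  have hmem : ed i ∩ S.image pt ∈ (H.induce (S.image pt) hSsub).edges :=
    Finset.mem_image.2 ⟨ed i, ed_mem i, rfl⟩
  have hcard : m ≤ (ed i ∩ S.image pt).card := by
    rw [← himg, Finset.card_image_of_injective _ pt_inj]
    exact hi
  have hpoly := hc _ hmem hcard
  constructor
  · obtain ⟨v, hv, hcv⟩ := hpoly 0
    rw [← himg] at hv
    obtain ⟨x, hx, rfl⟩ := Finset.mem_image.1 hv
    exact ⟨x, Finset.mem_inter.2 ⟨hx, by simp [hcv]⟩⟩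
  · obtain ⟨v, hv, hcv⟩ := hpoly 1
    rw [← himg] at hv
    obtain ⟨x, hx, rfl⟩ := Finset.mem_image.1 hv
    exact ⟨x, Finset.mem_sdiff.2 ⟨hx, by simp [hcv]⟩⟩

theorem twoCol_subfamily {V ι κ : Type} [DecidableEq V] {m : ℕ} {A : ι → Finset V}
    (h : TwoCol m A) (g : κ → ι) : TwoCol m (fun k => A (g k)) := by
  intro S
  obtain ⟨R, hR⟩ := h S
  exact ⟨R, fun k => hR (g k)⟩

theorem twoCol_mono {V ι : Type} [DecidableEq V] {m m' : ℕ} (hm : m ≤ m') {A : ι → Finset V}
    (h : TwoCol m A) : TwoCol m' A := by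
  intro S
  obtain ⟨R, hR⟩ := h S
  exact ⟨R, fun k hk => hR k (hm.trans hk)⟩

/-- The packing theorem for hereditary families. -/
theorem packing_of (hG : GTStmt) (m : ℕ) :
    ∃ s₀ γ Λ : ℝ, 0 < γ ∧ ∀ (α : Type u) [DecidableEq α] (F : Set (FinHypergraph α)),
      Hereditary F → PolyLE F 2 m → ∀ H ∈ F, ∀ S ⊆ H.edges, ∀ s : ℝ, s₀ ≤ s →
        (∀ e ∈ S, s ≤ (e.card : ℝ) ∧ (e.card : ℝ) ≤ 2 * s) →
        (∀ e ∈ S, ∀ f ∈ S, e ≠ f → ((e ∩ f).card : ℝ) ≤ γ * s) →
        (S.card : ℝ) * s ≤ Λ * (H.verts.card : ℝ) := by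
  classical
  obtain ⟨Λ, γ, s₀, hΛ, hγ, hs₀, hpack⟩ := hG (max m 1) (le_max_right _ _)
  refine ⟨s₀, γ, Λ, hγ, ?_⟩
  intro α _ F hF hP H hH S hS s hs hsize hint
  obtain ⟨pt, ed, A, pt_inj, pt_surj, ed_inj, ed_mem, ed_surj, himg, hTwo⟩ :=
    exists_model hF hP hH
  have hcardA : ∀ i, (A i).card = (ed i).card := fun i => by
    rw [← himg i, Finset.card_image_of_injective _ pt_inj]
  have hcardI : ∀ i j, (A i ∩ A j).card = (ed i ∩ ed j).card := fun i j => by
    rw [← himg i, ← himg j, ← Finset.image_inter _ _ pt_inj,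
      Finset.card_image_of_injective _ pt_inj]
  have h1 := hpack (Fin H.verts.card) {i : Fin H.edges.card // ed i ∈ S} (fun i => A i.1) s
    (twoCol_mono (le_max_left _ _) (twoCol_subfamily hTwo _)) hs
    (fun i => by
      rw [hcardA]
      exact hsize _ i.2)
    (fun i j hij => by
      rw [hcardI]
      exact hint _ i.2 _ j.2 (fun h => hij (Subtype.ext (ed_inj h))))
  have h2 : Fintype.card {i : Fin H.edges.card // ed i ∈ S} = S.card := by
    rw [Fintype.card_subtype]
    have h3 : (univ.filter (fun i => ed i ∈ S)).image ed = S := by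
      ext e
      simp only [Finset.mem_image, Finset.mem_filter, Finset.mem_univ, true_and]
      constructor
      · rintro ⟨i, hi, rfl⟩
        exact hi
      · intro he
        obtain ⟨i, rfl⟩ := ed_surj e (hS he)
        exact ⟨i, he, rfl⟩
    rw [← h3, Finset.card_image_of_injective _ ed_inj, h3]
  rw [h2, Fintype.card_fin] at h1
  exact h1

/-- Polychromatic colourings for hereditary families with almost disjoint hyperedges. -/
theorem almostDisjoint_of (hA : AdStmt) (m : ℕ) :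
    ∃ (C : ℕ) (γ : ℝ), 0 < γ ∧
      ∀ (α : Type u) [DecidableEq α] (F : Set (FinHypergraph α)), Hereditary F → PolyLE F 2 m →
        ∀ H ∈ F, ∀ q t k : ℕ, 1 ≤ k → ∀ col : Finset α → Fin q,
          (∀ e ∈ H.edges, ∀ f ∈ H.edges, C * q * (k + t) ≤ e.card → C * q * (k + t) ≤ f.card →
            e ≠ f → col e = col f →
            ((e ∩ f).card : ℝ) ≤ t + γ * min (e.card : ℝ) (f.card : ℝ)) →
          ∃ c : α → Fin k, Polychromatic k (C * q * (k + t)) H c := by
  classical
  obtain ⟨C₁, γ₂, hC₁, hγ₂, had⟩ := hA m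
  obtain ⟨C₂, hC₂⟩ := exists_nat_ge (2 / γ₂)
  refine ⟨max C₁ C₂, γ₂ / 2, by positivity, ?_⟩
  intro α _ F hF hP H hH q t k hk col hcol
  have hCC₁ : C₁ ≤ max C₁ C₂ := le_max_left _ _
  have hCC₂ : (C₂ : ℝ) ≤ ((max C₁ C₂ : ℕ) : ℝ) := by exact_mod_cast le_max_right C₁ C₂
  have hq : 1 ≤ q := (col ∅).pos
  obtain ⟨pt, ed, A, pt_inj, pt_surj, ed_inj, ed_mem, ed_surj, himg, hTwo⟩ :=
    exists_model hF hP hH
  have hcardA : ∀ i, (A i).card = (ed i).card := fun i => by
    rw [← himg i, Finset.card_image_of_injective _ pt_inj]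
  have hcardI : ∀ i j, (A i ∩ A j).card = (ed i ∩ ed j).card := fun i j => by
    rw [← himg i, ← himg j, ← Finset.image_inter _ _ pt_inj,
      Finset.card_image_of_injective _ pt_inj]
  set M := (max C₁ C₂) * q * (k + t) with hM
  have hkM : C₁ * q * k ≤ M := by
    rw [hM]
    exact Nat.mul_le_mul (Nat.mul_le_mul_right _ hCC₁) (Nat.le_add_right _ _)
  have htM : (t : ℝ) ≤ γ₂ / 2 * (M : ℝ) := by
    have h1 : (max C₁ C₂) * t ≤ M := by
      rw [hM]
      calc (max C₁ C₂) * t = (max C₁ C₂) * 1 * t := by ring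
        _ ≤ (max C₁ C₂) * q * (k + t) :=
          Nat.mul_le_mul (Nat.mul_le_mul_left _ hq) (Nat.le_add_left _ _)
    have h2 : 2 / γ₂ * (t : ℝ) ≤ (M : ℝ) := by
      calc 2 / γ₂ * (t : ℝ) ≤ ((max C₁ C₂ : ℕ) : ℝ) * t :=
            mul_le_mul_of_nonneg_right (hC₂.trans hCC₂) (by positivity)
        _ ≤ (M : ℝ) := by exact_mod_cast h1
    calc (t : ℝ) = γ₂ / 2 * (2 / γ₂ * t) := by field_simp
      _ ≤ γ₂ / 2 * (M : ℝ) := mul_le_mul_of_nonneg_left h2 (by positivity)
  obtain ⟨c, hc⟩ := had (Fin H.verts.card) {i : Fin H.edges.card // M ≤ (A i).card}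
    (fun i => A i.1) q k (fun i => col (ed i.1)) (twoCol_subfamily hTwo _) hk
    (fun i => hkM.trans i.2)
    (fun i j hij hcij => by
      have hMi : M ≤ (ed i.1).card := by rw [← hcardA]; exact i.2
      have hMj : M ≤ (ed j.1).card := by rw [← hcardA]; exact j.2
      have h1 := hcol (ed i.1) (ed_mem _) (ed j.1) (ed_mem _) hMi hMj
        (fun h => hij (Subtype.ext (ed_inj h))) hcij
      rw [hcardI, hcardA, hcardA]
      refine h1.trans ?_
      have h2 : (M : ℝ) ≤ min ((ed i.1).card : ℝ) ((ed j.1).card : ℝ) :=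
        le_min (by exact_mod_cast hMi) (by exact_mod_cast hMj)
      have h3 : γ₂ / 2 * (M : ℝ) ≤ γ₂ / 2 * min ((ed i.1).card : ℝ) ((ed j.1).card : ℝ) :=
        mul_le_mul_of_nonneg_left h2 (by positivity)
      linarith)
  -- extend the colouring to all of `α`
  have hk0 : 0 < k := hk
  refine ⟨fun v => if h : ∃ x, pt x = v then c h.choose else ⟨0, hk0⟩, ?_⟩
  intro e he hMe i
  obtain ⟨j, rfl⟩ := ed_surj e he
  obtain ⟨x, hx, hcx⟩ := hc ⟨j, by rw [hcardA]; exact hMe⟩ i
  refine ⟨pt x, ?_, ?_⟩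
  · rw [← himg]
    exact Finset.mem_image_of_mem _ hx
  · have hex : ∃ y, pt y = pt x := ⟨x, rfl⟩
    have hch : hex.choose = x := pt_inj hex.choose_spec
    simp only [hex, dif_pos]
    rw [hch]
    exact hcx

end Pool.Agent.Lib.MP_9b5ec2_co
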