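import Mathlib
import Pool.Agent.Lib.MP_9b5ec2_co.Defs4
import Pool.Agent.Lib.MP_9b5ec2_co.Transfer2

/-!
# Disjoint nets (R11): assembly of `LogStmt`
-/

set_option autoImplicit false

namespace Pool.Agent.Lib.MP_9b5ec2_co

open Finset

/-- the logarithm of the number of test sets -/
theorem logThm_card {g n m : ℕ} (hm : 1 ≤ m) (h : g ≤ (n + 1) ^ (2 * m - 2)) :
    Real.log (g : ℝ) ≤ 2 * m * Real.log (n + 2) := by
  have hn : (0 : ℝ) ≤ n := Nat.cast_nonneg n
  have hm0 : (0 : ℝ) ≤ (m : ℝ) := Nat.cast_nonneg m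
  have hlog2 : 0 ≤ Real.log ((n : ℝ) + 2) := Real.log_nonneg (by linarith)
  rcases Nat.eq_zero_or_pos g with h0 | h0
  · rw [h0, Nat.cast_zero, Real.log_zero]
    positivity
  · have hg : (0 : ℝ) < g := by exact_mod_cast h0
    have h1 : (g : ℝ) ≤ ((n : ℝ) + 1) ^ (2 * m - 2) := by exact_mod_cast h
    have h2 : Real.log (g : ℝ) ≤ ((2 * m - 2 : ℕ) : ℝ) * Real.log ((n : ℝ) + 1) := by
      rw [← Real.log_pow]
      exact Real.log_le_log hg h1
    have h3 : Real.log ((n : ℝ) + 1) ≤ Real.log ((n : ℝ) + 2) :=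
      Real.log_le_log (by linarith) (by linarith)
    have h4 : ((2 * m - 2 : ℕ) : ℝ) ≤ 2 * m := by
      have : (2 * m - 2 : ℕ) ≤ 2 * m := Nat.sub_le _ _
      exact_mod_cast this
    calc Real.log (g : ℝ) ≤ ((2 * m - 2 : ℕ) : ℝ) * Real.log ((n : ℝ) + 1) := h2
      _ ≤ ((2 * m - 2 : ℕ) : ℝ) * Real.log ((n : ℝ) + 2) :=
          mul_le_mul_of_nonneg_left h3 (Nat.cast_nonneg _)
      _ ≤ 2 * m * Real.log ((n : ℝ) + 2) := mul_le_mul_of_nonneg_right h4 hlog2

/-- sums of the weights `2/s` on `U` -/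
theorem logThm_sum {V : Type} [DecidableEq V] (U S : Finset V) (s : ℝ) :
    ∑ v ∈ S, (if v ∈ U then 2 / s else 0) = ((S ∩ U).card : ℝ) * (2 / s) := by
  rw [← Finset.sum_filter, Finset.sum_const, nsmul_eq_mul, Finset.filter_mem_eq_inter]

theorem logThm (h1 : ChainStmt) (h2 : GreedyNetsStmt) (h3 : TestStmt) (h4 : ConstStmt) :
    LogStmt := by
  intro m η hη hη1
  have hm' : 1 ≤ m + 1 := Nat.le_add_left 1 m
  obtain ⟨b, c, hb, hc, hChain⟩ := h1 (m + 1) hm'
  obtain ⟨D, hD, hConst⟩ := h4 (m + 1) b c η hb hc hη hη1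
  obtain ⟨k₁, hk₁, hCh⟩ := hChain D hD
  obtain ⟨k₀, C, hk₀, hC, hCon⟩ := hConst k₁ hk₁
  refine ⟨C, by linarith, ?_⟩
  intro V ι _ _ _ _ A k s hA hk hs
  have hA' : TwoCol (m + 1) A := twoCol_mono (Nat.le_succ m) hA
  obtain ⟨J, l, hJ, hl, hl4, hDb, hlE, hs1, h4k, hexp, hlog⟩ := hCon (Fintype.card V) k s hk hs
  obtain ⟨Gs, hG1, hG2, hG3⟩ := h3 (m + 1) V ι A s hm' hA' hs1
  have hs0 : 0 < s := by linarith
  have hk00 : 0 < k₀ := by linarith
  have h2s : 0 < 2 / s := by positivity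
  refine h2 V ι A s l (16 * k₀) Gs k hs0 hl (by linarith) hlE hG1 ?_ ?_
  · intro U
    have hw0 : ∀ v, 0 ≤ (fun v => if v ∈ U then 2 / s else 0 : V → ℝ) v := by
      intro v
      show 0 ≤ (if v ∈ U then 2 / s else 0)
      split_ifs
      · exact h2s.le
      · exact le_rfl
    have hpt : ∀ v, 2 * k₀ * (D * b) ^ J * (fun v => if v ∈ U then 2 / s else 0 : V → ℝ) v ≤
        b ^ (J - J) := by
      intro v
      rw [Nat.sub_self, pow_zero]
      show 2 * k₀ * (D * b) ^ J * (if v ∈ U then 2 / s else 0) ≤ 1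
      split_ifs
      · rw [show 2 * k₀ * (D * b) ^ J * (2 / s) = 4 * k₀ * (D * b) ^ J / s by ring]
        rw [div_le_one hs0]
        exact h4k
      · rw [mul_zero]; exact zero_le_one
    obtain ⟨q, hq0, hq1, hqU, hqe, hqG⟩ :=
      hCh k₀ l J J hk₀ hl hl4 hDb le_rfl V ι A (fun v => if v ∈ U then 2 / s else 0) hA' hw0 hpt
    refine ⟨q, hq0, hq1, ?_, ?_, ?_⟩
    · intro T hT v hv
      have := hqU T hT v hv
      by_contra hc'
      exact this (if_neg hc')
    · have hJ0 : J ≠ 0 := by omega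
      rw [if_neg hJ0] at hqe
      have hsum : ∑ v, (if v ∈ U then 2 / s else 0 : ℝ) ≤ 2 * (Fintype.card V : ℝ) := by
        have : ∑ v : V, (if v ∈ U then 2 / s else 0 : ℝ) ≤ ∑ _v : V, (2 : ℝ) := by
          refine Finset.sum_le_sum fun v _ => ?_
          split_ifs
          · rw [div_le_iff₀ hs0]; linarith
          · norm_num
        rw [Finset.sum_const, nsmul_eq_mul, Finset.card_univ] at this
        linarith
      have hcond : ∀ T : Finset V, (∃ i, s / 2 ≤ ((A i ∩ U).card : ℝ) ∧ A i ∩ T = ∅) ↔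
          (∃ i, 1 ≤ ∑ v ∈ A i, (if v ∈ U then 2 / s else 0 : ℝ) ∧ A i ∩ T = ∅) := by
        intro T
        refine exists_congr fun i => and_congr_left fun _ => ?_
        rw [logThm_sum, mul_div_assoc', le_div_iff₀ hs0]
        constructor <;> intro h <;> linarith
      have heq : ∀ T : Finset V, (open Classical in
          if ∃ i, s / 2 ≤ ((A i ∩ U).card : ℝ) ∧ A i ∩ T = ∅ then (1 : ℝ) else 0) =
          (open Classical in if ∃ i, 1 ≤ ∑ v ∈ A i, (if v ∈ U then 2 / s else 0 : ℝ) ∧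
            A i ∩ T = ∅ then (1 : ℝ) else 0) := by
        intro T
        by_cases h : ∃ i, s / 2 ≤ ((A i ∩ U).card : ℝ) ∧ A i ∩ T = ∅
        · rw [if_pos h, if_pos ((hcond T).1 h)]
        · rw [if_neg h, if_neg fun h' => h ((hcond T).2 h')]
      have hrw : ∑ T, q T * (open Classical in
          if ∃ i, s / 2 ≤ ((A i ∩ U).card : ℝ) ∧ A i ∩ T = ∅ then (1 : ℝ) else 0) =
          ∑ T, q T * (open Classical in
            if ∃ i, 1 ≤ ∑ v ∈ A i, (if v ∈ U then 2 / s else 0 : ℝ) ∧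
              A i ∩ T = ∅ then (1 : ℝ) else 0) :=
        Finset.sum_congr rfl fun T _ => by rw [heq T]
      refine le_trans (le_of_eq hrw) (le_trans hqe ?_)
      refine le_trans (mul_le_mul_of_nonneg_left hsum (Real.exp_pos _).le) ?_
      exact hexp
    · intro G hG
      have hcardG : ((G ∩ U).card : ℝ) ≤ 2 * s := by
        have : (G ∩ U).card ≤ G.card := Finset.card_le_card Finset.inter_subset_left
        have h5 : ((G ∩ U).card : ℝ) ≤ (G.card : ℝ) := by exact_mod_cast this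
        exact h5.trans (hG2 G hG)
      have hwG : ∑ v ∈ G, (if v ∈ U then 2 / s else 0 : ℝ) ≤ 4 := by
        rw [logThm_sum, mul_div_assoc', div_le_iff₀ hs0]
        linarith
      have := hqG G (by
        rw [Nat.sub_self, pow_zero, mul_one]
        exact hwG)
      refine this.trans (Real.exp_le_exp.2 ?_)
      rw [Nat.sub_self, pow_zero, mul_one]
      have h6 : 0 ≤ 4 * l * k₀ := by positivity
      have := mul_le_mul_of_nonneg_left hwG h6
      linarith
  · have h5 := logThm_card hm' hG3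
    push_cast at hlog h5
    linarith

end Pool.Agent.Lib.MP_9b5ec2_co
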