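import Mathlib
import Pool.Agent.Lib.MP_9b5ec2_co.Defs2

/-!
# MP_9b5ec2_co: `LossStmt`
-/

set_option autoImplicit false

namespace Pool.Agent.Lib.MP_9b5ec2_co

open Finset

section Loss

variable {V ι : Type} [Fintype V] [DecidableEq V] [Fintype ι] [DecidableEq ι]

lemma loss_mem_above {A : ι → Finset V} {K k : ℕ} {u : V} :
    u ∈ above A K k ↔ k ≤ blk A K u := by
  unfold above
  simp

lemma loss_mem_mono {A : ι → Finset V} {K : ℕ} {T W : Finset V} {c : Bool} {a k : ℕ} {e : ι} :
    e ∈ mono A K T W c a k ↔ (A e ∩ (T ∩ above A K k)).card = a ∧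
      ∀ x ∈ A e ∩ (T ∩ above A K k), decide (x ∈ W) = c := by
  unfold mono
  simp only [mem_filter, mem_univ, true_and]

lemma loss_mono_restrict (A : ι → Finset V) (K : ℕ) (T W : Finset V) (c : Bool) (a k : ℕ) :
    mono A K (T ∩ above A K k) (W ∩ above A K k) c a k = mono A K T W c a k := by
  ext e
  rw [loss_mem_mono, loss_mem_mono, Finset.inter_assoc T, Finset.inter_self]
  apply and_congr_right
  intro _
  apply forall_congr'
  intro x
  apply imp_congr_right
  intro hx
  have h1 : x ∈ above A K k := (mem_inter.1 (mem_inter.1 hx).2).2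
  have h2 : (x ∈ W ∩ above A K k) ↔ x ∈ W := by
    rw [mem_inter]
    exact ⟨fun h => h.1, fun h => ⟨h, h1⟩⟩
  simp only [h2]

lemma loss_mono_congr {A : ι → Finset V} {K : ℕ} {T W : Finset V} {c : Bool} {a j : ℕ} {e : ι}
    (h : ∀ u ∈ A e ∩ T, blk A K u ≠ j) :
    e ∈ mono A K T W c a j ↔ e ∈ mono A K T W c a (j + 1) := by
  have h1 : A e ∩ (T ∩ above A K j) = A e ∩ (T ∩ above A K (j + 1)) := by
    ext u
    simp only [mem_inter, loss_mem_above]
    constructor
    · rintro ⟨h2, h3, h4⟩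
      have := h u (mem_inter.2 ⟨h2, h3⟩)
      exact ⟨h2, h3, by omega⟩
    · rintro ⟨h2, h3, h4⟩
      exact ⟨h2, h3, by omega⟩
  rw [loss_mem_mono, loss_mem_mono, h1]

lemma loss_cases {A : ι → Finset V} {K : ℕ} {T W : Finset V} {c : Bool} {a k₀ : ℕ} {e : ι}
    (h : ∃ k, k₀ ≤ k ∧ e ∈ mono A K T W c a k) (h0 : e ∉ mono A K T W c a k₀) :
    (∃ u ∈ A e ∩ T, k₀ ≤ blk A K u ∧ e ∈ mono A K T W c a (blk A K u + 2)) ∨
      1 ≤ clo A K T e := by
  classical
  obtain ⟨h1, h2⟩ := Nat.find_spec h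
  have h3 : ∀ j, j < Nat.find h → ¬ (k₀ ≤ j ∧ e ∈ mono A K T W c a j) := fun j hj =>
    Nat.find_min h hj
  obtain ⟨k, hk⟩ : ∃ k, k = Nat.find h := ⟨_, rfl⟩
  rw [← hk] at h1 h2 h3
  have hne : k ≠ k₀ := by
    rintro rfl
    exact h0 h2
  obtain ⟨j, rfl⟩ : ∃ j, k = j + 1 := ⟨k - 1, by omega⟩
  have hj : k₀ ≤ j := by omega
  have hj' : e ∉ mono A K T W c a j := fun h4 => h3 j (Nat.lt_succ_self j) ⟨hj, h4⟩
  have h5 : ∃ u ∈ A e ∩ T, blk A K u = j := by
    by_contra hcon
    push Not at hcon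
    exact hj' ((loss_mono_congr hcon).2 h2)
  obtain ⟨u, hu, hbu⟩ := h5
  by_cases h6 : e ∈ mono A K T W c a (j + 1 + 1)
  · left
    refine ⟨u, hu, by omega, ?_⟩
    rw [hbu]
    exact h6
  · right
    have h7 : ∃ u' ∈ A e ∩ T, blk A K u' = j + 1 := by
      by_contra hcon
      push Not at hcon
      exact h6 ((loss_mono_congr hcon).1 h2)
    obtain ⟨u', hu', hbu'⟩ := h7
    unfold clo
    rw [Nat.succ_le_iff, Finset.card_pos]
    refine ⟨(u, u'), ?_⟩
    rw [mem_filter, mem_product]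
    refine ⟨⟨hu, hu'⟩, ?_, ?_, ?_⟩
    · intro h8
      have h9 : u = u' := h8
      rw [h9] at hbu
      omega
    · change blk A K u ≤ blk A K u' + 1
      omega
    · change blk A K u' ≤ blk A K u + 1
      omega

/-- `cnt` of the status predicate. -/
lemma loss_cnt (A : ι → Finset V) (K : ℕ) (T W : Finset V) (c : Bool) (a : ℕ) (u v : V) :
    cnt A K (stPrd A K c a) T W u v =
      ((mono A K T W c a (blk A K u + 2)).filter (fun e => u ∈ A e ∧ v ∈ A e)).card := by
  classical
  unfold cnt stPrd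
  congr 1
  ext e
  simp only [mem_filter, mem_univ, true_and]
  rw [loss_mono_restrict]
  tauto

lemma loss_lost_le (A : ι → Finset V) (K : ℕ) (T W : Finset V) (c : Bool) (a : ℕ) (v : V) :
    (ever A K T W c a v).card ≤ deg A (mono A K T W c a (blk A K v + 2)) v +
      (∑ u ∈ T ∩ above A K (blk A K v + 2), cnt A K (stPrd A K c a) T W u v + cloV A K T v) := by
  classical
  have h1 : ever A K T W c a v ⊆
      (mono A K T W c a (blk A K v + 2)).filter (fun e => v ∈ A e) ∪
        ((T ∩ above A K (blk A K v + 2)).biUnion (fun u =>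
          (mono A K T W c a (blk A K u + 2)).filter (fun e => u ∈ A e ∧ v ∈ A e)) ∪
        (univ.filter (fun e => v ∈ A e)).filter (fun e => 1 ≤ clo A K T e)) := by
    intro e he
    unfold ever at he
    rw [mem_filter] at he
    obtain ⟨-, hv, hk⟩ := he
    by_cases h0 : e ∈ mono A K T W c a (blk A K v + 2)
    · exact mem_union_left _ (mem_filter.2 ⟨h0, hv⟩)
    · apply mem_union_right
      rcases loss_cases hk h0 with ⟨u, hu, hbu, hm⟩ | hclo
      · apply mem_union_left
        rw [mem_biUnion]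
        rw [mem_inter] at hu
        exact ⟨u, mem_inter.2 ⟨hu.2, loss_mem_above.2 hbu⟩, mem_filter.2 ⟨hm, hu.1, hv⟩⟩
      · apply mem_union_right
        exact mem_filter.2 ⟨mem_filter.2 ⟨mem_univ _, hv⟩, hclo⟩
  refine (card_le_card h1).trans ((card_union_le _ _).trans (Nat.add_le_add ?_
    ((card_union_le _ _).trans (Nat.add_le_add ?_ ?_))))
  · exact le_rfl
  · refine card_biUnion_le.trans (le_of_eq ?_)
    apply sum_congr rfl
    intro u _
    rw [loss_cnt]
  · unfold cloV
    rw [card_filter]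
    apply sum_le_sum
    intro e _
    split_ifs with h
    · exact h
    · exact Nat.zero_le _

lemma loss_total_le (A : ι → Finset V) (K : ℕ) (T W : Finset V) (c : Bool) (a : ℕ) (v : V)
    (s : ℝ) (hA : ∀ e, ((A e).card : ℝ) ≤ 2 * s) :
    ∑ u ∈ above A K (blk A K v + 2), (cnt A K (stPrd A K c a) T W u v : ℝ) ≤
      2 * s * ((ever A K T W c a v).card : ℝ) := by
  classical
  have h1 : ∀ u ∈ above A K (blk A K v + 2), (cnt A K (stPrd A K c a) T W u v : ℝ) ≤
      ∑ e ∈ ever A K T W c a v, (if u ∈ A e then (1 : ℝ) else 0) := by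
    intro u hu
    rw [loss_cnt, ← sum_filter, sum_const, nsmul_eq_mul, mul_one]
    norm_cast
    apply card_le_card
    intro e he
    rw [mem_filter] at he ⊢
    refine ⟨?_, he.2.1⟩
    unfold ever
    rw [mem_filter]
    refine ⟨mem_univ _, he.2.2, blk A K u + 2, ?_, he.1⟩
    have := loss_mem_above.1 hu
    omega
  refine (sum_le_sum h1).trans ?_
  rw [sum_comm]
  have h2 : ∀ e ∈ ever A K T W c a v,
      ∑ u ∈ above A K (blk A K v + 2), (if u ∈ A e then (1 : ℝ) else 0) ≤ 2 * s := by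
    intro e _
    refine le_trans ?_ (hA e)
    rw [← sum_filter, sum_const, nsmul_eq_mul, mul_one]
    norm_cast
    apply card_le_card
    intro u hu
    exact (mem_filter.1 hu).2
  refine (sum_le_sum h2).trans ?_
  rw [sum_const, nsmul_eq_mul]
  exact le_of_eq (mul_comm _ _)

end Loss

theorem loss : LossStmt := by
  intro V ι _ _ _ _ A K s θ δ T W c a v hs hθ hA hdev hclo
  have h1 := loss_lost_le A K T W c a v
  have h2 := loss_total_le A K T W c a v s hA
  have h3 : ((ever A K T W c a v).card : ℝ) ≤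
      (deg A (mono A K T W c a (blk A K v + 2)) v : ℝ) +
      (∑ u ∈ T ∩ above A K (blk A K v + 2), (cnt A K (stPrd A K c a) T W u v : ℝ) +
        (cloV A K T v : ℝ)) := by
    exact_mod_cast h1
  have h4 : ∑ u ∈ T ∩ above A K (blk A K v + 2), (cnt A K (stPrd A K c a) T W u v : ℝ) =
      dev A K (θ / s) (stPrd A K c a) T W v +
        θ / s * ∑ u ∈ above A K (blk A K v + 2), (cnt A K (stPrd A K c a) T W u v : ℝ) := by
    unfold dev
    rw [mul_sum, ← sum_add_distrib]
    have h5 : ∀ u ∈ above A K (blk A K v + 2),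
        ((if u ∈ T then (1 : ℝ) else 0) - θ / s) * (cnt A K (stPrd A K c a) T W u v : ℝ) +
          θ / s * (cnt A K (stPrd A K c a) T W u v : ℝ) =
        if u ∈ T then (cnt A K (stPrd A K c a) T W u v : ℝ) else 0 := by
      intro u _
      split_ifs
      · ring
      · ring
    rw [sum_congr rfl h5, ← sum_filter]
    apply sum_congr _ (fun _ _ => rfl)
    ext u
    rw [mem_inter, mem_filter]
    tauto
  have h6 : dev A K (θ / s) (stPrd A K c a) T W v ≤ δ * (dg A v : ℝ) :=
    (le_abs_self _).trans hdev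
  have h7 : θ / s * ∑ u ∈ above A K (blk A K v + 2), (cnt A K (stPrd A K c a) T W u v : ℝ) ≤
      2 * θ * ((ever A K T W c a v).card : ℝ) := by
    calc θ / s * ∑ u ∈ above A K (blk A K v + 2), (cnt A K (stPrd A K c a) T W u v : ℝ)
        ≤ θ / s * (2 * s * ((ever A K T W c a v).card : ℝ)) :=
          mul_le_mul_of_nonneg_left h2 (div_pos hθ hs).le
      _ = 2 * θ * ((ever A K T W c a v).card : ℝ) := by
          field_simp
  linarith

end Pool.Agent.Lib.MP_9b5ec2_co
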