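import Pool.Agent.Lib.MP_9b5ec2_co.Defs

/-!
# Bounded nets (double sampling)
-/

set_option autoImplicit false

namespace Pool.Agent.Lib.MP_9b5ec2_co

open Finset

namespace NetAux

/-- Exchange of the entries of the two sequences at the places where `τ` is true. -/
def swp {α : Type} {M : ℕ} (τ : Fin M → Bool) (p : (Fin M → α) × (Fin M → α)) :
    (Fin M → α) × (Fin M → α) :=
  (fun j => if τ j then p.2 j else p.1 j, fun j => if τ j then p.1 j else p.2 j)

theorem swp_invol {α : Type} {M : ℕ} (τ : Fin M → Bool) :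
    Function.Involutive (swp (α := α) τ) := by
  intro p
  unfold swp
  ext j
  · by_cases h : τ j <;> simp [h]
  · by_cases h : τ j <;> simp [h]

/-- Few exchanges are bad for a fixed trace `X`. -/
theorem card_tau {α : Type} [DecidableEq α] {M : ℕ} (p : (Fin M → α) × (Fin M → α))
    (X : Finset α) (m₀ : ℕ) :
    (univ.filter (fun τ : Fin M → Bool => (∀ i, (swp τ p).1 i ∉ X) ∧
      m₀ ≤ (univ.filter (fun j => (swp τ p).2 j ∈ X)).card)).card * 2 ^ m₀ ≤ 2 ^ M := by
  classical
  set Q := univ.filter (fun τ : Fin M → Bool => (∀ i, (swp τ p).1 i ∉ X) ∧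
      m₀ ≤ (univ.filter (fun j => (swp τ p).2 j ∈ X)).card) with hQ
  rcases Q.eq_empty_or_nonempty with h0 | ⟨τ₀, hτ₀⟩
  · rw [h0]; simp
  set J : Finset (Fin M) := univ.filter (fun j => p.1 j ∈ X ∨ p.2 j ∈ X) with hJ
  have hm : m₀ ≤ J.card := by
    rw [hQ, mem_filter] at hτ₀
    refine le_trans hτ₀.2.2 (card_le_card ?_)
    intro j hj
    rw [mem_filter] at hj
    rw [hJ, mem_filter]
    refine ⟨mem_univ _, ?_⟩
    have := hj.2
    unfold swp at this
    by_cases hb : τ₀ j
    · simp only [hb, if_true] at this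
      exact Or.inl this
    · simp only [hb] at this
      exact Or.inr (by simpa using this)
  set S : Fin M → Finset Bool :=
    fun j => univ.filter (fun b : Bool => (if b then p.2 j else p.1 j) ∉ X) with hS
  have hsub : Q ⊆ Fintype.piFinset S := by
    intro τ hτ
    rw [hQ, mem_filter] at hτ
    rw [Fintype.mem_piFinset]
    intro j
    rw [hS]
    simp only [mem_filter, mem_univ, true_and]
    exact hτ.2.1 j
  have hScard : ∀ j, (S j).card ≤ if j ∈ J then 1 else 2 := by
    intro j
    split_ifs with hj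
    · rw [hJ, mem_filter] at hj
      rw [Finset.card_le_one]
      intro a ha b hb
      rw [hS] at ha hb
      simp only [mem_filter, mem_univ, true_and] at ha hb
      rcases hj.2 with h | h
      · cases a
        · exact absurd h (by simpa using ha)
        · cases b
          · exact absurd h (by simpa using hb)
          · rfl
      · cases a
        · cases b
          · rfl
          · exact absurd h (by simpa using hb)
        · exact absurd h (by simpa using ha)
    · calc (S j).card ≤ (univ : Finset Bool).card := card_le_card (filter_subset _ _)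
        _ = 2 := by simp
  have hprod : ∏ j, (if j ∈ J then 1 else 2 : ℕ) = 2 ^ (univ.filter (fun j => j ∉ J)).card := by
    rw [Finset.prod_ite, Finset.prod_const_one, one_mul, Finset.prod_const]
  have hcardQ : Q.card ≤ 2 ^ (univ.filter (fun j => j ∉ J)).card := by
    calc Q.card ≤ (Fintype.piFinset S).card := card_le_card hsub
      _ = ∏ j, (S j).card := Fintype.card_piFinset S
      _ ≤ ∏ j, (if j ∈ J then 1 else 2 : ℕ) :=
          Finset.prod_le_prod (fun _ _ => Nat.zero_le _) fun j _ => hScard j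
      _ = _ := hprod
  have hsum : (univ.filter (fun j => j ∉ J)).card + J.card = M := by
    have h1 := Finset.card_compl_add_card J
    rw [Fintype.card_fin] at h1
    have h2 : univ.filter (fun j => j ∉ J) = Jᶜ := by
      ext j
      simp
    rw [h2]
    exact h1
  calc Q.card * 2 ^ m₀ ≤ 2 ^ (univ.filter (fun j => j ∉ J)).card * 2 ^ J.card :=
        Nat.mul_le_mul hcardQ (Nat.pow_le_pow_right (by norm_num) hm)
    _ = 2 ^ M := by rw [← pow_add, hsum]

/-- Number of sequences whose `j`-th entry is in `P`. -/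
theorem card_coord {α : Type} [Fintype α] [DecidableEq α] {M : ℕ} (P : Finset α) (j : Fin M) :
    (univ.filter (fun z : Fin M → α => z j ∈ P)).card =
      P.card * (Fintype.card α) ^ (M - 1) := by
  classical
  have h1 : univ.filter (fun z : Fin M → α => z j ∈ P) =
      Fintype.piFinset (fun i => if i = j then P else univ) := by
    ext z
    rw [mem_filter, Fintype.mem_piFinset]
    constructor
    · rintro ⟨-, h⟩ i
      by_cases hij : i = j
      · subst hij; simpa using h
      · simp [hij]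
    · intro h
      refine ⟨mem_univ _, ?_⟩
      simpa using h j
  rw [h1, Fintype.card_piFinset, ← Finset.mul_prod_erase univ _ (mem_univ j)]
  simp only [if_true]
  congr 1
  have h2 : ∀ i ∈ univ.erase j, (if i = j then P else univ : Finset α).card = Fintype.card α := by
    intro i hi
    rw [if_neg (Finset.ne_of_mem_erase hi)]
    rfl
  rw [Finset.prod_congr rfl h2, Finset.prod_const, Finset.card_erase_of_mem (mem_univ j),
    Finset.card_univ, Fintype.card_fin]

/-- A heavy set is hit often by many sequences. -/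
theorem card_hits {α : Type} [Fintype α] [DecidableEq α] (M : ℕ) (P : Finset α) (ε : ℝ)
    (hε : 0 < ε) (hM : 0 < M) (hP : ε * (Fintype.card α : ℝ) ≤ (P.card : ℝ)) :
    ε / 2 * (Fintype.card α : ℝ) ^ M ≤
      ((univ.filter (fun z : Fin M → α =>
        ε * M / 2 ≤ ((univ.filter (fun j => z j ∈ P)).card : ℝ))).card : ℝ) := by
  classical
  set n : ℝ := (Fintype.card α : ℝ) with hn
  have hn0 : 0 ≤ n := Nat.cast_nonneg _
  set G := univ.filter (fun z : Fin M → α =>
    ε * M / 2 ≤ ((univ.filter (fun j => z j ∈ P)).card : ℝ)) with hG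
  have hMr : (0 : ℝ) < M := by exact_mod_cast hM
  -- the double sum
  have hsum : ∑ z : Fin M → α, ((univ.filter (fun j => z j ∈ P)).card : ℝ) =
      M * (P.card * n ^ (M - 1)) := by
    have e1 : ∀ z : Fin M → α, ((univ.filter (fun j => z j ∈ P)).card : ℝ) =
        ∑ j, if z j ∈ P then (1 : ℝ) else 0 := fun z => by rw [Finset.sum_boole]
    rw [Finset.sum_congr rfl fun z _ => e1 z, Finset.sum_comm]
    have e2 : ∀ j : Fin M, ∑ z : Fin M → α, (if z j ∈ P then (1 : ℝ) else 0) =
        P.card * n ^ (M - 1) := by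
      intro j
      rw [Finset.sum_boole, card_coord P j]
      push_cast
      rfl
    rw [Finset.sum_congr rfl fun j _ => e2 j, Finset.sum_const, Finset.card_univ,
      Fintype.card_fin, nsmul_eq_mul]
  have hlow : M * (ε * n ^ M) ≤ ∑ z : Fin M → α, ((univ.filter (fun j => z j ∈ P)).card : ℝ) := by
    rw [hsum]
    apply mul_le_mul_of_nonneg_left _ hMr.le
    have e3 : n ^ M = n * n ^ (M - 1) := by
      rw [← pow_succ']
      congr 1
      omega
    rw [e3, ← mul_assoc]
    exact mul_le_mul_of_nonneg_right hP (pow_nonneg hn0 _)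
  have hup : ∑ z : Fin M → α, ((univ.filter (fun j => z j ∈ P)).card : ℝ) ≤
      M * (G.card : ℝ) + ε * M / 2 * n ^ M := by
    have e4 : ∀ z : Fin M → α, ((univ.filter (fun j => z j ∈ P)).card : ℝ) ≤
        (if z ∈ G then (M : ℝ) else 0) + ε * M / 2 := by
      intro z
      by_cases hz : z ∈ G
      · rw [if_pos hz]
        have : ((univ.filter (fun j => z j ∈ P)).card : ℝ) ≤ M := by
          have := Finset.card_le_univ (univ.filter (fun j => z j ∈ P))
          rw [Fintype.card_fin] at this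
          exact_mod_cast this
        have h2 : 0 ≤ ε * M / 2 := by positivity
        linarith
      · rw [if_neg hz]
        rw [hG, mem_filter, not_and, not_le] at hz
        have := hz (mem_univ _)
        linarith
    calc ∑ z : Fin M → α, ((univ.filter (fun j => z j ∈ P)).card : ℝ)
        ≤ ∑ z : Fin M → α, ((if z ∈ G then (M : ℝ) else 0) + ε * M / 2) :=
          Finset.sum_le_sum fun z _ => e4 z
      _ = M * (G.card : ℝ) + ε * M / 2 * n ^ M := by
          rw [Finset.sum_add_distrib, Finset.sum_ite_mem, Finset.univ_inter, Finset.sum_const,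
            Finset.sum_const, Finset.card_univ, nsmul_eq_mul, nsmul_eq_mul, Fintype.card_fun,
            Fintype.card_fin]
          push_cast
          ring
  have h := hlow.trans hup
  have h2 : M * (ε / 2 * n ^ M) ≤ M * (G.card : ℝ) := by
    have e5 : (M : ℝ) * (ε / 2 * n ^ M) = M * (ε * n ^ M) - ε * M / 2 * n ^ M := by ring
    rw [e5]
    linarith
  exact le_of_mul_le_mul_left h2 hMr

/-- Number of small subsets. -/
theorem card_small {α : Type} [DecidableEq α] (Z : Finset α) (d : ℕ) :
    (Z.powerset.filter (fun s => s.card ≤ d)).card ≤ (d + 1) * (Z.card + 1) ^ d := by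
  classical
  have hsub : Z.powerset.filter (fun s => s.card ≤ d) ⊆
      (range (d + 1)).biUnion (fun k => Z.powersetCard k) := by
    intro s hs
    rw [mem_filter, mem_powerset] at hs
    rw [mem_biUnion]
    exact ⟨s.card, mem_range.2 (Nat.lt_succ_of_le hs.2), mem_powersetCard.2 ⟨hs.1, rfl⟩⟩
  calc (Z.powerset.filter (fun s => s.card ≤ d)).card
      ≤ ((range (d + 1)).biUnion (fun k => Z.powersetCard k)).card := card_le_card hsub
    _ ≤ ∑ k ∈ range (d + 1), (Z.powersetCard k).card := card_biUnion_le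
    _ ≤ ∑ _k ∈ range (d + 1), (Z.card + 1) ^ d := by
        apply Finset.sum_le_sum
        intro k hk
        rw [card_powersetCard]
        calc Z.card.choose k ≤ Z.card ^ k := Nat.choose_le_pow _ _
          _ ≤ (Z.card + 1) ^ k := Nat.pow_le_pow_left (Nat.le_succ _) _
          _ ≤ (Z.card + 1) ^ d :=
              Nat.pow_le_pow_right (Nat.succ_pos _) (Nat.lt_succ_iff.1 (mem_range.1 hk))
    _ = (d + 1) * (Z.card + 1) ^ d := by
        rw [Finset.sum_const, card_range, smul_eq_mul]

/-- The points of `Y` in `A e`. -/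
noncomputable def pts {V ι : Type} [DecidableEq V] (A : ι → Finset V) (Y : Finset V) (e : ι) :
    Finset {y // y ∈ Y} := univ.filter (fun y => y.1 ∈ A e)

open Classical in
/-- The traces on `Z`. -/
noncomputable def trc {V ι : Type} [DecidableEq V] (A : ι → Finset V) (Y : Finset V)
    (Z : Finset {y // y ∈ Y}) : Finset (Finset {y // y ∈ Y}) :=
  Z.powerset.filter (fun X => ∃ e, pts A Y e ∩ Z = X)

theorem card_trc {V ι : Type} [DecidableEq V] (A : ι → Finset V) (d : ℕ)
    (hA : ∀ S : Finset V, S.card = d + 1 → ¬ ∀ X, X ⊆ S → ∃ e, A e ∩ S = X)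
    (Y : Finset V) (Z : Finset {y // y ∈ Y}) :
    (trc A Y Z).card ≤ (d + 1) * (Z.card + 1) ^ d := by
  classical
  refine le_trans (Finset.card_le_card_shatterer _) (le_trans (card_le_card ?_) (card_small Z d))
  intro s hs
  rw [Finset.mem_shatterer] at hs
  have hsZ : s ⊆ Z := by
    obtain ⟨u, hu, hsu⟩ := hs (Finset.Subset.refl s)
    unfold trc at hu
    rw [mem_filter, mem_powerset] at hu
    intro x hx
    rw [← hsu] at hx
    exact hu.1 (mem_inter.1 hx).2
  rw [mem_filter, mem_powerset]
  refine ⟨hsZ, ?_⟩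
  by_contra hcon
  push Not at hcon
  obtain ⟨s', hs's, hs'c⟩ := Finset.exists_subset_card_eq (show d + 1 ≤ s.card from hcon)
  apply hA (s'.map (Function.Embedding.subtype _)) (by rw [card_map, hs'c])
  intro X hX
  obtain ⟨u, hu, hsu⟩ := hs (t := s'.filter (fun y => y.1 ∈ X))
    ((filter_subset _ _).trans hs's)
  unfold trc at hu
  rw [mem_filter] at hu
  obtain ⟨-, e, he⟩ := hu
  refine ⟨e, ?_⟩
  ext v
  rw [mem_inter, mem_map]
  constructor
  · rintro ⟨hvA, y, hy, rfl⟩
    have hyZ : y ∈ Z := hsZ (hs's hy)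
    have hyu : y ∈ u := by
      rw [← he, mem_inter]
      refine ⟨?_, hyZ⟩
      unfold pts
      rw [mem_filter]
      exact ⟨mem_univ _, hvA⟩
    have : y ∈ s ∩ u := mem_inter.2 ⟨hs's hy, hyu⟩
    rw [hsu, mem_filter] at this
    exact this.2
  · intro hv
    have hvS := hX hv
    rw [mem_map] at hvS
    obtain ⟨y, hy, hyv⟩ := hvS
    have hyv' : y.1 = v := hyv
    have hmem : y ∈ s'.filter (fun y => y.1 ∈ X) := by
      rw [mem_filter]
      refine ⟨hy, ?_⟩
      rw [hyv']
      exact hv
    rw [← hsu, mem_inter, ← he, mem_inter] at hmem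
    have h3 := hmem.2.1
    unfold pts at h3
    rw [mem_filter] at h3
    refine ⟨?_, y, hy, hyv⟩
    rw [← hyv']
    exact h3.2

/-- A good value of `M`. -/
theorem exists_M (d : ℕ) (ε : ℝ) (hε : 0 < ε) :
    ∃ M : ℕ, 0 < M ∧ ((d : ℝ) + 1) * (2 * (M : ℝ) + 1) ^ d < ε / 2 * 2 ^ ⌈ε * M / 2⌉₊ := by
  set c : ℝ := (2 : ℝ) ^ (-(ε / 2)) with hc
  have hc0 : 0 < c := by positivity
  have hc1 : c < 1 := by
    rw [hc]
    apply Real.rpow_lt_one_of_one_lt_of_neg (by norm_num)
    linarith
  have hlim := tendsto_pow_const_mul_const_pow_of_abs_lt_one d (r := c)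
    (by rw [abs_of_pos hc0]; exact hc1)
  have hlim2 := hlim.const_mul (((d : ℝ) + 1) * 3 ^ d)
  rw [mul_zero] at hlim2
  have hev := hlim2.eventually (gt_mem_nhds (show (0 : ℝ) < ε / 2 by linarith))
  obtain ⟨M, hM1, hM2⟩ := (hev.and (Filter.eventually_ge_atTop 1)).exists
  refine ⟨M, hM2, ?_⟩
  have hMr : (1 : ℝ) ≤ M := by exact_mod_cast hM2
  have h1 : (2 * (M : ℝ) + 1) ^ d ≤ 3 ^ d * (M : ℝ) ^ d := by
    rw [← mul_pow]
    exact pow_le_pow_left₀ (by linarith) (by linarith) d
  have h2 : c ^ M * 2 ^ ⌈ε * M / 2⌉₊ ≥ 1 := by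
    have e1 : c ^ M = (2 : ℝ) ^ (-(ε * M / 2)) := by
      rw [hc, ← Real.rpow_natCast, ← Real.rpow_mul (by norm_num)]
      congr 1
      ring
    have e2 : (2 : ℝ) ^ ⌈ε * M / 2⌉₊ ≥ (2 : ℝ) ^ (ε * M / 2) := by
      rw [← Real.rpow_natCast]
      exact Real.rpow_le_rpow_of_exponent_le (by norm_num) (Nat.le_ceil _)
    calc c ^ M * 2 ^ ⌈ε * M / 2⌉₊ ≥ (2 : ℝ) ^ (-(ε * M / 2)) * (2 : ℝ) ^ (ε * M / 2) := by
          rw [e1]
          exact mul_le_mul_of_nonneg_left e2 (by positivity)
      _ = 1 := by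
          rw [← Real.rpow_add (by norm_num)]
          simp
  have hpow : (0 : ℝ) < 2 ^ ⌈ε * M / 2⌉₊ := by positivity
  calc ((d : ℝ) + 1) * (2 * (M : ℝ) + 1) ^ d
      ≤ ((d : ℝ) + 1) * (3 ^ d * (M : ℝ) ^ d) :=
        mul_le_mul_of_nonneg_left h1 (by positivity)
    _ ≤ ((d : ℝ) + 1) * (3 ^ d * (M : ℝ) ^ d) * (c ^ M * 2 ^ ⌈ε * M / 2⌉₊) :=
        le_mul_of_one_le_right (by positivity) h2
    _ = (((d : ℝ) + 1) * 3 ^ d * ((M : ℝ) ^ d * c ^ M)) * 2 ^ ⌈ε * M / 2⌉₊ := by ring
    _ < ε / 2 * 2 ^ ⌈ε * M / 2⌉₊ := mul_lt_mul_of_pos_right hM1 hpow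

end NetAux

open NetAux in
/-- BOUNDED NETS. -/
theorem net : NetStmt := by
  classical
  intro d ε hε
  obtain ⟨M, hM, hMlt⟩ := exists_M d ε hε
  refine ⟨M, ?_⟩
  intro V ι _ A hA Y
  by_contra hcon
  push Not at hcon
  rcases Y.eq_empty_or_nonempty with hY | hYne
  · obtain ⟨e, he, -, -⟩ := hcon ∅ (empty_subset _) (by simp)
    rw [hY] at he
    simp at he
  set n : ℝ := (Fintype.card {y // y ∈ Y} : ℝ) with hn
  have hnY : n = Y.card := by rw [hn, Fintype.card_coe]
  have hn0 : 0 < n := by
    rw [hnY]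
    exact_mod_cast hYne.card_pos
  set m₀ := ⌈ε * M / 2⌉₊ with hm₀
  -- bad pairs
  set Bad : Finset ((Fin M → {y // y ∈ Y}) × (Fin M → {y // y ∈ Y})) :=
    univ.filter (fun p => ∃ e, (∀ i, p.1 i ∉ pts A Y e) ∧
      m₀ ≤ (univ.filter (fun j => p.2 j ∈ pts A Y e)).card) with hBad
  -- lower bound
  have hlow : ε / 2 * n ^ M * n ^ M ≤ (Bad.card : ℝ) := by
    have hx : ∀ x : Fin M → {y // y ∈ Y},
        ε / 2 * n ^ M ≤ ((univ.filter (fun z : Fin M → {y // y ∈ Y} => (x, z) ∈ Bad)).card : ℝ) := by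
      intro x
      obtain ⟨e, he1, he2, he3⟩ := hcon (univ.image (fun i => (x i).1)) (by
        intro v hv
        rw [mem_image] at hv
        obtain ⟨i, -, rfl⟩ := hv
        exact (x i).2) (by
        refine le_trans card_image_le ?_
        simp)
      have hcardP : ((pts A Y e).card : ℝ) = ((A e ∩ Y).card : ℝ) := by
        congr 1
        rw [← card_map (Function.Embedding.subtype _)]
        congr 1
        ext v
        unfold pts
        rw [mem_map, mem_inter]
        constructor
        · rintro ⟨y, hy, rfl⟩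
          rw [mem_filter] at hy
          exact ⟨hy.2, y.2⟩
        · rintro ⟨hv1, hv2⟩
          exact ⟨⟨v, hv2⟩, by rw [mem_filter]; exact ⟨mem_univ _, hv1⟩, rfl⟩
      have hheavy : ε * (Fintype.card {y // y ∈ Y} : ℝ) ≤ ((pts A Y e).card : ℝ) := by
        rw [hcardP, ← hn, hnY]
        exact he2
      refine le_trans (card_hits M (pts A Y e) ε hε hM hheavy) ?_
      have : (univ.filter (fun z : Fin M → {y // y ∈ Y} =>
          ε * M / 2 ≤ ((univ.filter (fun j => z j ∈ pts A Y e)).card : ℝ))).card ≤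
          (univ.filter (fun z : Fin M → {y // y ∈ Y} => (x, z) ∈ Bad)).card := by
        apply card_le_card
        intro z hz
        rw [mem_filter] at hz ⊢
        refine ⟨mem_univ _, ?_⟩
        rw [hBad, mem_filter]
        refine ⟨mem_univ _, e, ?_, ?_⟩
        · intro i hi
          have hi' : (x i).1 ∈ A e := by
            unfold pts at hi
            rw [mem_filter] at hi
            exact hi.2
          have hne : (A e ∩ univ.image (fun i => (x i).1)).Nonempty :=
            ⟨(x i).1, mem_inter.2 ⟨hi', mem_image.2 ⟨i, mem_univ _, rfl⟩⟩⟩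
          exact hne.ne_empty he3
        · rw [hm₀]
          exact Nat.ceil_le.2 hz.2
      exact_mod_cast this
    have hsplit : (Bad.card : ℝ) = ∑ x : Fin M → {y // y ∈ Y},
        ((univ.filter (fun z : Fin M → {y // y ∈ Y} => (x, z) ∈ Bad)).card : ℝ) := by
      have e1 : (Bad.card : ℝ) = ∑ p : (Fin M → {y // y ∈ Y}) × (Fin M → {y // y ∈ Y}),
          if p ∈ Bad then (1 : ℝ) else 0 := by
        rw [Finset.sum_boole]
        simp
      rw [e1, Fintype.sum_prod_type]
      refine Finset.sum_congr rfl fun x _ => ?_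
      rw [Finset.sum_boole]
    rw [hsplit]
    calc ε / 2 * n ^ M * n ^ M = ∑ _x : Fin M → {y // y ∈ Y}, ε / 2 * n ^ M := by
          rw [Finset.sum_const, Finset.card_univ, Fintype.card_fun, Fintype.card_fin,
            nsmul_eq_mul]
          push_cast
          rw [← hn]
          ring
      _ ≤ _ := Finset.sum_le_sum fun x _ => hx x
  -- upper bound for a fixed pair
  set H : ℕ := (d + 1) * (2 * M + 1) ^ d with hH
  have hfix : ∀ p : (Fin M → {y // y ∈ Y}) × (Fin M → {y // y ∈ Y}),
      (univ.filter (fun τ : Fin M → Bool => swp τ p ∈ Bad)).card * 2 ^ m₀ ≤ H * 2 ^ M := by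
    intro p
    set Z : Finset {y // y ∈ Y} := univ.image p.1 ∪ univ.image p.2 with hZ
    have hZc : Z.card ≤ 2 * M := by
      calc Z.card ≤ (univ.image p.1).card + (univ.image p.2).card := card_union_le _ _
        _ ≤ M + M := by
            apply Nat.add_le_add
            · refine le_trans card_image_le ?_
              simp
            · refine le_trans card_image_le ?_
              simp
        _ = 2 * M := by ring
    have hmem1 : ∀ (τ : Fin M → Bool) (i : Fin M), (swp τ p).1 i ∈ Z := by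
      intro τ i
      unfold swp
      by_cases h : τ i
      · simp only [h, if_true]
        exact mem_union_right _ (mem_image_of_mem _ (mem_univ _))
      · simp only [h]
        exact mem_union_left _ (mem_image_of_mem _ (mem_univ _))
    have hmem2 : ∀ (τ : Fin M → Bool) (i : Fin M), (swp τ p).2 i ∈ Z := by
      intro τ i
      unfold swp
      by_cases h : τ i
      · simp only [h, if_true]
        exact mem_union_left _ (mem_image_of_mem _ (mem_univ _))
      · simp only [h]
        exact mem_union_right _ (mem_image_of_mem _ (mem_univ _))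
    have hsub : univ.filter (fun τ : Fin M → Bool => swp τ p ∈ Bad) ⊆
        (trc A Y Z).biUnion (fun X => univ.filter (fun τ : Fin M → Bool =>
          (∀ i, (swp τ p).1 i ∉ X) ∧
            m₀ ≤ (univ.filter (fun j => (swp τ p).2 j ∈ X)).card)) := by
      intro τ hτ
      rw [mem_filter, hBad, mem_filter] at hτ
      obtain ⟨-, -, e, he1, he2⟩ := hτ
      rw [mem_biUnion]
      refine ⟨pts A Y e ∩ Z, ?_, ?_⟩
      · unfold trc
        rw [mem_filter, mem_powerset]
        exact ⟨inter_subset_right, e, rfl⟩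
      · rw [mem_filter]
        refine ⟨mem_univ _, ?_, ?_⟩
        · intro i hi
          exact he1 i (mem_inter.1 hi).1
        · refine le_trans he2 (card_le_card ?_)
          intro j hj
          rw [mem_filter] at hj ⊢
          exact ⟨mem_univ _, mem_inter.2 ⟨hj.2, hmem2 τ j⟩⟩
    calc (univ.filter (fun τ : Fin M → Bool => swp τ p ∈ Bad)).card * 2 ^ m₀
        ≤ (∑ X ∈ trc A Y Z, (univ.filter (fun τ : Fin M → Bool =>
          (∀ i, (swp τ p).1 i ∉ X) ∧
            m₀ ≤ (univ.filter (fun j => (swp τ p).2 j ∈ X)).card)).card) * 2 ^ m₀ :=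
          Nat.mul_le_mul_right _ ((card_le_card hsub).trans card_biUnion_le)
      _ = ∑ X ∈ trc A Y Z, (univ.filter (fun τ : Fin M → Bool =>
          (∀ i, (swp τ p).1 i ∉ X) ∧
            m₀ ≤ (univ.filter (fun j => (swp τ p).2 j ∈ X)).card)).card * 2 ^ m₀ := by
          rw [Finset.sum_mul]
      _ ≤ ∑ _X ∈ trc A Y Z, 2 ^ M := Finset.sum_le_sum fun X _ => card_tau p X m₀
      _ = (trc A Y Z).card * 2 ^ M := by rw [Finset.sum_const, smul_eq_mul]
      _ ≤ H * 2 ^ M := by
          apply Nat.mul_le_mul_right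
          refine le_trans (card_trc A d hA Y Z) ?_
          rw [hH]
          apply Nat.mul_le_mul_left
          exact Nat.pow_le_pow_left (by omega) d
  -- exchange
  have hex : ∀ τ : Fin M → Bool,
      (univ.filter (fun p : (Fin M → {y // y ∈ Y}) × (Fin M → {y // y ∈ Y}) =>
        swp τ p ∈ Bad)).card = Bad.card := by
    intro τ
    have hbij := (swp_invol (α := {y // y ∈ Y}) τ)
    apply Finset.card_bij (fun p _ => swp τ p)
    · intro p hp
      exact (mem_filter.1 hp).2
    · intro p _ q _ hpq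
      exact hbij.injective hpq
    · intro q hq
      refine ⟨swp τ q, ?_, hbij q⟩
      rw [mem_filter]
      refine ⟨mem_univ _, ?_⟩
      rw [hbij q]
      exact hq
  have hdouble : 2 ^ M * Bad.card = ∑ p : (Fin M → {y // y ∈ Y}) × (Fin M → {y // y ∈ Y}),
      (univ.filter (fun τ : Fin M → Bool => swp τ p ∈ Bad)).card := by
    have e1 : ∀ p : (Fin M → {y // y ∈ Y}) × (Fin M → {y // y ∈ Y}),
        (univ.filter (fun τ : Fin M → Bool => swp τ p ∈ Bad)).card =
        ∑ τ : Fin M → Bool, if swp τ p ∈ Bad then 1 else 0 := fun p => by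
      rw [Finset.card_filter]
    rw [Finset.sum_congr rfl fun p _ => e1 p, Finset.sum_comm]
    have e2 : ∀ τ : Fin M → Bool,
        (∑ p : (Fin M → {y // y ∈ Y}) × (Fin M → {y // y ∈ Y}),
          if swp τ p ∈ Bad then 1 else 0) = Bad.card := by
      intro τ
      rw [← hex τ, Finset.card_filter]
    rw [Finset.sum_congr rfl fun τ _ => e2 τ, Finset.sum_const, Finset.card_univ,
      Fintype.card_fun, Fintype.card_fin, Fintype.card_bool, smul_eq_mul]
  have hup : 2 ^ M * Bad.card * 2 ^ m₀ ≤
      (Fintype.card {y // y ∈ Y}) ^ M * (Fintype.card {y // y ∈ Y}) ^ M * (H * 2 ^ M) := by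
    rw [hdouble, Finset.sum_mul]
    calc ∑ p : (Fin M → {y // y ∈ Y}) × (Fin M → {y // y ∈ Y}),
          (univ.filter (fun τ : Fin M → Bool => swp τ p ∈ Bad)).card * 2 ^ m₀
        ≤ ∑ _p : (Fin M → {y // y ∈ Y}) × (Fin M → {y // y ∈ Y}), H * 2 ^ M :=
          Finset.sum_le_sum fun p _ => hfix p
      _ = _ := by
          rw [Finset.sum_const, Finset.card_univ, Fintype.card_prod, Fintype.card_fun,
            Fintype.card_fin, smul_eq_mul]
  have hupR : (2 : ℝ) ^ M * (Bad.card : ℝ) * 2 ^ m₀ ≤ n ^ M * n ^ M * ((H : ℝ) * 2 ^ M) := by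
    rw [hn]
    exact_mod_cast hup
  have hHr : (H : ℝ) < ε / 2 * 2 ^ m₀ := by
    rw [hH]
    push_cast
    exact hMlt
  have hN : 0 < n ^ M * n ^ M := by positivity
  have h2M : (0 : ℝ) < 2 ^ M := by positivity
  have h2m : (0 : ℝ) < 2 ^ m₀ := by positivity
  have hA1 : (2 : ℝ) ^ M * (ε / 2 * n ^ M * n ^ M) * 2 ^ m₀ ≤
      n ^ M * n ^ M * ((H : ℝ) * 2 ^ M) :=
    le_trans (mul_le_mul_of_nonneg_right (mul_le_mul_of_nonneg_left hlow h2M.le) h2m.le) hupR
  have hA2 : n ^ M * n ^ M * ((H : ℝ) * 2 ^ M) <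
      n ^ M * n ^ M * ((ε / 2 * 2 ^ m₀) * 2 ^ M) :=
    mul_lt_mul_of_pos_left (mul_lt_mul_of_pos_right hHr h2M) hN
  have hA3 : (2 : ℝ) ^ M * (ε / 2 * n ^ M * n ^ M) * 2 ^ m₀ =
      n ^ M * n ^ M * ((ε / 2 * 2 ^ m₀) * 2 ^ M) := by ring
  linarith

end Pool.Agent.Lib.MP_9b5ec2_co
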