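import Pool.Agent.Lib.MP_9b5ec2_co.Defs

/-!
# No positions (MP_9b5ec2_co)
-/

set_option autoImplicit false

namespace Pool.Agent.Lib.MP_9b5ec2_co

open Finset

/-- The case of no round to go. -/
theorem noPos_zero {m r : ℕ} (hr : r = 2 * m - 1) (hm : 1 ≤ m) {C D σ ρ : ℝ}
    (hσ : 0 < σ) (hρ : 0 < ρ)
    (V ι J : Type) [Fintype V] [DecidableEq V] [DecidableEq ι] [Fintype J]
    (A : ι → Finset V) (s : ℝ) (U : Finset V) (fam : J → Finset ι) (lam : J → ℝ)
    (hA : TwoCol m A) (hs : 1 ≤ s) (hn : 1 * s ≤ (Fintype.card V : ℝ))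
    (hP : Pos A s C D σ ρ 1 1 r U fam lam) : False := by
  obtain ⟨R, hR⟩ := hA U
  obtain ⟨a, i, F, Z, hD, hZ⟩ := hP.good (R ∩ U) inter_subset_right
  have hc : ∃ c : Bool, m ≤ a c := by
    by_contra h
    push Not at h
    have h1 := h true
    have h2 := h false
    have h3 := hD.hr
    omega
  obtain ⟨c, hc⟩ := hc
  have hn' : (0 : ℝ) < Fintype.card V := by linarith
  have hZ' : (0 : ℝ) < Z.card := lt_of_lt_of_le (mul_pos hσ hn') hZ
  have hZ'' : 0 < Z.card := by exact_mod_cast hZ'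
  obtain ⟨v, hv⟩ := card_pos.1 hZ''
  have h1 := hD.hlow c v hv
  have h2 : (0 : ℝ) < deg A (F c) v :=
    lt_of_lt_of_le (mul_pos hρ (by linarith [hP.hlam (i c)])) h1
  have h3 : 0 < deg A (F c) v := by exact_mod_cast h2
  obtain ⟨e, he⟩ := card_pos.1 h3
  rw [mem_filter] at he
  have h4 := hR e (by rw [hD.hcard c e he.1]; exact hc)
  obtain ⟨⟨x, hx⟩, ⟨y, hy⟩⟩ := h4
  rw [mem_inter] at hx
  rw [mem_sdiff] at hy
  have h5 := hD.hcol c e he.1 x hx.1
  have h6 := hD.hcol c e he.1 y hy.1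
  have h7 : x ∈ R ∩ U := mem_inter.2 ⟨hx.2, (mem_inter.1 hx.1).2⟩
  have h8 : y ∉ R ∩ U := fun h => hy.2 (mem_inter.1 h).1
  rw [decide_eq_true h7] at h5
  rw [decide_eq_false h8] at h6
  rw [← h5] at h6
  exact absurd h6 (by decide)

/-- Cleaning the data of one colouring. -/
theorem noPos_clean (h1 : CleanStmt) {C D σ ρ Λ η s κ : ℝ} {r : ℕ} (hC : 0 < C)
    (hσ : 0 < σ) (hρ : 0 < ρ) (hΛ : 0 < Λ) (hs : 0 < s) (hκ : κ = σ * ρ / (8 * C))
    {V ι J : Type} [Fintype V] [DecidableEq V] [DecidableEq ι] [Fintype J]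
    {A : ι → Finset V} {U : Finset V} {fam : J → Finset ι} {lam : J → ℝ}
    (hP : Pos A s C D σ ρ Λ η r U fam lam) (W : Finset V) (hW : W ⊆ U) :
    ∃ (a : Bool → ℕ) (i : Bool → J) (F : Bool → Finset ι) (Z : Finset V),
      Dat A U fam lam D (ρ / 2) r W a i F Z ∧ σ / 2 * (Fintype.card V : ℝ) ≤ (Z.card : ℝ) ∧
      ∀ c, ∀ e ∈ F c, κ * s ≤ ((A e ∩ Z).card : ℝ) := by
  obtain ⟨a, i, F, Z, hD, hZ⟩ := hP.good W hW
  have hlam : ∀ j, 0 < lam j := fun j => lt_of_lt_of_le hΛ (hP.hlam j)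
  have hκ0 : 0 < κ := by rw [hκ]; positivity
  obtain ⟨Z', F', hZ', hF', hlow, hq, hloss⟩ := h1 V ι A Z F (fun c => ρ * lam (i c)) (κ * s)
    (by positivity) (fun c => mul_pos hρ (hlam _)) hD.hlow
  refine ⟨a, i, F', Z', ⟨hD.hr, fun c => (hF' c).trans (hD.hF c),
    fun c e he => hD.hcard c e (hF' c he), fun c e he => hD.hcol c e (hF' c he),
    disjoint_of_subset_left hZ' hD.hZ, fun c v hv => ?_, fun c v hv => hD.hup c v (hZ' hv)⟩,
    ?_, hq⟩
  · have := hlow c v hv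
    linarith
  · have hb : ∀ c, κ * s * ((F c).card : ℝ) / (ρ * lam (i c) / 2) ≤
        σ / 4 * (Fintype.card V : ℝ) := by
      intro c
      have hc := hlam (i c)
      rw [div_le_iff₀ (by positivity)]
      have e1 : ((F c).card : ℝ) ≤ ((fam (i c)).card : ℝ) := by
        exact_mod_cast card_le_card (hD.hF c)
      have e2 : ((F c).card : ℝ) * s ≤ C * lam (i c) * (Fintype.card V : ℝ) :=
        (mul_le_mul_of_nonneg_right e1 hs.le).trans (hP.hfam (i c))
      calc κ * s * ((F c).card : ℝ) = κ * (((F c).card : ℝ) * s) := by ring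
        _ ≤ κ * (C * lam (i c) * (Fintype.card V : ℝ)) :=
            mul_le_mul_of_nonneg_left e2 hκ0.le
        _ = σ / 4 * (Fintype.card V : ℝ) * (ρ * lam (i c) / 2) := by
            rw [hκ]
            field_simp
            ring
    have hb2 : ((Z \ Z').card : ℝ) ≤ σ / 2 * (Fintype.card V : ℝ) := by
      refine hloss.trans ?_
      rw [Fintype.sum_bool]
      have := hb true
      have := hb false
      linarith
    have h3 : (Z \ Z').card + Z'.card = Z.card := card_sdiff_add_card_eq_card hZ'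
    have h4 : ((Z \ Z').card : ℝ) + (Z'.card : ℝ) = (Z.card : ℝ) := by exact_mod_cast h3
    linarith

/-- **NO POSITIONS.** -/
theorem noPos (h1 : CleanStmt) (h2 : SelectStmt) (h3 : StepStmt) : NoPosStmt := by
  intro m t
  induction t with
  | zero =>
    intro r hm hr k C D σ ρ hC hD hσ hρ
    refine ⟨1, 1, 1, 1, one_pos, one_pos, one_pos, one_pos, ?_⟩
    intro V ι J _ _ _ _ A s U fam lam _ hA hs hn _ _ hP
    exact noPos_zero (by omega) hm hσ hρ V ι J A s U fam lam hA hs hn hP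
  | succ t ih =>
    intro r hm hr k C D σ ρ hC hD hσ hρ
    obtain ⟨κ, hκ⟩ : ∃ κ : ℝ, κ = σ * ρ / (8 * C) := ⟨_, rfl⟩
    obtain ⟨σ₁, hσ₁⟩ : ∃ σ₁ : ℝ, σ₁ = σ / 2 := ⟨_, rfl⟩
    obtain ⟨ρ₁, hρ₁⟩ : ∃ ρ₁ : ℝ, ρ₁ = ρ / 2 := ⟨_, rfl⟩
    obtain ⟨ε, hε⟩ : ∃ ε : ℝ, ε = κ * σ₁ * ρ₁ / 128 := ⟨_, rfl⟩
    obtain ⟨K, hK⟩ : ∃ K : ℝ, K = (k : ℝ) + 1 := ⟨_, rfl⟩
    have hκ0 : 0 < κ := by rw [hκ]; positivity
    have hσ₁0 : 0 < σ₁ := by rw [hσ₁]; positivity
    have hρ₁0 : 0 < ρ₁ := by rw [hρ₁]; positivity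
    have hε0 : 0 < ε := by rw [hε]; positivity
    have hK1 : 1 ≤ K := by
      rw [hK]
      have : (0 : ℝ) ≤ k := Nat.cast_nonneg k
      linarith
    have hK0 : 0 < K := by linarith
    obtain ⟨Λ', η', γ', M', hΛ', hη', hγ', hM', hih⟩ := ih (r + 1) hm (by omega) (2 * k)
      (40 * K * C) (4 * D) (κ * σ₁ * ρ₁ / (128 * D)) (min (κ * σ₁ * ρ₁ / 64) (ρ₁ / 2))
      (by positivity) (by positivity) (by positivity) (lt_min (by positivity) (by positivity))
    obtain ⟨θ, hθ0, hθ1, hθ2, hθ3, hθ4⟩ : ∃ θ : ℝ, 0 < θ ∧ θ ≤ 1 ∧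
        320 * K * C * θ ≤ σ₁ * ρ₁ ∧ 8 * D * θ ≤ ρ₁ ∧ 20 * θ ≤ η' := by
      refine ⟨min 1 (min (σ₁ * ρ₁ / (320 * K * C)) (min (ρ₁ / (8 * D)) (η' / 20))),
        by positivity, min_le_left _ _, ?_, ?_, ?_⟩
      · have e : min 1 (min (σ₁ * ρ₁ / (320 * K * C)) (min (ρ₁ / (8 * D)) (η' / 20))) ≤
            σ₁ * ρ₁ / (320 * K * C) := (min_le_right _ _).trans (min_le_left _ _)
        rw [le_div_iff₀ (by positivity)] at e
        linarith
      · have e : min 1 (min (σ₁ * ρ₁ / (320 * K * C)) (min (ρ₁ / (8 * D)) (η' / 20))) ≤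
            ρ₁ / (8 * D) := ((min_le_right _ _).trans (min_le_right _ _)).trans (min_le_left _ _)
        rw [le_div_iff₀ (by positivity)] at e
        linarith
      · have e : min 1 (min (σ₁ * ρ₁ / (320 * K * C)) (min (ρ₁ / (8 * D)) (η' / 20))) ≤
            η' / 20 := ((min_le_right _ _).trans (min_le_right _ _)).trans (min_le_right _ _)
        linarith
    refine ⟨max (Λ' / θ) (max Λ' (40 * K / (ε * θ))), min (η' / 2) (θ * σ₁ / 10),
      min γ' (ε * θ / (20 * K * D)), max M' (max 1 (max (2 / κ) (40 / (θ * σ₁)))),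
      lt_max_of_lt_right (lt_max_of_lt_left hΛ'), lt_min (by positivity) (by positivity),
      lt_min hγ' (by positivity), lt_max_of_lt_left hM', ?_⟩
    intro V ι J _ _ _ _ A s U fam lam hJ hA hs hn hsize hint hP
    have hs1 : M' ≤ s := (le_max_left _ _).trans hs
    have hs2 : 1 ≤ s := ((le_max_left _ _).trans (le_max_right _ _)).trans hs
    have hs3 : 2 / κ ≤ s :=
      (((le_max_left _ _).trans (le_max_right _ _)).trans (le_max_right _ _)).trans hs
    have hs0 : 0 < s := by linarith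
    have hn1 : M' * s ≤ (Fintype.card V : ℝ) :=
      (mul_le_mul_of_nonneg_right (le_max_left _ _) hs0.le).trans hn
    have hn2 : 40 / (θ * σ₁) * s ≤ (Fintype.card V : ℝ) :=
      (mul_le_mul_of_nonneg_right
        (((le_max_right _ _).trans (le_max_right _ _)).trans (le_max_right _ _)) hs0.le).trans hn
    have hn3 : 40 * s ≤ θ * σ₁ * (Fintype.card V : ℝ) := by
      rw [div_mul_eq_mul_div, div_le_iff₀ (by positivity)] at hn2
      linarith
    have hn0 : (0 : ℝ) ≤ Fintype.card V := Nat.cast_nonneg _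
    have hlam0 : ∀ j, 0 < lam j := fun j =>
      lt_of_lt_of_le (lt_max_of_lt_right (lt_max_of_lt_left hΛ')) (hP.hlam j)
    have hlam1 : ∀ j, Λ' / θ ≤ lam j := fun j => (le_max_left _ _).trans (hP.hlam j)
    have hlam2 : ∀ j, Λ' ≤ lam j := fun j =>
      ((le_max_left _ _).trans (le_max_right _ _)).trans (hP.hlam j)
    have hlam3 : ∀ j, 40 * K / (ε * θ) ≤ lam j := fun j =>
      ((le_max_right _ _).trans (le_max_right _ _)).trans (hP.hlam j)
    -- data
    have hdat := fun W hW => noPos_clean (κ := κ) h1 hC hσ hρ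
      (lt_max_of_lt_right (lt_max_of_lt_left hΛ')) hs0 hκ hP W hW
    haveI : Nonempty J := by
      obtain ⟨_, i, _⟩ := hdat ∅ (empty_subset _)
      exact ⟨i true⟩
    choose! a i F Z hD using hdat
    rw [← hσ₁, ← hρ₁] at hD
    -- the random set
    have hJ' : (Fintype.card J : ℝ) ≤ K := by
      have : (Fintype.card J : ℝ) ≤ k := by exact_mod_cast hJ
      linarith
    have hη1 : min (η' / 2) (θ * σ₁ / 10) ≤ θ * σ₁ / 10 := min_le_right _ _
    have hη2 : min (η' / 2) (θ * σ₁ / 10) ≤ η' / 2 := min_le_left _ _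
    have hγ1 : min γ' (ε * θ / (20 * K * D)) ≤ ε * θ / (20 * K * D) := min_le_right _ _
    have hγ2 : min γ' (ε * θ / (20 * K * D)) ≤ γ' := min_le_left _ _
    obtain ⟨T, hT0, hT1, hT2, hT3, hT4, hT5⟩ := h2 V ι J A U fam lam Z s
      (min γ' (ε * θ / (20 * K * D))) C D σ₁ θ ε (min (η' / 2) (θ * σ₁ / 10)) K
      hJ' hK1 hC ‹0 < D› hσ₁0 hθ0 hθ1 hε0 (by positivity) (by positivity) hs2 hsize hint
      (fun j => by
        have := hlam3 j
        rw [div_le_iff₀ (by positivity)] at this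
        linarith)
      (by
        rw [le_div_iff₀ (by positivity)] at hγ1
        linarith)
      hP.hfam hP.hU (by linarith) hn3 (fun W hW => ⟨(hD W hW).1.hZ, (hD W hW).2.1⟩)
    have hJJ : Fintype.card (J ⊕ J) ≤ 2 * k := by
      rw [Fintype.card_sum]
      omega
    refine hih V ι (J ⊕ J) A s (U ∪ T) (newFam A T fam) (newLam θ lam) hJJ hA hs1 hn1 hsize
      (fun e f hef => (hint e f hef).trans (mul_le_mul_of_nonneg_right hγ2 hs0.le)) ?_
    refine ⟨?_, ?_, ?_, ?_⟩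
    · have e1 : ((U ∪ T).card : ℝ) ≤ (U.card : ℝ) + (T.card : ℝ) := by
        exact_mod_cast card_union_le U T
      have e2 : ((U ∪ T).card : ℝ) * s ≤ (U.card : ℝ) * s + (T.card : ℝ) * s := by
        rw [← add_mul]
        exact mul_le_mul_of_nonneg_right e1 hs0.le
      have e3 : (U.card : ℝ) * s ≤ η' / 2 * (Fintype.card V : ℝ) :=
        hP.hU.trans (mul_le_mul_of_nonneg_right hη2 hn0)
      have e4 : 10 * θ * (Fintype.card V : ℝ) ≤ η' / 2 * (Fintype.card V : ℝ) :=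
        mul_le_mul_of_nonneg_right (by linarith) hn0
      linarith
    · rintro (j | j)
      · exact hlam2 j
      · have := hlam1 j
        rw [div_le_iff₀ hθ0] at this
        simp only [newLam, Sum.elim_inr]
        linarith
    · rintro (j | j)
      · simp only [newFam, newLam, Sum.elim_inl]
        refine (hP.hfam j).trans ?_
        have e1 : C * lam j ≤ 40 * K * C * lam j := by
          have : 0 < C * lam j := mul_pos hC (hlam0 j)
          nlinarith
        exact mul_le_mul_of_nonneg_right e1 hn0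
      · simp only [newFam, newLam, Sum.elim_inr]
        have := hT2 j
        calc _ ≤ _ := this
          _ = 40 * K * C * (θ * lam j) * (Fintype.card V : ℝ) := by ring
    · intro W' hW'
      have hW : W' ∩ U ⊆ U := inter_subset_right
      obtain ⟨d1, d2, d3⟩ := hD (W' ∩ U) hW
      obtain ⟨a', i', F', Z', g1, g2⟩ := h3 V ι J A U T W' fam lam s C D σ₁ ρ₁ κ θ K r
        (a (W' ∩ U)) (i (W' ∩ U)) (F (W' ∩ U)) (Z (W' ∩ U)) hs0 hC ‹0 < D› hσ₁0 hρ₁0 hκ0 hθ0 hK0
        hlam0 d1 d2 d3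
        (by
          rw [div_le_iff₀ hκ0] at hs3
          linarith)
        hT0 hT3 (by rw [← hε]; exact hT4) (hT5 (W' ∩ U) hW) hθ2 hθ3
      exact ⟨a', i', F', Z', g1, g2⟩

end Pool.Agent.Lib.MP_9b5ec2_co
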