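import Mathlib
import Pool.Agent.Lib.MP_9b5ec2_co.Ex

/-! The second moment estimate. -/

set_option autoImplicit false

namespace Pool.Agent.Lib.MP_9b5ec2_co

open Finset

/-- indicator that `Y` misses `T` -/
noncomputable def smMiss {V : Type} [DecidableEq V] (Y T : Finset V) : ℝ :=
  if (Y ∩ T).Nonempty then 0 else 1

theorem smMiss_mul {V : Type} [DecidableEq V] (Y Z T : Finset V) :
    smMiss Y T * smMiss Z T = smMiss (Y ∪ Z) T := by
  unfold smMiss
  by_cases h1 : (Y ∩ T).Nonempty
  · have : ((Y ∪ Z) ∩ T).Nonempty := by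
      rw [Finset.union_inter_distrib_right]
      exact h1.mono Finset.subset_union_left
    rw [if_pos h1, if_pos this, zero_mul]
  · by_cases h2 : (Z ∩ T).Nonempty
    · have : ((Y ∪ Z) ∩ T).Nonempty := by
        rw [Finset.union_inter_distrib_right]
        exact h2.mono Finset.subset_union_right
      rw [if_pos h2, if_pos this, mul_zero]
    · have : ¬ ((Y ∪ Z) ∩ T).Nonempty := by
        rw [Finset.union_inter_distrib_right, Finset.not_nonempty_iff_eq_empty]
        rw [Finset.not_nonempty_iff_eq_empty] at h1 h2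
        rw [h1, h2, Finset.union_empty]
      rw [if_neg h1, if_neg h2, if_neg this, one_mul]

theorem smMiss_Ex {V : Type} [DecidableEq V] (p : ℝ) (X Y : Finset V) :
    Ex p X (fun T => smMiss Y T) = (1 - p) ^ (Y ∩ X).card := Ex_avoid p X Y

theorem smCov_eq {V : Type} [DecidableEq V] (p : ℝ) (X Y Z : Finset V) :
    Ex p X (fun T => ((1 - p) ^ (Y ∩ X).card - smMiss Y T) *
      ((1 - p) ^ (Z ∩ X).card - smMiss Z T)) =
      (1 - p) ^ ((Y ∪ Z) ∩ X).card - (1 - p) ^ (Y ∩ X).card * (1 - p) ^ (Z ∩ X).card := by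
  have e1 := smMiss_Ex p X Y
  have e2 := smMiss_Ex p X Z
  have e3 := smMiss_Ex p X (Y ∪ Z)
  set a := (1 - p) ^ (Y ∩ X).card with ha
  set b := (1 - p) ^ (Z ∩ X).card with hb
  have h1 : Ex p X (fun T => (a - smMiss Y T) * (b - smMiss Z T)) =
      Ex p X (fun T => (a * b - a * smMiss Z T) - (b * smMiss Y T - smMiss (Y ∪ Z) T)) := by
    refine Ex_congr p X _ _ fun T _ => ?_
    rw [← smMiss_mul]
    ring
  rw [h1, Ex_sub p X (fun T => a * b - a * smMiss Z T)
    (fun T => b * smMiss Y T - smMiss (Y ∪ Z) T),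
    Ex_sub p X (fun _ => a * b) (fun T => a * smMiss Z T),
    Ex_sub p X (fun T => b * smMiss Y T) (fun T => smMiss (Y ∪ Z) T), Ex_const,
    Ex_mul_left, Ex_mul_left, e1, e2, e3]
  ring

theorem smCov_le {V : Type} [DecidableEq V] {p : ℝ} (h0 : 0 ≤ p) (h1 : p ≤ 1)
    (X Y Z : Finset V) :
    Ex p X (fun T => ((1 - p) ^ (Y ∩ X).card - smMiss Y T) *
      ((1 - p) ^ (Z ∩ X).card - smMiss Z T)) ≤ p * ((Y ∩ Z).card : ℝ) := by
  rw [smCov_eq]
  have hc : (Y ∩ X).card + (Z ∩ X).card = ((Y ∪ Z) ∩ X).card + ((Y ∩ Z) ∩ X).card := by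
    have := Finset.card_union_add_card_inter (Y ∩ X) (Z ∩ X)
    rw [← Finset.union_inter_distrib_right] at this
    have h2 : (Y ∩ X) ∩ (Z ∩ X) = (Y ∩ Z) ∩ X := by
      ext v
      simp only [Finset.mem_inter]
      tauto
    rw [h2] at this
    omega
  rw [← pow_add, hc, pow_add]
  set u := (1 - p) ^ ((Y ∪ Z) ∩ X).card with hu
  have hu0 : 0 ≤ u := pow_nonneg (by linarith) _
  have hu1 : u ≤ 1 := pow_le_one₀ (by linarith) (by linarith)
  have hb := one_add_mul_le_pow (a := -p) (by linarith) ((Y ∩ Z) ∩ X).card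
  have h2 : (1 + -p) = 1 - p := by ring
  rw [h2] at hb
  have hle : (((Y ∩ Z) ∩ X).card : ℝ) ≤ ((Y ∩ Z).card : ℝ) := by
    exact_mod_cast Finset.card_le_card Finset.inter_subset_left
  set w := (1 - p) ^ ((Y ∩ Z) ∩ X).card with hw
  have hw1 : w ≤ 1 := pow_le_one₀ (by linarith) (by linarith)
  have h3 : 1 - w ≤ p * ((Y ∩ Z).card : ℝ) := by
    have : p * (((Y ∩ Z) ∩ X).card : ℝ) ≤ p * ((Y ∩ Z).card : ℝ) :=
      mul_le_mul_of_nonneg_left hle h0
    linarith
  calc u - u * w = u * (1 - w) := by ring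
    _ ≤ 1 * (1 - w) := mul_le_mul_of_nonneg_right hu1 (by linarith)
    _ ≤ p * ((Y ∩ Z).card : ℝ) := by linarith

theorem secondMoment : SecondMomentStmt := by
  intro V ι _ _ X F B p a g d hp hp1 ha hg hd hF hB hBB
  set q : ι → ℝ := fun e => (1 - p) ^ (B e ∩ X).card with hq
  set H : ℝ := ∑ e ∈ F, (1 - q e) with hH
  set μ : ℝ := 2 * (p * a) * d with hμ
  have hpa : 0 < p * a := mul_pos hp ha
  have hμ0 : 0 < μ := by positivity
  -- the number of hit sets
  have hcount : ∀ T : Finset V,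
      ((F.filter (fun e => (B e ∩ T).Nonempty)).card : ℝ) - H =
        ∑ e ∈ F, (q e - smMiss (B e) T) := by
    intro T
    rw [hH, Finset.card_filter, Nat.cast_sum, ← Finset.sum_sub_distrib]
    refine Finset.sum_congr rfl fun e _ => ?_
    unfold smMiss
    split_ifs <;> push_cast <;> ring
  -- expectation bound
  have hHμ : H ≤ μ := by
    have h1 : ∀ e ∈ F, 1 - q e ≤ 2 * (p * a) := by
      intro e he
      have hb := one_add_mul_le_pow (a := -p) (by linarith) (B e ∩ X).card
      have h2 : (1 + -p) = 1 - p := by ring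
      rw [h2] at hb
      have hle : ((B e ∩ X).card : ℝ) ≤ 2 * a := by
        refine le_trans ?_ (hB e he)
        exact_mod_cast Finset.card_le_card Finset.inter_subset_left
      have : ((B e ∩ X).card : ℝ) * p ≤ 2 * a * p := mul_le_mul_of_nonneg_right hle hp.le
      simp only [hq]
      nlinarith
    calc H ≤ ∑ _e ∈ F, 2 * (p * a) := Finset.sum_le_sum h1
      _ = (F.card : ℝ) * (2 * (p * a)) := by rw [Finset.sum_const, nsmul_eq_mul]
      _ ≤ d * (2 * (p * a)) := mul_le_mul_of_nonneg_right hF (by positivity)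
      _ = μ := by rw [hμ]; ring
  -- variance bound
  have hVar : Ex p X (fun T => (∑ e ∈ F, (q e - smMiss (B e) T)) ^ 2) ≤
      μ + d * (d * (p * (g * a))) := by
    have h1 : Ex p X (fun T => (∑ e ∈ F, (q e - smMiss (B e) T)) ^ 2) =
        ∑ e ∈ F, ∑ f ∈ F, Ex p X (fun T => (q e - smMiss (B e) T) * (q f - smMiss (B f) T)) := by
      have h2 : Ex p X (fun T => (∑ e ∈ F, (q e - smMiss (B e) T)) ^ 2) =
          Ex p X (fun T => ∑ e ∈ F, ∑ f ∈ F,
            (q e - smMiss (B e) T) * (q f - smMiss (B f) T)) := by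
        refine Ex_congr p X _ _ fun T _ => ?_
        rw [sq, Finset.sum_mul_sum]
      rw [h2, Ex_sum]
      refine Finset.sum_congr rfl fun e _ => ?_
      rw [Ex_sum]
    rw [h1]
    have h3 : ∀ e ∈ F, ∑ f ∈ F, Ex p X (fun T => (q e - smMiss (B e) T) *
        (q f - smMiss (B f) T)) ≤ 2 * (p * a) + d * (p * (g * a)) := by
      intro e he
      rw [← Finset.add_sum_erase F _ he]
      have h4 : Ex p X (fun T => (q e - smMiss (B e) T) * (q e - smMiss (B e) T)) ≤
          2 * (p * a) := by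
        refine le_trans (smCov_le hp.le hp1 X (B e) (B e)) ?_
        rw [Finset.inter_self]
        have := mul_le_mul_of_nonneg_left (hB e he) hp.le
        linarith
      have h5 : ∑ f ∈ F.erase e, Ex p X (fun T => (q e - smMiss (B e) T) *
          (q f - smMiss (B f) T)) ≤ d * (p * (g * a)) := by
        have h6 : ∀ f ∈ F.erase e, Ex p X (fun T => (q e - smMiss (B e) T) *
            (q f - smMiss (B f) T)) ≤ p * (g * a) := by
          intro f hf
          rw [Finset.mem_erase] at hf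
          refine le_trans (smCov_le hp.le hp1 X (B e) (B f)) ?_
          exact mul_le_mul_of_nonneg_left (hBB e he f hf.2 (Ne.symm hf.1)) hp.le
        refine le_trans (Finset.sum_le_sum h6) ?_
        rw [Finset.sum_const, nsmul_eq_mul]
        refine mul_le_mul_of_nonneg_right ?_ (by positivity)
        refine le_trans ?_ hF
        exact_mod_cast Finset.card_erase_le
      linarith
    refine le_trans (Finset.sum_le_sum h3) ?_
    rw [Finset.sum_const, nsmul_eq_mul]
    have h7 : (F.card : ℝ) * (2 * (p * a) + d * (p * (g * a))) ≤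
        d * (2 * (p * a) + d * (p * (g * a))) :=
      mul_le_mul_of_nonneg_right hF (by positivity)
    rw [hμ]
    linarith
  -- pointwise
  have hpt : ∀ T : Finset V, (if 4 * (p * a) * d <
      ((F.filter (fun e => (B e ∩ T).Nonempty)).card : ℝ)
      then ((F.filter (fun e => (B e ∩ T).Nonempty)).card : ℝ) else 0) ≤
      2 / μ * (∑ e ∈ F, (q e - smMiss (B e) T)) ^ 2 := by
    intro T
    rw [← hcount T]
    set h := ((F.filter (fun e => (B e ∩ T).Nonempty)).card : ℝ) with hh
    split_ifs with hc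
    · have h2μ : 2 * μ < h := by rw [hμ]; linarith
      have h8 : μ * (h / 2) ≤ (h - H) ^ 2 := by
        have h9 : h - μ ≤ h - H := by linarith
        have h10 : 0 ≤ h - μ := by linarith
        have h11 : (h - μ) ^ 2 ≤ (h - H) ^ 2 := pow_le_pow_left₀ h10 h9 2
        nlinarith
      rw [div_mul_eq_mul_div, le_div_iff₀ hμ0]
      linarith
    · positivity
  refine le_trans (Ex_mono hp.le hp1 X _ _ fun T _ => hpt T) ?_
  rw [Ex_mul_left]
  have h12 : 2 / μ * Ex p X (fun T => (∑ e ∈ F, (q e - smMiss (B e) T)) ^ 2) ≤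
      2 / μ * (μ + d * (d * (p * (g * a)))) :=
    mul_le_mul_of_nonneg_left hVar (by positivity)
  refine le_trans h12 (le_of_eq ?_)
  rw [hμ]
  field_simp

end Pool.Agent.Lib.MP_9b5ec2_co
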