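import Mathlib
import Pool.Agent.Lib.MP_9b5ec2_co.Ex

/-! Selection of the random set. -/

set_option autoImplicit false

namespace Pool.Agent.Lib.MP_9b5ec2_co

open Finset

theorem select_num {L u : ℝ} (hL : 40 ≤ L) (_hu0 : 0 ≤ u) (hu : u ≤ L / 10) :
    Real.exp (u * Real.log 2) * Real.exp (-L / 8) ≤ 1 / 2 := by
  rw [← Real.exp_add]
  have h1 : Real.log 2 ≤ 0.7 := by
    have := Real.log_two_lt_d9
    linarith
  have h2 : u * Real.log 2 ≤ (L / 10) * 0.7 := by
    have h3 : 0 ≤ Real.log 2 := Real.log_nonneg (by norm_num)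
    exact mul_le_mul hu h1 h3 (by linarith)
  have h4 : u * Real.log 2 + -L / 8 ≤ -1 := by linarith
  calc Real.exp (u * Real.log 2 + -L / 8) ≤ Real.exp (-1) := Real.exp_le_exp.2 h4
    _ ≤ 1 / 2 := by
        rw [Real.exp_neg, inv_eq_one_div]
        apply one_div_le_one_div_of_le (by norm_num)
        have := Real.add_one_le_exp (1 : ℝ)
        linarith

theorem select_sum_le {J : Type} [Fintype J] {k c : ℝ} (hJ : (Fintype.card J : ℝ) ≤ k)
    (hk : 0 < k) (hc : 0 ≤ c) (f : J → ℝ) (h : ∀ j, f j ≤ c / k) : ∑ j, f j ≤ c := by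
  calc ∑ j, f j ≤ ∑ _j : J, c / k := Finset.sum_le_sum fun j _ => h j
    _ = (Fintype.card J : ℝ) * (c / k) := by
        rw [Finset.sum_const, nsmul_eq_mul, Finset.card_univ]
    _ ≤ k * (c / k) := mul_le_mul_of_nonneg_right hJ (by positivity)
    _ = c := by field_simp

theorem select_hits {V ι : Type} [DecidableEq V] [DecidableEq ι] (A : ι → Finset V)
    (F : Finset ι) (X : Finset V) {p s : ℝ} (hp0 : 0 ≤ p) (hp1 : p ≤ 1)
    (hA : ∀ e, ((A e).card : ℝ) ≤ 2 * s) :
    Ex p X (fun T => ((F.filter (fun e => (A e ∩ T).Nonempty)).card : ℝ)) ≤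
      (F.card : ℝ) * (2 * (p * s)) := by
  have h1 : Ex p X (fun T => ((F.filter (fun e => (A e ∩ T).Nonempty)).card : ℝ)) =
      Ex p X (fun T => ∑ e ∈ F, if (A e ∩ T).Nonempty then 1 else 0) := by
    refine Ex_congr p X _ _ fun T _ => ?_
    rw [Finset.card_filter]
    push_cast
    rfl
  rw [h1, Ex_sum]
  calc ∑ e ∈ F, Ex p X (fun T => if (A e ∩ T).Nonempty then 1 else 0) ≤
      ∑ _e ∈ F, 2 * (p * s) := by
        refine Finset.sum_le_sum fun e _ => ?_
        refine (Ex_hit_le hp1 X (A e)).trans ?_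
        have h2 : ((A e ∩ X).card : ℝ) ≤ 2 * s :=
          (Nat.cast_le.2 (Finset.card_le_card Finset.inter_subset_left)).trans (hA e)
        calc p * ((A e ∩ X).card : ℝ) ≤ p * (2 * s) := mul_le_mul_of_nonneg_left h2 hp0
          _ = 2 * (p * s) := by ring
    _ = _ := by rw [Finset.sum_const, nsmul_eq_mul]

theorem select_pairs {V ι : Type} [DecidableEq V] [DecidableEq ι] (A : ι → Finset V)
    (F : Finset ι) (X : Finset V) {p s : ℝ}
    (hA : ∀ e, ((A e).card : ℝ) ≤ 2 * s) :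
    Ex p X (fun T => ∑ e ∈ F, ((A e ∩ T).card : ℝ) * (((A e ∩ T).card : ℝ) - 1)) ≤
      (F.card : ℝ) * (4 * (p * s) ^ 2) := by
  rw [Ex_sum]
  calc ∑ e ∈ F, Ex p X (fun T => ((A e ∩ T).card : ℝ) * (((A e ∩ T).card : ℝ) - 1)) ≤
      ∑ _e ∈ F, 4 * (p * s) ^ 2 := by
        refine Finset.sum_le_sum fun e _ => ?_
        refine (Ex_pairs_le X (A e)).trans ?_
        have h2 : ((A e).card : ℝ) ^ 2 ≤ (2 * s) ^ 2 :=
          pow_le_pow_left₀ (Nat.cast_nonneg _) (hA e) 2
        calc p ^ 2 * ((A e).card : ℝ) ^ 2 ≤ p ^ 2 * (2 * s) ^ 2 :=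
              mul_le_mul_of_nonneg_left h2 (sq_nonneg p)
          _ = 4 * (p * s) ^ 2 := by ring
    _ = _ := by rw [Finset.sum_const, nsmul_eq_mul]

theorem select_second (h1 : SecondMomentStmt) {V ι : Type} [Fintype V] [DecidableEq V]
    [DecidableEq ι] (A : ι → Finset V) (F : Finset ι) (X : Finset V) {p s γ D l θ : ℝ}
    (hp0 : 0 < p) (hp1 : p ≤ 1) (hs : 0 < s) (hγ : 0 ≤ γ) (hd : 0 < D * l) (hθ : p * s = θ)
    (hA : ∀ e, ((A e).card : ℝ) ≤ 2 * s)
    (hAA : ∀ e f, e ≠ f → ((A e ∩ A f).card : ℝ) ≤ γ * s) :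
    Ex p X (fun T => ∑ v ∈ univ.filter (fun v => (deg A F v : ℝ) ≤ D * l ∧
          4 * D * θ * l < (hitDeg A F T v : ℝ)), (hitDeg A F T v : ℝ)) ≤
      (Fintype.card V : ℝ) * (2 + γ * (D * l)) := by
  have e1 : Ex p X (fun T => ∑ v ∈ univ.filter (fun v => (deg A F v : ℝ) ≤ D * l ∧
          4 * D * θ * l < (hitDeg A F T v : ℝ)), (hitDeg A F T v : ℝ)) =
      Ex p X (fun T => ∑ v : V, if (deg A F v : ℝ) ≤ D * l ∧
          4 * D * θ * l < (hitDeg A F T v : ℝ) then (hitDeg A F T v : ℝ) else 0) := by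
    refine Ex_congr p X _ _ fun T _ => ?_
    rw [Finset.sum_filter]
  rw [e1, Ex_sum]
  calc ∑ v : V, Ex p X (fun T => if (deg A F v : ℝ) ≤ D * l ∧
          4 * D * θ * l < (hitDeg A F T v : ℝ) then (hitDeg A F T v : ℝ) else 0) ≤
      ∑ _v : V, (2 + γ * (D * l)) := by
        refine Finset.sum_le_sum fun v _ => ?_
        by_cases hv : (deg A F v : ℝ) ≤ D * l
        · have h := h1 V ι X (F.filter (fun e => v ∈ A e)) (fun e => (A e).erase v) p s γ (D * l)
            hp0 hp1 hs hγ hd hv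
            (fun e _ => (Nat.cast_le.2 (Finset.card_erase_le)).trans (hA e))
            (fun e _ f _ hef => by
              refine le_trans (Nat.cast_le.2 (Finset.card_le_card ?_)) (hAA e f hef)
              exact Finset.inter_subset_inter (Finset.erase_subset _ _) (Finset.erase_subset _ _))
          refine le_trans (le_of_eq ?_) h
          refine Ex_congr p X _ _ fun T _ => ?_
          have e2 : ((F.filter (fun e => v ∈ A e)).filter
              (fun e => ((A e).erase v ∩ T).Nonempty)).card = hitDeg A F T v := by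
            rw [Finset.filter_filter]; rfl
          have e3 : 4 * (p * s) * (D * l) = 4 * D * θ * l := by rw [hθ]; ring
          rw [e3]
          simp only [e2, hv, true_and]
        · have e2 : Ex p X (fun T => if (deg A F v : ℝ) ≤ D * l ∧
              4 * D * θ * l < (hitDeg A F T v : ℝ) then (hitDeg A F T v : ℝ) else 0) =
              Ex p X (fun _ => 0) := by
            refine Ex_congr p X _ _ fun T _ => ?_
            rw [if_neg fun h => hv h.1]
          rw [e2, Ex_const]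
          have := mul_nonneg hγ hd.le
          linarith
    _ = _ := by rw [Finset.sum_const, nsmul_eq_mul, Finset.card_univ]

theorem select_tail (h2 : TailStmt) {V : Type} [Fintype V] [DecidableEq V] (U : Finset V)
    (Zof : Finset V → Finset V) {p s σ θ η : ℝ} (hp0 : 0 ≤ p) (hp1 : p ≤ 1) (hs : 0 < s)
    (hp : p = θ / s) (hθ : 0 < θ)
    (hU : (U.card : ℝ) * s ≤ η * (Fintype.card V : ℝ)) (hησ : 10 * η ≤ θ * σ)
    (hn : 40 * s ≤ θ * σ * (Fintype.card V : ℝ))
    (hZ : ∀ W, W ⊆ U → Disjoint (Zof W) U ∧ σ * (Fintype.card V : ℝ) ≤ ((Zof W).card : ℝ)) :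
    Ex p (univ \ U) (fun T => ∑ W ∈ U.powerset,
      if 2 * ((T ∩ Zof W).card : ℝ) < p * ((Zof W).card : ℝ) then 1 else 0) ≤ 1 / 2 := by
  rw [Ex_sum]
  set L : ℝ := θ * σ * (Fintype.card V : ℝ) / s with hL
  have hL40 : 40 ≤ L := by rw [hL, le_div_iff₀ hs]; exact hn
  have hUL : (U.card : ℝ) ≤ L / 10 := by
    rw [hL, div_div, le_div_iff₀ (by positivity)]
    have h3 : η * (Fintype.card V : ℝ) * 10 ≤ θ * σ * (Fintype.card V : ℝ) := by
      have := mul_le_mul_of_nonneg_right hησ (Nat.cast_nonneg (α := ℝ) (Fintype.card V))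
      linarith
    have h4 := mul_le_mul_of_nonneg_right hU (by norm_num : (0 : ℝ) ≤ 10)
    linarith
  calc ∑ W ∈ U.powerset, Ex p (univ \ U) (fun T =>
        if 2 * ((T ∩ Zof W).card : ℝ) < p * ((Zof W).card : ℝ) then 1 else 0) ≤
      ∑ _W ∈ U.powerset, Real.exp (-L / 8) := by
        refine Finset.sum_le_sum fun W hW => ?_
        obtain ⟨hd, hc⟩ := hZ W (Finset.mem_powerset.1 hW)
        have hsub : Zof W ⊆ univ \ U := by
          intro x hx
          rw [Finset.mem_sdiff]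
          exact ⟨Finset.mem_univ _, fun hxU => (Finset.disjoint_left.1 hd) hx hxU⟩
        refine (h2 V (univ \ U) (Zof W) p hp0 hp1 hsub).trans ?_
        apply Real.exp_le_exp.2
        have h5 : L ≤ p * ((Zof W).card : ℝ) := by
          rw [hL, hp]
          calc θ * σ * (Fintype.card V : ℝ) / s = θ / s * (σ * (Fintype.card V : ℝ)) := by ring
            _ ≤ θ / s * ((Zof W).card : ℝ) := mul_le_mul_of_nonneg_left hc (by positivity)
        linarith
    _ = Real.exp ((U.card : ℝ) * Real.log 2) * Real.exp (-L / 8) := by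
        rw [Finset.sum_const, nsmul_eq_mul, Finset.card_powerset]
        push_cast
        congr 1
        rw [mul_comm, Real.exp_mul, Real.exp_log (by norm_num), Real.rpow_natCast]
    _ ≤ 1 / 2 := select_num hL40 (Nat.cast_nonneg _) hUL

theorem select (h1 : SecondMomentStmt) (h2 : TailStmt) : SelectStmt := by
  intro V ι J _ _ _ _ A U fam lam Zof s γ C D σ θ ε η k hJ hk hC hD hσ hθ hθ1 hε hγ hη hs hA hAA
    hlam hγD hfam hU hησ hn hZ
  have hs0 : 0 < s := by linarith
  have hn0 : 0 < (Fintype.card V : ℝ) := by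
    by_contra hcon
    have : θ * σ * (Fintype.card V : ℝ) ≤ 0 :=
      mul_nonpos_of_nonneg_of_nonpos (by positivity) (not_lt.1 hcon)
    linarith
  have hk0 : 0 < k := by linarith
  have hl : ∀ j, 0 < lam j := by
    intro j
    by_contra hcon
    have h3 : ε * θ * lam j ≤ 0 :=
      mul_nonpos_of_nonneg_of_nonpos (by positivity) (not_lt.1 hcon)
    have := hlam j
    linarith
  obtain ⟨p, hp⟩ : ∃ p, p = θ / s := ⟨_, rfl⟩
  have hp0 : 0 < p := by rw [hp]; positivity
  have hp1 : p ≤ 1 := by rw [hp, div_le_one hs0]; linarith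
  have hps : p * s = θ := by rw [hp]; field_simp
  -- the five quantities
  let f1 : Finset V → ℝ := fun T => (T.card : ℝ) * (s / (10 * θ * (Fintype.card V : ℝ)))
  let f2 : Finset V → ℝ := fun T => ∑ j, (((fam j).filter (fun e => (A e ∩ T).Nonempty)).card : ℝ) *
    (s / (40 * k * C * θ * lam j * (Fintype.card V : ℝ)))
  let f3 : Finset V → ℝ := fun T =>
    ∑ j, (∑ e ∈ fam j, ((A e ∩ T).card : ℝ) * (((A e ∩ T).card : ℝ) - 1)) *
      (s / (40 * k * C * θ ^ 2 * lam j * (Fintype.card V : ℝ)))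
  let f4 : Finset V → ℝ := fun T =>
    ∑ j, (∑ v ∈ univ.filter (fun v => (deg A (fam j) v : ℝ) ≤ D * lam j ∧
          4 * D * θ * lam j < (hitDeg A (fam j) T v : ℝ)), (hitDeg A (fam j) T v : ℝ)) *
      (1 / (ε * θ * lam j * (Fintype.card V : ℝ)))
  let f5 : Finset V → ℝ := fun T => ∑ W ∈ U.powerset,
      if 2 * ((T ∩ Zof W).card : ℝ) < p * ((Zof W).card : ℝ) then 1 else 0
  have pair_nonneg : ∀ m : ℕ, (0 : ℝ) ≤ (m : ℝ) * ((m : ℝ) - 1) := by
    intro m
    rcases Nat.eq_zero_or_pos m with h | h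
    · subst h; simp
    · have : (1 : ℝ) ≤ m := by exact_mod_cast h
      exact mul_nonneg (by linarith) (by linarith)
  have c1 : 0 < s / (10 * θ * (Fintype.card V : ℝ)) := by positivity
  have c2 : ∀ j, 0 < s / (40 * k * C * θ * lam j * (Fintype.card V : ℝ)) := fun j => by
    have := hl j; positivity
  have c3 : ∀ j, 0 < s / (40 * k * C * θ ^ 2 * lam j * (Fintype.card V : ℝ)) := fun j => by
    have := hl j; positivity
  have c4 : ∀ j, 0 < 1 / (ε * θ * lam j * (Fintype.card V : ℝ)) := fun j => by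
    have := hl j; positivity
  have n1 : ∀ T, 0 ≤ f1 T := fun T => mul_nonneg (Nat.cast_nonneg _) c1.le
  have n2' : ∀ T j, 0 ≤ (((fam j).filter (fun e => (A e ∩ T).Nonempty)).card : ℝ) *
    (s / (40 * k * C * θ * lam j * (Fintype.card V : ℝ))) := fun T j =>
      mul_nonneg (Nat.cast_nonneg _) (c2 j).le
  have n2 : ∀ T, 0 ≤ f2 T := fun T => Finset.sum_nonneg fun j _ => n2' T j
  have n3' : ∀ T j, 0 ≤ (∑ e ∈ fam j, ((A e ∩ T).card : ℝ) * (((A e ∩ T).card : ℝ) - 1)) *
      (s / (40 * k * C * θ ^ 2 * lam j * (Fintype.card V : ℝ))) := fun T j =>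
      mul_nonneg (Finset.sum_nonneg fun e _ => pair_nonneg _) (c3 j).le
  have n3 : ∀ T, 0 ≤ f3 T := fun T => Finset.sum_nonneg fun j _ => n3' T j
  have n4' : ∀ T j, 0 ≤ (∑ v ∈ univ.filter (fun v => (deg A (fam j) v : ℝ) ≤ D * lam j ∧
          4 * D * θ * lam j < (hitDeg A (fam j) T v : ℝ)), (hitDeg A (fam j) T v : ℝ)) *
      (1 / (ε * θ * lam j * (Fintype.card V : ℝ))) := fun T j =>
      mul_nonneg (Finset.sum_nonneg fun v _ => Nat.cast_nonneg _) (c4 j).le
  have n4 : ∀ T, 0 ≤ f4 T := fun T => Finset.sum_nonneg fun j _ => n4' T j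
  have n5' : ∀ (T W : Finset V), (0 : ℝ) ≤
      if 2 * ((T ∩ Zof W).card : ℝ) < p * ((Zof W).card : ℝ) then 1 else 0 := by
    intro T W; split_ifs <;> norm_num
  have n5 : ∀ T, 0 ≤ f5 T := fun T => Finset.sum_nonneg fun W _ => n5' T W
  -- expectations
  have E1 : Ex p (univ \ U) f1 ≤ 1 / 10 := by
    have h3 : Ex p (univ \ U) f1 =
        p * (((univ \ U : Finset V)).card : ℝ) * (s / (10 * θ * (Fintype.card V : ℝ))) := by
      rw [← Ex_card, ← Ex_mul_right]
    rw [h3]
    have h4 : (((univ \ U : Finset V)).card : ℝ) ≤ (Fintype.card V : ℝ) :=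
      Nat.cast_le.2 (Finset.card_le_univ _)
    calc p * (((univ \ U : Finset V)).card : ℝ) * (s / (10 * θ * (Fintype.card V : ℝ))) ≤
        p * (Fintype.card V : ℝ) * (s / (10 * θ * (Fintype.card V : ℝ))) := by
          apply mul_le_mul_of_nonneg_right _ c1.le
          exact mul_le_mul_of_nonneg_left h4 hp0.le
      _ = 1 / 10 := by rw [hp]; field_simp
  have E2 : Ex p (univ \ U) f2 ≤ 1 / 20 := by
    have h3 : Ex p (univ \ U) f2 = ∑ j, Ex p (univ \ U)
        (fun T => (((fam j).filter (fun e => (A e ∩ T).Nonempty)).card : ℝ)) *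
          (s / (40 * k * C * θ * lam j * (Fintype.card V : ℝ))) := by
      rw [← Finset.sum_congr rfl fun j _ => Ex_mul_right p (univ \ U) _ _, ← Ex_sum]
    rw [h3]
    refine select_sum_le hJ hk0 (by norm_num) _ fun j => ?_
    have hlj := hl j
    calc _ ≤ ((fam j).card : ℝ) * (2 * (p * s)) *
          (s / (40 * k * C * θ * lam j * (Fintype.card V : ℝ))) :=
          mul_le_mul_of_nonneg_right (select_hits A (fam j) _ hp0.le hp1 hA) (c2 j).le
      _ = (((fam j).card : ℝ) * s) * (2 * θ /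
          (40 * k * C * θ * lam j * (Fintype.card V : ℝ))) := by rw [hps]; ring
      _ ≤ (C * lam j * (Fintype.card V : ℝ)) * (2 * θ /
          (40 * k * C * θ * lam j * (Fintype.card V : ℝ))) :=
          mul_le_mul_of_nonneg_right (hfam j) (by positivity)
      _ = 1 / 20 / k := by field_simp; norm_num
  have E3 : Ex p (univ \ U) f3 ≤ 1 / 10 := by
    have h3 : Ex p (univ \ U) f3 = ∑ j, Ex p (univ \ U)
        (fun T => (∑ e ∈ fam j, ((A e ∩ T).card : ℝ) * (((A e ∩ T).card : ℝ) - 1))) *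
          (s / (40 * k * C * θ ^ 2 * lam j * (Fintype.card V : ℝ))) := by
      rw [← Finset.sum_congr rfl fun j _ => Ex_mul_right p (univ \ U) _ _, ← Ex_sum]
    rw [h3]
    refine select_sum_le hJ hk0 (by norm_num) _ fun j => ?_
    have hlj := hl j
    calc _ ≤ ((fam j).card : ℝ) * (4 * (p * s) ^ 2) *
          (s / (40 * k * C * θ ^ 2 * lam j * (Fintype.card V : ℝ))) :=
          mul_le_mul_of_nonneg_right (select_pairs A (fam j) _ hA) (c3 j).le
      _ = (((fam j).card : ℝ) * s) * (4 * θ ^ 2 /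
          (40 * k * C * θ ^ 2 * lam j * (Fintype.card V : ℝ))) := by rw [hps]; ring
      _ ≤ (C * lam j * (Fintype.card V : ℝ)) * (4 * θ ^ 2 /
          (40 * k * C * θ ^ 2 * lam j * (Fintype.card V : ℝ))) :=
          mul_le_mul_of_nonneg_right (hfam j) (by positivity)
      _ = 1 / 10 / k := by field_simp; norm_num
  have E4 : Ex p (univ \ U) f4 ≤ 1 / 10 := by
    have h3 : Ex p (univ \ U) f4 = ∑ j, Ex p (univ \ U)
        (fun T => (∑ v ∈ univ.filter (fun v => (deg A (fam j) v : ℝ) ≤ D * lam j ∧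
          4 * D * θ * lam j < (hitDeg A (fam j) T v : ℝ)), (hitDeg A (fam j) T v : ℝ))) *
          (1 / (ε * θ * lam j * (Fintype.card V : ℝ))) := by
      rw [← Finset.sum_congr rfl fun j _ => Ex_mul_right p (univ \ U) _ _, ← Ex_sum]
    rw [h3]
    refine select_sum_le hJ hk0 (by norm_num) _ fun j => ?_
    have hlj := hl j
    have hq : (2 + γ * (D * lam j)) * (20 * k) ≤ 2 * (ε * θ * lam j) := by
      have h4 := mul_le_mul_of_nonneg_right hγD hlj.le
      have h5 := hlam j
      nlinarith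
    calc _ ≤ (Fintype.card V : ℝ) * (2 + γ * (D * lam j)) *
          (1 / (ε * θ * lam j * (Fintype.card V : ℝ))) :=
          mul_le_mul_of_nonneg_right
            (select_second h1 A (fam j) _ hp0 hp1 hs0 hγ (by positivity) hps hA hAA) (c4 j).le
      _ = (2 + γ * (D * lam j)) / (ε * θ * lam j) := by field_simp
      _ ≤ 1 / 10 / k := by
          rw [div_div, div_le_div_iff₀ (by positivity) (by positivity)]
          linarith
  have E5 : Ex p (univ \ U) f5 ≤ 1 / 2 :=
    select_tail h2 U Zof hp0.le hp1 hs0 hp hθ hU hησ hn hZ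
  have Etot : Ex p (univ \ U) (fun T => f1 T + (f2 T + (f3 T + (f4 T + f5 T)))) < 1 := by
    rw [Ex_add p _ f1, Ex_add p _ f2, Ex_add p _ f3, Ex_add p _ f4]
    linarith
  obtain ⟨T, hTX, hT⟩ := Ex_exists hp0.le hp1 _ _ _ Etot
  have g1 := n1 T
  have g2 := n2 T
  have g3 := n3 T
  have g4 := n4 T
  have g5 := n5 T
  refine ⟨T, ?_, ?_, ?_, ?_, ?_, ?_⟩
  · rw [Finset.disjoint_left]
    intro x hx hxU
    exact (Finset.mem_sdiff.1 (hTX hx)).2 hxU
  · have h3 : f1 T < 1 := by linarith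
    have h4 : (T.card : ℝ) * s / (10 * θ * (Fintype.card V : ℝ)) < 1 := by
      rw [mul_div_assoc]; exact h3
    exact ((div_lt_one (by positivity)).1 h4).le
  · intro j
    have hlj := hl j
    have h3 : f2 T < 1 := by linarith
    have h4 : (((fam j).filter (fun e => (A e ∩ T).Nonempty)).card : ℝ) *
        (s / (40 * k * C * θ * lam j * (Fintype.card V : ℝ))) ≤ f2 T :=
      Finset.single_le_sum (f := fun j => (((fam j).filter (fun e => (A e ∩ T).Nonempty)).card : ℝ) *
        (s / (40 * k * C * θ * lam j * (Fintype.card V : ℝ)))) (fun j _ => n2' T j)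
        (Finset.mem_univ j)
    rw [← mul_div_assoc] at h4
    exact ((div_lt_one (by positivity)).1 (h4.trans_lt h3)).le
  · intro j
    have hlj := hl j
    have h3 : f3 T < 1 := by linarith
    have h4 : (∑ e ∈ fam j, ((A e ∩ T).card : ℝ) * (((A e ∩ T).card : ℝ) - 1)) *
        (s / (40 * k * C * θ ^ 2 * lam j * (Fintype.card V : ℝ))) ≤ f3 T :=
      Finset.single_le_sum (f := fun j => (∑ e ∈ fam j, ((A e ∩ T).card : ℝ) *
        (((A e ∩ T).card : ℝ) - 1)) *
        (s / (40 * k * C * θ ^ 2 * lam j * (Fintype.card V : ℝ)))) (fun j _ => n3' T j)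
        (Finset.mem_univ j)
    rw [← mul_div_assoc] at h4
    exact ((div_lt_one (by positivity)).1 (h4.trans_lt h3)).le
  · intro j
    have hlj := hl j
    have h3 : f4 T < 1 := by linarith
    have h4 : (∑ v ∈ univ.filter (fun v => (deg A (fam j) v : ℝ) ≤ D * lam j ∧
          4 * D * θ * lam j < (hitDeg A (fam j) T v : ℝ)), (hitDeg A (fam j) T v : ℝ)) *
        (1 / (ε * θ * lam j * (Fintype.card V : ℝ))) ≤ f4 T :=
      Finset.single_le_sum (f := fun j =>
        (∑ v ∈ univ.filter (fun v => (deg A (fam j) v : ℝ) ≤ D * lam j ∧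
          4 * D * θ * lam j < (hitDeg A (fam j) T v : ℝ)), (hitDeg A (fam j) T v : ℝ)) *
        (1 / (ε * θ * lam j * (Fintype.card V : ℝ)))) (fun j _ => n4' T j)
        (Finset.mem_univ j)
    rw [← mul_div_assoc, mul_one] at h4
    exact ((div_lt_one (by positivity)).1 (h4.trans_lt h3)).le
  · intro W hW
    have h3 : f5 T < 1 := by linarith
    have h4 : (if 2 * ((T ∩ Zof W).card : ℝ) < p * ((Zof W).card : ℝ) then (1 : ℝ) else 0) ≤
        f5 T :=
      Finset.single_le_sum (f := fun W =>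
        if 2 * ((T ∩ Zof W).card : ℝ) < p * ((Zof W).card : ℝ) then (1 : ℝ) else 0)
        (fun W _ => n5' T W) (Finset.mem_powerset.2 hW)
    have h5 : ¬ (2 * ((T ∩ Zof W).card : ℝ) < p * ((Zof W).card : ℝ)) := by
      intro h6
      rw [if_pos h6] at h4
      linarith
    have h6 := not_lt.1 h5
    have h7 := mul_le_mul_of_nonneg_right h6 hs0.le
    calc θ * ((Zof W).card : ℝ) = p * ((Zof W).card : ℝ) * s := by rw [← hps]; ring
      _ ≤ 2 * ((T ∩ Zof W).card : ℝ) * s := h7
      _ = _ := by ring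

end Pool.Agent.Lib.MP_9b5ec2_co
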