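import Mathlib
import Pool.Agent.Lib.MP_9b5ec2_co.Defs

/-! The step for one colouring (`StepStmt`). -/

set_option autoImplicit false
set_option linter.unusedSectionVars false

namespace Pool.Agent.Lib.MP_9b5ec2_co

open Finset

namespace StepProof

variable {V ι : Type} [DecidableEq V] [DecidableEq ι]

/-- Double counting. -/
theorem sum_deg (A : ι → Finset V) (F : Finset ι) (S : Finset V) :
    ∑ v ∈ S, (deg A F v : ℝ) = ∑ e ∈ F, ((A e ∩ S).card : ℝ) := by
  have h : ∑ v ∈ S, deg A F v = ∑ e ∈ F, (A e ∩ S).card := by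
    simp only [deg, Finset.card_filter]
    rw [Finset.sum_comm]
    refine Finset.sum_congr rfl fun e _ => ?_
    rw [← Finset.card_filter]
    congr 1
    ext v
    simp [and_comm]
  exact_mod_cast h

theorem deg_mono (A : ι → Finset V) {F F' : Finset ι} (h : F ⊆ F') (v : V) :
    deg A F v ≤ deg A F' v :=
  Finset.card_le_card (Finset.filter_subset_filter _ h)

theorem erase_inter {S T : Finset V} {v : V} (hv : v ∉ T) : S.erase v ∩ T = S ∩ T := by
  ext x
  simp only [Finset.mem_inter, Finset.mem_erase]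
  constructor
  · rintro ⟨⟨_, h⟩, h'⟩; exact ⟨h, h'⟩
  · rintro ⟨h, h'⟩
    exact ⟨⟨fun hx => hv (hx ▸ h'), h⟩, h'⟩

/-- For `v ∉ T` the degree in the family of the edges hit by `T` is `hitDeg`. -/
theorem deg_hit (A : ι → Finset V) (F : Finset ι) (T : Finset V) {v : V} (hv : v ∉ T) :
    deg A (F.filter (fun e => (A e ∩ T).Nonempty)) v = hitDeg A F T v := by
  unfold deg hitDeg
  rw [Finset.filter_filter]
  congr 1
  ext e
  simp only [Finset.mem_filter]
  rw [erase_inter hv]
  tauto

/-- Removing the hit edges costs at most `hitDeg`. -/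
theorem deg_le_add (A : ι → Finset V) {F G : Finset ι} (hFG : F ⊆ G) (T : Finset V) {v : V}
    (hv : v ∉ T) :
    deg A F v ≤ deg A (F.filter (fun e => A e ∩ T = ∅)) v + hitDeg A G T v := by
  rw [← deg_hit A G T hv]
  unfold deg
  calc (F.filter (fun e => v ∈ A e)).card
      ≤ (((F.filter (fun e => A e ∩ T = ∅)).filter (fun e => v ∈ A e)) ∪
        ((G.filter (fun e => (A e ∩ T).Nonempty)).filter (fun e => v ∈ A e))).card := by
        refine Finset.card_le_card fun e he => ?_
        rw [Finset.mem_filter] at he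
        rw [Finset.mem_union]
        by_cases h : A e ∩ T = ∅
        · left
          exact Finset.mem_filter.mpr ⟨Finset.mem_filter.mpr ⟨he.1, h⟩, he.2⟩
        · right
          exact Finset.mem_filter.mpr ⟨Finset.mem_filter.mpr
            ⟨hFG he.1, Finset.nonempty_iff_ne_empty.mpr h⟩, he.2⟩
    _ ≤ _ := Finset.card_union_le _ _

/-- The colour class of the points of `T ∩ Z`, of the majority colour. -/
theorem exists_colour (W' S : Finset V) : ∃ c : Bool,
    (S.card : ℝ) ≤ 2 * ((S.filter (fun u => decide (u ∈ W') = c)).card : ℝ) := by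
  have h : (S.filter (fun u => decide (u ∈ W') = true)).card +
      (S.filter (fun u => decide (u ∈ W') = false)).card = S.card := by
    rw [← Finset.card_union_of_disjoint]
    · congr 1
      ext u
      simp only [Finset.mem_union, Finset.mem_filter]
      by_cases hu : u ∈ W' <;> simp [hu]
    · rw [Finset.disjoint_filter]
      intro u _ h1 h2
      rw [h1] at h2
      cases h2
  have h' : ((S.filter (fun u => decide (u ∈ W') = true)).card : ℝ) +
      ((S.filter (fun u => decide (u ∈ W') = false)).card : ℝ) = S.card := by exact_mod_cast h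
  by_cases hc : (S.card : ℝ) ≤ 2 * ((S.filter (fun u => decide (u ∈ W') = true)).card : ℝ)
  · exact ⟨true, hc⟩
  · refine ⟨false, ?_⟩
    linarith

/-- The size of the new family, by double counting. -/
theorem size_count (A : ι → Finset V) (F G : Finset ι) (hFG : F ⊆ G) (T Z W' : Finset V)
    (c : Bool) (δ : ℝ) (hδ : ∀ v ∈ Z, δ ≤ (deg A F v : ℝ)) :
    (((T ∩ Z).filter (fun u => decide (u ∈ W') = c)).card : ℝ) * δ ≤
      ((F.filter (fun e => (A e ∩ T).card = 1 ∧ ∀ x ∈ A e ∩ T, decide (x ∈ W') = c)).card : ℝ) +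
        ∑ e ∈ G, ((A e ∩ T).card : ℝ) * (((A e ∩ T).card : ℝ) - 1) := by
  set Tc := (T ∩ Z).filter (fun u => decide (u ∈ W') = c) with hTc
  have hnn : ∀ e, 0 ≤ ((A e ∩ T).card : ℝ) * (((A e ∩ T).card : ℝ) - 1) := by
    intro e
    rcases Nat.eq_zero_or_pos (A e ∩ T).card with h | h
    · rw [h]; simp
    · have : (1 : ℝ) ≤ ((A e ∩ T).card : ℝ) := by exact_mod_cast h
      exact mul_nonneg (by linarith) (by linarith)
  have h1 : (Tc.card : ℝ) * δ ≤ ∑ v ∈ Tc, (deg A F v : ℝ) := by
    rw [← nsmul_eq_mul]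
    refine Finset.card_nsmul_le_sum _ _ _ fun v hv => hδ v ?_
    exact (Finset.mem_inter.mp (Finset.mem_filter.mp hv).1).2
  rw [sum_deg] at h1
  refine h1.trans ?_
  have h2 : ∀ e ∈ F, ((A e ∩ Tc).card : ℝ) ≤
      (if (A e ∩ T).card = 1 ∧ ∀ x ∈ A e ∩ T, decide (x ∈ W') = c then (1 : ℝ) else 0) +
        ((A e ∩ T).card : ℝ) * (((A e ∩ T).card : ℝ) - 1) := by
    intro e _
    have hsub : A e ∩ Tc ⊆ A e ∩ T := by
      intro x hx
      rw [Finset.mem_inter] at hx ⊢
      exact ⟨hx.1, (Finset.mem_inter.mp (Finset.mem_filter.mp hx.2).1).1⟩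
    have hle : (A e ∩ Tc).card ≤ (A e ∩ T).card := Finset.card_le_card hsub
    rcases Nat.lt_or_ge (A e ∩ T).card 2 with hlt | hge
    · rcases Nat.eq_zero_or_pos (A e ∩ Tc).card with h0 | hpos
      · rw [h0]
        have := hnn e
        split_ifs <;> push_cast <;> linarith
      · have hT1 : (A e ∩ T).card = 1 := by omega
        have hTc1 : (A e ∩ Tc).card = 1 := by omega
        have heq : A e ∩ Tc = A e ∩ T := Finset.eq_of_subset_of_card_le hsub (by omega)
        have hcond : (A e ∩ T).card = 1 ∧ ∀ x ∈ A e ∩ T, decide (x ∈ W') = c := by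
          refine ⟨hT1, fun x hx => ?_⟩
          rw [← heq] at hx
          exact (Finset.mem_filter.mp (Finset.mem_inter.mp hx).2).2
        rw [if_pos hcond, hTc1, hT1]
        norm_num
    · have h3 : (2 : ℝ) ≤ ((A e ∩ T).card : ℝ) := by exact_mod_cast hge
      have h4 : ((A e ∩ Tc).card : ℝ) ≤ ((A e ∩ T).card : ℝ) := by exact_mod_cast hle
      have h5 : ((A e ∩ T).card : ℝ) ≤ ((A e ∩ T).card : ℝ) * (((A e ∩ T).card : ℝ) - 1) := by
        nlinarith
      have h6 : (0 : ℝ) ≤ (if (A e ∩ T).card = 1 ∧ ∀ x ∈ A e ∩ T, decide (x ∈ W') = c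
          then (1 : ℝ) else 0) := by split_ifs <;> norm_num
      linarith
  refine (Finset.sum_le_sum h2).trans ?_
  rw [Finset.sum_add_distrib, ← Finset.sum_filter, Finset.sum_const, nsmul_eq_mul, mul_one]
  refine add_le_add le_rfl ?_
  exact Finset.sum_le_sum_of_subset_of_nonneg hFG fun e _ _ => hnn e

/-- The mass argument: a lower bound for the number of good points. -/
theorem good_count [Fintype V] (Y Z' : Finset V) (h g : V → ℝ) (B1 B2 : V → Prop)
    [DecidablePred B1] [DecidablePred B2] (ε θ L D L2 : ℝ) (h2 : V → ℝ) (n : ℝ)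
    (hn : n = (Fintype.card V : ℝ)) (hθ : 0 < θ) (hL : 0 < L) (hL2 : 0 < L2) (hD : 0 < D)
    (hε : 0 < ε) (hh0 : ∀ v, 0 ≤ h v)
    (hg : ∀ v ∈ Y, g v ≤ h v)
    (hB1 : ∑ v ∈ univ.filter B1, h v ≤ ε * θ * L * n)
    (hnB1 : ∀ v ∈ Y, ¬ B1 v → h v ≤ 4 * D * θ * L)
    (hB2 : ∑ v ∈ univ.filter B2, h2 v ≤ ε * θ * L2 * n)
    (hB2' : ∀ v, B2 v → 4 * D * θ * L2 ≤ h2 v)
    (hZ' : ∀ v ∈ Y, ¬ B1 v → ¬ B2 v → 2 * ε * θ * L ≤ g v → v ∈ Z')
    (hmass : 8 * ε * θ * L * n ≤ ∑ v ∈ Y, g v) :
    ε / D * n ≤ (Z'.card : ℝ) := by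
  have hDθL : 0 < 4 * D * θ * L := by positivity
  -- pointwise bound
  have hpt : ∀ v ∈ Y, g v ≤ (if B1 v then h v else 0) + (if B2 v then 4 * D * θ * L else 0) +
      2 * ε * θ * L + (if v ∈ Z' then 4 * D * θ * L else 0) := by
    intro v hv
    have e0 : 0 ≤ (if B1 v then h v else 0) := by split_ifs; exacts [hh0 v, le_rfl]
    have e1 : 0 ≤ (if B2 v then 4 * D * θ * L else 0) := by split_ifs; exacts [hDθL.le, le_rfl]
    have e2 : 0 < 2 * ε * θ * L := by positivity
    have e3 : 0 ≤ (if v ∈ Z' then 4 * D * θ * L else 0) := by split_ifs; exacts [hDθL.le, le_rfl]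
    by_cases b1 : B1 v
    · have := hg v hv
      rw [if_pos b1] at *
      linarith
    · have hle := (hg v hv).trans (hnB1 v hv b1)
      by_cases b2 : B2 v
      · rw [if_pos b2] at *
        linarith
      · by_cases hs : 2 * ε * θ * L ≤ g v
        · rw [if_pos (hZ' v hv b1 b2 hs)]
          linarith
        · push Not at hs
          linarith
  have hsum := Finset.sum_le_sum hpt
  have hsub : Y ⊆ univ := Finset.subset_univ Y
  have hall : ∑ v ∈ Y, ((if B1 v then h v else 0) + (if B2 v then 4 * D * θ * L else 0) +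
      2 * ε * θ * L + (if v ∈ Z' then 4 * D * θ * L else 0)) ≤
      ∑ v, ((if B1 v then h v else 0) + (if B2 v then 4 * D * θ * L else 0) +
      2 * ε * θ * L + (if v ∈ Z' then 4 * D * θ * L else 0)) := by
    refine Finset.sum_le_sum_of_subset_of_nonneg hsub fun v _ _ => ?_
    have e0 : 0 ≤ (if B1 v then h v else 0) := by split_ifs; exacts [hh0 v, le_rfl]
    have e1 : 0 ≤ (if B2 v then 4 * D * θ * L else 0) := by split_ifs; exacts [hDθL.le, le_rfl]
    have e2 : 0 < 2 * ε * θ * L := by positivity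
    have e3 : 0 ≤ (if v ∈ Z' then 4 * D * θ * L else 0) := by split_ifs; exacts [hDθL.le, le_rfl]
    linarith
  have hrhs : ∑ v, ((if B1 v then h v else 0) + (if B2 v then 4 * D * θ * L else 0) +
      2 * ε * θ * L + (if v ∈ Z' then 4 * D * θ * L else 0)) =
      ∑ v ∈ univ.filter B1, h v + ((univ.filter B2).card : ℝ) * (4 * D * θ * L) +
        n * (2 * ε * θ * L) + (Z'.card : ℝ) * (4 * D * θ * L) := by
    rw [Finset.sum_add_distrib, Finset.sum_add_distrib, Finset.sum_add_distrib,
      ← Finset.sum_filter, ← Finset.sum_filter, Finset.sum_const, Finset.sum_const,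
      ← Finset.sum_filter, Finset.sum_const, Finset.card_univ, nsmul_eq_mul, nsmul_eq_mul,
      nsmul_eq_mul, ← hn]
    have hfz : (univ.filter (fun v => v ∈ Z')) = Z' := by ext; simp
    rw [hfz]
  rw [hrhs] at hall
  -- the number of points of `B2`
  have hb2 : ((univ.filter B2).card : ℝ) * (4 * D * θ * L2) ≤ ε * θ * L2 * n := by
    refine le_trans ?_ hB2
    rw [← nsmul_eq_mul]
    exact Finset.card_nsmul_le_sum _ _ _ fun v hv => hB2' v (Finset.mem_filter.mp hv).2
  have hb3 : ((univ.filter B2).card : ℝ) * (4 * D * θ * L) ≤ ε * θ * L * n := by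
    have h1 : ((univ.filter B2).card : ℝ) * (4 * D) * (θ * L2) ≤ ε * n * (θ * L2) := by
      calc _ = ((univ.filter B2).card : ℝ) * (4 * D * θ * L2) := by ring
        _ ≤ ε * θ * L2 * n := hb2
        _ = _ := by ring
    have h2 := le_of_mul_le_mul_right h1 (by positivity)
    calc ((univ.filter B2).card : ℝ) * (4 * D * θ * L)
        = ((univ.filter B2).card : ℝ) * (4 * D) * (θ * L) := by ring
      _ ≤ ε * n * (θ * L) := mul_le_mul_of_nonneg_right h2 (by positivity)
      _ = _ := by ring
  have hfin : 4 * ε * θ * L * n ≤ (Z'.card : ℝ) * (4 * D * θ * L) := by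
    have := hmass.trans (hsum.trans hall)
    linarith
  have h4 : ε * n * (4 * (θ * L)) ≤ ((Z'.card : ℝ) * D) * (4 * (θ * L)) := by
    calc _ = 4 * ε * θ * L * n := by ring
      _ ≤ _ := hfin
      _ = _ := by ring
  have h5 := le_of_mul_le_mul_right h4 (by positivity)
  rw [div_mul_eq_mul_div, div_le_iff₀ hD]
  exact h5

end StepProof

open StepProof in
theorem step : StepStmt := by
  intro V ι J _ _ _ A U T W' fam lam s C D σ ρ κ θ k r a i F Z hs hC hD hσ hρ hκ hθ hk hlam
    hDat hZcard hmeet h2κ hTU hpairs hbad hTZ hsmall h8D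
  set n : ℝ := (Fintype.card V : ℝ) with hn
  have hn0 : 0 ≤ n := Nat.cast_nonneg _
  obtain ⟨c, hc⟩ := exists_colour W' (T ∩ Z)
  set L := lam (i c) with hL
  set L2 := lam (i (!c)) with hL2
  have hLpos : 0 < L := hlam _
  have hL2pos : 0 < L2 := hlam _
  set ε : ℝ := κ * σ * ρ / 128 with hε
  have hεpos : 0 < ε := by positivity
  set G := (F c).filter (fun e => (A e ∩ T).card = 1 ∧ ∀ x ∈ A e ∩ T, decide (x ∈ W') = c)
    with hG
  set G2 := (F (!c)).filter (fun e => A e ∩ T = ∅) with hG2
  have hGF : G ⊆ F c := Finset.filter_subset _ _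
  have hGhit : G ⊆ (fam (i c)).filter (fun e => (A e ∩ T).Nonempty) := by
    intro e he
    have he' := Finset.mem_filter.mp he
    refine Finset.mem_filter.mpr ⟨hDat.hF c he'.1, ?_⟩
    rw [← Finset.card_pos, he'.2.1]
    norm_num
  set Z' := (Z \ T).filter (fun v => ¬ ((deg A (fam (i c)) v : ℝ) ≤ D * lam (i c) ∧
          4 * D * θ * lam (i c) < (hitDeg A (fam (i c)) T v : ℝ)) ∧
        ¬ ((deg A (fam (i (!c))) v : ℝ) ≤ D * lam (i (!c)) ∧
          4 * D * θ * lam (i (!c)) < (hitDeg A (fam (i (!c))) T v : ℝ)) ∧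
        2 * ε * θ * L ≤ (deg A G v : ℝ)) with hZ'
  have hdisj : ∀ e, Disjoint (A e ∩ U) (A e ∩ T) := by
    intro e
    rw [Finset.disjoint_left]
    intro x hx hx'
    exact Finset.disjoint_left.mp hTU (Finset.mem_inter.mp hx').2 (Finset.mem_inter.mp hx).2
  have hunion : ∀ e, A e ∩ (U ∪ T) = (A e ∩ U) ∪ (A e ∩ T) := fun e =>
    Finset.inter_union_distrib_left _ _ _
  have hcardu : ∀ e, (A e ∩ (U ∪ T)).card = (A e ∩ U).card + (A e ∩ T).card := fun e => by
    rw [hunion, Finset.card_union_of_disjoint (hdisj e)]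
  have hWU : ∀ x ∈ U, decide (x ∈ W' ∩ U) = decide (x ∈ W') := by
    intro x hx
    simp [hx]
  have hne : ∀ c' : Bool, c' ≠ c → c' = !c := by
    intro c' h
    cases c' <;> cases c <;> simp_all
  have hZ'Z : ∀ v ∈ Z', v ∈ Z ∧ v ∉ T := fun v hv =>
    Finset.mem_sdiff.mp (Finset.mem_filter.mp hv).1
  refine ⟨fun c' => if c' = c then a c + 1 else a c',
    fun c' => if c' = c then Sum.inr (i c) else Sum.inl (i c'),
    fun c' => if c' = c then G else (F c').filter (fun e => A e ∩ T = ∅), Z', ?_, ?_⟩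
  · constructor
    · -- hr
      have := hDat.hr
      cases c
      · simp only [Bool.true_eq_false, if_false, if_true]
        omega
      · simp only [Bool.false_eq_true, if_false, if_true]
        omega
    · -- hF
      intro c'
      by_cases h : c' = c
      · simp only [h, if_true]
        exact hGhit
      · simp only [h, if_false]
        intro e he
        exact hDat.hF c' (Finset.mem_filter.mp he).1
    · -- hcard
      intro c' e he
      by_cases h : c' = c
      · simp only [h, if_true] at he ⊢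
        have he' := Finset.mem_filter.mp he
        rw [hcardu, hDat.hcard c e he'.1, he'.2.1]
      · simp only [h, if_false] at he ⊢
        have he' := Finset.mem_filter.mp he
        rw [hcardu, hDat.hcard c' e he'.1, he'.2, Finset.card_empty, Nat.add_zero]
    · -- hcol
      intro c' e he x hx
      rw [hunion, Finset.mem_union] at hx
      by_cases h : c' = c
      · simp only [h, if_true] at he
        subst h
        have he' := Finset.mem_filter.mp he
        rcases hx with hx | hx
        · rw [← hWU x (Finset.mem_inter.mp hx).2]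
          exact hDat.hcol c' e he'.1 x hx
        · exact he'.2.2 x hx
      · simp only [h, if_false] at he
        have he' := Finset.mem_filter.mp he
        rcases hx with hx | hx
        · rw [← hWU x (Finset.mem_inter.mp hx).2]
          exact hDat.hcol c' e he'.1 x hx
        · rw [he'.2] at hx
          exact absurd hx (Finset.notMem_empty x)
    · -- hZ
      rw [Finset.disjoint_left]
      intro v hv hvU
      obtain ⟨h1, h2⟩ := hZ'Z v hv
      rcases Finset.mem_union.mp hvU with h | h
      · exact Finset.disjoint_left.mp hDat.hZ h1 h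
      · exact h2 h
    · -- hlow
      intro c' v hv
      have hvf := (Finset.mem_filter.mp hv).2
      obtain ⟨hvZ, hvT⟩ := hZ'Z v hv
      by_cases h : c' = c
      · simp only [h, if_true]
        show min (κ * σ * ρ / 64) (ρ / 2) * (θ * L) ≤ _
        refine le_trans (mul_le_mul_of_nonneg_right (min_le_left _ _) (by positivity)) ?_
        refine le_trans (le_of_eq ?_) hvf.2.2
        rw [hε]
        ring
      · simp only [h, if_false]
        have hc' := hne c' h
        subst hc'
        show min (κ * σ * ρ / 64) (ρ / 2) * L2 ≤ _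
        refine le_trans (mul_le_mul_of_nonneg_right (min_le_right _ _) hL2pos.le) ?_
        have h1 := hDat.hlow (!c) v hvZ
        have h2 : (deg A (F (!c)) v : ℝ) ≤
            (deg A ((F (!c)).filter (fun e => A e ∩ T = ∅)) v : ℝ) +
              (hitDeg A (fam (i (!c))) T v : ℝ) := by
          exact_mod_cast deg_le_add A (hDat.hF (!c)) T hvT
        have h3 : (hitDeg A (fam (i (!c))) T v : ℝ) ≤ 4 * D * θ * L2 := by
          by_contra hcon
          push Not at hcon
          exact hvf.2.1 ⟨hDat.hup (!c) v hvZ, hcon⟩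
        have h4 : 8 * D * θ * L2 ≤ ρ * L2 := mul_le_mul_of_nonneg_right h8D hL2pos.le
        have h1' : ρ * L2 ≤ (deg A (F (!c)) v : ℝ) := h1
        linarith
    · -- hup
      intro c' v hv
      have hvf := (Finset.mem_filter.mp hv).2
      obtain ⟨hvZ, hvT⟩ := hZ'Z v hv
      by_cases h : c' = c
      · simp only [h, if_true]
        show (deg A ((fam (i c)).filter (fun e => (A e ∩ T).Nonempty)) v : ℝ) ≤ 4 * D * (θ * L)
        rw [deg_hit A _ T hvT]
        by_contra hcon
        push Not at hcon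
        exact hvf.1 ⟨hDat.hup c v hvZ, by
          have : 4 * D * θ * lam (i c) = 4 * D * (θ * L) := by ring
          rw [this]; exact hcon⟩
      · simp only [h, if_false]
        show (deg A (fam (i c')) v : ℝ) ≤ 4 * D * lam (i c')
        have h1 := hDat.hup c' v hvZ
        have h2 := hlam (i c')
        have h3 : 0 < D * lam (i c') := mul_pos hD h2
        linarith
  · -- the number of good points
    have hsize := size_count A (F c) (fam (i c)) (hDat.hF c) T Z W' c (ρ * L)
      (fun v hv => hDat.hlow c v hv)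
    set Tc : ℝ := (((T ∩ Z).filter (fun u => decide (u ∈ W') = c)).card : ℝ) with hTc
    set Sp : ℝ := ∑ e ∈ fam (i c), ((A e ∩ T).card : ℝ) * (((A e ∩ T).card : ℝ) - 1) with hSp
    have hp : Sp * s ≤ 40 * k * C * θ ^ 2 * L * n := hpairs (i c)
    have hTcs : θ * σ * n ≤ 4 * (Tc * s) := by
      have e1 : θ * (σ * n) ≤ θ * (Z.card : ℝ) := mul_le_mul_of_nonneg_left hZcard hθ.le
      have e2 : 2 * s * ((T ∩ Z).card : ℝ) ≤ 2 * s * (2 * Tc) :=
        mul_le_mul_of_nonneg_left hc (by positivity)
      nlinarith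
    have hsize' : Tc * (ρ * L) ≤ (G.card : ℝ) + Sp := by
      refine hsize.trans (add_le_add (le_of_eq ?_) le_rfl)
      rw [hG]
      congr!
    have hGs : θ * σ * ρ * L * n ≤ 8 * ((G.card : ℝ) * s) := by
      have e1 : Tc * (ρ * L) * s ≤ ((G.card : ℝ) + Sp) * s :=
        mul_le_mul_of_nonneg_right hsize' hs.le
      have e2 : θ * σ * n * (ρ * L) ≤ 4 * (Tc * s) * (ρ * L) :=
        mul_le_mul_of_nonneg_right hTcs (by positivity)
      have e3 : 320 * k * C * θ * (θ * L * n) ≤ σ * ρ * (θ * L * n) :=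
        mul_le_mul_of_nonneg_right hsmall (by positivity)
      nlinarith
    have hmassG : 8 * ε * θ * L * n ≤ ∑ v ∈ Z \ T, (deg A G v : ℝ) := by
      rw [sum_deg]
      have e1 : ∀ e ∈ G, κ * s / 2 ≤ ((A e ∩ (Z \ T)).card : ℝ) := by
        intro e he
        have he' := Finset.mem_filter.mp he
        have h1 := hmeet c e he'.1
        have h2 : (A e ∩ Z).card ≤ (A e ∩ (Z \ T)).card + (A e ∩ T).card := by
          refine le_trans (Finset.card_le_card ?_) (Finset.card_union_le _ _)
          intro x hx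
          rw [Finset.mem_inter] at hx
          rw [Finset.mem_union, Finset.mem_inter, Finset.mem_inter, Finset.mem_sdiff]
          by_cases hxT : x ∈ T
          · exact Or.inr ⟨hx.1, hxT⟩
          · exact Or.inl ⟨hx.1, hx.2, hxT⟩
        rw [he'.2.1] at h2
        have h3 : ((A e ∩ Z).card : ℝ) ≤ ((A e ∩ (Z \ T)).card : ℝ) + 1 := by exact_mod_cast h2
        linarith
      have e2 : (G.card : ℝ) * (κ * s / 2) ≤ ∑ e ∈ G, ((A e ∩ (Z \ T)).card : ℝ) := by
        rw [← nsmul_eq_mul]
        exact Finset.card_nsmul_le_sum _ _ _ e1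
      refine le_trans ?_ e2
      have e3 : θ * σ * ρ * L * n * κ ≤ 8 * ((G.card : ℝ) * s) * κ :=
        mul_le_mul_of_nonneg_right hGs hκ.le
      rw [hε]
      linarith
    have hfinal := good_count (Z \ T) Z' (fun v => (hitDeg A (fam (i c)) T v : ℝ))
      (fun v => (deg A G v : ℝ))
      (fun v => (deg A (fam (i c)) v : ℝ) ≤ D * lam (i c) ∧
          4 * D * θ * lam (i c) < (hitDeg A (fam (i c)) T v : ℝ))
      (fun v => (deg A (fam (i (!c))) v : ℝ) ≤ D * lam (i (!c)) ∧
          4 * D * θ * lam (i (!c)) < (hitDeg A (fam (i (!c))) T v : ℝ))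
      ε θ L D L2 (fun v => (hitDeg A (fam (i (!c))) T v : ℝ)) n hn hθ hLpos hL2pos hD hεpos
      (fun v => Nat.cast_nonneg _) ?_ (hbad (i c)) ?_ (hbad (i (!c))) ?_ ?_ hmassG
    · refine le_trans (le_of_eq ?_) hfinal
      rw [hε]
      field_simp
    · intro v hv
      have hvT : v ∉ T := (Finset.mem_sdiff.mp hv).2
      rw [← deg_hit A (fam (i c)) T hvT]
      exact_mod_cast deg_mono A hGhit v
    · intro v hv hb
      by_contra hcon
      push Not at hcon
      exact hb ⟨hDat.hup c v (Finset.mem_sdiff.mp hv).1, hcon⟩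
    · intro v hv
      exact hv.2.le
    · intro v hv hb1 hb2 hg
      exact Finset.mem_filter.mpr ⟨hv, hb1, hb2, hg⟩

end Pool.Agent.Lib.MP_9b5ec2_co
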