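import Pool.Agent.Lib.MP_9b5ec2_co.Ex

/-! The lower tail of `|T ∩ Y|`. -/

set_option autoImplicit false

namespace Pool.Agent.Lib.MP_9b5ec2_co

open Finset

theorem tail : TailStmt := by
  intro V _ X Y p h0 h1 hY
  have hlog : Real.log 2 ≤ 3 / 4 := by
    have := Real.log_two_lt_d9
    linarith
  have hlog0 : 0 < Real.log 2 := Real.log_pos one_lt_two
  have hhalf : ∀ k : ℕ, ((1 : ℝ) / 2) ^ k = Real.exp (-(Real.log 2 * (k : ℝ))) := by
    intro k
    rw [show -(Real.log 2 * (k : ℝ)) = (k : ℝ) * (-Real.log 2) by ring, Real.exp_nat_mul,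
      Real.exp_neg, Real.exp_log two_pos]
    norm_num
  have step1 : Ex p X (fun T => if 2 * ((T ∩ Y).card : ℝ) < p * (Y.card : ℝ) then 1 else 0) ≤
      Ex p X (fun T => Real.exp (Real.log 2 * (p * (Y.card : ℝ) / 2)) *
        ((1 : ℝ) / 2) ^ (T ∩ Y).card) := by
    refine Ex_mono h0 h1 X _ _ fun T _ => ?_
    split_ifs with h
    · rw [hhalf, ← Real.exp_add]
      refine Real.one_le_exp ?_
      have h2 : 0 ≤ p * (Y.card : ℝ) / 2 - ((T ∩ Y).card : ℝ) := by linarith
      have := mul_nonneg hlog0.le h2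
      linarith
    · positivity
  refine step1.trans ?_
  rw [Ex_mul_left, Ex_pow p (1 / 2) X Y hY]
  have h2 : 1 - p + p * (1 / 2) ≤ Real.exp (-(p / 2)) := by
    have := Real.add_one_le_exp (-(p / 2))
    linarith
  have h3 : (1 - p + p * (1 / 2)) ^ Y.card ≤ Real.exp (-(p * (Y.card : ℝ) / 2)) := by
    calc (1 - p + p * (1 / 2)) ^ Y.card ≤ (Real.exp (-(p / 2))) ^ Y.card :=
          pow_le_pow_left₀ (by linarith) h2 _
      _ = Real.exp (-(p * (Y.card : ℝ) / 2)) := by
          rw [← Real.exp_nat_mul]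
          congr 1
          ring
  calc Real.exp (Real.log 2 * (p * (Y.card : ℝ) / 2)) * (1 - p + p * (1 / 2)) ^ Y.card
      ≤ Real.exp (Real.log 2 * (p * (Y.card : ℝ) / 2)) * Real.exp (-(p * (Y.card : ℝ) / 2)) :=
        mul_le_mul_of_nonneg_left h3 (Real.exp_pos _).le
    _ = Real.exp (Real.log 2 * (p * (Y.card : ℝ) / 2) - p * (Y.card : ℝ) / 2) := by
        rw [← Real.exp_add]
        congr 1
    _ ≤ Real.exp (-(p * (Y.card : ℝ)) / 8) := by
        refine Real.exp_le_exp.2 ?_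
        have hpy : 0 ≤ p * (Y.card : ℝ) := mul_nonneg h0 (Nat.cast_nonneg _)
        have := mul_le_mul_of_nonneg_right hlog (show 0 ≤ p * (Y.card : ℝ) / 2 by linarith)
        linarith

end Pool.Agent.Lib.MP_9b5ec2_co
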