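import Mathlib
import Pool.Agent.Lib.MP_9b5ec2_co.Defs
import Pool.Agent.Lib.MP_9b5ec2_co.Hyper

/-! From hereditary families to `TwoCol`. -/

set_option autoImplicit false

namespace Pool.Agent.Lib.MP_9b5ec2_co

open Finset

universe u

theorem linearNets_of_weight (h : WeightStmt) (m : ℕ) :
    ∃ C : ℝ, 0 < C ∧ ∀ (α : Type u) [DecidableEq α] (F : Set (FinHypergraph α)),
      Hereditary F → PolyLE F 2 m → ∀ H ∈ F, ∀ w : α → ℝ, (∀ v, 0 ≤ w v) → ∀ t : ℝ, 0 < t →
        ∃ T : Finset α, T ⊆ H.verts ∧ (T.card : ℝ) * t ≤ C * ∑ v ∈ H.verts, w v ∧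
          ∀ e ∈ H.edges, t ≤ ∑ v ∈ e, w v → (e ∩ T).Nonempty := by
  obtain ⟨C, hC, hmain⟩ := h m
  refine ⟨C, hC, ?_⟩
  intro α _ F hF hP H hH w hw t ht
  classical
  -- the case of total weight zero
  by_cases hS : 0 < ∑ v ∈ H.verts, w v
  swap
  · refine ⟨∅, by simp, ?_, ?_⟩
    · simp only [Finset.card_empty, Nat.cast_zero, zero_mul]
      exact mul_nonneg hC.le (Finset.sum_nonneg fun v _ => hw v)
    · intro e he hte
      exfalso
      have : ∑ v ∈ e, w v ≤ ∑ v ∈ H.verts, w v :=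
        Finset.sum_le_sum_of_subset_of_nonneg (H.edges_subset e he) fun v _ _ => hw v
      linarith
  -- move to the type `Fin n`
  let eq : H.verts ≃ Fin H.verts.card := H.verts.equivFin
  let pt : Fin H.verts.card → α := fun i => (eq.symm i : α)
  have pt_inj : Function.Injective pt := fun i j hij => by
    have : eq.symm i = eq.symm j := Subtype.ext hij
    exact eq.symm.injective this
  have pt_mem : ∀ i, pt i ∈ H.verts := fun i => (eq.symm i).2
  have pt_surj : ∀ v ∈ H.verts, ∃ i, pt i = v := fun v hv => ⟨eq ⟨v, hv⟩, by simp [pt]⟩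
  let ι := Fin H.edges.card
  let ed : ι → Finset α := fun i => (H.edges.equivFin.symm i : Finset α)
  have ed_mem : ∀ i, ed i ∈ H.edges := fun i => (H.edges.equivFin.symm i).2
  have ed_surj : ∀ e ∈ H.edges, ∃ i, ed i = e := fun e he =>
    ⟨H.edges.equivFin ⟨e, he⟩, by simp [ed]⟩
  let A : ι → Finset (Fin H.verts.card) := fun i => univ.filter (fun x => pt x ∈ ed i)
  have hA : ∀ i, (A i).image pt = ed i := by
    intro i
    ext v
    simp only [A, Finset.mem_image, Finset.mem_filter, Finset.mem_univ, true_and]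
    constructor
    · rintro ⟨x, hx, rfl⟩
      exact hx
    · intro hv
      obtain ⟨x, rfl⟩ := pt_surj v (H.edges_subset _ (ed_mem i) hv)
      exact ⟨x, hv, rfl⟩
  have hTwo : TwoCol m A := by
    intro S
    have hSsub : S.image pt ⊆ H.verts := by
      intro v hv
      obtain ⟨x, _, rfl⟩ := Finset.mem_image.1 hv
      exact pt_mem x
    obtain ⟨c, hc⟩ := hP _ (hF H hH (S.image pt) hSsub)
    refine ⟨univ.filter (fun x => c (pt x) = 0), ?_⟩
    intro i hi
    have himg : (A i ∩ S).image pt = ed i ∩ S.image pt := by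
      rw [Finset.image_inter _ _ pt_inj, hA]
    have hmem : ed i ∩ S.image pt ∈ (H.induce (S.image pt) hSsub).edges :=
      Finset.mem_image.2 ⟨ed i, ed_mem i, rfl⟩
    have hcard : m ≤ (ed i ∩ S.image pt).card := by
      rw [← himg, Finset.card_image_of_injective _ pt_inj]
      exact hi
    have hpoly := hc _ hmem hcard
    constructor
    · obtain ⟨v, hv, hcv⟩ := hpoly 0
      rw [← himg] at hv
      obtain ⟨x, hx, rfl⟩ := Finset.mem_image.1 hv
      exact ⟨x, Finset.mem_inter.2 ⟨hx, by simp [hcv]⟩⟩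
    · obtain ⟨v, hv, hcv⟩ := hpoly 1
      rw [← himg] at hv
      obtain ⟨x, hx, rfl⟩ := Finset.mem_image.1 hv
      exact ⟨x, Finset.mem_sdiff.2 ⟨hx, by simp [hcv]⟩⟩
  have hsum : ∀ B : Finset (Fin H.verts.card), ∑ x ∈ B, w (pt x) = ∑ v ∈ B.image pt, w v := by
    intro B
    rw [Finset.sum_image fun x _ y _ hxy => pt_inj hxy]
  have huniv : (univ : Finset (Fin H.verts.card)).image pt = H.verts := by
    ext v
    simp only [Finset.mem_image, Finset.mem_univ, true_and]
    exact ⟨fun ⟨x, hx⟩ => hx ▸ pt_mem x, fun hv => pt_surj v hv⟩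
  obtain ⟨T, hT1, hT2⟩ := hmain (Fin H.verts.card) ι A hTwo (fun x => w (pt x))
    (fun x => hw _) (by rw [hsum, huniv]; exact hS) t ht
  refine ⟨T.image pt, ?_, ?_, ?_⟩
  · intro v hv
    obtain ⟨x, _, rfl⟩ := Finset.mem_image.1 hv
    exact pt_mem x
  · rw [Finset.card_image_of_injective _ pt_inj]
    rw [hsum, huniv] at hT1
    exact hT1
  · intro e he hte
    obtain ⟨i, rfl⟩ := ed_surj e he
    have := hT2 i (by rw [hsum, hA]; exact hte)
    obtain ⟨x, hx⟩ := this
    have hx' := Finset.mem_inter.1 hx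
    refine ⟨pt x, Finset.mem_inter.2 ⟨?_, Finset.mem_image_of_mem _ hx'.2⟩⟩
    rw [← hA]
    exact Finset.mem_image_of_mem _ hx'.1

end Pool.Agent.Lib.MP_9b5ec2_co
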