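import Mathlib
import Pool.Agent.Lib.MP_9b5ec2_co.Defs

/-! The VC-dimension bound. -/

set_option autoImplicit false

namespace Pool.Agent.Lib.MP_9b5ec2_co

open Finset

theorem vc : VCStmt := by
  intro m V ι _ A hm hA S hS hsh
  obtain ⟨R, hR⟩ := hA S
  have hsplit : (S ∩ R).card + (S \ R).card = S.card := Finset.card_inter_add_card_sdiff S R
  have hcase : m ≤ (S ∩ R).card ∨ m ≤ (S \ R).card := by omega
  rcases hcase with h | h
  · obtain ⟨e, he⟩ := hsh (S ∩ R) Finset.inter_subset_left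
    obtain ⟨-, h2⟩ := hR e (by rw [he]; exact h)
    rw [he] at h2
    obtain ⟨x, hx⟩ := h2
    rw [Finset.mem_sdiff, Finset.mem_inter] at hx
    exact hx.2 hx.1.2
  · obtain ⟨e, he⟩ := hsh (S \ R) Finset.sdiff_subset
    obtain ⟨h1, -⟩ := hR e (by rw [he]; exact h)
    rw [he] at h1
    obtain ⟨x, hx⟩ := h1
    rw [Finset.mem_inter, Finset.mem_sdiff] at hx
    exact hx.1.2 hx.2

end Pool.Agent.Lib.MP_9b5ec2_co
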