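import Mathlib
import Pool.Agent.Lib.MP_9b5ec2_co.SecondMoment
import Pool.Agent.Lib.MP_9b5ec2_co.Tail
import Pool.Agent.Lib.MP_9b5ec2_co.Select
import Pool.Agent.Lib.MP_9b5ec2_co.Clean
import Pool.Agent.Lib.MP_9b5ec2_co.Step
import Pool.Agent.Lib.MP_9b5ec2_co.NoPos
import Pool.Agent.Lib.MP_9b5ec2_co.LemmaB
import Pool.Agent.Lib.MP_9b5ec2_co.Greedy
import Pool.Agent.Lib.MP_9b5ec2_co.VC
import Pool.Agent.Lib.MP_9b5ec2_co.Net
import Pool.Agent.Lib.MP_9b5ec2_co.Count
import Pool.Agent.Lib.MP_9b5ec2_co.Weight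
import Pool.Agent.Lib.MP_9b5ec2_co.Transfer

/-! Assembly: the weighted form holds. -/

set_option autoImplicit false

namespace Pool.Agent.Lib.MP_9b5ec2_co

theorem lemmaB_holds : LemmaBStmt := lemmaB (noPos clean (select secondMoment tail) step)

theorem count_holds : CountStmt := count (greedy lemmaB_holds) vc net

theorem weight_holds : WeightStmt := weight count_holds

end Pool.Agent.Lib.MP_9b5ec2_co
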