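import Pool.Agent.Lib.MP_9b5ec2_co.Defs2
import Pool.Agent.Lib.MP_9b5ec2_co.Ex

/-!
# Expectation of `rtot` (MP_9b5ec2_co)
-/

set_option autoImplicit false

namespace Pool.Agent.Lib.MP_9b5ec2_co

open Finset

namespace RtotExaux

variable {V ι : Type} [Fintype V] [DecidableEq V] [Fintype ι] [DecidableEq ι]

/-- Sum of the codegrees over a set. -/
theorem sum_codeg (A : ι → Finset V) (U : Finset V) (v : V) :
    ∑ u ∈ U, (codeg A u v : ℝ) =
      ∑ e ∈ univ.filter (fun e => v ∈ A e), ((A e ∩ U).card : ℝ) := by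
  have h1 : ∀ u, (codeg A u v : ℝ) =
      ∑ e ∈ univ.filter (fun e => v ∈ A e), if u ∈ A e then (1 : ℝ) else 0 := by
    intro u
    rw [codeg, Finset.sum_ite, Finset.sum_const_zero, add_zero, Finset.sum_const, nsmul_eq_mul,
      mul_one, Finset.filter_filter]
    congr 2
    ext e
    simp only [Finset.mem_filter, Finset.mem_univ, true_and]
    tauto
  rw [Finset.sum_congr rfl fun u _ => h1 u, Finset.sum_comm]
  refine Finset.sum_congr rfl fun e _ => ?_
  rw [Finset.sum_ite, Finset.sum_const_zero, add_zero, Finset.sum_const, nsmul_eq_mul, mul_one]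
  congr 2
  ext u
  simp only [Finset.mem_filter, Finset.mem_inter]
  tauto

theorem sq_codeg (A : ι → Finset V) (U : Finset V) (v : V) :
    (∑ u ∈ U, (codeg A u v : ℝ)) ^ 2 ≤
      (dg A v : ℝ) * ∑ e ∈ univ.filter (fun e => v ∈ A e), ((A e ∩ U).card : ℝ) ^ 2 := by
  rw [sum_codeg]
  exact sq_sum_le_card_mul_sum_sq

/-- The blocks are disjoint. -/
theorem sum_block_le (b : V → ℕ) (S : Finset ℕ) (f : V → ℝ) (X : Finset V)
    (hf : ∀ u, 0 ≤ f u) (hX : ∀ u, b u ∈ S → u ∈ X) :
    ∑ i ∈ S, ∑ u ∈ univ.filter (fun u => b u = i), f u ≤ ∑ u ∈ X, f u := by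
  have h1 : ∑ i ∈ S, ∑ u ∈ univ.filter (fun u => b u = i), f u =
      ∑ u, if b u ∈ S then f u else 0 := by
    have h2 : ∀ i ∈ S, ∑ u ∈ univ.filter (fun u => b u = i), f u =
        ∑ u, if b u = i then f u else 0 := fun i _ => Finset.sum_filter _ _
    rw [Finset.sum_congr rfl h2, Finset.sum_comm]
    refine Finset.sum_congr rfl fun u _ => ?_
    rw [Finset.sum_ite_eq]
  rw [h1, ← Finset.sum_filter]
  refine Finset.sum_le_sum_of_subset_of_nonneg ?_ fun u _ _ => hf u
  intro u hu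
  exact hX u (Finset.mem_filter.mp hu).2

theorem card_block_le (b : V → ℕ) (S : Finset ℕ) (Y : Finset V) :
    ∑ i ∈ S, ((Y ∩ univ.filter (fun u => b u = i)).card : ℝ) ≤ (Y.card : ℝ) := by
  have h1 : ∀ i ∈ S, ((Y ∩ univ.filter (fun u => b u = i)).card : ℝ) =
      ∑ u ∈ univ.filter (fun u => b u = i), if u ∈ Y then (1 : ℝ) else 0 := by
    intro i _
    rw [Finset.sum_ite, Finset.sum_const_zero, add_zero, Finset.sum_const, nsmul_eq_mul, mul_one]
    congr 2
    ext u
    simp only [Finset.mem_filter, Finset.mem_inter, Finset.mem_univ, true_and]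
    tauto
  rw [Finset.sum_congr rfl h1]
  refine (sum_block_le b S (fun u => if u ∈ Y then (1 : ℝ) else 0) univ ?_ ?_).trans ?_
  · intro u
    split_ifs <;> norm_num
  · intro u _
    exact Finset.mem_univ u
  · rw [Finset.sum_ite, Finset.sum_const_zero, add_zero, Finset.sum_const, nsmul_eq_mul, mul_one]
    apply le_of_eq
    congr 2
    ext u
    simp

/-- Sum of squares over the blocks for one edge. -/
theorem sum_sq_le (b : V → ℕ) (S : Finset ℕ) (Y : Finset V) (x : ℝ)
    (h : ∀ i, ((Y ∩ univ.filter (fun u => b u = i)).card : ℝ) ≤ x) :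
    ∑ i ∈ S, ((Y ∩ univ.filter (fun u => b u = i)).card : ℝ) ^ 2 ≤ x * (Y.card : ℝ) := by
  have hx : 0 ≤ x := (Nat.cast_nonneg _).trans (h 0)
  calc ∑ i ∈ S, ((Y ∩ univ.filter (fun u => b u = i)).card : ℝ) ^ 2
      ≤ ∑ i ∈ S, x * ((Y ∩ univ.filter (fun u => b u = i)).card : ℝ) := by
        refine Finset.sum_le_sum fun i _ => ?_
        rw [sq]
        exact mul_le_mul_of_nonneg_right (h i) (Nat.cast_nonneg _)
    _ = x * ∑ i ∈ S, ((Y ∩ univ.filter (fun u => b u = i)).card : ℝ) := by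
        rw [Finset.mul_sum]
    _ ≤ x * (Y.card : ℝ) := mul_le_mul_of_nonneg_left (card_block_le b S Y) hx

/-- Exchange of the sums over points and edges. -/
theorem sum_edges (A : ι → Finset V) (g : ι → ℝ) :
    ∑ v, ∑ e ∈ univ.filter (fun e => v ∈ A e), g e = ∑ e, ((A e).card : ℝ) * g e := by
  have h1 : ∀ v, ∑ e ∈ univ.filter (fun e => v ∈ A e), g e =
      ∑ e, if v ∈ A e then g e else 0 := fun v => Finset.sum_filter _ _
  rw [Finset.sum_congr rfl fun v _ => h1 v, Finset.sum_comm]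
  refine Finset.sum_congr rfl fun e _ => ?_
  rw [Finset.sum_ite_mem, Finset.univ_inter, Finset.sum_const, nsmul_eq_mul]

/-- The first part. -/
theorem first (A : ι → Finset V) (K I : ℕ) (s η ε : ℝ) (hs : 1 ≤ s) (hη : 0 ≤ η) (hε : 0 ≤ ε)
    (hA : ∀ e, ((A e).card : ℝ) ≤ 2 * s) (hS : Spread A K s η ε) :
    ∑ i ∈ range (I + 1), ∑ v, ∑ e ∈ univ.filter (fun e => v ∈ A e),
      ((A e ∩ univ.filter (fun u => blk A K u = i)).card : ℝ) ^ 2 ≤
      4 * (η + 2 * ε) * s ^ 3 * (Fintype.card ι : ℝ) := by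
  classical
  obtain ⟨Bad, hBad, hgood⟩ := hS
  have h1 : ∑ i ∈ range (I + 1), ∑ v, ∑ e ∈ univ.filter (fun e => v ∈ A e),
      ((A e ∩ univ.filter (fun u => blk A K u = i)).card : ℝ) ^ 2 =
      ∑ e, ((A e).card : ℝ) * ∑ i ∈ range (I + 1),
        ((A e ∩ univ.filter (fun u => blk A K u = i)).card : ℝ) ^ 2 := by
    rw [Finset.sum_congr rfl fun i _ => sum_edges A
      (fun e => ((A e ∩ univ.filter (fun u => blk A K u = i)).card : ℝ) ^ 2), Finset.sum_comm]
    exact Finset.sum_congr rfl fun e _ => by rw [Finset.mul_sum]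
  rw [h1]
  have hη' : 0 ≤ η * s := mul_nonneg hη (by linarith)
  have h2 : ∀ e, ((A e).card : ℝ) * ∑ i ∈ range (I + 1),
        ((A e ∩ univ.filter (fun u => blk A K u = i)).card : ℝ) ^ 2 ≤
      4 * η * s ^ 3 + if e ∈ Bad then 8 * s ^ 3 else 0 := by
    intro e
    have hc : (0 : ℝ) ≤ ((A e).card : ℝ) := Nat.cast_nonneg _
    have hcc : ((A e).card : ℝ) * ((A e).card : ℝ) ≤ (2 * s) * (2 * s) :=
      mul_le_mul (hA e) (hA e) hc (by linarith)
    split_ifs with he
    · have h3 := sum_sq_le (blk A K) (range (I + 1)) (A e) (2 * s) (fun i => by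
        have : ((A e ∩ univ.filter (fun u => blk A K u = i)).card : ℝ) ≤ ((A e).card : ℝ) := by
          exact_mod_cast Finset.card_le_card Finset.inter_subset_left
        exact this.trans (hA e))
      have h4 := mul_le_mul_of_nonneg_left h3 hc
      have h5 : ((A e).card : ℝ) * (2 * s * ((A e).card : ℝ)) ≤ 8 * s ^ 3 := by
        nlinarith
      have h6 : 0 ≤ 4 * η * s ^ 3 := by positivity
      linarith
    · have h3 := sum_sq_le (blk A K) (range (I + 1)) (A e) (η * s) (fun i => by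
        have h7 := hgood e he i
        have : ((A e ∩ univ.filter (fun u => blk A K u = i)).card : ℝ) ≤
            (((A e).filter (fun v => blk A K v = i ∨ blk A K v = i + 1)).card : ℝ) := by
          have : (A e ∩ univ.filter (fun u => blk A K u = i)) ⊆
              (A e).filter (fun v => blk A K v = i ∨ blk A K v = i + 1) := by
            intro u hu
            simp only [Finset.mem_inter, Finset.mem_filter, Finset.mem_univ, true_and] at hu ⊢
            exact ⟨hu.1, Or.inl hu.2⟩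
          exact_mod_cast Finset.card_le_card this
        exact this.trans h7)
      have h4 := mul_le_mul_of_nonneg_left h3 hc
      have h5 : ((A e).card : ℝ) * (η * s * ((A e).card : ℝ)) ≤ 4 * η * s ^ 3 := by
        have e1 : ((A e).card : ℝ) * (η * s * ((A e).card : ℝ)) =
            (η * s) * (((A e).card : ℝ) * ((A e).card : ℝ)) := by ring
        have e2 : 4 * η * s ^ 3 = (η * s) * ((2 * s) * (2 * s)) := by ring
        rw [e1, e2]
        exact mul_le_mul_of_nonneg_left hcc hη'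
      linarith
  refine (Finset.sum_le_sum fun e _ => h2 e).trans ?_
  rw [Finset.sum_add_distrib, Finset.sum_const, nsmul_eq_mul, Finset.sum_ite_mem,
    Finset.univ_inter, Finset.sum_const, nsmul_eq_mul, Finset.card_univ]
  have h3 := mul_le_mul_of_nonneg_right hBad (show (0 : ℝ) ≤ 8 * s ^ 3 by positivity)
  nlinarith

end RtotExaux

open RtotExaux in
theorem rtotEx (h1 : CodegStmt) (h2 : WMomStmt) : RtotExStmt := by
  intro V ι _ _ _ _ A K I s θ γ η ε Λ hs hθ hθ1 hγ hη hε hΛ hA hAA hd hN hS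
  have hs0 : 0 < s := by linarith
  set p : ℝ := θ / s with hp
  have hp0 : 0 ≤ p := by positivity
  have hp1 : p ≤ 1 := by
    rw [hp, div_le_one hs0]
    linarith
  have hdpos : ∀ v, 0 < (dg A v : ℝ) := fun v => by linarith [hd v]
  -- abbreviations
  set m : ℕ → V → ℝ := fun i v => ∑ u ∈ univ.filter (fun u => blk A K u = i), (codeg A u v : ℝ)
    with hm
  set q : ℕ → V → ℝ := fun i v =>
    ∑ u ∈ univ.filter (fun u => blk A K u = i), (codeg A u v : ℝ) ^ 2 with hq
  have hq0 : ∀ i v, 0 ≤ q i v := fun i v => Finset.sum_nonneg fun u _ => by positivity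
  -- the expectation
  have e1 : Ex p univ (fun T => rtot A K I p T) =
      ∑ i ∈ range (I + 1), ∑ v ∈ univ.filter (fun v => blk A K v + 2 ≤ i),
        Ex p univ (fun T => (∑ u ∈ univ.filter (fun u => blk A K u = i) ∩ T, (codeg A u v : ℝ) +
          p * ∑ u ∈ univ.filter (fun u => blk A K u = i), (codeg A u v : ℝ)) ^ 2) *
            (dg A v : ℝ)⁻¹ := by
    unfold rtot
    rw [Ex_sum]
    refine Finset.sum_congr rfl fun i _ => ?_
    rw [Ex_sum]
    refine Finset.sum_congr rfl fun v _ => ?_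
    rw [← Ex_mul_right]
    exact Ex_congr _ _ _ _ fun T _ => by rw [div_eq_mul_inv]
  rw [e1]
  have e2 : ∀ i v, Ex p univ (fun T =>
      (∑ u ∈ univ.filter (fun u => blk A K u = i) ∩ T, (codeg A u v : ℝ) +
          p * ∑ u ∈ univ.filter (fun u => blk A K u = i), (codeg A u v : ℝ)) ^ 2) *
            (dg A v : ℝ)⁻¹ ≤
      4 * p ^ 2 * (∑ e ∈ univ.filter (fun e => v ∈ A e),
        ((A e ∩ univ.filter (fun u => blk A K u = i)).card : ℝ) ^ 2) +
        p * q i v * (dg A v : ℝ)⁻¹ := by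
    intro i v
    have h3 := (h2 V (univ.filter (fun u => blk A K u = i)) (fun u => (codeg A u v : ℝ)) p hp0 hp1
      (fun u => Nat.cast_nonneg _)).2
    have h4 := mul_le_mul_of_nonneg_right h3 (inv_nonneg.mpr (hdpos v).le)
    refine h4.trans ?_
    rw [add_mul]
    apply add_le_add _ (le_of_eq rfl)
    have h5 := sq_codeg A (univ.filter (fun u => blk A K u = i)) v
    set R := ∑ e ∈ univ.filter (fun e => v ∈ A e),
        ((A e ∩ univ.filter (fun u => blk A K u = i)).card : ℝ) ^ 2 with hR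
    have h6 : 4 * (p * ∑ u ∈ univ.filter (fun u => blk A K u = i), (codeg A u v : ℝ)) ^ 2 *
        (dg A v : ℝ)⁻¹ = 4 * p ^ 2 *
          ((∑ u ∈ univ.filter (fun u => blk A K u = i), (codeg A u v : ℝ)) ^ 2 *
            (dg A v : ℝ)⁻¹) := by ring
    rw [h6]
    apply mul_le_mul_of_nonneg_left _ (by positivity)
    rw [← div_eq_mul_inv, div_le_iff₀ (hdpos v), mul_comm]
    exact h5
  have e3 : ∑ i ∈ range (I + 1), ∑ v ∈ univ.filter (fun v => blk A K v + 2 ≤ i),
        Ex p univ (fun T => (∑ u ∈ univ.filter (fun u => blk A K u = i) ∩ T, (codeg A u v : ℝ) +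
          p * ∑ u ∈ univ.filter (fun u => blk A K u = i), (codeg A u v : ℝ)) ^ 2) *
            (dg A v : ℝ)⁻¹ ≤
      (∑ i ∈ range (I + 1), ∑ v ∈ univ.filter (fun v => blk A K v + 2 ≤ i),
        4 * p ^ 2 * (∑ e ∈ univ.filter (fun e => v ∈ A e),
        ((A e ∩ univ.filter (fun u => blk A K u = i)).card : ℝ) ^ 2)) +
      ∑ i ∈ range (I + 1), ∑ v ∈ univ.filter (fun v => blk A K v + 2 ≤ i),
        p * q i v * (dg A v : ℝ)⁻¹ := by
    rw [← Finset.sum_add_distrib]
    refine Finset.sum_le_sum fun i _ => ?_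
    rw [← Finset.sum_add_distrib]
    exact Finset.sum_le_sum fun v _ => e2 i v
  refine e3.trans ?_
  -- first part
  have f1 : ∑ i ∈ range (I + 1), ∑ v ∈ univ.filter (fun v => blk A K v + 2 ≤ i),
        4 * p ^ 2 * (∑ e ∈ univ.filter (fun e => v ∈ A e),
        ((A e ∩ univ.filter (fun u => blk A K u = i)).card : ℝ) ^ 2) ≤
      4 * p ^ 2 * (4 * (η + 2 * ε) * s ^ 3 * (Fintype.card ι : ℝ)) := by
    have h3 := first A K I s η ε hs hη hε hA hS
    refine le_trans ?_ (mul_le_mul_of_nonneg_left h3 (show 0 ≤ 4 * p ^ 2 by positivity))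
    rw [Finset.mul_sum]
    refine Finset.sum_le_sum fun i _ => ?_
    rw [← Finset.mul_sum]
    apply mul_le_mul_of_nonneg_left _ (by positivity)
    refine Finset.sum_le_sum_of_subset_of_nonneg (Finset.filter_subset _ _) fun v _ _ => ?_
    exact Finset.sum_nonneg fun e _ => by positivity
  have f2 : 4 * p ^ 2 * (4 * (η + 2 * ε) * s ^ 3 * (Fintype.card ι : ℝ)) ≤
      64 * (η + 2 * ε) * mass A := by
    have e4 : 4 * p ^ 2 * (4 * (η + 2 * ε) * s ^ 3 * (Fintype.card ι : ℝ)) =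
        θ ^ 2 * (16 * (η + 2 * ε) * ((Fintype.card ι : ℝ) * s)) := by
      rw [hp]
      field_simp
      ring
    rw [e4]
    have h3 : θ ^ 2 ≤ 1 := pow_le_one₀ hθ.le hθ1
    have h4 : 0 ≤ 16 * (η + 2 * ε) * ((Fintype.card ι : ℝ) * s) := by positivity
    have h5 : 16 * (η + 2 * ε) * ((Fintype.card ι : ℝ) * s) ≤ 16 * (η + 2 * ε) * (4 * mass A) :=
      mul_le_mul_of_nonneg_left hN (by positivity)
    calc θ ^ 2 * (16 * (η + 2 * ε) * ((Fintype.card ι : ℝ) * s)) ≤
          1 * (16 * (η + 2 * ε) * ((Fintype.card ι : ℝ) * s)) :=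
          mul_le_mul_of_nonneg_right h3 h4
      _ ≤ 64 * (η + 2 * ε) * mass A := by linarith
  -- second part
  have g1 : ∑ i ∈ range (I + 1), ∑ v ∈ univ.filter (fun v => blk A K v + 2 ≤ i),
        p * q i v * (dg A v : ℝ)⁻¹ =
      ∑ v, p * (dg A v : ℝ)⁻¹ * ∑ i ∈ (range (I + 1)).filter (fun i => blk A K v + 2 ≤ i),
        q i v := by
    have h3 : ∀ i ∈ range (I + 1), ∑ v ∈ univ.filter (fun v => blk A K v + 2 ≤ i),
        p * q i v * (dg A v : ℝ)⁻¹ =
        ∑ v, if blk A K v + 2 ≤ i then p * q i v * (dg A v : ℝ)⁻¹ else 0 :=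
      fun i _ => Finset.sum_filter _ _
    rw [Finset.sum_congr rfl h3, Finset.sum_comm]
    refine Finset.sum_congr rfl fun v _ => ?_
    rw [← Finset.sum_filter, Finset.mul_sum]
    exact Finset.sum_congr rfl fun i _ => by ring
  have g2 : ∀ v, ∑ i ∈ (range (I + 1)).filter (fun i => blk A K v + 2 ≤ i), q i v ≤
      2 * s * (dg A v : ℝ) + γ * s * (dg A v : ℝ) ^ 2 := by
    intro v
    refine le_trans ?_ (h1 V ι A s γ v hs0.le hγ hA hAA).2.1
    refine sum_block_le (blk A K) _ (fun u => (codeg A u v : ℝ) ^ 2) (univ.erase v)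
      (fun u => by positivity) ?_
    intro u hu
    have := (Finset.mem_filter.mp hu).2
    refine Finset.mem_erase.mpr ⟨?_, Finset.mem_univ u⟩
    rintro rfl
    omega
  have g3 : ∑ v, p * (dg A v : ℝ)⁻¹ * ∑ i ∈ (range (I + 1)).filter
        (fun i => blk A K v + 2 ≤ i), q i v ≤ ∑ v : V, (2 / Λ + γ) * (dg A v : ℝ) := by
    refine Finset.sum_le_sum fun v _ => ?_
    have h3 := mul_le_mul_of_nonneg_left (g2 v)
      (show 0 ≤ p * (dg A v : ℝ)⁻¹ from mul_nonneg hp0 (inv_nonneg.mpr (hdpos v).le))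
    refine h3.trans ?_
    have hd0 := hdpos v
    have e4 : p * (dg A v : ℝ)⁻¹ * (2 * s * (dg A v : ℝ) + γ * s * (dg A v : ℝ) ^ 2) =
        θ * (2 + γ * (dg A v : ℝ)) := by
      rw [hp]
      field_simp
    rw [e4]
    have h4 : 2 ≤ 2 / Λ * (dg A v : ℝ) := by
      rw [div_mul_eq_mul_div, le_div_iff₀ (by linarith)]
      have := hd v
      linarith
    have h5 : 0 ≤ γ * (dg A v : ℝ) := mul_nonneg hγ hd0.le
    nlinarith
  rw [g1]
  have g4 : ∑ v : V, (2 / Λ + γ) * (dg A v : ℝ) = (2 / Λ + γ) * mass A := by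
    rw [← Finset.mul_sum]
    rfl
  rw [g4] at g3
  have g5 := f1.trans f2
  calc _ ≤ 64 * (η + 2 * ε) * mass A + (2 / Λ + γ) * mass A := add_le_add g5 g3
    _ = (64 * (η + 2 * ε) + 2 / Λ + γ) * mass A := by ring

end Pool.Agent.Lib.MP_9b5ec2_co
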