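import Pool.Agent.Lib.MP_9b5ec2_co.Defs2

/-!
# Few points above or below (MP_9b5ec2_co): `TopStmt`
-/

set_option autoImplicit false

namespace Pool.Agent.Lib.MP_9b5ec2_co

open Finset

theorem topThm : TopStmt := by
  intro V _ X b q w hq hw
  have hw0 : (0 : ℝ) ≤ w := le_trans (Nat.cast_nonneg _) (hw 0)
  constructor
  · set S := X.filter (fun v => ((X.filter (fun u => b v + 2 ≤ b u)).card : ℝ) < q) with hS
    rcases S.eq_empty_or_nonempty with h | h
    · rw [h]
      simp only [card_empty, Nat.cast_zero]
      linarith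
    · obtain ⟨v₀, hv₀, hmin⟩ := S.exists_min_image b h
      have h1 := (mem_filter.1 hv₀).2
      have h2 : S ⊆ X.filter (fun u => b v₀ + 2 ≤ b u) ∪
          X.filter (fun v => b v = b v₀ ∨ b v = b v₀ + 1) := by
        intro v hv
        have h3 := hmin v hv
        have h4 := (mem_filter.1 hv).1
        rw [mem_union, mem_filter, mem_filter]
        by_cases h5 : b v₀ + 2 ≤ b v
        · exact Or.inl ⟨h4, h5⟩
        · exact Or.inr ⟨h4, by omega⟩
      have h6 : (S.card : ℝ) ≤ ((X.filter (fun u => b v₀ + 2 ≤ b u)).card : ℝ) +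
          ((X.filter (fun v => b v = b v₀ ∨ b v = b v₀ + 1)).card : ℝ) := by
        exact_mod_cast (card_le_card h2).trans (card_union_le _ _)
      have h7 := hw (b v₀)
      linarith
  · set S := X.filter (fun v => ((X.filter (fun u => b u + 2 ≤ b v)).card : ℝ) < q) with hS
    rcases S.eq_empty_or_nonempty with h | h
    · rw [h]
      simp only [card_empty, Nat.cast_zero]
      linarith
    · obtain ⟨v₀, hv₀, hmax⟩ := S.exists_max_image b h
      have h1 := (mem_filter.1 hv₀).2
      have h2 : S ⊆ X.filter (fun u => b u + 2 ≤ b v₀) ∪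
          X.filter (fun v => b v = b v₀ - 1 ∨ b v = b v₀ - 1 + 1) := by
        intro v hv
        have h3 := hmax v hv
        have h4 := (mem_filter.1 hv).1
        rw [mem_union, mem_filter, mem_filter]
        by_cases h5 : b v + 2 ≤ b v₀
        · exact Or.inl ⟨h4, h5⟩
        · exact Or.inr ⟨h4, by omega⟩
      have h6 : (S.card : ℝ) ≤ ((X.filter (fun u => b u + 2 ≤ b v₀)).card : ℝ) +
          ((X.filter (fun v => b v = b v₀ - 1 ∨ b v = b v₀ - 1 + 1)).card : ℝ) := by
        exact_mod_cast (card_le_card h2).trans (card_union_le _ _)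
      have h7 := hw (b v₀ - 1)
      linarith

end Pool.Agent.Lib.MP_9b5ec2_co
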