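import Pool.Agent.Lib.MP_9b5ec2_co.Defs2
import Pool.Agent.Lib.MP_9b5ec2_co.Ex

/-!
# Typical sets exist (MP_9b5ec2_co, P9)
-/

set_option autoImplicit false
set_option linter.unusedSectionVars false

namespace Pool.Agent.Lib.MP_9b5ec2_co

open Finset

/-- Selection of a set that is good for finitely many nonnegative quantities. -/
theorem typ_select {V J : Type} [Fintype V] [DecidableEq V] [Fintype J] (p : ℝ) (h0 : 0 ≤ p)
    (h1 : p ≤ 1) (F1 F2 F3 : Finset V → ℝ) (F4 F5 : J → Finset V → ℝ) (a1 a2 a3 b : ℝ)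
    (ha1 : 0 < a1) (ha2 : 0 < a2) (ha3 : 0 < a3)
    (n1 : ∀ T, 0 ≤ F1 T) (n2 : ∀ T, 0 ≤ F2 T) (n3 : ∀ T, 0 ≤ F3 T)
    (n4 : ∀ j T, 0 ≤ F4 j T) (n5 : ∀ j T, 0 ≤ F5 j T)
    (e1 : Ex p univ F1 ≤ a1 / 8) (e2 : Ex p univ F2 ≤ a2 / 8) (e3 : Ex p univ F3 ≤ a3 / 8)
    (e4 : ∀ j, Ex p univ (F4 j) ≤ b) (e5 : ∀ j, Ex p univ (F5 j) ≤ b)
    (hb : 2 * (Fintype.card J : ℝ) * b ≤ 1 / 4) :
    ∃ T : Finset V, F1 T ≤ a1 ∧ F2 T ≤ a2 ∧ F3 T ≤ a3 ∧ ∀ j, F4 j T < 1 ∧ F5 j T < 1 := by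
  have hE : Ex p univ (fun T => F1 T * (1 / a1) + (F2 T * (1 / a2) + (F3 T * (1 / a3) +
      ∑ j : J, (F4 j T + F5 j T)))) < 1 := by
    rw [Ex_add, Ex_add, Ex_add, Ex_mul_right, Ex_mul_right, Ex_mul_right, Ex_sum]
    have g1 : Ex p univ F1 * (1 / a1) ≤ 1 / 8 := by
      calc Ex p univ F1 * (1 / a1) ≤ a1 / 8 * (1 / a1) :=
            mul_le_mul_of_nonneg_right e1 (by positivity)
        _ = 1 / 8 := by field_simp
    have g2 : Ex p univ F2 * (1 / a2) ≤ 1 / 8 := by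
      calc Ex p univ F2 * (1 / a2) ≤ a2 / 8 * (1 / a2) :=
            mul_le_mul_of_nonneg_right e2 (by positivity)
        _ = 1 / 8 := by field_simp
    have g3 : Ex p univ F3 * (1 / a3) ≤ 1 / 8 := by
      calc Ex p univ F3 * (1 / a3) ≤ a3 / 8 * (1 / a3) :=
            mul_le_mul_of_nonneg_right e3 (by positivity)
        _ = 1 / 8 := by field_simp
    have g4 : ∑ j : J, Ex p univ (fun T => F4 j T + F5 j T) ≤ 1 / 4 := by
      calc ∑ j : J, Ex p univ (fun T => F4 j T + F5 j T) ≤ ∑ j : J, (b + b) := by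
            refine Finset.sum_le_sum fun j _ => ?_
            rw [Ex_add]
            exact add_le_add (e4 j) (e5 j)
        _ = 2 * (Fintype.card J : ℝ) * b := by
            rw [Finset.sum_const, nsmul_eq_mul, Finset.card_univ]
            ring
        _ ≤ 1 / 4 := hb
    linarith
  obtain ⟨T, -, hT⟩ := Ex_exists h0 h1 univ _ 1 hE
  have m1 : 0 ≤ F1 T * (1 / a1) := mul_nonneg (n1 T) (by positivity)
  have m2 : 0 ≤ F2 T * (1 / a2) := mul_nonneg (n2 T) (by positivity)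
  have m3 : 0 ≤ F3 T * (1 / a3) := mul_nonneg (n3 T) (by positivity)
  have m4 : 0 ≤ ∑ j : J, (F4 j T + F5 j T) :=
    Finset.sum_nonneg fun j _ => add_nonneg (n4 j T) (n5 j T)
  have key : ∀ x a : ℝ, 0 < a → x * (1 / a) < 1 → x ≤ a := by
    intro x a ha hx
    rw [mul_one_div, div_lt_one ha] at hx
    exact hx.le
  refine ⟨T, key _ _ ha1 (by linarith), key _ _ ha2 (by linarith), key _ _ ha3 (by linarith), ?_⟩
  intro j
  have h6 : F4 j T + F5 j T ≤ ∑ j : J, (F4 j T + F5 j T) :=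
    Finset.single_le_sum (f := fun j => F4 j T + F5 j T)
      (fun j _ => add_nonneg (n4 j T) (n5 j T)) (Finset.mem_univ j)
  have h7 := n4 j T
  have h8 := n5 j T
  constructor <;> linarith

/-- Indicators in a sum that is less than `1`. -/
theorem typ_ind {α β : Type} (I : Finset α) (S : α → Finset β) (P : α → β → Prop)
    [∀ a b, Decidable (P a b)]
    (h : ∑ i ∈ I, ∑ w ∈ S i, (if P i w then (1 : ℝ) else 0) < 1) :
    ∀ i ∈ I, ∀ w ∈ S i, ¬ P i w := by
  intro i hi w hw hP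
  have h1 : ∀ a b, (0 : ℝ) ≤ if P a b then (1 : ℝ) else 0 := by
    intro a b
    split_ifs <;> norm_num
  have h2 : (if P i w then (1 : ℝ) else 0) ≤ ∑ w ∈ S i, (if P i w then (1 : ℝ) else 0) :=
    Finset.single_le_sum (f := fun w => if P i w then (1 : ℝ) else 0) (fun b _ => h1 i b) hw
  have h3 : ∑ w ∈ S i, (if P i w then (1 : ℝ) else 0) ≤
      ∑ i ∈ I, ∑ w ∈ S i, (if P i w then (1 : ℝ) else 0) :=
    Finset.single_le_sum (f := fun i => ∑ w ∈ S i, if P i w then (1 : ℝ) else 0)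
      (fun a _ => Finset.sum_nonneg fun b _ => h1 a b) hi
  rw [if_pos hP] at h2
  linarith

section loc

variable {V ι : Type} [Fintype V] [DecidableEq V] [Fintype ι] [DecidableEq ι]


theorem typ_above_anti (A : ι → Finset V) (K : ℕ) {i j : ℕ} (h : i ≤ j) :
    above A K j ⊆ above A K i := by
  intro u hu
  unfold above at hu ⊢
  rw [Finset.mem_filter] at hu ⊢
  exact ⟨hu.1, h.trans hu.2⟩

theorem typ_cnt (A : ι → Finset V) (K : ℕ) (Φ : Prd V ι) (T W : Finset V) (i : ℕ) (u v : V)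
    (h : i ≤ blk A K u) : cnt A K Φ T (W ∩ above A K (i + 2)) u v = cnt A K Φ T W u v := by
  have h1 : W ∩ above A K (i + 2) ∩ above A K (blk A K u + 2) =
      W ∩ above A K (blk A K u + 2) := by
    rw [Finset.inter_assoc, Finset.inter_eq_right.2 (typ_above_anti A K (by omega))]
  unfold cnt
  rw [h1]

theorem typ_frz (A : ι → Finset V) (K I : ℕ) (p : ℝ) (Φ : Prd V ι) (T W : Finset V) (i : ℕ)
    (k : ℕ) : i + k ≤ I → ∀ v, frz A K I p Φ T (W ∩ above A K (i + 2)) k v =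
      frz A K I p Φ T W k v := by
  induction k with
  | zero => intro _ v; rfl
  | succ k ih =>
    intro h1 v
    have h3 := ih (by omega) v
    rw [frz, frz, h3]
    congr 1
    have h4 : ∑ u ∈ univ.filter (fun u => blk A K u = I - k),
        ((if u ∈ T then (1 : ℝ) else 0) - p) *
          (cnt A K Φ T (W ∩ above A K (i + 2)) u v : ℝ) =
        ∑ u ∈ univ.filter (fun u => blk A K u = I - k),
        ((if u ∈ T then (1 : ℝ) else 0) - p) * (cnt A K Φ T W u v : ℝ) := by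
      refine Finset.sum_congr rfl fun u hu => ?_
      rw [typ_cnt A K Φ T W i u v ?_]
      rw [(Finset.mem_filter.1 hu).2]
      omega
    rw [h4]

theorem typ_coef (A : ι → Finset V) (K I : ℕ) (p : ℝ) (Φ : Prd V ι) (T W : Finset V) (k : ℕ)
    (hk : k ≤ I) (u : V) (hu : blk A K u = I - k) :
    coef A K I p Φ T (W ∩ above A K (I - k + 2)) k u = coef A K I p Φ T W k u := by
  unfold coef
  refine Finset.sum_congr rfl fun v _ => ?_
  rw [typ_frz A K I p Φ T W (I - k) k (by omega) v, typ_cnt A K Φ T W (I - k) u v hu.ge]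

theorem typ_clo_nonneg (A : ι → Finset V) (K : ℕ) (s : ℝ) (hs : 0 ≤ s) (T : Finset V) :
    0 ≤ 2 * s * ∑ e, (clo A K T e : ℝ) := by positivity

theorem typ_rtot_nonneg (A : ι → Finset V) (K I : ℕ) (p : ℝ) (T : Finset V) :
    0 ≤ rtot A K I p T := by
  unfold rtot
  refine Finset.sum_nonneg fun i _ => Finset.sum_nonneg fun v _ => ?_
  positivity

/-- The frozen part: `Fair`. -/
theorem typ_fair (h5 : FreezeStmt) (A : ι → Finset V) (K I : ℕ) (s θ δ δ₁ : ℝ) (Φ : Prd V ι)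
    (hs : 1 ≤ s) (hθ : 0 < θ) (hθ1 : θ ≤ 1) (hδ : 0 < δ) (hδ1 : δ ≤ 1) (hδ₁ : 0 < δ₁)
    (hδ₁' : δ₁ ≤ δ ^ 3 / 4) (hd : ∀ v, 1 ≤ dg A v) (hI : ∀ v, blk A K v ≤ I) (T : Finset V)
    (hr : rtot A K I (θ / s) T ≤ δ ^ 3 / 2 * mass A)
    (h4 : ∑ i ∈ univ.image (blk A K),
      ∑ W ∈ (T ∩ above A K (i + 2)).powerset,
        (if δ₁ * θ * (∑ v ∈ univ.filter (fun v => blk A K v = i), (dg A v : ℝ)) <
          ∑ u ∈ univ.filter (fun u => blk A K u = i), ((if u ∈ T then (1 : ℝ) else 0) - θ / s) *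
            coef A K I (θ / s) Φ T W (I - i) u then (1 : ℝ) else 0) < 1) :
    Fair A K (θ / s) δ T Φ := by
  have hind := typ_ind (univ.image (blk A K)) (fun i => (T ∩ above A K (i + 2)).powerset)
    (fun i W => δ₁ * θ * (∑ v ∈ univ.filter (fun v => blk A K v = i), (dg A v : ℝ)) <
          ∑ u ∈ univ.filter (fun u => blk A K u = i), ((if u ∈ T then (1 : ℝ) else 0) - θ / s) *
            coef A K I (θ / s) Φ T W (I - i) u) h4
  intro W hW
  have hmain := h5 V ι A K I (θ / s) δ (δ₁ * θ) (δ ^ 3 / 2) Φ T W (by positivity) hδ hδ1 hd hI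
    (by
      have h6 : δ₁ * θ ≤ δ₁ * 1 := mul_le_mul_of_nonneg_left hθ1 hδ₁.le
      linarith)
    (by
      intro k hk
      by_cases hi : I - k ∈ univ.image (blk A K)
      · have h7 := hind (I - k) hi (W ∩ above A K (I - k + 2))
          (Finset.mem_powerset.2 (Finset.inter_subset_inter_right hW))
        rw [not_lt, Nat.sub_sub_self hk] at h7
        refine le_trans (le_of_eq ?_) h7
        refine Finset.sum_congr rfl fun u hu => ?_
        rw [typ_coef A K I (θ / s) Φ T W k hk u (Finset.mem_filter.1 hu).2]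
      · have h8 : univ.filter (fun u => blk A K u = I - k) = ∅ := by
          rw [Finset.filter_eq_empty_iff]
          intro u _ hu
          exact hi (hu ▸ Finset.mem_image_of_mem _ (Finset.mem_univ u))
        rw [h8]
        simp) hr
  convert hmain using 3

/-- The global count: `Glob`. -/
theorem typ_glob (A : ι → Finset V) (K : ℕ) (s θ δ δ₁ : ℝ) (Φ : Prd V ι)
    (hs : 1 ≤ s) (hθ : 0 < θ) (hδ : 0 < δ) (hδ1 : δ ≤ 1)
    (hδ₁' : δ₁ ≤ δ ^ 3 / 4) (T : Finset V)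
    (h4 : ∑ i ∈ univ.image (blk A K),
      ∑ W ∈ (T ∩ above A K (i + 2)).powerset,
        (if δ₁ * θ * (∑ v ∈ univ.filter (fun v => blk A K v = i), (dg A v : ℝ)) <
          ∑ u ∈ univ.filter (fun u => blk A K u = i), ((if u ∈ T then (1 : ℝ) else 0) - θ / s) *
            (2 * s * (cnt A K Φ T W u u : ℝ)) then (1 : ℝ) else 0) < 1) :
    Glob A K (θ / s) δ T Φ := by
  have hind := typ_ind (univ.image (blk A K)) (fun i => (T ∩ above A K (i + 2)).powerset)
    (fun i W => δ₁ * θ * (∑ v ∈ univ.filter (fun v => blk A K v = i), (dg A v : ℝ)) <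
          ∑ u ∈ univ.filter (fun u => blk A K u = i), ((if u ∈ T then (1 : ℝ) else 0) - θ / s) *
            (2 * s * (cnt A K Φ T W u u : ℝ))) h4
  intro W hW
  have h1 : ∀ i ∈ univ.image (blk A K),
      ∑ u ∈ univ.filter (fun u => blk A K u = i), ((if u ∈ T then (1 : ℝ) else 0) - θ / s) *
            (2 * s * (cnt A K Φ T W u u : ℝ)) ≤
      δ₁ * θ * (∑ v ∈ univ.filter (fun v => blk A K v = i), (dg A v : ℝ)) := by
    intro i hi
    have h7 := hind i hi (W ∩ above A K (i + 2))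
      (Finset.mem_powerset.2 (Finset.inter_subset_inter_right hW))
    rw [not_lt] at h7
    refine le_trans (le_of_eq ?_) h7
    refine Finset.sum_congr rfl fun u hu => ?_
    rw [typ_cnt A K Φ T W i u u (Finset.mem_filter.1 hu).2.ge]
  have h2 := Finset.sum_le_sum h1
  have hmap : ∀ u ∈ (univ : Finset V), blk A K u ∈ univ.image (blk A K) := fun u hu =>
    Finset.mem_image_of_mem _ hu
  rw [← Finset.mul_sum, Finset.sum_fiberwise_of_maps_to hmap,
    Finset.sum_fiberwise_of_maps_to hmap] at h2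
  have h3 : ∑ u, ((if u ∈ T then (1 : ℝ) else 0) - θ / s) * (2 * s * (cnt A K Φ T W u u : ℝ)) =
      2 * s * (∑ u ∈ T, (cnt A K Φ T W u u : ℝ) - θ / s * ∑ u, (cnt A K Φ T W u u : ℝ)) := by
    rw [mul_sub, Finset.mul_sum, Finset.mul_sum, Finset.mul_sum]
    have h5 : ∑ u ∈ T, 2 * s * (cnt A K Φ T W u u : ℝ) =
        ∑ u, (if u ∈ T then 2 * s * (cnt A K Φ T W u u : ℝ) else 0) := by
      rw [Finset.sum_ite_mem, Finset.univ_inter]
    rw [h5, ← Finset.sum_sub_distrib]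
    refine Finset.sum_congr rfl fun u _ => ?_
    split_ifs <;> ring
  rw [h3] at h2
  have h6 : (0 : ℝ) ≤ ∑ v, (dg A v : ℝ) := by positivity
  have h8 : δ₁ ≤ δ := by
    have h9 : δ ^ 3 ≤ δ := by
      have := pow_le_of_le_one hδ.le hδ1 (n := 3) (by norm_num)
      exact this
    linarith
  have h9 : δ₁ * θ * ∑ v, (dg A v : ℝ) ≤ 2 * s * (δ * (θ / s) * mass A) := by
    have h10 : 2 * s * (δ * (θ / s) * mass A) = 2 * (δ * θ * mass A) := by
      field_simp
    rw [h10]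
    unfold mass
    have h11 : δ₁ * θ * ∑ v, (dg A v : ℝ) ≤ δ * θ * ∑ v, (dg A v : ℝ) :=
      mul_le_mul_of_nonneg_right (mul_le_mul_of_nonneg_right h8 hθ.le) h6
    have h12 : 0 ≤ δ * θ * ∑ v, (dg A v : ℝ) := by positivity
    linarith
  have h10 : ∑ u ∈ T, (cnt A K Φ T W u u : ℝ) - θ / s * ∑ u, (cnt A K Φ T W u u : ℝ) ≤
      δ * (θ / s) * mass A :=
    le_of_mul_le_mul_left (h2.trans h9) (by positivity)
  linarith

end loc

theorem typ (h1 : HeavyExStmt) (h2 : CloseExStmt) (h3 : RtotExStmt) (h4 : DevExStmt)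
    (h5 : FreezeStmt) : TypStmt := by
  intro V ι J _ _ _ _ _ A K s θ γ η ε Λ δ δ₁ Φ hK hs hθ hθ1 hγ hη hε hΛ hδ hδ1 hδ₁ hδ₁' hV hA hAA
    hdg hι hSp hX hB
  have hd : ∀ v, 1 ≤ dg A v := by
    intro v
    have : (1 : ℝ) ≤ (dg A v : ℝ) := hΛ.trans (hdg v)
    exact_mod_cast this
  have hM : 0 < mass A := by
    unfold mass
    have : Nonempty V := Fintype.card_pos_iff.1 hV
    refine Finset.sum_pos (fun v _ => ?_) Finset.univ_nonempty
    have := hd v
    exact_mod_cast this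
  obtain ⟨I, hI'⟩ : ∃ I, I = univ.sup (blk A K) := ⟨_, rfl⟩
  have hI : ∀ v, blk A K v ≤ I := fun v => hI' ▸ Finset.le_sup (f := blk A K) (Finset.mem_univ v)
  have hδ3 : δ ^ 3 ≤ 1 := pow_le_one₀ hδ.le hδ1
  have hδ32 : δ ^ 3 ≤ δ ^ 2 := pow_le_pow_of_le_one hδ.le hδ1 (by norm_num)
  have hδ31 : δ ^ 3 ≤ δ := by
    have := pow_le_of_le_one hδ.le hδ1 (n := 3) (by norm_num)
    exact this
  have hδ3' : 0 < δ ^ 3 := by positivity
  have hΛ' : 0 < 2 / Λ := by positivity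
  have hp0 : 0 ≤ θ / s := by positivity
  have hp1 : θ / s ≤ 1 := by
    rw [div_le_one (by linarith)]
    linarith
  obtain ⟨T, t1, t2, t3, t4⟩ := typ_select (J := J) (θ / s) hp0 hp1
    (fun T => ∑ v ∈ univ.filter (fun v => 4 * θ * (dg A v : ℝ) < (hit A T v : ℝ)),
      (hit A T v : ℝ))
    (fun T => 2 * s * ∑ e, (clo A K T e : ℝ))
    (fun T => rtot A K I (θ / s) T)
    (fun j T => ∑ i ∈ univ.image (blk A K),
      ∑ W ∈ (T ∩ above A K (i + 2)).powerset,
        if δ₁ * θ * (∑ v ∈ univ.filter (fun v => blk A K v = i), (dg A v : ℝ)) <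
          ∑ u ∈ univ.filter (fun u => blk A K u = i), ((if u ∈ T then (1 : ℝ) else 0) - θ / s) *
            coef A K I (θ / s) (Φ j) T W (I - i) u then (1 : ℝ) else 0)
    (fun j T => ∑ i ∈ univ.image (blk A K),
      ∑ W ∈ (T ∩ above A K (i + 2)).powerset,
        if δ₁ * θ * (∑ v ∈ univ.filter (fun v => blk A K v = i), (dg A v : ℝ)) <
          ∑ u ∈ univ.filter (fun u => blk A K u = i), ((if u ∈ T then (1 : ℝ) else 0) - θ / s) *
            (2 * s * (cnt A K (Φ j) T W u u : ℝ)) then (1 : ℝ) else 0)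
    (δ * mass A) (δ ^ 2 * mass A) (δ ^ 3 / 2 * mass A) (blockSum A K s θ δ₁)
    (by positivity) (by positivity) (by positivity)
    (fun T => Finset.sum_nonneg fun v _ => Nat.cast_nonneg _)
    (fun T => typ_clo_nonneg A K s (by linarith) T)
    (fun T => typ_rtot_nonneg A K I (θ / s) T)
    (fun j T => Finset.sum_nonneg fun i _ => Finset.sum_nonneg fun W _ => by
      split_ifs <;> norm_num)
    (fun j T => Finset.sum_nonneg fun i _ => Finset.sum_nonneg fun W _ => by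
      split_ifs <;> norm_num)
    (by
      refine (h1 V ι A s θ γ Λ hs hθ hθ1 hγ hΛ hA hAA hdg).trans ?_
      have e1 : (2 / Λ + γ) * mass A ≤ δ / 8 * mass A := by
        refine mul_le_mul_of_nonneg_right ?_ hM.le
        linarith
      linarith)
    (by
      refine (h2 V ι A K s θ η ε hs hθ hθ1 hη hε hA hι hSp).trans ?_
      have e1 : 32 * (η + ε) * mass A ≤ δ ^ 2 / 8 * mass A := by
        refine mul_le_mul_of_nonneg_right ?_ hM.le
        linarith
      linarith)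
    (by
      refine (h3 V ι A K I s θ γ η ε Λ hs hθ hθ1 hγ hη hε hΛ hA hAA hdg hι hSp).trans ?_
      have e1 : (64 * (η + 2 * ε) + 2 / Λ + γ) * mass A ≤ δ ^ 3 / 16 * mass A := by
        refine mul_le_mul_of_nonneg_right ?_ hM.le
        linarith
      linarith)
    (fun j => (h4 V ι A K I s θ δ₁ (Φ j) hK hs hθ hθ1 hδ₁ (by linarith) hA hd hI).1)
    (fun j => (h4 V ι A K I s θ δ₁ (Φ j) hK hs hθ hθ1 hδ₁ (by linarith) hA hd hI).2) hB
  refine ⟨T, t1, t2, fun j => ⟨?_, ?_⟩⟩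
  · exact typ_fair h5 A K I s θ δ δ₁ (Φ j) hs hθ hθ1 hδ hδ1 hδ₁ hδ₁' hd hI T t3 (t4 j).1
  · exact typ_glob A K s θ δ δ₁ (Φ j) hs hθ hδ hδ1 hδ₁' T (t4 j).2

end Pool.Agent.Lib.MP_9b5ec2_co
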