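import Pool.Agent.Lib.MP_9b5ec2_co.Ex
import Pool.Agent.Lib.MP_9b5ec2_co.Defs2

/-! Second moment of a weighted sum over a Bernoulli random subset. -/

set_option autoImplicit false
set_option linter.unusedSectionVars false

namespace Pool.Agent.Lib.MP_9b5ec2_co

open Finset

namespace WMomAux

variable {V : Type} [DecidableEq V] [Fintype V]

theorem sum_eq (U T : Finset V) (w : V → ℝ) :
    ∑ u ∈ U ∩ T, w u = ∑ u ∈ U, w u * (if u ∈ T then (1 : ℝ) else 0) := by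
  have h : ∀ u ∈ U, w u * (if u ∈ T then (1 : ℝ) else 0) = if u ∈ T then w u else 0 := by
    intro u _
    split_ifs <;> ring
  rw [Finset.sum_congr rfl h, Finset.sum_ite_mem]

theorem Ex_sum_eq (p : ℝ) (U : Finset V) (w : V → ℝ) :
    Ex p univ (fun T => ∑ u ∈ U ∩ T, w u) = p * ∑ u ∈ U, w u := by
  have h1 : Ex p univ (fun T => ∑ u ∈ U ∩ T, w u) =
      Ex p univ (fun T => ∑ u ∈ U, w u * (if u ∈ T then (1 : ℝ) else 0)) :=
    Ex_congr p univ _ _ fun T _ => sum_eq U T w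
  rw [h1, Ex_sum, Finset.mul_sum]
  refine Finset.sum_congr rfl fun u _ => ?_
  rw [Ex_mul_left, Ex_mem p univ (Finset.mem_univ u)]
  ring

theorem Ex_pair' (p : ℝ) (u v : V) :
    Ex p univ (fun T => (if u ∈ T then (1 : ℝ) else 0) * (if v ∈ T then (1 : ℝ) else 0)) =
      p ^ 2 + if u = v then p - p ^ 2 else 0 := by
  by_cases h : u = v
  · subst h
    rw [if_pos rfl]
    have h1 : Ex p univ (fun T => (if u ∈ T then (1 : ℝ) else 0) * (if u ∈ T then (1 : ℝ) else 0)) =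
        Ex p univ (fun T => if u ∈ T then (1 : ℝ) else 0) :=
      Ex_congr p univ _ _ fun T _ => by split_ifs <;> norm_num
    rw [h1, Ex_mem p univ (Finset.mem_univ u)]
    ring
  · rw [if_neg h]
    have h1 : Ex p univ (fun T => (if u ∈ T then (1 : ℝ) else 0) * (if v ∈ T then (1 : ℝ) else 0)) =
        Ex p univ (fun T => if u ∈ T ∧ v ∈ T then (1 : ℝ) else 0) :=
      Ex_congr p univ _ _ fun T _ => by
        by_cases a : u ∈ T <;> by_cases b : v ∈ T <;> simp [a, b]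
    rw [h1, Ex_pair p univ (Finset.mem_univ u) (Finset.mem_univ v) h]
    ring

theorem Ex_sq_le {p : ℝ} (U : Finset V) (w : V → ℝ) :
    Ex p univ (fun T => (∑ u ∈ U ∩ T, w u) ^ 2) ≤
      (p * ∑ u ∈ U, w u) ^ 2 + p * ∑ u ∈ U, (w u) ^ 2 := by
  have h1 : Ex p univ (fun T => (∑ u ∈ U ∩ T, w u) ^ 2) =
      Ex p univ (fun T => ∑ u ∈ U, ∑ v ∈ U, (w u * w v) *
        ((if u ∈ T then (1 : ℝ) else 0) * (if v ∈ T then (1 : ℝ) else 0))) := by
    refine Ex_congr p univ _ _ fun T _ => ?_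
    rw [sum_eq, sq, Finset.sum_mul_sum]
    refine Finset.sum_congr rfl fun u _ => Finset.sum_congr rfl fun v _ => ?_
    ring
  have h2 : ∀ u ∈ U, Ex p univ (fun T => ∑ v ∈ U, (w u * w v) *
        ((if u ∈ T then (1 : ℝ) else 0) * (if v ∈ T then (1 : ℝ) else 0))) =
      p ^ 2 * w u * ∑ v ∈ U, w v + (p - p ^ 2) * (w u) ^ 2 := by
    intro u hu
    rw [Ex_sum]
    have h3 : ∀ v ∈ U, Ex p univ (fun T => (w u * w v) *
        ((if u ∈ T then (1 : ℝ) else 0) * (if v ∈ T then (1 : ℝ) else 0))) =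
        p ^ 2 * w u * w v + if u = v then (p - p ^ 2) * (w u * w v) else 0 := by
      intro v _
      rw [Ex_mul_left, Ex_pair']
      split_ifs <;> ring
    rw [Finset.sum_congr rfl h3, Finset.sum_add_distrib, ← Finset.mul_sum,
      Finset.sum_ite_eq U u, if_pos hu]
    ring
  rw [h1, Ex_sum, Finset.sum_congr rfl h2, Finset.sum_add_distrib, ← Finset.sum_mul,
    ← Finset.mul_sum, ← Finset.mul_sum]
  have h3 : 0 ≤ ∑ u ∈ U, (w u) ^ 2 := Finset.sum_nonneg fun u _ => sq_nonneg _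
  nlinarith [mul_nonneg (sq_nonneg p) h3]

end WMomAux

open WMomAux in
theorem wmom : WMomStmt := by
  intro V _ _ U w p hp0 hp1 hw
  have hm0 : 0 ≤ p * ∑ u ∈ U, w u := mul_nonneg hp0 (Finset.sum_nonneg fun u _ => hw u)
  have hE := Ex_sum_eq p U w
  have hE2 := Ex_sq_le (p := p) U w
  refine ⟨?_, ?_⟩
  · intro μ hμ hμ1
    have h1 : Ex p univ (fun T => if 2 * μ < ∑ u ∈ U ∩ T, w u then ∑ u ∈ U ∩ T, w u else 0) ≤
        Ex p univ (fun T => (2 / μ) * ((∑ u ∈ U ∩ T, w u) ^ 2 -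
          (2 * (p * ∑ u ∈ U, w u)) * (∑ u ∈ U ∩ T, w u) + (p * ∑ u ∈ U, w u) ^ 2)) := by
      refine Ex_mono hp0 hp1 univ _ _ fun T _ => ?_
      set X := ∑ u ∈ U ∩ T, w u
      set m := p * ∑ u ∈ U, w u
      have e1 : (2 / μ) * (X ^ 2 - (2 * m) * X + m ^ 2) = 2 * (X - m) ^ 2 / μ := by
        ring
      rw [e1]
      split_ifs with hX
      · rw [le_div_iff₀ hμ]
        have h2 : μ ≤ X - m := by linarith
        have h3 : X ≤ 2 * (X - m) := by linarith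
        nlinarith
      · positivity
    have h2 : Ex p univ (fun T => (2 / μ) * ((∑ u ∈ U ∩ T, w u) ^ 2 -
          (2 * (p * ∑ u ∈ U, w u)) * (∑ u ∈ U ∩ T, w u) + (p * ∑ u ∈ U, w u) ^ 2)) =
        (2 / μ) * (Ex p univ (fun T => (∑ u ∈ U ∩ T, w u) ^ 2) - (p * ∑ u ∈ U, w u) ^ 2) := by
      rw [Ex_mul_left, Ex_add, Ex_sub, Ex_mul_left, Ex_const, hE]
      ring
    rw [h2] at h1
    have h3 : (2 / μ) * (Ex p univ (fun T => (∑ u ∈ U ∩ T, w u) ^ 2) - (p * ∑ u ∈ U, w u) ^ 2) ≤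
        (2 / μ) * (p * ∑ u ∈ U, (w u) ^ 2) :=
      mul_le_mul_of_nonneg_left (by linarith) (by positivity)
    calc _ ≤ _ := h1
      _ ≤ _ := h3
      _ = _ := by ring
  · have h1 : Ex p univ (fun T => (∑ u ∈ U ∩ T, w u + p * ∑ u ∈ U, w u) ^ 2) =
        Ex p univ (fun T => (∑ u ∈ U ∩ T, w u) ^ 2) + 3 * (p * ∑ u ∈ U, w u) ^ 2 := by
      have h2 : Ex p univ (fun T => (∑ u ∈ U ∩ T, w u + p * ∑ u ∈ U, w u) ^ 2) =
          Ex p univ (fun T => ((∑ u ∈ U ∩ T, w u) ^ 2 +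
            (2 * (p * ∑ u ∈ U, w u)) * (∑ u ∈ U ∩ T, w u)) + (p * ∑ u ∈ U, w u) ^ 2) :=
        Ex_congr p univ _ _ fun T _ => by ring
      rw [h2, Ex_add, Ex_add, Ex_mul_left, Ex_const, hE]
      ring
    rw [h1]
    linarith

end Pool.Agent.Lib.MP_9b5ec2_co
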