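import Pool.Agent.Lib.MP_9b5ec2_co.Defs2
import Pool.Agent.Lib.MP_9b5ec2_co.Count

/-!
# No concentration in two consecutive blocks
-/

set_option autoImplicit false

namespace Pool.Agent.Lib.MP_9b5ec2_co

open Finset

/-- the window of the blocks `i`, `i + 1` -/
def winW {V ι : Type} [Fintype V] [DecidableEq V] [Fintype ι] [DecidableEq ι]
    (A : ι → Finset V) (K i : ℕ) : Finset V :=
  univ.filter (fun v => blk A K v = i ∨ blk A K v = i + 1)

theorem win_deg {V ι : Type} [Fintype V] [DecidableEq V] [Fintype ι] (A : ι → Finset V) :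
    ∑ v, (deg A univ v : ℝ) = ∑ e, ((A e).card : ℝ) := by
  have h1 : ∀ v, (deg A univ v : ℝ) = ∑ e : ι, if v ∈ A e then (1 : ℝ) else 0 := by
    intro v
    unfold deg
    rw [Finset.sum_boole]
  simp_rw [h1]
  rw [Finset.sum_comm]
  refine Finset.sum_congr rfl fun e _ => ?_
  rw [Finset.sum_ite_mem, Finset.univ_inter, Finset.sum_const, nsmul_eq_mul, mul_one]

theorem win_card_sub {V : Type} [DecidableEq V] (E W : Finset V) :
    (E.subtype (· ∈ W)).card = (E ∩ W).card := by
  rw [← count_map_subtype, card_map]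

/-- the application of `LemmaBStmt` to a set of points and a set of edges -/
theorem win_core {m : ℕ} {D c₀ Λ γ s₀ : ℝ}
    (hlem : ∀ (V ι : Type) [Fintype V] [DecidableEq V] [Fintype ι] [DecidableEq ι]
        (A : ι → Finset V) (s lam : ℝ), TwoCol m A → s₀ ≤ s → 0 < Fintype.card V →
        (∀ e, ((A e).card : ℝ) ≤ 2 * s) →
        (∀ e f, e ≠ f → ((A e ∩ A f).card : ℝ) ≤ γ * s) →
        (Fintype.card ι : ℝ) * s = lam * (Fintype.card V : ℝ) → Λ ≤ lam →
        c₀ * lam * (Fintype.card V : ℝ) ≤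
          ∑ v ∈ univ.filter (fun v => (deg A univ v : ℝ) ≤ D * lam), (deg A univ v : ℝ) →
        False)
    {V ι : Type} [Fintype V] [DecidableEq V] [Fintype ι] [DecidableEq ι] (A : ι → Finset V)
    (s : ℝ) (hT : TwoCol m A) (hs : s₀ ≤ s) (hsz : ∀ e, ((A e).card : ℝ) ≤ 2 * s)
    (hint : ∀ e f, e ≠ f → ((A e ∩ A f).card : ℝ) ≤ γ * s) (W : Finset V) (E : Finset ι)
    (hW : W.Nonempty) (h1 : ∀ e ∈ E, c₀ * s ≤ ((A e ∩ W).card : ℝ))
    (hlow : Λ * (W.card : ℝ) ≤ (E.card : ℝ) * s)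
    (hdeg : ∀ v ∈ W, (dg A v : ℝ) * (W.card : ℝ) ≤ D * ((E.card : ℝ) * s)) : False := by
  have hWc : (0 : ℝ) < W.card := by exact_mod_cast hW.card_pos
  have cV : Fintype.card {v // v ∈ W} = W.card := Fintype.card_coe W
  have cI : Fintype.card {e // e ∈ E} = E.card := Fintype.card_coe E
  set A' : {e // e ∈ E} → Finset {v // v ∈ W} := fun e => (A e.1).subtype (· ∈ W) with hA'
  have cA : ∀ e, (A' e).card = (A e.1 ∩ W).card := fun e => win_card_sub _ _
  have hlam : (E.card : ℝ) * s = (E.card : ℝ) * s / W.card * (W.card : ℝ) := by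
    field_simp
  have hdle : ∀ v : {v // v ∈ W}, (deg A' univ v : ℝ) ≤ dg A v.1 := by
    intro v
    have : deg A' univ v ≤ dg A v.1 := by
      unfold dg deg
      apply Finset.card_le_card_of_injOn Subtype.val
      · intro e he
        have he' := (Finset.mem_filter.1 (Finset.mem_coe.1 he)).2
        exact Finset.mem_coe.2 (Finset.mem_filter.2 ⟨mem_univ _, Finset.mem_subtype.1 he'⟩)
      · exact fun e _ f _ h => Subtype.ext h
    exact_mod_cast this
  refine hlem {v // v ∈ W} {e // e ∈ E} A' s ((E.card : ℝ) * s / W.card) ?_ hs ?_ ?_ ?_ ?_ ?_ ?_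
  · intro S
    obtain ⟨R, hR⟩ := count_twoCol_sub hT W S
    exact ⟨R, fun e he => hR e.1 he⟩
  · rw [cV]
    exact hW.card_pos
  · intro e
    have h2 : ((A' e).card : ℝ) ≤ (A e.1).card := by
      rw [cA]
      exact_mod_cast Finset.card_le_card Finset.inter_subset_left
    exact h2.trans (hsz e.1)
  · intro e f hef
    have h2 : A' e ∩ A' f = (A e.1 ∩ A f.1).subtype (· ∈ W) := by
      ext x
      simp [hA']
    have h3 : ((A' e ∩ A' f).card : ℝ) ≤ (A e.1 ∩ A f.1).card := by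
      rw [h2, win_card_sub]
      exact_mod_cast Finset.card_le_card Finset.inter_subset_left
    exact h3.trans (hint e.1 f.1 (fun h => hef (Subtype.ext h)))
  · rw [cV, cI]
    exact hlam
  · rw [le_div_iff₀ hWc]
    exact hlow
  · have hall : univ.filter (fun v : {v // v ∈ W} =>
        (deg A' univ v : ℝ) ≤ D * ((E.card : ℝ) * s / W.card)) = univ := by
      rw [Finset.filter_eq_self]
      intro v _
      refine (hdle v).trans ?_
      rw [← mul_div_assoc, le_div_iff₀ hWc]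
      exact hdeg v.1 v.2
    rw [hall, win_deg A', cV]
    have h2 : c₀ * ((E.card : ℝ) * s / W.card) * (W.card : ℝ) = (E.card : ℝ) * (c₀ * s) := by
      rw [mul_assoc, ← hlam]
      ring
    rw [h2, ← cI, ← nsmul_eq_mul]
    refine (Finset.card_nsmul_le_sum univ _ (c₀ * s) ?_)
    intro e _
    rw [cA]
    exact h1 e.1 e.2

theorem window (h : LemmaBStmt) : WindowStmt := by
  classical
  intro m η ε K hm hη hε hK
  have hK0 : (0 : ℝ) < K := by
    have : 0 < K := by omega
    exact_mod_cast this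
  obtain ⟨Λ, γ, s₀, hΛ, hγ, -, hs₀, hlem⟩ := h m (4 * K ^ 2 / ε) η hm (by positivity) hη
  refine ⟨max 1 (4 * K ^ 2 * Λ / ε), γ, max 1 s₀, le_max_left _ _, hγ, le_max_left _ _, ?_⟩
  intro V ι _ _ _ _ A s hT hs hsz hint hd
  have hs1 : 1 ≤ s := (le_max_left _ _).trans hs
  have hs0 : s₀ ≤ s := (le_max_right _ _).trans hs
  have hspos : 0 < s := by linarith
  have hw : ∀ (e : ι) (i : ℕ),
      (A e).filter (fun v => blk A K v = i ∨ blk A K v = i + 1) = A e ∩ winW A K i := by
    intro e i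
    ext v
    simp [winW]
  set Bad : Finset ι := univ.filter (fun e => ∃ i, η * s < ((A e ∩ winW A K i).card : ℝ)) with hBad
  refine ⟨Bad, ?_, ?_⟩
  swap
  · intro e he i
    rw [hw]
    by_contra hcon
    exact he (Finset.mem_filter.2 ⟨mem_univ _, i, not_le.1 hcon⟩)
  by_contra hcon
  push Not at hcon
  have hex : ∀ e ∈ Bad, ∃ i, η * s < ((A e ∩ winW A K i).card : ℝ) := fun e he =>
    (Finset.mem_filter.1 he).2
  choose! f hf using hex
  -- the total mass
  have hmass : ∑ v, (dg A v : ℝ) ≤ 2 * s * (Fintype.card ι : ℝ) := by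
    have h1 : ∑ v, (dg A v : ℝ) = ∑ e, ((A e).card : ℝ) := win_deg A
    rw [h1]
    calc ∑ e, ((A e).card : ℝ) ≤ ∑ _e : ι, 2 * s := Finset.sum_le_sum fun e _ => hsz e
      _ = 2 * s * (Fintype.card ι : ℝ) := by
        rw [Finset.sum_const, nsmul_eq_mul, Finset.card_univ]
        ring
  have hsum : ∑ i ∈ Bad.image f, ∑ v ∈ winW A K i, (dg A v : ℝ) ≤ 2 * ∑ v, (dg A v : ℝ) := by
    unfold winW
    simp_rw [Finset.sum_filter]
    rw [Finset.sum_comm, Finset.mul_sum]
    refine Finset.sum_le_sum fun v _ => ?_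
    rw [← Finset.sum_filter, Finset.sum_const, nsmul_eq_mul]
    apply mul_le_mul_of_nonneg_right _ (Nat.cast_nonneg _)
    have h2 : (Bad.image f).filter (fun i => blk A K v = i ∨ blk A K v = i + 1) ⊆
        {blk A K v, blk A K v - 1} := by
      intro i hi
      rw [Finset.mem_filter] at hi
      rw [Finset.mem_insert, Finset.mem_singleton]
      omega
    have h3 := (Finset.card_le_card h2).trans Finset.card_le_two
    exact_mod_cast h3
  have hcard : (Bad.card : ℝ) = ∑ i ∈ Bad.image f, ((Bad.filter (fun e => f e = i)).card : ℝ) := by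
    rw [Finset.card_eq_sum_card_image f Bad]
    push_cast
    rfl
  -- a heavy window
  have hheavy : ∃ i ∈ Bad.image f, ε * ∑ v ∈ winW A K i, (dg A v : ℝ) <
      4 * s * ((Bad.filter (fun e => f e = i)).card : ℝ) := by
    by_contra hno
    push Not at hno
    have h1 : 4 * s * (Bad.card : ℝ) ≤
        ε * ∑ i ∈ Bad.image f, ∑ v ∈ winW A K i, (dg A v : ℝ) := by
      rw [hcard, Finset.mul_sum, Finset.mul_sum]
      exact Finset.sum_le_sum fun i hi => hno i hi
    have h2 : ε * ∑ i ∈ Bad.image f, ∑ v ∈ winW A K i, (dg A v : ℝ) ≤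
        ε * (2 * (2 * s * (Fintype.card ι : ℝ))) :=
      mul_le_mul_of_nonneg_left (hsum.trans (by linarith)) hε.le
    have h3 : 4 * s * (ε * (Fintype.card ι : ℝ)) < 4 * s * (Bad.card : ℝ) :=
      mul_lt_mul_of_pos_left hcon (by linarith)
    linarith
  obtain ⟨i, hi, hlt⟩ := hheavy
  obtain ⟨e₀, he₀, hfe⟩ := Finset.mem_image.1 hi
  have hWne : (winW A K i).Nonempty := by
    have h1 := hf e₀ he₀
    rw [hfe] at h1
    have h2 : (0 : ℝ) < ((A e₀ ∩ winW A K i).card : ℝ) :=
      lt_trans (mul_pos hη hspos) h1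
    have h3 : 0 < (A e₀ ∩ winW A K i).card := by exact_mod_cast h2
    obtain ⟨x, hx⟩ := Finset.card_pos.1 h3
    exact ⟨x, (Finset.mem_inter.1 hx).2⟩
  -- degrees in the window
  have hblk : ∀ v ∈ winW A K i, (K : ℝ) ^ i ≤ dg A v ∧ (dg A v : ℝ) ≤ K ^ 2 * K ^ i := by
    intro v hv
    have h1 : blk A K v = i ∨ blk A K v = i + 1 := (Finset.mem_filter.1 hv).2
    have h2 : (1 : ℝ) ≤ dg A v := (le_max_left _ _).trans (hd v)
    have h3 : dg A v ≠ 0 := by
      have : 1 ≤ dg A v := by exact_mod_cast h2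
      omega
    have h4 : K ^ i ≤ dg A v := by
      refine le_trans ?_ (Nat.pow_log_le_self K h3)
      apply Nat.pow_le_pow_right (by omega)
      show i ≤ blk A K v
      omega
    have h5 : dg A v ≤ K ^ (i + 2) := by
      have h6 : dg A v < K ^ (blk A K v + 1) :=
        Nat.lt_pow_succ_log_self (show 1 < K by omega) (dg A v)
      refine h6.le.trans ?_
      exact Nat.pow_le_pow_right (show 0 < K by omega) (by omega)
    refine ⟨by exact_mod_cast h4, ?_⟩
    have h6 : (dg A v : ℝ) ≤ (K : ℝ) ^ (i + 2) := by exact_mod_cast h5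
    rw [pow_add] at h6
    linarith
  set W := winW A K i with hWdef
  set E := Bad.filter (fun e => f e = i) with hE
  have hWc : (0 : ℝ) < W.card := by exact_mod_cast hWne.card_pos
  have hKi : ε * ((K : ℝ) ^ i * W.card) ≤ 4 * s * (E.card : ℝ) := by
    refine le_trans ?_ hlt.le
    apply mul_le_mul_of_nonneg_left _ hε.le
    have h1 : W.card • (K : ℝ) ^ i ≤ ∑ v ∈ W, (dg A v : ℝ) :=
      Finset.card_nsmul_le_sum W _ _ (fun v hv => (hblk v hv).1)
    rw [nsmul_eq_mul] at h1
    linarith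
  have hΛK : 4 * Λ ≤ ε * (K : ℝ) ^ i := by
    obtain ⟨v, hv⟩ := hWne
    have h1 : 4 * (K : ℝ) ^ 2 * Λ / ε ≤ K ^ 2 * K ^ i :=
      ((le_max_right _ _).trans (hd v)).trans (hblk v hv).2
    rw [div_le_iff₀ hε] at h1
    have h2 : (0 : ℝ) < (K : ℝ) ^ 2 := by positivity
    have h3 : (K : ℝ) ^ 2 * (4 * Λ) ≤ K ^ 2 * (ε * K ^ i) := by linarith
    exact le_of_mul_le_mul_left h3 h2
  refine win_core hlem A s hT hs0 hsz hint W E hWne ?_ ?_ ?_
  · intro e he
    have h1 := Finset.mem_filter.1 he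
    have h2 := hf e h1.1
    rw [h1.2] at h2
    exact h2.le
  · have h1 : 4 * Λ * (W.card : ℝ) ≤ ε * (K : ℝ) ^ i * W.card :=
      mul_le_mul_of_nonneg_right hΛK hWc.le
    nlinarith
  · intro v hv
    have h1 : (dg A v : ℝ) * W.card ≤ K ^ 2 * K ^ i * W.card :=
      mul_le_mul_of_nonneg_right (hblk v hv).2 hWc.le
    refine h1.trans ?_
    rw [div_mul_eq_mul_div, le_div_iff₀ hε]
    have h2 : (K : ℝ) ^ 2 * (ε * ((K : ℝ) ^ i * W.card)) ≤ K ^ 2 * (4 * s * (E.card : ℝ)) :=
      mul_le_mul_of_nonneg_left hKi (by positivity)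
    linarith

end Pool.Agent.Lib.MP_9b5ec2_co
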