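import Mathlib
import Pool.Agent.Lib.MP_9b5ec2_co.Main
import Pool.Agent.Lib.MP_9b5ec2_co.Lin
import Pool.Agent.Lib.MP_9b5ec2_co.WMom
import Pool.Agent.Lib.MP_9b5ec2_co.Freeze
import Pool.Agent.Lib.MP_9b5ec2_co.Codeg
import Pool.Agent.Lib.MP_9b5ec2_co.HeavyEx
import Pool.Agent.Lib.MP_9b5ec2_co.CloseEx
import Pool.Agent.Lib.MP_9b5ec2_co.RtotEx
import Pool.Agent.Lib.MP_9b5ec2_co.DevEx
import Pool.Agent.Lib.MP_9b5ec2_co.Typ
import Pool.Agent.Lib.MP_9b5ec2_co.Loss
import Pool.Agent.Lib.MP_9b5ec2_co.Ripe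
import Pool.Agent.Lib.MP_9b5ec2_co.Gain
import Pool.Agent.Lib.MP_9b5ec2_co.Top
import Pool.Agent.Lib.MP_9b5ec2_co.Good
import Pool.Agent.Lib.MP_9b5ec2_co.Few
import Pool.Agent.Lib.MP_9b5ec2_co.AStep
import Pool.Agent.Lib.MP_9b5ec2_co.Base
import Pool.Agent.Lib.MP_9b5ec2_co.End
import Pool.Agent.Lib.MP_9b5ec2_co.SpreadThm
import Pool.Agent.Lib.MP_9b5ec2_co.Blocks
import Pool.Agent.Lib.MP_9b5ec2_co.Prep
import Pool.Agent.Lib.MP_9b5ec2_co.Window
import Pool.Agent.Lib.MP_9b5ec2_co.GT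
import Pool.Agent.Lib.MP_9b5ec2_co.Ad
import Pool.Agent.Lib.MP_9b5ec2_co.Transfer2

/-! Assembly: the packing theorem and its consequence hold. -/

set_option autoImplicit false

namespace Pool.Agent.Lib.MP_9b5ec2_co

theorem typ_holds : TypStmt :=
  typ (heavyEx codegrees wmom) closeEx (rtotEx codegrees wmom) (devEx lin codegrees) freeze

theorem astep_holds : AStepStmt := astep loss topThm (goodThm ripeness topThm) (few loss gain)

theorem spread_holds : SpreadStmt := spreadThm typ_holds astep_holds (base loss) endThm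

theorem gt_holds : GTStmt := gt spread_holds (prep blocks) (window lemmaB_holds)

theorem ad_holds : AdStmt := ad gt_holds

end Pool.Agent.Lib.MP_9b5ec2_co
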