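import Pool.Agent.Lib.MP_9b5ec2_co.Defs3
import Pool.Agent.Lib.MP_9b5ec2_co.Prep

/-! Preparation, averaged version. -/

set_option autoImplicit false

namespace Pool.Agent.Lib.MP_9b5ec2_co

open Finset

theorem prep2 (h : BlocksStmt) (hF : CDFactsStmt) : Prep2Stmt := by
  intro θ δ₁ ξ hθ hδ hδ1 hξ
  set τ₀ : ℝ := max 0 (Real.log (2 / ξ)) with hτ₀
  have hτ0 : 0 ≤ τ₀ := le_max_left _ _
  have hτexp : 2 * Real.exp (-τ₀) ≤ ξ := by
    have h1 : Real.exp (-τ₀) ≤ Real.exp (-Real.log (2 / ξ)) :=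
      Real.exp_le_exp.2 (neg_le_neg (le_max_right _ _))
    rw [Real.exp_neg (Real.log (2 / ξ)), Real.exp_log (by positivity), inv_div] at h1
    linarith
  obtain ⟨K₁, hK₁⟩ := exists_nat_ge (1024 / δ₁ ^ 2)
  refine ⟨max 2 K₁, le_max_left _ _, ?_⟩
  intro K hK
  have hK2 : 2 ≤ K := (le_max_left _ _).trans hK
  have hK2R : (2 : ℝ) ≤ K := by exact_mod_cast hK2
  have hKb : 1024 / δ₁ ^ 2 ≤ (K : ℝ) := hK₁.trans (by exact_mod_cast (le_max_right _ _).trans hK)
  set ε₂ : ℝ := min 1 (θ * δ₁ ^ 2 / (256 * K * (2 * τ₀ + 4))) with hε₂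
  have hεpos : 0 < ε₂ := lt_min one_pos (by positivity)
  have hεb : ε₂ * (256 * K * (2 * τ₀ + 4)) ≤ θ * δ₁ ^ 2 := by
    have := min_le_right (1 : ℝ) (θ * δ₁ ^ 2 / (256 * K * (2 * τ₀ + 4)))
    rwa [← hε₂, le_div_iff₀ (by positivity)] at this
  refine ⟨ε₂ / 16, by positivity, ?_⟩
  intro V ι _ _ _ _ A s hs hN hA hmass hCD hdg
  set N : ℝ := (Fintype.card ι : ℝ) with hNd
  have hspos : 0 < s := by linarith
  have hNpos : 0 < N := by rw [hNd]; exact_mod_cast hN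
  have htot := prep_sum_dg A
  have htot1 : N * s ≤ 2 * ∑ v, (dg A v : ℝ) := hmass
  have htot2 : ∑ v, (dg A v : ℝ) ≤ 2 * (N * s) := by
    rw [htot]
    calc ∑ e, ((A e).card : ℝ) ≤ ∑ _e : ι, 2 * s := Finset.sum_le_sum fun e _ => hA e
      _ = 2 * (N * s) := by rw [Finset.sum_const, nsmul_eq_mul, Finset.card_univ]; ring
  set V₂ := univ.filter (fun v : V => ε₂ * N < (dg A v : ℝ)) with hV₂
  set Y := univ.filter (fun v : V => (dg A v : ℝ) ≤ ε₂ * N) with hY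
  -- (1)
  have hsq := (hF V ι A s (ε₂ / 16) hspos.le (by positivity) hCD).1
  have hm2 : ∑ v ∈ V₂, (dg A v : ℝ) ≤ N * s / 16 := by
    have h1 : ∑ v ∈ V₂, (dg A v : ℝ) * (ε₂ * N) ≤ ∑ v, (dg A v : ℝ) ^ 2 := by
      refine le_trans (Finset.sum_le_sum fun v hv => ?_)
        (Finset.sum_le_sum_of_subset_of_nonneg (Finset.subset_univ V₂)
          fun v _ _ => sq_nonneg _)
      rw [sq]
      exact mul_le_mul_of_nonneg_left (Finset.mem_filter.1 hv).2.le (Nat.cast_nonneg _)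
    rw [← Finset.sum_mul] at h1
    have h2 : (∑ v ∈ V₂, (dg A v : ℝ)) * (ε₂ * N) ≤ N * s / 16 * (ε₂ * N) := by
      refine h1.trans (hsq.trans (le_of_eq ?_))
      ring
    exact le_of_mul_le_mul_right h2 (by positivity)
  -- (2)
  obtain ⟨X, hXY, hX1, hX2⟩ := h V Y (fun v => (dg A v : ℝ)) (blk A K) K s θ δ₁ τ₀ (ε₂ * N) hK2
    hspos hθ hδ hτ0 (by positivity) (by
      intro v hv
      refine ⟨?_, (Finset.mem_filter.1 hv).2⟩
      have h3 : dg A v ≠ 0 := by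
        have := hdg v
        omega
      unfold blk
      exact_mod_cast Nat.pow_log_le_self K h3)
  have hYle : ∑ v ∈ Y, (dg A v : ℝ) ≤ 2 * (N * s) :=
    (Finset.sum_le_sum_of_subset_of_nonneg (Finset.subset_univ _)
      fun v _ _ => Nat.cast_nonneg _).trans htot2
  have hm3 : ∑ v ∈ Y \ X, (dg A v : ℝ) ≤ N * s / 16 + N * s / 16 := by
    refine hX1.trans ?_
    have hd2 : 0 < δ₁ ^ 2 := by positivity
    have e1 : 16 / δ₁ ^ 2 * (2 / K * ∑ v ∈ Y, (dg A v : ℝ)) ≤ N * s / 16 := by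
      calc 16 / δ₁ ^ 2 * (2 / K * ∑ v ∈ Y, (dg A v : ℝ))
          ≤ 16 / δ₁ ^ 2 * (2 / K * (2 * (N * s))) := by gcongr
        _ = (1024 / δ₁ ^ 2) / K * (N * s / 16) := by ring
        _ ≤ 1 * (N * s / 16) := by
            refine mul_le_mul_of_nonneg_right ?_ (by positivity)
            rw [div_le_one (by positivity)]
            exact hKb
        _ = N * s / 16 := one_mul _
    have e2 : 16 / δ₁ ^ 2 * (s / θ * K * (ε₂ * N) * (2 * τ₀ + 4)) ≤ N * s / 16 := by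
      have e3 : 16 / δ₁ ^ 2 * (s / θ * K * (ε₂ * N) * (2 * τ₀ + 4)) =
          (ε₂ * (256 * K * (2 * τ₀ + 4))) / (θ * δ₁ ^ 2) * (N * s / 16) := by
        field_simp
        ring
      rw [e3]
      calc (ε₂ * (256 * K * (2 * τ₀ + 4))) / (θ * δ₁ ^ 2) * (N * s / 16) ≤ 1 * (N * s / 16) := by
            refine mul_le_mul_of_nonneg_right ?_ (by positivity)
            rw [div_le_one (by positivity)]
            exact hεb
        _ = N * s / 16 := one_mul _
    rw [mul_add]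
    exact add_le_add e1 e2
  refine ⟨X, ?_, ?_⟩
  · have hsplit : ∑ v, (dg A v : ℝ) ≤ ∑ v ∈ V₂, (dg A v : ℝ) +
        (∑ v ∈ Y \ X, (dg A v : ℝ) + ∑ v ∈ X, (dg A v : ℝ)) := by
      rw [Finset.sum_sdiff hXY]
      have h1 : ∑ v, (dg A v : ℝ) ≤ ∑ v ∈ V₂ ∪ Y, (dg A v : ℝ) := by
        refine Finset.sum_le_sum_of_subset_of_nonneg ?_ fun v _ _ => Nat.cast_nonneg _
        intro v _
        rw [Finset.mem_union, hV₂, hY, Finset.mem_filter, Finset.mem_filter]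
        by_cases h3 : ε₂ * N < (dg A v : ℝ)
        · exact Or.inl ⟨Finset.mem_univ _, h3⟩
        · exact Or.inr ⟨Finset.mem_univ _, not_lt.1 h3⟩
      have hnn : ∀ S : Finset V, 0 ≤ ∑ v ∈ S, (dg A v : ℝ) := fun S =>
        Finset.sum_nonneg fun v _ => Nat.cast_nonneg _
      have hun : ∀ S T : Finset V, ∑ v ∈ S ∪ T, (dg A v : ℝ) ≤
          ∑ v ∈ S, (dg A v : ℝ) + ∑ v ∈ T, (dg A v : ℝ) := by
        intro S T
        have := Finset.sum_union_inter (s₁ := S) (s₂ := T) (f := fun v => (dg A v : ℝ))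
        linarith [hnn (S ∩ T)]
      linarith [hun V₂ Y]
    have hNs : 0 < N * s := by positivity
    linarith
  · refine le_trans (le_of_eq ?_) (hX2.trans hτexp)
    refine Finset.sum_congr rfl fun i _ => ?_
    have h1 : X ∩ above A K (i + 2) = X.filter (fun v => i + 2 ≤ blk A K v) := by
      ext v
      simp [above]
    rw [h1]

end Pool.Agent.Lib.MP_9b5ec2_co
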