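import Pool.Agent.Lib.MP_9b5ec2_co.Defs3
import Pool.Agent.Lib.MP_9b5ec2_co.Ex
import Pool.Agent.Lib.MP_9b5ec2_co.RtotEx
import Pool.Agent.Lib.MP_9b5ec2_co.HeavyEx2

/-!
# Expectation of `rtot`, averaged version (MP_9b5ec2_co)
-/

set_option autoImplicit false

namespace Pool.Agent.Lib.MP_9b5ec2_co

open Finset

open RtotExaux in
theorem rtotEx2 (h2 : WMomStmt) : RtotEx2Stmt := by
  intro V ι _ _ _ _ A K I s θ γ η ε hs hθ hθ1 hγ hη hε hA hCD hd hN hS
  have hs0 : 0 < s := by linarith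
  set p : ℝ := θ / s with hp
  have hp0 : 0 ≤ p := by positivity
  have hp1 : p ≤ 1 := by
    rw [hp, div_le_one hs0]
    linarith
  have hdpos : ∀ v, 0 < (dg A v : ℝ) := fun v => by exact_mod_cast hd v
  -- abbreviations
  set m : ℕ → V → ℝ := fun i v => ∑ u ∈ univ.filter (fun u => blk A K u = i), (codeg A u v : ℝ)
    with hm
  set q : ℕ → V → ℝ := fun i v =>
    ∑ u ∈ univ.filter (fun u => blk A K u = i), (codeg A u v : ℝ) ^ 2 with hq
  have hq0 : ∀ i v, 0 ≤ q i v := fun i v => Finset.sum_nonneg fun u _ => by positivity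
  -- the expectation
  have e1 : Ex p univ (fun T => rtot A K I p T) =
      ∑ i ∈ range (I + 1), ∑ v ∈ univ.filter (fun v => blk A K v + 2 ≤ i),
        Ex p univ (fun T => (∑ u ∈ univ.filter (fun u => blk A K u = i) ∩ T, (codeg A u v : ℝ) +
          p * ∑ u ∈ univ.filter (fun u => blk A K u = i), (codeg A u v : ℝ)) ^ 2) *
            (dg A v : ℝ)⁻¹ := by
    unfold rtot
    rw [Ex_sum]
    refine Finset.sum_congr rfl fun i _ => ?_
    rw [Ex_sum]
    refine Finset.sum_congr rfl fun v _ => ?_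
    rw [← Ex_mul_right]
    exact Ex_congr _ _ _ _ fun T _ => by rw [div_eq_mul_inv]
  rw [e1]
  have e2 : ∀ i v, Ex p univ (fun T =>
      (∑ u ∈ univ.filter (fun u => blk A K u = i) ∩ T, (codeg A u v : ℝ) +
          p * ∑ u ∈ univ.filter (fun u => blk A K u = i), (codeg A u v : ℝ)) ^ 2) *
            (dg A v : ℝ)⁻¹ ≤
      4 * p ^ 2 * (∑ e ∈ univ.filter (fun e => v ∈ A e),
        ((A e ∩ univ.filter (fun u => blk A K u = i)).card : ℝ) ^ 2) +
        p * q i v * (dg A v : ℝ)⁻¹ := by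
    intro i v
    have h3 := (h2 V (univ.filter (fun u => blk A K u = i)) (fun u => (codeg A u v : ℝ)) p hp0 hp1
      (fun u => Nat.cast_nonneg _)).2
    have h4 := mul_le_mul_of_nonneg_right h3 (inv_nonneg.mpr (hdpos v).le)
    refine h4.trans ?_
    rw [add_mul]
    apply add_le_add _ (le_of_eq rfl)
    have h5 := sq_codeg A (univ.filter (fun u => blk A K u = i)) v
    set R := ∑ e ∈ univ.filter (fun e => v ∈ A e),
        ((A e ∩ univ.filter (fun u => blk A K u = i)).card : ℝ) ^ 2 with hR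
    have h6 : 4 * (p * ∑ u ∈ univ.filter (fun u => blk A K u = i), (codeg A u v : ℝ)) ^ 2 *
        (dg A v : ℝ)⁻¹ = 4 * p ^ 2 *
          ((∑ u ∈ univ.filter (fun u => blk A K u = i), (codeg A u v : ℝ)) ^ 2 *
            (dg A v : ℝ)⁻¹) := by ring
    rw [h6]
    apply mul_le_mul_of_nonneg_left _ (by positivity)
    rw [← div_eq_mul_inv, div_le_iff₀ (hdpos v), mul_comm]
    exact h5
  have e3 : ∑ i ∈ range (I + 1), ∑ v ∈ univ.filter (fun v => blk A K v + 2 ≤ i),
        Ex p univ (fun T => (∑ u ∈ univ.filter (fun u => blk A K u = i) ∩ T, (codeg A u v : ℝ) +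
          p * ∑ u ∈ univ.filter (fun u => blk A K u = i), (codeg A u v : ℝ)) ^ 2) *
            (dg A v : ℝ)⁻¹ ≤
      (∑ i ∈ range (I + 1), ∑ v ∈ univ.filter (fun v => blk A K v + 2 ≤ i),
        4 * p ^ 2 * (∑ e ∈ univ.filter (fun e => v ∈ A e),
        ((A e ∩ univ.filter (fun u => blk A K u = i)).card : ℝ) ^ 2)) +
      ∑ i ∈ range (I + 1), ∑ v ∈ univ.filter (fun v => blk A K v + 2 ≤ i),
        p * q i v * (dg A v : ℝ)⁻¹ := by
    rw [← Finset.sum_add_distrib]
    refine Finset.sum_le_sum fun i _ => ?_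
    rw [← Finset.sum_add_distrib]
    exact Finset.sum_le_sum fun v _ => e2 i v
  refine e3.trans ?_
  -- first part
  have f1 : ∑ i ∈ range (I + 1), ∑ v ∈ univ.filter (fun v => blk A K v + 2 ≤ i),
        4 * p ^ 2 * (∑ e ∈ univ.filter (fun e => v ∈ A e),
        ((A e ∩ univ.filter (fun u => blk A K u = i)).card : ℝ) ^ 2) ≤
      4 * p ^ 2 * (4 * (η + 2 * ε) * s ^ 3 * (Fintype.card ι : ℝ)) := by
    have h3 := first A K I s η ε hs hη hε hA hS
    refine le_trans ?_ (mul_le_mul_of_nonneg_left h3 (show 0 ≤ 4 * p ^ 2 by positivity))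
    rw [Finset.mul_sum]
    refine Finset.sum_le_sum fun i _ => ?_
    rw [← Finset.mul_sum]
    apply mul_le_mul_of_nonneg_left _ (by positivity)
    refine Finset.sum_le_sum_of_subset_of_nonneg (Finset.filter_subset _ _) fun v _ _ => ?_
    exact Finset.sum_nonneg fun e _ => by positivity
  have f2 : 4 * p ^ 2 * (4 * (η + 2 * ε) * s ^ 3 * (Fintype.card ι : ℝ)) ≤
      64 * (η + 2 * ε) * mass A := by
    have e4 : 4 * p ^ 2 * (4 * (η + 2 * ε) * s ^ 3 * (Fintype.card ι : ℝ)) =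
        θ ^ 2 * (16 * (η + 2 * ε) * ((Fintype.card ι : ℝ) * s)) := by
      rw [hp]
      field_simp
      ring
    rw [e4]
    have h3 : θ ^ 2 ≤ 1 := pow_le_one₀ hθ.le hθ1
    have h4 : 0 ≤ 16 * (η + 2 * ε) * ((Fintype.card ι : ℝ) * s) := by positivity
    have h5 : 16 * (η + 2 * ε) * ((Fintype.card ι : ℝ) * s) ≤ 16 * (η + 2 * ε) * (4 * mass A) :=
      mul_le_mul_of_nonneg_left hN (by positivity)
    calc θ ^ 2 * (16 * (η + 2 * ε) * ((Fintype.card ι : ℝ) * s)) ≤
          1 * (16 * (η + 2 * ε) * ((Fintype.card ι : ℝ) * s)) :=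
          mul_le_mul_of_nonneg_right h3 h4
      _ ≤ 64 * (η + 2 * ε) * mass A := by linarith
  -- second part
  have g1 : ∑ i ∈ range (I + 1), ∑ v ∈ univ.filter (fun v => blk A K v + 2 ≤ i),
        p * q i v * (dg A v : ℝ)⁻¹ =
      ∑ v, p * (dg A v : ℝ)⁻¹ * ∑ i ∈ (range (I + 1)).filter (fun i => blk A K v + 2 ≤ i),
        q i v := by
    have h3 : ∀ i ∈ range (I + 1), ∑ v ∈ univ.filter (fun v => blk A K v + 2 ≤ i),
        p * q i v * (dg A v : ℝ)⁻¹ =
        ∑ v, if blk A K v + 2 ≤ i then p * q i v * (dg A v : ℝ)⁻¹ else 0 :=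
      fun i _ => Finset.sum_filter _ _
    rw [Finset.sum_congr rfl h3, Finset.sum_comm]
    refine Finset.sum_congr rfl fun v _ => ?_
    rw [← Finset.sum_filter, Finset.mul_sum]
    exact Finset.sum_congr rfl fun i _ => by ring
  have g2 : ∀ v, ∑ i ∈ (range (I + 1)).filter (fun i => blk A K v + 2 ≤ i), q i v ≤
      γ * s * (dg A v : ℝ) ^ 2 := by
    intro v
    refine le_trans ?_ (cd_erase_le A s γ hCD v)
    refine sum_block_le (blk A K) _ (fun u => (codeg A u v : ℝ) ^ 2) (univ.erase v)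
      (fun u => by positivity) ?_
    intro u hu
    have := (Finset.mem_filter.mp hu).2
    refine Finset.mem_erase.mpr ⟨?_, Finset.mem_univ u⟩
    rintro rfl
    omega
  have g3 : ∑ v, p * (dg A v : ℝ)⁻¹ * ∑ i ∈ (range (I + 1)).filter
        (fun i => blk A K v + 2 ≤ i), q i v ≤ ∑ v : V, γ * (dg A v : ℝ) := by
    refine Finset.sum_le_sum fun v _ => ?_
    have h3 := mul_le_mul_of_nonneg_left (g2 v)
      (show 0 ≤ p * (dg A v : ℝ)⁻¹ from mul_nonneg hp0 (inv_nonneg.mpr (hdpos v).le))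
    refine h3.trans ?_
    have hd0 := hdpos v
    have e4 : p * (dg A v : ℝ)⁻¹ * (γ * s * (dg A v : ℝ) ^ 2) =
        θ * (γ * (dg A v : ℝ)) := by
      rw [hp]
      field_simp
    rw [e4]
    have h5 : 0 ≤ γ * (dg A v : ℝ) := mul_nonneg hγ hd0.le
    nlinarith
  rw [g1]
  have g4 : ∑ v : V, γ * (dg A v : ℝ) = γ * mass A := by
    rw [← Finset.mul_sum]
    rfl
  rw [g4] at g3
  have g5 := f1.trans f2
  calc _ ≤ 64 * (η + 2 * ε) * mass A + γ * mass A := add_le_add g5 g3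
    _ = (64 * (η + 2 * ε) + γ) * mass A := by ring

end Pool.Agent.Lib.MP_9b5ec2_co
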