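import Pool.Agent.Lib.MP_9b5ec2_co.Defs3
import Pool.Agent.Lib.MP_9b5ec2_co.Ex

/-!
# Random subfamilies without conflicts (MP_9b5ec2_co)
-/

set_option autoImplicit false

namespace Pool.Agent.Lib.MP_9b5ec2_co

open Finset

theorem sample_max {V : Type} [DecidableEq V] {p : ℝ} (h0 : 0 ≤ p) (h1 : p ≤ 1) (X : Finset V)
    (g : Finset V → ℝ) (c : ℝ) (h : c ≤ Ex p X g) : ∃ T, T ⊆ X ∧ c ≤ g T := by
  obtain ⟨T, hT, hmax⟩ := Finset.exists_max_image X.powerset g ⟨∅, by simp⟩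
  refine ⟨T, Finset.mem_powerset.1 hT, h.trans ?_⟩
  have := Ex_mono h0 h1 X g (fun _ => g T) fun S hS => hmax S (Finset.mem_powerset.2 hS)
  rwa [Ex_const] at this

theorem sample_deg {V ι : Type} [DecidableEq V] [DecidableEq ι] (A : ι → Finset V)
    (E T : Finset ι) (v : V) :
    (deg A (E ∩ T) v : ℝ) = ∑ _u ∈ (E.filter (fun e => v ∈ A e)) ∩ T, (1 : ℝ) := by
  unfold deg
  rw [Finset.sum_const, nsmul_eq_mul, mul_one]
  congr 2
  ext e
  simp only [Finset.mem_filter, Finset.mem_inter]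
  tauto

theorem sample_deg_mono {V ι : Type} [DecidableEq V] (A : ι → Finset V)
    {F G : Finset ι} (h : F ⊆ G) (v : V) : (deg A F v : ℝ) ≤ (deg A G v : ℝ) := by
  unfold deg
  exact_mod_cast Finset.card_le_card (Finset.filter_subset_filter _ h)

theorem sample (h : WMomStmt) : SampleStmt := by
  intro V ι _ _ _ _ A W E C q μ b hq0 hq1 hμ hb hdeg hC
  -- the expectation
  have e1 : Ex q univ (fun T => ((T ∩ E).card : ℝ)) = q * (E.card : ℝ) := by
    rw [Ex_card_inter, Finset.univ_inter]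
  have e2 : Ex q univ (fun T => ∑ c ∈ C, if c.1 ∈ T ∧ c.2 ∈ T then (1 : ℝ) else 0) =
      q ^ 2 * (C.card : ℝ) := by
    rw [Ex_sum, Finset.sum_congr rfl fun c hc =>
      Ex_pair q univ (Finset.mem_univ _) (Finset.mem_univ _) (hC c hc).2.2, Finset.sum_const,
      nsmul_eq_mul, mul_comm]
  have e3 : Ex q univ (fun T => ∑ v ∈ W, if 2 * μ < (deg A (E ∩ T) v : ℝ) then
      (deg A (E ∩ T) v : ℝ) else 0) ≤ 2 * (W.card : ℝ) := by
    rw [Ex_sum]
    have : ∀ v ∈ W, Ex q univ (fun T => if 2 * μ < (deg A (E ∩ T) v : ℝ) then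
      (deg A (E ∩ T) v : ℝ) else 0) ≤ 2 := by
      intro v hv
      have hU : (((E.filter (fun e => v ∈ A e)).card : ℕ) : ℝ) = (deg A E v : ℝ) := rfl
      have h1 := (h ι (E.filter (fun e => v ∈ A e)) (fun _ => 1) q hq0 hq1
        (fun _ => zero_le_one)).1 μ hμ (by
          rw [Finset.sum_const, nsmul_eq_mul, mul_one, hU]
          exact hdeg v hv)
      simp only [← sample_deg] at h1
      refine h1.trans ?_
      rw [div_le_iff₀ hμ]
      have h2 := hdeg v hv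
      simp only [one_pow, Finset.sum_const, nsmul_eq_mul, mul_one, hU]
      linarith
    refine (Finset.sum_le_sum this).trans ?_
    rw [Finset.sum_const, nsmul_eq_mul, mul_comm]
  set g : Finset ι → ℝ := fun T => ((T ∩ E).card : ℝ) -
    (∑ c ∈ C, if c.1 ∈ T ∧ c.2 ∈ T then (1 : ℝ) else 0) -
    b * ∑ v ∈ W, if 2 * μ < (deg A (E ∩ T) v : ℝ) then (deg A (E ∩ T) v : ℝ) else 0 with hg
  have e4 : q * (E.card : ℝ) - q ^ 2 * (C.card : ℝ) - 2 * b * (W.card : ℝ) ≤ Ex q univ g := by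
    rw [hg, Ex_sub, Ex_sub, Ex_mul_left, e1, e2]
    nlinarith
  obtain ⟨T, -, hT⟩ := sample_max hq0 hq1 univ g _ e4
  set F₁ : Finset ι := E ∩ T with hF₁
  set F : Finset ι := F₁.filter (fun e => ∀ f ∈ F₁, (e, f) ∉ C) with hF
  have hFF : F ⊆ F₁ := Finset.filter_subset _ _
  refine ⟨F, hFF.trans Finset.inter_subset_left, ?_, ?_⟩
  · intro e he f hf
    exact (Finset.mem_filter.1 he).2 f (hFF hf)
  -- the cardinality
  have c1 : (F₁.card : ℝ) - (∑ c ∈ C, if c.1 ∈ T ∧ c.2 ∈ T then (1 : ℝ) else 0) ≤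
      (F.card : ℝ) := by
    have h1 : (∑ c ∈ C, if c.1 ∈ T ∧ c.2 ∈ T then (1 : ℝ) else 0) =
        ((C.filter (fun c => c.1 ∈ T ∧ c.2 ∈ T)).card : ℝ) := by
      rw [← Finset.sum_filter, Finset.sum_const, nsmul_eq_mul, mul_one]
    have h2 : F₁ \ F ⊆ (C.filter (fun c => c.1 ∈ T ∧ c.2 ∈ T)).image Prod.fst := by
      intro e he
      obtain ⟨he1, he2⟩ := Finset.mem_sdiff.1 he
      have h3 : ¬ ∀ f ∈ F₁, (e, f) ∉ C := fun h3 => he2 (Finset.mem_filter.2 ⟨he1, h3⟩)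
      push Not at h3
      obtain ⟨f, hf, hef⟩ := h3
      refine Finset.mem_image.2 ⟨(e, f), Finset.mem_filter.2 ⟨hef, ?_, ?_⟩, rfl⟩
      · exact (Finset.mem_inter.1 he1).2
      · exact (Finset.mem_inter.1 hf).2
    have h4 := (Finset.card_le_card h2).trans Finset.card_image_le
    have h5 : F₁.card = (F₁ \ F).card + F.card := by
      rw [Finset.card_sdiff_add_card_eq_card hFF]
    rw [h1]
    have h6 : (F₁.card : ℝ) = ((F₁ \ F).card : ℝ) + (F.card : ℝ) := by exact_mod_cast h5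
    have h7 : ((F₁ \ F).card : ℝ) ≤ ((C.filter (fun c => c.1 ∈ T ∧ c.2 ∈ T)).card : ℝ) := by
      exact_mod_cast h4
    linarith
  have c2 : ∑ v ∈ W.filter (fun v => 2 * μ < (deg A F v : ℝ)), (deg A F v : ℝ) ≤
      ∑ v ∈ W, if 2 * μ < (deg A F₁ v : ℝ) then (deg A F₁ v : ℝ) else 0 := by
    rw [Finset.sum_filter]
    refine Finset.sum_le_sum fun v _ => ?_
    have hm := sample_deg_mono A hFF v
    by_cases h1 : 2 * μ < (deg A F v : ℝ)
    · rw [if_pos h1, if_pos (h1.trans_le hm)]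
      exact hm
    · rw [if_neg h1]
      split_ifs
      · positivity
      · exact le_rfl
  have c3 : ((T ∩ E).card : ℝ) = (F₁.card : ℝ) := by rw [hF₁, Finset.inter_comm]
  simp only [hg] at hT
  rw [c3] at hT
  have c4 := mul_le_mul_of_nonneg_left c2 hb
  linarith

end Pool.Agent.Lib.MP_9b5ec2_co
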