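import Pool.Agent.Lib.MP_9b5ec2_co.Defs3
import Pool.Agent.Lib.MP_9b5ec2_co.SpreadThm

set_option autoImplicit false

/-!
# MP_9b5ec2_co: spread families are impossible in `TwoCol m`, averaged version
-/

namespace Pool.Agent.Lib.MP_9b5ec2_co

open Finset

theorem spread2 (h1 : Typ2Stmt) (h2 : AStepStmt) (h3 : BaseStmt) (h4 : EndStmt) :
    Spread2Stmt := by
  intro m hm
  set y : ℝ := spreadX (2 * m) with hy
  have y0 : 0 < y := (spreadX_pos _).1
  have y1 : y ≤ 1 / 2 := (spreadX_pos _).2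
  set δ : ℝ := y ^ 2 / 100 with hδ
  have δ0 : 0 < δ := by positivity
  have yy : y ^ 2 ≤ y := by nlinarith
  have δy : δ ≤ y / 100 := by rw [hδ]; linarith
  have δ8 : δ ≤ 1 / 8 := by linarith
  have δ1 : δ ≤ 1 := by linarith
  have δ3 : 0 < δ ^ 3 := by positivity
  have δ31 : δ ^ 3 ≤ 1 := pow_le_one₀ δ0.le δ1
  set κ : ℝ := δ ^ 3 / 12288 with hκ
  have κ0 : 0 < κ := by positivity
  have y5 : 0 < y ^ 5 := by positivity
  have κy : 2 * κ ≤ y ^ 5 / 147456 := by
    have e : δ ^ 3 = y ^ 5 * y / 1000000 := by rw [hδ]; ring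
    have e2 : y ^ 5 * y ≤ y ^ 5 * 1 := mul_le_mul_of_nonneg_left (by linarith) y5.le
    rw [hκ, e]
    linarith
  have κy1 : κ ≤ y ^ 5 / 147456 := by linarith
  let J : Type := (Bool × Fin (2 * m + 1)) ⊕ (Fin (2 * m) × (Bool → Fin (2 * m + 1)) × Bool)
  set cJ : ℝ := (Fintype.card J : ℝ) with hcJ
  have cJ0 : 0 ≤ cJ := Nat.cast_nonneg _
  refine ⟨1 / 8, δ ^ 3 / 4, κ, κ, δ ^ 3 / 64, 1 / (8 * (cJ + 1)), by norm_num,
    by norm_num, by positivity, by linarith, κ0, κ0, by rw [hκ]; linarith, by positivity,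
    by linarith, by positivity, ?_⟩
  intro V ι _ _ _ _ A K s hK hs hTC hV hsz hCD hd1 hNs hSp hbl
  -- the typical set
  let Φ : J → Prd V ι := Sum.elim (fun q => stPrd A K q.1 (q.2 : ℕ))
    (fun q => stepPrd A K s (spreadX (q.1 : ℕ) ^ 4 / 1536) (fun c => (q.2.1 c : ℕ))
      (spreadX (q.1 : ℕ)) q.2.2)
  obtain ⟨T, hHeavy, hClose, hΦ⟩ := h1 V ι J A K s (1 / 8) (δ ^ 3 / 64) κ κ δ
    (δ ^ 3 / 4) Φ hK hs (by norm_num) (by norm_num) (by positivity) κ0.le κ0.le δ0 δ1
    (by positivity) le_rfl hV hsz hCD hd1 hNs hSp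
    (by
      rw [hκ]
      linarith)
    (by
      have e : 2 * cJ * blockSum A K s (1 / 8) (δ ^ 3 / 4) ≤ 2 * cJ * (1 / (8 * (cJ + 1))) :=
        mul_le_mul_of_nonneg_left hbl (by positivity)
      refine e.trans ?_
      rw [mul_one_div, div_le_div_iff₀ (by positivity) (by norm_num)]
      linarith)
  -- the colouring
  obtain ⟨R, hR⟩ := hTC T
  set W : Finset V := R ∩ T with hW
  have hWT : W ⊆ T := inter_subset_right
  have hcol : ∀ e, m ≤ (A e ∩ T).card → (A e ∩ T ∩ W).Nonempty ∧ ((A e ∩ T) \ W).Nonempty := by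
    intro e he
    obtain ⟨⟨u, hu⟩, ⟨v, hv⟩⟩ := hR e he
    rw [mem_inter] at hu
    rw [mem_sdiff] at hv
    refine ⟨⟨u, ?_⟩, ⟨v, ?_⟩⟩
    · exact mem_inter.2 ⟨hu.1, mem_inter.2 ⟨hu.2, (mem_inter.1 hu.1).2⟩⟩
    · exact mem_sdiff.2 ⟨hv.1, fun h => hv.2 (mem_inter.1 h).1⟩
  have hM : 0 < mass A := by
    unfold mass
    have : Nonempty V := Fintype.card_pos_iff.1 hV
    apply sum_pos
    · intro v _
      have : (1 : ℝ) ≤ (dg A v : ℝ) := by exact_mod_cast hd1 v
      linarith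
    · exact univ_nonempty
  -- the predicates
  have hst : ∀ (c : Bool) (b : ℕ), b ≤ 2 * m → Fair A K (1 / 8 / s) δ T (stPrd A K c b) ∧
      Glob A K (1 / 8 / s) δ T (stPrd A K c b) := by
    intro c b hb
    exact hΦ (Sum.inl (c, ⟨b, by omega⟩))
  have hstep : ∀ (r : ℕ) (a : Bool → ℕ) (c : Bool), r < 2 * m → (∀ c, a c ≤ 2 * m) →
      Fair A K (1 / 8 / s) δ T (stepPrd A K s (spreadX r ^ 4 / 1536) a (spreadX r) c) := by
    intro r a c hr ha
    exact (hΦ (Sum.inr (⟨r, hr⟩, (fun c => ⟨a c, by have := ha c; omega⟩), c))).1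
  -- the induction
  have ind : ∀ r : ℕ, r ≤ 2 * m - 1 → ∃ a : Bool → ℕ, a true + a false = r ∧
      spreadX r * mass A ≤ ∑ v ∈ reg A K T W a (spreadX r), (dg A v : ℝ) := by
    intro r
    induction r with
    | zero =>
      intro _
      refine ⟨fun _ => 0, rfl, ?_⟩
      exact h3 V ι A K s (1 / 8) δ T W hs (by norm_num) (by norm_num) δ0 δ8 hsz hd1 hWT hClose
        (fun c => (hst c 0 (Nat.zero_le _)).1)
    | succ r ih =>
      intro hr
      obtain ⟨a, ha, hreg⟩ := ih (by omega)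
      have hac : ∀ c, a c ≤ r := by
        intro c
        cases c <;> omega
      have hxr := spreadX_pos r
      have hyr : y ≤ spreadX (r + 1) := spreadX_anti (by omega)
      have hyr' : y ≤ spreadX r := spreadX_anti (by omega)
      have hy5 : y ^ 5 ≤ spreadX r ^ 5 := pow_le_pow_left₀ y0.le hyr' 5
      obtain ⟨c, hc⟩ := h2 V ι A K s (1 / 8) δ κ κ (spreadX r) T W a hs (by norm_num)
        (by norm_num) hxr.1 (by linarith [hxr.2]) δ0
        (by
          have : nextX (1 / 8) (spreadX r) = spreadX (r + 1) := rfl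
          rw [this]
          linarith)
        κ0.le (by linarith) κ0.le (by linarith) hsz hd1 hM hNs hSp hWT hHeavy hClose
        (fun c => (hst c (a c) (by have := hac c; omega)).1)
        (fun c => (hst c (a c + 1) (by have := hac c; omega)).1)
        (fun c => hstep r a c (by omega) (fun c => by have := hac c; omega)) hreg
      refine ⟨Function.update a c (a c + 1), ?_, hc⟩
      cases c
      · rw [Function.update_self, Function.update_of_ne (by decide)]
        omega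
      · rw [Function.update_self, Function.update_of_ne (by decide)]
        omega
  obtain ⟨a, ha, hreg⟩ := ind (2 * m - 1) le_rfl
  have hyr : y ≤ spreadX (2 * m - 1) := spreadX_anti (by omega)
  have hc : ∃ c, m ≤ a c := by
    by_contra hcon
    push Not at hcon
    have e1 := hcon true
    have e2 := hcon false
    omega
  obtain ⟨c, hc⟩ := hc
  have hac : a c ≤ 2 * m := by
    cases c <;> omega
  refine h4 V ι A K m s (1 / 8) δ (spreadX (2 * m - 1)) T W a c hs (by norm_num) (by norm_num)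
    δ0 δ1 (spreadX_pos _).1 ?_ hsz hM hWT hClose (hst c (a c) hac).2 hc hcol hreg
  have e1 : y ^ 2 ≤ spreadX (2 * m - 1) ^ 2 := pow_le_pow_left₀ y0.le hyr 2
  have e2 : 0 < y ^ 2 := by positivity
  rw [hδ]
  linarith

end Pool.Agent.Lib.MP_9b5ec2_co
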