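import Pool.Agent.Lib.MP_9b5ec2_co.Defs3

/-!
# Traces of a hypergraph with 2-colourable traces (Sauer-Shelah)
-/

set_option autoImplicit false

namespace Pool.Agent.Lib.MP_9b5ec2_co

open Finset

open Classical in
theorem trace (h : VCStmt) : TraceStmt := by
  intro m V ι _ A hm hA Q
  set Ps : Finset (Finset V) := Q.powerset.filter (fun P => ∃ j, A j ∩ Q = P) with hPs
  have hmem : ∀ P, P ∈ Ps ↔ P ⊆ Q ∧ ∃ j, A j ∩ Q = P := by
    intro P
    rw [hPs, mem_filter, mem_powerset]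
  refine ⟨Ps, fun j => (hmem _).2 ⟨inter_subset_right, j, rfl⟩, fun P hP => ((hmem P).1 hP).1, ?_⟩
  refine le_trans (Finset.card_le_card_shatterer _) (card_le_card ?_)
  intro s hs
  rw [Finset.mem_shatterer] at hs
  have hsQ : s ⊆ Q := by
    obtain ⟨u, hu, hsu⟩ := hs (Finset.Subset.refl s)
    intro x hx
    rw [← hsu] at hx
    exact ((hmem u).1 hu).1 (mem_inter.1 hx).2
  rw [mem_filter, mem_powerset]
  refine ⟨hsQ, ?_⟩
  by_contra hcon
  obtain ⟨s', hs's, hs'c⟩ := Finset.exists_subset_card_eq (show 2 * m - 1 ≤ s.card by omega)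
  refine h m V ι A hm hA s' hs'c ?_
  intro X hX
  obtain ⟨u, hu, hsu⟩ := hs (t := X) (hX.trans hs's)
  obtain ⟨-, e, he⟩ := (hmem u).1 hu
  refine ⟨e, ?_⟩
  ext v
  rw [mem_inter]
  constructor
  · rintro ⟨hvA, hvs'⟩
    have hvu : v ∈ u := by
      rw [← he]
      exact mem_inter.2 ⟨hvA, hsQ (hs's hvs')⟩
    rw [← hsu]
    exact mem_inter.2 ⟨hs's hvs', hvu⟩
  · intro hv
    refine ⟨?_, hX hv⟩
    rw [← hsu, mem_inter, ← he, mem_inter] at hv
    exact hv.2.1

end Pool.Agent.Lib.MP_9b5ec2_co
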