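import Mathlib
import Pool.Agent.Lib.MP_9b5ec2_co.Defs3

/-!
# Trimming a nearly perfect fractional packing (MP_9b5ec2_co)

Proves `TrimStmt`.
-/

set_option autoImplicit false

namespace Pool.Agent.Lib.MP_9b5ec2_co

open Finset

theorem trim_mass {V ι : Type} [Fintype V] [DecidableEq V] [Fintype ι] (A : ι → Finset V)
    (y : ι → ℝ) : ∑ v, fdeg A y v = ∑ i, y i * ((A i).card : ℝ) := by
  unfold fdeg
  simp only [Finset.sum_filter]
  rw [Finset.sum_comm]
  refine Finset.sum_congr rfl fun i _ => ?_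
  rw [← Finset.sum_filter, Finset.sum_const, nsmul_eq_mul, mul_comm]
  congr 2
  simp

theorem trim_fdeg_mono {V ι : Type} [DecidableEq V] [Fintype ι] (A : ι → Finset V)
    (y z : ι → ℝ) (h : ∀ i, y i ≤ z i) (v : V) : fdeg A y v ≤ fdeg A z v :=
  Finset.sum_le_sum fun i _ => h i

theorem trim_fdeg_nonneg {V ι : Type} [DecidableEq V] [Fintype ι] (A : ι → Finset V)
    (y : ι → ℝ) (h : ∀ i, 0 ≤ y i) (v : V) : 0 ≤ fdeg A y v :=
  Finset.sum_nonneg fun i _ => h i

/-- the pair estimate for one point -/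
theorem trim_pairs {V ι : Type} [DecidableEq V] [Fintype ι] (A : ι → Finset V)
    (z y : ι → ℝ) (s ε' : ℝ) (hs : 0 < s) (hε : 0 ≤ ε')
    (hz : ∀ i, 0 ≤ z i) (hy : ∀ i, y i = if ((A i).card : ℝ) ≤ 2 * s then z i else 0) (v : V) :
    ∑ i ∈ univ.filter (fun i => v ∈ A i), ∑ j ∈ univ.filter (fun j => v ∈ A j),
        y i * y j * ((A i ∩ A j).card : ℝ) ≤
      ε' * s * (fdeg A y v) ^ 2 + 2 * s *
        ∑ i ∈ univ.filter (fun i => v ∈ A i ∧ ((A i).card : ℝ) ≤ 2 * s),
          ∑ j ∈ univ.filter (fun j => v ∈ A j ∧ ε' * s ≤ ((A i ∩ A j).card : ℝ)), z i * z j := by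
  have hy0 : ∀ i, 0 ≤ y i := by
    intro i
    rw [hy i]
    split_ifs
    · exact hz i
    · exact le_refl 0
  have hyz : ∀ i, y i ≤ z i := by
    intro i
    rw [hy i]
    split_ifs
    · exact le_refl _
    · exact hz i
  have e1 : ε' * s * (fdeg A y v) ^ 2 =
      ∑ i ∈ univ.filter (fun i => v ∈ A i), ∑ j ∈ univ.filter (fun j => v ∈ A j),
        ε' * s * (y i * y j) := by
    rw [sq]
    unfold fdeg
    rw [Finset.sum_mul_sum, Finset.mul_sum]
    refine Finset.sum_congr rfl fun i _ => ?_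
    rw [Finset.mul_sum]
  have e2 : 2 * s *
        ∑ i ∈ univ.filter (fun i => v ∈ A i ∧ ((A i).card : ℝ) ≤ 2 * s),
          ∑ j ∈ univ.filter (fun j => v ∈ A j ∧ ε' * s ≤ ((A i ∩ A j).card : ℝ)), z i * z j =
      ∑ i ∈ univ.filter (fun i => v ∈ A i), ∑ j ∈ univ.filter (fun j => v ∈ A j),
        (if ((A i).card : ℝ) ≤ 2 * s then
          (if ε' * s ≤ ((A i ∩ A j).card : ℝ) then 2 * s * (z i * z j) else 0) else 0) := by
    rw [← Finset.filter_filter, Finset.mul_sum, Finset.sum_filter]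
    refine Finset.sum_congr rfl fun i _ => ?_
    by_cases h : ((A i).card : ℝ) ≤ 2 * s
    · rw [if_pos h, ← Finset.filter_filter, Finset.mul_sum, Finset.sum_filter]
      refine Finset.sum_congr rfl fun j _ => ?_
      rw [if_pos h]
    · rw [if_neg h]
      symm
      refine Finset.sum_eq_zero fun j _ => ?_
      rw [if_neg h]
  rw [e1, e2, ← Finset.sum_add_distrib]
  refine Finset.sum_le_sum fun i _ => ?_
  rw [← Finset.sum_add_distrib]
  refine Finset.sum_le_sum fun j _ => ?_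
  have hij : 0 ≤ y i * y j := mul_nonneg (hy0 i) (hy0 j)
  have hzz : 0 ≤ z i * z j := mul_nonneg (hz i) (hz j)
  by_cases h : ((A i).card : ℝ) ≤ 2 * s
  · rw [if_pos h]
    by_cases h' : ε' * s ≤ ((A i ∩ A j).card : ℝ)
    · rw [if_pos h']
      have c1 : ((A i ∩ A j).card : ℝ) ≤ 2 * s := by
        refine le_trans ?_ h
        exact_mod_cast Finset.card_le_card Finset.inter_subset_left
      have c2 : y i * y j ≤ z i * z j :=
        mul_le_mul (hyz i) (hyz j) (hy0 j) (hz i)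
      have c3 : y i * y j * ((A i ∩ A j).card : ℝ) ≤ (z i * z j) * (2 * s) :=
        mul_le_mul c2 c1 (Nat.cast_nonneg _) hzz
      have c4 : 0 ≤ ε' * s * (y i * y j) := mul_nonneg (mul_nonneg hε hs.le) hij
      linarith
    · rw [if_neg h', add_zero, mul_comm (ε' * s)]
      exact mul_le_mul_of_nonneg_left (not_le.mp h').le hij
  · rw [if_neg h, hy i, if_neg h]
    simp

theorem trim : TrimStmt := by
  intro V ι _ _ _ _ A c z s ε' δ hs hε hδ hA hc hP hz hpair
  obtain ⟨hz0, hzc⟩ := hP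
  set S : ℝ := ∑ v, c v with hS
  set y : ι → ℝ := fun i => if ((A i).card : ℝ) ≤ 2 * s then z i else 0 with hy
  have hyi : ∀ i, y i = if ((A i).card : ℝ) ≤ 2 * s then z i else 0 := fun i => rfl
  have hy0 : ∀ i, 0 ≤ y i := by
    intro i
    rw [hyi i]
    split_ifs
    · exact hz0 i
    · exact le_refl 0
  have hyz : ∀ i, y i ≤ z i := by
    intro i
    rw [hyi i]
    split_ifs
    · exact le_refl _
    · exact hz0 i
  have hc0 : ∀ v, 0 ≤ c v := fun v => le_trans (trim_fdeg_nonneg A z hz0 v) (hzc v)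
  -- mass
  have m1 : ∑ i, z i * ((A i).card : ℝ) ≤ S := by
    rw [← trim_mass]
    exact Finset.sum_le_sum fun v _ => hzc v
  have m2 : s * ∑ i, z i - s * ∑ i, y i ≤ ∑ i, z i * ((A i).card : ℝ) - s * ∑ i, z i := by
    rw [Finset.mul_sum, Finset.mul_sum, ← Finset.sum_sub_distrib, ← Finset.sum_sub_distrib]
    refine Finset.sum_le_sum fun i _ => ?_
    rw [hyi i]
    by_cases h : ((A i).card : ℝ) ≤ 2 * s
    · rw [if_pos h]
      have := mul_le_mul_of_nonneg_left (hA i) (hz0 i)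
      linarith
    · rw [if_neg h]
      have := mul_le_mul_of_nonneg_left (not_le.mp h).le (hz0 i)
      linarith
  have m3 : (11 / 12) * S ≤ s * ∑ i, y i := by linarith
  have m4 : s * ∑ i, y i ≤ ∑ v, fdeg A y v := by
    rw [trim_mass, Finset.mul_sum]
    refine Finset.sum_le_sum fun i _ => ?_
    have := mul_le_mul_of_nonneg_left (hA i) (hy0 i)
    linarith
  have hd0 : ∀ v, 0 ≤ fdeg A y v := trim_fdeg_nonneg A y hy0
  have hdc : ∀ v, fdeg A y v ≤ c v := fun v => le_trans (trim_fdeg_mono A y z hyz v) (hzc v)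
  set X : Finset V := univ.filter (fun v => 0 < c v ∧ c v ≤ 2 * fdeg A y v) with hX
  have m5 : ∑ v ∈ univ.filter (fun v => ¬ (0 < c v ∧ c v ≤ 2 * fdeg A y v)), fdeg A y v ≤
      S - ∑ v, fdeg A y v := by
    rw [hS, ← Finset.sum_sub_distrib]
    refine le_trans (Finset.sum_le_sum (g := fun v => c v - fdeg A y v) fun v hv => ?_)
      (Finset.sum_le_sum_of_subset_of_nonneg (Finset.filter_subset _ _) fun v _ _ => ?_)
    · rw [Finset.mem_filter] at hv
      by_cases h : 0 < c v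
      · have : ¬ c v ≤ 2 * fdeg A y v := fun h' => hv.2 ⟨h, h'⟩
        have := not_le.mp this
        show fdeg A y v ≤ c v - fdeg A y v
        linarith
      · have h1 := hdc v
        have h2 := hd0 v
        have h3 := not_lt.mp h
        show fdeg A y v ≤ c v - fdeg A y v
        have h4 := hc0 v
        linarith
    · exact sub_nonneg.mpr (hdc v)
  have m6 : ∑ v ∈ X, fdeg A y v +
      ∑ v ∈ univ.filter (fun v => ¬ (0 < c v ∧ c v ≤ 2 * fdeg A y v)), fdeg A y v =
      ∑ v, fdeg A y v := Finset.sum_filter_add_sum_filter_not _ _ _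
  refine ⟨y, X, hy0, ?_, ?_, ?_, ?_, ?_⟩
  · intro i hi
    rw [hyi i, if_neg (not_le.mpr hi)]
  · intro v hv
    rw [hX, Finset.mem_filter] at hv
    linarith [hv.2.1, hv.2.2]
  · linarith
  · linarith
  · intro v hv
    rw [hX, Finset.mem_filter] at hv
    have h1 := trim_pairs A z y s ε' hs hε hz0 hyi v
    have h2 := hpair v
    have h3 : (c v) ^ 2 ≤ 4 * (fdeg A y v) ^ 2 := by
      have := hv.2.2
      have h0 := hc0 v
      nlinarith
    have h4 : 2 * s * (∑ i ∈ univ.filter (fun i => v ∈ A i ∧ ((A i).card : ℝ) ≤ 2 * s),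
          ∑ j ∈ univ.filter (fun j => v ∈ A j ∧ ε' * s ≤ ((A i ∩ A j).card : ℝ)), z i * z j) ≤
        2 * s * (δ * (4 * (fdeg A y v) ^ 2)) := by
      refine mul_le_mul_of_nonneg_left ?_ (by linarith)
      exact le_trans h2 (mul_le_mul_of_nonneg_left h3 hδ)
    calc _ ≤ _ := h1
      _ ≤ ε' * s * (fdeg A y v) ^ 2 + 2 * s * (δ * (4 * (fdeg A y v) ^ 2)) := by linarith
      _ = (ε' + 8 * δ) * s * (fdeg A y v) ^ 2 := by ring

end Pool.Agent.Lib.MP_9b5ec2_co
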