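import Pool.Agent.Lib.MP_9b5ec2_co.Defs3
import Pool.Agent.Lib.MP_9b5ec2_co.Ex
import Pool.Agent.Lib.MP_9b5ec2_co.Typ

/-!
# Typical sets exist, averaged version (MP_9b5ec2_co)
-/

set_option autoImplicit false
set_option linter.unusedSectionVars false

namespace Pool.Agent.Lib.MP_9b5ec2_co

open Finset

theorem typ2 (h1 : HeavyEx2Stmt) (h2 : CloseExStmt) (h3 : RtotEx2Stmt) (h4 : DevExStmt)
    (h5 : FreezeStmt) : Typ2Stmt := by
  intro V ι J _ _ _ _ _ A K s θ γ η ε δ δ₁ Φ hK hs hθ hθ1 hγ hη hε hδ hδ1 hδ₁ hδ₁' hV hA hCD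
    hd hι hSp hX hB
  have hM : 0 < mass A := by
    unfold mass
    have : Nonempty V := Fintype.card_pos_iff.1 hV
    refine Finset.sum_pos (fun v _ => ?_) Finset.univ_nonempty
    have := hd v
    exact_mod_cast this
  obtain ⟨I, hI'⟩ : ∃ I, I = univ.sup (blk A K) := ⟨_, rfl⟩
  have hI : ∀ v, blk A K v ≤ I := fun v => hI' ▸ Finset.le_sup (f := blk A K) (Finset.mem_univ v)
  have hδ3 : δ ^ 3 ≤ 1 := pow_le_one₀ hδ.le hδ1
  have hδ32 : δ ^ 3 ≤ δ ^ 2 := pow_le_pow_of_le_one hδ.le hδ1 (by norm_num)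
  have hδ31 : δ ^ 3 ≤ δ := by
    have := pow_le_of_le_one hδ.le hδ1 (n := 3) (by norm_num)
    exact this
  have hδ3' : 0 < δ ^ 3 := by positivity
  have hp0 : 0 ≤ θ / s := by positivity
  have hp1 : θ / s ≤ 1 := by
    rw [div_le_one (by linarith)]
    linarith
  obtain ⟨T, t1, t2, t3, t4⟩ := typ_select (J := J) (θ / s) hp0 hp1
    (fun T => ∑ v ∈ univ.filter (fun v => 4 * θ * (dg A v : ℝ) < (hit A T v : ℝ)),
      (hit A T v : ℝ))
    (fun T => 2 * s * ∑ e, (clo A K T e : ℝ))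
    (fun T => rtot A K I (θ / s) T)
    (fun j T => ∑ i ∈ univ.image (blk A K),
      ∑ W ∈ (T ∩ above A K (i + 2)).powerset,
        if δ₁ * θ * (∑ v ∈ univ.filter (fun v => blk A K v = i), (dg A v : ℝ)) <
          ∑ u ∈ univ.filter (fun u => blk A K u = i), ((if u ∈ T then (1 : ℝ) else 0) - θ / s) *
            coef A K I (θ / s) (Φ j) T W (I - i) u then (1 : ℝ) else 0)
    (fun j T => ∑ i ∈ univ.image (blk A K),
      ∑ W ∈ (T ∩ above A K (i + 2)).powerset,
        if δ₁ * θ * (∑ v ∈ univ.filter (fun v => blk A K v = i), (dg A v : ℝ)) <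
          ∑ u ∈ univ.filter (fun u => blk A K u = i), ((if u ∈ T then (1 : ℝ) else 0) - θ / s) *
            (2 * s * (cnt A K (Φ j) T W u u : ℝ)) then (1 : ℝ) else 0)
    (δ * mass A) (δ ^ 2 * mass A) (δ ^ 3 / 2 * mass A) (blockSum A K s θ δ₁)
    (by positivity) (by positivity) (by positivity)
    (fun T => Finset.sum_nonneg fun v _ => Nat.cast_nonneg _)
    (fun T => typ_clo_nonneg A K s (by linarith) T)
    (fun T => typ_rtot_nonneg A K I (θ / s) T)
    (fun j T => Finset.sum_nonneg fun i _ => Finset.sum_nonneg fun W _ => by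
      split_ifs <;> norm_num)
    (fun j T => Finset.sum_nonneg fun i _ => Finset.sum_nonneg fun W _ => by
      split_ifs <;> norm_num)
    (by
      refine (h1 V ι A s θ γ hs hθ hθ1 hγ hA hCD hd).trans ?_
      have e1 : γ * mass A ≤ δ / 8 * mass A := by
        refine mul_le_mul_of_nonneg_right ?_ hM.le
        linarith
      linarith)
    (by
      refine (h2 V ι A K s θ η ε hs hθ hθ1 hη hε hA hι hSp).trans ?_
      have e1 : 32 * (η + ε) * mass A ≤ δ ^ 2 / 8 * mass A := by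
        refine mul_le_mul_of_nonneg_right ?_ hM.le
        linarith
      linarith)
    (by
      refine (h3 V ι A K I s θ γ η ε hs hθ hθ1 hγ hη hε hA hCD hd hι hSp).trans ?_
      have e1 : (64 * (η + 2 * ε) + γ) * mass A ≤ δ ^ 3 / 16 * mass A := by
        refine mul_le_mul_of_nonneg_right ?_ hM.le
        linarith
      linarith)
    (fun j => (h4 V ι A K I s θ δ₁ (Φ j) hK hs hθ hθ1 hδ₁ (by linarith) hA hd hI).1)
    (fun j => (h4 V ι A K I s θ δ₁ (Φ j) hK hs hθ hθ1 hδ₁ (by linarith) hA hd hI).2) hB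
  refine ⟨T, t1, t2, fun j => ⟨?_, ?_⟩⟩
  · exact typ_fair h5 A K I s θ δ δ₁ (Φ j) hs hθ hθ1 hδ hδ1 hδ₁ hδ₁' hd hI T t3 (t4 j).1
  · exact typ_glob A K s θ δ δ₁ (Φ j) hs hθ hδ hδ1 hδ₁' T (t4 j).2

end Pool.Agent.Lib.MP_9b5ec2_co
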