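import Pool.Agent.Lib.MP_9b5ec2_co.Defs3
import Pool.Agent.Lib.MP_9b5ec2_co.Window

/-!
# The application of Lemma B to a set of points and a set of edges
-/

set_option autoImplicit false

namespace Pool.Agent.Lib.MP_9b5ec2_co

open Finset

theorem winCore2 (h : LemmaBStmt) : WinCore2Stmt := by
  intro m D c₀ hm hD hc₀
  obtain ⟨Λ, γ, s₀, hΛ, hγ, hγ1, hs₀, hlem⟩ := h m D c₀ hm hD hc₀
  refine ⟨Λ, γ, s₀, hΛ, hγ, hγ1, hs₀, ?_⟩
  intro V ι _ _ _ _ A s W F hT hs hW hsz hint hlow h1 hheavy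
  have hWc : (0 : ℝ) < W.card := by exact_mod_cast hW.card_pos
  have cV : Fintype.card {v // v ∈ W} = W.card := Fintype.card_coe W
  have cI : Fintype.card {e // e ∈ F} = F.card := Fintype.card_coe F
  set A' : {e // e ∈ F} → Finset {v // v ∈ W} := fun e => (A e.1).subtype (· ∈ W) with hA'
  have cA : ∀ e, (A' e).card = (A e.1 ∩ W).card := fun e => win_card_sub _ _
  set lam : ℝ := (F.card : ℝ) * s / W.card with hlamdef
  have hlam : (F.card : ℝ) * s = lam * (W.card : ℝ) := by
    rw [hlamdef]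
    field_simp
  have hdeq : ∀ v : {v // v ∈ W}, (deg A' univ v : ℝ) = deg A F v.1 := by
    intro v
    have h2 : deg A' univ v = deg A F v.1 := by
      unfold deg
      refine Finset.card_bij (fun e _ => e.1) ?_ ?_ ?_
      · intro e he
        have he' := (Finset.mem_filter.1 he).2
        exact Finset.mem_filter.2 ⟨e.2, Finset.mem_subtype.1 he'⟩
      · exact fun e _ f _ h => Subtype.ext h
      · intro e he
        have he' := Finset.mem_filter.1 he
        exact ⟨⟨e, he'.1⟩, Finset.mem_filter.2 ⟨mem_univ _, Finset.mem_subtype.2 he'.2⟩, rfl⟩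
    exact_mod_cast h2
  refine hlem {v // v ∈ W} {e // e ∈ F} A' s lam ?_ hs ?_ ?_ ?_ ?_ ?_ ?_
  · intro S
    obtain ⟨R, hR⟩ := count_twoCol_sub hT W S
    exact ⟨R, fun e he => hR e.1 he⟩
  · rw [cV]
    exact hW.card_pos
  · intro e
    have h2 : ((A' e).card : ℝ) ≤ (A e.1).card := by
      rw [cA]
      exact_mod_cast Finset.card_le_card Finset.inter_subset_left
    exact h2.trans (hsz e.1 e.2)
  · intro e f hef
    have h2 : A' e ∩ A' f = (A e.1 ∩ A f.1).subtype (· ∈ W) := by
      ext x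
      simp [hA']
    rw [h2, win_card_sub]
    exact hint e.1 e.2 f.1 f.2 (fun h => hef (Subtype.ext h))
  · rw [cV, cI]
    exact hlam
  · rw [hlamdef, le_div_iff₀ hWc]
    exact hlow
  · have htot : 2 * (c₀ * ((F.card : ℝ) * s)) ≤ ∑ v, (deg A' univ v : ℝ) := by
      rw [win_deg A']
      have h2 : 2 * (c₀ * ((F.card : ℝ) * s)) =
          ((univ : Finset {e // e ∈ F}).card : ℝ) * (2 * c₀ * s) := by
        rw [Finset.card_univ, cI]
        ring
      rw [h2, ← nsmul_eq_mul]
      refine Finset.card_nsmul_le_sum univ _ (2 * c₀ * s) ?_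
      intro e _
      rw [cA]
      exact h1 e.1 e.2
    have hsplit := Finset.sum_filter_add_sum_filter_not univ
      (fun v : {v // v ∈ W} => (deg A' univ v : ℝ) ≤ D * lam) (fun v => (deg A' univ v : ℝ))
    have hbad : ∑ v ∈ univ.filter (fun v : {v // v ∈ W} => ¬ (deg A' univ v : ℝ) ≤ D * lam),
        (deg A' univ v : ℝ) ≤ c₀ * ((F.card : ℝ) * s) := by
      refine le_trans (le_of_eq ?_) hheavy
      rw [Finset.sum_filter, Finset.sum_filter]
      rw [← Finset.sum_coe_sort W]
      refine Finset.sum_congr rfl fun v _ => ?_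
      have h2 : (¬ (deg A' univ v : ℝ) ≤ D * lam) ↔
          D * ((F.card : ℝ) * s) < (deg A F v.1 : ℝ) * (W.card : ℝ) := by
        rw [not_le, hdeq v, hlam, ← mul_assoc]
        exact (mul_lt_mul_iff_left₀ hWc).symm
      by_cases h3 : D * ((F.card : ℝ) * s) < (deg A F v.1 : ℝ) * (W.card : ℝ)
      · rw [if_pos (h2.2 h3), if_pos h3, hdeq v]
      · rw [if_neg (fun h4 => h3 (h2.1 h4)), if_neg h3]
    have h5 : c₀ * lam * (Fintype.card {v // v ∈ W} : ℝ) = c₀ * ((F.card : ℝ) * s) := by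
      rw [cV, hlam]
      ring
    rw [h5]
    linarith

end Pool.Agent.Lib.MP_9b5ec2_co
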