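import Pool.Agent.Lib.MP_9b5ec2_co.Defs3
import Pool.Agent.Lib.MP_9b5ec2_co.Window

/-!
# No concentration in two consecutive blocks, averaged version
-/

set_option autoImplicit false

namespace Pool.Agent.Lib.MP_9b5ec2_co

open Finset

/-- the contradiction for a heavy window `W` with its edges `E`; `k` is the least degree -/
theorem window2_core {m : ℕ} {ε η Λ γB sB L K : ℝ} (hε : 0 < ε) (_hη : 0 < η) (hγB : 0 < γB)
    (hK : 0 < K) (hΛ : 1 ≤ Λ) (hL1 : 1 ≤ L) (hL2 : 6 * Λ ≤ L * ε) (hL3 : 128 ≤ L * (ε * η))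
    (hcore : ∀ (V ι : Type) [Fintype V] [DecidableEq V] [Fintype ι] [DecidableEq ι]
        (A : ι → Finset V) (s : ℝ) (W : Finset V) (F : Finset ι), TwoCol m A → sB ≤ s →
        W.Nonempty → (∀ e ∈ F, ((A e).card : ℝ) ≤ 2 * s) →
        (∀ e ∈ F, ∀ f ∈ F, e ≠ f → ((A e ∩ A f ∩ W).card : ℝ) ≤ γB * s) →
        Λ * (W.card : ℝ) ≤ (F.card : ℝ) * s →
        (∀ e ∈ F, 2 * (η / 2) * s ≤ ((A e ∩ W).card : ℝ)) →
        ∑ v ∈ W.filter (fun v => 11 * K ^ 2 / ε * ((F.card : ℝ) * s) <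
          (deg A F v : ℝ) * (W.card : ℝ)), (deg A F v : ℝ) ≤ η / 2 * ((F.card : ℝ) * s) → False)
    (h2 : SampleStmt) (h3 : CDFactsStmt)
    {V ι : Type} [Fintype V] [DecidableEq V] [Fintype ι] [DecidableEq ι] (A : ι → Finset V)
    (s : ℝ) (hT : TwoCol m A) (hs1 : 1 ≤ s) (hs : sB ≤ s) (hsz : ∀ e, ((A e).card : ℝ) ≤ 2 * s)
    (hCD : CD A s (ε * γB ^ 2 / (32 * L * K ^ 2))) (W : Finset V) (E : Finset ι) (k : ℝ)
    (hk : L ≤ k) (hW : W.Nonempty)
    (hdeg : ∀ v ∈ W, k ≤ (dg A v : ℝ) ∧ (dg A v : ℝ) ≤ K ^ 2 * k)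
    (hsum : ε * ∑ v ∈ W, (dg A v : ℝ) ≤ 4 * s * (E.card : ℝ))
    (hmem : ∀ e ∈ E, η * s ≤ ((A e ∩ W).card : ℝ)) : False := by
  classical
  have hL0 : 0 < L := by linarith
  have hk0 : 0 < k := by linarith
  have hs0 : 0 < s := by linarith
  have hWc : (0 : ℝ) < W.card := by exact_mod_cast hW.card_pos
  have hE0 : (0 : ℝ) ≤ E.card := Nat.cast_nonneg _
  -- (a)
  have ha : ε * (k * (W.card : ℝ)) ≤ 4 * s * (E.card : ℝ) := by
    refine le_trans ?_ hsum
    apply mul_le_mul_of_nonneg_left _ hε.le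
    have h1 : W.card • k ≤ ∑ v ∈ W, (dg A v : ℝ) :=
      Finset.card_nsmul_le_sum W _ _ (fun v hv => (hdeg v hv).1)
    rw [nsmul_eq_mul] at h1
    linarith
  -- the conflicts
  set C : Finset (ι × ι) := (E ×ˢ E).filter
    (fun c => c.1 ≠ c.2 ∧ γB * s < ((A c.1 ∩ A c.2 ∩ W).card : ℝ)) with hC
  have hCmem : ∀ c ∈ C, c.1 ∈ E ∧ c.2 ∈ E ∧ c.1 ≠ c.2 := by
    intro c hc
    rw [hC, Finset.mem_filter, Finset.mem_product] at hc
    exact ⟨hc.1.1, hc.1.2, hc.2.1⟩
  have hC1 : (C.card : ℝ) * (γB * s) ^ 2 ≤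
      ∑ e, ∑ f, ((A e ∩ A f ∩ W).card : ℝ) ^ 2 := by
    have h4 : C.card • (γB * s) ^ 2 ≤ ∑ c ∈ C, ((A c.1 ∩ A c.2 ∩ W).card : ℝ) ^ 2 := by
      refine Finset.card_nsmul_le_sum C _ _ ?_
      intro c hc
      rw [hC, Finset.mem_filter] at hc
      exact pow_le_pow_left₀ (by positivity) hc.2.2.le 2
    rw [nsmul_eq_mul] at h4
    refine h4.trans ?_
    rw [← Fintype.sum_prod_type (f := fun c : ι × ι => ((A c.1 ∩ A c.2 ∩ W).card : ℝ) ^ 2)]
    exact Finset.sum_le_sum_of_subset_of_nonneg (Finset.subset_univ _)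
      (fun c _ _ => by positivity)
  have hC2 := (h3 V ι A s (ε * γB ^ 2 / (32 * L * K ^ 2)) hs0.le (by positivity) hCD).2 W
  have hsq : ∑ v ∈ W, (dg A v : ℝ) ^ 2 ≤ K ^ 2 * k * ∑ v ∈ W, (dg A v : ℝ) := by
    rw [Finset.mul_sum]
    refine Finset.sum_le_sum fun v hv => ?_
    rw [pow_two]
    exact mul_le_mul_of_nonneg_right (hdeg v hv).2 (Nat.cast_nonneg _)
  have hCk : 8 * L * (C.card : ℝ) ≤ k * (E.card : ℝ) := by
    have h5 : (C.card : ℝ) * (γB * s) ^ 2 ≤ ε * γB ^ 2 / (32 * L * K ^ 2) * s *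
        (K ^ 2 * k * ∑ v ∈ W, (dg A v : ℝ)) :=
      (hC1.trans hC2).trans (mul_le_mul_of_nonneg_left hsq (by positivity))
    have h6 : ε * γB ^ 2 / (32 * L * K ^ 2) * s * (K ^ 2 * k * ∑ v ∈ W, (dg A v : ℝ)) =
        γB ^ 2 * s * k / (32 * L) * (ε * ∑ v ∈ W, (dg A v : ℝ)) := by
      field_simp
    rw [h6] at h5
    have h7 : γB ^ 2 * s * k / (32 * L) * (ε * ∑ v ∈ W, (dg A v : ℝ)) ≤
        γB ^ 2 * s * k / (32 * L) * (4 * s * (E.card : ℝ)) :=
      mul_le_mul_of_nonneg_left hsum (by positivity)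
    have h8 : γB ^ 2 * s * k / (32 * L) * (4 * s * (E.card : ℝ)) =
        (γB * s) ^ 2 * (k * (E.card : ℝ) / (8 * L)) := by
      field_simp
      ring
    have h9 : (γB * s) ^ 2 * (C.card : ℝ) ≤ (γB * s) ^ 2 * (k * (E.card : ℝ) / (8 * L)) := by
      rw [← h8]
      linarith
    have h10 : (C.card : ℝ) ≤ k * (E.card : ℝ) / (8 * L) :=
      le_of_mul_le_mul_left h9 (by positivity)
    rw [le_div_iff₀ (by positivity)] at h10
    linarith
  -- sampling
  have hq0 : 0 ≤ L / k := by positivity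
  have hq1 : L / k ≤ 1 := (div_le_one hk0).2 hk
  have hqk : L / k * k = L := by field_simp
  have hdegE : ∀ v, (deg A E v : ℝ) ≤ dg A v := by
    intro v
    have : deg A E v ≤ dg A v := by
      unfold dg deg
      exact Finset.card_le_card (Finset.filter_subset_filter _ (Finset.subset_univ _))
    exact_mod_cast this
  obtain ⟨F, hFE, hFC, hF⟩ := h2 V ι A W E C (L / k) (L * K ^ 2) (ε * L / (64 * s)) hq0 hq1
    (by positivity) (by positivity) (by
      intro v hv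
      calc L / k * (deg A E v : ℝ) ≤ L / k * (K ^ 2 * k) :=
            mul_le_mul_of_nonneg_left ((hdegE v).trans (hdeg v hv).2) hq0
        _ = L * K ^ 2 := by rw [mul_comm (K ^ 2) k, ← mul_assoc, hqk]) hCmem
  have hb1 : (L / k) ^ 2 * (C.card : ℝ) ≤ L / k * (E.card : ℝ) / 8 := by
    have h4 : (L / k) ^ 2 * (C.card : ℝ) = L / k ^ 2 * (8 * L * (C.card : ℝ)) / 8 := by
      field_simp
    have h5 : L / k * (E.card : ℝ) / 8 = L / k ^ 2 * (k * (E.card : ℝ)) / 8 := by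
      field_simp
    rw [h4, h5]
    have := mul_le_mul_of_nonneg_left hCk (show 0 ≤ L / k ^ 2 by positivity)
    linarith
  have hb2 : 2 * (ε * L / (64 * s)) * (W.card : ℝ) ≤ L / k * (E.card : ℝ) / 8 := by
    have h4 : 2 * (ε * L / (64 * s)) * (W.card : ℝ) =
        L / (32 * s * k) * (ε * (k * (W.card : ℝ))) := by
      field_simp
      ring
    have h5 : L / k * (E.card : ℝ) / 8 = L / (32 * s * k) * (4 * s * (E.card : ℝ)) := by
      field_simp
      ring
    rw [h4, h5]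
    exact mul_le_mul_of_nonneg_left ha (by positivity)
  set H : ℝ := ∑ v ∈ W.filter (fun v => 2 * (L * K ^ 2) < (deg A F v : ℝ)), (deg A F v : ℝ)
    with hH
  have hH0 : 0 ≤ H := Finset.sum_nonneg fun v _ => Nat.cast_nonneg _
  have hbH : 0 ≤ ε * L / (64 * s) * H := by positivity
  have hF1 : 3 / 4 * (L / k * (E.card : ℝ)) ≤ (F.card : ℝ) := by linarith
  have hqE : 0 ≤ L / k * (E.card : ℝ) := by positivity
  have hF2 : ε * L / (64 * s) * H ≤ (F.card : ℝ) := by linarith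
  have hF3 : 3 / 16 * (L * ε) * (W.card : ℝ) ≤ (F.card : ℝ) * s := by
    have h4 : 3 / 4 * (L / k * (E.card : ℝ)) * s ≤ (F.card : ℝ) * s :=
      mul_le_mul_of_nonneg_right hF1 hs0.le
    refine le_trans ?_ h4
    have h5 : 3 / 16 * (L * ε) * (W.card : ℝ) = 3 / 16 * (L / k) * (ε * (k * (W.card : ℝ))) := by
      field_simp
    have h6 : 3 / 4 * (L / k * (E.card : ℝ)) * s = 3 / 16 * (L / k) * (4 * s * (E.card : ℝ)) := by
      ring
    rw [h5, h6]
    exact mul_le_mul_of_nonneg_left ha (by positivity)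
  refine hcore V ι A s W F hT hs hW (fun e _ => hsz e) ?_ ?_ ?_ ?_
  · intro e he f hf hef
    by_contra hcon
    apply hFC e he f hf
    rw [hC, Finset.mem_filter, Finset.mem_product]
    exact ⟨⟨hFE he, hFE hf⟩, hef, not_le.1 hcon⟩
  · refine le_trans ?_ hF3
    apply mul_le_mul_of_nonneg_right _ hWc.le
    linarith
  · intro e he
    have := hmem e (hFE he)
    linarith
  · have hsub : W.filter (fun v => 11 * K ^ 2 / ε * ((F.card : ℝ) * s) <
        (deg A F v : ℝ) * (W.card : ℝ)) ⊆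
        W.filter (fun v => 2 * (L * K ^ 2) < (deg A F v : ℝ)) := by
      intro v hv
      rw [Finset.mem_filter] at hv ⊢
      refine ⟨hv.1, ?_⟩
      have h4 : 11 * K ^ 2 / ε * (3 / 16 * (L * ε) * (W.card : ℝ)) ≤
          11 * K ^ 2 / ε * ((F.card : ℝ) * s) :=
        mul_le_mul_of_nonneg_left hF3 (by positivity)
      have h5 : 11 * K ^ 2 / ε * (3 / 16 * (L * ε) * (W.card : ℝ)) =
          33 / 16 * (L * K ^ 2) * (W.card : ℝ) := by
        field_simp
        ring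
      have h6 : 33 / 16 * (L * K ^ 2) * (W.card : ℝ) < (deg A F v : ℝ) * (W.card : ℝ) := by
        rw [← h5]
        exact lt_of_le_of_lt h4 hv.2
      have h7 : 33 / 16 * (L * K ^ 2) < (deg A F v : ℝ) := lt_of_mul_lt_mul_right h6 hWc.le
      have h8 : 0 < L * K ^ 2 := by positivity
      linarith
    have h4 : ∑ v ∈ W.filter (fun v => 11 * K ^ 2 / ε * ((F.card : ℝ) * s) <
        (deg A F v : ℝ) * (W.card : ℝ)), (deg A F v : ℝ) ≤ H :=
      Finset.sum_le_sum_of_subset_of_nonneg hsub (fun v _ _ => Nat.cast_nonneg _)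
    refine h4.trans ?_
    have h5 : ε * L * H ≤ 64 * s * (F.card : ℝ) := by
      have h6 : ε * L / (64 * s) * H = ε * L * H / (64 * s) := by ring
      rw [h6, div_le_iff₀ (by positivity)] at hF2
      linarith
    have h7 : 128 * (s * (F.card : ℝ)) ≤ L * (ε * η) * (s * (F.card : ℝ)) :=
      mul_le_mul_of_nonneg_right hL3 (by positivity)
    have h8 : ε * L * H ≤ ε * L * (η / 2 * ((F.card : ℝ) * s)) := by
      have h9 : ε * L * (η / 2 * ((F.card : ℝ) * s)) = L * (ε * η) * (s * (F.card : ℝ)) / 2 := by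
        ring
      rw [h9]
      linarith
    exact le_of_mul_le_mul_left h8 (by positivity)

theorem window2 (h1 : WinCore2Stmt) (h2 : SampleStmt) (h3 : CDFactsStmt) : Window2Stmt := by
  classical
  intro m η ε K hm hη hε hK
  have hK0 : (0 : ℝ) < K := by
    have : 0 < K := by omega
    exact_mod_cast this
  have hK1 : (1 : ℝ) ≤ K := by
    have : 1 ≤ K := by omega
    exact_mod_cast this
  obtain ⟨Λ, γB, sB, hΛ, hγB, -, -, hcore⟩ :=
    h1 m (11 * K ^ 2 / ε) (η / 2) hm (by positivity) (by positivity)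
  set L : ℝ := max (6 * Λ / ε) (max (128 / (ε * η)) 1) with hL
  have hL1 : 1 ≤ L := (le_max_right _ _).trans (le_max_right _ _)
  have hL0 : 0 < L := by linarith
  have hL2 : 6 * Λ ≤ L * ε := by
    rw [← div_le_iff₀ hε]
    exact le_max_left _ _
  have hL3 : 128 ≤ L * (ε * η) := by
    rw [← div_le_iff₀ (by positivity)]
    exact (le_max_left _ _).trans (le_max_right _ _)
  have hK2 : (1 : ℝ) ≤ K ^ 2 := one_le_pow₀ hK1
  refine ⟨K ^ 2 * L, ε * γB ^ 2 / (32 * L * K ^ 2), max 1 sB, by nlinarith, by positivity,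
    le_max_left _ _, ?_⟩
  intro V ι _ _ _ _ A s hT hs hsz hCD hd
  have hs1 : 1 ≤ s := (le_max_left _ _).trans hs
  have hs0 : sB ≤ s := (le_max_right _ _).trans hs
  have hspos : 0 < s := by linarith
  have hw : ∀ (e : ι) (i : ℕ),
      (A e).filter (fun v => blk A K v = i ∨ blk A K v = i + 1) = A e ∩ winW A K i := by
    intro e i
    ext v
    simp [winW]
  set Bad : Finset ι := univ.filter (fun e => ∃ i, η * s < ((A e ∩ winW A K i).card : ℝ)) with hBad
  refine ⟨Bad, ?_, ?_⟩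
  swap
  · intro e he i
    rw [hw]
    by_contra hcon
    exact he (Finset.mem_filter.2 ⟨mem_univ _, i, not_le.1 hcon⟩)
  by_contra hcon
  push Not at hcon
  have hex : ∀ e ∈ Bad, ∃ i, η * s < ((A e ∩ winW A K i).card : ℝ) := fun e he =>
    (Finset.mem_filter.1 he).2
  choose! f hf using hex
  -- the total mass
  have hmass : ∑ v, (dg A v : ℝ) ≤ 2 * s * (Fintype.card ι : ℝ) := by
    have h4 : ∑ v, (dg A v : ℝ) = ∑ e, ((A e).card : ℝ) := win_deg A
    rw [h4]
    calc ∑ e, ((A e).card : ℝ) ≤ ∑ _e : ι, 2 * s := Finset.sum_le_sum fun e _ => hsz e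
      _ = 2 * s * (Fintype.card ι : ℝ) := by
        rw [Finset.sum_const, nsmul_eq_mul, Finset.card_univ]
        ring
  have hsum : ∑ i ∈ Bad.image f, ∑ v ∈ winW A K i, (dg A v : ℝ) ≤ 2 * ∑ v, (dg A v : ℝ) := by
    unfold winW
    simp_rw [Finset.sum_filter]
    rw [Finset.sum_comm, Finset.mul_sum]
    refine Finset.sum_le_sum fun v _ => ?_
    rw [← Finset.sum_filter, Finset.sum_const, nsmul_eq_mul]
    apply mul_le_mul_of_nonneg_right _ (Nat.cast_nonneg _)
    have h4 : (Bad.image f).filter (fun i => blk A K v = i ∨ blk A K v = i + 1) ⊆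
        {blk A K v, blk A K v - 1} := by
      intro i hi
      rw [Finset.mem_filter] at hi
      rw [Finset.mem_insert, Finset.mem_singleton]
      omega
    have h5 := (Finset.card_le_card h4).trans Finset.card_le_two
    exact_mod_cast h5
  have hcard : (Bad.card : ℝ) = ∑ i ∈ Bad.image f, ((Bad.filter (fun e => f e = i)).card : ℝ) := by
    rw [Finset.card_eq_sum_card_image f Bad]
    push_cast
    rfl
  -- a heavy window
  have hheavy : ∃ i ∈ Bad.image f, ε * ∑ v ∈ winW A K i, (dg A v : ℝ) <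
      4 * s * ((Bad.filter (fun e => f e = i)).card : ℝ) := by
    by_contra hno
    push Not at hno
    have h4 : 4 * s * (Bad.card : ℝ) ≤
        ε * ∑ i ∈ Bad.image f, ∑ v ∈ winW A K i, (dg A v : ℝ) := by
      rw [hcard, Finset.mul_sum, Finset.mul_sum]
      exact Finset.sum_le_sum fun i hi => hno i hi
    have h5 : ε * ∑ i ∈ Bad.image f, ∑ v ∈ winW A K i, (dg A v : ℝ) ≤
        ε * (2 * (2 * s * (Fintype.card ι : ℝ))) :=
      mul_le_mul_of_nonneg_left (hsum.trans (by linarith)) hε.le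
    have h6 : 4 * s * (ε * (Fintype.card ι : ℝ)) < 4 * s * (Bad.card : ℝ) :=
      mul_lt_mul_of_pos_left hcon (by linarith)
    linarith
  obtain ⟨i, hi, hlt⟩ := hheavy
  obtain ⟨e₀, he₀, hfe⟩ := Finset.mem_image.1 hi
  have hWne : (winW A K i).Nonempty := by
    have h4 := hf e₀ he₀
    rw [hfe] at h4
    have h5 : (0 : ℝ) < ((A e₀ ∩ winW A K i).card : ℝ) :=
      lt_trans (mul_pos hη hspos) h4
    have h6 : 0 < (A e₀ ∩ winW A K i).card := by exact_mod_cast h5
    obtain ⟨x, hx⟩ := Finset.card_pos.1 h6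
    exact ⟨x, (Finset.mem_inter.1 hx).2⟩
  -- degrees in the window
  have hd1 : ∀ v, (1 : ℝ) ≤ dg A v := fun v => le_trans (by nlinarith) (hd v)
  have hblk : ∀ v ∈ winW A K i, (K : ℝ) ^ i ≤ dg A v ∧ (dg A v : ℝ) ≤ K ^ 2 * K ^ i := by
    intro v hv
    have h4 : blk A K v = i ∨ blk A K v = i + 1 := (Finset.mem_filter.1 hv).2
    have h5 : dg A v ≠ 0 := by
      have : 1 ≤ dg A v := by exact_mod_cast hd1 v
      omega
    have h6 : K ^ i ≤ dg A v := by
      refine le_trans ?_ (Nat.pow_log_le_self K h5)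
      apply Nat.pow_le_pow_right (by omega)
      show i ≤ blk A K v
      omega
    have h7 : dg A v ≤ K ^ (i + 2) := by
      have h8 : dg A v < K ^ (blk A K v + 1) :=
        Nat.lt_pow_succ_log_self (show 1 < K by omega) (dg A v)
      refine h8.le.trans ?_
      exact Nat.pow_le_pow_right (show 0 < K by omega) (by omega)
    refine ⟨by exact_mod_cast h6, ?_⟩
    have h8 : (dg A v : ℝ) ≤ (K : ℝ) ^ (i + 2) := by exact_mod_cast h7
    rw [pow_add] at h8
    linarith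
  have hLk : L ≤ (K : ℝ) ^ i := by
    obtain ⟨v, hv⟩ := hWne
    have h4 : (K : ℝ) ^ 2 * L ≤ K ^ 2 * K ^ i := (hd v).trans (hblk v hv).2
    exact le_of_mul_le_mul_left h4 (by positivity)
  refine window2_core hε hη hγB hK0 hΛ hL1 hL2 hL3 hcore h2 h3 A s hT hs1 hs0 hsz hCD
    (winW A K i) (Bad.filter (fun e => f e = i)) ((K : ℝ) ^ i) hLk hWne hblk hlt.le ?_
  intro e he
  have h4 := Finset.mem_filter.1 he
  have h5 := hf e h4.1
  rw [h4.2] at h5
  exact h5.le

end Pool.Agent.Lib.MP_9b5ec2_co
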