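import Mathlib
import Pool.Agent.Lib.MP_9b5ec2_co.Main2
import Pool.Agent.Lib.MP_9b5ec2_co.HeavyEx2
import Pool.Agent.Lib.MP_9b5ec2_co.RtotEx2
import Pool.Agent.Lib.MP_9b5ec2_co.Typ2
import Pool.Agent.Lib.MP_9b5ec2_co.Spread2
import Pool.Agent.Lib.MP_9b5ec2_co.CDFacts
import Pool.Agent.Lib.MP_9b5ec2_co.Prep2
import Pool.Agent.Lib.MP_9b5ec2_co.Sample
import Pool.Agent.Lib.MP_9b5ec2_co.WinCore2
import Pool.Agent.Lib.MP_9b5ec2_co.Window2
import Pool.Agent.Lib.MP_9b5ec2_co.WGT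
import Pool.Agent.Lib.MP_9b5ec2_co.Half
import Pool.Agent.Lib.MP_9b5ec2_co.Trace
import Pool.Agent.Lib.MP_9b5ec2_co.EN
import Pool.Agent.Lib.MP_9b5ec2_co.LPD
import Pool.Agent.Lib.MP_9b5ec2_co.Avg
import Pool.Agent.Lib.MP_9b5ec2_co.Trim
import Pool.Agent.Lib.MP_9b5ec2_co.Disc
import Pool.Agent.Lib.MP_9b5ec2_co.KLU
import Pool.Agent.Lib.MP_9b5ec2_co.Drop
import Pool.Agent.Lib.MP_9b5ec2_co.CostNet
import Pool.Agent.Lib.MP_9b5ec2_co.Frac
import Pool.Agent.Lib.MP_9b5ec2_co.Transfer3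

/-! Assembly: fractional polychromatic colourings exist. -/

set_option autoImplicit false

namespace Pool.Agent.Lib.MP_9b5ec2_co

theorem spread2_holds : Spread2Stmt :=
  spread2 (typ2 (heavyEx2 codegrees wmom) closeEx (rtotEx2 wmom) (devEx lin codegrees) freeze)
    astep_holds (base loss) endThm

theorem window2_holds : Window2Stmt := window2 (winCore2 lemmaB_holds) (sample wmom) cdFacts

theorem wgt_holds : WGTStmt := wgt spread2_holds (prep2 blocks cdFacts) window2_holds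

theorem avg_holds : AvgStmt := avg (en half (trace vc) tail)

theorem klu_holds : KLUStmt := klu wgt_holds avg_holds trim disc

theorem costNet_holds : CostNetStmt := costNet (drop klu_holds) lpd

theorem frac_holds : FracStmt := frac costNet_holds lpd

end Pool.Agent.Lib.MP_9b5ec2_co
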