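import Mathlib
import Pool.Agent.Lib.MP_9b5ec2_co.Defs4

/-!
# Local covers of the missed edges, for edges of weight between 1 and 2 (MP_9b5ec2_co)
-/

set_option autoImplicit false

namespace Pool.Agent.Lib.MP_9b5ec2_co

open Finset

/-- the weight of `R` in `PEx p univ` -/
noncomputable def sd1W {V : Type} [Fintype V] [DecidableEq V] (p : V → ℝ) (R : Finset V) : ℝ :=
  (∏ v ∈ R, p v) * ∏ v ∈ univ \ R, (1 - p v)

theorem sd1_PEx {V : Type} [Fintype V] [DecidableEq V] (p : V → ℝ) (f : Finset V → ℝ) :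
    PEx p univ f = ∑ R, sd1W p R * f R := by
  unfold PEx sd1W
  rw [Finset.powerset_univ]

theorem sd1W_nonneg {V : Type} [Fintype V] [DecidableEq V] {p : V → ℝ} (h0 : ∀ v, 0 ≤ p v)
    (h1 : ∀ v, p v ≤ 1) (R : Finset V) : 0 ≤ sd1W p R :=
  PEx_weight_nonneg (fun v _ => h0 v) (fun v _ => h1 v) (Finset.subset_univ R)

/-- double counting -/
theorem sd1_swap {V ι : Type} [Fintype V] [DecidableEq V] [Fintype ι] (A : ι → Finset V)
    (y : ι → ℝ) (f : V → ℝ) :
    ∑ i, y i * ∑ v ∈ A i, f v = ∑ v, f v * fdeg A y v := by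
  unfold fdeg
  have h1 : ∀ i, y i * ∑ v ∈ A i, f v = ∑ v ∈ A i, f v * y i := fun i => by
    rw [Finset.mul_sum]
    exact Finset.sum_congr rfl fun v _ => mul_comm _ _
  have h2 : ∀ v, f v * ∑ i ∈ univ.filter (fun i => v ∈ A i), y i =
      ∑ i ∈ univ.filter (fun i => v ∈ A i), f v * y i := fun v => by
    rw [Finset.mul_sum]
  rw [Finset.sum_congr rfl fun i _ => h1 i, Finset.sum_congr rfl fun v _ => h2 v]
  refine Finset.sum_comm' fun i v => ?_
  simp

theorem sd1_fdeg_sum {V ι κ : Type} [DecidableEq V] [Fintype ι] [Fintype κ] (A : ι → Finset V)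
    (y : κ → ι → ℝ) (v : V) :
    fdeg A (fun i => ∑ R, y R i) v = ∑ R, fdeg A (y R) v := by
  unfold fdeg
  rw [Finset.sum_comm]

theorem sd1_fdeg_nonneg {V ι : Type} [DecidableEq V] [Fintype ι] (A : ι → Finset V)
    {y : ι → ℝ} (hy : ∀ i, 0 ≤ y i) (v : V) : 0 ≤ fdeg A y v :=
  Finset.sum_nonneg fun i _ => hy i

/-- the alternatives -/
theorem sd1_alt (hBox : BoxAltStmt) {V ι : Type} [Fintype V] [DecidableEq V] [Fintype ι]
    [DecidableEq ι] (A : ι → Finset V) (w : V → ℝ) (P : Finset V → ℝ) (b κ : ℝ)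
    (hw : ∀ v, 0 ≤ w v) (hb : 0 ≤ b) :
    (∃ x : Finset V → V → ℝ, (∀ R v, 0 ≤ x R v ∧ x R v ≤ b * w v) ∧
      (∀ R i, A i ∩ R = ∅ → 1 ≤ ∑ v ∈ A i, x R v) ∧ ∀ v, ∑ R, P R * x R v ≤ κ * w v) ∨
    ∃ (y : Finset V → ι → ℝ) (c : V → ℝ), (∀ R i, 0 ≤ y R i) ∧
      (∀ R i, A i ∩ R ≠ ∅ → y R i = 0) ∧ (∀ v, 0 ≤ c v) ∧
      κ * ∑ v, w v * c v + b * ∑ R, ∑ v, w v * max (fdeg A (y R) v - P R * c v) 0 <
        ∑ R, ∑ i, y R i := by
  let M : (Finset V × ι) ⊕ V → Finset V × V → ℝ := Sum.elim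
    (fun a j => if A a.2 ∩ a.1 = ∅ ∧ a.1 = j.1 ∧ j.2 ∈ A a.2 then -1 else 0)
    (fun v j => if v = j.2 then P j.1 else 0)
  let q : (Finset V × ι) ⊕ V → ℝ := Sum.elim
    (fun a => if A a.2 ∩ a.1 = ∅ then -1 else 0) (fun v => κ * w v)
  have e1 : ∀ (x : Finset V × V → ℝ) (R : Finset V) (i : ι),
      ∑ j, M (Sum.inl (R, i)) j * x j = if A i ∩ R = ∅ then -∑ v ∈ A i, x (R, v) else 0 := by
    intro x R i
    rw [Fintype.sum_prod_type]
    by_cases h : A i ∩ R = ∅
    · rw [if_pos h, Finset.sum_eq_single R]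
      · have h1 : ∀ v, M (Sum.inl (R, i)) (R, v) * x (R, v) =
            if v ∈ A i then -x (R, v) else 0 := by
          intro v
          by_cases hv : v ∈ A i
          · simp [M, h, hv]
          · simp [M, hv]
        rw [Finset.sum_congr rfl fun v _ => h1 v, Finset.sum_ite_mem, Finset.univ_inter,
          Finset.sum_neg_distrib]
      · intro R' _ hne
        refine Finset.sum_eq_zero fun v _ => ?_
        have h2 : ¬ R = R' := fun h3 => hne h3.symm
        simp [M, h2]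
      · intro h2
        exact absurd (Finset.mem_univ R) h2
    · rw [if_neg h]
      refine Finset.sum_eq_zero fun R' _ => Finset.sum_eq_zero fun v _ => ?_
      simp [M, h]
  have e2 : ∀ (x : Finset V × V → ℝ) (v : V),
      ∑ j, M (Sum.inr v) j * x j = ∑ R, P R * x (R, v) := by
    intro x v
    rw [Fintype.sum_prod_type]
    refine Finset.sum_congr rfl fun R _ => ?_
    rw [Finset.sum_eq_single v]
    · simp [M]
    · intro v' _ hne
      have h2 : ¬ v = v' := fun h3 => hne h3.symm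
      simp [M, h2]
    · intro h2
      exact absurd (Finset.mem_univ v) h2
  rcases hBox ((Finset V × ι) ⊕ V) (Finset V × V) M q (fun j => b * w j.2)
    (fun j => mul_nonneg hb (hw j.2)) with ⟨x, hx, hx2⟩ | ⟨y, hy, hy2⟩
  · refine Or.inl ⟨fun R v => x (R, v), fun R v => hx (R, v), fun R i h => ?_, fun v => ?_⟩
    · have h1 := hx2 (Sum.inl (R, i))
      rw [e1 x R i, if_pos h] at h1
      have h2 : q (Sum.inl (R, i)) = -1 := by simp [q, h]
      rw [h2] at h1
      linarith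
    · have h1 := hx2 (Sum.inr v)
      rw [e2 x v] at h1
      exact h1
  · refine Or.inr ⟨fun R i => if A i ∩ R = ∅ then y (Sum.inl (R, i)) else 0,
      fun v => y (Sum.inr v), fun R i => ?_, fun R i h => if_neg h, fun v => hy _, ?_⟩
    · by_cases h : A i ∩ R = ∅
      · simp only [h, if_true]
        exact hy _
      · simp only [h, if_false, le_refl]
    set y' : Finset V → ι → ℝ := fun R i => if A i ∩ R = ∅ then y (Sum.inl (R, i)) else 0
      with hy'
    set c : V → ℝ := fun v => y (Sum.inr v) with hc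
    let x : Finset V × V → ℝ := fun j =>
      if P j.1 * c j.2 < fdeg A (y' j.1) j.2 then b * w j.2 else 0
    have hx : ∀ j, 0 ≤ x j ∧ x j ≤ b * w j.2 := by
      intro j
      have h1 := mul_nonneg hb (hw j.2)
      by_cases h : P j.1 * c j.2 < fdeg A (y' j.1) j.2
      · simp only [x, h, if_true]
        exact ⟨h1, le_refl _⟩
      · simp only [x, h, if_false]
        exact ⟨le_refl _, h1⟩
    have h1 := hy2 x hx
    rw [Fintype.sum_sum_type, Fintype.sum_sum_type, Fintype.sum_prod_type,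
      Fintype.sum_prod_type] at h1
    have f1 : ∀ R i, y (Sum.inl (R, i)) * q (Sum.inl (R, i)) = -y' R i := by
      intro R i
      by_cases h : A i ∩ R = ∅
      · simp [q, hy', h]
      · simp [q, hy', h]
    have f2 : ∀ v, y (Sum.inr v) * q (Sum.inr v) = κ * (w v * c v) := by
      intro v
      simp only [q, Sum.elim_inr, hc]
      ring
    have f3 : ∀ R i, y (Sum.inl (R, i)) * ∑ j, M (Sum.inl (R, i)) j * x j =
        -(y' R i * ∑ v ∈ A i, x (R, v)) := by
      intro R i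
      rw [e1]
      by_cases h : A i ∩ R = ∅
      · simp [hy', h]
      · simp [hy', h]
    have f4 : ∀ v, y (Sum.inr v) * ∑ j, M (Sum.inr v) j * x j =
        ∑ R, x (R, v) * (P R * c v) := by
      intro v
      rw [e2, Finset.mul_sum]
      refine Finset.sum_congr rfl fun R _ => ?_
      simp only [hc]
      ring
    simp only [f1, f2, f3, f4, Finset.sum_neg_distrib, sd1_swap] at h1
    rw [Finset.sum_comm (s := (univ : Finset V)) (t := (univ : Finset (Finset V))),
      ← Finset.mul_sum] at h1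
    have f5 : ∑ R, ∑ v, x (R, v) * fdeg A (y' R) v - ∑ R, ∑ v, x (R, v) * (P R * c v) =
        b * ∑ R, ∑ v, w v * max (fdeg A (y' R) v - P R * c v) 0 := by
      rw [← Finset.sum_sub_distrib, Finset.mul_sum]
      refine Finset.sum_congr rfl fun R _ => ?_
      rw [← Finset.sum_sub_distrib, Finset.mul_sum]
      refine Finset.sum_congr rfl fun v _ => ?_
      by_cases h : P R * c v < fdeg A (y' R) v
      · have h2 : x (R, v) = b * w v := by simp [x, h]
        rw [h2, max_eq_left (by linarith)]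
        ring
      · have h2 : x (R, v) = 0 := by simp [x, h]
        rw [h2, max_eq_right (by linarith)]
        ring
    linarith

open Classical in
/-- the averaged edge weights violate the packing theorem -/
theorem sd1_avg {V ι : Type} [Fintype V] [DecidableEq V] [Fintype ι] [DecidableEq ι]
    (A : ι → Finset V) (w : V → ℝ) (P : Finset V → ℝ) (y : Finset V → ι → ℝ) (c : V → ℝ)
    (γ κ δ : ℝ) (hγ : 0 < γ) (hκ : 0 < κ) (hδκ : 128 * δ ≤ γ * κ)
    (hw : ∀ v, 0 ≤ w v) (hP : ∀ R, 0 ≤ P R) (hA1 : ∀ i, 1 ≤ ∑ v ∈ A i, w v)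
    (hA2 : ∀ i, ∑ v ∈ A i, w v ≤ 2) (hy : ∀ R i, 0 ≤ y R i)
    (hy0 : ∀ R i, A i ∩ R ≠ ∅ → y R i = 0) (hc : ∀ v, 0 ≤ c v)
    (hstar : κ * ∑ v, w v * c v +
      128 / γ * ∑ R, ∑ v, w v * max (fdeg A (y R) v - P R * c v) 0 < ∑ R, ∑ i, y R i)
    (hbad : ∀ i, ∑ R, P R * (if ∃ j, A j ∩ R = ∅ ∧ γ / 4 ≤ ∑ v ∈ A j ∩ A i, w v then (1 : ℝ)
      else 0) ≤ δ) :
    ∃ X : Finset V, (∀ v ∈ X, 0 < fdeg A (fun i => ∑ R, y R i) v) ∧
      0 < ∑ i, ∑ R, y R i ∧
      ∑ i, ∑ R, y R i ≤ 5 / 4 * ∑ v ∈ X, w v * fdeg A (fun i => ∑ R, y R i) v ∧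
      ∀ v ∈ X, ∑ i ∈ univ.filter (fun i => v ∈ A i), ∑ j ∈ univ.filter (fun j => v ∈ A j),
        (∑ R, y R i) * (∑ R, y R j) * ∑ u ∈ A i ∩ A j, w u ≤
          γ * (fdeg A (fun i => ∑ R, y R i) v) ^ 2 := by
  set Y : ι → ℝ := fun i => ∑ R, y R i with hY
  have hY0 : ∀ i, 0 ≤ Y i := fun i => Finset.sum_nonneg fun R _ => hy R i
  set d : V → ℝ := fun v => fdeg A Y v with hd
  have hd0 : ∀ v, 0 ≤ d v := fun v => sd1_fdeg_nonneg A hY0 v
  have hdR : ∀ v, d v = ∑ R, fdeg A (y R) v := fun v => sd1_fdeg_sum A y v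
  set z : V → ℝ := fun v => ∑ R, max (fdeg A (y R) v - P R * c v) 0 with hz
  have hz0 : ∀ v, 0 ≤ z v := fun v => Finset.sum_nonneg fun R _ => le_max_right _ _
  have hsumz : ∑ R, ∑ v, w v * max (fdeg A (y R) v - P R * c v) 0 = ∑ v, w v * z v := by
    rw [Finset.sum_comm]
    refine Finset.sum_congr rfl fun v _ => ?_
    rw [hz, Finset.mul_sum]
  have hsumY : ∑ R, ∑ i, y R i = ∑ i, Y i := Finset.sum_comm
  rw [hsumz, hsumY] at hstar
  have hwz : 0 ≤ ∑ v, w v * z v := Finset.sum_nonneg fun v _ => mul_nonneg (hw v) (hz0 v)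
  have hwc : 0 ≤ ∑ v, w v * c v := Finset.sum_nonneg fun v _ => mul_nonneg (hw v) (hc v)
  have hb0 : 0 < 128 / γ := by positivity
  have k1 : κ * ∑ v, w v * c v ≤ ∑ i, Y i := by
    have := mul_nonneg hb0.le hwz
    linarith
  have k2 : 128 / γ * ∑ v, w v * z v ≤ ∑ i, Y i := by
    have := mul_nonneg hκ.le hwc
    linarith
  have hYpos : 0 < ∑ i, Y i := by
    have h1 := mul_nonneg hb0.le hwz
    have h2 := mul_nonneg hκ.le hwc
    linarith
  have k3 : ∑ i, Y i ≤ ∑ v, w v * d v := by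
    rw [← sd1_swap A Y w]
    refine Finset.sum_le_sum fun i _ => ?_
    have h1 := mul_le_mul_of_nonneg_left (hA1 i) (hY0 i)
    linarith
  let X : Finset V := univ.filter fun v => 0 < d v ∧ z v ≤ γ / 8 * d v ∧ κ * c v ≤ 16 * d v
  have hX : ∀ v ∈ X, 0 < d v ∧ z v ≤ γ / 8 * d v ∧ κ * c v ≤ 16 * d v := fun v hv =>
    (Finset.mem_filter.mp hv).2
  refine ⟨X, fun v hv => (hX v hv).1, hYpos, ?_, ?_⟩
  · -- most of the weight is in `X`
    have p1 : ∀ v, w v * d v ≤ (if v ∈ X then w v * d v else 0) + 8 / γ * (w v * z v) +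
        κ / 16 * (w v * c v) := by
      intro v
      have q1 : 0 ≤ 8 / γ * (w v * z v) := by
        have := mul_nonneg (hw v) (hz0 v)
        positivity
      have q2 : 0 ≤ κ / 16 * (w v * c v) := by
        have := mul_nonneg (hw v) (hc v)
        positivity
      by_cases hv : v ∈ X
      · rw [if_pos hv]
        linarith
      · rw [if_neg hv]
        have hv' : ¬ (0 < d v ∧ z v ≤ γ / 8 * d v ∧ κ * c v ≤ 16 * d v) := fun h =>
          hv (Finset.mem_filter.mpr ⟨Finset.mem_univ v, h⟩)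
        by_cases h1 : 0 < d v
        · by_cases h2 : z v ≤ γ / 8 * d v
          · have h3 : 16 * d v < κ * c v := by
              by_contra hcon
              exact hv' ⟨h1, h2, not_lt.mp hcon⟩
            have h4 := mul_le_mul_of_nonneg_left h3.le (hw v)
            have h5 : κ / 16 * (w v * c v) = w v * (κ * c v) / 16 := by ring
            rw [h5]
            linarith
          · have h3 := mul_le_mul_of_nonneg_left (not_le.mp h2).le (hw v)
            have h4 : w v * d v = 8 / γ * (w v * (γ / 8 * d v)) := by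
              field_simp
            have h5 : 8 / γ * (w v * (γ / 8 * d v)) ≤ 8 / γ * (w v * z v) :=
              mul_le_mul_of_nonneg_left h3 (by positivity)
            linarith
        · have h2 : d v = 0 := le_antisymm (not_lt.mp h1) (hd0 v)
          rw [h2]
          linarith
    have p2 := Finset.sum_le_sum fun v (_ : v ∈ (univ : Finset V)) => p1 v
    rw [Finset.sum_add_distrib, Finset.sum_add_distrib, ← Finset.mul_sum, ← Finset.mul_sum,
      Finset.sum_ite_mem, Finset.univ_inter] at p2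
    have p3 : 8 / γ * ∑ v, w v * z v ≤ (∑ i, Y i) / 16 := by
      have h1 : 8 / γ * ∑ v, w v * z v = (128 / γ * ∑ v, w v * z v) / 16 := by ring
      rw [h1]
      linarith
    have p4 : κ / 16 * ∑ v, w v * c v ≤ (∑ i, Y i) / 16 := by
      have h1 : κ / 16 * ∑ v, w v * c v = (κ * ∑ v, w v * c v) / 16 := by ring
      rw [h1]
      linarith
    linarith
  · intro v hv
    obtain ⟨hv1, hv2, hv3⟩ := hX v hv
    -- the edges which meet `A i` in a heavy set
    have r1 : ∀ i, ∑ j ∈ univ.filter (fun j => v ∈ A j ∧ γ / 4 ≤ ∑ u ∈ A j ∩ A i, w u), Y j ≤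
        δ * c v + z v := by
      intro i
      set bad : Finset V → ℝ := fun R => if ∃ j, A j ∩ R = ∅ ∧ γ / 4 ≤ ∑ v ∈ A j ∩ A i, w v
        then (1 : ℝ) else 0 with hbaddef
      have s1 : ∀ R, ∑ j ∈ univ.filter (fun j => v ∈ A j ∧ γ / 4 ≤ ∑ u ∈ A j ∩ A i, w u),
          y R j ≤ P R * bad R * c v + max (fdeg A (y R) v - P R * c v) 0 := by
        intro R
        by_cases hb : ∃ j, A j ∩ R = ∅ ∧ γ / 4 ≤ ∑ v ∈ A j ∩ A i, w v
        · have t1 : bad R = 1 := by
            simp only [hbaddef]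
            rw [if_pos hb]
          have t2 : ∑ j ∈ univ.filter (fun j => v ∈ A j ∧ γ / 4 ≤ ∑ u ∈ A j ∩ A i, w u),
              y R j ≤ fdeg A (y R) v := by
            unfold fdeg
            refine Finset.sum_le_sum_of_subset_of_nonneg ?_ fun j _ _ => hy R j
            intro j hj
            rw [Finset.mem_filter] at hj ⊢
            exact ⟨hj.1, hj.2.1⟩
          have t3 := le_max_left (fdeg A (y R) v - P R * c v) 0
          rw [t1]
          linarith
        · have t1 : ∑ j ∈ univ.filter (fun j => v ∈ A j ∧ γ / 4 ≤ ∑ u ∈ A j ∩ A i, w u),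
              y R j = 0 := by
            refine Finset.sum_eq_zero fun j hj => ?_
            rw [Finset.mem_filter] at hj
            refine hy0 R j fun h => hb ⟨j, h, hj.2.2⟩
          rw [t1]
          have t2 := le_max_right (fdeg A (y R) v - P R * c v) 0
          have t3 : 0 ≤ bad R := by
            simp only [hbaddef]
            rw [if_neg hb]
          have t4 := mul_nonneg (mul_nonneg (hP R) t3) (hc v)
          linarith
      have s2 : ∑ j ∈ univ.filter (fun j => v ∈ A j ∧ γ / 4 ≤ ∑ u ∈ A j ∩ A i, w u), Y j =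
          ∑ R, ∑ j ∈ univ.filter (fun j => v ∈ A j ∧ γ / 4 ≤ ∑ u ∈ A j ∩ A i, w u), y R j := by
        rw [Finset.sum_comm]
      have s3 := Finset.sum_le_sum fun R (_ : R ∈ (univ : Finset (Finset V))) => s1 R
      rw [Finset.sum_add_distrib, ← Finset.sum_mul] at s3
      have s4 := mul_le_mul_of_nonneg_right (hbad i) (hc v)
      rw [s2]
      have s5 : ∑ R, max (fdeg A (y R) v - P R * c v) 0 = z v := rfl
      rw [s5] at s3
      linarith
    have r2 : ∀ i, ∑ j ∈ univ.filter (fun j => v ∈ A j), Y j * ∑ u ∈ A i ∩ A j, w u ≤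
        γ / 4 * d v + 2 * (δ * c v + z v) := by
      intro i
      have s1 : ∀ j ∈ univ.filter (fun j => v ∈ A j), Y j * ∑ u ∈ A i ∩ A j, w u ≤
          γ / 4 * Y j + (if γ / 4 ≤ ∑ u ∈ A j ∩ A i, w u then 2 * Y j else 0) := by
        intro j _
        have hYj := hY0 j
        rw [Finset.inter_comm (A i) (A j)]
        by_cases h : γ / 4 ≤ ∑ u ∈ A j ∩ A i, w u
        · rw [if_pos h]
          have t1 : ∑ u ∈ A j ∩ A i, w u ≤ 2 :=
            (Finset.sum_le_sum_of_subset_of_nonneg Finset.inter_subset_left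
              fun u _ _ => hw u).trans (hA2 j)
          have t2 := mul_le_mul_of_nonneg_left t1 hYj
          have t3 : 0 ≤ γ / 4 * Y j := by positivity
          linarith
        · rw [if_neg h]
          have t2 := mul_le_mul_of_nonneg_left (not_le.mp h).le hYj
          linarith
      have s2 := Finset.sum_le_sum s1
      rw [Finset.sum_add_distrib, ← Finset.mul_sum, ← Finset.sum_filter,
        Finset.filter_filter, ← Finset.mul_sum] at s2
      have s3 := r1 i
      have s4 : ∑ j ∈ univ.filter (fun j => v ∈ A j), Y j = d v := rfl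
      rw [s4] at s2
      linarith
    have r3 : ∑ i ∈ univ.filter (fun i => v ∈ A i), ∑ j ∈ univ.filter (fun j => v ∈ A j),
        Y i * Y j * ∑ u ∈ A i ∩ A j, w u ≤ d v * (γ / 4 * d v + 2 * (δ * c v + z v)) := by
      have s1 : ∀ i ∈ univ.filter (fun i => v ∈ A i), ∑ j ∈ univ.filter (fun j => v ∈ A j),
          Y i * Y j * ∑ u ∈ A i ∩ A j, w u ≤ Y i * (γ / 4 * d v + 2 * (δ * c v + z v)) := by
        intro i _
        have t1 := mul_le_mul_of_nonneg_left (r2 i) (hY0 i)
        rw [Finset.mul_sum] at t1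
        refine le_trans (le_of_eq ?_) t1
        exact Finset.sum_congr rfl fun j _ => by ring
      have s2 := Finset.sum_le_sum s1
      rw [← Finset.sum_mul] at s2
      exact s2
    refine r3.trans ?_
    have u1 : δ * c v ≤ γ / 8 * d v := by
      have h1 := mul_le_mul_of_nonneg_right hδκ (hc v)
      have h2 := mul_le_mul_of_nonneg_left hv3 hγ.le
      have h3 : γ * κ * c v = γ * (κ * c v) := by ring
      rw [h3] at h1
      linarith
    have u2 : γ / 4 * d v + 2 * (δ * c v + z v) ≤ γ * d v := by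
      have h1 : 0 ≤ γ * d v := mul_nonneg hγ.le hv1.le
      linarith
    have u3 := mul_le_mul_of_nonneg_left u2 hv1.le
    have u4 : γ * d v ^ 2 = d v * (γ * d v) := by ring
    show d v * (γ / 4 * d v + 2 * (δ * c v + z v)) ≤ γ * d v ^ 2
    rw [u4]
    exact u3

theorem sd1 (h1 : EN2Stmt) (h2 : CWGTStmt) (h3 : BoxAltStmt) : SD1Stmt := by
  intro m hm
  obtain ⟨γ', hγ', hW⟩ := h2 m hm
  obtain ⟨γ, hγ, hγ1, hγγ⟩ : ∃ γ : ℝ, 0 < γ ∧ γ ≤ 1 ∧ γ ≤ γ' :=
    ⟨min γ' 1, lt_min hγ' one_pos, min_le_right _ _, min_le_left _ _⟩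
  obtain ⟨c₀, k₀', hc₀, hk₀', hEN⟩ := h1 m (γ / 4) hm (by positivity)
  -- `exp (- c₀ k₀ / 2) ≤ γ / 128`
  have hlog : ∀ k : ℝ, 2 / c₀ * Real.log (128 / γ) ≤ k →
      Real.exp (-(c₀ / 2 * k)) ≤ γ / 128 := by
    intro k hk
    have e1 : Real.log (128 / γ) ≤ c₀ / 2 * k := by
      have e2 := mul_le_mul_of_nonneg_left hk (by positivity : 0 ≤ c₀ / 2)
      have e3 : c₀ / 2 * (2 / c₀ * Real.log (128 / γ)) = Real.log (128 / γ) := by
        field_simp
      linarith
    have e4 : Real.exp (-(c₀ / 2 * k)) ≤ Real.exp (-(Real.log (128 / γ))) :=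
      Real.exp_le_exp.mpr (by linarith)
    rw [Real.exp_neg (Real.log (128 / γ)), Real.exp_log (by positivity), inv_div] at e4
    exact e4
  refine ⟨128 / γ, c₀ / 2, max k₀' (2 / c₀ * Real.log (128 / γ)), ?_, by positivity,
    hk₀'.trans (le_max_left _ _), ?_⟩
  · rw [le_div_iff₀ hγ]
    linarith
  intro k hk V ι _ _ _ _ A w p hA hw hkw hp hA12
  have hkk : k₀' ≤ k := (le_max_left _ _).trans hk
  have hk1 : 1 ≤ k := hk₀'.trans hkk
  have hp0 : ∀ v, 0 ≤ p v := fun v =>
    (mul_nonneg (by linarith) (hw v)).trans (hp v).1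
  have hp1 : ∀ v, p v ≤ 1 := fun v => (hp v).2
  have hδκ : 128 * Real.exp (-(c₀ * k)) ≤ γ * Real.exp (-(c₀ / 2 * k)) := by
    have e1 := hlog k ((le_max_right _ _).trans hk)
    have e2 : Real.exp (-(c₀ * k)) = Real.exp (-(c₀ / 2 * k)) * Real.exp (-(c₀ / 2 * k)) := by
      rw [← Real.exp_add]
      congr 1
      ring
    have e3 := mul_le_mul_of_nonneg_left e1 (Real.exp_pos (-(c₀ / 2 * k))).le
    rw [e2]
    linarith
  rcases sd1_alt h3 A w (sd1W p) (128 / γ) (Real.exp (-(c₀ / 2 * k))) hw (by positivity) with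
    ⟨x, hx, hx1, hx2⟩ | ⟨y, c, hy, hy0, hc, hstar⟩
  · refine ⟨x, hx, hx1, fun v => ?_⟩
    rw [sd1_PEx]
    exact hx2 v
  · exfalso
    obtain ⟨X, hX1, hX2, hX3, hX4⟩ := sd1_avg A w (sd1W p) y c γ (Real.exp (-(c₀ / 2 * k)))
      (Real.exp (-(c₀ * k))) hγ (Real.exp_pos _) hδκ hw (sd1W_nonneg hp0 hp1)
      (fun i => (hA12 i).1) (fun i => (hA12 i).2) hy hy0 hc hstar (fun i => by
        rw [← sd1_PEx]
        have h5 := hEN k hkk V ι A (A i) w p hA hw hkw hp (hA12 i).2
        convert h5)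
    refine hW V ι A w (fun i => ∑ R, y R i) X hA hw
      (fun i => Finset.sum_nonneg fun R _ => hy R i) (fun i _ => (hA12 i).2) hX1 hX2 hX3
      fun v hv => (hX4 v hv).trans ?_
    exact mul_le_mul_of_nonneg_right hγγ (sq_nonneg _)

end Pool.Agent.Lib.MP_9b5ec2_co
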