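import Mathlib
import Pool.Agent.Lib.MP_9b5ec2_co.Defs4
import Pool.Agent.Lib.MP_9b5ec2_co.Transfer2

/-!
# Local covers of the missed edges, general weights (MP_9b5ec2_co): dyadic classes
-/

set_option autoImplicit false
set_option linter.unusedVariables false

namespace Pool.Agent.Lib.MP_9b5ec2_co

open Finset

theorem sd2 (h : SD1Stmt) : SD2Stmt := by
  intro m hm
  obtain ⟨b₁, c₁, k₁, hb₁, hc₁, hk₁, H⟩ := h m hm
  refine ⟨2 * b₁, c₁ / 2, k₁ + 2 / c₁, by linarith, by linarith, ?_, ?_⟩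
  · have : 0 < 2 / c₁ := by positivity
    linarith
  intro k hk V ι _ _ _ _ A w hA hw hkw
  classical
  have hpos : 0 < 2 / c₁ := by positivity
  have hkk : k₁ ≤ k := by linarith
  have hk0 : 0 ≤ k := by linarith
  have hck : 2 ≤ c₁ * k := by
    have h1 : 2 / c₁ ≤ k := by linarith
    have h2 := mul_le_mul_of_nonneg_left h1 hc₁.le
    rwa [mul_div_cancel₀ _ hc₁.ne'] at h2
  have hkw0 : ∀ v, 0 ≤ k * w v := fun v => mul_nonneg hk0 (hw v)
  -- the classes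
  have hcl : ∀ l : ℕ, ∃ x : Finset V → V → ℝ, (∀ R v, 0 ≤ x R v ∧ x R v ≤ b₁ * (w v / 2 ^ l)) ∧
      (∀ R i, 2 ^ l ≤ ∑ v ∈ A i, w v → ∑ v ∈ A i, w v ≤ 2 ^ (l + 1) → A i ∩ R = ∅ →
        1 ≤ ∑ v ∈ A i, x R v) ∧
      ∀ v, PEx (fun v => k * w v) univ (fun R => x R v) ≤
        Real.exp (-(c₁ * k)) * (w v / 2 ^ l) := by
    intro l
    have h2l : (0 : ℝ) < 2 ^ l := by positivity
    have h2l1 : (1 : ℝ) ≤ 2 ^ l := one_le_pow₀ (by norm_num)
    have hwl : ∀ v, w v / 2 ^ l ≤ w v := fun v => div_le_self (hw v) h2l1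
    have hkl : ∀ v, k * (w v / 2 ^ l) ≤ k * w v := fun v =>
      mul_le_mul_of_nonneg_left (hwl v) hk0
    have hcond : ∀ i : {i // 2 ^ l ≤ ∑ v ∈ A i, w v ∧ ∑ v ∈ A i, w v ≤ 2 ^ (l + 1)},
        1 ≤ ∑ v ∈ A i.1, w v / 2 ^ l ∧ ∑ v ∈ A i.1, w v / 2 ^ l ≤ 2 := by
      rintro ⟨i, h1, h2⟩
      constructor
      · show 1 ≤ ∑ v ∈ A i, w v / 2 ^ l
        rw [← Finset.sum_div, le_div_iff₀ h2l, one_mul]
        exact h1
      · show ∑ v ∈ A i, w v / 2 ^ l ≤ 2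
        rw [← Finset.sum_div, div_le_iff₀ h2l]
        calc _ ≤ (2 : ℝ) ^ (l + 1) := h2
          _ = 2 * 2 ^ l := by ring
    obtain ⟨x, hx1, hx2, hx3⟩ := H k hkk V
      {i // 2 ^ l ≤ ∑ v ∈ A i, w v ∧ ∑ v ∈ A i, w v ≤ 2 ^ (l + 1)} (fun i => A i.1)
      (fun v => w v / 2 ^ l) (fun v => k * w v) (twoCol_subfamily hA Subtype.val)
      (fun v => div_nonneg (hw v) h2l.le) (fun v => (hkl v).trans (hkw v))
      (fun v => ⟨hkl v, (hkw v).trans (by norm_num)⟩) hcond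
    exact ⟨x, hx1, fun R i h1 h2 h3 => hx2 R ⟨i, h1, h2⟩ h3, hx3⟩
  choose x hx1 hx2 hx3 using hcl
  obtain ⟨L, hL⟩ := pow_unbounded_of_one_lt (∑ v, w v) (by norm_num : (1 : ℝ) < 2)
  have hgeo : ∑ l ∈ range L, (1 / 2 : ℝ) ^ l ≤ 2 := sum_geometric_two_le L
  have hx0 : ∀ l R v, 0 ≤ x l R v := fun l R v => (hx1 l R v).1
  refine ⟨fun R v => ∑ l ∈ range L, x l R v, ?_, ?_, ?_⟩
  · intro R v
    refine ⟨Finset.sum_nonneg fun l _ => hx0 l R v, ?_⟩
    calc ∑ l ∈ range L, x l R v ≤ ∑ l ∈ range L, b₁ * w v * (1 / 2 : ℝ) ^ l := by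
          refine Finset.sum_le_sum fun l _ => (hx1 l R v).2.trans (le_of_eq ?_)
          rw [one_div, inv_pow]; ring
      _ = b₁ * w v * ∑ l ∈ range L, (1 / 2 : ℝ) ^ l := by rw [Finset.mul_sum]
      _ ≤ b₁ * w v * 2 :=
          mul_le_mul_of_nonneg_left hgeo (mul_nonneg (by linarith) (hw v))
      _ = 2 * b₁ * w v := by ring
  · intro R i hi hR
    obtain ⟨l, h1, h2⟩ := exists_nat_pow_near hi (by norm_num : (1 : ℝ) < 2)
    have hlL : l < L := by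
      have h3 : ∑ v ∈ A i, w v ≤ ∑ v, w v :=
        Finset.sum_le_sum_of_subset_of_nonneg (Finset.subset_univ _) fun v _ _ => hw v
      have h4 : (2 : ℝ) ^ l < 2 ^ L := by linarith
      exact (pow_lt_pow_iff_right₀ (by norm_num : (1 : ℝ) < 2)).1 h4
    refine (hx2 l R i h1 h2.le hR).trans (Finset.sum_le_sum fun v _ => ?_)
    exact Finset.single_le_sum (f := fun l => x l R v) (fun l _ => hx0 l R v)
      (Finset.mem_range.2 hlL)
  · intro v
    rw [PEx_sum]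
    have hexp : 2 * Real.exp (-(c₁ * k / 2)) ≤ 1 := by
      have h1 : Real.exp (-(c₁ * k / 2)) ≤ Real.exp (-1) := Real.exp_le_exp.2 (by linarith)
      have h2 : Real.exp (-1) ≤ 1 / 2 := by
        rw [Real.exp_neg, inv_eq_one_div]
        refine one_div_le_one_div_of_le (by norm_num) ?_
        have := Real.add_one_le_exp (1 : ℝ)
        linarith
      linarith
    calc ∑ l ∈ range L, PEx (fun v => k * w v) univ (fun R => x l R v)
        ≤ ∑ l ∈ range L, Real.exp (-(c₁ * k)) * w v * (1 / 2 : ℝ) ^ l := by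
          refine Finset.sum_le_sum fun l _ => (hx3 l v).trans (le_of_eq ?_)
          rw [one_div, inv_pow]; ring
      _ = Real.exp (-(c₁ * k)) * w v * ∑ l ∈ range L, (1 / 2 : ℝ) ^ l := by rw [Finset.mul_sum]
      _ ≤ Real.exp (-(c₁ * k)) * w v * 2 :=
          mul_le_mul_of_nonneg_left hgeo (mul_nonneg (Real.exp_pos _).le (hw v))
      _ = (2 * Real.exp (-(c₁ * k / 2))) * (Real.exp (-(c₁ * k / 2)) * w v) := by
          rw [show -(c₁ * k) = -(c₁ * k / 2) + -(c₁ * k / 2) by ring, Real.exp_add]; ring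
      _ ≤ 1 * (Real.exp (-(c₁ * k / 2)) * w v) :=
          mul_le_mul_of_nonneg_right hexp (mul_nonneg (Real.exp_pos _).le (hw v))
      _ = Real.exp (-(c₁ / 2 * k)) * w v := by
          rw [one_mul]; congr 2; ring

end Pool.Agent.Lib.MP_9b5ec2_co
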