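import Pool.Agent.Lib.MP_9b5ec2_co.Defs4

/-!
# Test sets
-/

set_option autoImplicit false

namespace Pool.Agent.Lib.MP_9b5ec2_co

open Finset

open Classical in
/-- the number of sets with at most `d` points -/
theorem testSets_count (V : Type) [Fintype V] (d : ℕ) :
    ((univ : Finset V).powerset.filter (fun P => P.card ≤ d)).card ≤
      (Fintype.card V + 1) ^ d := by
  have h1 : (univ : Finset V).powerset.filter (fun P => P.card ≤ d) ⊆
      (univ : Finset (Fin d → Option V)).image
        (fun f => univ.filter (fun v => ∃ i, f i = some v)) := by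
    intro P hP
    have hPd : P.card ≤ d := (Finset.mem_filter.1 hP).2
    obtain ⟨e⟩ : Nonempty (P ≃ Fin P.card) := ⟨P.equivFin⟩
    refine Finset.mem_image.2 ⟨fun i => if h : i.1 < P.card then some (e.symm ⟨i.1, h⟩).1 else none,
      Finset.mem_univ _, ?_⟩
    ext v
    rw [Finset.mem_filter]
    constructor
    · rintro ⟨_, i, hi⟩
      dsimp only at hi
      by_cases h : i.1 < P.card
      · rw [dif_pos h] at hi
        have h2 : (e.symm ⟨i.1, h⟩).1 = v := Option.some.inj hi
        rw [← h2]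
        exact (e.symm ⟨i.1, h⟩).2
      · rw [dif_neg h] at hi
        exact absurd hi (by simp)
    · intro hv
      refine ⟨Finset.mem_univ v, ⟨(e ⟨v, hv⟩).1, lt_of_lt_of_le (e ⟨v, hv⟩).2 hPd⟩, ?_⟩
      have h : (e ⟨v, hv⟩).1 < P.card := (e ⟨v, hv⟩).2
      dsimp only
      rw [dif_pos h]
      have h3 : (⟨(e ⟨v, hv⟩).1, h⟩ : Fin P.card) = e ⟨v, hv⟩ := rfl
      rw [h3, e.symm_apply_apply]
  refine (Finset.card_le_card h1).trans (Finset.card_image_le.trans ?_)
  rw [Finset.card_univ, Fintype.card_fun, Fintype.card_option, Fintype.card_fin]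

open Classical in
theorem testSets (h : TraceStmt) : TestStmt := by
  intro m V ι _ _ A s hm hA hs
  obtain ⟨Ps, hPs, _, hcard⟩ := h m V ι A hm hA univ
  have hex : ∀ e : Finset V, ∃ G : Finset V, s ≤ (e.card : ℝ) →
      G ⊆ e ∧ G.card = ⌈s⌉₊ := by
    intro e
    by_cases he : s ≤ (e.card : ℝ)
    · obtain ⟨G, hG1, hG2⟩ := Finset.exists_subset_card_eq (s := e) (n := ⌈s⌉₊)
        (Nat.ceil_le.2 he)
      exact ⟨G, fun _ => ⟨hG1, hG2⟩⟩
    · exact ⟨∅, fun h => absurd h he⟩
  choose g hg using hex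
  refine ⟨(Ps.filter (fun e => s ≤ (e.card : ℝ))).image g, ?_, ?_, ?_⟩
  · intro i hi
    have h1 : A i ∈ Ps := by
      have := hPs i
      rwa [Finset.inter_univ] at this
    refine ⟨g (A i), Finset.mem_image.2 ⟨A i, Finset.mem_filter.2 ⟨h1, hi⟩, rfl⟩,
      (hg (A i) hi).1, ?_⟩
    rw [(hg (A i) hi).2]
    exact Nat.le_ceil s
  · intro G hG
    obtain ⟨e, he, rfl⟩ := Finset.mem_image.1 hG
    rw [(hg e (Finset.mem_filter.1 he).2).2]
    have h1 : (⌈s⌉₊ : ℝ) < s + 1 := Nat.ceil_lt_add_one (by linarith)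
    linarith
  · refine Finset.card_image_le.trans ((Finset.card_filter_le _ _).trans (hcard.trans ?_))
    refine le_trans (le_of_eq ?_) (testSets_count V (2 * m - 2))
    congr

end Pool.Agent.Lib.MP_9b5ec2_co
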