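import Mathlib
import Pool.Agent.Lib.MP_9b5ec2_co.Defs4
import Pool.Agent.Lib.MP_9b5ec2_co.Transfer2

/-! From hereditary families to `TwoCol`, fourth part: integral colourings. -/

set_option autoImplicit false

namespace Pool.Agent.Lib.MP_9b5ec2_co

open Finset

universe u

theorem log_of (hL : LogStmt) (m : ℕ) (η : ℝ) (hη0 : 0 < η) (hη1 : η ≤ 1) :
    ∃ C : ℝ, 0 < C ∧ ∀ (α : Type u) [DecidableEq α] (F : Set (FinHypergraph α)),
      Hereditary F → PolyLE F 2 m → ∀ H ∈ F, ∀ k M : ℕ, 1 ≤ k →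
        C * (k + Real.log (H.verts.card + 2) ^ (1 + η)) ≤ M →
        ∃ c : α → Fin k, Polychromatic k M H c := by
  classical
  obtain ⟨C, hC, hmain⟩ := hL m η hη0 hη1
  refine ⟨C, hC, ?_⟩
  intro α _ F hHer hPoly H hH k M hk hM
  obtain ⟨pt, ed, A, pt_inj, -, -, -, ed_surj, hA, hT⟩ := exists_model hHer hPoly hH
  obtain ⟨T, hdis, hnet⟩ := hmain (Fin H.verts.card) (Fin H.edges.card) A k (M : ℝ) hT hk (by
    rw [Fintype.card_fin]
    exact hM)
  let c : α → Fin k := fun v =>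
    if h : ∃ a, ∃ x ∈ T a, pt x = v then Classical.choose h else ⟨0, hk⟩
  have hc : ∀ (a : Fin k) (x : Fin H.verts.card), x ∈ T a → c (pt x) = a := by
    intro a x hx
    have h : ∃ a, ∃ y ∈ T a, pt y = pt x := ⟨a, x, hx, rfl⟩
    have h1 : c (pt x) = Classical.choose h := dif_pos h
    obtain ⟨y, hy, hyx⟩ := Classical.choose_spec h
    rw [h1]
    by_contra hne
    have h2 := hdis _ _ hne
    rw [pt_inj hyx] at hy
    exact Finset.disjoint_left.1 h2 hy hx
  refine ⟨c, ?_⟩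
  intro e he hcard a
  obtain ⟨i, hi⟩ := ed_surj e he
  have hAe : (A i).image pt = e := (hA i).trans hi
  have hAc : (A i).card = e.card := by
    rw [← hAe, Finset.card_image_of_injective _ pt_inj]
  obtain ⟨x, hx⟩ := hnet a i (by
    rw [hAc]
    exact_mod_cast hcard)
  have hx' := Finset.mem_inter.1 hx
  refine ⟨pt x, ?_, hc a x hx'.2⟩
  rw [← hAe]
  exact Finset.mem_image_of_mem _ hx'.1

end Pool.Agent.Lib.MP_9b5ec2_co
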