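import Mathlib
import Pool.Agent.Lib.MP_9b5ec2_co.Main3
import Pool.Agent.Lib.MP_9b5ec2_co.Half2
import Pool.Agent.Lib.MP_9b5ec2_co.EN2
import Pool.Agent.Lib.MP_9b5ec2_co.CWGT
import Pool.Agent.Lib.MP_9b5ec2_co.BoxAlt
import Pool.Agent.Lib.MP_9b5ec2_co.SD1
import Pool.Agent.Lib.MP_9b5ec2_co.SD2
import Pool.Agent.Lib.MP_9b5ec2_co.Chain
import Pool.Agent.Lib.MP_9b5ec2_co.GreedyNets
import Pool.Agent.Lib.MP_9b5ec2_co.Test
import Pool.Agent.Lib.MP_9b5ec2_co.Const
import Pool.Agent.Lib.MP_9b5ec2_co.LogThm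
import Pool.Agent.Lib.MP_9b5ec2_co.Transfer4

/-! Assembly: integral polychromatic colourings for `k ≥ (log n) ^ (1 + η)`. -/

set_option autoImplicit false

namespace Pool.Agent.Lib.MP_9b5ec2_co

theorem sd2_holds : SD2Stmt :=
  sd2 (sd1 (en2 half2 (trace vc)) (cwgt wgt_holds disc) boxAlt)

theorem chain_holds : ChainStmt := chain sd2_holds

theorem log_holds : LogStmt := logThm chain_holds greedyNets (testSets (trace vc)) consts

end Pool.Agent.Lib.MP_9b5ec2_co
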