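import Pool.Agent.Lib.MP_9b5ec2_co.Defs2

/-!
# Ripeness (MP_9b5ec2_co)
-/

set_option autoImplicit false

namespace Pool.Agent.Lib.MP_9b5ec2_co

open Finset

section ripe

variable {V ι : Type} [Fintype V] [DecidableEq V] [Fintype ι] [DecidableEq ι]

theorem ripe_above_anti (A : ι → Finset V) (K : ℕ) {k l : ℕ} (h : k ≤ l) :
    above A K l ⊆ above A K k := by
  intro u hu
  simp only [above, mem_filter, mem_univ, true_and] at hu ⊢
  exact h.trans hu

/-- the interval property -/
theorem ripe_interval (A : ι → Finset V) (K : ℕ) (T W : Finset V) (c : Bool) (a : ℕ)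
    {k l m : ℕ} (hkl : k ≤ l) (hlm : l ≤ m) {e : ι} (h1 : e ∈ mono A K T W c a k)
    (h2 : e ∈ mono A K T W c a m) : e ∈ mono A K T W c a l := by
  simp only [mono, mem_filter, mem_univ, true_and] at h1 h2 ⊢
  have s1 : A e ∩ (T ∩ above A K l) ⊆ A e ∩ (T ∩ above A K k) :=
    inter_subset_inter_left (inter_subset_inter_left (ripe_above_anti A K hkl))
  have s2 : A e ∩ (T ∩ above A K m) ⊆ A e ∩ (T ∩ above A K l) :=
    inter_subset_inter_left (inter_subset_inter_left (ripe_above_anti A K hlm))
  refine ⟨le_antisymm ?_ ?_, fun x hx => h1.2 x (s1 hx)⟩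
  · rw [← h1.1]
    exact card_le_card s1
  · rw [← h2.1]
    exact card_le_card s2

theorem ripe_core (A : ι → Finset V) (K : ℕ) (T W : Finset V) (a : Bool → ℕ) (ρ : ℝ) (v : V)
    (b : ℕ) (hr : ripe A K T W a ρ b v) (P : Bool → ℕ → Prop)
    (hP : ∀ c k, P c k ↔ ((mono A K T W c (a c) b).filter (fun e => v ∈ A e)).card ≤
      4 * (((mono A K T W c (a c) b).filter (fun e => v ∈ A e)) ∩
        mono A K T W c (a c) k).card)
    (c : Bool) (hc : ∀ k, b ≤ k → P c k → P (!c) k) :
    ∃ (G : Finset ι),
      G ⊆ (mono A K T W c (a c) b).filter (fun e => v ∈ A e) ∧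
      3 * deg A (mono A K T W c (a c) b) v ≤ 4 * G.card ∧
      ∀ e ∈ G, ∀ k, b ≤ k → e ∈ mono A K T W c (a c) k →
        ripe A K T W a (ρ / 4) k v := by
  classical
  have hripe : ∀ k, b ≤ k → P c k → ripe A K T W a (ρ / 4) k v := by
    intro k hk hPk
    have hall : ∀ c', P c' k := by
      intro c'
      rcases Bool.eq_or_eq_not c' c with h | h
      · rw [h]; exact hPk
      · rw [h]; exact hc k hk hPk
    intro c'
    have h1 := hr c'
    have h2 := (hP c' k).mp (hall c')
    have h3 : (((mono A K T W c' (a c') b).filter (fun e => v ∈ A e)) ∩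
        mono A K T W c' (a c') k).card ≤ deg A (mono A K T W c' (a c') k) v := by
      refine card_le_card ?_
      intro e he
      rw [mem_inter, mem_filter] at he
      rw [mem_filter]
      exact ⟨he.2, he.1.2⟩
    have h4 : deg A (mono A K T W c' (a c') b) v ≤
        4 * deg A (mono A K T W c' (a c') k) v := by
      refine le_trans h2 ?_
      omega
    have h5 : (deg A (mono A K T W c' (a c') b) v : ℝ) ≤
        4 * (deg A (mono A K T W c' (a c') k) v : ℝ) := by exact_mod_cast h4
    have h6 : ρ / 4 * (dg A v : ℝ) = ρ * (dg A v : ℝ) / 4 := by ring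
    rw [h6]
    linarith
  by_cases hall : ∀ k, b ≤ k → P c k
  · refine ⟨(mono A K T W c (a c) b).filter (fun e => v ∈ A e), Subset.refl _, ?_, ?_⟩
    · unfold deg
      omega
    · intro e _ k hk _
      exact hripe k hk (hall k hk)
  · push Not at hall
    have hex : ∃ k, b ≤ k ∧ ¬ P c k := hall
    set k0 := Nat.find hex with hk0
    obtain ⟨hb0, hn0⟩ := Nat.find_spec hex
    have hmin : ∀ k, b ≤ k → k < k0 → P c k := by
      intro k hk hlt
      have := Nat.find_min hex hlt
      push Not at this
      exact this hk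
    refine ⟨((mono A K T W c (a c) b).filter (fun e => v ∈ A e)) \ mono A K T W c (a c) k0,
      sdiff_subset, ?_, ?_⟩
    · have h1 : ¬ (((mono A K T W c (a c) b).filter (fun e => v ∈ A e)).card ≤
          4 * (((mono A K T W c (a c) b).filter (fun e => v ∈ A e)) ∩
            mono A K T W c (a c) k0).card) := fun h => hn0 ((hP c k0).mpr h)
      have h2 := card_sdiff_add_card_inter
        ((mono A K T W c (a c) b).filter (fun e => v ∈ A e)) (mono A K T W c (a c) k0)
      unfold deg
      omega
    · intro e he k hk hek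
      rw [mem_sdiff, mem_filter] at he
      refine hripe k hk (hmin k hk ?_)
      by_contra hlt
      push Not at hlt
      exact he.2 (ripe_interval A K T W c (a c) hb0 hlt he.1.1 hek)

end ripe

theorem ripeness : RipeStmt := by
  intro V ι _ _ _ _ A K T W a ρ v _ hr
  classical
  set b := blk A K v + 2 with hb
  let P : Bool → ℕ → Prop := fun c k =>
    ((mono A K T W c (a c) b).filter (fun e => v ∈ A e)).card ≤
      4 * (((mono A K T W c (a c) b).filter (fun e => v ∈ A e)) ∩
        mono A K T W c (a c) k).card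
  have hP : ∀ c k, P c k ↔ ((mono A K T W c (a c) b).filter (fun e => v ∈ A e)).card ≤
      4 * (((mono A K T W c (a c) b).filter (fun e => v ∈ A e)) ∩
        mono A K T W c (a c) k).card := fun c k => Iff.rfl
  have hanti : ∀ c k l, b ≤ k → k ≤ l → P c l → P c k := by
    intro c k l hbk hkl h
    refine le_trans h ?_
    refine Nat.mul_le_mul_left 4 (card_le_card ?_)
    intro e he
    rw [mem_inter, mem_filter] at he ⊢
    exact ⟨he.1, ripe_interval A K T W c (a c) hbk hkl he.1.1 he.2⟩
  by_cases h : ∀ k, b ≤ k → P true k → P false k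
  · obtain ⟨G, h1, h2, h3⟩ := ripe_core A K T W a ρ v b hr P hP true h
    exact ⟨true, G, h1, h2, h3⟩
  · push Not at h
    obtain ⟨k0, hk0, ht, hf⟩ := h
    obtain ⟨G, h1, h2, h3⟩ := ripe_core A K T W a ρ v b hr P hP false (by
      intro k hk hPk
      refine hanti true k k0 hk ?_ ht
      by_contra hlt
      push Not at hlt
      exact hf (hanti false k0 k hk0 hlt.le hPk))
    exact ⟨false, G, h1, h2, h3⟩

end Pool.Agent.Lib.MP_9b5ec2_co
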