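import Mathlib
import Pool.Agent.Lib.MP_9b5ec2_co.Defs3
import Pool.Agent.Lib.MP_9b5ec2_co.Transfer2

/-! From hereditary families to `TwoCol`, third part: fractional polychromatic colourings. -/

set_option autoImplicit false

namespace Pool.Agent.Lib.MP_9b5ec2_co

open Finset

universe u

theorem frac_of (hF : FracStmt) (m : ℕ) :
    ∃ C : ℝ, 0 < C ∧ ∀ (α : Type u) [DecidableEq α] (F : Set (FinHypergraph α)),
      Hereditary F → PolyLE F 2 m → ∀ H ∈ F, ∀ w : α → ℝ, (∀ v, 0 ≤ w v) → ∀ t : ℝ, 0 < t →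
        ∃ q : Finset α → ℝ, (∀ T, 0 ≤ q T) ∧ ∑ T ∈ H.verts.powerset, q T = 1 ∧
          (∀ T ∈ H.verts.powerset, q T ≠ 0 → ∀ e ∈ H.edges, t ≤ ∑ v ∈ e, w v →
            (e ∩ T).Nonempty) ∧
          ∀ v ∈ H.verts, t * ∑ T ∈ H.verts.powerset.filter (fun T => v ∈ T), q T ≤ C * w v := by
  classical
  obtain ⟨C, hC, hmain⟩ := hF m
  refine ⟨C, hC, ?_⟩
  intro α _ F hHer hPoly H hH w hw t ht
  obtain ⟨pt, ed, A, pt_inj, pt_surj, -, -, ed_surj, hA, hT⟩ := exists_model hHer hPoly hH
  obtain ⟨q', q0, q1, q2, q3⟩ := hmain (Fin H.verts.card) (Fin H.edges.card) A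
    (fun i => w (pt i)) t hT (fun i => hw _) ht
  -- the points of the model are the vertices
  have himg : (univ : Finset (Fin H.verts.card)).image pt = H.verts := by
    refine (Finset.eq_of_subset_of_card_le ?_ ?_).symm
    · intro v hv
      obtain ⟨i, hi⟩ := pt_surj v hv
      exact Finset.mem_image.2 ⟨i, Finset.mem_univ _, hi⟩
    · rw [Finset.card_image_of_injective _ pt_inj, Finset.card_univ, Fintype.card_fin]
  have pt_mem : ∀ i, pt i ∈ H.verts := fun i => by
    rw [← himg]
    exact Finset.mem_image_of_mem _ (Finset.mem_univ i)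
  let pre : Finset α → Finset (Fin H.verts.card) := fun T => univ.filter (fun i => pt i ∈ T)
  have hpre : ∀ S : Finset (Fin H.verts.card), pre (S.image pt) = S := by
    intro S
    ext i
    simp only [pre, Finset.mem_filter, Finset.mem_univ, true_and, Finset.mem_image]
    constructor
    · rintro ⟨j, hj, hji⟩
      rwa [← pt_inj hji]
    · intro hi
      exact ⟨i, hi, rfl⟩
  have hpre' : ∀ T, T ⊆ H.verts → (pre T).image pt = T := by
    intro T hTs
    ext v
    simp only [pre, Finset.mem_filter, Finset.mem_univ, true_and, Finset.mem_image]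
    constructor
    · rintro ⟨j, hj, rfl⟩
      exact hj
    · intro hv
      obtain ⟨i, rfl⟩ := pt_surj v (hTs hv)
      exact ⟨i, hv, rfl⟩
  have himgsub : ∀ S : Finset (Fin H.verts.card), S.image pt ⊆ H.verts := by
    intro S v hv
    obtain ⟨i, -, rfl⟩ := Finset.mem_image.1 hv
    exact pt_mem i
  refine ⟨fun T => q' (pre T), fun T => q0 _, ?_, ?_, ?_⟩
  · rw [← q1]
    refine Finset.sum_nbij' (fun T => pre T) (fun S => S.image pt) ?_ ?_ ?_ ?_ ?_
    · intro T _
      exact Finset.mem_univ _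
    · intro S _
      exact Finset.mem_powerset.2 (himgsub S)
    · intro T hTm
      exact hpre' T (Finset.mem_powerset.1 hTm)
    · intro S _
      exact hpre S
    · intro T _
      rfl
  · intro T hTm hq e he hwt
    have hTs := Finset.mem_powerset.1 hTm
    obtain ⟨i, hi⟩ := ed_surj e he
    have hAe : (A i).image pt = e := (hA i).trans hi
    have hsum : ∑ v ∈ A i, w (pt v) = ∑ v ∈ e, w v := by
      rw [← hAe, Finset.sum_image fun x _ y _ h => pt_inj h]
    obtain ⟨x, hx⟩ := q2 (pre T) hq i (by rw [hsum]; exact hwt)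
    have hx' := Finset.mem_inter.1 hx
    refine ⟨pt x, Finset.mem_inter.2 ⟨?_, ?_⟩⟩
    · rw [← hAe]
      exact Finset.mem_image_of_mem _ hx'.1
    · exact (Finset.mem_filter.1 hx'.2).2
  · intro v hv
    obtain ⟨i, rfl⟩ := pt_surj v hv
    have h1 : ∑ T ∈ H.verts.powerset.filter (fun T => pt i ∈ T), q' (pre T) =
        ∑ S ∈ univ.filter (fun S : Finset (Fin H.verts.card) => i ∈ S), q' S := by
      refine Finset.sum_nbij' (fun T => pre T) (fun S => S.image pt) ?_ ?_ ?_ ?_ ?_
      · intro T hTm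
        refine Finset.mem_filter.2 ⟨Finset.mem_univ _, ?_⟩
        exact Finset.mem_filter.2 ⟨Finset.mem_univ _, (Finset.mem_filter.1 hTm).2⟩
      · intro S hS
        exact Finset.mem_filter.2 ⟨Finset.mem_powerset.2 (himgsub S),
          Finset.mem_image_of_mem _ (Finset.mem_filter.1 hS).2⟩
      · intro T hTm
        exact hpre' T (Finset.mem_powerset.1 (Finset.mem_filter.1 hTm).1)
      · intro S _
        exact hpre S
      · intro T _
        rfl
    rw [h1]
    exact q3 i

end Pool.Agent.Lib.MP_9b5ec2_co
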