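import Pool.Agent.Lib.MP_9b5ec2_co.Defs3

/-! The averaged packing theorem. -/

set_option autoImplicit false

namespace Pool.Agent.Lib.MP_9b5ec2_co

open Finset

theorem wgt_cd_restr {V ι : Type} [Fintype V] [DecidableEq V] [Fintype ι] [DecidableEq ι]
    (A : ι → Finset V) (X : Finset V) (s γ : ℝ) (h : CD A s γ) : CD (gtRestr A X) s γ := by
  intro v
  rw [gtRestr_dg]
  refine le_trans ?_ (h v.1)
  have h1 : ∀ u : {x // x ∈ X}, codeg (gtRestr A X) u v = codeg A u.1 v.1 := by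
    intro u
    unfold codeg
    congr 1
    ext e
    simp only [Finset.mem_filter, Finset.mem_univ, true_and]
    rw [gtRestr_mem, gtRestr_mem]
  have h2 : ∑ u : {x // x ∈ X}, (codeg (gtRestr A X) u v : ℝ) ^ 2 =
      ∑ u ∈ X, (codeg A u v.1 : ℝ) ^ 2 := by
    rw [← Finset.sum_coe_sort X (fun u => (codeg A u v.1 : ℝ) ^ 2)]
    exact Finset.sum_congr rfl fun u _ => by rw [h1 u]
  rw [h2]
  exact Finset.sum_le_sum_of_subset_of_nonneg (Finset.subset_univ _) fun u _ _ => sq_nonneg _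

theorem wgt_cd_mono {V ι : Type} [Fintype V] [DecidableEq V] [Fintype ι] [DecidableEq ι]
    (A : ι → Finset V) (s γ γ' : ℝ) (hs : 0 ≤ s) (hγ : γ ≤ γ') (h : CD A s γ) : CD A s γ' := by
  intro v
  refine (h v).trans ?_
  exact mul_le_mul_of_nonneg_right (mul_le_mul_of_nonneg_right hγ hs) (sq_nonneg _)

theorem wgt (h1 : Spread2Stmt) (h2 : Prep2Stmt) (h3 : Window2Stmt) : WGTStmt := by
  intro m hm
  obtain ⟨θ, δ₁, η, ε, γS, ξ, hθ0, hθ1, hδ0, hδ1, hη, hε, hε1, hγS, hγS1, hξ, hS⟩ :=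
    h1 m hm
  obtain ⟨K, hK2, hK⟩ := h2 θ δ₁ ξ hθ0 hδ0 hδ1 hξ
  obtain ⟨ΛW, γW, sW, hΛW, hγW, hsW, hW⟩ := h3 m η ε K hm hη hε hK2
  obtain ⟨γP, hγP, hP⟩ := hK K le_rfl
  refine ⟨ΛW, min γS (min γW γP), sW, hΛW, lt_min hγS (lt_min hγW hγP), hsW, ?_⟩
  intro V ι _ _ _ _ A s hTC hs hN hsize hNs hCD hdg
  have hs1 : 1 ≤ s := hsW.trans hs
  have hs0 : 0 < s := by linarith
  have hNs0 : 0 < (Fintype.card ι : ℝ) * s := by
    have : (0 : ℝ) < Fintype.card ι := by exact_mod_cast hN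
    positivity
  have hdg1 : ∀ v, 1 ≤ dg A v := by
    intro v
    have : (1 : ℝ) ≤ (dg A v : ℝ) := hΛW.trans (hdg v)
    exact_mod_cast this
  obtain ⟨X, hX2, hX3⟩ := hP V ι A s hs1 hN hsize hNs (wgt_cd_mono A s _ γP hs0.le
    ((min_le_right _ _).trans (min_le_right _ _)) hCD) hdg1
  have hmass : mass (gtRestr A X) = ∑ v ∈ X, (dg A v : ℝ) := gtRestr_mass A X
  have hmass0 : 0 < mass (gtRestr A X) := by
    rw [hmass]
    linarith
  have hXne : X.Nonempty := by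
    rw [Finset.nonempty_iff_ne_empty]
    rintro rfl
    rw [hmass, Finset.sum_empty] at hmass0
    exact lt_irrefl _ hmass0
  have hcardV : 0 < Fintype.card {x // x ∈ X} := by
    obtain ⟨v, hv⟩ := hXne
    exact Fintype.card_pos_iff.2 ⟨⟨v, hv⟩⟩
  have hTC' : TwoCol m (gtRestr A X) := gtRestr_twoCol X hTC
  have hsize' : ∀ e, (((gtRestr A X) e).card : ℝ) ≤ 2 * s := fun e =>
    le_trans (by exact_mod_cast gtRestr_card_le A X e) (hsize e)
  have hCD' : ∀ γ : ℝ, min γS (min γW γP) ≤ γ → CD (gtRestr A X) s γ := fun γ hγ =>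
    wgt_cd_mono _ s _ γ hs0.le hγ (wgt_cd_restr A X s _ hCD)
  have hdg' : ∀ v, ΛW ≤ (dg (gtRestr A X) v : ℝ) := by
    intro v
    rw [gtRestr_dg]
    exact hdg v.1
  have hspread : Spread (gtRestr A X) K s η ε :=
    hW {x // x ∈ X} ι (gtRestr A X) s hTC' hs hsize'
      (hCD' γW ((min_le_right _ _).trans (min_le_left _ _))) hdg'
  refine hS {x // x ∈ X} ι (gtRestr A X) K s hK2 hs1 hTC' hcardV hsize'
    (hCD' γS (min_le_left _ _)) (fun v => ?_) ?_ hspread ?_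
  · rw [gtRestr_dg]
    exact hdg1 v.1
  · rw [← hmass] at hX2
    exact hX2
  · rw [gtRestr_blockSum]
    exact hX3

end Pool.Agent.Lib.MP_9b5ec2_co
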